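import Pool.Agent.Work.MP_884187_pr.Stmts

/-!
MP_884187_pr, item A1: the triangle inequality for `W_p`, by gluing of couplings.
-/

open MeasureTheory Set Filter Topology ProbabilityTheory

namespace Match2D

theorem A1_continuous_len : Continuous len := by
  unfold len
  fun_prop

theorem A1_measurable_len : Measurable len := A1_continuous_len.measurable

theorem A1_len_nonneg (v : ℝ × ℝ) : 0 ≤ len v := Real.sqrt_nonneg _

theorem A1_len_sq (v : ℝ × ℝ) : len v ^ 2 = v.1 ^ 2 + v.2 ^ 2 :=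
  Real.sq_sqrt (by positivity)

theorem A1_len_zero : len 0 = 0 := by
  simp [len]

theorem A1_len_neg (v : ℝ × ℝ) : len (-v) = len v := by
  simp [len]

theorem A1_len_sub_comm (v w : ℝ × ℝ) : len (v - w) = len (w - v) := by
  rw [← A1_len_neg, neg_sub]

/-- `len` is the norm of the complex number with the same coordinates. -/
theorem A1_len_eq_norm (v : ℝ × ℝ) : len v = ‖(⟨v.1, v.2⟩ : ℂ)‖ := by
  rw [Complex.norm_def, Complex.normSq_mk, len]
  congr 1
  ring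

/-- Triangle inequality for `len`. -/
theorem A1_len_add_le (v w : ℝ × ℝ) : len (v + w) ≤ len v + len w := by
  rw [A1_len_eq_norm, A1_len_eq_norm, A1_len_eq_norm]
  have : (⟨(v + w).1, (v + w).2⟩ : ℂ) = ⟨v.1, v.2⟩ + ⟨w.1, w.2⟩ := by
    apply Complex.ext <;> simp
  rw [this]
  exact norm_add_le _ _

theorem A1_len_sub_le (x y z : ℝ × ℝ) : len (x - z) ≤ len (x - y) + len (y - z) := by
  have : x - z = (x - y) + (y - z) := by abel
  rw [this]
  exact A1_len_add_le _ _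

theorem A1_ofReal_rpow (p : ℝ) (hp : 0 ≤ p) (v : ℝ × ℝ) :
    ENNReal.ofReal (len v ^ p) = (ENNReal.ofReal (len v)) ^ p :=
  (ENNReal.ofReal_rpow_of_nonneg (A1_len_nonneg v) hp).symm

/-- The cost of a coupling. -/
noncomputable def A1_cost (p : ℝ) (π : Measure ((ℝ × ℝ) × (ℝ × ℝ))) : ENNReal :=
  ∫⁻ z, ENNReal.ofReal (len (z.1 - z.2) ^ p) ∂π

theorem A1_Wpp_le_cost (p : ℝ) {ν ρ : Measure (ℝ × ℝ)} {π : Measure ((ℝ × ℝ) × (ℝ × ℝ))}
    (h1 : π.map Prod.fst = ν) (h2 : π.map Prod.snd = ρ) : Wpp p ν ρ ≤ A1_cost p π :=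
  iInf₂_le_of_le π ⟨h1, h2⟩ le_rfl

theorem A1_le_Wpp (p : ℝ) {ν ρ : Measure (ℝ × ℝ)} {c : ENNReal}
    (h : ∀ π : Measure ((ℝ × ℝ) × (ℝ × ℝ)), π.map Prod.fst = ν → π.map Prod.snd = ρ →
      c ≤ A1_cost p π) : c ≤ Wpp p ν ρ :=
  le_iInf₂ fun π hπ => h π hπ.1 hπ.2

/-- Gluing of two couplings along their common marginal. -/
theorem A1_glue {α β δ : Type*} [MeasurableSpace α] [MeasurableSpace β] [MeasurableSpace δ]
    [StandardBorelSpace δ] [Nonempty δ]
    (π₁ : Measure (α × β)) (π₂ : Measure (β × δ)) [IsProbabilityMeasure π₁]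
    [IsProbabilityMeasure π₂] (h : π₁.map Prod.snd = π₂.map Prod.fst) :
    ∃ γ : Measure ((α × β) × δ), IsProbabilityMeasure γ ∧ γ.map Prod.fst = π₁ ∧
      γ.map (fun z => (z.1.2, z.2)) = π₂ := by
  have hm : Measurable (Prod.snd : α × β → β) := measurable_snd
  refine ⟨π₁ ⊗ₘ (π₂.condKernel.comap Prod.snd hm), inferInstance, ?_, ?_⟩
  · exact Measure.fst_compProd _ _
  · have hmm : Measurable (fun z : (α × β) × δ => (z.1.2, z.2)) := by fun_prop
    have hdis : π₂.fst ⊗ₘ π₂.condKernel = π₂ := π₂.disintegrate π₂.condKernel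
    conv_rhs => rw [← hdis]
    ext s hs
    rw [Measure.map_apply hmm hs, Measure.compProd_apply (hmm hs), Measure.compProd_apply hs]
    have hfst : π₂.fst = π₁.map Prod.snd := h.symm
    rw [hfst, lintegral_map (Kernel.measurable_kernel_prodMk_left hs) hm]
    rfl

/-- The inequality for given couplings. -/
theorem A1_couplings (p : ℝ) (hp : 1 ≤ p) (ν₁ ν₂ ν₃ : Measure (ℝ × ℝ))
    [IsProbabilityMeasure ν₁] [IsProbabilityMeasure ν₂] [IsProbabilityMeasure ν₃]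
    (π₁ π₂ : Measure ((ℝ × ℝ) × (ℝ × ℝ)))
    (h11 : π₁.map Prod.fst = ν₁) (h12 : π₁.map Prod.snd = ν₂)
    (h21 : π₂.map Prod.fst = ν₂) (h22 : π₂.map Prod.snd = ν₃) :
    (Wpp p ν₁ ν₃) ^ (1 / p) ≤ (A1_cost p π₁) ^ (1 / p) + (A1_cost p π₂) ^ (1 / p) := by
  have hp0 : 0 < p := by linarith
  have hP1 : IsProbabilityMeasure π₁ := by
    have : IsProbabilityMeasure (π₁.map Prod.fst) := by rw [h11]; infer_instance
    exact (Measure.isProbabilityMeasure_map_iff measurable_fst.aemeasurable).1 this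
  have hP2 : IsProbabilityMeasure π₂ := by
    have : IsProbabilityMeasure (π₂.map Prod.fst) := by rw [h21]; infer_instance
    exact (Measure.isProbabilityMeasure_map_iff measurable_fst.aemeasurable).1 this
  obtain ⟨γ, hγ, hγ1, hγ2⟩ := A1_glue π₁ π₂ (h12.trans h21.symm)
  have m13 : Measurable (fun z : ((ℝ × ℝ) × (ℝ × ℝ)) × (ℝ × ℝ) => (z.1.1, z.2)) := by fun_prop
  have m23 : Measurable (fun z : ((ℝ × ℝ) × (ℝ × ℝ)) × (ℝ × ℝ) => (z.1.2, z.2)) := by fun_prop
  have k1 : (γ.map (fun z => (z.1.1, z.2))).map Prod.fst = ν₁ := by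
    rw [Measure.map_map measurable_fst m13, ← h11, ← hγ1, Measure.map_map measurable_fst
      measurable_fst]
    rfl
  have k2 : (γ.map (fun z => (z.1.1, z.2))).map Prod.snd = ν₃ := by
    rw [Measure.map_map measurable_snd m13, ← h22, ← hγ2, Measure.map_map measurable_snd m23]
    rfl
  have hle := A1_Wpp_le_cost p k1 k2
  have mcost : Measurable (fun z : (ℝ × ℝ) × (ℝ × ℝ) => ENNReal.ofReal (len (z.1 - z.2) ^ p)) := by
    have : Measurable (fun z : (ℝ × ℝ) × (ℝ × ℝ) => len (z.1 - z.2)) :=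
      A1_measurable_len.comp (measurable_fst.sub measurable_snd)
    exact (this.pow_const p).ennreal_ofReal
  have c13 : A1_cost p (γ.map (fun z => (z.1.1, z.2))) =
      ∫⁻ z, (ENNReal.ofReal (len (z.1.1 - z.2))) ^ p ∂γ := by
    unfold A1_cost
    rw [lintegral_map mcost m13]
    exact lintegral_congr fun z => A1_ofReal_rpow p hp0.le _
  have c12 : A1_cost p π₁ = ∫⁻ z, (ENNReal.ofReal (len (z.1.1 - z.1.2))) ^ p ∂γ := by
    unfold A1_cost
    rw [← hγ1, lintegral_map mcost measurable_fst]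
    exact lintegral_congr fun z => A1_ofReal_rpow p hp0.le _
  have c23 : A1_cost p π₂ = ∫⁻ z, (ENNReal.ofReal (len (z.1.2 - z.2))) ^ p ∂γ := by
    unfold A1_cost
    rw [← hγ2, lintegral_map mcost m23]
    exact lintegral_congr fun z => A1_ofReal_rpow p hp0.le _
  have mf : AEMeasurable (fun z : ((ℝ × ℝ) × (ℝ × ℝ)) × (ℝ × ℝ) =>
      ENNReal.ofReal (len (z.1.1 - z.1.2))) γ := by
    have : Measurable (fun z : ((ℝ × ℝ) × (ℝ × ℝ)) × (ℝ × ℝ) => z.1.1 - z.1.2) := by fun_prop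
    exact ((A1_measurable_len.comp this).ennreal_ofReal).aemeasurable
  have mg : AEMeasurable (fun z : ((ℝ × ℝ) × (ℝ × ℝ)) × (ℝ × ℝ) =>
      ENNReal.ofReal (len (z.1.2 - z.2))) γ := by
    have : Measurable (fun z : ((ℝ × ℝ) × (ℝ × ℝ)) × (ℝ × ℝ) => z.1.2 - z.2) := by fun_prop
    exact ((A1_measurable_len.comp this).ennreal_ofReal).aemeasurable
  have hmink := ENNReal.lintegral_Lp_add_le mf mg hp
  rw [c12, c23]
  refine le_trans (ENNReal.rpow_le_rpow (hle.trans_eq c13) (by positivity)) (le_trans ?_ hmink)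
  refine ENNReal.rpow_le_rpow (lintegral_mono fun z => ?_) (by positivity)
  refine ENNReal.rpow_le_rpow ?_ hp0.le
  simp only [Pi.add_apply]
  rw [← ENNReal.ofReal_add (A1_len_nonneg _) (A1_len_nonneg _)]
  exact ENNReal.ofReal_le_ofReal (A1_len_sub_le _ _ _)

/-- Passing to the infimum inside a root. -/
theorem A1_inf (p : ℝ) (hp : 0 < p) (ν ρ : Measure (ℝ × ℝ)) (X c : ENNReal)
    (h : ∀ π : Measure ((ℝ × ℝ) × (ℝ × ℝ)), π.map Prod.fst = ν → π.map Prod.snd = ρ →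
      X ≤ (A1_cost p π) ^ (1 / p) + c) : X ≤ (Wpp p ν ρ) ^ (1 / p) + c := by
  rw [← tsub_le_iff_right, one_div, ENNReal.le_rpow_inv_iff hp]
  refine A1_le_Wpp p fun π h1 h2 => ?_
  rw [← ENNReal.le_rpow_inv_iff hp, tsub_le_iff_right, ← one_div]
  exact h π h1 h2

theorem A1 : StmtA1 := by
  intro p hp ν₁ ν₂ ν₃ i₁ i₂ i₃
  have hp0 : 0 < p := by linarith
  refine A1_inf p hp0 ν₁ ν₂ _ _ fun π₁ h11 h12 => ?_
  rw [add_comm]
  refine A1_inf p hp0 ν₂ ν₃ _ _ fun π₂ h21 h22 => ?_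
  rw [add_comm]
  exact A1_couplings p hp ν₁ ν₂ ν₃ π₁ π₂ h11 h12 h21 h22

end Match2D
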