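import Pool.Agent.Work.MP_884187_pr.Stmts

/-!
MP_884187_pr, items A0 and A2: elementary inequality, convexity of `W_p^p`, the bound by the product
coupling.
-/

open MeasureTheory Set Filter Topology

namespace Match2D

theorem A0 : StmtA0 := by
  intro p hp δ hδ
  rcases eq_or_lt_of_le hp with rfl | hp1
  · refine ⟨1, le_refl _, fun a b ha hb => ?_⟩
    simp only [Real.rpow_one]
    nlinarith
  · have hp0 : 0 < p - 1 := by linarith
    have h1 : (1 : ℝ) < 1 + δ := by linarith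
    have hpos : (0 : ℝ) < 1 + δ := by linarith
    set th : ℝ := (1 + δ) ^ (-(1 / (p - 1))) with hth
    have hth0 : 0 < th := Real.rpow_pos_of_pos hpos _
    have hth1 : th < 1 := by
      apply Real.rpow_lt_one_of_one_lt_of_neg h1
      have : 0 < 1 / (p - 1) := by positivity
      linarith
    have hthp : th ^ (1 - p) = 1 + δ := by
      rw [hth, ← Real.rpow_mul hpos.le]
      have : -(1 / (p - 1)) * (1 - p) = 1 := by
        field_simp
        ring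
      rw [this, Real.rpow_one]
    have h1t : 0 < 1 - th := by linarith
    refine ⟨(1 - th) ^ (1 - p), ?_, fun a b ha hb => ?_⟩
    · exact Real.one_le_rpow_of_pos_of_le_one_of_nonpos h1t (by linarith) (by linarith)
    · have hconv := (convexOn_rpow hp).2 (x := a / th) (y := b / (1 - th))
        (by simp only [mem_Ici]; positivity) (by simp only [mem_Ici]; positivity)
        hth0.le h1t.le (by ring)
      simp only [smul_eq_mul] at hconv
      have e1 : th * (a / th) + (1 - th) * (b / (1 - th)) = a + b := by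
        field_simp
      rw [e1] at hconv
      have e2 : ∀ s x : ℝ, 0 < s → 0 ≤ x → s * (x / s) ^ p = s ^ (1 - p) * x ^ p := by
        intro s x hs hx
        rw [Real.div_rpow hx hs.le, Real.rpow_sub hs, Real.rpow_one]
        ring
      rw [e2 th a hth0 ha, e2 (1 - th) b h1t hb, hthp] at hconv
      exact hconv

theorem A2_zero (p : ℝ) : Wpp p 0 0 = 0 := by
  apply le_antisymm _ zero_le
  refine iInf₂_le_of_le 0 ⟨by simp, by simp⟩ (by simp)

theorem A2_add (p : ℝ) (ν₁ ν₂ ρ₁ ρ₂ : Measure (ℝ × ℝ)) :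
    Wpp p (ν₁ + ν₂) (ρ₁ + ρ₂) ≤ Wpp p ν₁ ρ₁ + Wpp p ν₂ ρ₂ := by
  have h : ∀ π₁ : Measure ((ℝ × ℝ) × (ℝ × ℝ)), (π₁.map Prod.fst = ν₁ ∧ π₁.map Prod.snd = ρ₁) →
      ∀ π₂ : Measure ((ℝ × ℝ) × (ℝ × ℝ)), (π₂.map Prod.fst = ν₂ ∧ π₂.map Prod.snd = ρ₂) →
      Wpp p (ν₁ + ν₂) (ρ₁ + ρ₂) ≤ (∫⁻ z, ENNReal.ofReal (len (z.1 - z.2) ^ p) ∂π₁) +
        ∫⁻ z, ENNReal.ofReal (len (z.1 - z.2) ^ p) ∂π₂ := by
    intro π₁ h₁ π₂ h₂
    refine iInf₂_le_of_le (π₁ + π₂) ⟨?_, ?_⟩ ?_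
    · rw [Measure.map_add _ _ measurable_fst, h₁.1, h₂.1]
    · rw [Measure.map_add _ _ measurable_snd, h₁.2, h₂.2]
    · rw [lintegral_add_measure]
  unfold Wpp
  rw [ENNReal.iInf_add]
  refine le_iInf (fun π₁ => ?_)
  rw [ENNReal.iInf_add]
  refine le_iInf (fun h₁ => ?_)
  rw [ENNReal.add_iInf]
  refine le_iInf (fun π₂ => ?_)
  rw [ENNReal.add_iInf]
  refine le_iInf (fun h₂ => ?_)
  exact h π₁ h₁ π₂ h₂

theorem A2_smul (p : ℝ) (a : ENNReal) (ha : a ≠ ⊤) (ν ρ : Measure (ℝ × ℝ)) :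
    Wpp p (a • ν) (a • ρ) ≤ a * Wpp p ν ρ := by
  rcases eq_or_ne a 0 with rfl | h0
  · rw [zero_smul, zero_smul, A2_zero, zero_mul]
  · have h : ∀ π : Measure ((ℝ × ℝ) × (ℝ × ℝ)), (π.map Prod.fst = ν ∧ π.map Prod.snd = ρ) →
        Wpp p (a • ν) (a • ρ) ≤ a * ∫⁻ z, ENNReal.ofReal (len (z.1 - z.2) ^ p) ∂π := by
      intro π h
      refine iInf₂_le_of_le (a • π) ⟨?_, ?_⟩ ?_
      · rw [Measure.map_smul, h.1]
      · rw [Measure.map_smul, h.2]
      · rw [lintegral_smul_measure, smul_eq_mul]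
    unfold Wpp
    rw [ENNReal.mul_iInf_of_ne h0 ha]
    refine le_iInf (fun π => ?_)
    rw [ENNReal.mul_iInf_of_ne h0 ha]
    refine le_iInf (fun hπ => ?_)
    exact h π hπ

theorem A2_sum (p : ℝ) {ι : Type} (s : Finset ι) (a : ι → ENNReal) (ν ρ : ι → Measure (ℝ × ℝ))
    (ha : ∀ i, a i ≠ ⊤) :
    Wpp p (∑ i ∈ s, a i • ν i) (∑ i ∈ s, a i • ρ i) ≤ ∑ i ∈ s, a i * Wpp p (ν i) (ρ i) := by
  classical
  induction s using Finset.induction_on with
  | empty => simp [A2_zero]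
  | insert i s hi ih =>
    rw [Finset.sum_insert hi, Finset.sum_insert hi, Finset.sum_insert hi]
    exact (A2_add p _ _ _ _).trans (add_le_add (A2_smul p _ (ha i) _ _) ih)

theorem A2_prod (p : ℝ) (hp : 1 ≤ p) (ν ρ : Measure (ℝ × ℝ)) (A B : Set (ℝ × ℝ)) (D : ℝ)
    (hν : IsProbabilityMeasure ν) (hρ : IsProbabilityMeasure ρ) (hD : 0 ≤ D) (hA : ν Aᶜ = 0)
    (hB : ρ Bᶜ = 0) (hd : ∀ x ∈ A, ∀ y ∈ B, len (x - y) ≤ D) :
    Wpp p ν ρ ≤ ENNReal.ofReal (D ^ p) := by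
  refine iInf₂_le_of_le (ν.prod ρ) ⟨?_, ?_⟩ ?_
  · rw [Measure.map_fst_prod, measure_univ, one_smul]
  · rw [Measure.map_snd_prod, measure_univ, one_smul]
  · have hae : ∀ᵐ z ∂(ν.prod ρ), z.1 ∈ A ∧ z.2 ∈ B := by
      rw [ae_iff]
      have hsub : {z : (ℝ × ℝ) × (ℝ × ℝ) | ¬(z.1 ∈ A ∧ z.2 ∈ B)} ⊆
          (Aᶜ ×ˢ univ) ∪ (univ ×ˢ Bᶜ) := by
        intro z hz
        by_cases h1 : z.1 ∈ A
        · right
          exact ⟨mem_univ _, fun h2 => hz ⟨h1, h2⟩⟩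
        · left
          exact ⟨h1, mem_univ _⟩
      refine measure_mono_null hsub (measure_union_null ?_ ?_)
      · rw [Measure.prod_prod, hA, zero_mul]
      · rw [Measure.prod_prod, hB, mul_zero]
    calc ∫⁻ z, ENNReal.ofReal (len (z.1 - z.2) ^ p) ∂(ν.prod ρ)
        ≤ ∫⁻ _, ENNReal.ofReal (D ^ p) ∂(ν.prod ρ) := by
          apply lintegral_mono_ae
          filter_upwards [hae] with z hz
          apply ENNReal.ofReal_le_ofReal
          exact Real.rpow_le_rpow (Real.sqrt_nonneg _) (hd _ hz.1 _ hz.2) (by linarith)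
      _ = ENNReal.ofReal (D ^ p) := by
          rw [lintegral_const, measure_univ, mul_one]

theorem A2 : StmtA2 :=
  ⟨fun p _ _ s a ν ρ ha => A2_sum p s a ν ρ ha,
    fun p hp ν ρ A B D hν hρ hD hA hB hd => A2_prod p hp ν ρ A B D hν hρ hD hA hB hd⟩

end Match2D
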