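import Pool.Agent.Work.MP_884187_pr.A2

/-!
MP_884187_pr, item A5: a finite coupling of cell masses gives a coupling of cellwise constant
densities.
-/

open MeasureTheory Set Filter Topology

namespace Match2D

theorem A5_len_add (v w : ℝ × ℝ) : len (v + w) ≤ len v + len w := by
  unfold len
  have hA : 0 ≤ v.1 ^ 2 + v.2 ^ 2 := by positivity
  have hB : 0 ≤ w.1 ^ 2 + w.2 ^ 2 := by positivity
  rw [Real.sqrt_le_iff]
  refine ⟨by positivity, ?_⟩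
  have h1 : v.1 * w.1 + v.2 * w.2 ≤ Real.sqrt (v.1 ^ 2 + v.2 ^ 2) * Real.sqrt (w.1 ^ 2 + w.2 ^ 2) := by
    rw [← Real.sqrt_mul hA]
    apply Real.le_sqrt_of_sq_le
    nlinarith [sq_nonneg (v.1 * w.2 - v.2 * w.1)]
  simp only [Prod.fst_add, Prod.snd_add]
  nlinarith [Real.sq_sqrt hA, Real.sq_sqrt hB]

theorem A5_len_le (v : ℝ × ℝ) : len v ≤ |v.1| + |v.2| := by
  unfold len
  rw [Real.sqrt_le_iff]
  refine ⟨by positivity, ?_⟩
  nlinarith [abs_nonneg v.1, abs_nonneg v.2, sq_abs v.1, sq_abs v.2]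

/-- The half-open cell of the grid of mesh `1/N`. -/
def A5_cell (N : ℕ) (c : Fin N × Fin N) : Set (ℝ × ℝ) :=
  Ico (((c.1 : ℕ) : ℝ) / N) ((((c.1 : ℕ) : ℝ) + 1) / N) ×ˢ
    Ico (((c.2 : ℕ) : ℝ) / N) ((((c.2 : ℕ) : ℝ) + 1) / N)

theorem A5_meas (N : ℕ) (c : Fin N × Fin N) : MeasurableSet (A5_cell N c) :=
  measurableSet_Ico.prod measurableSet_Ico

/-- The uniform probability measure of a cell. -/
noncomputable def A5_mu (N : ℕ) (c : Fin N × Fin N) : Measure (ℝ × ℝ) :=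
  ENNReal.ofReal ((N : ℝ) ^ 2) • volume.restrict (A5_cell N c)

theorem A5_vol (N : ℕ) (c : Fin N × Fin N) :
    volume (A5_cell N c) = ENNReal.ofReal (1 / N) * ENNReal.ofReal (1 / N) := by
  unfold A5_cell
  rw [Measure.volume_eq_prod, Measure.prod_prod, Real.volume_Ico, Real.volume_Ico]
  congr 2 <;> ring

theorem A5_prob (N : ℕ) (hN : 0 < N) (c : Fin N × Fin N) : IsProbabilityMeasure (A5_mu N c) := by
  constructor
  have hN' : (0 : ℝ) < N := by exact_mod_cast hN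
  rw [A5_mu, Measure.smul_apply, Measure.restrict_apply_univ, A5_vol, smul_eq_mul,
    ← ENNReal.ofReal_mul (by positivity), ← ENNReal.ofReal_mul (by positivity)]
  have : (N : ℝ) ^ 2 * (1 / N * (1 / N)) = 1 := by field_simp
  rw [this, ENNReal.ofReal_one]

theorem A5_mu_compl (N : ℕ) (c : Fin N × Fin N) : A5_mu N c (A5_cell N c)ᶜ = 0 := by
  rw [A5_mu, Measure.smul_apply, Measure.restrict_apply (A5_meas N c).compl, compl_inter_self,
    measure_empty, smul_zero]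

theorem A5_mem_floor (N : ℕ) (hN : 0 < N) (c : Fin N × Fin N) (z : ℝ × ℝ) (h : z ∈ A5_cell N c) :
    (⌊(N : ℝ) * z.1⌋₊, ⌊(N : ℝ) * z.2⌋₊) = ((c.1 : ℕ), (c.2 : ℕ)) := by
  have hN' : (0 : ℝ) < N := by exact_mod_cast hN
  obtain ⟨⟨h1, h2⟩, h3, h4⟩ := h
  rw [div_le_iff₀ hN'] at h1 h3
  rw [lt_div_iff₀ hN'] at h2 h4
  have e1 : ⌊(N : ℝ) * z.1⌋₊ = (c.1 : ℕ) := by
    rw [Nat.floor_eq_iff (by
      have : (0 : ℝ) ≤ ((c.1 : ℕ) : ℝ) := Nat.cast_nonneg _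
      nlinarith)]
    constructor <;> nlinarith
  have e2 : ⌊(N : ℝ) * z.2⌋₊ = (c.2 : ℕ) := by
    rw [Nat.floor_eq_iff (by
      have : (0 : ℝ) ≤ ((c.2 : ℕ) : ℝ) := Nat.cast_nonneg _
      nlinarith)]
    constructor <;> nlinarith
  rw [e1, e2]

theorem A5_cell_sub (N : ℕ) (hN : 0 < N) (c : Fin N × Fin N) : A5_cell N c ⊆ Sq0 := by
  have hN' : (0 : ℝ) < N := by exact_mod_cast hN
  have h1 : (((c.1 : ℕ) : ℝ) + 1) / N ≤ 1 := by
    rw [div_le_one hN']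
    exact_mod_cast c.1.2
  have h2 : (((c.2 : ℕ) : ℝ) + 1) / N ≤ 1 := by
    rw [div_le_one hN']
    exact_mod_cast c.2.2
  rintro z ⟨⟨h3, h4⟩, h5, h6⟩
  exact ⟨⟨le_trans (by positivity) h3, h4.trans_le h1⟩,
    ⟨le_trans (by positivity) h5, h6.trans_le h2⟩⟩

theorem A5_exists_cell (N : ℕ) (hN : 0 < N) (z : ℝ × ℝ) (hz : z ∈ Sq0) :
    ∃ c : Fin N × Fin N, z ∈ A5_cell N c := by
  have hN' : (0 : ℝ) < N := by exact_mod_cast hN
  obtain ⟨⟨h1, h2⟩, h3, h4⟩ := hz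
  have a1 : 0 ≤ (N : ℝ) * z.1 := by positivity
  have a2 : 0 ≤ (N : ℝ) * z.2 := by positivity
  have b1 : ⌊(N : ℝ) * z.1⌋₊ < N := by
    rw [Nat.floor_lt a1]; nlinarith
  have b2 : ⌊(N : ℝ) * z.2⌋₊ < N := by
    rw [Nat.floor_lt a2]; nlinarith
  refine ⟨(⟨_, b1⟩, ⟨_, b2⟩), ⟨?_, ?_⟩, ?_, ?_⟩
  · rw [div_le_iff₀ hN']; exact (Nat.floor_le a1).trans_eq (mul_comm _ _)
  · rw [lt_div_iff₀ hN']; exact (mul_comm _ _).trans_lt (Nat.lt_floor_add_one _)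
  · rw [div_le_iff₀ hN']; exact (Nat.floor_le a2).trans_eq (mul_comm _ _)
  · rw [lt_div_iff₀ hN']; exact (mul_comm _ _).trans_lt (Nat.lt_floor_add_one _)

theorem A5_disj (N : ℕ) (hN : 0 < N) (c c' : Fin N × Fin N) (z : ℝ × ℝ) (h : z ∈ A5_cell N c)
    (h' : z ∈ A5_cell N c') : c = c' := by
  have e := (A5_mem_floor N hN c z h).symm.trans (A5_mem_floor N hN c' z h')
  rw [Prod.mk.injEq] at e
  exact Prod.ext (Fin.ext e.1) (Fin.ext e.2)

theorem A5_ae_Sq0 : ∀ᵐ z ∂U, z ∈ Sq0 := by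
  rw [ae_iff]
  have hm : MeasurableSet {z : ℝ × ℝ | z ∉ Sq0} :=
    (measurableSet_Ico.prod measurableSet_Ico).compl
  rw [U, Measure.restrict_apply hm]
  have hsub : {z : ℝ × ℝ | z ∉ Sq0} ∩ Sq ⊆ (({1} : Set ℝ) ×ˢ univ) ∪ (univ ×ˢ ({1} : Set ℝ)) := by
    rintro z ⟨h1, ⟨h2, h3⟩, h4, h5⟩
    by_cases e1 : z.1 = 1
    · left; exact ⟨e1, mem_univ _⟩
    · by_cases e2 : z.2 = 1
      · right; exact ⟨mem_univ _, e2⟩
      · exact absurd (show z ∈ Sq0 from ⟨⟨h2, lt_of_le_of_ne h3 e1⟩, ⟨h4, lt_of_le_of_ne h5 e2⟩⟩) h1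
  refine measure_mono_null hsub (measure_union_null ?_ ?_)
  · rw [Measure.volume_eq_prod, Measure.prod_prod, Real.volume_singleton, zero_mul]
  · rw [Measure.volume_eq_prod, Measure.prod_prod, Real.volume_singleton, mul_zero]

theorem A5_Sq0_sub : Sq0 ⊆ Sq :=
  prod_mono Ico_subset_Icc_self Ico_subset_Icc_self

/-- A cellwise constant density is a combination of the uniform measures of the cells. -/
theorem A5_dens (N : ℕ) (hN : 0 < N) (m : Fin N × Fin N → ℝ) (ρ : ℝ × ℝ → ℝ)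
    (hm : ∀ c, 0 ≤ m c)
    (h : ∀ z ∈ Sq0, ∀ c : Fin N × Fin N,
      (⌊(N : ℝ) * z.1⌋₊, ⌊(N : ℝ) * z.2⌋₊) = ((c.1 : ℕ), (c.2 : ℕ)) →
      ρ z = (N : ℝ) ^ 2 * m c) :
    dens ρ = ∑ c, ENNReal.ofReal (m c) • A5_mu N c := by
  ext s hs
  rw [dens, withDensity_apply _ hs]
  have hae : ∀ᵐ z ∂(U.restrict s), ENNReal.ofReal (ρ z) =
      ∑ c, (A5_cell N c).indicator (fun _ => ENNReal.ofReal ((N : ℝ) ^ 2 * m c)) z := by
    filter_upwards [ae_restrict_of_ae A5_ae_Sq0] with z hz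
    obtain ⟨c, hc⟩ := A5_exists_cell N hN z hz
    rw [Finset.sum_eq_single c, indicator_of_mem hc, h z hz c (A5_mem_floor N hN c z hc)]
    · intro c' _ hne
      rw [indicator_of_notMem]
      intro hc'
      exact hne (A5_disj N hN c' c z hc' hc)
    · intro hc'
      exact absurd (Finset.mem_univ c) hc'
  rw [lintegral_congr_ae hae, lintegral_finsetSum]
  · rw [Measure.finsetSum_apply]
    refine Finset.sum_congr rfl (fun c _ => ?_)
    rw [lintegral_indicator_const (A5_meas N c), Measure.restrict_apply (A5_meas N c), U,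
      Measure.restrict_apply ((A5_meas N c).inter hs), Measure.smul_apply, A5_mu,
      Measure.smul_apply, Measure.restrict_apply hs, smul_eq_mul, smul_eq_mul, ← mul_assoc,
      ← ENNReal.ofReal_mul (hm c), mul_comm (m c)]
    congr 2
    rw [inter_comm s]
    exact inter_eq_left.2 (inter_subset_left.trans ((A5_cell_sub N hN c).trans A5_Sq0_sub))
  · intro c _
    exact measurable_const.indicator (A5_meas N c)

theorem A5_one (N a b x y : ℝ) (h1 : a / N ≤ x) (h2 : x < (a + 1) / N) (k1 : b / N ≤ y)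
    (k2 : y < (b + 1) / N) : |x - y - ((a + 1 / 2) / N - (b + 1 / 2) / N)| ≤ 1 / N := by
  rw [add_div] at h2 k2 ⊢
  rw [add_div]
  have e : (1 / 2 : ℝ) / N = (1 / N) / 2 := by ring
  rw [e, abs_le]
  constructor <;> linarith

theorem A5_dist (N : ℕ) (hN : 0 < N) (c c' : Fin N × Fin N) (x y : ℝ × ℝ)
    (hx : x ∈ A5_cell N c) (hy : y ∈ A5_cell N c') :
    len (x - y) ≤ len ((((c.1 : ℕ) : ℝ) + 1 / 2) / N - (((c'.1 : ℕ) : ℝ) + 1 / 2) / N,
      (((c.2 : ℕ) : ℝ) + 1 / 2) / N - (((c'.2 : ℕ) : ℝ) + 1 / 2) / N) + 2 / N := by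
  have hN' : (0 : ℝ) < N := by exact_mod_cast hN
  set v : ℝ × ℝ := ((((c.1 : ℕ) : ℝ) + 1 / 2) / N - (((c'.1 : ℕ) : ℝ) + 1 / 2) / N,
      (((c.2 : ℕ) : ℝ) + 1 / 2) / N - (((c'.2 : ℕ) : ℝ) + 1 / 2) / N) with hv
  have e : x - y = v + (x - y - v) := by abel
  rw [e]
  refine (A5_len_add _ _).trans (add_le_add le_rfl ((A5_len_le _).trans ?_))
  obtain ⟨⟨h1, h2⟩, h3, h4⟩ := hx
  obtain ⟨⟨k1, k2⟩, k3, k4⟩ := hy
  have b1 : |(x - y - v).1| ≤ 1 / N := by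
    simp only [Prod.fst_sub, hv]
    exact A5_one _ _ _ _ _ h1 h2 k1 k2
  have b2 : |(x - y - v).2| ≤ 1 / N := by
    simp only [Prod.snd_sub, hv]
    exact A5_one _ _ _ _ _ h3 h4 k3 k4
  calc |(x - y - v).1| + |(x - y - v).2| ≤ 1 / N + 1 / N := add_le_add b1 b2
    _ = 2 / N := by ring

theorem A5 : StmtA5 := by
  intro p hp N hN π m₀ m₁ ρ₀ ρ₁ hπ hm₀ hm₁ h
  have hm₀' : ∀ c, 0 ≤ m₀ c := fun c => by
    rw [← hm₀ c]; exact Finset.sum_nonneg (fun c' _ => hπ c c')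
  have hm₁' : ∀ c, 0 ≤ m₁ c := fun c' => by
    rw [← hm₁ c']; exact Finset.sum_nonneg (fun c _ => hπ c c')
  have e₀ := A5_dens N hN m₀ ρ₀ hm₀' (fun z hz c hc => (h z hz c hc).1)
  have e₁ := A5_dens N hN m₁ ρ₁ hm₁' (fun z hz c hc => (h z hz c hc).2)
  have f₀ : dens ρ₀ = ∑ q : (Fin N × Fin N) × (Fin N × Fin N),
      ENNReal.ofReal (π q.1 q.2) • A5_mu N q.1 := by
    have k := Fintype.sum_prod_type (fun q : (Fin N × Fin N) × (Fin N × Fin N) =>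
      ENNReal.ofReal (π q.1 q.2) • A5_mu N q.1)
    refine e₀.trans (Eq.trans ?_ k.symm)
    refine Finset.sum_congr rfl (fun c _ => ?_)
    dsimp only
    rw [← Finset.sum_smul, ← ENNReal.ofReal_sum_of_nonneg (fun c' _ => hπ c c'), hm₀]
  have f₁ : dens ρ₁ = ∑ q : (Fin N × Fin N) × (Fin N × Fin N),
      ENNReal.ofReal (π q.1 q.2) • A5_mu N q.2 := by
    have k := Fintype.sum_prod_type_right (fun q : (Fin N × Fin N) × (Fin N × Fin N) =>
      ENNReal.ofReal (π q.1 q.2) • A5_mu N q.2)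
    refine e₁.trans (Eq.trans ?_ k.symm)
    refine Finset.sum_congr rfl (fun c _ => ?_)
    dsimp only
    rw [← Finset.sum_smul, ← ENNReal.ofReal_sum_of_nonneg (fun c' _ => hπ c' c), hm₁]
  rw [f₀, f₁]
  refine (A2_sum p Finset.univ (fun q : (Fin N × Fin N) × (Fin N × Fin N) =>
    ENNReal.ofReal (π q.1 q.2)) (fun q => A5_mu N q.1) (fun q => A5_mu N q.2)
    (fun _ => ENNReal.ofReal_ne_top)).trans ?_
  rw [← Fintype.sum_prod_type' (f := fun c c' : Fin N × Fin N => π c c' *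
    (len ((((c.1 : ℕ) : ℝ) + 1 / 2) / N - (((c'.1 : ℕ) : ℝ) + 1 / 2) / N,
      (((c.2 : ℕ) : ℝ) + 1 / 2) / N - (((c'.2 : ℕ) : ℝ) + 1 / 2) / N) + 2 / N) ^ p)]
  have hlen : ∀ v : ℝ × ℝ, 0 ≤ len v + 2 / N := fun v =>
    add_nonneg (Real.sqrt_nonneg _) (by positivity)
  rw [ENNReal.ofReal_sum_of_nonneg (fun q _ => mul_nonneg (hπ _ _)
    (Real.rpow_nonneg (hlen _) _))]
  refine Finset.sum_le_sum (fun q _ => ?_)
  rw [ENNReal.ofReal_mul (hπ _ _)]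
  refine mul_le_mul_of_nonneg_left ?_ (zero_le)
  exact A2_prod p hp _ _ (A5_cell N q.1) (A5_cell N q.2) _ (A5_prob N hN q.1) (A5_prob N hN q.2)
    (hlen _) (A5_mu_compl N q.1) (A5_mu_compl N q.2)
    (fun x hx y hy => A5_dist N hN q.1 q.2 x y hx hy)

end Match2D
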