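import Pool.Agent.Work.MP_884187_pr.Stmts

/-!
MP_884187_pr, items B1 and B2: digit representation of independent uniform points.
-/

open MeasureTheory Set Filter Topology

namespace Match2D

/-! ### One dimension, one generation -/

/-- The uniform measure on the unit interval. -/
noncomputable def B1_U1 : Measure ℝ := volume.restrict (Icc (0 : ℝ) 1)

theorem B1_U_eq : U = B1_U1.prod B1_U1 := by
  unfold U B1_U1 Sq
  rw [Measure.prod_restrict, Measure.volume_eq_prod]

instance B1_prob1 : IsProbabilityMeasure B1_U1 := by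
  refine ⟨?_⟩
  unfold B1_U1
  rw [Measure.restrict_apply_univ, Real.volume_Icc]
  norm_num

instance B1_prob : IsProbabilityMeasure U := by
  rw [B1_U_eq]
  infer_instance

theorem B1_U1_apply (A : Set ℝ) : B1_U1 A = volume (A ∩ Ioc (0 : ℝ) 1) := by
  have h : B1_U1 = volume.restrict (Ioc (0 : ℝ) 1) := (restrict_Ioc_eq_restrict_Icc).symm
  rw [h, Measure.restrict_apply' measurableSet_Ioc]

/-- The affine maps of the grid. -/
noncomputable def B1_g (m d : ℕ) (u : ℝ) : ℝ := ((d : ℝ) + u) / m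

theorem B1_g_meas (m d : ℕ) : Measurable (B1_g m d) := by
  unfold B1_g
  fun_prop

theorem B1_scale {m : ℕ} (hm : 0 < m) (d : ℕ) (B : Set ℝ) :
    volume (B1_g m d ⁻¹' B) = (m : ENNReal) * volume B := by
  have hm' : (0 : ℝ) < m := by exact_mod_cast hm
  have e : B1_g m d ⁻¹' B = (fun u : ℝ => (d : ℝ) + u) ⁻¹' ((fun x : ℝ => (m : ℝ)⁻¹ * x) ⁻¹' B) := by
    ext u
    simp only [mem_preimage, B1_g, div_eq_inv_mul]
  rw [e, measure_preimage_add, Real.volume_preimage_mul_left (inv_pos.mpr hm').ne', inv_inv,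
    abs_of_pos hm', ENNReal.ofReal_natCast]

theorem B1_one {m : ℕ} (hm : 0 < m) {A : Set ℝ} (hA : MeasurableSet A) :
    ∑ d : Fin m, B1_U1 (B1_g m d ⁻¹' A) = (m : ENNReal) * B1_U1 A := by
  have hm' : (0 : ℝ) < m := by exact_mod_cast hm
  have h1 : ∀ d : Fin m, B1_U1 (B1_g m d ⁻¹' A) =
      (m : ENNReal) * volume (A ∩ Ioc ((d : ℝ) / m) (((d : ℝ) + 1) / m)) := by
    intro d
    rw [B1_U1_apply, ← B1_scale hm d]
    congr 1
    ext u
    simp only [mem_preimage, mem_inter_iff, mem_Ioc, B1_g, and_congr_right_iff]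
    intro _
    rw [div_lt_div_iff_of_pos_right hm', div_le_div_iff_of_pos_right hm']
    constructor
    · rintro ⟨h2, h3⟩
      exact ⟨by linarith, by linarith⟩
    · rintro ⟨h2, h3⟩
      exact ⟨by linarith, by linarith⟩
  simp only [h1]
  rw [← Finset.mul_sum, B1_U1_apply]
  congr 1
  have h2 : A ∩ Ioc (0 : ℝ) 1 =
      ⋃ d ∈ (Finset.univ : Finset (Fin m)), A ∩ Ioc ((d : ℝ) / m) (((d : ℝ) + 1) / m) := by
    ext x
    simp only [mem_inter_iff, mem_iUnion, Finset.mem_univ, exists_true_left, mem_Ioc]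
    constructor
    · rintro ⟨hx, h0, h1⟩
      have hc : 0 < ⌈(m : ℝ) * x⌉₊ := Nat.ceil_pos.mpr (mul_pos hm' h0)
      have hc1 : ⌈(m : ℝ) * x⌉₊ ≤ m := by
        rw [Nat.ceil_le]
        nlinarith
      refine ⟨⟨⌈(m : ℝ) * x⌉₊ - 1, by omega⟩, hx, ?_, ?_⟩
      · rw [div_lt_iff₀ hm']
        have h3 : ⌈(m : ℝ) * x⌉₊ - 1 < ⌈(m : ℝ) * x⌉₊ := by omega
        have h4 := Nat.lt_ceil.mp h3
        show ((⌈(m : ℝ) * x⌉₊ - 1 : ℕ) : ℝ) < x * m
        linarith
      · rw [le_div_iff₀ hm']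
        have h4 := Nat.le_ceil ((m : ℝ) * x)
        show x * m ≤ ((⌈(m : ℝ) * x⌉₊ - 1 : ℕ) : ℝ) + 1
        rw [Nat.cast_sub hc, Nat.cast_one]
        linarith
    · rintro ⟨d, hx, h0, h1⟩
      refine ⟨hx, lt_of_le_of_lt (by positivity) h0, h1.trans ?_⟩
      rw [div_le_one hm']
      have h2 : (d : ℕ) + 1 ≤ m := d.2
      exact_mod_cast h2
  rw [h2, measure_biUnion_finset]
  · intro d _ d' _ hd
    refine Disjoint.mono inter_subset_right inter_subset_right ?_
    rw [Set.disjoint_left]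
    rintro x ⟨h3, h4⟩ ⟨h5, h6⟩
    have h7 : ((d : ℕ) : ℝ) < (d' : ℕ) + 1 := by
      have := h3.trans_le h6
      rwa [div_lt_div_iff_of_pos_right hm'] at this
    have h8 : ((d' : ℕ) : ℝ) < (d : ℕ) + 1 := by
      have := h5.trans_le h4
      rwa [div_lt_div_iff_of_pos_right hm'] at this
    have h9 : (d : ℕ) < (d' : ℕ) + 1 := by exact_mod_cast h7
    have h10 : (d' : ℕ) < (d : ℕ) + 1 := by exact_mod_cast h8
    exact hd (Fin.ext (by omega))
  · intro d _
    exact hA.inter measurableSet_Ioc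

/-! ### Two dimensions, one generation -/

/-- The affine maps of the grid in the plane. -/
noncomputable def B1_G (m : ℕ) (d : Dig m) (u : ℝ × ℝ) : ℝ × ℝ := (B1_g m d.1 u.1, B1_g m d.2 u.2)

theorem B1_G_meas (m : ℕ) (d : Dig m) : Measurable (B1_G m d) :=
  ((B1_g_meas m d.1).comp measurable_fst).prodMk ((B1_g_meas m d.2).comp measurable_snd)

theorem B1_two {m : ℕ} (hm : 0 < m) {A : Set (ℝ × ℝ)} (hA : MeasurableSet A) :
    ∑ d : Dig m, U (B1_G m d ⁻¹' A) = (m : ENNReal) ^ 2 * U A := by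
  have e1 : ∀ d : Dig m, U (B1_G m d ⁻¹' A) =
      ∫⁻ u, B1_U1 (B1_g m d.2 ⁻¹' (Prod.mk (B1_g m d.1 u) ⁻¹' A)) ∂B1_U1 := by
    intro d
    rw [B1_U_eq, Measure.prod_apply (B1_G_meas m d hA)]
    rfl
  have hmeas : ∀ d2 : Fin m, Measurable fun x : ℝ => B1_U1 (B1_g m d2 ⁻¹' (Prod.mk x ⁻¹' A)) := by
    intro d2
    have h : MeasurableSet ((fun z : ℝ × ℝ => (z.1, B1_g m d2 z.2)) ⁻¹' A) :=
      (measurable_fst.prodMk ((B1_g_meas m d2).comp measurable_snd)) hA
    exact measurable_measure_prodMk_left h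
  have hmeas' : Measurable fun x : ℝ => B1_U1 (Prod.mk x ⁻¹' A) := measurable_measure_prodMk_left hA
  -- the identity for integrals over the first variable
  have key : ∀ f : ℝ → ENNReal, Measurable f →
      ∑ d : Fin m, ∫⁻ u, f (B1_g m d u) ∂B1_U1 = (m : ENNReal) * ∫⁻ x, f x ∂B1_U1 := by
    intro f hf
    have h1 : (m : ENNReal) • B1_U1 = ∑ d : Fin m, B1_U1.map (B1_g m d) := by
      refine Measure.ext (fun s hs => ?_)
      rw [Measure.smul_apply, smul_eq_mul, ← B1_one hm hs, Measure.finsetSum_apply]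
      exact Finset.sum_congr rfl (fun d _ => (Measure.map_apply (B1_g_meas m d) hs).symm)
    rw [← smul_eq_mul, ← lintegral_smul_measure, h1, lintegral_finsetSum_measure]
    exact Finset.sum_congr rfl (fun d _ => (lintegral_map hf (B1_g_meas m d)).symm)
  rw [Fintype.sum_prod_type]
  simp only [e1]
  have e2 : ∀ d1 : Fin m, ∑ d2 : Fin m,
      ∫⁻ u, B1_U1 (B1_g m d2 ⁻¹' (Prod.mk (B1_g m d1 u) ⁻¹' A)) ∂B1_U1 =
        (m : ENNReal) * ∫⁻ u, B1_U1 (Prod.mk (B1_g m d1 u) ⁻¹' A) ∂B1_U1 := by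
    intro d1
    have h1 := lintegral_finsetSum (μ := B1_U1) (Finset.univ : Finset (Fin m))
      (f := fun d2 u => B1_U1 (B1_g m d2 ⁻¹' (Prod.mk (B1_g m d1 u) ⁻¹' A)))
      (fun d2 _ => (hmeas d2).comp (B1_g_meas m d1))
    have h2 := lintegral_const_mul (μ := B1_U1) (m : ENNReal)
      (f := fun u => B1_U1 (Prod.mk (B1_g m d1 u) ⁻¹' A)) (hmeas'.comp (B1_g_meas m d1))
    rw [← h1, ← h2]
    refine lintegral_congr (fun u => ?_)
    exact B1_one hm (measurable_prodMk_left hA)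
  rw [Finset.sum_congr rfl (fun d1 _ => e2 d1), ← Finset.mul_sum, key _ hmeas', ← mul_assoc, ← sq,
    B1_U_eq, Measure.prod_apply hA]

/-! ### All generations -/

theorem B1_cidx_congr {m n n' : ℕ} (ω : Seqs m n) (ω' : Seqs m n') (J : ℕ) (i : Fin n)
    (i' : Fin n') (h : ∀ l < J, ω l i = ω' l i') : cidx ω J i = cidx ω' J i' := by
  induction J with
  | zero => rfl
  | succ J ih =>
    show (m * (cidx ω J i).1 + ((ω J i).1 : ℕ), m * (cidx ω J i).2 + ((ω J i).2 : ℕ)) =
      (m * (cidx ω' J i').1 + ((ω' J i').1 : ℕ), m * (cidx ω' J i').2 + ((ω' J i').2 : ℕ))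
    rw [ih (fun l hl => h l (by omega)), h J (by omega)]

/-- The cell of a digit sequence. -/
def B1_c {m : ℕ} [NeZero m] {J : ℕ} (s : Fin J → Dig m) : ℕ × ℕ :=
  cidx (n := 1) (ext J (fun j _ => s j)) J 0

theorem B1_cidx {m n J : ℕ} [NeZero m] (w : Fin J → Fin n → Dig m) (i : Fin n) :
    cidx (ext J w) J i = B1_c (fun j => w j i) := by
  refine B1_cidx_congr _ _ J i 0 (fun l hl => ?_)
  unfold ext
  simp only [dif_pos hl]

theorem B1_c_snoc {m J : ℕ} [NeZero m] (s : Fin J → Dig m) (d : Dig m) :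
    B1_c (Fin.snoc (α := fun _ => Dig m) s d : Fin (J + 1) → Dig m) =
      (m * (B1_c s).1 + (d.1 : ℕ), m * (B1_c s).2 + (d.2 : ℕ)) := by
  unfold B1_c
  have h1 : cidx (n := 1) (ext (J + 1)
      (fun j _ => (Fin.snoc (α := fun _ => Dig m) s d : Fin (J + 1) → Dig m) j)) J 0 =
      cidx (n := 1) (ext J (fun j _ => s j)) J 0 := by
    refine B1_cidx_congr _ _ J 0 0 (fun l hl => ?_)
    unfold ext
    rw [dif_pos (by omega), dif_pos hl]
    exact Fin.snoc_castSucc (α := fun _ => Dig m) (n := J) d s ⟨l, hl⟩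
  have h3 : (ext (J + 1) (fun j (_ : Fin 1) =>
      (Fin.snoc (α := fun _ => Dig m) s d : Fin (J + 1) → Dig m) j)) J 0 = d := by
    unfold ext
    rw [dif_pos (by omega)]
    exact Fin.snoc_last (α := fun _ => Dig m) (n := J) d s
  show (m * (cidx (n := 1) (ext (J + 1)
      (fun j _ => (Fin.snoc (α := fun _ => Dig m) s d : Fin (J + 1) → Dig m) j)) J 0).1 + _,
    m * (cidx (n := 1) (ext (J + 1)
      (fun j _ => (Fin.snoc (α := fun _ => Dig m) s d : Fin (J + 1) → Dig m) j)) J 0).2 + _) = _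
  rw [h1, h3]

theorem B1_emb_succ {m : ℕ} (hm : 0 < m) (J : ℕ) (q : ℕ × ℕ) (d : Dig m) (u : ℝ × ℝ) :
    emb m (J + 1) (m * q.1 + (d.1 : ℕ), m * q.2 + (d.2 : ℕ)) u = emb m J q (B1_G m d u) := by
  have hm' : (0 : ℝ) < m := by exact_mod_cast hm
  unfold emb B1_G B1_g
  refine Prod.ext ?_ ?_
  · show (((m * q.1 + (d.1 : ℕ) : ℕ) : ℝ) + u.1) / (m : ℝ) ^ (J + 1) =
      ((q.1 : ℝ) + (((d.1 : ℕ) : ℝ) + u.1) / m) / (m : ℝ) ^ J
    push_cast
    field_simp
    ring
  · show (((m * q.2 + (d.2 : ℕ) : ℕ) : ℝ) + u.2) / (m : ℝ) ^ (J + 1) =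
      ((q.2 : ℝ) + (((d.2 : ℕ) : ℝ) + u.2) / m) / (m : ℝ) ^ J
    push_cast
    field_simp
    ring

theorem B1_emb_meas (m J : ℕ) (q : ℕ × ℕ) : Measurable (emb m J q) := by
  unfold emb
  fun_prop

theorem B1_sum {m : ℕ} [NeZero m] (J : ℕ) {A : Set (ℝ × ℝ)} (hA : MeasurableSet A) :
    ∑ s : Fin J → Dig m, U (emb m J (B1_c s) ⁻¹' A) =
      (Fintype.card (Fin J → Dig m) : ENNReal) * U A := by
  have hm : 0 < m := Nat.pos_of_ne_zero (NeZero.ne m)
  induction J with
  | zero =>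
    have h1 : ∀ s : Fin 0 → Dig m, emb m 0 (B1_c s) ⁻¹' A = A := by
      intro s
      ext u
      have h2 : emb m 0 (B1_c s) u = u := by
        refine Prod.ext ?_ ?_
        · show (((0 : ℕ) : ℝ) + u.1) / (m : ℝ) ^ 0 = u.1
          simp
        · show (((0 : ℕ) : ℝ) + u.2) / (m : ℝ) ^ 0 = u.2
          simp
      rw [mem_preimage, h2]
    simp [h1]
  | succ J ih =>
    have h1 : ∀ s : Fin J → Dig m, ∑ d : Dig m, U (emb m (J + 1)
        (B1_c (Fin.snoc (α := fun _ => Dig m) s d : Fin (J + 1) → Dig m)) ⁻¹' A) =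
        (m : ENNReal) ^ 2 * U (emb m J (B1_c s) ⁻¹' A) := by
      intro s
      rw [← B1_two hm (B1_emb_meas m J (B1_c s) hA)]
      refine Finset.sum_congr rfl (fun d _ => ?_)
      congr 1
      ext u
      rw [mem_preimage, B1_c_snoc, B1_emb_succ hm]
      rfl
    have h2 : Fintype.card (Fin (J + 1) → Dig m) = m ^ 2 * Fintype.card (Fin J → Dig m) := by
      rw [Fintype.card_fun, Fintype.card_fun, Fintype.card_prod, Fintype.card_fin,
        Fintype.card_fin, Fintype.card_fin]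
      ring
    rw [← (Fin.snocEquiv (fun _ : Fin (J + 1) => Dig m)).sum_comp, Fintype.sum_prod_type_right]
    refine Eq.trans (Finset.sum_congr rfl (fun s _ => h1 s)) ?_
    rw [← Finset.mul_sum, ih, h2]
    push_cast
    ring

/-! ### Uniform measures on finite types -/

/-- The uniform measure on a finite type. -/
noncomputable def B1_unif (α : Type*) [Fintype α] [MeasurableSpace α] : Measure α :=
  (Fintype.card α : ENNReal)⁻¹ • Measure.count

theorem B1_card_ne {α : Type*} [Fintype α] [Nonempty α] : (Fintype.card α : ENNReal) ≠ 0 := by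
  rw [Ne, Nat.cast_eq_zero]
  exact Fintype.card_ne_zero

instance B1_unif_prob {α : Type*} [Fintype α] [Nonempty α] [MeasurableSpace α]
    [MeasurableSingletonClass α] : IsProbabilityMeasure (B1_unif α) := by
  refine ⟨?_⟩
  unfold B1_unif
  rw [Measure.smul_apply, smul_eq_mul, Measure.count_univ, ENat.card_eq_coe_fintype_card]
  exact ENNReal.inv_mul_cancel B1_card_ne (ENNReal.natCast_ne_top _)

theorem B1_unif_singleton {α : Type*} [Fintype α] [MeasurableSpace α]
    [MeasurableSingletonClass α] (a : α) : B1_unif α {a} = (Fintype.card α : ENNReal)⁻¹ := by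
  unfold B1_unif
  rw [Measure.smul_apply, smul_eq_mul, Measure.count_singleton, mul_one]

theorem B1_unif_integral {α : Type*} [Fintype α] [MeasurableSpace α]
    [MeasurableSingletonClass α] (g : α → ℝ) : ∫ a, g a ∂(B1_unif α) = avg g := by
  unfold B1_unif avg
  rw [integral_smul_measure, ENNReal.toReal_inv, ENNReal.toReal_natCast, integral_count]

theorem B1_pi_unif {α : Type*} [Fintype α] [Nonempty α] [MeasurableSpace α]
    [MeasurableSingletonClass α] (n : ℕ) :
    Measure.pi (fun _ : Fin n => B1_unif α) = B1_unif (Fin n → α) := by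
  refine Measure.ext_of_singleton (fun f => ?_)
  rw [Measure.pi_singleton, B1_unif_singleton]
  simp only [B1_unif_singleton, Finset.prod_const, Finset.card_univ, Fintype.card_fin]
  rw [Fintype.card_fun, Fintype.card_fin, Nat.cast_pow, ENNReal.inv_pow]

theorem B1_avg_equiv {α β : Type*} [Fintype α] [Fintype β] (e : α ≃ β) (f : β → ℝ) :
    avg f = avg (fun a => f (e a)) := by
  unfold avg
  rw [Fintype.card_congr e, e.sum_comp]

/-! ### The measure preserving maps -/

theorem B1_mp_one (m J : ℕ) [NeZero m] :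
    MeasurePreserving (fun p : (Fin J → Dig m) × (ℝ × ℝ) => emb m J (B1_c p.1) p.2)
      ((B1_unif (Fin J → Dig m)).prod U) U := by
  have hmeas : Measurable (fun p : (Fin J → Dig m) × (ℝ × ℝ) => emb m J (B1_c p.1) p.2) :=
    measurable_from_prod_countable_right (fun s => B1_emb_meas m J (B1_c s))
  refine ⟨hmeas, Measure.ext (fun A hA => ?_)⟩
  rw [Measure.map_apply hmeas hA, Measure.prod_apply (hmeas hA)]
  unfold B1_unif
  rw [lintegral_smul_measure, lintegral_count, tsum_fintype, smul_eq_mul]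
  have h1 := B1_sum (m := m) J hA
  have h2 : ∑ s : Fin J → Dig m, U (Prod.mk s ⁻¹'
      ((fun p : (Fin J → Dig m) × (ℝ × ℝ) => emb m J (B1_c p.1) p.2) ⁻¹' A)) =
      (Fintype.card (Fin J → Dig m) : ENNReal) * U A := h1
  rw [h2, ← mul_assoc, ENNReal.inv_mul_cancel B1_card_ne (ENNReal.natCast_ne_top _), one_mul]

theorem B1_mp (m n J : ℕ) [NeZero m] :
    MeasurePreserving (fun z : (Fin n → Fin J → Dig m) × (Fin n → ℝ × ℝ) =>
      fun i => emb m J (B1_c (z.1 i)) (z.2 i))
      ((B1_unif (Fin n → Fin J → Dig m)).prod (Measure.pi (fun _ : Fin n => U)))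
      (Measure.pi (fun _ : Fin n => U)) := by
  have T1 := measurePreserving_pi (fun _ : Fin n => (B1_unif (Fin J → Dig m)).prod U)
    (fun _ : Fin n => U) (fun _ => B1_mp_one m J)
  have T2 := (measurePreserving_arrowProdEquivProdArrow (Fin J → Dig m) (ℝ × ℝ) (Fin n)
    (fun _ => B1_unif (Fin J → Dig m)) (fun _ => U)).symm
  rw [B1_pi_unif] at T2
  exact T1.comp T2

theorem B1_ae (n : ℕ) : ∀ᵐ X ∂(Measure.pi (fun _ : Fin n => U)), ∀ i, X i ∈ Sq := by
  have h : ∀ᵐ x ∂U, x ∈ Sq := ae_restrict_mem (measurableSet_Icc.prod measurableSet_Icc)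
  rw [Filter.eventually_all]
  intro i
  exact (Measure.quasiMeasurePreserving_eval (fun _ : Fin n => U) i).ae h

theorem B1 : StmtB1 := by
  intro m n J _ F hF hb
  obtain ⟨C, hC⟩ := hb
  have hint : Integrable F (Measure.pi (fun _ : Fin n => U)) := by
    refine Integrable.of_bound hF.aestronglyMeasurable C ?_
    filter_upwards [B1_ae n] with X hX
    exact hC X hX
  have T := B1_mp m n J
  have hint2 : Integrable (fun z : (Fin n → Fin J → Dig m) × (Fin n → ℝ × ℝ) =>
      F (fun i => emb m J (B1_c (z.1 i)) (z.2 i)))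
      ((B1_unif (Fin n → Fin J → Dig m)).prod (Measure.pi (fun _ : Fin n => U))) :=
    (T.integrable_comp hF.aestronglyMeasurable).mpr hint
  have e1 : ∫ X, F X ∂(Measure.pi (fun _ : Fin n => U)) =
      ∫ z, F (fun i => emb m J (B1_c (z.1 i)) (z.2 i))
        ∂((B1_unif (Fin n → Fin J → Dig m)).prod (Measure.pi (fun _ : Fin n => U))) := by
    conv_lhs => rw [← T.map_eq]
    exact integral_map T.measurable.aemeasurable hF.aestronglyMeasurable
  rw [e1, integral_prod _ hint2, B1_unif_integral]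
  unfold EJ
  rw [B1_avg_equiv (Equiv.piComm (fun (_ : Fin n) (_ : Fin J) => Dig m))]
  congr 1
  funext s
  refine integral_congr_ae (Filter.Eventually.of_forall (fun u => ?_))
  show F (fun i => emb m J (B1_c (s i)) (u i)) =
    F (fun i => emb m J (cidx (ext J (fun j i => s i j)) J i) (u i))
  congr 1
  funext i
  rw [B1_cidx]

/-- B2 (assuming A4). -/
theorem B2 (hA4 : StmtA4) : StmtB2 := by
  intro Ω _ P _ X hX hU hind p hp n hn
  have h1 : ProbabilityTheory.iIndepFun (fun i : Fin n => X (i : ℕ)) P :=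
    hind.precomp Fin.val_injective
  have h2 := (ProbabilityTheory.iIndepFun_iff_map_fun_eq_pi_map
    (fun i : Fin n => (hX (i : ℕ)).aemeasurable)).mp h1
  simp only [hU] at h2
  have hmeas : Measurable (fun ω (i : Fin n) => X (i : ℕ) ω) :=
    measurable_pi_lambda _ (fun i => hX (i : ℕ))
  unfold EW
  rw [← h2, integral_map hmeas.aemeasurable (hA4 p hp n hn).aestronglyMeasurable]

end Match2D
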