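import Pool.Agent.Work.MP_884187_pr.Stmts

/-!
MP_884187_pr, item C2: the number of points in a cell.
-/

open MeasureTheory Set Filter Topology

namespace Match2D

theorem C2_avg_const {α : Type*} [Fintype α] [Nonempty α] (c : ℝ) :
    avg (fun _ : α => c) = c := by
  unfold avg
  rw [Finset.sum_const, Finset.card_univ, nsmul_eq_mul, smul_eq_mul]
  have h : (Fintype.card α : ℝ) ≠ 0 := by exact_mod_cast Fintype.card_ne_zero
  field_simp

theorem C2_EJ_const {m n : ℕ} [NeZero m] (J : ℕ) (c : ℝ) :
    EJ J (fun _ : Seqs m n => c) = c := by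
  unfold EJ
  have : Nonempty (Fin J → Fin n → Dig m) := ⟨fun _ _ => (0, 0)⟩
  exact C2_avg_const c

theorem C2_cidx_congr {m n : ℕ} (j : ℕ) : ∀ (ω ω' : Seqs m n), (∀ l, l < j → ω l = ω' l) →
    ∀ i, cidx ω j i = cidx ω' j i := by
  induction j with
  | zero => intro ω ω' _ i; rfl
  | succ j ih =>
    intro ω ω' h i
    have h1 := ih ω ω' (fun l hl => h l (Nat.lt_succ_of_lt hl)) i
    have h2 := h j (Nat.lt_succ_self j)
    simp only [cidx, h1, h2]

/-- Average over the digits of a power of the number of points with a given digit. -/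
theorem C2_avg {m n : ℕ} [NeZero m] (I : Finset (Fin n)) (d0 : Dig m) (z : ℝ) :
    avg (fun δ : Fin n → Dig m => z ^ (I.filter (fun i => δ i = d0)).card) =
      (1 + (z - 1) / (m : ℝ) ^ 2) ^ I.card := by
  classical
  have hm : (m : ℝ) ≠ 0 := by exact_mod_cast NeZero.ne m
  have h1 : ∀ δ : Fin n → Dig m, z ^ (I.filter (fun i => δ i = d0)).card =
      ∏ i, (fun (i : Fin n) (d : Dig m) => if i ∈ I ∧ d = d0 then z else 1) i (δ i) := by
    intro δ
    simp only
    rw [Finset.prod_ite, Finset.prod_const, Finset.prod_const_one, mul_one]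
    congr 2
    ext i
    simp [Finset.mem_filter]
  have h2 : ∑ δ : Fin n → Dig m,
      ∏ i, (fun (i : Fin n) (d : Dig m) => if i ∈ I ∧ d = d0 then z else 1) i (δ i) =
      ∏ i : Fin n, ∑ d : Dig m, (if i ∈ I ∧ d = d0 then z else 1) := by
    rw [Finset.prod_univ_sum, Fintype.piFinset_univ]
  have h3 : ∀ i : Fin n, ∑ d : Dig m, (if i ∈ I ∧ d = d0 then z else 1) =
      (m : ℝ) ^ 2 * (if i ∈ I then (1 + (z - 1) / (m : ℝ) ^ 2) else 1) := by
    intro i
    by_cases hi : i ∈ I
    · simp only [hi, true_and, if_true]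
      have h4 : ∀ d : Dig m, (if d = d0 then z else (1 : ℝ)) = 1 + (if d = d0 then z - 1 else 0) := by
        intro d
        split_ifs <;> ring
      simp_rw [h4]
      rw [Finset.sum_add_distrib, Finset.sum_const, Finset.card_univ, Finset.sum_ite_eq']
      simp only [Finset.mem_univ, if_true, Fintype.card_prod, Fintype.card_fin, nsmul_eq_mul,
        mul_one]
      push_cast
      field_simp
    · simp only [hi, false_and, if_false]
      rw [Finset.sum_const, Finset.card_univ]
      simp only [Fintype.card_prod, Fintype.card_fin, nsmul_eq_mul, mul_one]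
      push_cast
      ring
  unfold avg
  simp_rw [h1]
  rw [h2]
  simp_rw [h3]
  rw [Finset.prod_mul_distrib, Finset.prod_const, Finset.card_univ, Fintype.card_fin,
    Finset.prod_ite_mem, Finset.univ_inter, Finset.prod_const, smul_eq_mul, ← mul_assoc]
  have h5 : ((Fintype.card (Fin n → Dig m) : ℕ) : ℝ) = ((m : ℝ) ^ 2) ^ n := by
    rw [Fintype.card_fun, Fintype.card_prod, Fintype.card_fin, Fintype.card_fin]
    push_cast
    ring
  rw [h5, inv_mul_cancel₀ (by positivity), one_mul]

/-- The generating function of the number of points in a cell. -/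
theorem C2_gen (hC1 : StmtC1) {m n J : ℕ} [NeZero m] : ∀ j ≤ J, ∀ q : ℕ × ℕ,
    q.1 < m ^ j → q.2 < m ^ j → ∀ z : ℝ,
    EJ J (fun ω : Seqs m n => z ^ (inCell ω j q).card) =
      (1 + (z - 1) / (m : ℝ) ^ (2 * j)) ^ n := by
  classical
  have hm0 : 0 < m := Nat.pos_of_ne_zero (NeZero.ne m)
  have hm : (m : ℝ) ≠ 0 := by exact_mod_cast NeZero.ne m
  intro j
  induction j with
  | zero =>
    intro _ q h1 h2 z
    have hq : q = (0, 0) := by
      rw [pow_zero, Nat.lt_one_iff] at h1 h2
      exact Prod.ext h1 h2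
    have h3 : ∀ ω : Seqs m n, (inCell ω 0 q).card = n := by
      intro ω
      unfold inCell
      rw [hq]
      simp [cidx]
    simp_rw [h3]
    rw [C2_EJ_const]
    congr 1
    simp
  | succ j ih =>
    intro hj q h1 h2 z
    have hd1 : q.1 % m < m := Nat.mod_lt _ hm0
    have hd2 : q.2 % m < m := Nat.mod_lt _ hm0
    set d0 : Dig m := (⟨q.1 % m, hd1⟩, ⟨q.2 % m, hd2⟩) with hd0
    have hq1 : q.1 / m < m ^ j := by
      rw [Nat.div_lt_iff_lt_mul hm0]
      rwa [pow_succ] at h1
    have hq2 : q.2 / m < m ^ j := by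
      rw [Nat.div_lt_iff_lt_mul hm0]
      rwa [pow_succ] at h2
    rw [hC1 m n J j (by omega)]
    have h3 : ∀ (ω : Seqs m n) (δ : Fin n → Dig m), inCell (Function.update ω j δ) (j + 1) q =
        (inCell ω j (q.1 / m, q.2 / m)).filter (fun i => δ i = d0) := by
      intro ω δ
      ext i
      unfold inCell
      rw [Finset.mem_filter, Finset.mem_filter, Finset.mem_filter]
      have hc : cidx (Function.update ω j δ) j i = cidx ω j i := by
        apply C2_cidx_congr
        intro l hl
        rw [Function.update_of_ne (by omega)]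
      simp only [cidx, hc, Function.update_self, Finset.mem_univ, true_and]
      have key : ∀ (a b c : ℕ), b < m → (m * a + b = c ↔ a = c / m ∧ b = c % m) := by
        intro a b c hb
        constructor
        · intro h
          subst h
          constructor
          · rw [Nat.mul_add_div hm0, Nat.div_eq_of_lt hb, add_zero]
          · rw [Nat.mul_add_mod, Nat.mod_eq_of_lt hb]
        · rintro ⟨h, h'⟩
          rw [h, h']
          exact Nat.div_add_mod c m
      rw [Prod.ext_iff, Prod.ext_iff, Prod.ext_iff]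
      simp only [key _ _ _ (δ i).1.isLt, key _ _ _ (δ i).2.isLt, hd0, Fin.ext_iff]
      tauto
    simp_rw [h3, C2_avg]
    rw [ih (by omega) (q.1 / m, q.2 / m) hq1 hq2]
    congr 1
    have h4 : (m : ℝ) ^ (2 * (j + 1)) = (m : ℝ) ^ 2 * (m : ℝ) ^ (2 * j) := by
      rw [← pow_add]
      congr 1
      ring
    rw [h4]
    field_simp
    ring

theorem C2_moments (hC1 : StmtC1) {m n J : ℕ} [NeZero m] (j : ℕ) (hj : j ≤ J) (q : ℕ × ℕ)
    (h1 : q.1 < m ^ j) (h2 : q.2 < m ^ j) :
    EJ J (fun ω : Seqs m n => ((inCell ω j q).card : ℝ)) = n / (m : ℝ) ^ (2 * j) ∧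
    EJ J (fun ω : Seqs m n => ((inCell ω j q).card : ℝ) ^ 2) =
      ((n : ℝ) ^ 2 - n) / ((m : ℝ) ^ (2 * j)) ^ 2 + n / (m : ℝ) ^ (2 * j) := by
  classical
  have hm : (m : ℝ) ≠ 0 := by exact_mod_cast NeZero.ne m
  set M : ℝ := (m : ℝ) ^ (2 * j) with hM
  have hM0 : M ≠ 0 := pow_ne_zero _ hm
  have hg : (fun z : ℝ => EJ J (fun ω : Seqs m n => z ^ (inCell ω j q).card)) =
      fun z => (1 + (z - 1) / M) ^ n := by
    funext z
    exact C2_gen hC1 j hj q h1 h2 z
  have hcast : ∀ N : ℕ, (N : ℝ) * ((N - 1 : ℕ) : ℝ) = (N : ℝ) ^ 2 - N := by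
    intro N
    rcases N with _ | N
    · simp
    · simp only [Nat.add_sub_cancel]
      push_cast
      ring
  -- first derivatives
  have d1 : ∀ z : ℝ, HasDerivAt (fun z : ℝ => EJ J (fun ω : Seqs m n => z ^ (inCell ω j q).card))
      (EJ J (fun ω : Seqs m n => ((inCell ω j q).card : ℝ) * z ^ ((inCell ω j q).card - 1))) z := by
    intro z
    unfold EJ avg
    simp only [smul_eq_mul]
    apply HasDerivAt.const_mul
    exact HasDerivAt.fun_sum (fun w _ => hasDerivAt_pow _ z)
  have d1' : ∀ z : ℝ, HasDerivAt (fun z : ℝ => (1 + (z - 1) / M) ^ n)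
      ((n : ℝ) * (1 + (z - 1) / M) ^ (n - 1) * (1 / M)) z := by
    intro z
    have h : HasDerivAt (fun z : ℝ => 1 + (z - 1) / M) (1 / M) z :=
      (((hasDerivAt_id z).sub_const 1).div_const M).const_add 1
    exact h.fun_pow n
  have e1 : (fun z : ℝ => EJ J (fun ω : Seqs m n => ((inCell ω j q).card : ℝ) *
      z ^ ((inCell ω j q).card - 1))) = fun z => (n : ℝ) * (1 + (z - 1) / M) ^ (n - 1) * (1 / M) := by
    funext z
    have := d1 z
    rw [hg] at this
    exact this.unique (d1' z)
  -- second derivatives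
  have d2 : ∀ z : ℝ, HasDerivAt (fun z : ℝ => EJ J (fun ω : Seqs m n =>
      ((inCell ω j q).card : ℝ) * z ^ ((inCell ω j q).card - 1)))
      (EJ J (fun ω : Seqs m n => ((inCell ω j q).card : ℝ) * ((((inCell ω j q).card - 1 : ℕ) : ℝ) *
        z ^ ((inCell ω j q).card - 1 - 1)))) z := by
    intro z
    unfold EJ avg
    simp only [smul_eq_mul]
    apply HasDerivAt.const_mul
    exact HasDerivAt.fun_sum (fun w _ => (hasDerivAt_pow _ z).const_mul _)
  have d2' : ∀ z : ℝ, HasDerivAt (fun z : ℝ => (n : ℝ) * (1 + (z - 1) / M) ^ (n - 1) * (1 / M))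
      ((n : ℝ) * (((n - 1 : ℕ) : ℝ) * (1 + (z - 1) / M) ^ (n - 1 - 1) * (1 / M)) * (1 / M)) z := by
    intro z
    have h : HasDerivAt (fun z : ℝ => 1 + (z - 1) / M) (1 / M) z :=
      (((hasDerivAt_id z).sub_const 1).div_const M).const_add 1
    exact ((h.fun_pow (n - 1)).const_mul (n : ℝ)).mul_const (1 / M)
  have e2 := d2 1
  rw [e1] at e2
  have e3 := e2.unique (d2' 1)
  have e4 := congrFun e1 1
  simp only [one_pow, mul_one, sub_self, zero_div, add_zero, hcast] at e3 e4
  constructor
  · rw [e4]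
    ring
  · have h5 : EJ J (fun ω : Seqs m n => ((inCell ω j q).card : ℝ) ^ 2) =
        EJ J (fun ω : Seqs m n => ((inCell ω j q).card : ℝ) ^ 2 - (inCell ω j q).card) +
        EJ J (fun ω : Seqs m n => ((inCell ω j q).card : ℝ)) := by
      unfold EJ avg
      rw [← smul_add, ← Finset.sum_add_distrib]
      congr 1
      apply Finset.sum_congr rfl
      intro w _
      ring
    rw [h5, e3, e4]
    have h6 := hcast n
    have h7 : (n : ℝ) * (((n - 1 : ℕ) : ℝ) * (1 / M)) * (1 / M) = ((n : ℝ) ^ 2 - n) / M ^ 2 := by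
      rw [← h6]
      field_simp
    rw [h7]
    ring

/-- Item C2. -/
theorem C2 (hC1 : StmtC1) : StmtC2 := by
  classical
  intro m n J j _ hm2 hn hj hmn q h1 h2
  have hm : (m : ℝ) ≠ 0 := by exact_mod_cast NeZero.ne m
  have hmpos : (0 : ℝ) < m := by exact_mod_cast Nat.pos_of_ne_zero (NeZero.ne m)
  have hn' : (0 : ℝ) < n := by exact_mod_cast hn
  obtain ⟨e1, e2⟩ := C2_moments hC1 (n := n) j hj q h1 h2
  set M : ℝ := (m : ℝ) ^ (2 * j) with hM
  have hM0 : 0 < M := by positivity
  have hlin : ∀ (a b c : ℝ) (F G : Seqs m n → ℝ),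
      EJ J (fun ω => a * F ω + b * G ω + c) = a * EJ J F + b * EJ J G + c := by
    intro a b c F G
    have hc := C2_EJ_const (m := m) (n := n) J c
    have : EJ J (fun ω => a * F ω + b * G ω + c) = a * EJ J F + b * EJ J G +
        EJ J (fun _ : Seqs m n => c) := by
      unfold EJ avg
      simp only [smul_eq_mul, Finset.sum_add_distrib, ← Finset.mul_sum]
      ring
    rw [this, hc]
  refine ⟨?_, ?_, ?_⟩
  · have : (fun ω : Seqs m n => rdens ω j q) =
        fun ω => (M / n) * ((inCell ω j q).card : ℝ) + 0 * ((inCell ω j q).card : ℝ) + 0 := by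
      funext ω
      unfold rdens
      rw [← hM]
      ring
    rw [this, hlin, e1]
    field_simp
    ring
  · have : (fun ω : Seqs m n => (rdens ω j q - 1) ^ 2) =
        fun ω => (M / n) ^ 2 * ((inCell ω j q).card : ℝ) ^ 2 +
          (-2 * (M / n)) * ((inCell ω j q).card : ℝ) + 1 := by
      funext ω
      unfold rdens
      rw [← hM]
      ring
    rw [this, hlin, e1, e2]
    have h3 : (M / n) ^ 2 * (((n : ℝ) ^ 2 - n) / M ^ 2 + n / M) + -2 * (M / n) * (n / M) + 1 =
        M / n - 1 / n := by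
      field_simp
      ring
    rw [h3]
    have : (0 : ℝ) < 1 / n := by positivity
    linarith
  · have h3 : (fun ω : Seqs m n => Real.exp (rdens ω j q)) =
        fun ω => Real.exp (M / n) ^ (inCell ω j q).card := by
      funext ω
      rw [← Real.exp_nat_mul]
      congr 1
      unfold rdens
      rw [← hM]
      ring
    rw [h3, C2_gen hC1 j hj q h1 h2, ← hM]
    set t : ℝ := M / n with ht
    have ht0 : 0 < t := by positivity
    have ht1 : t ≤ 1 := by
      rw [ht, div_le_one hn', hM]
      exact_mod_cast hmn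
    have h4 : Real.exp t - 1 ≤ 2 * t := by
      have := Real.abs_exp_sub_one_sub_id_le (x := t) (by rw [abs_of_pos ht0]; exact ht1)
      have h5 := (abs_le.1 this).2
      nlinarith
    have h6 : 0 ≤ Real.exp t - 1 := by
      have := Real.add_one_le_exp t
      linarith
    calc (1 + (Real.exp t - 1) / M) ^ n ≤ (Real.exp ((Real.exp t - 1) / M)) ^ n := by
          apply pow_le_pow_left₀
          · positivity
          · have := Real.add_one_le_exp ((Real.exp t - 1) / M)
            linarith
      _ = Real.exp ((n : ℝ) * ((Real.exp t - 1) / M)) := by rw [← Real.exp_nat_mul]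
      _ ≤ Real.exp 2 := by
          apply Real.exp_le_exp.2
          have h7 : (n : ℝ) * ((Real.exp t - 1) / M) = (Real.exp t - 1) / t := by
            rw [ht]
            field_simp
          rw [h7, div_le_iff₀ ht0]
          exact h4

end Match2D
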