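import Pool.Agent.Work.MP_884187_pr.Defs

/-!
Module G of MP_884187_pr: elementary facts on `len`, `dot`, quadratic forms and
polynomially bounded functions.
-/

set_option autoImplicit false

open Set Filter Topology

namespace Match2D.MG

/-! ### The length -/

theorem len_eq (v : ℝ × ℝ) : len v = ‖(⟨v.1, v.2⟩ : ℂ)‖ := by
  rw [Complex.norm_eq_sqrt_sq_add_sq]
  rfl

theorem len_nonneg (v : ℝ × ℝ) : 0 ≤ len v := Real.sqrt_nonneg _

theorem len_sq (v : ℝ × ℝ) : len v ^ 2 = v.1 ^ 2 + v.2 ^ 2 := Real.sq_sqrt (by positivity)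

theorem len_zero : len 0 = 0 := by simp [len]

theorem len_add_le (v w : ℝ × ℝ) : len (v + w) ≤ len v + len w := by
  rw [len_eq, len_eq, len_eq]
  exact norm_add_le (⟨v.1, v.2⟩ : ℂ) ⟨w.1, w.2⟩

theorem len_neg (v : ℝ × ℝ) : len (-v) = len v := by simp [len]

theorem len_sub_le (v w : ℝ × ℝ) : len (v - w) ≤ len v + len w := by
  rw [sub_eq_add_neg]
  exact (len_add_le _ _).trans (by rw [len_neg])

theorem len_sub_comm (v w : ℝ × ℝ) : len (v - w) = len (w - v) := by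
  rw [← len_neg, neg_sub]

theorem len_smul (c : ℝ) (v : ℝ × ℝ) : len (c • v) = |c| * len v := by
  unfold len
  rw [← Real.sqrt_sq_eq_abs, ← Real.sqrt_mul (sq_nonneg c)]
  congr 1
  simp only [Prod.smul_fst, Prod.smul_snd, smul_eq_mul]
  ring

theorem abs_fst_le (v : ℝ × ℝ) : |v.1| ≤ len v := Real.abs_le_sqrt (by nlinarith [sq_nonneg v.2])

theorem abs_snd_le (v : ℝ × ℝ) : |v.2| ≤ len v := Real.abs_le_sqrt (by nlinarith [sq_nonneg v.1])

theorem continuous_len : Continuous len := by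
  unfold len
  fun_prop

theorem abs_dot_le (v w : ℝ × ℝ) : |dot v w| ≤ len v * len w := by
  rw [len, len, ← Real.sqrt_mul (by positivity)]
  refine Real.abs_le_sqrt ?_
  unfold dot
  nlinarith [sq_nonneg (v.1 * w.2 - v.2 * w.1)]

theorem dot_self (v : ℝ × ℝ) : dot v v = len v ^ 2 := by
  rw [len_sq]
  unfold dot
  ring

theorem abs_len_sq_sub (v w : ℝ × ℝ) :
    |len v ^ 2 - len w ^ 2| ≤ len (v - w) * (len v + len w) := by
  have h : len v ^ 2 - len w ^ 2 = dot (v - w) (v + w) := by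
    rw [len_sq, len_sq]
    simp only [dot, Prod.fst_sub, Prod.snd_sub, Prod.fst_add, Prod.snd_add]
    ring
  rw [h]
  exact (abs_dot_le _ _).trans (mul_le_mul_of_nonneg_left (len_add_le _ _) (len_nonneg _))

/-- Estimate for a product of coordinates. -/
theorem abs_mul_sub_mul (a b a' b' A B : ℝ) (ha : |a| ≤ A) (hb' : |b'| ≤ B) {d : ℝ}
    (h1 : |a - a'| ≤ d) (h2 : |b - b'| ≤ d) (hd : 0 ≤ d) :
    |a * b - a' * b'| ≤ d * (A + B) := by
  have e : a * b - a' * b' = a * (b - b') + (a - a') * b' := by ring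
  rw [e]
  refine (abs_add_le _ _).trans ?_
  rw [abs_mul, abs_mul]
  have h3 : |a| * |b - b'| ≤ A * d := mul_le_mul ha h2 (abs_nonneg _) ((abs_nonneg _).trans ha)
  have h4 : |a - a'| * |b'| ≤ d * B := mul_le_mul h1 hb' (abs_nonneg _) hd
  linarith

/-! ### Quadratic forms -/

theorem qf_sub_le (M N : SymM) (v : ℝ × ℝ) : |M.qf v - N.qf v| ≤ M.dst N * len v ^ 2 := by
  have e : M.qf v - N.qf v = (M.a - N.a) * v.1 ^ 2 + 2 * (M.b - N.b) * (v.1 * v.2)
      + (M.c - N.c) * v.2 ^ 2 := by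
    unfold SymM.qf
    ring
  have h1 : v.1 ^ 2 ≤ len v ^ 2 := by rw [len_sq]; nlinarith [sq_nonneg v.2]
  have h2 : v.2 ^ 2 ≤ len v ^ 2 := by rw [len_sq]; nlinarith [sq_nonneg v.1]
  have h3 : |v.1 * v.2| ≤ len v ^ 2 := by
    rw [len_sq, abs_le]
    constructor <;> nlinarith [sq_nonneg (v.1 + v.2), sq_nonneg (v.1 - v.2)]
  have e1 : |(M.a - N.a) * v.1 ^ 2| ≤ |M.a - N.a| * len v ^ 2 := by
    rw [abs_mul, abs_of_nonneg (sq_nonneg v.1)]
    exact mul_le_mul_of_nonneg_left h1 (abs_nonneg _)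
  have e2 : |2 * (M.b - N.b) * (v.1 * v.2)| ≤ 2 * |M.b - N.b| * len v ^ 2 := by
    rw [abs_mul, abs_mul 2, abs_two]
    exact mul_le_mul_of_nonneg_left h3 (by positivity)
  have e3 : |(M.c - N.c) * v.2 ^ 2| ≤ |M.c - N.c| * len v ^ 2 := by
    rw [abs_mul, abs_of_nonneg (sq_nonneg v.2)]
    exact mul_le_mul_of_nonneg_left h2 (abs_nonneg _)
  rw [e]
  refine (abs_add_le _ _).trans ((add_le_add (abs_add_le _ _) le_rfl).trans ?_)
  unfold SymM.dst
  linarith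

theorem qf_abs_le (M : SymM) (v : ℝ × ℝ) : |M.qf v| ≤ M.nrm * len v ^ 2 := by
  have h := qf_sub_le M ⟨0, 0, 0⟩ v
  have e : (⟨0, 0, 0⟩ : SymM).qf v = 0 := by simp [SymM.qf]
  have e2 : M.dst ⟨0, 0, 0⟩ = M.nrm := by simp [SymM.dst, SymM.nrm]
  rwa [e, e2, sub_zero] at h

/-! ### Polynomially bounded functions -/

/-- `f` is polynomially bounded in terms of `m` on `D`. -/
def PB {ι : Type} (D : Set ι) (m f : ι → ℝ) : Prop :=
  ∃ (C : ℝ) (k : ℕ), 0 < C ∧ ∀ i ∈ D, |f i| ≤ C * (1 + m i) ^ k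

section PB

variable {ι : Type} {D : Set ι} {m f g : ι → ℝ}

theorem PB.mono (hf : PB D m f) (h : ∀ i ∈ D, |g i| ≤ |f i|) : PB D m g := by
  obtain ⟨C, k, hC, hk⟩ := hf
  exact ⟨C, k, hC, fun i hi => (h i hi).trans (hk i hi)⟩

theorem PB.const (_hm : ∀ i ∈ D, 0 ≤ m i) (c : ℝ) : PB D m (fun _ => c) := by
  refine ⟨|c| + 1, 0, by positivity, fun i hi => ?_⟩
  simp

theorem PB.of_bound (c : ℝ) (h : ∀ i ∈ D, |f i| ≤ c) : PB D m f := by
  refine ⟨|c| + 1, 0, by positivity, fun i hi => ?_⟩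
  rw [pow_zero, mul_one]
  linarith [h i hi, le_abs_self c]

theorem PB.self (hm : ∀ i ∈ D, 0 ≤ m i) : PB D m m := by
  refine ⟨1, 1, one_pos, fun i hi => ?_⟩
  rw [abs_of_nonneg (hm i hi), pow_one, one_mul]
  linarith

theorem PB.add (hm : ∀ i ∈ D, 0 ≤ m i) (hf : PB D m f) (hg : PB D m g) :
    PB D m (fun i => f i + g i) := by
  obtain ⟨C, k, hC, hk⟩ := hf
  obtain ⟨C', k', hC', hk'⟩ := hg
  refine ⟨C + C', k + k', by positivity, fun i hi => ?_⟩
  have h1 : (1 : ℝ) ≤ 1 + m i := by linarith [hm i hi]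
  have h2 : (1 + m i) ^ k ≤ (1 + m i) ^ (k + k') := pow_le_pow_right₀ h1 (by omega)
  have h3 : (1 + m i) ^ k' ≤ (1 + m i) ^ (k + k') := pow_le_pow_right₀ h1 (by omega)
  calc |f i + g i| ≤ |f i| + |g i| := abs_add_le _ _
    _ ≤ C * (1 + m i) ^ k + C' * (1 + m i) ^ k' := add_le_add (hk i hi) (hk' i hi)
    _ ≤ C * (1 + m i) ^ (k + k') + C' * (1 + m i) ^ (k + k') :=
        add_le_add (mul_le_mul_of_nonneg_left h2 hC.le) (mul_le_mul_of_nonneg_left h3 hC'.le)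
    _ = _ := by ring

theorem PB.mul (hf : PB D m f) (hg : PB D m g) : PB D m (fun i => f i * g i) := by
  obtain ⟨C, k, hC, hk⟩ := hf
  obtain ⟨C', k', hC', hk'⟩ := hg
  refine ⟨C * C', k + k', by positivity, fun i hi => ?_⟩
  calc |f i * g i| = |f i| * |g i| := abs_mul _ _
    _ ≤ (C * (1 + m i) ^ k) * (C' * (1 + m i) ^ k') :=
        mul_le_mul (hk i hi) (hk' i hi) (abs_nonneg _) ((abs_nonneg _).trans (hk i hi))
    _ = _ := by rw [pow_add]; ring

theorem PB.neg (hf : PB D m f) : PB D m (fun i => - f i) :=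
  hf.mono fun i _ => by rw [abs_neg]

theorem PB.abs (hf : PB D m f) : PB D m (fun i => |f i|) :=
  hf.mono fun i _ => by rw [abs_abs]

theorem PB.sub (hm : ∀ i ∈ D, 0 ≤ m i) (hf : PB D m f) (hg : PB D m g) :
    PB D m (fun i => f i - g i) := by
  simpa only [sub_eq_add_neg] using hf.add hm hg.neg

theorem PB.pow (hm : ∀ i ∈ D, 0 ≤ m i) (hf : PB D m f) (n : ℕ) : PB D m (fun i => f i ^ n) := by
  induction n with
  | zero => simpa using PB.const (m := m) hm 1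
  | succ n ih => simpa only [pow_succ] using ih.mul hf

theorem PB.const_mul (hm : ∀ i ∈ D, 0 ≤ m i) (c : ℝ) (hf : PB D m f) :
    PB D m (fun i => c * f i) := (PB.const hm c).mul hf

end PB

/-! ### Polynomial growth and Lipschitz bounds on the half line -/

/-- Polynomial growth on `[0, ∞)`. -/
def PG (h : ℝ → ℝ) : Prop := ∃ (C : ℝ) (k : ℕ), 0 < C ∧ ∀ a, 0 ≤ a → |h a| ≤ C * (1 + a) ^ k

/-- Locally Lipschitz on `[0, ∞)` with polynomially growing constants. -/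
def PL (h : ℝ → ℝ) : Prop := ∃ (C : ℝ) (k : ℕ), 0 < C ∧ ∀ a b, 0 ≤ a → 0 ≤ b →
  |h a - h b| ≤ C * (1 + a + b) ^ k * |a - b|

theorem PG.mul {f g : ℝ → ℝ} (hf : PG f) (hg : PG g) : PG (fun s => f s * g s) := by
  obtain ⟨C, k, hC, hk⟩ := hf
  obtain ⟨C', k', hC', hk'⟩ := hg
  refine ⟨C * C', k + k', by positivity, fun a ha => ?_⟩
  calc |f a * g a| = |f a| * |g a| := abs_mul _ _
    _ ≤ (C * (1 + a) ^ k) * (C' * (1 + a) ^ k') :=
        mul_le_mul (hk a ha) (hk' a ha) (abs_nonneg _) (by positivity)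
    _ = _ := by rw [pow_add]; ring

theorem PL.mul {f g : ℝ → ℝ} (hf : PG f) (hg : PG g) (hf' : PL f) (hg' : PL g) :
    PL (fun s => f s * g s) := by
  obtain ⟨C1, k1, hC1, h1⟩ := hf
  obtain ⟨C2, k2, hC2, h2⟩ := hg
  obtain ⟨C3, k3, hC3, h3⟩ := hf'
  obtain ⟨C4, k4, hC4, h4⟩ := hg'
  refine ⟨C1 * C4 + C3 * C2, k1 + k2 + k3 + k4, by positivity, fun a b ha hb => ?_⟩
  have hone : (1 : ℝ) ≤ 1 + a + b := by linarith
  have e : f a * g a - f b * g b = f a * (g a - g b) + (f a - f b) * g b := by ring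
  have e1 : |f a * (g a - g b)| ≤ (C1 * (1 + a) ^ k1) * (C4 * (1 + a + b) ^ k4 * |a - b|) := by
    rw [abs_mul]
    exact mul_le_mul (h1 a ha) (h4 a b ha hb) (abs_nonneg _) (by positivity)
  have e2 : |(f a - f b) * g b| ≤ (C3 * (1 + a + b) ^ k3 * |a - b|) * (C2 * (1 + b) ^ k2) := by
    rw [abs_mul]
    exact mul_le_mul (h3 a b ha hb) (h2 b hb) (abs_nonneg _) (by positivity)
  have m1 : (1 + a) ^ k1 ≤ (1 + a + b) ^ k1 := pow_le_pow_left₀ (by linarith) (by linarith) _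
  have m2 : (1 + b) ^ k2 ≤ (1 + a + b) ^ k2 := pow_le_pow_left₀ (by linarith) (by linarith) _
  have n1 : (1 + a + b) ^ k1 * (1 + a + b) ^ k4 ≤ (1 + a + b) ^ (k1 + k2 + k3 + k4) := by
    rw [← pow_add]
    exact pow_le_pow_right₀ hone (by omega)
  have n2 : (1 + a + b) ^ k3 * (1 + a + b) ^ k2 ≤ (1 + a + b) ^ (k1 + k2 + k3 + k4) := by
    rw [← pow_add]
    exact pow_le_pow_right₀ hone (by omega)
  set P := (1 + a + b) ^ (k1 + k2 + k3 + k4)
  have hab := abs_nonneg (a - b)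
  have f1 : (C1 * (1 + a) ^ k1) * (C4 * (1 + a + b) ^ k4 * |a - b|) ≤ C1 * C4 * P * |a - b| := by
    calc _ ≤ (C1 * (1 + a + b) ^ k1) * (C4 * (1 + a + b) ^ k4 * |a - b|) := by gcongr
      _ = C1 * C4 * ((1 + a + b) ^ k1 * (1 + a + b) ^ k4) * |a - b| := by ring
      _ ≤ _ := by gcongr
  have f2 : (C3 * (1 + a + b) ^ k3 * |a - b|) * (C2 * (1 + b) ^ k2) ≤ C3 * C2 * P * |a - b| := by
    calc _ ≤ (C3 * (1 + a + b) ^ k3 * |a - b|) * (C2 * (1 + a + b) ^ k2) := by gcongr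
      _ = C3 * C2 * ((1 + a + b) ^ k3 * (1 + a + b) ^ k2) * |a - b| := by ring
      _ ≤ _ := by gcongr
  rw [e]
  refine (abs_add_le _ _).trans ?_
  linarith

/-- Composition of `PG` with a polynomially bounded nonnegative function. -/
theorem PG.comp {h : ℝ → ℝ} (hh : PG h) {ι : Type} {D : Set ι} {m f : ι → ℝ}
    (hm : ∀ i ∈ D, 0 ≤ m i) (hf : PB D m f) (hf0 : ∀ i ∈ D, 0 ≤ f i) :
    PB D m (fun i => h (f i)) := by
  obtain ⟨C, k, hC, hk⟩ := hh
  have h1 : PB D m (fun i => C * (1 + f i) ^ k) :=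
    (((PB.const hm 1).add hm hf).pow hm k).const_mul hm C
  refine h1.mono fun i hi => ?_
  refine (hk (f i) (hf0 i hi)).trans (le_abs_self _)

/-- Composition of `PL` with polynomially bounded nonnegative functions. -/
theorem PL.comp {h : ℝ → ℝ} (hh : PL h) {ι : Type} {D : Set ι} {m f g : ι → ℝ}
    (hm : ∀ i ∈ D, 0 ≤ m i) (hf : PB D m f) (hf0 : ∀ i ∈ D, 0 ≤ f i)
    (hg : PB D m g) (hg0 : ∀ i ∈ D, 0 ≤ g i) :
    ∃ L : ι → ℝ, PB D m L ∧ (∀ i ∈ D, 0 ≤ L i) ∧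
      ∀ i ∈ D, |h (f i) - h (g i)| ≤ L i * |f i - g i| := by
  obtain ⟨C, k, hC, hk⟩ := hh
  refine ⟨fun i => C * (1 + f i + g i) ^ k,
    ((((PB.const hm 1).add hm hf).add hm hg).pow hm k).const_mul hm C, ?_, ?_⟩
  · intro i hi
    have h1 := hf0 i hi
    have h2 := hg0 i hi
    positivity
  · intro i hi
    exact hk _ _ (hf0 i hi) (hg0 i hi)

end Match2D.MG
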