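import Pool.Agent.Work.MP_884187_pr.Model

/-!
MP_884187_pr: statements of the items.
-/

open MeasureTheory Set Filter Topology

namespace Match2D

/-! ## A. Optimal transport basics -/

/-- A0: elementary inequality. -/
def StmtA0 : Prop := ∀ p : ℝ, 1 ≤ p → ∀ δ : ℝ, 0 < δ → ∃ C : ℝ, 1 ≤ C ∧ ∀ a b : ℝ, 0 ≤ a → 0 ≤ b →
  (a + b) ^ p ≤ (1 + δ) * a ^ p + C * b ^ p

/-- A1: triangle inequality for `W_p` (gluing). -/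
def StmtA1 : Prop := ∀ p : ℝ, 1 ≤ p → ∀ (ν₁ ν₂ ν₃ : Measure (ℝ × ℝ)), IsProbabilityMeasure ν₁ →
  IsProbabilityMeasure ν₂ → IsProbabilityMeasure ν₃ →
  (Wpp p ν₁ ν₃) ^ (1 / p) ≤ (Wpp p ν₁ ν₂) ^ (1 / p) + (Wpp p ν₂ ν₃) ^ (1 / p)

/-- A2: convexity, and the bound by the product coupling. -/
def StmtA2 : Prop :=
  (∀ p : ℝ, 1 ≤ p → ∀ (ι : Type) (s : Finset ι) (a : ι → ENNReal) (ν ρ : ι → Measure (ℝ × ℝ)),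
    (∀ i, a i ≠ ⊤) →
    Wpp p (∑ i ∈ s, a i • ν i) (∑ i ∈ s, a i • ρ i) ≤ ∑ i ∈ s, a i * Wpp p (ν i) (ρ i)) ∧
  (∀ p : ℝ, 1 ≤ p → ∀ (ν ρ : Measure (ℝ × ℝ)) (A B : Set (ℝ × ℝ)) (D : ℝ),
    IsProbabilityMeasure ν → IsProbabilityMeasure ρ → 0 ≤ D → ν Aᶜ = 0 → ρ Bᶜ = 0 →
    (∀ x ∈ A, ∀ y ∈ B, len (x - y) ≤ D) → Wpp p ν ρ ≤ ENNReal.ofReal (D ^ p))

/-- A3: lower bound by a potential. -/
def StmtA3 : Prop := ∀ p : ℝ, 1 ≤ p → ∀ (δ r K R Λ : ℝ), 0 ≤ δ → 0 < r → 0 ≤ K → 0 < R →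
  0 ≤ Λ → Λ ≤ R ^ (p - 1) →
  ∀ (φ : ℝ × ℝ → ℝ) (g : ℝ × ℝ → ℝ × ℝ) (w : ℝ × ℝ → ℝ), Measurable φ → Measurable w →
  (∃ C, ∀ y ∈ Sq, |w y| ≤ C) →
  (∀ x ∈ Sq, ∀ y ∈ Sq, φ x - φ y ≤ Λ * len (x - y)) →
  (∀ x ∈ Sq, ∀ y ∈ Sq, φ x ≤ φ y + dot (g y) (x - y) + K / 2 * len (x - y) ^ 2) →
  (∀ y ∈ Sq, ∀ s, dot (g y) s ≤ (1 + δ) * len s ^ p + w y) →
  ∀ (ν : Measure (ℝ × ℝ)), IsProbabilityMeasure ν → ν Sqᶜ = 0 →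
  r ^ (p - 1) * ((∫ x, φ x ∂ν) - ∫ x, φ x ∂U) ≤
    (1 + δ) * (Wpp p ν U).toReal + r ^ p * ((∫ y, w y ∂U) + K / 2 * r * R ^ 2)

/-- A4: measurability of the matching cost in the points. -/
def StmtA4 : Prop := ∀ p : ℝ, 1 ≤ p → ∀ n : ℕ, 0 < n →
  Measurable (fun X : Fin n → ℝ × ℝ => (Wpp p (emp n X) U).toReal)

/-- A5: a finite coupling of the masses of two cellwise constant densities gives a coupling of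
the densities.  Cells of the grid of mesh `1/N`, centres `((i+1/2)/N, (j+1/2)/N)`. -/
def StmtA5 : Prop := ∀ p : ℝ, 1 ≤ p → ∀ (N : ℕ), 0 < N →
  ∀ (π : (Fin N × Fin N) → (Fin N × Fin N) → ℝ) (m₀ m₁ : Fin N × Fin N → ℝ) (ρ₀ ρ₁ : ℝ × ℝ → ℝ),
  (∀ c c', 0 ≤ π c c') → (∀ c, ∑ c', π c c' = m₀ c) → (∀ c', ∑ c, π c c' = m₁ c') →
  (∀ z ∈ Sq0, ∀ c : Fin N × Fin N, (⌊(N : ℝ) * z.1⌋₊, ⌊(N : ℝ) * z.2⌋₊) = ((c.1 : ℕ), (c.2 : ℕ)) →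
    ρ₀ z = (N : ℝ) ^ 2 * m₀ c ∧ ρ₁ z = (N : ℝ) ^ 2 * m₁ c) →
  Wpp p (dens ρ₀) (dens ρ₁) ≤ ENNReal.ofReal (∑ c, ∑ c', π c c' *
    (len ((((c.1 : ℕ) : ℝ) + 1 / 2) / N - (((c'.1 : ℕ) : ℝ) + 1 / 2) / N,
      (((c.2 : ℕ) : ℝ) + 1 / 2) / N - (((c'.2 : ℕ) : ℝ) + 1 / 2) / N) + 2 / N) ^ p)

/-- A6: the empirical measure is close to its generation `J` density. -/
def StmtA6 : Prop := ∀ p : ℝ, 1 ≤ p → ∀ (m n J : ℕ), 2 ≤ m → 0 < n → ∀ (ω : Seqs m n)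
  (u : Fin n → ℝ × ℝ), (∀ i, u i ∈ Sq) →
  Wpp p (emp n (fun i => emb m J (cidx ω J i) (u i))) (dens (rhoJ ω J)) ≤
    ENNReal.ofReal ((2 / (m : ℝ) ^ J) ^ p)

/-- A7: removing the mixture with the uniform measure. -/
def StmtA7 : Prop := ∀ p : ℝ, 1 ≤ p → ∀ η : ℝ, 0 < η → η < 1 → ∀ ρ : ℝ × ℝ → ℝ, Measurable ρ →
  (∀ z, 0 ≤ ρ z) → IsProbabilityMeasure (dens ρ) →
  ENNReal.ofReal (1 - η ^ (1 / p)) * (Wpp p (dens ρ) U) ^ (1 / p) ≤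
    (Wpp p (dens (fun z => (1 - η) * ρ z + η)) U) ^ (1 / p)

/-! ## B. Discretisation -/

/-- B1: the points are (cell + uniform local coordinate). -/
def StmtB1 : Prop := ∀ (m n J : ℕ) [NeZero m] (F : (Fin n → ℝ × ℝ) → ℝ), Measurable F →
  (∃ C, ∀ X, (∀ i, X i ∈ Sq) → |F X| ≤ C) →
  ∫ X, F X ∂(Measure.pi (fun _ : Fin n => U)) =
    EJ J (fun ω : Seqs m n => ∫ u, F (fun i => emb m J (cidx ω J i) (u i))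
      ∂(Measure.pi (fun _ : Fin n => U)))

/-- B2: an i.i.d. uniform sequence on any probability space. -/
def StmtB2 : Prop := ∀ (Ω : Type) (_ : MeasurableSpace Ω) (P : Measure Ω), IsProbabilityMeasure P →
  ∀ X : ℕ → Ω → ℝ × ℝ, (∀ i, Measurable (X i)) → (∀ i, P.map (X i) = U) →
  ProbabilityTheory.iIndepFun X P → ∀ p : ℝ, 1 ≤ p → ∀ n : ℕ, 0 < n →
  ∫ ω, (Wpp p (emp n (fun i => X i ω)) U).toReal ∂P = EW p n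

/-! ## C. Finite probability -/

/-- C1: one step formula. -/
def StmtC1 : Prop := ∀ (m n J j : ℕ) [NeZero m], j < J → ∀ F : Seqs m n → ℝ,
  EJ J F = EJ J (fun ω => avg (fun δ : Fin n → Dig m => F (Function.update ω j δ)))

/-- C2: the number of points in a cell. -/
def StmtC2 : Prop := ∀ (m n J j : ℕ) [NeZero m], 2 ≤ m → 0 < n → j ≤ J → m ^ (2 * j) ≤ n →
  ∀ q : ℕ × ℕ, q.1 < m ^ j → q.2 < m ^ j →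
  EJ J (fun ω : Seqs m n => rdens ω j q) = 1 ∧
  EJ J (fun ω : Seqs m n => (rdens ω j q - 1) ^ 2) ≤ (m : ℝ) ^ (2 * j) / n ∧
  EJ J (fun ω : Seqs m n => Real.exp (rdens ω j q)) ≤ Real.exp 2

/-- C3: moments of a sum of independent centred bounded vectors. -/
def StmtC3 : Prop := ∀ (k : ℕ), ∃ c, 0 < c ∧ ∀ (m n : ℕ) [NeZero m] (I : Finset (Fin n))
  (v : Dig m → ℝ × ℝ) (B : ℝ), (∀ d, len (v d) ≤ B) →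
  avg (fun δ : Fin n → Dig m => len (∑ i ∈ I, (v (δ i) - avg v)) ^ (2 * k)) ≤
    c * (B ^ 2 * I.card) ^ k

/-- C3': first and second moments. -/
def StmtC3' : Prop := ∀ (m n : ℕ) [NeZero m] (I : Finset (Fin n)) (v : Dig m → ℝ × ℝ),
  avg (fun δ : Fin n → Dig m => ∑ i ∈ I, (v (δ i) - avg v)) = 0 ∧
  (∀ M : SymM, (∀ u, 0 ≤ M.qf u) →
    avg (fun δ : Fin n → Dig m => M.qf (∑ i ∈ I, (v (δ i) - avg v))) ≤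
      I.card * avg (fun d => M.qf (v d)))

/-- C4: moment bounds for the controlled processes. -/
def StmtC4 : Prop := ∃ c : ℕ → ℝ, (∀ k, 0 < c k) ∧ ∀ (m k : ℕ) [NeZero m] (B₀ B₂ : ℝ), 2 ≤ m →
  0 ≤ B₀ → 0 ≤ B₂ → ∃ n₀ : ℕ, ∀ n, n₀ ≤ n → ∀ J, m ^ (2 * J) ≤ n →
  ∀ (Θ : Type) (β : Θ → Dig m → ℝ × ℝ → ℝ × ℝ) (ctl : ℕ → Seqs m n → ℕ × ℕ → Θ), Adapted ctl →
  (∀ θ d, ∀ y ∈ Sq, len (β θ d y) ≤ B₀) →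
  (∀ θ, ∀ y ∈ Sq, avg (fun d => len (β θ d y) ^ 2) ≤ B₂) →
  ∀ j ≤ J, ∀ x ∈ Sq0,
    EJ J (fun ω => len (proc β ctl j ω x) ^ (2 * k)) ≤ 2 * Real.exp (c k * B₂ * J / Real.log n)

/-- C5: decomposition of an integral over the unit square into cells. -/
def StmtC5 : Prop := ∀ (m j : ℕ), 0 < m → ∀ F : ℕ × ℕ → ℝ × ℝ → ℝ, (∀ q, Measurable (F q)) →
  (∃ C, ∀ q, ∀ y ∈ Sq, |F q y| ≤ C) →
  ∫ z, F (qidx m j z) (loc m j z) ∂U =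
    ((m : ℝ) ^ (2 * j))⁻¹ * ∑ q ∈ Finset.range (m ^ j) ×ˢ Finset.range (m ^ j), ∫ y, F q y ∂U

/-- C6: a process with Lipschitz kernel varies little inside a cell. -/
def StmtC6 : Prop := ∀ (m : ℕ) [NeZero m] (C₀ : ℝ), 2 ≤ m → 0 ≤ C₀ → ∃ C, 0 < C ∧
  ∀ n, 2 ≤ n → ∀ J, m ^ (2 * J) ≤ n →
  ∀ (Θ : Type) (β : Θ → Dig m → ℝ × ℝ → ℝ × ℝ) (ctl : ℕ → Seqs m n → ℕ × ℕ → Θ), Adapted ctl →
  (∀ θ d, ∀ y ∈ Sq, ∀ y' ∈ Sq, len (β θ d y - β θ d y') ≤ C₀ * len (y - y')) →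
  ∀ j ≤ J, ∀ x ∈ Sq0,
    EJ J (fun ω => len (proc β ctl j ω x - proc β ctl j ω (corner m j (qidx m j x))) ^ 2) ≤
      C / Real.log n

/-- C7: second moment of a process, averaged over the square. -/
def StmtC7 : Prop := ∀ (m n J : ℕ) [NeZero m], 2 ≤ m → 2 ≤ n →
  ∀ (Θ : Type) (β : Θ → Dig m → ℝ × ℝ → ℝ × ℝ) (ctl : ℕ → Seqs m n → ℕ × ℕ → Θ) (B₀ E₂ : ℝ),
  Adapted ctl → (∀ θ d, Measurable (β θ d)) → (∀ θ d, ∀ y ∈ Sq, len (β θ d y) ≤ B₀) →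
  (∀ θ, avg (fun d => ∫ y, len (β θ d y) ^ 2 ∂U) ≤ E₂) →
  EJ J (fun ω => ∫ z, len (proc β ctl J ω z) ^ 2 ∂U) ≤ J / Real.log n * E₂

/-- C8: measurability, boundedness, adaptedness of the processes. -/
def StmtC8 : Prop := ∀ (m n : ℕ) [NeZero m] (Θ : Type) (β : Θ → Dig m → ℝ × ℝ → ℝ × ℝ),
  (∀ (ctl : ℕ → Seqs m n → ℕ × ℕ → Θ) (j : ℕ) (ω : Seqs m n), (∀ θ d, Measurable (β θ d)) →
    Measurable (proc β ctl j ω)) ∧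
  (∀ (ctl : ℕ → Seqs m n → ℕ × ℕ → Θ) (j : ℕ) (B₀ : ℝ), (∀ θ d, ∀ y ∈ Sq, len (β θ d y) ≤ B₀) →
    ∃ C, ∀ ω, ∀ x ∈ Sq, len (proc β ctl j ω x) ≤ C) ∧
  (∀ (ctl : ℕ → Seqs m n → ℕ × ℕ → Θ), Adapted ctl → ∀ (j : ℕ) (ω ω' : Seqs m n),
    (∀ l, l < j → ω l = ω' l) → proc β ctl j ω = proc β ctl j ω') ∧
  (∀ ch : ℕ → ℝ × ℝ → Θ, Adapted (clCtl β ch (m := m) (n := n)) ∧
    ∀ (j : ℕ) (ω : Seqs m n), Sm β ch j ω = proc β (clCtl β ch) j ω)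

/-- C9: averaging a test function over the cells of a finer generation. -/
def StmtC9 : Prop := ∀ (m n J j : ℕ) [NeZero m], j ≤ J → ∀ (f : Seqs m n → ℝ × ℝ → ℝ),
  (∀ ω, Measurable (f ω)) → (∃ C, ∀ ω, ∀ z ∈ Sq, |f ω z| ≤ C) →
  (∀ ω ω' : Seqs m n, (∀ l, l < j → ω l = ω' l) → f ω = f ω') → ∀ i : Fin n,
  EJ J (fun ω => ∫ u, f ω (emb m J (cidx ω J i) u) ∂U) =
    EJ J (fun ω => ∫ u, f ω (emb m j (cidx ω j i) u) ∂U)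

/-- C10: moments of the centred counts. -/
def StmtC10 : Prop := ∀ (m : ℕ) [NeZero m], ∃ C, 0 < C ∧ ∀ (n : ℕ) (I : Finset (Fin n)),
  (∀ d : Dig m, avg (fun δ : Fin n → Dig m => xi I δ d) = 0) ∧
  (∀ d d' : Dig m, avg (fun δ : Fin n → Dig m => xi I δ d * xi I δ d') =
    I.card * ((if d = d' then ((m : ℝ) ^ 2)⁻¹ else 0) - ((m : ℝ) ^ 4)⁻¹)) ∧
  avg (fun δ : Fin n → Dig m => (∑ d, |xi I δ d|) ^ 4) ≤ C * (I.card : ℝ) ^ 2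

/-! ## D. From fluxes to transport -/

/-- D1: a coupling from a finite flow (Markov chain). -/
def StmtD1 : Prop := ∀ p : ℝ, 1 ≤ p → ∀ δ : ℝ, 0 < δ → ∃ C : ℝ, 0 < C ∧
  ∀ (ι : Type) [Fintype ι] [DecidableEq ι] (pos : ι → ℝ × ℝ) (m₀ m₁ w : ι → ℝ) (Ψ : ι → ι → ℝ)
    (D A : ℝ), (∀ c c', Ψ c c' = - Ψ c' c) → (∀ c, ∑ c', Ψ c c' = m₀ c - m₁ c) →
  (∀ c, 0 < w c ∧ w c ≤ m₀ c ∧ w c ≤ m₁ c) → 0 < D → 0 < A →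
  (∀ c c', len (pos c - pos c') ≤ D) →
  (∀ c, len (∑ c', max (Ψ c c') 0 • (pos c' - pos c)) ≤ D * w c) →
  ∃ π : ι → ι → ℝ, (∀ c c', 0 ≤ π c c') ∧ (∀ c, ∑ c', π c c' = m₀ c) ∧
    (∀ c', ∑ c, π c c' = m₁ c') ∧
    ∑ c, ∑ c', π c c' * len (pos c - pos c') ^ p ≤
      (1 + δ) * ∑ c, len (∑ c', max (Ψ c c') 0 • (pos c' - pos c)) ^ p * w c ^ (1 - p) +
      C * (A ^ p * ∑ c, m₀ c +
        (A ^ (p - 2) + (2 * D) ^ (p - 2)) *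
          ∑ c, ∑ c', max (Ψ c c') 0 * len (pos c' - pos c) ^ 2)

/-- D2: transport cost of a flux. -/
def StmtD2 : Prop := ∀ p : ℝ, 1 ≤ p → ∀ (R : ℕ), 0 < R → ∀ (b : ℝ × ℝ → ℝ × ℝ)
  (ρ w : ℝ × ℝ → ℝ), Measurable b → Measurable ρ → Measurable w →
  IsFlux b (fun z => ρ z - 1) → CellConst R ρ → CellConst R w →
  (∀ z ∈ Sq, 0 < w z ∧ w z ≤ ρ z ∧ w z ≤ 1) →
  Wpp p (dens ρ) U ≤ ENNReal.ofReal (∫ z, len (b z) ^ p * w z ^ (1 - p) ∂U)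

/-- D3: the flux of the process. -/
def StmtD3 : Prop := ∀ (m n : ℕ) [NeZero m] (Θ : Type) (β : Θ → Dig m → ℝ × ℝ → ℝ × ℝ)
  (ctl : ℕ → Seqs m n → ℕ × ℕ → Θ), 2 ≤ m → 2 ≤ n → (∀ θ d, IsFlux (β θ d) (src m d)) →
  ∀ (J : ℕ) (ω : Seqs m n),
  IsFlux (fun z => Real.sqrt (Real.log n / n) • proc β ctl J ω z) (fun z => rhoJ ω J z - 1)

/-! ## E. The kernels of the upper bound -/

/-- Matrices of determinant one and trace at most `B`. -/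
abbrev UM (B : ℝ) := {M : SymM // Unim B M}

/-- Main kernel. -/
structure KerM (B : ℝ) (m : ℕ) (C₀ : ℝ) (β : UM B → Dig m → ℝ × ℝ → ℝ × ℝ) : Prop where
  meas : ∀ M d, Measurable (β M d)
  bdd : ∀ M d, ∀ y ∈ Sq, len (β M d y) ≤ C₀
  lip : ∀ M d, ∀ y ∈ Sq, ∀ y' ∈ Sq, len (β M d y - β M d y') ≤ C₀ * len (y - y')
  energy : ∀ M : UM B, avg (fun d : Dig m => ∫ y, M.1.qf (β M d y) ∂U) ≤
    1 / (2 * Real.pi) * (Real.log m + 1)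

/-- Error kernel. -/
structure KerE (B : ℝ) (m : ℕ) (C₀ CB δ : ℝ) (β : UM B → Dig m → ℝ × ℝ → ℝ × ℝ) : Prop where
  meas : ∀ M d, Measurable (β M d)
  bdd : ∀ M d, ∀ y ∈ Sq, len (β M d y) ≤ C₀
  energy : ∀ M, avg (fun d => ∫ y, len (β M d y) ^ 2 ∂U) ≤ δ * Real.log m
  pointwise : ∀ M, ∀ y ∈ Sq, avg (fun d => len (β M d y) ^ 2) ≤ CB * Real.log m

/-- E: existence of the kernels. -/
def StmtE : Prop := ∀ B : ℝ, 2 ≤ B → ∃ CB : ℝ, 0 < CB ∧ ∀ δ : ℝ, 0 < δ → ∃ m₀ : ℕ, ∀ m, m₀ ≤ m →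
  ∃ (βm βe : UM B → Dig m → ℝ × ℝ → ℝ × ℝ) (C₀ : ℝ), KerM B m C₀ βm ∧ KerE B m C₀ CB δ βe ∧
    ∀ M d, IsFlux (fun y => βm M d y + βe M d y) (src m d)

/-! ## F. The kernels of the lower bound -/

/-- Potential kernel of the lower bound. -/
structure KerL (B : ℝ) (m : ℕ) (C₀ δ : ℝ) (ζ : UM B → Dig m → ℝ × ℝ → ℝ)
    (dζ : UM B → Dig m → ℝ × ℝ → ℝ × ℝ) : Prop where
  pos : 0 < C₀
  supp : ∀ M d y, y ∉ SqO → ζ M d y = 0 ∧ dζ M d y = 0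
  bdd : ∀ M d y, |ζ M d y| ≤ C₀ ∧ len (dζ M d y) ≤ C₀
  lip : ∀ M d y y', len (dζ M d y - dζ M d y') ≤ C₀ * len (y - y')
  diff : ∀ M d y y', |ζ M d y' - ζ M d y - dot (dζ M d y) (y' - y)| ≤ C₀ * len (y' - y) ^ 2
  energy : ∀ M : UM B, avg (fun d : Dig m => ∫ y, M.1.adj.qf (dζ M d y) ∂U) ≤
    1 / (2 * Real.pi) * (Real.log m + 1)
  self : ∀ M : UM B, 1 / (2 * Real.pi) * ((1 - δ) * Real.log m) ≤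
    avg (fun d : Dig m => ∫ u, ζ M d (emb m 1 ((d.1 : ℕ), (d.2 : ℕ)) u) ∂U) -
      avg (fun d : Dig m => ∫ y, ζ M d y ∂U)

/-- F: existence of the kernels. -/
def StmtF : Prop := ∀ B : ℝ, 2 ≤ B → ∀ δ : ℝ, 0 < δ → ∃ m₀ : ℕ, ∀ m, m₀ ≤ m →
  ∃ (ζ : UM B → Dig m → ℝ × ℝ → ℝ) (dζ : UM B → Dig m → ℝ × ℝ → ℝ × ℝ) (C₀ : ℝ),
    KerL B m C₀ δ ζ dζ

/-! ## G. Profile and value function -/

def StmtG : Prop := ∀ p : ℝ, 1 ≤ p → (∃ x, IsProfile p x) ∧ ∀ x, IsProfile p x →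
  IntegrableOn (fun r => (1 - x r ^ 2) / r) (Ioc (0 : ℝ) 1) ∧
  IntegrableOn (fun r => (p - 1 - x r ^ 2) / r) (Ioi (1 : ℝ)) ∧
  ∃ V G H W S HI, VFacts p (kap p x) V G H ∧ WFacts p (kap p x) V W S HI

/-! ## H. Upper bound -/

/-- The number of generations. -/
noncomputable def Jn (a : ℝ) (m n : ℕ) : ℕ :=
  ⌊(Real.log n - a * Real.log (Real.log n)) / (2 * Real.log m)⌋₊

/-- H0: the number of generations. -/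
def StmtH0 : Prop := ∀ (a : ℝ) (m : ℕ), 0 ≤ a → 2 ≤ m →
  (∀ᶠ n : ℕ in atTop, (m : ℝ) ^ (2 * Jn a m n) * Real.log n ^ a ≤ n ∧
    (n : ℝ) ≤ (m : ℝ) ^ 2 * ((m : ℝ) ^ (2 * Jn a m n) * Real.log n ^ a)) ∧
  Tendsto (fun n : ℕ => (Jn a m n : ℝ) / Real.log n) atTop (𝓝 (1 / (2 * Real.log m)))

/-- H1: the main process. -/
def StmtH1 : Prop := ∀ p : ℝ, 1 ≤ p → ∀ (κ : ℝ) V G H, VFacts p κ V G H → ∀ ε : ℝ, 0 < ε →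
  ∃ B : ℝ, 2 ≤ B ∧ ∃ m₁ : ℕ, ∀ m, m₁ ≤ m → ∀ [NeZero m] (C₀ : ℝ)
    (β : UM B → Dig m → ℝ × ℝ → ℝ × ℝ), KerM B m C₀ β →
  ∃ n₀ : ℕ, ∀ n, n₀ ≤ n → ∃ ch : ℕ → ℝ × ℝ → UM B,
    EJ (Jn (1 / 2) m n) (fun ω : Seqs m n => ∫ z, len (Sm β ch (Jn (1 / 2) m n) ω z) ^ p ∂U) ≤
      κ / (8 * Real.pi) ^ (p / 2) + ε

/-- H2: the upper bound. -/
def StmtH2 : Prop := ∀ p : ℝ, 1 ≤ p → ∀ (κ : ℝ) V G H, VFacts p κ V G H → ∀ ε : ℝ, 0 < ε →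
  ∀ᶠ n : ℕ in atTop, EW p n ≤ (κ / (8 * Real.pi) ^ (p / 2) + ε) * (Real.log n / n) ^ (p / 2)

/-! ## L. Lower bound -/

/-- Is the count in the cell normal? -/
def Good {m n : ℕ} (θ : ℝ) (ω : Seqs m n) (j : ℕ) (q : ℕ × ℕ) : Prop :=
  stp m n j * ∑ d, |xi (inCell ω j q) (ω j) d| ≤ θ

open Classical in
/-- The gradient field of the lower bound: in a cell `q` with a normal count the increment is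
`cs * stp * Σ_d xi_d dζ_d(loc x)`, where `cs`, `cM` are chosen from the value at the corner. -/
noncomputable def Gr {m n : ℕ} {B : ℝ} (θ : ℝ) (dζ : UM B → Dig m → ℝ × ℝ → ℝ × ℝ)
    (cM : ℕ → ℝ × ℝ → UM B) (cs : ℕ → ℝ × ℝ → ℝ) : ℕ → Seqs m n → ℝ × ℝ → ℝ × ℝ
  | 0, _, _ => 0
  | j + 1, ω, x => Gr θ dζ cM cs j ω x +
      if Good θ ω j (qidx m j x) then
        (cs j (Gr θ dζ cM cs j ω (corner m j (qidx m j x))) * stp m n j) •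
          ∑ d, xi (inCell ω j (qidx m j x)) (ω j) d •
            dζ (cM j (Gr θ dζ cM cs j ω (corner m j (qidx m j x)))) d (loc m j x)
      else 0

open Classical in
/-- The potential whose gradient is `Gr`. -/
noncomputable def Ph {m n : ℕ} {B : ℝ} (θ : ℝ) (ζ : UM B → Dig m → ℝ × ℝ → ℝ)
    (dζ : UM B → Dig m → ℝ × ℝ → ℝ × ℝ)
    (cM : ℕ → ℝ × ℝ → UM B) (cs : ℕ → ℝ × ℝ → ℝ) : ℕ → Seqs m n → ℝ × ℝ → ℝ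
  | 0, _, _ => 0
  | j + 1, ω, x => Ph θ ζ dζ cM cs j ω x +
      if Good θ ω j (qidx m j x) then
        (cs j (Gr θ dζ cM cs j ω (corner m j (qidx m j x))) / Real.sqrt (n * Real.log n)) *
          ∑ d, xi (inCell ω j (qidx m j x)) (ω j) d *
            ζ (cM j (Gr θ dζ cM cs j ω (corner m j (qidx m j x)))) d (loc m j x)
      else 0

/-- L1: deterministic bounds on the potentials. -/
def StmtL1 : Prop := ∀ (B : ℝ) (m : ℕ) (C₀ δ Cs : ℝ) ζ dζ, 2 ≤ m → 0 < Cs → KerL B m C₀ δ ζ dζ →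
  ∃ C₁, 0 < C₁ ∧ ∀ (n : ℕ) (θ R₀ : ℝ), 2 ≤ n → 0 < θ → 0 < R₀ →
  ∀ (cM : ℕ → ℝ × ℝ → UM B) (cs : ℕ → ℝ × ℝ → ℝ), (∀ j g, |cs j g| ≤ Cs) →
  (∀ j g, R₀ < len g → cs j g = 0) → ∀ (j : ℕ) (ω : Seqs m n),
  Measurable (Ph θ ζ dζ cM cs j ω) ∧ Measurable (Gr θ dζ cM cs j ω) ∧
  (∀ x ∈ Sq, len (Gr θ dζ cM cs j ω x) ≤ R₀ + C₁ * θ) ∧
  (∀ x ∈ Sq, len (Gr θ dζ cM cs (j + 1) ω x - Gr θ dζ cM cs j ω x) ≤ C₁ * θ) ∧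
  (∀ x ∈ Sq, ∀ y ∈ Sq, len (Gr θ dζ cM cs j ω x - Gr θ dζ cM cs j ω y) ≤
    C₁ * θ * (m : ℝ) ^ j / m * len (x - y)) ∧
  (∀ x ∈ Sq, ∀ y ∈ Sq, |Ph θ ζ dζ cM cs j ω x - Ph θ ζ dζ cM cs j ω y -
    dot (Gr θ dζ cM cs j ω y) (x - y)| ≤ C₁ * θ * (m : ℝ) ^ j / m * len (x - y) ^ 2) ∧
  (∀ x ∈ Sq, ∀ y ∈ Sq, |Ph θ ζ dζ cM cs j ω x - Ph θ ζ dζ cM cs j ω y| ≤
    (R₀ + C₁ * θ) * len (x - y)) ∧
  (∀ ω' : Seqs m n, (∀ l, l < j → ω l = ω' l) → Gr θ dζ cM cs j ω = Gr θ dζ cM cs j ω' ∧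
    Ph θ ζ dζ cM cs j ω = Ph θ ζ dζ cM cs j ω')

/-- L2: the gain of one generation. -/
def StmtL2 : Prop := ∀ (B : ℝ) (m : ℕ) [NeZero m] (C₀ δ Cs : ℝ) ζ dζ, 2 ≤ m → 0 < Cs →
  0 ≤ δ → δ ≤ 1 → KerL B m C₀ δ ζ dζ → ∃ C, 0 < C ∧ ∀ (n J j : ℕ) (θ R₀ : ℝ), 2 ≤ n → j < J →
  (m : ℝ) ^ (2 * J) ≤ n → 0 < θ → θ ≤ 1 → 0 < R₀ →
  ∀ (cM : ℕ → ℝ × ℝ → UM B) (cs : ℕ → ℝ × ℝ → ℝ), (∀ j g, 0 ≤ cs j g ∧ cs j g ≤ Cs) →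
  (∀ j g, R₀ < len g → cs j g = 0) →
  (1 - δ) * Real.log m / (2 * Real.pi * Real.log n) *
      EJ J (fun ω : Seqs m n => ∫ z, rdens ω j (qidx m j z) *
        cs j (Gr θ dζ cM cs j ω (corner m j (qidx m j z))) ∂U)
    - C * (θ⁻¹ ^ 2 / Real.log n ^ 2 + θ⁻¹ / (Real.log n * Real.sqrt (Real.log n))) ≤
  (Real.sqrt (Real.log n / n))⁻¹ * EJ J (fun ω : Seqs m n =>
    (n : ℝ)⁻¹ * ∑ i, (∫ u, (Ph θ ζ dζ cM cs (j + 1) ω (emb m J (cidx ω J i) u)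
        - Ph θ ζ dζ cM cs j ω (emb m J (cidx ω J i) u)) ∂U)
      - ∫ z, (Ph θ ζ dζ cM cs (j + 1) ω z - Ph θ ζ dζ cM cs j ω z) ∂U)

/-- L3: the process of the lower bound. -/
def StmtL3 : Prop := ∀ p : ℝ, 1 ≤ p → ∀ (κ : ℝ) V W S HI, 0 ≤ κ → WFacts p κ V W S HI →
  ∀ τ ε : ℝ, 0 < τ → 0 < ε → ∃ (R : ℝ), 0 < R ∧ (p = 1 → R < 1) ∧ ∃ B : ℝ, 2 ≤ B ∧ ∃ δ : ℝ, 0 < δ ∧
  ∃ m₁ : ℕ, ∀ m, m₁ ≤ m → ∀ [NeZero m] (C₀ : ℝ) ζ dζ, KerL B m C₀ δ ζ dζ → ∃ C₂, 0 < C₂ ∧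
  ∃ n₀ : ℕ, ∀ n, n₀ ≤ n → ∃ (Φ : Seqs m n → ℝ × ℝ → ℝ) (g : Seqs m n → ℝ × ℝ → ℝ × ℝ),
    (∀ ω, Measurable (Φ ω) ∧ Measurable (g ω)) ∧
    (∀ ω, ∀ x ∈ Sq, len (g ω x) ≤ R) ∧
    (∀ ω, ∀ x ∈ Sq, ∀ y ∈ Sq, |Φ ω x - Φ ω y| ≤ R * len (x - y)) ∧
    (∀ ω, ∀ x ∈ Sq, ∀ y ∈ Sq, Φ ω x ≤ Φ ω y + dot (g ω y) (x - y) +
      C₂ * (m : ℝ) ^ (Jn 2 m n) / 2 * len (x - y) ^ 2) ∧
    (∃ C, ∀ ω, ∀ x ∈ Sq, |Φ ω x| ≤ C) ∧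
    κ * (1 / (8 * Real.pi)) ^ (p / 2) - ε ≤
      (Real.sqrt (Real.log n / n))⁻¹ * EJ (Jn 2 m n) (fun ω : Seqs m n =>
        (n : ℝ)⁻¹ * ∑ i, (∫ u, Φ ω (emb m (Jn 2 m n) (cidx ω (Jn 2 m n) i) u) ∂U)
          - ∫ z, Φ ω z ∂U)
      - EJ (Jn 2 m n) (fun ω : Seqs m n => ∫ z, W τ (g ω z) ∂U)

/-- L4: the lower bound. -/
def StmtL4 : Prop := ∀ p : ℝ, 1 ≤ p → ∀ (κ : ℝ) V G H W S HI, VFacts p κ V G H →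
  WFacts p κ V W S HI → ∀ ε : ℝ, 0 < ε →
  ∀ᶠ n : ℕ in atTop, (κ / (8 * Real.pi) ^ (p / 2) - ε) * (Real.log n / n) ^ (p / 2) ≤ EW p n

/-! ## Z. Final statement -/

def StmtZ : Prop := ∀ p : ℝ, 1 ≤ p → (∃ x, IsProfile p x) ∧ ∀ x, IsProfile p x →
  IntegrableOn (fun r => (1 - x r ^ 2) / r) (Ioc (0 : ℝ) 1) ∧
  IntegrableOn (fun r => (p - 1 - x r ^ 2) / r) (Ioi (1 : ℝ)) ∧
  ∀ (Ω : Type) (_ : MeasurableSpace Ω) (P : Measure Ω), IsProbabilityMeasure P →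
  ∀ X : ℕ → Ω → ℝ × ℝ, (∀ i, Measurable (X i)) → (∀ i, P.map (X i) = U) →
  ProbabilityTheory.iIndepFun X P →
  Tendsto (fun n : ℕ => ((n : ℝ) / Real.log n) ^ (p / 2) *
    ∫ ω, (Wpp p (emp n (fun i => X i ω)) U).toReal ∂P) atTop
    (𝓝 (kap p x / (8 * Real.pi) ^ (p / 2)))

end Match2D
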