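import Pool.Agent.Work.MP_884187_pr.Stmts
import Pool.Agent.Work.MP_884187_pr.Bd.B01
import Pool.Agent.Work.MP_884187_pr.A2

/-!
MP_884187_pr, item A3: lower bound of the matching cost by a potential.
-/

open MeasureTheory Set Filter Topology

namespace Match2D

theorem A3_point {p δ r K R Λ : ℝ} (hp : 1 ≤ p) (hδ : 0 ≤ δ) (hr : 0 < r) (hK : 0 ≤ K)
    (hR : 0 < R) (hΛR : Λ ≤ R ^ (p - 1)) {φx φy wy : ℝ} {g v : ℝ × ℝ}
    (hlip : φx - φy ≤ Λ * len v) (htay : φx ≤ φy + dot g v + K / 2 * len v ^ 2)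
    (hdot : ∀ s, dot g s ≤ (1 + δ) * len s ^ p + wy) :
    r ^ (p - 1) * (φx - φy) ≤ (1 + δ) * len v ^ p + r ^ p * (wy + K / 2 * r * R ^ 2) := by
  have hp0 : (0 : ℝ) < p := by linarith
  have hwy : 0 ≤ wy := by
    have := hdot 0
    rwa [dot_zero_right, len_zero, Real.zero_rpow hp0.ne', mul_zero, zero_add] at this
  have hrp : 0 < r ^ (p - 1) := Real.rpow_pos_of_pos hr _
  have hrp' : 0 < r ^ p := Real.rpow_pos_of_pos hr _
  have hrr : r ^ (p - 1) * r = r ^ p := by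
    rw [Real.rpow_sub_one hr.ne']
    field_simp
  have hv0 := len_nonneg v
  have hlvp : 0 ≤ len v ^ p := Real.rpow_nonneg hv0 _
  rcases le_or_gt (len v) (R * r) with hle | hgt
  · have h1 := hdot (r⁻¹ • v)
    rw [dot_smul_right, len_smul, abs_of_pos (inv_pos.2 hr),
      Real.mul_rpow (inv_pos.2 hr).le hv0, Real.inv_rpow hr.le] at h1
    have h2 : dot g v ≤ r * ((1 + δ) * ((r ^ p)⁻¹ * len v ^ p) + wy) := by
      calc dot g v = r * (r⁻¹ * dot g v) := by field_simp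
        _ ≤ _ := mul_le_mul_of_nonneg_left h1 hr.le
    have h3 : len v ^ 2 ≤ (R * r) ^ 2 := pow_le_pow_left₀ hv0 hle 2
    have h4 : φx - φy ≤ r * ((1 + δ) * ((r ^ p)⁻¹ * len v ^ p) + wy) + K / 2 * (R * r) ^ 2 := by
      have : K / 2 * len v ^ 2 ≤ K / 2 * (R * r) ^ 2 := mul_le_mul_of_nonneg_left h3 (by linarith)
      linarith
    calc r ^ (p - 1) * (φx - φy)
        ≤ r ^ (p - 1) * (r * ((1 + δ) * ((r ^ p)⁻¹ * len v ^ p) + wy) + K / 2 * (R * r) ^ 2) :=
          mul_le_mul_of_nonneg_left h4 hrp.le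
      _ = (r ^ (p - 1) * r) * ((1 + δ) * ((r ^ p)⁻¹ * len v ^ p) + wy) +
          (r ^ (p - 1) * r) * (K / 2 * r * R ^ 2) := by ring
      _ = (1 + δ) * len v ^ p * (r ^ p * (r ^ p)⁻¹) + r ^ p * (wy + K / 2 * r * R ^ 2) := by
          rw [hrr]; ring
      _ = _ := by rw [mul_inv_cancel₀ hrp'.ne', mul_one]
  · have hv : 0 < len v := lt_trans (by positivity) hgt
    have h1 : φx - φy ≤ R ^ (p - 1) * len v :=
      hlip.trans (mul_le_mul_of_nonneg_right hΛR hv0)
    have h2 : (R * r) ^ (p - 1) ≤ len v ^ (p - 1) :=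
      Real.rpow_le_rpow (by positivity) hgt.le (by linarith)
    have h3 : len v ^ (p - 1) * len v = len v ^ p := by
      rw [Real.rpow_sub_one hv.ne']
      field_simp
    have h5 : 0 ≤ r ^ p * (wy + K / 2 * r * R ^ 2) := by positivity
    calc r ^ (p - 1) * (φx - φy) ≤ r ^ (p - 1) * (R ^ (p - 1) * len v) :=
          mul_le_mul_of_nonneg_left h1 hrp.le
      _ = (R * r) ^ (p - 1) * len v := by
          rw [Real.mul_rpow hR.le hr.le]; ring
      _ ≤ len v ^ (p - 1) * len v := mul_le_mul_of_nonneg_right h2 hv0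
      _ = len v ^ p := h3
      _ ≤ (1 + δ) * len v ^ p + r ^ p * (wy + K / 2 * r * R ^ 2) := by nlinarith

theorem A3_len_Sq {x y : ℝ × ℝ} (hx : x ∈ Sq) (hy : y ∈ Sq) : len (x - y) ≤ 2 := by
  have h := len_le_abs_add_abs (x - y)
  have h1 : |(x - y).1| ≤ 1 := by
    rw [Prod.fst_sub, abs_le]
    constructor <;> linarith [hx.1.1, hx.1.2, hy.1.1, hy.1.2]
  have h2 : |(x - y).2| ≤ 1 := by
    rw [Prod.snd_sub, abs_le]
    constructor <;> linarith [hx.2.1, hx.2.2, hy.2.1, hy.2.2]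
  linarith

theorem A3_integrable {α : Type*} [MeasurableSpace α] {μ : Measure α} [IsFiniteMeasure μ]
    {f : α → ℝ} (hf : Measurable f) {C : ℝ} (h : ∀ᵐ a ∂μ, |f a| ≤ C) : Integrable f μ :=
  Integrable.of_bound hf.aestronglyMeasurable C h

theorem A3 : StmtA3 := by
  intro p hp δ r K R Λ hδ hr hK hR hΛ hΛR φ g w hφm hwm hwb hlip htay hdot ν hν hνS
  obtain ⟨Cw, hCw⟩ := hwb
  have hp0 : (0 : ℝ) < p := by linarith
  have hδ1 : 0 < 1 + δ := by linarith
  have h0 : (0 : ℝ × ℝ) ∈ Sq := ⟨⟨le_rfl, zero_le_one⟩, ⟨le_rfl, zero_le_one⟩⟩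
  have hφb : ∀ x ∈ Sq, |φ x| ≤ |φ 0| + Λ * 2 := by
    intro x hx
    have h1 := hlip x hx 0 h0
    have h2 := hlip 0 h0 x hx
    have h3 := mul_le_mul_of_nonneg_left (A3_len_Sq hx h0) hΛ
    have h4 := mul_le_mul_of_nonneg_left (A3_len_Sq h0 hx) hΛ
    have h5 := neg_abs_le (φ 0)
    have h6 := le_abs_self (φ 0)
    rw [abs_le]
    constructor <;> linarith
  set c : ℝ := r ^ (p - 1) * ((∫ x, φ x ∂ν) - ∫ x, φ x ∂U) -
    r ^ p * ((∫ y, w y ∂U) + K / 2 * r * R ^ 2) with hc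
  have key : ∀ π : Measure ((ℝ × ℝ) × (ℝ × ℝ)), (π.map Prod.fst = ν ∧ π.map Prod.snd = U) →
      ENNReal.ofReal (c / (1 + δ)) ≤ ∫⁻ z, ENNReal.ofReal (len (z.1 - z.2) ^ p) ∂π := by
    rintro π ⟨h1, h2⟩
    have hπ : IsProbabilityMeasure π := by
      have : IsProbabilityMeasure (π.map Prod.fst) := by rw [h1]; exact hν
      exact Measure.isProbabilityMeasure_of_map Prod.fst
    have ha1 : ∀ᵐ z ∂π, z.1 ∈ Sq := by
      have : ∀ᵐ x ∂(π.map Prod.fst), x ∈ Sq := by
        rw [h1, ae_iff]; exact hνS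
      exact (ae_map_iff measurable_fst.aemeasurable measurableSet_Sq).1 this
    have ha2 : ∀ᵐ z ∂π, z.2 ∈ Sq := by
      have : ∀ᵐ x ∂(π.map Prod.snd), x ∈ Sq := by
        rw [h2]; exact ae_mem_Sq
      exact (ae_map_iff measurable_snd.aemeasurable measurableSet_Sq).1 this
    have i1 : Integrable (fun z : (ℝ × ℝ) × (ℝ × ℝ) => φ z.1) π :=
      A3_integrable (hφm.comp measurable_fst) (ha1.mono fun z hz => hφb _ hz)
    have i2 : Integrable (fun z : (ℝ × ℝ) × (ℝ × ℝ) => φ z.2) π :=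
      A3_integrable (hφm.comp measurable_snd) (ha2.mono fun z hz => hφb _ hz)
    have i3 : Integrable (fun z : (ℝ × ℝ) × (ℝ × ℝ) => w z.2) π :=
      A3_integrable (hwm.comp measurable_snd) (ha2.mono fun z hz => hCw _ hz)
    have hcm : Measurable (fun z : (ℝ × ℝ) × (ℝ × ℝ) => len (z.1 - z.2) ^ p) :=
      (measurable_len.comp (measurable_fst.sub measurable_snd)).pow_const p
    have i4 : Integrable (fun z : (ℝ × ℝ) × (ℝ × ℝ) => len (z.1 - z.2) ^ p) π := by
      refine A3_integrable hcm (C := 2 ^ p) ?_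
      filter_upwards [ha1, ha2] with z hz1 hz2
      rw [abs_of_nonneg (Real.rpow_nonneg (len_nonneg _) _)]
      exact Real.rpow_le_rpow (len_nonneg _) (A3_len_Sq hz1 hz2) hp0.le
    have e1 : ∫ x, φ x ∂ν = ∫ z, φ z.1 ∂π := by
      rw [← h1, integral_map measurable_fst.aemeasurable hφm.aestronglyMeasurable]
    have e2 : ∫ x, φ x ∂U = ∫ z, φ z.2 ∂π := by
      rw [← h2, integral_map measurable_snd.aemeasurable hφm.aestronglyMeasurable]
    have e3 : ∫ x, w x ∂U = ∫ z, w z.2 ∂π := by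
      rw [← h2, integral_map measurable_snd.aemeasurable hwm.aestronglyMeasurable]
    have hcle : c ≤ (1 + δ) * ∫ z, len (z.1 - z.2) ^ p ∂π := by
      have j1 : Integrable (fun z : (ℝ × ℝ) × (ℝ × ℝ) => r ^ (p - 1) * (φ z.1 - φ z.2)) π :=
        (i1.sub i2).const_mul _
      have j2 : Integrable (fun z : (ℝ × ℝ) × (ℝ × ℝ) =>
          r ^ p * (w z.2 + K / 2 * r * R ^ 2)) π :=
        (i3.add (integrable_const _)).const_mul _
      have e4 : c = ∫ z, (r ^ (p - 1) * (φ z.1 - φ z.2) -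
          r ^ p * (w z.2 + K / 2 * r * R ^ 2)) ∂π := by
        rw [integral_sub j1 j2, integral_const_mul, integral_const_mul, integral_sub i1 i2,
          integral_add i3 (integrable_const _), hc, e1, e2, e3]
        simp
      rw [e4, ← integral_const_mul]
      refine integral_mono_ae (j1.sub j2) (i4.const_mul _) ?_
      filter_upwards [ha1, ha2] with z hz1 hz2
      have h := A3_point (g := g z.2) (v := z.1 - z.2) hp hδ hr hK hR hΛR
        (hlip _ hz1 _ hz2) (htay _ hz1 _ hz2) (hdot _ hz2)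
      linarith
    have e5 : ∫⁻ z, ENNReal.ofReal (len (z.1 - z.2) ^ p) ∂π =
        ENNReal.ofReal (∫ z, len (z.1 - z.2) ^ p ∂π) := by
      rw [ofReal_integral_eq_lintegral_ofReal i4]
      exact Eventually.of_forall fun z => Real.rpow_nonneg (len_nonneg _) _
    rw [e5]
    refine ENNReal.ofReal_le_ofReal ?_
    rw [div_le_iff₀ hδ1]
    linarith
  have hfin : Wpp p ν U ≠ ⊤ := by
    have h := A2_prod p hp ν U Sq Sq 2 hν inferInstance (by norm_num) hνS U_compl_Sq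
      (fun x hx y hy => A3_len_Sq hx hy)
    exact ne_top_of_le_ne_top ENNReal.ofReal_ne_top h
  have h1 : ENNReal.ofReal (c / (1 + δ)) ≤ Wpp p ν U := by
    unfold Wpp
    exact le_iInf fun π => le_iInf fun h => key π h
  have h2 : c / (1 + δ) ≤ (Wpp p ν U).toReal := by
    refine (le_max_left _ 0).trans ?_
    rw [← ENNReal.toReal_ofReal']
    exact ENNReal.toReal_mono hfin h1
  rw [div_le_iff₀ hδ1] at h2
  rw [hc] at h2
  linarith

end Match2D
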