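import Pool.Agent.Work.MP_884187_pr.Stmts

/-!
MP_884187_pr, item A4: measurability of the matching cost in the points (from A1 and A2).
-/

open MeasureTheory Set Filter Topology

namespace Match2D

theorem A4_len_le (v : ℝ × ℝ) : len v ≤ 2 * ‖v‖ := by
  have h1 : |v.1| ≤ ‖v‖ := by rw [Prod.norm_def]; exact le_max_left _ _
  have h2 : |v.2| ≤ ‖v‖ := by rw [Prod.norm_def]; exact le_max_right _ _
  unfold len
  rw [Real.sqrt_le_iff]
  refine ⟨by positivity, ?_⟩
  have h3 : v.1 ^ 2 ≤ ‖v‖ ^ 2 := by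
    rw [← sq_abs]; exact pow_le_pow_left₀ (abs_nonneg _) h1 2
  have h4 : v.2 ^ 2 ≤ ‖v‖ ^ 2 := by
    rw [← sq_abs]; exact pow_le_pow_left₀ (abs_nonneg _) h2 2
  nlinarith [sq_nonneg ‖v‖]

theorem A4_len_symm (v w : ℝ × ℝ) : len (v - w) = len (w - v) := by
  unfold len
  congr 1
  simp only [Prod.fst_sub, Prod.snd_sub]
  ring

theorem A4_U_prob : IsProbabilityMeasure U := by
  constructor
  unfold U Sq
  rw [Measure.restrict_apply MeasurableSet.univ, univ_inter, Measure.volume_eq_prod,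
    Measure.prod_prod]
  simp

theorem A4_emp_eq (n : ℕ) (X : Fin n → ℝ × ℝ) :
    emp n X = ∑ i ∈ (Finset.univ : Finset (Fin n)), (n : ENNReal)⁻¹ • Measure.dirac (X i) := by
  unfold emp
  rw [Finset.smul_sum]

theorem A4_emp_prob {n : ℕ} (hn : 0 < n) (X : Fin n → ℝ × ℝ) :
    IsProbabilityMeasure (emp n X) := by
  constructor
  unfold emp
  simp only [Measure.smul_apply, Measure.coe_finsetSum, Finset.sum_apply, measure_univ,
    Finset.sum_const, Finset.card_univ, Fintype.card_fin, smul_eq_mul, nsmul_eq_mul, mul_one]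
  refine ENNReal.inv_mul_cancel ?_ (ENNReal.natCast_ne_top n)
  exact_mod_cast hn.ne'

theorem A4_sum_inv {n : ℕ} (hn : 0 < n) (a : ENNReal) :
    ∑ _i ∈ (Finset.univ : Finset (Fin n)), (n : ENNReal)⁻¹ * a = a := by
  rw [Finset.sum_const, Finset.card_univ, Fintype.card_fin, nsmul_eq_mul, ← mul_assoc,
    ENNReal.mul_inv_cancel ?_ (ENNReal.natCast_ne_top n), one_mul]
  exact_mod_cast hn.ne'

/-- The distance of two empirical measures. -/
theorem A4_emp_emp (h2 : StmtA2) {p : ℝ} (hp : 1 ≤ p) {n : ℕ} (hn : 0 < n)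
    (X Y : Fin n → ℝ × ℝ) (D : ℝ) (hD : 0 ≤ D) (h : ∀ i, len (X i - Y i) ≤ D) :
    Wpp p (emp n X) (emp n Y) ≤ ENNReal.ofReal (D ^ p) := by
  rw [A4_emp_eq, A4_emp_eq]
  have hinv : (n : ENNReal)⁻¹ ≠ ⊤ := by
    rw [Ne, ENNReal.inv_eq_top]
    exact_mod_cast hn.ne'
  refine (h2.1 p hp (Fin n) Finset.univ (fun _ => (n : ENNReal)⁻¹) (fun i => Measure.dirac (X i))
    (fun i => Measure.dirac (Y i)) (fun _ => hinv)).trans ?_
  calc ∑ i ∈ (Finset.univ : Finset (Fin n)), (n : ENNReal)⁻¹ *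
        Wpp p (Measure.dirac (X i)) (Measure.dirac (Y i))
      ≤ ∑ i ∈ (Finset.univ : Finset (Fin n)), (n : ENNReal)⁻¹ * ENNReal.ofReal (D ^ p) := by
        refine Finset.sum_le_sum fun i _ => ?_
        refine mul_le_mul_right ?_ _
        refine h2.2 p hp _ _ {X i} {Y i} D inferInstance inferInstance hD ?_ ?_ ?_
        · rw [Measure.dirac_apply' _ (measurableSet_singleton _).compl]
          simp
        · rw [Measure.dirac_apply' _ (measurableSet_singleton _).compl]
          simp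
        · intro x hx y hy
          rw [mem_singleton_iff] at hx hy
          rw [hx, hy]
          exact h i
    _ = ENNReal.ofReal (D ^ p) := A4_sum_inv hn _

/-- The matching cost is finite. -/
theorem A4_finite (h2 : StmtA2) {p : ℝ} (hp : 1 ≤ p) {n : ℕ} (hn : 0 < n)
    (X : Fin n → ℝ × ℝ) : Wpp p (emp n X) U ≠ ⊤ := by
  have := A4_emp_prob hn X
  have := A4_U_prob
  set D : ℝ := ∑ i, (2 * ‖X i‖) + 2 with hDdef
  have hD : 0 ≤ D := by positivity
  refine ne_top_of_le_ne_top ENNReal.ofReal_ne_top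
    (h2.2 p hp (emp n X) U (range X) Sq D inferInstance inferInstance hD ?_ ?_ ?_)
  · have hm : MeasurableSet (range X)ᶜ := (finite_range X).measurableSet.compl
    unfold emp
    simp only [Measure.smul_apply, Measure.coe_finsetSum, Finset.sum_apply, smul_eq_mul]
    rw [Finset.sum_eq_zero, mul_zero]
    intro i _
    rw [Measure.dirac_apply' _ hm]
    simp
  · unfold U
    have hSq : MeasurableSet Sq := measurableSet_Icc.prod measurableSet_Icc
    rw [Measure.restrict_apply hSq.compl]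
    simp
  · rintro x ⟨i, rfl⟩ y hy
    have hy1 : ‖y‖ ≤ 1 := by
      unfold Sq at hy
      rw [Prod.norm_def]
      obtain ⟨⟨h1, h2⟩, h3, h4⟩ := hy
      refine max_le ?_ ?_
      · rw [Real.norm_of_nonneg h1]; exact h2
      · rw [Real.norm_of_nonneg h3]; exact h4
    have h3 : ‖X i‖ ≤ ∑ i, ‖X i‖ :=
      Finset.single_le_sum (f := fun i => ‖X i‖) (fun _ _ => norm_nonneg _) (Finset.mem_univ i)
    refine (A4_len_le _).trans ?_
    have h4 := norm_sub_le (X i) y
    rw [hDdef, ← Finset.mul_sum]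
    linarith

/-- One-sided Lipschitz estimate for `W_p(emp X, U)`. -/
theorem A4_step (h1 : StmtA1) (h2 : StmtA2) {p : ℝ} (hp : 1 ≤ p) {n : ℕ} (hn : 0 < n)
    (X Y : Fin n → ℝ × ℝ) (D : ℝ) (hD : 0 ≤ D) (h : ∀ i, len (X i - Y i) ≤ D) :
    ((Wpp p (emp n X) U) ^ (1 / p)).toReal ≤ D + ((Wpp p (emp n Y) U) ^ (1 / p)).toReal := by
  have hp0 : 0 < p := by linarith
  have hX := A4_finite h2 hp hn X
  have hY := A4_finite h2 hp hn Y
  have hip : 0 ≤ 1 / p := by positivity
  have hY' : (Wpp p (emp n Y) U) ^ (1 / p) ≠ ⊤ := ENNReal.rpow_ne_top_of_nonneg hip hY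
  have h3 : (Wpp p (emp n X) (emp n Y)) ^ (1 / p) ≤ ENNReal.ofReal D := by
    refine (ENNReal.rpow_le_rpow (A4_emp_emp h2 hp hn X Y D hD h) hip).trans ?_
    rw [ENNReal.ofReal_rpow_of_nonneg (by positivity) hip, ← Real.rpow_mul hD]
    rw [mul_one_div_cancel hp0.ne', Real.rpow_one]
  have h4 := (h1 p hp (emp n X) (emp n Y) U (A4_emp_prob hn X) (A4_emp_prob hn Y) A4_U_prob).trans
    (add_le_add_left h3 _)
  have h5 := ENNReal.toReal_mono (ENNReal.add_ne_top.mpr ⟨ENNReal.ofReal_ne_top, hY'⟩) h4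
  rw [ENNReal.toReal_add ENNReal.ofReal_ne_top hY', ENNReal.toReal_ofReal hD] at h5
  exact h5

/-- `X ↦ W_p(emp X, U)` is continuous. -/
theorem A4_cont (h1 : StmtA1) (h2 : StmtA2) {p : ℝ} (hp : 1 ≤ p) {n : ℕ} (hn : 0 < n) :
    Continuous (fun X : Fin n → ℝ × ℝ => ((Wpp p (emp n X) U) ^ (1 / p)).toReal) := by
  have hL : LipschitzWith 2 (fun X : Fin n → ℝ × ℝ => ((Wpp p (emp n X) U) ^ (1 / p)).toReal) := by
    refine LipschitzWith.of_dist_le_mul fun X Y => ?_
    have hD : (0 : ℝ) ≤ 2 * dist X Y := by positivity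
    have hXY : ∀ i, len (X i - Y i) ≤ 2 * dist X Y := by
      intro i
      refine (A4_len_le _).trans ?_
      rw [← dist_eq_norm]
      have := dist_le_pi_dist X Y i
      linarith
    have hYX : ∀ i, len (Y i - X i) ≤ 2 * dist X Y := by
      intro i
      rw [A4_len_symm]
      exact hXY i
    have h3 := A4_step h1 h2 hp hn X Y _ hD hXY
    have h4 := A4_step h1 h2 hp hn Y X _ hD hYX
    rw [Real.dist_eq, abs_le]
    push_cast
    constructor <;> linarith
  exact hL.continuous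

theorem A4 (h1 : StmtA1) (h2 : StmtA2) : StmtA4 := by
  intro p hp n hn
  have hp0 : 0 < p := by linarith
  have h3 := (A4_cont h1 h2 hp hn).measurable
  have h4 : (fun X : Fin n → ℝ × ℝ => (Wpp p (emp n X) U).toReal) =
      fun X => ((Wpp p (emp n X) U) ^ (1 / p)).toReal ^ p := by
    funext X
    rw [← ENNReal.toReal_rpow, ← Real.rpow_mul ENNReal.toReal_nonneg,
      one_div_mul_cancel hp0.ne', Real.rpow_one]
  rw [h4]
  exact h3.pow_const p

end Match2D
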