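import Pool.Agent.Work.MP_884187_pr.A2

/-!
MP_884187_pr, items A6 and A7: the empirical measure is close to its generation `J` density, and
removing the mixture with the uniform measure.
-/

open MeasureTheory Set Filter Topology

namespace Match2D

theorem A6_cidx_lt {m n : ℕ} (ω : Seqs m n) (j : ℕ) (i : Fin n) :
    (cidx ω j i).1 < m ^ j ∧ (cidx ω j i).2 < m ^ j := by
  induction j with
  | zero => simp [cidx]
  | succ j ih =>
    have key : ∀ c d : ℕ, c < m ^ j → d < m → m * c + d < m ^ (j + 1) := by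
      intro c d hc hd
      calc m * c + d < m * c + m := by omega
        _ = m * (c + 1) := by ring
        _ ≤ m * m ^ j := Nat.mul_le_mul_left _ hc
        _ = m ^ (j + 1) := by ring
    exact ⟨key _ _ ih.1 (ω j i).1.isLt, key _ _ ih.2 (ω j i).2.isLt⟩

/-- The half-open generation `J` cell. -/
def A6_cell (m J : ℕ) (q : ℕ × ℕ) : Set (ℝ × ℝ) :=
  Ico ((q.1 : ℝ) / (m : ℝ) ^ J) (((q.1 : ℝ) + 1) / (m : ℝ) ^ J) ×ˢ
    Ico ((q.2 : ℝ) / (m : ℝ) ^ J) (((q.2 : ℝ) + 1) / (m : ℝ) ^ J)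

theorem A6_cell_meas (m J : ℕ) (q : ℕ × ℕ) : MeasurableSet (A6_cell m J q) :=
  measurableSet_Ico.prod measurableSet_Ico

theorem A6_floor_iff {M : ℝ} (hM : 0 < M) {x : ℝ} (hx : 0 ≤ x) (k : ℕ) :
    ⌊M * x⌋₊ = k ↔ x ∈ Ico ((k : ℝ) / M) (((k : ℝ) + 1) / M) := by
  rw [Nat.floor_eq_iff (by positivity), mem_Ico, div_le_iff₀ hM, lt_div_iff₀ hM, mul_comm x M]

theorem A6_mem_cell {m J : ℕ} (hm : 0 < m) {z : ℝ × ℝ} (h1 : 0 ≤ z.1) (h2 : 0 ≤ z.2) (q : ℕ × ℕ) :
    qidx m J z = q ↔ z ∈ A6_cell m J q := by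
  have hM : (0 : ℝ) < (m : ℝ) ^ J := by positivity
  rw [A6_cell, mem_prod, ← A6_floor_iff hM h1, ← A6_floor_iff hM h2, qidx, Prod.ext_iff]

theorem A6_cell_sub {m J : ℕ} (hm : 0 < m) {q : ℕ × ℕ} (h1 : q.1 < m ^ J) (h2 : q.2 < m ^ J) :
    A6_cell m J q ⊆ Sq := by
  have hM : (0 : ℝ) < (m : ℝ) ^ J := by positivity
  have key : ∀ k : ℕ, k < m ^ J →
      Ico ((k : ℝ) / (m : ℝ) ^ J) (((k : ℝ) + 1) / (m : ℝ) ^ J) ⊆ Icc (0 : ℝ) 1 := by
    intro k hk x hx
    have hk' : ((k : ℝ) + 1) ≤ (m : ℝ) ^ J := by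
      have : k + 1 ≤ m ^ J := hk
      exact_mod_cast this
    refine ⟨le_trans (by positivity) hx.1, le_trans hx.2.le ?_⟩
    rw [div_le_one hM]
    exact hk'
  exact prod_mono (key _ h1) (key _ h2)

theorem A6_len_le (v : ℝ × ℝ) : len v ≤ |v.1| + |v.2| := by
  unfold len
  rw [← Real.sqrt_sq (by positivity : 0 ≤ |v.1| + |v.2|)]
  apply Real.sqrt_le_sqrt
  nlinarith [abs_nonneg v.1, abs_nonneg v.2, sq_abs v.1, sq_abs v.2]

theorem A6_vol_cell {m J : ℕ} (hm : 0 < m) {q : ℕ × ℕ} (h1 : q.1 < m ^ J) (h2 : q.2 < m ^ J) :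
    ENNReal.ofReal ((m : ℝ) ^ (2 * J)) * U (A6_cell m J q) = 1 := by
  have hM : (0 : ℝ) < (m : ℝ) ^ J := by positivity
  rw [U, Measure.restrict_apply (A6_cell_meas m J q), inter_eq_left.2 (A6_cell_sub hm h1 h2)]
  rw [A6_cell, Measure.volume_eq_prod, Measure.prod_prod, Real.volume_Ico, Real.volume_Ico]
  have e : ∀ k : ℕ, ((k : ℝ) + 1) / (m : ℝ) ^ J - (k : ℝ) / (m : ℝ) ^ J = 1 / (m : ℝ) ^ J := by
    intro k; rw [← sub_div]; congr 1; ring
  rw [e, e, ← ENNReal.ofReal_mul (by positivity), ← ENNReal.ofReal_mul (by positivity)]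
  rw [← ENNReal.ofReal_one]
  congr 1
  rw [show (m : ℝ) ^ (2 * J) = (m : ℝ) ^ J * (m : ℝ) ^ J by rw [two_mul, pow_add]]
  field_simp

/-- The generation `J` density as a mixture of the uniform measures of the cells. -/
theorem A6_dens_eq {m n : ℕ} (J : ℕ) (hm : 0 < m) (hn : 0 < n) (ω : Seqs m n) :
    dens (rhoJ ω J) = ∑ i : Fin n, (n : ENNReal)⁻¹ •
      (ENNReal.ofReal ((m : ℝ) ^ (2 * J)) • U.restrict (A6_cell m J (cidx ω J i))) := by
  have hM : (0 : ℝ) < (m : ℝ) ^ J := by positivity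
  have hn' : (0 : ℝ) < n := by exact_mod_cast hn
  ext s hs
  rw [dens, withDensity_apply _ hs]
  have h1 : ∫⁻ z in s, ENNReal.ofReal (rhoJ ω J z) ∂U =
      ∫⁻ z in s, ∑ i : Fin n, (n : ENNReal)⁻¹ * (ENNReal.ofReal ((m : ℝ) ^ (2 * J)) *
        (A6_cell m J (cidx ω J i)).indicator 1 z) ∂U := by
    refine lintegral_congr_ae ?_
    have hU : ∀ᵐ z ∂U, z ∈ Sq := ae_restrict_mem (measurableSet_Icc.prod measurableSet_Icc)
    filter_upwards [ae_restrict_of_ae (s := s) hU] with z hz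
    have hz1 : 0 ≤ z.1 := hz.1.1
    have hz2 : 0 ≤ z.2 := hz.2.1
    have hind : ∀ i : Fin n, (A6_cell m J (cidx ω J i)).indicator (1 : ℝ × ℝ → ENNReal) z =
        if cidx ω J i = qidx m J z then 1 else 0 := by
      intro i
      by_cases h : cidx ω J i = qidx m J z
      · rw [if_pos h, indicator_of_mem ((A6_mem_cell hm hz1 hz2 _).1 h.symm)]; rfl
      · rw [if_neg h, indicator_of_notMem (fun hmem => h ((A6_mem_cell hm hz1 hz2 _).2 hmem).symm)]
    simp only [hind]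
    rw [← Finset.mul_sum, ← Finset.mul_sum, Finset.sum_ite, Finset.sum_const_zero, add_zero,
      Finset.sum_const, nsmul_eq_mul, mul_one]
    rw [rhoJ, rdens, inCell]
    rw [mul_div_right_comm, ENNReal.ofReal_mul (by positivity), ENNReal.ofReal_natCast,
      ENNReal.ofReal_div_of_pos hn', ENNReal.ofReal_natCast, div_eq_mul_inv]
    ring
  rw [h1, lintegral_finsetSum' _ (fun i _ => by
    refine (AEMeasurable.const_mul ?_ _)
    refine (AEMeasurable.const_mul ?_ _)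
    exact (measurable_one.indicator (A6_cell_meas m J _)).aemeasurable)]
  rw [Measure.finsetSum_apply]
  refine Finset.sum_congr rfl fun i _ => ?_
  rw [lintegral_const_mul _ (Measurable.const_mul (measurable_one.indicator (A6_cell_meas m J _)) _),
    lintegral_const_mul _ (measurable_one.indicator (A6_cell_meas m J _)),
    lintegral_indicator_one (A6_cell_meas m J _), Measure.smul_apply, Measure.smul_apply,
    Measure.restrict_apply hs, Measure.restrict_apply (A6_cell_meas m J _), inter_comm]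
  simp only [smul_eq_mul]

theorem A6 : StmtA6 := by
  intro p hp m n J hm hn ω u hu
  have hm0 : 0 < m := by omega
  have hM : (0 : ℝ) < (m : ℝ) ^ J := by positivity
  have hn0 : (n : ENNReal) ≠ 0 := by exact_mod_cast hn.ne'
  rw [A6_dens_eq J hm0 hn ω, emp, Finset.smul_sum]
  refine le_trans (A2.1 p hp (Fin n) Finset.univ (fun _ => (n : ENNReal)⁻¹)
    (fun i => Measure.dirac (emb m J (cidx ω J i) (u i)))
    (fun i => ENNReal.ofReal ((m : ℝ) ^ (2 * J)) • U.restrict (A6_cell m J (cidx ω J i)))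
    (fun i => ENNReal.inv_ne_top.2 hn0)) ?_
  have hb : ∀ i : Fin n, Wpp p (Measure.dirac (emb m J (cidx ω J i) (u i)))
      (ENNReal.ofReal ((m : ℝ) ^ (2 * J)) • U.restrict (A6_cell m J (cidx ω J i))) ≤
        ENNReal.ofReal ((2 / (m : ℝ) ^ J) ^ p) := by
    intro i
    obtain ⟨hc1, hc2⟩ := A6_cidx_lt ω J i
    refine A2.2 p hp _ _ {emb m J (cidx ω J i) (u i)} (A6_cell m J (cidx ω J i)) _
      inferInstance ⟨?_⟩ (by positivity) ?_ ?_ ?_
    · rw [Measure.smul_apply, Measure.restrict_apply MeasurableSet.univ, univ_inter, smul_eq_mul,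
        A6_vol_cell hm0 hc1 hc2]
    · rw [Measure.dirac_apply' _ (measurableSet_singleton _).compl]
      simp
    · rw [Measure.smul_apply, Measure.restrict_apply (A6_cell_meas m J _).compl]
      simp
    · rintro x hx y hy
      rw [mem_singleton_iff] at hx
      subst hx
      refine le_trans (A6_len_le _) ?_
      have key : ∀ (k : ℕ) (s t : ℝ), s ∈ Icc (0 : ℝ) 1 →
          t ∈ Ico ((k : ℝ) / (m : ℝ) ^ J) (((k : ℝ) + 1) / (m : ℝ) ^ J) →
          |((k : ℝ) + s) / (m : ℝ) ^ J - t| ≤ 1 / (m : ℝ) ^ J := by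
        intro k s t hs ht
        obtain ⟨hs0, hs1⟩ := hs
        obtain ⟨ht0, ht1⟩ := ht
        have e1 : ((k : ℝ) + s) / (m : ℝ) ^ J ≤ ((k : ℝ) + 1) / (m : ℝ) ^ J := by gcongr
        have e2 : (k : ℝ) / (m : ℝ) ^ J ≤ ((k : ℝ) + s) / (m : ℝ) ^ J := by
          gcongr; linarith
        have e3 : ((k : ℝ) + 1) / (m : ℝ) ^ J = (k : ℝ) / (m : ℝ) ^ J + 1 / (m : ℝ) ^ J := by
          rw [add_div]
        rw [abs_le]
        constructor <;> linarith
      have k1 := key _ _ _ (hu i).1 hy.1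
      have k2 := key _ _ _ (hu i).2 hy.2
      have e : (2 : ℝ) / (m : ℝ) ^ J = 1 / (m : ℝ) ^ J + 1 / (m : ℝ) ^ J := by ring
      rw [e]
      exact add_le_add k1 k2
  refine le_trans (Finset.sum_le_sum fun i _ => mul_le_mul_right (hb i) ((n : ENNReal)⁻¹)) ?_
  rw [Finset.sum_const, Finset.card_univ, Fintype.card_fin, nsmul_eq_mul, ← mul_assoc,
    ENNReal.mul_inv_cancel hn0 (ENNReal.natCast_ne_top n), one_mul]

theorem A6_U_univ : U univ = 1 := by
  rw [U, Measure.restrict_apply MeasurableSet.univ, univ_inter, Sq, Measure.volume_eq_prod,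
    Measure.prod_prod, Real.volume_Icc]
  norm_num

theorem A6_U_prob : IsProbabilityMeasure U := ⟨A6_U_univ⟩

theorem A6_U_compl : U Sqᶜ = 0 := by
  have hS : MeasurableSet Sq := measurableSet_Icc.prod measurableSet_Icc
  rw [U, Measure.restrict_apply hS.compl]
  simp

theorem A6_dens_compl (ρ : ℝ × ℝ → ℝ) : dens ρ Sqᶜ = 0 :=
  withDensity_absolutelyContinuous _ _ A6_U_compl

theorem A6_Wpp_self (p : ℝ) (hp : 1 ≤ p) (ν : Measure (ℝ × ℝ)) : Wpp p ν ν = 0 := by
  apply le_antisymm _ zero_le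
  have hm : Measurable (fun x : ℝ × ℝ => (x, x)) := measurable_id.prodMk measurable_id
  refine iInf₂_le_of_le (ν.map (fun x : ℝ × ℝ => (x, x))) ⟨?_, ?_⟩ ?_
  · rw [Measure.map_map measurable_fst hm]
    exact Measure.map_id
  · rw [Measure.map_map measurable_snd hm]
    exact Measure.map_id
  · refine le_trans (lintegral_map_le
      (fun z : (ℝ × ℝ) × (ℝ × ℝ) => ENNReal.ofReal (len (z.1 - z.2) ^ p))
      (fun x : ℝ × ℝ => (x, x))) ?_
    have : ∀ x : ℝ × ℝ, ENNReal.ofReal (len (x - x) ^ p) = 0 := by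
      intro x
      have : len (x - x) = 0 := by simp [len]
      rw [this, Real.zero_rpow (by linarith), ENNReal.ofReal_zero]
    rw [lintegral_congr this, lintegral_zero]

theorem A6_len_Sq {x y : ℝ × ℝ} (hx : x ∈ Sq) (hy : y ∈ Sq) : len (x - y) ≤ 2 := by
  refine le_trans (A6_len_le _) ?_
  have key : ∀ s t : ℝ, s ∈ Icc (0 : ℝ) 1 → t ∈ Icc (0 : ℝ) 1 → |s - t| ≤ 1 := by
    intro s t hs ht
    obtain ⟨hs0, hs1⟩ := hs
    obtain ⟨ht0, ht1⟩ := ht
    rw [abs_le]
    constructor <;> linarith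
  have k1 := key _ _ hx.1 hy.1
  have k2 := key _ _ hx.2 hy.2
  simp only [Prod.fst_sub, Prod.snd_sub]
  linarith

theorem A7 (hA1 : StmtA1) : StmtA7 := by
  intro p hp η hη0 hη1 ρ hρ hρ0 hprob
  have hp0 : 0 < p := by linarith
  have hUp := A6_U_prob
  set ν : Measure (ℝ × ℝ) := dens ρ with hν
  set ν' : Measure (ℝ × ℝ) := dens (fun z => (1 - η) * ρ z + η) with hν'
  have hmix : ν' = ENNReal.ofReal (1 - η) • ν + ENNReal.ofReal η • U := by
    rw [hν', hν, dens, dens]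
    have : (fun z => ENNReal.ofReal ((1 - η) * ρ z + η)) =
        (fun z => ENNReal.ofReal (1 - η) * ENNReal.ofReal (ρ z)) + fun _ => ENNReal.ofReal η := by
      funext z
      rw [Pi.add_apply, ENNReal.ofReal_add (mul_nonneg (by linarith) (hρ0 z)) hη0.le,
        ENNReal.ofReal_mul (by linarith)]
    rw [this, withDensity_add_right _ measurable_const, withDensity_const]
    congr 1
    exact withDensity_smul _ hρ.ennreal_ofReal
  have hν'p : IsProbabilityMeasure ν' := by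
    refine ⟨?_⟩
    rw [hmix, Measure.add_apply, Measure.smul_apply, Measure.smul_apply, measure_univ,
      measure_univ, smul_eq_mul, smul_eq_mul, mul_one, mul_one,
      ← ENNReal.ofReal_add (by linarith) hη0.le]
    simp
  -- finiteness
  have hfin : Wpp p ν U ≠ ⊤ := by
    refine ne_top_of_le_ne_top ENNReal.ofReal_ne_top
      (A2.2 p hp ν U Sq Sq 2 hprob hUp (by norm_num) (A6_dens_compl ρ) A6_U_compl ?_)
    intro x hx y hy
    exact A6_len_Sq hx hy
  -- distance of ν and ν'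
  have hclose : Wpp p ν ν' ≤ ENNReal.ofReal η * Wpp p ν U := by
    have h := A2.1 p hp Bool Finset.univ
      (fun b => if b then ENNReal.ofReal (1 - η) else ENNReal.ofReal η)
      (fun _ => ν) (fun b => if b then ν else U) (by
        intro b; cases b <;> simp)
    simp only [Fintype.univ_bool, Finset.mem_singleton, Bool.true_eq_false, not_false_eq_true,
      Finset.sum_insert, Finset.sum_singleton, if_true, Bool.false_eq_true, if_false] at h
    rw [A6_Wpp_self p hp ν, mul_zero, zero_add, ← hmix] at h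
    have e : ENNReal.ofReal (1 - η) • ν + ENNReal.ofReal η • ν = ν := by
      rw [← add_smul, ← ENNReal.ofReal_add (by linarith) hη0.le]
      simp
    rw [e] at h
    exact h
  have htri := hA1 p hp ν ν' U hprob hν'p hUp
  have hip : (0 : ℝ) ≤ 1 / p := by positivity
  have hclose' : (Wpp p ν ν') ^ (1 / p) ≤ ENNReal.ofReal (η ^ (1 / p)) * (Wpp p ν U) ^ (1 / p) := by
    refine le_trans (ENNReal.rpow_le_rpow hclose hip) ?_
    rw [ENNReal.mul_rpow_of_nonneg _ _ hip, ENNReal.ofReal_rpow_of_pos hη0]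
  have hw : (Wpp p ν U) ^ (1 / p) ≠ ⊤ := ENNReal.rpow_ne_top_of_nonneg hip hfin
  have he1 : η ^ (1 / p) ≤ 1 := Real.rpow_le_one hη0.le hη1.le hip
  have he0 : 0 ≤ η ^ (1 / p) := by positivity
  have hfin2 : ENNReal.ofReal (η ^ (1 / p)) * (Wpp p ν U) ^ (1 / p) ≠ ⊤ :=
    ENNReal.mul_ne_top ENNReal.ofReal_ne_top hw
  have hsum : ENNReal.ofReal (η ^ (1 / p)) * (Wpp p ν U) ^ (1 / p) +
      ENNReal.ofReal (1 - η ^ (1 / p)) * (Wpp p ν U) ^ (1 / p) = (Wpp p ν U) ^ (1 / p) := by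
    rw [← add_mul, ← ENNReal.ofReal_add he0 (by linarith)]
    simp
  have hfinal : ENNReal.ofReal (η ^ (1 / p)) * (Wpp p ν U) ^ (1 / p) +
      ENNReal.ofReal (1 - η ^ (1 / p)) * (Wpp p ν U) ^ (1 / p) ≤
      ENNReal.ofReal (η ^ (1 / p)) * (Wpp p ν U) ^ (1 / p) + (Wpp p ν' U) ^ (1 / p) := by
    rw [hsum]
    exact le_trans htri (by gcongr)
  exact (ENNReal.add_le_add_iff_left hfin2).1 hfinal

end Match2D
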