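import Pool.Agent.Work.MP_884187_pr.Stmts

/-!
MP_884187_pr items C1, C5, C9: the one step formula, the decomposition of an integral into
cells, averaging over finer cells.
-/

open MeasureTheory Set Filter Topology

namespace Match2D

/-! ### C1 -/

theorem C1_sum_update {ι D : Type*} [Fintype ι] [DecidableEq ι] [Fintype D] (j : ι)
    (G : (ι → D) → ℝ) :
    ∑ w, ∑ δ, G (Function.update w j δ) = (Fintype.card D : ℝ) * ∑ w, G w := by
  classical
  have h1 : ∀ (p : D × ({k // k ≠ j} → D)) (δ : D),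
      Function.update ((Equiv.funSplitAt j D).symm p) j δ = (Equiv.funSplitAt j D).symm (δ, p.2) := by
    intro p δ
    funext k
    by_cases hk : k = j
    · subst hk
      simp [Equiv.funSplitAt, Equiv.piSplitAt]
    · simp [Equiv.funSplitAt, Equiv.piSplitAt, hk, Function.update_of_ne]
  calc ∑ w, ∑ δ, G (Function.update w j δ)
      = ∑ p : D × ({k // k ≠ j} → D), ∑ δ,
          G (Function.update ((Equiv.funSplitAt j D).symm p) j δ) :=
        (Equiv.sum_comp (Equiv.funSplitAt j D).symm (fun w => ∑ δ, G (Function.update w j δ))).symm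
    _ = ∑ p : D × ({k // k ≠ j} → D), ∑ δ, G ((Equiv.funSplitAt j D).symm (δ, p.2)) := by
        simp_rw [h1]
    _ = ∑ _d : D, ∑ r : {k // k ≠ j} → D, ∑ δ, G ((Equiv.funSplitAt j D).symm (δ, r)) := by
        rw [Fintype.sum_prod_type]
    _ = (Fintype.card D : ℝ) *
          ∑ r : {k // k ≠ j} → D, ∑ δ, G ((Equiv.funSplitAt j D).symm (δ, r)) := by
        rw [Finset.sum_const, Finset.card_univ, nsmul_eq_mul]
    _ = (Fintype.card D : ℝ) * ∑ w, G w := by
        congr 1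
        rw [Finset.sum_comm, ← Fintype.sum_prod_type (f := fun p => G ((Equiv.funSplitAt j D).symm p))]
        exact Equiv.sum_comp (Equiv.funSplitAt j D).symm G

theorem C1_ext_update {m n : ℕ} [NeZero m] {J j : ℕ} (hj : j < J) (w : Fin J → Fin n → Dig m)
    (δ : Fin n → Dig m) :
    Function.update (ext J w) j δ = ext J (Function.update w ⟨j, hj⟩ δ) := by
  funext l i
  by_cases hl : l = j
  · subst hl
    simp [ext, hj]
  · rw [Function.update_of_ne hl]
    unfold ext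
    by_cases hlJ : l < J
    · simp only [hlJ, dif_pos]
      rw [Function.update_of_ne]
      intro h
      exact hl (by simpa using congrArg Fin.val h)
    · simp [hlJ]

theorem C1 : StmtC1 := by
  intro m n J j _ hj F
  unfold EJ avg
  simp only [smul_eq_mul]
  simp_rw [C1_ext_update hj]
  rw [← Finset.mul_sum, C1_sum_update (⟨j, hj⟩ : Fin J) (fun w => F (ext J w))]
  have hc : (Fintype.card (Fin n → Dig m) : ℝ) ≠ 0 := by
    have : 0 < Fintype.card (Fin n → Dig m) := Fintype.card_pos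
    exact_mod_cast this.ne'
  rw [inv_mul_cancel_left₀ hc]

/-! ### C5 -/

theorem C1_Sq_ae : Sq =ᵐ[volume] Sq0 := by
  unfold Sq Sq0
  exact Measure.set_prod_ae_eq Ico_ae_eq_Icc.symm Ico_ae_eq_Icc.symm

theorem C1_U : U = volume.restrict Sq0 := Measure.restrict_congr_set C1_Sq_ae

/-- The cell `q` of the grid of mesh `1/M`. -/
def C1_cell (M : ℕ) (q : ℕ × ℕ) : Set (ℝ × ℝ) :=
  {z | (M : ℝ) • z - ((q.1 : ℝ), (q.2 : ℝ)) ∈ Sq0}

theorem C1_mem_cell {M : ℕ} {q : ℕ × ℕ} {z : ℝ × ℝ} : z ∈ C1_cell M q ↔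
    ((q.1 : ℝ) ≤ M * z.1 ∧ M * z.1 < q.1 + 1) ∧ ((q.2 : ℝ) ≤ M * z.2 ∧ M * z.2 < q.2 + 1) := by
  unfold C1_cell Sq0
  simp only [mem_ofPred_eq, mem_prod, mem_Ico, Prod.fst_sub, Prod.snd_sub, Prod.smul_fst,
    Prod.smul_snd, smul_eq_mul, sub_nonneg]
  constructor
  · rintro ⟨⟨a, b⟩, c, d⟩
    exact ⟨⟨a, by linarith⟩, c, by linarith⟩
  · rintro ⟨⟨a, b⟩, c, d⟩
    exact ⟨⟨a, by linarith⟩, c, by linarith⟩

theorem C1_floor_of_mem {M : ℕ} {q : ℕ × ℕ} {z : ℝ × ℝ} (hz : z ∈ C1_cell M q) :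
    (⌊(M : ℝ) * z.1⌋₊, ⌊(M : ℝ) * z.2⌋₊) = q := by
  rw [C1_mem_cell] at hz
  obtain ⟨⟨a, b⟩, c, d⟩ := hz
  ext
  · exact (Nat.floor_eq_iff (le_trans (Nat.cast_nonneg _) a)).mpr ⟨a, b⟩
  · exact (Nat.floor_eq_iff (le_trans (Nat.cast_nonneg _) c)).mpr ⟨c, d⟩

theorem C1_cell_meas (M : ℕ) (q : ℕ × ℕ) : MeasurableSet (C1_cell M q) := by
  unfold C1_cell
  have h0 : MeasurableSet Sq0 := measurableSet_Ico.prod measurableSet_Ico
  exact h0.preimage ((measurable_id.const_smul (M : ℝ)).sub_const _)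

theorem C1_Sq0_union {M : ℕ} (hM : 0 < M) :
    Sq0 = ⋃ q ∈ Finset.range M ×ˢ Finset.range M, C1_cell M q := by
  have hM' : (0 : ℝ) < M := by exact_mod_cast hM
  ext z
  simp only [mem_iUnion, Finset.mem_product, Finset.mem_range, exists_prop]
  constructor
  · intro hz
    obtain ⟨⟨a, b⟩, c, d⟩ := hz
    have ha : 0 ≤ (M : ℝ) * z.1 := mul_nonneg hM'.le a
    have hc : 0 ≤ (M : ℝ) * z.2 := mul_nonneg hM'.le c
    refine ⟨(⌊(M : ℝ) * z.1⌋₊, ⌊(M : ℝ) * z.2⌋₊), ⟨?_, ?_⟩, ?_⟩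
    · rw [Nat.floor_lt ha]
      nlinarith
    · rw [Nat.floor_lt hc]
      nlinarith
    · rw [C1_mem_cell]
      exact ⟨⟨Nat.floor_le ha, Nat.lt_floor_add_one _⟩, Nat.floor_le hc, Nat.lt_floor_add_one _⟩
  · rintro ⟨q, ⟨h1, h2⟩, hz⟩
    rw [C1_mem_cell] at hz
    obtain ⟨⟨a, b⟩, c, d⟩ := hz
    have h1' : (q.1 : ℝ) + 1 ≤ M := by exact_mod_cast h1
    have h2' : (q.2 : ℝ) + 1 ≤ M := by exact_mod_cast h2
    refine ⟨⟨?_, ?_⟩, ?_, ?_⟩
    · have : 0 ≤ (M : ℝ) * z.1 := le_trans (Nat.cast_nonneg _) a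
      exact nonneg_of_mul_nonneg_right this hM'
    · by_contra hcon
      push Not at hcon
      nlinarith
    · have : 0 ≤ (M : ℝ) * z.2 := le_trans (Nat.cast_nonneg _) c
      exact nonneg_of_mul_nonneg_right this hM'
    · by_contra hcon
      push Not at hcon
      nlinarith

theorem C1_disj (M : ℕ) (s : Set (ℕ × ℕ)) : s.PairwiseDisjoint (C1_cell M) := by
  intro q _ q' _ hne
  rw [Function.onFun, Set.disjoint_left]
  intro z hz hz'
  exact hne ((C1_floor_of_mem hz).symm.trans (C1_floor_of_mem hz'))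

/-- Change of variables in one cell. -/
theorem C1_cell_integral {M : ℕ} (hM : 0 < M) (q : ℕ × ℕ) (f : ℝ × ℝ → ℝ) :
    ∫ z in C1_cell M q, f ((M : ℝ) • z - ((q.1 : ℝ), (q.2 : ℝ))) = ((M : ℝ) ^ 2)⁻¹ * ∫ y in Sq0, f y := by
  have h0 : MeasurableSet Sq0 := measurableSet_Ico.prod measurableSet_Ico
  rw [← integral_indicator (C1_cell_meas M q), ← integral_indicator h0]
  have e1 : (C1_cell M q).indicator (fun z => f ((M : ℝ) • z - ((q.1 : ℝ), (q.2 : ℝ)))) =
      fun z => (fun w => Sq0.indicator f (w - ((q.1 : ℝ), (q.2 : ℝ)))) ((M : ℝ) • z) := by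
    funext z
    by_cases hz : (M : ℝ) • z - ((q.1 : ℝ), (q.2 : ℝ)) ∈ Sq0
    · rw [indicator_of_mem (show z ∈ C1_cell M q from hz)]
      simp only [indicator_of_mem hz]
    · rw [indicator_of_notMem (show z ∉ C1_cell M q from hz)]
      simp only [indicator_of_notMem hz]
  rw [e1, Measure.integral_comp_smul volume
    (fun w => Sq0.indicator f (w - ((q.1 : ℝ), (q.2 : ℝ)))) (M : ℝ),
    integral_sub_right_eq_self]
  have hfr : Module.finrank ℝ (ℝ × ℝ) = 2 := by simp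
  rw [hfr, smul_eq_mul, abs_of_nonneg (by positivity)]

theorem C1_integrable {f : ℝ × ℝ → ℝ} (hf : Measurable f) {C : ℝ} (hC : ∀ y ∈ Sq, |f y| ≤ C) :
    IntegrableOn f Sq0 := by
  have hsub : Sq0 ⊆ Sq := prod_mono Ico_subset_Icc_self Ico_subset_Icc_self
  have hfin : volume Sq0 ≠ ⊤ := by
    have h1 : volume Sq0 ≤ volume (Sq) := measure_mono hsub
    have h2 : volume Sq ≠ ⊤ := (isCompact_Icc.prod isCompact_Icc).measure_lt_top.ne
    exact ne_top_of_le_ne_top h2 h1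
  refine IntegrableOn.of_bound hfin.lt_top hf.aestronglyMeasurable C ?_
  have h0 : MeasurableSet Sq0 := measurableSet_Ico.prod measurableSet_Ico
  filter_upwards [ae_restrict_mem h0] with y hy
  exact hC y (hsub hy)

/-- The cell decomposition with general mesh and hypotheses only on the cells of the square. -/
theorem C1_cells {M : ℕ} (hM : 0 < M) (F : ℕ × ℕ → ℝ × ℝ → ℝ)
    (hF : ∀ q, q.1 < M → q.2 < M → Measurable (F q) ∧ ∃ C, ∀ y ∈ Sq, |F q y| ≤ C) :
    ∫ z, F (⌊(M : ℝ) * z.1⌋₊, ⌊(M : ℝ) * z.2⌋₊)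
        ((M : ℝ) * z.1 - ⌊(M : ℝ) * z.1⌋₊, (M : ℝ) * z.2 - ⌊(M : ℝ) * z.2⌋₊) ∂U =
      ((M : ℝ) ^ 2)⁻¹ * ∑ q ∈ Finset.range M ×ˢ Finset.range M, ∫ y, F q y ∂U := by
  have hM' : (0 : ℝ) < M := by exact_mod_cast hM
  have h0 : MeasurableSet Sq0 := measurableSet_Ico.prod measurableSet_Ico
  rw [C1_U]
  set Φ : ℝ × ℝ → ℝ := fun z => F (⌊(M : ℝ) * z.1⌋₊, ⌊(M : ℝ) * z.2⌋₊)
        ((M : ℝ) * z.1 - ⌊(M : ℝ) * z.1⌋₊, (M : ℝ) * z.2 - ⌊(M : ℝ) * z.2⌋₊) with hΦ
  have hΦq : ∀ q : ℕ × ℕ, ∀ z ∈ C1_cell M q, Φ z = F q ((M : ℝ) • z - ((q.1 : ℝ), (q.2 : ℝ))) := by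
    intro q z hz
    have hq := C1_floor_of_mem hz
    simp only [hΦ]
    have hq1 : ⌊(M : ℝ) * z.1⌋₊ = q.1 := congrArg Prod.fst hq
    have hq2 : ⌊(M : ℝ) * z.2⌋₊ = q.2 := congrArg Prod.snd hq
    rw [hq1, hq2]
    rfl
  have hcellsub : ∀ q : ℕ × ℕ, q.1 < M → q.2 < M → C1_cell M q ⊆ Sq0 := by
    intro q h1 h2 z hz
    rw [C1_Sq0_union hM]
    simp only [mem_iUnion, Finset.mem_product, Finset.mem_range, exists_prop]
    exact ⟨q, ⟨h1, h2⟩, hz⟩
  have hint : ∀ q : ℕ × ℕ, q.1 < M → q.2 < M →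
      IntegrableOn Φ (C1_cell M q) := by
    intro q h1 h2
    obtain ⟨hm, C, hC⟩ := hF q h1 h2
    have hmeas : Measurable (fun z : ℝ × ℝ => F q ((M : ℝ) • z - ((q.1 : ℝ), (q.2 : ℝ)))) :=
      hm.comp ((measurable_id.const_smul (M : ℝ)).sub_const _)
    have hfin : volume (C1_cell M q) < ⊤ := by
      have h3 : volume (C1_cell M q) ≤ volume Sq :=
        measure_mono ((hcellsub q h1 h2).trans (prod_mono Ico_subset_Icc_self Ico_subset_Icc_self))
      exact lt_of_le_of_lt h3 (isCompact_Icc.prod isCompact_Icc).measure_lt_top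
    have hI : IntegrableOn (fun z : ℝ × ℝ => F q ((M : ℝ) • z - ((q.1 : ℝ), (q.2 : ℝ))))
        (C1_cell M q) := by
      refine IntegrableOn.of_bound hfin hmeas.aestronglyMeasurable C ?_
      filter_upwards [ae_restrict_mem (C1_cell_meas M q)] with z hz
      exact hC _ (prod_mono Ico_subset_Icc_self Ico_subset_Icc_self hz)
    refine hI.congr_fun ?_ (C1_cell_meas M q)
    intro z hz
    exact (hΦq q z hz).symm
  calc ∫ z in Sq0, Φ z = ∫ z in ⋃ q ∈ Finset.range M ×ˢ Finset.range M, C1_cell M q, Φ z := by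
        rw [← C1_Sq0_union hM]
    _ = ∑ q ∈ Finset.range M ×ˢ Finset.range M, ∫ z in C1_cell M q, Φ z := by
        refine integral_biUnion_finset _ (fun q _ => C1_cell_meas M q) (C1_disj M _) ?_
        intro q hq
        rw [Finset.mem_product, Finset.mem_range, Finset.mem_range] at hq
        exact hint q hq.1 hq.2
    _ = ∑ q ∈ Finset.range M ×ˢ Finset.range M, ((M : ℝ) ^ 2)⁻¹ * ∫ y in Sq0, F q y := by
        refine Finset.sum_congr rfl (fun q _ => ?_)
        rw [← C1_cell_integral hM q (F q)]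
        exact setIntegral_congr_fun (C1_cell_meas M q) (fun z hz => hΦq q z hz)
    _ = _ := by rw [← Finset.mul_sum]

theorem C5 : StmtC5 := by
  intro m j hm F hF hC
  obtain ⟨C, hC⟩ := hC
  have hM : 0 < m ^ j := pow_pos hm j
  have h := C1_cells hM F (fun q _ _ => ⟨hF q, C, hC q⟩)
  have e : ((m ^ j : ℕ) : ℝ) = (m : ℝ) ^ j := by push_cast; ring
  rw [e] at h
  rw [pow_mul', ← h]
  rfl

/-! ### C9 -/

theorem C1_cidx_lt {m n : ℕ} (ω : Seqs m n) (l : ℕ) (i : Fin n) :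
    (cidx ω l i).1 < m ^ l ∧ (cidx ω l i).2 < m ^ l := by
  induction l with
  | zero => simp [cidx]
  | succ l ih =>
    simp only [cidx]
    have h1 := (ω l i).1.isLt
    have h2 := (ω l i).2.isLt
    constructor
    · calc m * (cidx ω l i).1 + ((ω l i).1 : ℕ) < m * (cidx ω l i).1 + m := by omega
        _ = m * ((cidx ω l i).1 + 1) := by ring
        _ ≤ m * m ^ l := Nat.mul_le_mul_left m ih.1
        _ = m ^ (l + 1) := by ring
    · calc m * (cidx ω l i).2 + ((ω l i).2 : ℕ) < m * (cidx ω l i).2 + m := by omega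
        _ = m * ((cidx ω l i).2 + 1) := by ring
        _ ≤ m * m ^ l := Nat.mul_le_mul_left m ih.2
        _ = m ^ (l + 1) := by ring

theorem C1_cidx_congr {m n : ℕ} (ω ω' : Seqs m n) (l : ℕ) (h : ∀ k, k < l → ω k = ω' k) :
    cidx ω l = cidx ω' l := by
  induction l with
  | zero => rfl
  | succ l ih =>
    have ih' := ih (fun k hk => h k (by omega))
    funext i
    simp only [cidx]
    rw [ih', h l (by omega)]

/-- The average over all digit vectors of a function of one digit. -/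
theorem C1_avg_coord {m n : ℕ} [NeZero m] (i : Fin n) (g : Dig m → ℝ) :
    avg (fun δ : Fin n → Dig m => g (δ i)) = avg g := by
  classical
  unfold avg
  simp only [smul_eq_mul]
  have h : ∑ δ : Fin n → Dig m, g (δ i) =
      (Fintype.card ({k : Fin n // k ≠ i} → Dig m) : ℝ) * ∑ d, g d := by
    rw [← Equiv.sum_comp (Equiv.funSplitAt i (Dig m)).symm (fun δ => g (δ i)),
      Fintype.sum_prod_type, Finset.mul_sum]
    refine Finset.sum_congr rfl (fun d _ => ?_)
    have : ∀ r : {k : Fin n // k ≠ i} → Dig m,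
        g ((Equiv.funSplitAt i (Dig m)).symm (d, r) i) = g d := by
      intro r
      simp [Equiv.funSplitAt, Equiv.piSplitAt]
    simp only [this]
    rw [Finset.sum_const, Finset.card_univ, nsmul_eq_mul]
  rw [h]
  have hc : (Fintype.card (Fin n → Dig m) : ℝ) =
      (Fintype.card (Dig m) : ℝ) * Fintype.card ({k : Fin n // k ≠ i} → Dig m) := by
    rw [Fintype.card_congr (Equiv.funSplitAt i (Dig m)), Fintype.card_prod]
    push_cast
    ring
  have h2 : (Fintype.card ({k : Fin n // k ≠ i} → Dig m) : ℝ) ≠ 0 := by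
    have : 0 < Fintype.card ({k : Fin n // k ≠ i} → Dig m) := Fintype.card_pos
    exact_mod_cast this.ne'
  rw [hc, mul_inv, ← mul_assoc, mul_assoc _ _ (Fintype.card ({k : Fin n // k ≠ i} → Dig m) : ℝ),
    inv_mul_cancel₀ h2, mul_one]

/-- Average over the digits as a sum over a product of ranges. -/
theorem C1_avg_dig {m : ℕ} [NeZero m] (g : ℕ × ℕ → ℝ) :
    avg (fun d : Dig m => g ((d.1 : ℕ), (d.2 : ℕ))) =
      ((m : ℝ) ^ 2)⁻¹ * ∑ q ∈ Finset.range m ×ˢ Finset.range m, g q := by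
  unfold avg
  rw [smul_eq_mul, Fintype.card_prod, Fintype.card_fin, Fintype.sum_prod_type,
    Finset.sum_product]
  have h2 : ∀ x : ℕ, ∑ y : Fin m, g (x, (y : ℕ)) = ∑ y ∈ Finset.range m, g (x, y) := by
    intro x
    exact Fin.sum_univ_eq_sum_range (fun y => g (x, y)) m
  simp_rw [h2]
  rw [Fin.sum_univ_eq_sum_range (fun x => ∑ y ∈ Finset.range m, g (x, y)) m]
  push_cast
  rw [pow_two]

theorem C1_emb_mem {m l : ℕ} (hm : 0 < m) {q : ℕ × ℕ} (h1 : q.1 < m ^ l) (h2 : q.2 < m ^ l)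
    {u : ℝ × ℝ} (hu : u ∈ Sq) : emb m l q u ∈ Sq := by
  have hm' : (0 : ℝ) < (m : ℝ) ^ l := by positivity
  obtain ⟨⟨a, b⟩, c, d⟩ := hu
  have h1' : (q.1 : ℝ) + 1 ≤ (m : ℝ) ^ l := by exact_mod_cast h1
  have h2' : (q.2 : ℝ) + 1 ≤ (m : ℝ) ^ l := by exact_mod_cast h2
  refine ⟨⟨?_, ?_⟩, ?_, ?_⟩
  · exact div_nonneg (add_nonneg (Nat.cast_nonneg _) a) hm'.le
  · exact (div_le_one hm').mpr (by linarith)
  · exact div_nonneg (add_nonneg (Nat.cast_nonneg _) c) hm'.le
  · exact (div_le_one hm').mpr (by linarith)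

theorem C1_emb_meas (m l : ℕ) (q : ℕ × ℕ) : Measurable (emb m l q) := by
  unfold emb
  fun_prop

theorem C1_emb_emb {m : ℕ} (hm : 0 < m) (l : ℕ) (q d : ℕ × ℕ) (u : ℝ × ℝ) :
    emb m (l + 1) (m * q.1 + d.1, m * q.2 + d.2) u = emb m l q (emb m 1 d u) := by
  have hm' : (m : ℝ) ≠ 0 := by exact_mod_cast hm.ne'
  unfold emb
  push_cast
  ext
  · field_simp
    ring
  · field_simp
    ring

/-- Averaging over the subcells of a cell. -/
theorem C1_sub {m : ℕ} [NeZero m] (l : ℕ) (q : ℕ × ℕ) (h1 : q.1 < m ^ l) (h2 : q.2 < m ^ l)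
    (g : ℝ × ℝ → ℝ) (hg : Measurable g) (hC : ∃ C, ∀ z ∈ Sq, |g z| ≤ C) :
    avg (fun d : Dig m => ∫ u, g (emb m (l + 1) (m * q.1 + (d.1 : ℕ), m * q.2 + (d.2 : ℕ)) u) ∂U) =
      ∫ u, g (emb m l q u) ∂U := by
  obtain ⟨C, hC⟩ := hC
  have hm : 0 < m := Nat.pos_of_ne_zero (NeZero.ne m)
  have hm' : (m : ℝ) ≠ 0 := by exact_mod_cast hm.ne'
  have h := C1_cells hm (fun d y => g (emb m l q (emb m 1 d y))) (by
    intro d hd1 hd2
    refine ⟨hg.comp ((C1_emb_meas m l q).comp (C1_emb_meas m 1 d)), C, ?_⟩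
    intro y hy
    exact hC _ (C1_emb_mem hm h1 h2 (C1_emb_mem hm (by simpa using hd1) (by simpa using hd2) hy)))
  rw [C1_avg_dig (fun d => ∫ u, g (emb m (l + 1) (m * q.1 + d.1, m * q.2 + d.2) u) ∂U)]
  simp_rw [C1_emb_emb hm]
  rw [← h]
  refine integral_congr_ae (Filter.Eventually.of_forall (fun z => ?_))
  simp only
  congr 2
  unfold emb
  ext
  · simp only [pow_one]
    field_simp
    ring
  · simp only [pow_one]
    field_simp
    ring

theorem C9 : StmtC9 := by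
  intro m n J j _ hjJ f hf hC hdep i
  have hm : 0 < m := Nat.pos_of_ne_zero (NeZero.ne m)
  obtain ⟨C, hC⟩ := hC
  have key : ∀ l, j ≤ l → l ≤ J →
      EJ J (fun ω => ∫ u, f ω (emb m l (cidx ω l i) u) ∂U) =
        EJ J (fun ω => ∫ u, f ω (emb m j (cidx ω j i) u) ∂U) := by
    intro l hjl
    induction l, hjl using Nat.le_induction with
    | base => intro _; rfl
    | succ l hjl ih =>
      intro hlJ
      rw [← ih (by omega), C1 m n J l (by omega)]
      congr 1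
      funext ω
      have h1 : ∀ δ : Fin n → Dig m, f (Function.update ω l δ) = f ω := by
        intro δ
        apply hdep
        intro k hk
        rw [Function.update_of_ne (by omega)]
      have h2 : ∀ δ : Fin n → Dig m, cidx (Function.update ω l δ) (l + 1) i =
          (m * (cidx ω l i).1 + ((δ i).1 : ℕ), m * (cidx ω l i).2 + ((δ i).2 : ℕ)) := by
        intro δ
        have h3 : cidx (Function.update ω l δ) l = cidx ω l := by
          apply C1_cidx_congr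
          intro k hk
          rw [Function.update_of_ne (by omega)]
        simp only [cidx]
        rw [h3, Function.update_self]
      simp_rw [h1, h2]
      rw [C1_avg_coord i (fun d : Dig m => ∫ u, f ω (emb m (l + 1)
        (m * (cidx ω l i).1 + (d.1 : ℕ), m * (cidx ω l i).2 + (d.2 : ℕ)) u) ∂U)]
      exact C1_sub l (cidx ω l i) (C1_cidx_lt ω l i).1 (C1_cidx_lt ω l i).2 (f ω) (hf ω) ⟨C, hC ω⟩
  exact key J hjJ le_rfl

end Match2D
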