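import Pool.Agent.Work.MP_884187_pr.Stmts

/-!
MP_884187_pr, item C3: moments of sums of independent centred vectors, centred counts.
-/

set_option autoImplicit false

open MeasureTheory Set Filter Topology

namespace Match2D

/-! ### Generalities on averages -/

section Avg

variable {α : Type*} [Fintype α]

lemma C3_avg_real (f : α → ℝ) : avg f = (Fintype.card α : ℝ)⁻¹ * ∑ a, f a := by
  unfold avg; rw [smul_eq_mul]

lemma C3_avg_add {E : Type*} [AddCommGroup E] [Module ℝ E] (f g : α → E) :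
    avg (fun a => f a + g a) = avg f + avg g := by
  unfold avg; rw [Finset.sum_add_distrib, smul_add]

lemma C3_avg_sub {E : Type*} [AddCommGroup E] [Module ℝ E] (f g : α → E) :
    avg (fun a => f a - g a) = avg f - avg g := by
  unfold avg; rw [Finset.sum_sub_distrib, smul_sub]

lemma C3_avg_sum {E ι : Type*} [AddCommGroup E] [Module ℝ E] (s : Finset ι) (f : ι → α → E) :
    avg (fun a => ∑ i ∈ s, f i a) = ∑ i ∈ s, avg (f i) := by
  unfold avg; rw [Finset.sum_comm, Finset.smul_sum]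

lemma C3_avg_mul_left (c : ℝ) (f : α → ℝ) : avg (fun a => c * f a) = c * avg f := by
  simp only [C3_avg_real]; rw [← Finset.mul_sum]; ring

lemma C3_avg_mul_right (c : ℝ) (f : α → ℝ) : avg (fun a => f a * c) = avg f * c := by
  simp only [C3_avg_real]; rw [← Finset.sum_mul]; ring

lemma C3_avg_mono {f g : α → ℝ} (h : ∀ a, f a ≤ g a) : avg f ≤ avg g := by
  simp only [C3_avg_real]
  exact mul_le_mul_of_nonneg_left (Finset.sum_le_sum fun a _ => h a) (by positivity)

lemma C3_avg_nonneg {f : α → ℝ} (h : ∀ a, 0 ≤ f a) : 0 ≤ avg f := by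
  simp only [C3_avg_real]
  exact mul_nonneg (by positivity) (Finset.sum_nonneg fun a _ => h a)

lemma C3_avg_const [Nonempty α] {E : Type*} [AddCommGroup E] [Module ℝ E] (c : E) :
    avg (fun _ : α => c) = c := by
  unfold avg
  rw [Finset.sum_const, Finset.card_univ, ← Nat.cast_smul_eq_nsmul ℝ, smul_smul,
    inv_mul_cancel₀, one_smul]
  exact_mod_cast Fintype.card_ne_zero

lemma C3_avg_fst (f : α → ℝ × ℝ) : (avg f).1 = avg (fun a => (f a).1) := by
  unfold avg
  simp [Prod.fst_sum]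

lemma C3_avg_snd (f : α → ℝ × ℝ) : (avg f).2 = avg (fun a => (f a).2) := by
  unfold avg
  simp [Prod.snd_sum]

lemma C3_avg_abs_le [Nonempty α] {f : α → ℝ} {b : ℝ} (h : ∀ a, |f a| ≤ b) : |avg f| ≤ b := by
  rw [abs_le]
  constructor
  · rw [← C3_avg_const (α := α) (-b)]
    exact C3_avg_mono fun a => (abs_le.mp (h a)).1
  · rw [← C3_avg_const (α := α) b]
    exact C3_avg_mono fun a => (abs_le.mp (h a)).2

end Avg

/-! ### Independence of the coordinates -/

section Indep

variable {D : Type*} [Fintype D] {n : ℕ}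

lemma C3_avg_prod (h : Fin n → D → ℝ) :
    avg (fun δ : Fin n → D => ∏ i, h i (δ i)) = ∏ i, avg (h i) := by
  classical
  simp only [C3_avg_real]
  rw [Finset.prod_mul_distrib, Finset.prod_const, Finset.card_univ, Fintype.card_fin,
    Fintype.prod_sum, Fintype.card_fun, Fintype.card_fin]
  push_cast
  rw [inv_pow]

lemma C3_avg_coord [Nonempty D] (i : Fin n) (f : D → ℝ) :
    avg (fun δ : Fin n → D => f (δ i)) = avg f := by
  classical
  have h := C3_avg_prod (n := n) (fun i' => if i' = i then f else fun _ => 1)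
  have h1 : (fun δ : Fin n → D => ∏ i', (if i' = i then f else fun _ => (1 : ℝ)) (δ i')) =
      fun δ => f (δ i) := by
    funext δ
    rw [Finset.prod_eq_single i]
    · simp
    · intro b _ hb
      simp [hb]
    · intro hb
      exact absurd (Finset.mem_univ i) hb
  rw [h1] at h
  rw [h, Finset.prod_eq_single i]
  · simp
  · intro b _ hb
    simp only [hb, if_false]
    exact C3_avg_const (1 : ℝ)
  · intro hb
    exact absurd (Finset.mem_univ i) hb

lemma C3_avg_coord2 [Nonempty D] {i j : Fin n} (hij : i ≠ j) (f g : D → ℝ) :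
    avg (fun δ : Fin n → D => f (δ i) * g (δ j)) = avg f * avg g := by
  classical
  have h := C3_avg_prod (n := n)
    (fun i' => if i' = i then f else if i' = j then g else fun _ => 1)
  have key : ∀ F : Fin n → ℝ, (∀ b, b ≠ i → b ≠ j → F b = 1) → ∏ b, F b = F i * F j := by
    intro F hF
    rw [← Finset.prod_subset (Finset.subset_univ {i, j}), Finset.prod_pair hij]
    intro b _ hb
    simp only [Finset.mem_insert, Finset.mem_singleton, not_or] at hb
    exact hF b hb.1 hb.2
  have h1 : (fun δ : Fin n → D => ∏ i', (if i' = i then f else if i' = j then g else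
      fun _ => (1 : ℝ)) (δ i')) = fun δ => f (δ i) * g (δ j) := by
    funext δ
    rw [key]
    · simp [hij.symm]
    · intro b hb1 hb2
      simp [hb1, hb2]
  rw [h1] at h
  rw [h, key]
  · simp [hij.symm]
  · intro b hb1 hb2
    simp only [hb1, hb2, if_false]
    exact C3_avg_const (1 : ℝ)

/-- Hoeffding's lemma for the uniform average. -/
lemma C3_hoeff1 [Nonempty D] (g : D → ℝ) (b t : ℝ) (hb : 0 < b) (hg : avg g = 0)
    (hgb : ∀ d, |g d| ≤ b) : avg (fun d => Real.exp (t * g d)) ≤ Real.exp (t ^ 2 * b ^ 2 / 2) := by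
  have h1 : ∀ d, Real.exp (t * g d) ≤ Real.cosh (t * b) + g d * (Real.sinh (t * b) / b) := by
    intro d
    have hd := abs_le.mp (hgb d)
    have p1 : 0 ≤ (b + g d) / (2 * b) := div_nonneg (by linarith) (by linarith)
    have p2 : 0 ≤ (b - g d) / (2 * b) := div_nonneg (by linarith) (by linarith)
    have p3 : (b + g d) / (2 * b) + (b - g d) / (2 * b) = 1 := by field_simp; ring
    have hc := convexOn_exp.2 (Set.mem_univ (t * b)) (Set.mem_univ (-(t * b))) p1 p2 p3
    simp only [smul_eq_mul] at hc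
    have e1 : (b + g d) / (2 * b) * (t * b) + (b - g d) / (2 * b) * -(t * b) = t * g d := by
      field_simp; ring
    rw [e1] at hc
    refine hc.trans (le_of_eq ?_)
    rw [Real.cosh_eq, Real.sinh_eq]
    field_simp
    ring
  calc avg (fun d => Real.exp (t * g d))
      ≤ avg (fun d => Real.cosh (t * b) + g d * (Real.sinh (t * b) / b)) := C3_avg_mono h1
    _ = Real.cosh (t * b) := by
        rw [C3_avg_add, C3_avg_const, C3_avg_mul_right, hg]; ring
    _ ≤ Real.exp ((t * b) ^ 2 / 2) := Real.cosh_le_exp_half_sq _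
    _ = _ := by congr 1; ring

lemma C3_hoeff [Nonempty D] (I : Finset (Fin n)) (g : D → ℝ) (b t : ℝ) (hb : 0 < b)
    (hg : avg g = 0) (hgb : ∀ d, |g d| ≤ b) :
    avg (fun δ : Fin n → D => Real.exp (t * ∑ i ∈ I, g (δ i))) ≤
      Real.exp (t ^ 2 * b ^ 2 * I.card / 2) := by
  classical
  have h := C3_avg_prod (n := n)
    (fun i => if i ∈ I then fun d => Real.exp (t * g d) else fun _ => 1)
  have h1 : (fun δ : Fin n → D => ∏ i, (if i ∈ I then fun d => Real.exp (t * g d) else
      fun _ => (1 : ℝ)) (δ i)) = fun δ => Real.exp (t * ∑ i ∈ I, g (δ i)) := by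
    funext δ
    rw [Finset.mul_sum, Real.exp_sum, ← Finset.prod_subset (Finset.subset_univ I)]
    · exact Finset.prod_congr rfl fun i hi => by simp [hi]
    · intro i _ hi
      simp [hi]
  rw [h1] at h
  rw [h, ← Finset.prod_subset (Finset.subset_univ I)]
  · have h2 : ∀ i ∈ I, avg (if i ∈ I then fun d => Real.exp (t * g d) else fun _ => (1 : ℝ)) ≤
        Real.exp (t ^ 2 * b ^ 2 / 2) := by
      intro i hi
      simp only [hi, if_true]
      exact C3_hoeff1 g b t hb hg hgb
    refine (Finset.prod_le_prod (fun i hi => ?_) h2).trans (le_of_eq ?_)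
    · simp only [hi, if_true]
      exact C3_avg_nonneg fun d => (Real.exp_pos _).le
    · rw [Finset.prod_const, ← Real.exp_nat_mul]
      congr 1
      ring
  · intro i _ hi
    simp only [hi, if_false]
    exact C3_avg_const (1 : ℝ)

lemma C3_pow_le_cosh (x : ℝ) (k : ℕ) : x ^ (2 * k) ≤ (2 * k).factorial * Real.cosh x := by
  have h := Real.hasSum_cosh x
  have h1 : x ^ (2 * k) / ((2 * k).factorial : ℝ) ≤ Real.cosh x := by
    refine le_hasSum h k fun j _ => ?_
    have : 0 ≤ x ^ (2 * j) := by rw [pow_mul]; positivity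
    positivity
  rw [div_le_iff₀ (by positivity)] at h1
  linarith

lemma C3_moment_aux [Nonempty D] (k : ℕ) (I : Finset (Fin n)) (g : D → ℝ) (b s : ℝ) (hb : 0 < b)
    (hg : avg g = 0) (hgb : ∀ d, |g d| ≤ b) (hs : 0 < s) (hsb : b ^ 2 * I.card ≤ s ^ 2) :
    avg (fun δ : Fin n → D => (∑ i ∈ I, g (δ i)) ^ (2 * k)) ≤
      2 * (2 * k).factorial * s ^ (2 * k) := by
  set S : (Fin n → D) → ℝ := fun δ => ∑ i ∈ I, g (δ i) with hS
  have hE : ∀ t : ℝ, t ^ 2 = (s ^ 2)⁻¹ → avg (fun δ => Real.exp (t * S δ)) ≤ 2 := by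
    intro t ht
    refine (C3_hoeff I g b t hb hg hgb).trans ?_
    have h1 : t ^ 2 * b ^ 2 * I.card / 2 ≤ 1 / 2 := by
      have : t ^ 2 * b ^ 2 * I.card ≤ 1 := by
        rw [ht, mul_assoc, inv_mul_le_iff₀ (by positivity)]
        linarith
      linarith
    refine (Real.exp_le_exp.mpr h1).trans ?_
    have h2 : Real.exp (1 / 2) ^ 2 = Real.exp 1 := by
      rw [← Real.exp_nat_mul]; norm_num
    have h3 : Real.exp 1 ≤ 2 ^ 2 := by
      have := Real.exp_one_lt_d9
      linarith
    nlinarith [Real.exp_pos (1 / 2 : ℝ)]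
  have h1 : ∀ δ, S δ ^ (2 * k) ≤ s ^ (2 * k) * ((2 * k).factorial *
      ((Real.exp (s⁻¹ * S δ) + Real.exp (-s⁻¹ * S δ)) / 2)) := by
    intro δ
    have h2 := C3_pow_le_cosh (s⁻¹ * S δ) k
    rw [Real.cosh_eq] at h2
    rw [← neg_mul] at h2
    have h3 : S δ ^ (2 * k) = s ^ (2 * k) * (s⁻¹ * S δ) ^ (2 * k) := by
      rw [← mul_pow]; congr 1; field_simp
    rw [h3]
    exact mul_le_mul_of_nonneg_left h2 (by positivity)
  refine (C3_avg_mono h1).trans ?_
  rw [C3_avg_mul_left, C3_avg_mul_left]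
  have h4 : avg (fun δ => (Real.exp (s⁻¹ * S δ) + Real.exp (-s⁻¹ * S δ)) / 2) ≤ 2 := by
    have e : (fun δ => (Real.exp (s⁻¹ * S δ) + Real.exp (-s⁻¹ * S δ)) / 2) =
        fun δ => (Real.exp (s⁻¹ * S δ) + Real.exp (-s⁻¹ * S δ)) * (1 / 2) := by
      funext δ; ring
    rw [e, C3_avg_mul_right, C3_avg_add]
    have := hE s⁻¹ (by rw [inv_pow])
    have := hE (-s⁻¹) (by rw [neg_sq, inv_pow])
    linarith
  have h5 : (0 : ℝ) ≤ (2 * k).factorial := by positivity
  have h6 : (0 : ℝ) ≤ s ^ (2 * k) := by positivity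
  calc _ ≤ s ^ (2 * k) * ((2 * k).factorial * 2) :=
        mul_le_mul_of_nonneg_left (mul_le_mul_of_nonneg_left h4 h5) h6
    _ = _ := by ring

lemma C3_moment [Nonempty D] (k : ℕ) (I : Finset (Fin n)) (g : D → ℝ) (b : ℝ)
    (hg : avg g = 0) (hgb : ∀ d, |g d| ≤ b) :
    avg (fun δ : Fin n → D => (∑ i ∈ I, g (δ i)) ^ (2 * k)) ≤
      2 * (2 * k).factorial * (b ^ 2 * I.card) ^ k := by
  have hb0 : 0 ≤ b := (abs_nonneg _).trans (hgb (Classical.arbitrary D))
  rcases Nat.eq_zero_or_pos k with hk | hk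
  · subst hk
    simp only [mul_zero, pow_zero, Nat.factorial_zero, Nat.cast_one, mul_one]
    rw [C3_avg_const]; norm_num
  rcases hb0.eq_or_lt with hb | hb
  · have h0 : ∀ d, g d = 0 := fun d => by
      have := hgb d
      rw [← hb] at this
      exact abs_eq_zero.mp (le_antisymm this (abs_nonneg _))
    have h1 : (fun δ : Fin n → D => (∑ i ∈ I, g (δ i)) ^ (2 * k)) = fun _ => 0 := by
      funext δ
      simp only [h0, Finset.sum_const_zero]
      exact zero_pow (by omega)
    rw [h1, C3_avg_const]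
    positivity
  rcases I.eq_empty_or_nonempty with hI | hI
  · subst hI
    have h1 : (fun δ : Fin n → D => (∑ i ∈ (∅ : Finset (Fin n)), g (δ i)) ^ (2 * k)) =
        fun _ => 0 := by
      funext δ
      simp only [Finset.sum_empty]
      exact zero_pow (by omega)
    rw [h1, C3_avg_const]
    positivity
  · have hc : 0 < (I.card : ℝ) := by exact_mod_cast hI.card_pos
    have h2 := C3_moment_aux k I g b (Real.sqrt (b ^ 2 * I.card)) hb hg hgb
      (Real.sqrt_pos.mpr (by positivity)) (le_of_eq (Real.sq_sqrt (by positivity)).symm)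
    rwa [pow_mul, Real.sq_sqrt (by positivity)] at h2

end Indep

/-! ### Vectors -/

lemma C3_len_nonneg (v : ℝ × ℝ) : 0 ≤ len v := Real.sqrt_nonneg _

lemma C3_len_sq (v : ℝ × ℝ) : len v ^ 2 = v.1 ^ 2 + v.2 ^ 2 := Real.sq_sqrt (by positivity)

lemma C3_abs_fst_le (v : ℝ × ℝ) : |v.1| ≤ len v := by
  unfold len
  exact Real.abs_le_sqrt (by nlinarith [sq_nonneg v.2])

lemma C3_abs_snd_le (v : ℝ × ℝ) : |v.2| ≤ len v := by
  unfold len
  exact Real.abs_le_sqrt (by nlinarith [sq_nonneg v.1])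

lemma C3_len_pow_le (v : ℝ × ℝ) (k : ℕ) :
    len v ^ (2 * k) ≤ 2 ^ k * (v.1 ^ (2 * k) + v.2 ^ (2 * k)) := by
  rw [pow_mul, C3_len_sq, pow_mul, pow_mul]
  refine (add_pow_le (by positivity) (by positivity) k).trans ?_
  refine mul_le_mul_of_nonneg_right ?_ (by positivity)
  exact pow_le_pow_right₀ (by norm_num) (by omega)

lemma C3_centred_le {D : Type*} [Fintype D] [Nonempty D] {f : D → ℝ} {b : ℝ}
    (h : ∀ d, |f d| ≤ b) (d : D) : |f d - avg f| ≤ 2 * b := by
  have h1 := h d
  have h2 := C3_avg_abs_le h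
  calc |f d - avg f| ≤ |f d| + |avg f| := abs_sub _ _
    _ ≤ 2 * b := by linarith

lemma C3_avg_centred {D : Type*} [Fintype D] [Nonempty D] (f : D → ℝ) :
    avg (fun d => f d - avg f) = 0 := by
  rw [C3_avg_sub, C3_avg_const, sub_self]

theorem C3 : StmtC3 := by
  intro k
  refine ⟨2 ^ k * (2 * (2 * (2 * k).factorial * 4 ^ k)), by positivity, ?_⟩
  intro m n _ I v B hv
  set N : ℝ := (I.card : ℝ) with hN
  have hf : ∀ d, |(v d).1| ≤ B := fun d => (C3_abs_fst_le _).trans (hv d)
  have hs : ∀ d, |(v d).2| ≤ B := fun d => (C3_abs_snd_le _).trans (hv d)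
  have h1 := C3_moment (n := n) k I (fun d => (v d).1 - avg (fun d => (v d).1)) (2 * B)
    (C3_avg_centred _) (C3_centred_le hf)
  have h2 := C3_moment (n := n) k I (fun d => (v d).2 - avg (fun d => (v d).2)) (2 * B)
    (C3_avg_centred _) (C3_centred_le hs)
  have h3 : ∀ δ : Fin n → Dig m, len (∑ i ∈ I, (v (δ i) - avg v)) ^ (2 * k) ≤
      2 ^ k * ((∑ i ∈ I, ((v (δ i)).1 - avg (fun d => (v d).1))) ^ (2 * k) +
        (∑ i ∈ I, ((v (δ i)).2 - avg (fun d => (v d).2))) ^ (2 * k)) := by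
    intro δ
    refine (C3_len_pow_le _ k).trans (le_of_eq ?_)
    simp only [Prod.fst_sum, Prod.snd_sum, Prod.fst_sub, Prod.snd_sub, C3_avg_fst, C3_avg_snd]
  refine (C3_avg_mono h3).trans ?_
  rw [C3_avg_mul_left, C3_avg_add]
  have h4 : ((2 * B) ^ 2 * N) ^ k = 4 ^ k * (B ^ 2 * N) ^ k := by
    rw [← mul_pow]; congr 1; ring
  rw [h4] at h1 h2
  calc _ ≤ 2 ^ k * (2 * (2 * k).factorial * (4 ^ k * (B ^ 2 * N) ^ k) +
        2 * (2 * k).factorial * (4 ^ k * (B ^ 2 * N) ^ k)) :=
        mul_le_mul_of_nonneg_left (add_le_add h1 h2) (by positivity)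
    _ = _ := by ring

/-- The bilinear form of a symmetric matrix. -/
def C3_bil (M : SymM) (u v : ℝ × ℝ) : ℝ :=
  M.a * (u.1 * v.1) + M.b * (u.1 * v.2 + u.2 * v.1) + M.c * (u.2 * v.2)

lemma C3_qf_add (M : SymM) (u v : ℝ × ℝ) :
    M.qf (u + v) = M.qf u + 2 * C3_bil M u v + M.qf v := by
  unfold SymM.qf C3_bil
  simp only [Prod.fst_add, Prod.snd_add]
  ring

lemma C3_bil_sum {ι : Type*} (M : SymM) (u : ℝ × ℝ) (s : Finset ι) (w : ι → ℝ × ℝ) :
    C3_bil M u (∑ i ∈ s, w i) = ∑ i ∈ s, C3_bil M u (w i) := by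
  classical
  induction s using Finset.induction_on with
  | empty => simp [C3_bil]
  | insert i s hi ih =>
    rw [Finset.sum_insert hi, Finset.sum_insert hi, ← ih]
    unfold C3_bil
    simp only [Prod.fst_add, Prod.snd_add]
    ring

lemma C3_avg_bil {D : Type*} [Fintype D] [Nonempty D] {n : ℕ} (M : SymM) (w : D → ℝ × ℝ)
    (hw : avg w = 0) {i j : Fin n} (hij : i ≠ j) :
    avg (fun δ : Fin n → D => C3_bil M (w (δ i)) (w (δ j))) = 0 := by
  have hw1 : avg (fun d => (w d).1) = 0 := by rw [← C3_avg_fst, hw]; rfl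
  have hw2 : avg (fun d => (w d).2) = 0 := by rw [← C3_avg_snd, hw]; rfl
  unfold C3_bil
  rw [C3_avg_add, C3_avg_add, C3_avg_mul_left, C3_avg_mul_left, C3_avg_mul_left, C3_avg_add,
    C3_avg_coord2 hij (fun d => (w d).1) (fun d => (w d).1),
    C3_avg_coord2 hij (fun d => (w d).1) (fun d => (w d).2),
    C3_avg_coord2 hij (fun d => (w d).2) (fun d => (w d).1),
    C3_avg_coord2 hij (fun d => (w d).2) (fun d => (w d).2), hw1, hw2]
  ring

lemma C3_avg_qf_sum {D : Type*} [Fintype D] [Nonempty D] {n : ℕ} (M : SymM) (w : D → ℝ × ℝ)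
    (hw : avg w = 0) (I : Finset (Fin n)) :
    avg (fun δ : Fin n → D => M.qf (∑ i ∈ I, w (δ i))) = I.card * avg (fun d => M.qf (w d)) := by
  classical
  induction I using Finset.induction_on with
  | empty => simp [SymM.qf, C3_avg_const]
  | insert i I hi ih =>
    have h1 : (fun δ : Fin n → D => M.qf (∑ i ∈ insert i I, w (δ i))) = fun δ =>
        (M.qf (w (δ i)) + 2 * ∑ j ∈ I, C3_bil M (w (δ i)) (w (δ j))) +
          M.qf (∑ i ∈ I, w (δ i)) := by
      funext δ
      rw [Finset.sum_insert hi, C3_qf_add, C3_bil_sum]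
    rw [h1, C3_avg_add, C3_avg_add, C3_avg_mul_left, C3_avg_sum, ih,
      C3_avg_coord i (fun d => M.qf (w d)), Finset.card_insert_of_notMem hi]
    have h2 : ∑ j ∈ I, avg (fun δ : Fin n → D => C3_bil M (w (δ i)) (w (δ j))) = 0 := by
      refine Finset.sum_eq_zero fun j hj => C3_avg_bil M w hw ?_
      rintro rfl
      exact hi hj
    rw [h2]
    push_cast
    ring

theorem C3' : StmtC3' := by
  intro m n _ I v
  have hw : avg (fun d => v d - avg v) = 0 := by
    rw [C3_avg_sub, C3_avg_const, sub_self]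
  refine ⟨?_, ?_⟩
  · rw [C3_avg_sum]
    refine Finset.sum_eq_zero fun i _ => ?_
    refine Prod.ext ?_ ?_
    · rw [C3_avg_fst]
      rw [C3_avg_coord i (fun d => (v d - avg v).1), ← C3_avg_fst, hw]
    · rw [C3_avg_snd]
      rw [C3_avg_coord i (fun d => (v d - avg v).2), ← C3_avg_snd, hw]
  · intro M hM
    rw [C3_avg_qf_sum M (fun d => v d - avg v) hw I]
    refine mul_le_mul_of_nonneg_left ?_ (by positivity)
    have h1 : (fun d => M.qf (v d)) = fun d => (M.qf (v d - avg v) +
        2 * C3_bil M (v d - avg v) (avg v)) + M.qf (avg v) := by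
      funext d
      rw [← C3_qf_add, sub_add_cancel]
    have h2 : avg (fun d => C3_bil M (v d - avg v) (avg v)) = 0 := by
      have hw1 : avg (fun d => (v d - avg v).1) = 0 := by rw [← C3_avg_fst, hw]; rfl
      have hw2 : avg (fun d => (v d - avg v).2) = 0 := by rw [← C3_avg_snd, hw]; rfl
      unfold C3_bil
      rw [C3_avg_add, C3_avg_add, C3_avg_mul_left, C3_avg_mul_left, C3_avg_mul_left, C3_avg_add,
        C3_avg_mul_right, C3_avg_mul_right, C3_avg_mul_right, C3_avg_mul_right, hw1, hw2]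
      ring
    rw [h1, C3_avg_add, C3_avg_add, C3_avg_mul_left, h2, C3_avg_const]
    have := hM (avg v)
    linarith

/-! ### Centred counts -/

lemma C3_xi_eq {m n : ℕ} (I : Finset (Fin n)) (δ : Fin n → Dig m) (d : Dig m) :
    xi I δ d = ∑ i ∈ I, ((if δ i = d then (1 : ℝ) else 0) - ((m : ℝ) ^ 2)⁻¹) := by
  unfold xi
  rw [Finset.sum_sub_distrib, Finset.sum_const, nsmul_eq_mul, Finset.sum_ite,
    Finset.sum_const_zero, Finset.sum_const, nsmul_eq_mul, mul_one, add_zero, div_eq_mul_inv]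

lemma C3_card_dig (m : ℕ) : (Fintype.card (Dig m) : ℝ) = (m : ℝ) ^ 2 := by
  simp [Dig, Fintype.card_prod, sq]

lemma C3_avg_ind {m : ℕ} (d : Dig m) :
    avg (fun e : Dig m => if e = d then (1 : ℝ) else 0) = ((m : ℝ) ^ 2)⁻¹ := by
  rw [C3_avg_real, C3_card_dig]
  simp

theorem C10 : StmtC10 := by
  intro m _
  obtain ⟨c, hc, h3⟩ := C3 2
  refine ⟨c * ((m : ℝ) ^ 2) ^ 4 + 1, by positivity, ?_⟩
  intro n I
  set μ : ℝ := ((m : ℝ) ^ 2)⁻¹ with hμ
  have hm : (m : ℝ) ≠ 0 := by exact_mod_cast NeZero.ne m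
  have hcen : ∀ d : Dig m, avg (fun e : Dig m => (if e = d then (1 : ℝ) else 0) - μ) = 0 := by
    intro d
    rw [C3_avg_sub, C3_avg_const, C3_avg_ind, sub_self]
  refine ⟨?_, ?_, ?_⟩
  · intro d
    simp only [C3_xi_eq]
    rw [C3_avg_sum]
    refine Finset.sum_eq_zero fun i _ => ?_
    rw [C3_avg_coord i (fun e : Dig m => (if e = d then (1 : ℝ) else 0) - μ), hcen]
  · intro d d'
    classical
    simp only [C3_xi_eq]
    have hdiag : avg (fun e : Dig m => ((if e = d then (1 : ℝ) else 0) - μ) *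
        ((if e = d' then (1 : ℝ) else 0) - μ)) =
        ((if d = d' then ((m : ℝ) ^ 2)⁻¹ else 0) - ((m : ℝ) ^ 4)⁻¹) := by
      have e1 : (fun e : Dig m => ((if e = d then (1 : ℝ) else 0) - μ) *
        ((if e = d' then (1 : ℝ) else 0) - μ)) = fun e =>
          ((if e = d then (if d = d' then (1 : ℝ) else 0) else 0) - μ * (if e = d' then (1 : ℝ) else 0)) -
            μ * ((if e = d then (1 : ℝ) else 0) - μ) := by
        funext e
        by_cases h1 : e = d
        · subst h1
          by_cases h2 : e = d'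
          · subst h2; simp; ring
          · simp [h2]; ring
        · by_cases h2 : e = d'
          · subst h2; simp [h1]; ring
          · simp [h1, h2]
      rw [e1, C3_avg_sub, C3_avg_mul_left, hcen, C3_avg_sub, C3_avg_mul_left, C3_avg_ind]
      have e2 : (fun e : Dig m => if e = d then (if d = d' then (1 : ℝ) else 0) else 0) =
          fun e => (if e = d then (1 : ℝ) else 0) * (if d = d' then (1 : ℝ) else 0) := by
        funext e
        by_cases h1 : e = d <;> simp [h1]
      rw [e2, C3_avg_mul_right, C3_avg_ind]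
      have e3 : μ * ((m : ℝ) ^ 2)⁻¹ = ((m : ℝ) ^ 4)⁻¹ := by
        rw [hμ, ← mul_inv]; congr 1; ring
      rw [e3]
      by_cases h2 : d = d' <;> simp [h2]
    have hprod : (fun δ : Fin n → Dig m => (∑ i ∈ I, ((if δ i = d then (1 : ℝ) else 0) - μ)) *
        (∑ i ∈ I, ((if δ i = d' then (1 : ℝ) else 0) - μ))) = fun δ =>
        ∑ i ∈ I, ∑ j ∈ I, ((if δ i = d then (1 : ℝ) else 0) - μ) *
          ((if δ j = d' then (1 : ℝ) else 0) - μ) := by
      funext δ
      rw [Finset.sum_mul_sum]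
    rw [hprod, C3_avg_sum]
    have hin : ∀ i ∈ I, avg (fun δ : Fin n → Dig m => ∑ j ∈ I,
        ((if δ i = d then (1 : ℝ) else 0) - μ) * ((if δ j = d' then (1 : ℝ) else 0) - μ)) =
        ((if d = d' then ((m : ℝ) ^ 2)⁻¹ else 0) - ((m : ℝ) ^ 4)⁻¹) := by
      intro i hi
      rw [C3_avg_sum, Finset.sum_eq_single i]
      · rw [C3_avg_coord i (fun e : Dig m => ((if e = d then (1 : ℝ) else 0) - μ) *
          ((if e = d' then (1 : ℝ) else 0) - μ)), hdiag]
      · intro j _ hj
        rw [C3_avg_coord2 (Ne.symm hj) (fun e : Dig m => (if e = d then (1 : ℝ) else 0) - μ)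
          (fun e : Dig m => (if e = d' then (1 : ℝ) else 0) - μ), hcen, zero_mul]
      · intro h
        exact absurd hi h
    rw [Finset.sum_congr rfl hin, Finset.sum_const, nsmul_eq_mul]
  · have h4 : ∀ d : Dig m, avg (fun δ : Fin n → Dig m => |xi I δ d| ^ 4) ≤
        c * (I.card : ℝ) ^ 2 := by
      intro d
      have h5 := h3 m n I (fun e => ((if e = d then (1 : ℝ) else 0), 0)) 1 (by
        intro e
        unfold len
        by_cases h : e = d <;> simp [h])
      have h6 : (fun δ : Fin n → Dig m => len (∑ i ∈ I,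
          ((fun e : Dig m => ((if e = d then (1 : ℝ) else 0), (0 : ℝ))) (δ i) -
            avg (fun e : Dig m => ((if e = d then (1 : ℝ) else 0), (0 : ℝ))))) ^ (2 * 2)) =
          fun δ => |xi I δ d| ^ 4 := by
        funext δ
        have e1 : avg (fun e : Dig m => ((if e = d then (1 : ℝ) else 0), (0 : ℝ))) = (μ, 0) := by
          refine Prod.ext ?_ ?_
          · rw [C3_avg_fst]; exact C3_avg_ind d
          · rw [C3_avg_snd]; exact C3_avg_const 0
        rw [e1]
        have e2 : (∑ i ∈ I, ((fun e : Dig m => ((if e = d then (1 : ℝ) else 0), (0 : ℝ))) (δ i) -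
            (μ, 0))) = (xi I δ d, 0) := by
          refine Prod.ext ?_ ?_
          · rw [Prod.fst_sum, C3_xi_eq]; rfl
          · rw [Prod.snd_sum]; simp
        rw [e2]
        unfold len
        simp only [ne_eq, OfNat.ofNat_ne_zero, not_false_eq_true, zero_pow, add_zero,
          Real.sqrt_sq_eq_abs]
      rw [h6] at h5
      refine h5.trans (le_of_eq ?_)
      ring
    have h7 : ∀ δ : Fin n → Dig m, (∑ d, |xi I δ d|) ^ 4 ≤
        ((m : ℝ) ^ 2) ^ 3 * ∑ d, |xi I δ d| ^ 4 := by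
      intro δ
      have h8 := pow_sum_div_card_le_sum_pow (s := (Finset.univ : Finset (Dig m)))
        (f := fun d => |xi I δ d|) (fun d _ => abs_nonneg _) 3
      rw [Finset.card_univ, C3_card_dig, div_le_iff₀ (by positivity)] at h8
      norm_num at h8
      linarith
    refine (C3_avg_mono h7).trans ?_
    rw [C3_avg_mul_left, C3_avg_sum]
    have h9 : ∑ d : Dig m, avg (fun δ : Fin n → Dig m => |xi I δ d| ^ 4) ≤
        (m : ℝ) ^ 2 * (c * (I.card : ℝ) ^ 2) := by
      refine (Finset.sum_le_sum fun d _ => h4 d).trans (le_of_eq ?_)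
      rw [Finset.sum_const, Finset.card_univ, nsmul_eq_mul, C3_card_dig]
    calc _ ≤ ((m : ℝ) ^ 2) ^ 3 * ((m : ℝ) ^ 2 * (c * (I.card : ℝ) ^ 2)) :=
          mul_le_mul_of_nonneg_left h9 (by positivity)
      _ = (c * ((m : ℝ) ^ 2) ^ 4) * (I.card : ℝ) ^ 2 := by ring
      _ ≤ _ := mul_le_mul_of_nonneg_right (by linarith) (by positivity)

end Match2D
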