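import Pool.Agent.Work.MP_884187_pr.Stmts

/-!
MP_884187_pr, items C6, C7, C8: oscillation and second moment of the processes; measurability,
boundedness and adaptedness.
-/

open MeasureTheory Set Filter Topology

namespace Match2D

/-! ### Length -/

theorem C6_len_eq (v : ℝ × ℝ) : len v = ‖Complex.equivRealProdCLM.symm v‖ := by
  rw [Complex.norm_eq_sqrt_sq_add_sq]
  simp [len]

theorem C6_len_nonneg (v : ℝ × ℝ) : 0 ≤ len v := Real.sqrt_nonneg _

theorem C6_len_sq (v : ℝ × ℝ) : len v ^ 2 = v.1 ^ 2 + v.2 ^ 2 := by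
  unfold len
  rw [Real.sq_sqrt (by positivity)]

theorem C6_len_add (v w : ℝ × ℝ) : len (v + w) ≤ len v + len w := by
  rw [C6_len_eq, C6_len_eq, C6_len_eq, map_add]
  exact norm_add_le _ _

theorem C6_len_sub (v w : ℝ × ℝ) : len (v - w) ≤ len v + len w := by
  rw [C6_len_eq, C6_len_eq, C6_len_eq, map_sub]
  exact norm_sub_le _ _

theorem C6_len_smul (c : ℝ) (v : ℝ × ℝ) : len (c • v) = |c| * len v := by
  rw [C6_len_eq, C6_len_eq, map_smul, norm_smul, Real.norm_eq_abs]

theorem C6_len_sum {ι : Type*} (s : Finset ι) (f : ι → ℝ × ℝ) :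
    len (∑ i ∈ s, f i) ≤ ∑ i ∈ s, len (f i) := by
  rw [C6_len_eq, map_sum]
  refine (norm_sum_le _ _).trans (Finset.sum_le_sum (fun i _ => ?_))
  rw [C6_len_eq]

theorem C6_len_measurable : Measurable len := by
  unfold len
  fun_prop

/-! ### Averages -/

section avg

variable {α : Type*} [Fintype α]

theorem C6_avg_add {E : Type*} [AddCommGroup E] [Module ℝ E] (f g : α → E) :
    avg (fun a => f a + g a) = avg f + avg g := by
  unfold avg
  rw [Finset.sum_add_distrib, smul_add]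

theorem C6_avg_smul {E : Type*} [AddCommGroup E] [Module ℝ E] (c : ℝ) (f : α → E) :
    avg (fun a => c • f a) = c • avg f := by
  unfold avg
  rw [← Finset.smul_sum, smul_comm]

theorem C6_avg_mul (c : ℝ) (f : α → ℝ) : avg (fun a => c * f a) = c * avg f := by
  have := C6_avg_smul c f
  simpa only [smul_eq_mul] using this

theorem C6_avg_const {E : Type*} [AddCommGroup E] [Module ℝ E] [Nonempty α] (c : E) :
    avg (fun _ : α => c) = c := by
  unfold avg
  rw [Finset.sum_const, Finset.card_univ, ← Nat.cast_smul_eq_nsmul ℝ, smul_smul,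
    inv_mul_cancel₀ (by exact_mod_cast Fintype.card_ne_zero), one_smul]

theorem C6_avg_sub {E : Type*} [AddCommGroup E] [Module ℝ E] (f g : α → E) :
    avg (fun a => f a - g a) = avg f - avg g := by
  unfold avg
  rw [Finset.sum_sub_distrib, smul_sub]

theorem C6_avg_mono {f g : α → ℝ} (h : ∀ a, f a ≤ g a) : avg f ≤ avg g := by
  unfold avg
  rw [smul_eq_mul, smul_eq_mul]
  exact mul_le_mul_of_nonneg_left (Finset.sum_le_sum (fun a _ => h a)) (by positivity)

theorem C6_avg_nonneg {f : α → ℝ} (h : ∀ a, 0 ≤ f a) : 0 ≤ avg f := by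
  unfold avg
  rw [smul_eq_mul]
  exact mul_nonneg (by positivity) (Finset.sum_nonneg (fun a _ => h a))

theorem C6_avg_fst (f : α → ℝ × ℝ) : (avg f).1 = avg (fun a => (f a).1) := by
  unfold avg
  rw [Prod.smul_fst, Prod.fst_sum]

theorem C6_avg_snd (f : α → ℝ × ℝ) : (avg f).2 = avg (fun a => (f a).2) := by
  unfold avg
  rw [Prod.smul_snd, Prod.snd_sum]

theorem C6_len_avg [Nonempty α] (f : α → ℝ × ℝ) (B : ℝ) (h : ∀ a, len (f a) ≤ B) :
    len (avg f) ≤ B := by
  have h1 : len (avg f) ≤ avg (fun a => len (f a)) := by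
    unfold avg
    rw [C6_len_smul, abs_of_nonneg (by positivity), smul_eq_mul]
    exact mul_le_mul_of_nonneg_left (C6_len_sum _ _) (by positivity)
  refine h1.trans ((C6_avg_mono h).trans ?_)
  rw [C6_avg_const]

end avg

theorem C6_EJ_mono {m n : ℕ} [NeZero m] (J : ℕ) {F G : Seqs m n → ℝ} (h : ∀ ω, F ω ≤ G ω) :
    EJ J F ≤ EJ J G := C6_avg_mono (fun _ => h _)

theorem C6_EJ_add {m n : ℕ} [NeZero m] (J : ℕ) (F G : Seqs m n → ℝ) :
    EJ J (fun ω => F ω + G ω) = EJ J F + EJ J G := C6_avg_add _ _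

theorem C6_EJ_mul {m n : ℕ} [NeZero m] (J : ℕ) (c : ℝ) (F : Seqs m n → ℝ) :
    EJ J (fun ω => c * F ω) = c * EJ J F := C6_avg_mul _ _

/-! ### Adaptedness -/

theorem C6_cidx_congr {m n : ℕ} (j : ℕ) (ω ω' : Seqs m n) (h : ∀ l, l < j → ω l = ω' l) :
    cidx ω j = cidx ω' j := by
  induction j with
  | zero => rfl
  | succ j ih =>
    funext i
    have e := ih (fun l hl => h l (by omega))
    simp only [cidx, e, h j (by omega)]

theorem C6_inCell_congr {m n : ℕ} (j : ℕ) (ω ω' : Seqs m n) (h : ∀ l, l < j → ω l = ω' l)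
    (q : ℕ × ℕ) : inCell ω j q = inCell ω' j q := by
  unfold inCell
  rw [C6_cidx_congr j ω ω' h]

theorem C6_proc_congr {m n : ℕ} {Θ : Type} (β : Θ → Dig m → ℝ × ℝ → ℝ × ℝ)
    (ctl : ℕ → Seqs m n → ℕ × ℕ → Θ) (hctl : Adapted ctl) (j : ℕ) :
    ∀ ω ω' : Seqs m n, (∀ l, l < j → ω l = ω' l) → proc β ctl j ω = proc β ctl j ω' := by
  induction j with
  | zero => intro ω ω' _; rfl
  | succ j ih =>
    intro ω ω' h
    have h' : ∀ l, l < j → ω l = ω' l := fun l hl => h l (by omega)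
    funext x
    simp only [proc, ih ω ω' h', C6_inCell_congr j ω ω' h', hctl j ω ω' h', h j (by omega)]

theorem C6_Sm_congr {m n : ℕ} {Θ : Type} (β : Θ → Dig m → ℝ × ℝ → ℝ × ℝ)
    (ch : ℕ → ℝ × ℝ → Θ) (j : ℕ) :
    ∀ ω ω' : Seqs m n, (∀ l, l < j → ω l = ω' l) → Sm β ch j ω = Sm β ch j ω' := by
  induction j with
  | zero => intro ω ω' _; rfl
  | succ j ih =>
    intro ω ω' h
    have h' : ∀ l, l < j → ω l = ω' l := fun l hl => h l (by omega)
    funext x
    simp only [Sm, ih ω ω' h', C6_inCell_congr j ω ω' h', h j (by omega)]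

theorem C6_Sm_eq {m n : ℕ} {Θ : Type} (β : Θ → Dig m → ℝ × ℝ → ℝ × ℝ)
    (ch : ℕ → ℝ × ℝ → Θ) (j : ℕ) (ω : Seqs m n) : Sm β ch j ω = proc β (clCtl β ch) j ω := by
  induction j with
  | zero => rfl
  | succ j ih =>
    funext x
    simp only [Sm, proc, ih, clCtl]

/-! ### Local coordinates -/

theorem C6_loc_mem (m j : ℕ) (x : ℝ × ℝ) (hx : x ∈ Sq) : loc m j x ∈ Sq := by
  obtain ⟨⟨h1, _⟩, h3, _⟩ := hx
  have a1 : 0 ≤ (m : ℝ) ^ j * x.1 := by positivity
  have a2 : 0 ≤ (m : ℝ) ^ j * x.2 := by positivity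
  refine ⟨⟨?_, ?_⟩, ?_, ?_⟩
  · show 0 ≤ (m : ℝ) ^ j * x.1 - ⌊(m : ℝ) ^ j * x.1⌋₊
    linarith [Nat.floor_le a1]
  · show (m : ℝ) ^ j * x.1 - ⌊(m : ℝ) ^ j * x.1⌋₊ ≤ 1
    linarith [Nat.lt_floor_add_one ((m : ℝ) ^ j * x.1)]
  · show 0 ≤ (m : ℝ) ^ j * x.2 - ⌊(m : ℝ) ^ j * x.2⌋₊
    linarith [Nat.floor_le a2]
  · show (m : ℝ) ^ j * x.2 - ⌊(m : ℝ) ^ j * x.2⌋₊ ≤ 1
    linarith [Nat.lt_floor_add_one ((m : ℝ) ^ j * x.2)]

theorem C6_qidx_measurable (m j : ℕ) : Measurable (qidx m j) := by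
  unfold qidx
  exact (Nat.measurable_floor.comp (by fun_prop)).prodMk (Nat.measurable_floor.comp (by fun_prop))

theorem C6_cast_measurable : Measurable (fun k : ℕ => (k : ℝ)) := measurable_of_countable _

theorem C6_loc_measurable (m j : ℕ) : Measurable (loc m j) := by
  unfold loc
  refine Measurable.prodMk ?_ ?_
  · exact (measurable_const.mul measurable_fst).sub
      (C6_cast_measurable.comp (Nat.measurable_floor.comp (by fun_prop)))
  · exact (measurable_const.mul measurable_snd).sub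
      (C6_cast_measurable.comp (Nat.measurable_floor.comp (by fun_prop)))

/-- A function of the cell and the local coordinate is measurable. -/
theorem C6_cell_measurable {E : Type*} [MeasurableSpace E] (m j : ℕ) (G : ℕ × ℕ → ℝ × ℝ → E)
    (hG : ∀ q, Measurable (G q)) : Measurable (fun x => G (qidx m j x) (loc m j x)) := by
  have h : Measurable (fun p : (ℕ × ℕ) × (ℝ × ℝ) => G p.1 p.2) :=
    measurable_from_prod_countable_right (fun q => hG q)
  exact h.comp ((C6_qidx_measurable m j).prodMk (C6_loc_measurable m j))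

theorem C6_avg_measurable {α : Type*} [Fintype α] (f : α → ℝ × ℝ → ℝ × ℝ)
    (hf : ∀ a, Measurable (f a)) : Measurable (fun y => avg (fun a => f a y)) := by
  unfold avg
  have h : Measurable (fun y => ∑ a, f a y) := Finset.measurable_sum _ (fun a _ => hf a)
  exact h.const_smul ((Fintype.card α : ℝ)⁻¹)

/-! ### C8 -/

theorem C6_proc_measurable {m n : ℕ} {Θ : Type} (β : Θ → Dig m → ℝ × ℝ → ℝ × ℝ)
    (ctl : ℕ → Seqs m n → ℕ × ℕ → Θ) (hβ : ∀ θ d, Measurable (β θ d)) (j : ℕ) (ω : Seqs m n) :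
    Measurable (proc β ctl j ω) := by
  induction j with
  | zero => exact measurable_const
  | succ j ih =>
    have h := C6_cell_measurable m j (fun (q : ℕ × ℕ) (y : ℝ × ℝ) => ∑ i ∈ inCell ω j q,
          (β (ctl j ω q) (ω j i) y - avg (fun d => β (ctl j ω q) d y))) (fun q =>
      Finset.measurable_sum _ (fun i _ => (hβ _ _).sub
        (C6_avg_measurable _ (fun d => hβ _ d))))
    have h2 := h.const_smul (stp m n j)
    exact ih.add h2

theorem C6_inCell_card_le {m n : ℕ} (ω : Seqs m n) (j : ℕ) (q : ℕ × ℕ) :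
    (inCell ω j q).card ≤ n := by
  have := Finset.card_le_univ (inCell ω j q)
  rwa [Fintype.card_fin] at this

theorem C6_proc_bdd {m n : ℕ} [NeZero m] {Θ : Type} (β : Θ → Dig m → ℝ × ℝ → ℝ × ℝ)
    (ctl : ℕ → Seqs m n → ℕ × ℕ → Θ) (B₀ : ℝ) (hβ : ∀ θ d, ∀ y ∈ Sq, len (β θ d y) ≤ B₀) (j : ℕ) :
    ∃ C, ∀ ω, ∀ x ∈ Sq, len (proc β ctl j ω x) ≤ C := by
  induction j with
  | zero =>
    refine ⟨0, fun ω x _ => ?_⟩
    show len (0 : ℝ × ℝ) ≤ 0
    simp [len]
  | succ j ih =>
    obtain ⟨C, hC⟩ := ih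
    refine ⟨C + |stp m n j| * (n * (|B₀| + |B₀|)), fun ω x hx => ?_⟩
    have hl := C6_loc_mem m j x hx
    have h1 : len (∑ i ∈ inCell ω j (qidx m j x),
        (β (ctl j ω (qidx m j x)) (ω j i) (loc m j x) -
          avg (fun d => β (ctl j ω (qidx m j x)) d (loc m j x)))) ≤ n * (|B₀| + |B₀|) := by
      refine (C6_len_sum _ _).trans ?_
      have h2 : ∀ i ∈ inCell ω j (qidx m j x),
          len (β (ctl j ω (qidx m j x)) (ω j i) (loc m j x) -
          avg (fun d => β (ctl j ω (qidx m j x)) d (loc m j x))) ≤ |B₀| + |B₀| := by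
        intro i _
        refine (C6_len_sub _ _).trans (add_le_add ((hβ _ _ _ hl).trans (le_abs_self _)) ?_)
        exact C6_len_avg _ _ (fun d => (hβ _ _ _ hl).trans (le_abs_self _))
      refine (Finset.sum_le_sum h2).trans ?_
      rw [Finset.sum_const, nsmul_eq_mul]
      exact mul_le_mul_of_nonneg_right (by exact_mod_cast C6_inCell_card_le ω j _) (by positivity)
    show len (proc β ctl j ω x + _) ≤ _
    refine (C6_len_add _ _).trans (add_le_add (hC ω x hx) ?_)
    rw [C6_len_smul]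
    exact mul_le_mul_of_nonneg_left h1 (abs_nonneg _)

theorem C8 : StmtC8 := by
  intro m n _ Θ β
  refine ⟨fun ctl j ω hβ => C6_proc_measurable β ctl hβ j ω,
    fun ctl j B₀ hβ => C6_proc_bdd β ctl B₀ hβ j,
    fun ctl hctl j ω ω' h => C6_proc_congr β ctl hctl j ω ω' h, fun ch => ⟨?_, ?_⟩⟩
  · intro j ω ω' h q
    unfold clCtl
    rw [C6_Sm_congr β ch j ω ω' h]
  · intro j ω
    exact C6_Sm_eq β ch j ω

/-! ### One step -/

/-- Second moment of one step. -/
theorem C6_step (h3 : StmtC3') {m n : ℕ} [NeZero m] (I : Finset (Fin n)) (v : Dig m → ℝ × ℝ)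
    (a : ℝ × ℝ) (s : ℝ) :
    avg (fun δ : Fin n → Dig m => len (a + s • ∑ i ∈ I, (v (δ i) - avg v)) ^ 2) ≤
      len a ^ 2 + s ^ 2 * (I.card * avg (fun d => len (v d) ^ 2)) := by
  obtain ⟨h4, h5⟩ := h3 m n I v
  have hM : ∀ u : ℝ × ℝ, (⟨1, 0, 1⟩ : SymM).qf u = len u ^ 2 := by
    intro u
    rw [C6_len_sq]
    simp only [SymM.qf]
    ring
  have h6 := h5 ⟨1, 0, 1⟩ (fun u => by rw [hM]; positivity)
  simp only [hM] at h6
  have e : (fun δ : Fin n → Dig m => len (a + s • ∑ i ∈ I, (v (δ i) - avg v)) ^ 2) =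
      fun δ => len a ^ 2 + ((2 * s * a.1) * (∑ i ∈ I, (v (δ i) - avg v)).1 +
        ((2 * s * a.2) * (∑ i ∈ I, (v (δ i) - avg v)).2 +
          s ^ 2 * len (∑ i ∈ I, (v (δ i) - avg v)) ^ 2)) := by
    funext δ
    rw [C6_len_sq, C6_len_sq, C6_len_sq]
    simp only [Prod.fst_add, Prod.snd_add, Prod.smul_fst, Prod.smul_snd, smul_eq_mul]
    ring
  rw [e, C6_avg_add, C6_avg_const, C6_avg_add, C6_avg_mul, C6_avg_add, C6_avg_mul, C6_avg_mul,
    ← C6_avg_fst, ← C6_avg_snd, h4]
  simp only [Prod.fst_zero, Prod.snd_zero, mul_zero, zero_add]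
  nlinarith [sq_nonneg s]

theorem C6_update_lt {m n : ℕ} (ω : Seqs m n) (j : ℕ) (δ : Fin n → Dig m) (l : ℕ) (h : l < j) :
    Function.update ω j δ l = ω l := Function.update_of_ne (ne_of_lt h) _ _

theorem C6_stp_sq (m n j : ℕ) (hn : 2 ≤ n) :
    stp m n j ^ 2 = (m : ℝ) ^ (2 * j) / (n * Real.log n) := by
  have hl : 0 < Real.log n := Real.log_pos (by exact_mod_cast hn)
  unfold stp
  rw [div_pow, Real.sq_sqrt (by positivity), ← pow_mul, mul_comm j 2]

theorem C6_len_le (v : ℝ × ℝ) : len v ≤ |v.1| + |v.2| := by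
  unfold len
  rw [Real.sqrt_le_iff]
  refine ⟨by positivity, ?_⟩
  nlinarith [abs_nonneg v.1, abs_nonneg v.2, sq_abs v.1, sq_abs v.2]

/-! ### C6 -/

theorem C6_floor_corner (m i j : ℕ) (hm : 0 < m) (hij : i ≤ j) (a : ℝ) :
    ⌊(m : ℝ) ^ i * (((⌊(m : ℝ) ^ j * a⌋₊ : ℝ) + 0) / (m : ℝ) ^ j)⌋₊ = ⌊(m : ℝ) ^ i * a⌋₊ := by
  have hm' : (0 : ℝ) < m := by exact_mod_cast hm
  obtain ⟨k, rfl⟩ := Nat.exists_eq_add_of_le hij
  have e1 : (m : ℝ) ^ i * (((⌊(m : ℝ) ^ (i + k) * a⌋₊ : ℝ) + 0) / (m : ℝ) ^ (i + k)) =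
      (⌊(m : ℝ) ^ (i + k) * a⌋₊ : ℝ) / ((m ^ k : ℕ) : ℝ) := by
    push_cast
    rw [pow_add]
    field_simp
    ring
  have e2 : (m : ℝ) ^ i * a = ((m : ℝ) ^ (i + k) * a) / ((m ^ k : ℕ) : ℝ) := by
    push_cast
    rw [pow_add]
    field_simp
  rw [e1, e2, Nat.floor_div_eq_div, Nat.floor_div_natCast]

theorem C6_corner_le (m j : ℕ) (hm : 0 < m) (a : ℝ) (ha : 0 ≤ a) :
    0 ≤ ((⌊(m : ℝ) ^ j * a⌋₊ : ℝ) + 0) / (m : ℝ) ^ j ∧
    0 ≤ a - ((⌊(m : ℝ) ^ j * a⌋₊ : ℝ) + 0) / (m : ℝ) ^ j ∧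
    a - ((⌊(m : ℝ) ^ j * a⌋₊ : ℝ) + 0) / (m : ℝ) ^ j ≤ 1 / (m : ℝ) ^ j := by
  have hm' : (0 : ℝ) < m := by exact_mod_cast hm
  have hp : (0 : ℝ) < (m : ℝ) ^ j := by positivity
  have a1 : 0 ≤ (m : ℝ) ^ j * a := by positivity
  have f1 := Nat.floor_le a1
  have f2 := Nat.lt_floor_add_one ((m : ℝ) ^ j * a)
  refine ⟨by positivity, ?_, ?_⟩
  · rw [sub_nonneg, div_le_iff₀ hp]
    linarith
  · rw [sub_le_iff_le_add, ← add_div, le_div_iff₀ hp]
    linarith

theorem C6_corner_qidx (m i j : ℕ) (hm : 0 < m) (hij : i ≤ j) (x : ℝ × ℝ) :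
    qidx m i (corner m j (qidx m j x)) = qidx m i x := by
  exact Prod.ext (C6_floor_corner m i j hm hij x.1) (C6_floor_corner m i j hm hij x.2)

theorem C6_corner_mem (m j : ℕ) (hm : 0 < m) (x : ℝ × ℝ) (hx : x ∈ Sq0) :
    corner m j (qidx m j x) ∈ Sq := by
  obtain ⟨⟨h1, h2⟩, h3, h4⟩ := hx
  obtain ⟨a1, a2, _⟩ := C6_corner_le m j hm x.1 h1
  obtain ⟨b1, b2, _⟩ := C6_corner_le m j hm x.2 h3
  exact ⟨⟨a1, by show ((⌊(m : ℝ) ^ j * x.1⌋₊ : ℝ) + 0) / (m : ℝ) ^ j ≤ 1; linarith⟩,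
    ⟨b1, by show ((⌊(m : ℝ) ^ j * x.2⌋₊ : ℝ) + 0) / (m : ℝ) ^ j ≤ 1; linarith⟩⟩

theorem C6_loc_corner (m i j : ℕ) (hm : 0 < m) (hij : i ≤ j) (x : ℝ × ℝ) (hx : x ∈ Sq0) :
    len (loc m i x - loc m i (corner m j (qidx m j x))) ≤ 2 * ((m : ℝ) ^ i / (m : ℝ) ^ j) := by
  have hm' : (0 : ℝ) < m := by exact_mod_cast hm
  have hq := C6_corner_qidx m i j hm hij x
  obtain ⟨⟨h1, h2⟩, h3, h4⟩ := hx
  obtain ⟨a1, a2, a3⟩ := C6_corner_le m j hm x.1 h1
  obtain ⟨b1, b2, b3⟩ := C6_corner_le m j hm x.2 h3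
  have hq1 : ⌊(m : ℝ) ^ i * (corner m j (qidx m j x)).1⌋₊ = ⌊(m : ℝ) ^ i * x.1⌋₊ :=
    congrArg Prod.fst hq
  have hq2 : ⌊(m : ℝ) ^ i * (corner m j (qidx m j x)).2⌋₊ = ⌊(m : ℝ) ^ i * x.2⌋₊ :=
    congrArg Prod.snd hq
  have e1 : (loc m i x - loc m i (corner m j (qidx m j x))).1 =
      (m : ℝ) ^ i * (x.1 - (corner m j (qidx m j x)).1) := by
    simp only [loc, Prod.fst_sub, hq1]
    ring
  have e2 : (loc m i x - loc m i (corner m j (qidx m j x))).2 =
      (m : ℝ) ^ i * (x.2 - (corner m j (qidx m j x)).2) := by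
    simp only [loc, Prod.snd_sub, hq2]
    ring
  have hp : (0 : ℝ) < (m : ℝ) ^ i := by positivity
  have c1 : |(loc m i x - loc m i (corner m j (qidx m j x))).1| ≤ (m : ℝ) ^ i / (m : ℝ) ^ j := by
    rw [e1, abs_mul, abs_of_pos hp, div_eq_mul_one_div]
    refine mul_le_mul_of_nonneg_left ?_ hp.le
    rw [abs_of_nonneg (show 0 ≤ x.1 - (corner m j (qidx m j x)).1 from a2)]
    exact a3
  have c2 : |(loc m i x - loc m i (corner m j (qidx m j x))).2| ≤ (m : ℝ) ^ i / (m : ℝ) ^ j := by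
    rw [e2, abs_mul, abs_of_pos hp, div_eq_mul_one_div]
    refine mul_le_mul_of_nonneg_left ?_ hp.le
    rw [abs_of_nonneg (show 0 ≤ x.2 - (corner m j (qidx m j x)).2 from b2)]
    exact b3
  calc _ ≤ _ := C6_len_le _
    _ ≤ (m : ℝ) ^ i / (m : ℝ) ^ j + (m : ℝ) ^ i / (m : ℝ) ^ j := add_le_add c1 c2
    _ = _ := by ring

theorem C6_qidx_lt (m j : ℕ) (hm : 0 < m) (x : ℝ × ℝ) (hx : x ∈ Sq0) :
    (qidx m j x).1 < m ^ j ∧ (qidx m j x).2 < m ^ j := by
  have hm' : (0 : ℝ) < m := by exact_mod_cast hm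
  have hp : (0 : ℝ) < (m : ℝ) ^ j := by positivity
  obtain ⟨⟨h1, h2⟩, h3, h4⟩ := hx
  constructor
  · show ⌊(m : ℝ) ^ j * x.1⌋₊ < m ^ j
    rw [Nat.floor_lt (by positivity)]
    push_cast
    nlinarith
  · show ⌊(m : ℝ) ^ j * x.2⌋₊ < m ^ j
    rw [Nat.floor_lt (by positivity)]
    push_cast
    nlinarith

theorem C6_Sq0_sub : Sq0 ⊆ Sq := prod_mono Ico_subset_Icc_self Ico_subset_Icc_self

theorem C6 (h1 : StmtC1) (h2 : StmtC2) (h3 : StmtC3') : StmtC6 := by
  intro m _ C₀ hm hC₀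
  refine ⟨4 * C₀ ^ 2 + 1, by positivity, ?_⟩
  intro n hn J hJ Θ β ctl hctl hβ j hj x hx
  have hm0 : 0 < m := by omega
  have hm' : (0 : ℝ) < m := by exact_mod_cast hm0
  have hm2 : (2 : ℝ) ≤ m := by exact_mod_cast hm
  have hn0 : (0 : ℝ) < n := by
    have : 0 < n := by omega
    exact_mod_cast this
  have hl : 0 < Real.log n := Real.log_pos (by exact_mod_cast hn)
  have hxS := C6_Sq0_sub hx
  have hcS := C6_corner_mem m j hm0 x hx
  have key : ∀ i, i ≤ j → EJ J (fun ω => len (proc β ctl i ω x -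
      proc β ctl i ω (corner m j (qidx m j x))) ^ 2) ≤
      (4 * C₀ ^ 2 / Real.log n) * ((m : ℝ) ^ i / (m : ℝ) ^ j) ^ 2 := by
    intro i
    induction i with
    | zero =>
      intro _
      have e : (fun ω : Seqs m n => len (proc β ctl 0 ω x -
          proc β ctl 0 ω (corner m j (qidx m j x))) ^ 2) = fun _ => 0 := by
        funext ω
        simp [proc, len]
      rw [e]
      have : EJ J (fun _ : Seqs m n => (0 : ℝ)) = 0 := C6_avg_const 0
      rw [this]
      positivity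
    | succ i ih =>
      intro hi
      have ih' := ih (by omega)
      have hq : qidx m i (corner m j (qidx m j x)) = qidx m i x :=
        C6_corner_qidx m i j hm0 (by omega) x
      rw [h1 m n J i (by omega)]
      have hstep : ∀ ω : Seqs m n, avg (fun δ : Fin n → Dig m =>
          len (proc β ctl (i + 1) (Function.update ω i δ) x -
            proc β ctl (i + 1) (Function.update ω i δ) (corner m j (qidx m j x))) ^ 2) ≤
          len (proc β ctl i ω x - proc β ctl i ω (corner m j (qidx m j x))) ^ 2 +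
            (4 * C₀ ^ 2 / Real.log n * ((m : ℝ) ^ i / (m : ℝ) ^ j) ^ 2) *
              rdens ω i (qidx m i x) := by
        intro ω
        set v : Dig m → ℝ × ℝ := fun d => β (ctl i ω (qidx m i x)) d (loc m i x) -
          β (ctl i ω (qidx m i x)) d (loc m i (corner m j (qidx m j x))) with hv
        have e : (fun δ : Fin n → Dig m =>
            len (proc β ctl (i + 1) (Function.update ω i δ) x -
            proc β ctl (i + 1) (Function.update ω i δ) (corner m j (qidx m j x))) ^ 2) =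
            fun δ => len ((proc β ctl i ω x - proc β ctl i ω (corner m j (qidx m j x))) +
              stp m n i • ∑ k ∈ inCell ω i (qidx m i x), (v (δ k) - avg v)) ^ 2 := by
          funext δ
          have hlt := C6_update_lt ω i δ
          simp only [proc, hq, C6_proc_congr β ctl hctl i _ _ hlt, C6_inCell_congr i _ _ hlt,
            hctl i _ _ hlt, Function.update_self]
          congr 2
          rw [add_sub_add_comm, ← smul_sub, ← Finset.sum_sub_distrib]
          congr 2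
          refine Finset.sum_congr rfl (fun k _ => ?_)
          rw [hv, C6_avg_sub]
          exact sub_sub_sub_comm _ _ _ _
        rw [e]
        refine (C6_step h3 _ _ _ _).trans (add_le_add le_rfl ?_)
        have hv2 : avg (fun d => len (v d) ^ 2) ≤ (C₀ * (2 * ((m : ℝ) ^ i / (m : ℝ) ^ j))) ^ 2 := by
          have : avg (fun _ : Dig m => (C₀ * (2 * ((m : ℝ) ^ i / (m : ℝ) ^ j))) ^ 2) = _ :=
            C6_avg_const _
          rw [← this]
          apply C6_avg_mono
          intro d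
          have hd : len (v d) ≤ C₀ * (2 * ((m : ℝ) ^ i / (m : ℝ) ^ j)) :=
            (hβ _ d _ (C6_loc_mem m i x hxS) _ (C6_loc_mem m i _ hcS)).trans
              (mul_le_mul_of_nonneg_left (C6_loc_corner m i j hm0 (by omega) x hx) hC₀)
          exact pow_le_pow_left₀ (C6_len_nonneg _) hd 2
        calc stp m n i ^ 2 * ((inCell ω i (qidx m i x)).card * avg (fun d => len (v d) ^ 2))
            ≤ stp m n i ^ 2 * ((inCell ω i (qidx m i x)).card *
              (C₀ * (2 * ((m : ℝ) ^ i / (m : ℝ) ^ j))) ^ 2) := by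
              refine mul_le_mul_of_nonneg_left (mul_le_mul_of_nonneg_left hv2 (by positivity))
                (by positivity)
          _ = _ := by
              rw [C6_stp_sq m n i hn]
              unfold rdens
              field_simp
              ring
      refine (C6_EJ_mono J hstep).trans ?_
      rw [C6_EJ_add, C6_EJ_mul, (h2 m n J i hm (by omega) (by omega)
        (le_trans (Nat.pow_le_pow_right hm0 (by omega)) hJ) (qidx m i x)
        (C6_qidx_lt m i hm0 x hx).1 (C6_qidx_lt m i hm0 x hx).2).1, mul_one]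
      have hK : 0 ≤ 4 * C₀ ^ 2 / Real.log n := by positivity
      have e2 : (m : ℝ) ^ (i + 1) / (m : ℝ) ^ j = m * ((m : ℝ) ^ i / (m : ℝ) ^ j) := by
        rw [pow_succ]; ring
      rw [e2, mul_pow]
      have h5 : 0 ≤ ((m : ℝ) ^ i / (m : ℝ) ^ j) ^ 2 := by positivity
      have h6 : (2 : ℝ) ≤ (m : ℝ) ^ 2 := by nlinarith
      calc _ ≤ 4 * C₀ ^ 2 / Real.log n * ((m : ℝ) ^ i / (m : ℝ) ^ j) ^ 2 +
            4 * C₀ ^ 2 / Real.log n * ((m : ℝ) ^ i / (m : ℝ) ^ j) ^ 2 := add_le_add ih' le_rfl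
        _ = 4 * C₀ ^ 2 / Real.log n * (2 * ((m : ℝ) ^ i / (m : ℝ) ^ j) ^ 2) := by ring
        _ ≤ _ := mul_le_mul_of_nonneg_left (mul_le_mul_of_nonneg_right h6 h5) hK
  refine (key j le_rfl).trans ?_
  rw [div_self (by positivity), one_pow, mul_one]
  exact div_le_div_of_nonneg_right (by linarith) hl.le

/-! ### C7 -/

theorem C6_cidx_lt {m n : ℕ} (ω : Seqs m n) (j : ℕ) (i : Fin n) :
    (cidx ω j i).1 < m ^ j ∧ (cidx ω j i).2 < m ^ j := by
  induction j with
  | zero => simp [cidx]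
  | succ j ih =>
    obtain ⟨h1, h2⟩ := ih
    have d1 := (ω j i).1.2
    have d2 := (ω j i).2.2
    constructor
    · show m * (cidx ω j i).1 + ((ω j i).1 : ℕ) < m ^ (j + 1)
      calc m * (cidx ω j i).1 + ((ω j i).1 : ℕ) < m * (cidx ω j i).1 + m := by omega
        _ = m * ((cidx ω j i).1 + 1) := by ring
        _ ≤ m * m ^ j := Nat.mul_le_mul_left _ h1
        _ = m ^ (j + 1) := by ring
    · show m * (cidx ω j i).2 + ((ω j i).2 : ℕ) < m ^ (j + 1)
      calc m * (cidx ω j i).2 + ((ω j i).2 : ℕ) < m * (cidx ω j i).2 + m := by omega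
        _ = m * ((cidx ω j i).2 + 1) := by ring
        _ ≤ m * m ^ j := Nat.mul_le_mul_left _ h2
        _ = m ^ (j + 1) := by ring

theorem C6_sum_card {m n : ℕ} (ω : Seqs m n) (j : ℕ) :
    ∑ q ∈ Finset.range (m ^ j) ×ˢ Finset.range (m ^ j), (inCell ω j q).card = n := by
  have h := Finset.card_eq_sum_card_fiberwise (f := cidx ω j) (s := (Finset.univ : Finset (Fin n)))
    (t := Finset.range (m ^ j) ×ˢ Finset.range (m ^ j)) (by
      intro i _
      have := C6_cidx_lt ω j i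
      simp only [Finset.coe_product, Finset.coe_range, mem_prod, mem_Iio]
      exact this)
  rw [Finset.card_univ, Fintype.card_fin] at h
  exact h.symm

theorem C6_U_finite : IsFiniteMeasure U := by
  constructor
  rw [U, Measure.restrict_apply_univ, Sq, Measure.volume_eq_prod, Measure.prod_prod]
  simp

theorem C6_Sq_meas : MeasurableSet Sq := measurableSet_Icc.prod measurableSet_Icc

theorem C6_integrable (f : ℝ × ℝ → ℝ) (hf : Measurable f) (C : ℝ) (h : ∀ z ∈ Sq, |f z| ≤ C) :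
    Integrable f U := by
  have := C6_U_finite
  exact Integrable.of_bound hf.aestronglyMeasurable C
    ((ae_restrict_iff' C6_Sq_meas).2 (Filter.Eventually.of_forall (fun z hz => h z hz)))

theorem C6_avg_measurable' {α : Type*} [Fintype α] (f : α → ℝ × ℝ → ℝ)
    (hf : ∀ a, Measurable (f a)) : Measurable (fun y => avg (fun a => f a y)) := by
  unfold avg
  have h : Measurable (fun y => ∑ a, f a y) := Finset.measurable_sum _ (fun a _ => hf a)
  exact h.const_smul ((Fintype.card α : ℝ)⁻¹)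

theorem C6_avg_integral {α : Type*} [Fintype α] (f : α → ℝ × ℝ → ℝ)
    (hf : ∀ a, Integrable (f a) U) :
    avg (fun a => ∫ z, f a z ∂U) = ∫ z, avg (fun a => f a z) ∂U := by
  unfold avg
  rw [integral_smul, integral_finsetSum _ (fun a _ => hf a)]

theorem C6_avg_integrable {α : Type*} [Fintype α] (f : α → ℝ × ℝ → ℝ)
    (hf : ∀ a, Integrable (f a) U) : Integrable (fun z => avg (fun a => f a z)) U := by
  unfold avg
  have h : Integrable (fun z => ∑ a, f a z) U := integrable_finsetSum _ (fun a _ => hf a)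
  exact h.smul ((Fintype.card α : ℝ)⁻¹)

theorem C6_stepz (h3 : StmtC3') {m n : ℕ} [NeZero m] {Θ : Type} (β : Θ → Dig m → ℝ × ℝ → ℝ × ℝ)
    (ctl : ℕ → Seqs m n → ℕ × ℕ → Θ) (hctl : Adapted ctl) (j : ℕ) (ω : Seqs m n) (z : ℝ × ℝ) :
    avg (fun δ : Fin n → Dig m => len (proc β ctl (j + 1) (Function.update ω j δ) z) ^ 2) ≤
      len (proc β ctl j ω z) ^ 2 + stp m n j ^ 2 * ((inCell ω j (qidx m j z)).card *
        avg (fun d => len (β (ctl j ω (qidx m j z)) d (loc m j z)) ^ 2)) := by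
  have e : (fun δ : Fin n → Dig m =>
      len (proc β ctl (j + 1) (Function.update ω j δ) z) ^ 2) =
      fun δ => len (proc β ctl j ω z + stp m n j • ∑ k ∈ inCell ω j (qidx m j z),
        ((fun d => β (ctl j ω (qidx m j z)) d (loc m j z)) (δ k) -
          avg (fun d => β (ctl j ω (qidx m j z)) d (loc m j z)))) ^ 2 := by
    funext δ
    have hlt := C6_update_lt ω j δ
    simp only [proc, C6_proc_congr β ctl hctl j _ _ hlt, C6_inCell_congr j _ _ hlt,
      hctl j _ _ hlt, Function.update_self]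
  rw [e]
  exact C6_step h3 (inCell ω j (qidx m j z)) (fun d => β (ctl j ω (qidx m j z)) d (loc m j z))
    (proc β ctl j ω z) (stp m n j)

theorem C7 (h1 : StmtC1) (h3 : StmtC3') (h5 : StmtC5) : StmtC7 := by
  intro m n J _ hm hn Θ β ctl B₀ E₂ hctl hmeas hB hE
  have hm0 : 0 < m := by omega
  have hm' : (0 : ℝ) < m := by exact_mod_cast hm0
  have hn0 : (0 : ℝ) < n := by
    have : 0 < n := by omega
    exact_mod_cast this
  have hl : 0 < Real.log n := Real.log_pos (by exact_mod_cast hn)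
  -- integrability
  have hint : ∀ (j : ℕ) (ω : Seqs m n), Integrable (fun z => len (proc β ctl j ω z) ^ 2) U := by
    intro j ω
    obtain ⟨C, hC⟩ := C6_proc_bdd β ctl B₀ hB j
    refine C6_integrable _ ((C6_len_measurable.comp
      (C6_proc_measurable β ctl hmeas j ω)).pow_const 2) (C ^ 2) (fun z hz => ?_)
    rw [abs_of_nonneg (by positivity)]
    exact pow_le_pow_left₀ (C6_len_nonneg _) (hC ω z hz) 2
  have hβm : ∀ θ d, Measurable (fun y => len (β θ d y) ^ 2) := fun θ d =>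
    (C6_len_measurable.comp (hmeas θ d)).pow_const 2
  have hβb : ∀ θ d, ∀ y ∈ Sq, len (β θ d y) ^ 2 ≤ B₀ ^ 2 := fun θ d y hy =>
    pow_le_pow_left₀ (C6_len_nonneg _) (hB θ d y hy) 2
  have hβi : ∀ θ d, Integrable (fun y => len (β θ d y) ^ 2) U := by
    intro θ d
    refine C6_integrable _ (hβm θ d) (B₀ ^ 2) (fun z hz => ?_)
    rw [abs_of_nonneg (by positivity)]
    exact hβb θ d z hz
  have key : ∀ j, j ≤ J → EJ J (fun ω => ∫ z, len (proc β ctl j ω z) ^ 2 ∂U) ≤
      j / Real.log n * E₂ := by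
    intro j
    induction j with
    | zero =>
      intro _
      have e : (fun ω : Seqs m n => ∫ z, len (proc β ctl 0 ω z) ^ 2 ∂U) = fun _ => 0 := by
        funext ω
        simp [proc, len]
      rw [e]
      have : EJ J (fun _ : Seqs m n => (0 : ℝ)) = 0 := C6_avg_const 0
      rw [this]
      simp
    | succ j ih =>
      intro hj
      have ih' := ih (by omega)
      rw [h1 m n J j (by omega)]
      have hstep : ∀ ω : Seqs m n, avg (fun δ : Fin n → Dig m =>
          ∫ z, len (proc β ctl (j + 1) (Function.update ω j δ) z) ^ 2 ∂U) ≤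
          (∫ z, len (proc β ctl j ω z) ^ 2 ∂U) + E₂ / Real.log n := by
        intro ω
        rw [C6_avg_integral _ (fun δ => hint (j + 1) (Function.update ω j δ))]
        set G : ℕ × ℕ → ℝ × ℝ → ℝ := fun q y => (inCell ω j q).card *
          avg (fun d => len (β (ctl j ω q) d y) ^ 2) with hG
        have hGm : ∀ q, Measurable (G q) := fun q =>
          measurable_const.mul (C6_avg_measurable' _ (fun d => hβm _ d))
        have hGb : ∀ q, ∀ y ∈ Sq, |G q y| ≤ n * B₀ ^ 2 := by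
          intro q y hy
          have h6 : 0 ≤ avg (fun d => len (β (ctl j ω q) d y) ^ 2) :=
            C6_avg_nonneg (fun d => by positivity)
          rw [hG, abs_of_nonneg (by positivity)]
          refine mul_le_mul (by exact_mod_cast C6_inCell_card_le ω j q) ?_ h6 hn0.le
          have : avg (fun _ : Dig m => B₀ ^ 2) = _ := C6_avg_const _
          rw [← this]
          exact C6_avg_mono (fun d => hβb _ d y hy)
        have hGi : Integrable (fun z => G (qidx m j z) (loc m j z)) U :=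
          C6_integrable _ (C6_cell_measurable m j G hGm) (n * B₀ ^ 2)
            (fun z hz => hGb _ _ (C6_loc_mem m j z hz))
        have hle : ∀ z, avg (fun δ : Fin n → Dig m =>
            len (proc β ctl (j + 1) (Function.update ω j δ) z) ^ 2) ≤
            len (proc β ctl j ω z) ^ 2 + stp m n j ^ 2 * G (qidx m j z) (loc m j z) := by
          exact C6_stepz h3 β ctl hctl j ω
        have hintL : Integrable (fun z => avg (fun δ : Fin n → Dig m =>
            len (proc β ctl (j + 1) (Function.update ω j δ) z) ^ 2)) U :=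
          C6_avg_integrable _ (fun δ => hint (j + 1) (Function.update ω j δ))
        refine (integral_mono hintL ((hint j ω).add (hGi.const_mul _)) hle).trans ?_
        rw [integral_add' (hint j ω) (hGi.const_mul _), integral_const_mul]
        refine add_le_add le_rfl ?_
        rw [h5 m j hm0 G hGm ⟨n * B₀ ^ 2, hGb⟩]
        have hq : ∀ q ∈ Finset.range (m ^ j) ×ˢ Finset.range (m ^ j),
            ∫ y, G q y ∂U ≤ (inCell ω j q).card * E₂ := by
          intro q _
          rw [hG]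
          simp only
          rw [integral_const_mul, ← C6_avg_integral _ (fun d => hβi _ d)]
          exact mul_le_mul_of_nonneg_left (hE _) (by positivity)
        have hsum := Finset.sum_le_sum hq
        rw [← Finset.sum_mul, ← Nat.cast_sum, C6_sum_card] at hsum
        calc stp m n j ^ 2 * (((m : ℝ) ^ (2 * j))⁻¹ *
              ∑ q ∈ Finset.range (m ^ j) ×ˢ Finset.range (m ^ j), ∫ y, G q y ∂U)
            ≤ stp m n j ^ 2 * (((m : ℝ) ^ (2 * j))⁻¹ * (n * E₂)) := by
              refine mul_le_mul_of_nonneg_left (mul_le_mul_of_nonneg_left hsum (by positivity))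
                (by positivity)
          _ = E₂ / Real.log n := by
              rw [C6_stp_sq m n j hn]
              field_simp
      refine (C6_EJ_mono J hstep).trans ?_
      have hc : EJ J (fun _ : Seqs m n => E₂ / Real.log n) = E₂ / Real.log n := C6_avg_const _
      rw [C6_EJ_add, hc]
      refine (add_le_add ih' le_rfl).trans (le_of_eq ?_)
      push_cast
      ring
  exact key J le_rfl

end Match2D
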