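import Pool.Agent.Work.MP_884187_pr.Stmts

/-!
MP_884187_pr, item D1: a coupling from a finite flow by a Markov chain.  `D1 : StmtA0 → StmtD1`.
-/

namespace Match2D

/-! ### The length -/

theorem D1_len_eq (v : ℝ × ℝ) : len v = ‖(⟨v.1, v.2⟩ : ℂ)‖ := by
  rw [Complex.norm_eq_sqrt_sq_add_sq]; rfl

theorem D1_len_nonneg (v : ℝ × ℝ) : 0 ≤ len v := Real.sqrt_nonneg _

theorem D1_len_sq (v : ℝ × ℝ) : len v ^ 2 = v.1 ^ 2 + v.2 ^ 2 :=
  Real.sq_sqrt (by positivity)

theorem D1_len_add (v w : ℝ × ℝ) : len (v + w) ≤ len v + len w := by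
  rw [D1_len_eq, D1_len_eq, D1_len_eq]
  exact norm_add_le (⟨v.1, v.2⟩ : ℂ) ⟨w.1, w.2⟩

theorem D1_len_smul (r : ℝ) (v : ℝ × ℝ) : len (r • v) = |r| * len v := by
  rw [len, len, Prod.smul_fst, Prod.smul_snd, smul_eq_mul, smul_eq_mul, mul_pow, mul_pow,
    ← mul_add, Real.sqrt_mul (sq_nonneg r), Real.sqrt_sq_eq_abs]

theorem D1_len_zero : len 0 = 0 := by simp [len]

theorem D1_len_sub_comm (v w : ℝ × ℝ) : len (v - w) = len (w - v) := by
  rw [len, len]
  congr 1
  simp only [Prod.fst_sub, Prod.snd_sub]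
  ring

/-! ### Elementary inequalities -/

/-- Jensen for two terms with weights `k` and `1`. -/
theorem D1_jensen (p : ℝ) (hp : 1 ≤ p) (k a b : ℝ) (hk : 0 < k) (ha : 0 ≤ a) (hb : 0 ≤ b) :
    (a + b) ^ p ≤ ((k + 1) / k) ^ (p - 1) * a ^ p + (k + 1) ^ (p - 1) * b ^ p := by
  have hk1 : 0 < k + 1 := by linarith
  have hx : (k + 1) / k * a ∈ Set.Ici (0 : ℝ) := by
    simp only [Set.mem_Ici]; positivity
  have hy : (k + 1) * b ∈ Set.Ici (0 : ℝ) := by
    simp only [Set.mem_Ici]; positivity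
  have h1 : 0 ≤ k / (k + 1) := by positivity
  have h2 : 0 ≤ 1 / (k + 1) := by positivity
  have h3 : k / (k + 1) + 1 / (k + 1) = 1 := by field_simp
  have hconv := (convexOn_rpow hp).2 hx hy h1 h2 h3
  simp only [smul_eq_mul] at hconv
  have e1 : k / (k + 1) * ((k + 1) / k * a) + 1 / (k + 1) * ((k + 1) * b) = a + b := by
    field_simp
  rw [e1] at hconv
  refine hconv.trans (le_of_eq ?_)
  rw [Real.mul_rpow (by positivity) ha, Real.mul_rpow (by positivity) hb]
  rw [Real.rpow_sub_one (by positivity), Real.rpow_sub_one (by positivity)]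
  field_simp

/-- `x ^ p ≤ A ^ p + (A ^ (p-2) + E ^ (p-2)) x ^ 2` for `0 ≤ x ≤ E`. -/
theorem D1_interp (p A E x : ℝ) (hp : 1 ≤ p) (hA : 0 < A) (hE : 0 < E) (hx : 0 ≤ x)
    (hxE : x ≤ E) : x ^ p ≤ A ^ p + (A ^ (p - 2) + E ^ (p - 2)) * x ^ 2 := by
  have hA2 : 0 ≤ A ^ (p - 2) := Real.rpow_nonneg hA.le _
  have hE2 : 0 ≤ E ^ (p - 2) := Real.rpow_nonneg hE.le _
  rcases le_or_gt x A with h | h
  · have h1 : x ^ p ≤ A ^ p := Real.rpow_le_rpow hx h (by linarith)
    have h2 : 0 ≤ (A ^ (p - 2) + E ^ (p - 2)) * x ^ 2 := by positivity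
    linarith
  · have hx0 : 0 < x := hA.trans h
    have e : x ^ p = x ^ (p - 2) * x ^ 2 := by
      rw [← Real.rpow_natCast x 2, ← Real.rpow_add hx0]
      congr 1; push_cast; ring
    have h1 : x ^ (p - 2) ≤ A ^ (p - 2) + E ^ (p - 2) := by
      rcases le_or_gt 2 p with h2 | h2
      · have := Real.rpow_le_rpow hx hxE (show 0 ≤ p - 2 by linarith)
        linarith
      · have := Real.rpow_le_rpow_of_nonpos hA h.le (show p - 2 ≤ 0 by linarith)
        linarith
    have h3 : 0 ≤ A ^ p := Real.rpow_nonneg hA.le _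
    rw [e]
    have := mul_le_mul_of_nonneg_right h1 (sq_nonneg x)
    linarith

/-! ### One step of the chain -/

section step

variable {ι : Type} [Fintype ι] [DecidableEq ι]

/-- The transition kernel: jump with rates `q`, stay otherwise. -/
noncomputable def D1_P (q : ι → ι → ℝ) (c c' : ι) : ℝ :=
  q c c' + if c' = c then 1 - ∑ c'', q c c'' else 0

theorem D1_P_sum (q : ι → ι → ℝ) (c : ι) (g : ι → ℝ) :
    ∑ c', D1_P q c c' * g c' = g c + ∑ c', q c c' * (g c' - g c) := by
  have h1 : ∀ c', D1_P q c c' * g c' =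
      q c c' * g c' + (if c' = c then (1 - ∑ c'', q c c'') * g c' else 0) := by
    intro c'
    rw [D1_P, add_mul]
    congr 1
    split_ifs <;> simp
  simp only [h1, Finset.sum_add_distrib, Finset.sum_ite_eq', Finset.mem_univ, if_true, mul_sub,
    Finset.sum_sub_distrib]
  rw [← Finset.sum_mul]
  ring

theorem D1_P_nonneg (q : ι → ι → ℝ) (hq : ∀ c c', 0 ≤ q c c') (hq1 : ∀ c, ∑ c', q c c' ≤ 1)
    (c c' : ι) : 0 ≤ D1_P q c c' := by
  unfold D1_P
  have := hq1 c
  have := hq c c'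
  split_ifs <;> linarith

theorem D1_variance (pos : ι → ℝ × ℝ) (q : ι → ι → ℝ) (c : ι) (y μ : ℝ × ℝ)
    (hμ : μ = ∑ c', q c c' • (pos c' - pos c)) :
    ∑ c', D1_P q c c' * len (pos c' - (y + μ)) ^ 2 ≤
      len (pos c - y) ^ 2 + ∑ c', q c c' * len (pos c' - pos c) ^ 2 := by
  rw [D1_P_sum]
  have h1 : μ.1 = ∑ c', q c c' * ((pos c').1 - (pos c).1) := by
    rw [hμ, Prod.fst_sum]; rfl
  have h2 : μ.2 = ∑ c', q c c' * ((pos c').2 - (pos c).2) := by
    rw [hμ, Prod.snd_sum]; rfl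
  have h3 : ∑ c', q c c' * (len (pos c' - (y + μ)) ^ 2 - len (pos c - (y + μ)) ^ 2) =
      2 * ((pos c).1 - y.1 - μ.1) * μ.1 + 2 * ((pos c).2 - y.2 - μ.2) * μ.2 +
        ∑ c', q c c' * len (pos c' - pos c) ^ 2 := by
    have e : ∀ c', q c c' * (len (pos c' - (y + μ)) ^ 2 - len (pos c - (y + μ)) ^ 2) =
        2 * ((pos c).1 - y.1 - μ.1) * (q c c' * ((pos c').1 - (pos c).1)) +
        2 * ((pos c).2 - y.2 - μ.2) * (q c c' * ((pos c').2 - (pos c).2)) +
        q c c' * len (pos c' - pos c) ^ 2 := by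
      intro c'
      rw [D1_len_sq, D1_len_sq, D1_len_sq]
      simp only [Prod.fst_sub, Prod.snd_sub, Prod.fst_add, Prod.snd_add]
      ring
    simp only [e, Finset.sum_add_distrib]
    rw [← Finset.mul_sum, ← Finset.mul_sum, ← h1, ← h2]
  rw [h3, D1_len_sq (pos c - (y + μ)), D1_len_sq (pos c - y)]
  simp only [Prod.fst_sub, Prod.snd_sub, Prod.fst_add, Prod.snd_add]
  nlinarith [sq_nonneg μ.1, sq_nonneg μ.2]

/-- The density at time `k / N`. -/
noncomputable def D1_m (m₀ m₁ : ι → ℝ) (N k : ℕ) (c : ι) : ℝ :=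
  m₀ c - (k : ℝ) / N * (m₀ c - m₁ c)

omit [Fintype ι] [DecidableEq ι] in
theorem D1_m_ge (m₀ m₁ w : ι → ℝ) (N k : ℕ) (hN : 0 < N) (hk : k ≤ N) (c : ι)
    (h₀ : w c ≤ m₀ c) (h₁ : w c ≤ m₁ c) : w c ≤ D1_m m₀ m₁ N k c := by
  have hN' : (0 : ℝ) < N := by exact_mod_cast hN
  have h1 : (k : ℝ) / N ≤ 1 := by
    rw [div_le_one hN']; exact_mod_cast hk
  have h2 : 0 ≤ (k : ℝ) / N := by positivity
  unfold D1_m
  nlinarith

/-- The states after `k` steps of the chain. -/
theorem D1_chain (p : ℝ) (hp : 1 ≤ p) (pos : ι → ℝ × ℝ) (m₀ m₁ w : ι → ℝ) (Ψ : ι → ι → ℝ)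
    (D : ℝ) (hΨ : ∀ c c', Ψ c c' = - Ψ c' c) (hdiv : ∀ c, ∑ c', Ψ c c' = m₀ c - m₁ c)
    (hw : ∀ c, 0 < w c ∧ w c ≤ m₀ c ∧ w c ≤ m₁ c)
    (hu : ∀ c, len (∑ c', max (Ψ c c') 0 • (pos c' - pos c)) ≤ D * w c)
    (N : ℕ) (hN : 0 < N) (hNq : ∀ c, ∑ c', max (Ψ c c') 0 ≤ N * w c) :
    ∀ k ≤ N, ∃ (Ω : Type) (_ : Fintype Ω) (W : Ω → ℝ) (x₀ cur : Ω → ι) (y : Ω → ℝ × ℝ),
      (∀ ω, 0 ≤ W ω) ∧ (∀ f : ι → ℝ, ∑ ω, W ω * f (x₀ ω) = ∑ c, m₀ c * f c) ∧
      (∀ f : ι → ℝ, ∑ ω, W ω * f (cur ω) = ∑ c, D1_m m₀ m₁ N k c * f c) ∧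
      (∑ ω, W ω * len (pos (cur ω) - y ω) ^ 2 ≤
        (k : ℝ) / N * ∑ c, ∑ c', max (Ψ c c') 0 * len (pos c' - pos c) ^ 2) ∧
      (∑ ω, W ω * len (y ω - pos (x₀ ω)) ^ p ≤ ((k : ℝ) / N) ^ p *
        ∑ c, len (∑ c', max (Ψ c c') 0 • (pos c' - pos c)) ^ p * w c ^ (1 - p)) ∧
      (∀ ω, len (y ω - pos (x₀ ω)) ≤ (k : ℝ) / N * D) := by
  have hN' : (0 : ℝ) < N := by exact_mod_cast hN
  intro k
  induction k with
  | zero =>
    intro _
    refine ⟨ι, inferInstance, m₀, id, id, pos, ?_, ?_, ?_, ?_, ?_, ?_⟩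
    · intro c
      have := hw c
      linarith [this.1, this.2.1]
    · intro f; rfl
    · intro f
      simp [D1_m]
    · simp [D1_len_zero]
    · simp [D1_len_zero, Real.zero_rpow (by linarith : p ≠ 0)]
    · intro c
      simp [D1_len_zero]
  | succ k ih =>
    intro hk
    obtain ⟨Ω, _, W, x₀, cur, y, hW, hx, hc, h2, hpp, hy⟩ := ih (by omega)
    set m : ι → ℝ := D1_m m₀ m₁ N k with hm
    have hmw : ∀ c, w c ≤ m c := fun c =>
      D1_m_ge m₀ m₁ w N k hN (by omega) c (hw c).2.1 (hw c).2.2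
    have hm0 : ∀ c, 0 < m c := fun c => (hw c).1.trans_le (hmw c)
    set q : ι → ι → ℝ := fun c c' => max (Ψ c c') 0 / (N * m c) with hq
    have hq0 : ∀ c c', 0 ≤ q c c' := fun c c' =>
      div_nonneg (le_max_right _ _) (mul_pos hN' (hm0 c)).le
    have hq1 : ∀ c, ∑ c', q c c' ≤ 1 := by
      intro c
      simp only [hq]
      rw [← Finset.sum_div, div_le_one (mul_pos hN' (hm0 c))]
      exact (hNq c).trans (mul_le_mul_of_nonneg_left (hmw c) hN'.le)
    have hP0 := D1_P_nonneg q hq0 hq1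
    set u : ι → ℝ × ℝ := fun c => ∑ c', max (Ψ c c') 0 • (pos c' - pos c) with hudef
    set μ : ι → ℝ × ℝ := fun c => (N * m c)⁻¹ • u c with hμdef
    have hμ : ∀ c, μ c = ∑ c', q c c' • (pos c' - pos c) := by
      intro c
      simp only [hμdef, hudef, hq, Finset.smul_sum, smul_smul]
      apply Finset.sum_congr rfl
      intro c' _
      congr 1
      rw [div_eq_inv_mul]
    have hlen : ∀ c, len (μ c) = len (u c) / (N * m c) := by
      intro c
      simp only [hμdef]
      rw [D1_len_smul, abs_of_pos (inv_pos.2 (mul_pos hN' (hm0 c))), div_eq_inv_mul]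
    have hsum : ∀ F : Ω → ι → ℝ, ∑ z : Ω × ι, W z.1 * D1_P q (cur z.1) z.2 * F z.1 z.2 =
        ∑ ω, W ω * ∑ c', D1_P q (cur ω) c' * F ω c' := by
      intro F
      rw [Fintype.sum_prod_type]
      apply Finset.sum_congr rfl
      intro ω _
      rw [Finset.mul_sum]
      apply Finset.sum_congr rfl
      intro c' _
      ring
    have hsum1 : ∀ F : Ω → ℝ, ∑ z : Ω × ι, W z.1 * D1_P q (cur z.1) z.2 * F z.1 =
        ∑ ω, W ω * F ω := by
      intro F
      rw [hsum (fun ω _ => F ω)]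
      apply Finset.sum_congr rfl
      intro ω _
      rw [D1_P_sum q (cur ω) (fun _ => F ω)]
      simp
    refine ⟨Ω × ι, inferInstance, fun z => W z.1 * D1_P q (cur z.1) z.2, fun z => x₀ z.1,
      fun z => z.2, fun z => y z.1 + μ (cur z.1), ?_, ?_, ?_, ?_, ?_, ?_⟩
    · rintro ⟨ω, c'⟩
      exact mul_nonneg (hW ω) (hP0 _ _)
    · intro f
      rw [hsum1 (fun ω => f (x₀ ω)), hx]
    · intro f
      rw [hsum (fun _ c' => f c')]
      simp only [D1_P_sum]
      rw [hc (fun c => f c + ∑ c', q c c' * (f c' - f c))]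
      have e1 : ∀ c, m c * (f c + ∑ c', q c c' * (f c' - f c)) = m c * f c +
          ((N : ℝ)⁻¹ * ∑ c', max (Ψ c c') 0 * f c' - (N : ℝ)⁻¹ * ∑ c', max (Ψ c c') 0 * f c) := by
        intro c
        rw [mul_add, ← mul_sub, ← Finset.sum_sub_distrib, Finset.mul_sum, Finset.mul_sum]
        congr 1
        apply Finset.sum_congr rfl
        intro c' _
        simp only [hq]
        have := (hm0 c).ne'
        field_simp
      simp only [e1, Finset.sum_add_distrib, Finset.sum_sub_distrib]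
      rw [← Finset.mul_sum, ← Finset.mul_sum]
      have e2 : ∑ c, ∑ c', max (Ψ c c') 0 * f c' = ∑ c, ∑ c', max (Ψ c' c) 0 * f c :=
        Finset.sum_comm
      rw [e2, ← mul_sub, ← Finset.sum_sub_distrib, Finset.mul_sum, ← Finset.sum_add_distrib]
      apply Finset.sum_congr rfl
      intro c _
      rw [← Finset.sum_sub_distrib]
      have e3 : ∀ c', max (Ψ c' c) 0 * f c - max (Ψ c c') 0 * f c = - Ψ c c' * f c := by
        intro c'
        rw [← sub_mul, hΨ c' c]
        congr 1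
        have := max_zero_sub_max_neg_zero_eq_self (Ψ c c')
        linarith
      simp only [e3]
      rw [← Finset.sum_mul, Finset.sum_neg_distrib, hdiv c, hm, D1_m, D1_m]
      push_cast
      ring
    · rw [hsum (fun ω c' => len (pos c' - (y ω + μ (cur ω))) ^ 2)]
      calc _ ≤ ∑ ω, (W ω * len (pos (cur ω) - y ω) ^ 2 +
            W ω * ∑ c', q (cur ω) c' * len (pos c' - pos (cur ω)) ^ 2) := by
              apply Finset.sum_le_sum
              intro ω _
              rw [← mul_add]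
              exact mul_le_mul_of_nonneg_left (D1_variance pos q (cur ω) (y ω) _ (hμ _)) (hW ω)
        _ = ∑ ω, W ω * len (pos (cur ω) - y ω) ^ 2 +
            ∑ c, m c * ∑ c', q c c' * len (pos c' - pos c) ^ 2 := by
              rw [Finset.sum_add_distrib,
                hc (fun c => ∑ c', q c c' * len (pos c' - pos c) ^ 2)]
        _ ≤ (k : ℝ) / N * (∑ c, ∑ c', max (Ψ c c') 0 * len (pos c' - pos c) ^ 2) +
            (N : ℝ)⁻¹ * ∑ c, ∑ c', max (Ψ c c') 0 * len (pos c' - pos c) ^ 2 := by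
              apply add_le_add h2 (le_of_eq _)
              rw [Finset.mul_sum]
              apply Finset.sum_congr rfl
              intro c _
              rw [Finset.mul_sum, Finset.mul_sum]
              apply Finset.sum_congr rfl
              intro c' _
              simp only [hq]
              have := (hm0 c).ne'
              field_simp
        _ = _ := by push_cast; ring
    · rw [hsum1 (fun ω => len (y ω + μ (cur ω) - pos (x₀ ω)) ^ p)]
      set Bp : ℝ := ∑ c, len (u c) ^ p * w c ^ (1 - p) with hBp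
      have f0 : ∑ ω, W ω * len (μ (cur ω)) ^ p ≤ ((N : ℝ)⁻¹) ^ p * Bp := by
        rw [hc (fun c => len (μ c) ^ p), hBp, Finset.mul_sum]
        apply Finset.sum_le_sum
        intro c _
        rw [hlen, Real.div_rpow (D1_len_nonneg _) (mul_pos hN' (hm0 c)).le,
          Real.mul_rpow hN'.le (hm0 c).le]
        have g1 : m c ^ (1 - p) ≤ w c ^ (1 - p) :=
          Real.rpow_le_rpow_of_nonpos (hw c).1 (hmw c) (by linarith)
        have g2 : m c / m c ^ p = m c ^ (1 - p) := by
          rw [Real.rpow_sub (hm0 c), Real.rpow_one]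
        have g3 : 0 ≤ len (u c) ^ p := Real.rpow_nonneg (D1_len_nonneg _) _
        have g4 : 0 < (N : ℝ) ^ p := Real.rpow_pos_of_pos hN' _
        calc m c * (len (u c) ^ p / ((N : ℝ) ^ p * m c ^ p))
            = ((N : ℝ) ^ p)⁻¹ * (len (u c) ^ p * (m c / m c ^ p)) := by
              have := (Real.rpow_pos_of_pos (hm0 c) p).ne'
              field_simp
          _ ≤ ((N : ℝ) ^ p)⁻¹ * (len (u c) ^ p * w c ^ (1 - p)) := by
              rw [g2]
              apply mul_le_mul_of_nonneg_left _ (inv_pos.2 g4).le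
              exact mul_le_mul_of_nonneg_left g1 g3
          _ = _ := by rw [Real.inv_rpow hN'.le]
      rcases Nat.eq_zero_or_pos k with hk0 | hk0
      · subst hk0
        have f1 : ∀ ω, len (y ω + μ (cur ω) - pos (x₀ ω)) ≤ len (μ (cur ω)) := by
          intro ω
          have g1 := hy ω
          have g2 := D1_len_add (y ω - pos (x₀ ω)) (μ (cur ω))
          rw [show y ω + μ (cur ω) - pos (x₀ ω) = (y ω - pos (x₀ ω)) + μ (cur ω) by abel]
          simp only [Nat.cast_zero, zero_div, zero_mul] at g1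
          linarith
        calc _ ≤ ∑ ω, W ω * len (μ (cur ω)) ^ p := by
              apply Finset.sum_le_sum
              intro ω _
              apply mul_le_mul_of_nonneg_left _ (hW ω)
              exact Real.rpow_le_rpow (D1_len_nonneg _) (f1 ω) (by linarith)
          _ ≤ _ := f0
          _ = _ := by simp
      · have hk' : (0 : ℝ) < k := by exact_mod_cast hk0
        calc _ ≤ ∑ ω, ((((k : ℝ) + 1) / k) ^ (p - 1) * (W ω * len (y ω - pos (x₀ ω)) ^ p) +
              ((k : ℝ) + 1) ^ (p - 1) * (W ω * len (μ (cur ω)) ^ p)) := by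
              apply Finset.sum_le_sum
              intro ω _
              have g1 : len (y ω + μ (cur ω) - pos (x₀ ω)) ^ p ≤
                  (len (y ω - pos (x₀ ω)) + len (μ (cur ω))) ^ p := by
                apply Real.rpow_le_rpow (D1_len_nonneg _) _ (by linarith)
                rw [show y ω + μ (cur ω) - pos (x₀ ω) = (y ω - pos (x₀ ω)) + μ (cur ω) by abel]
                exact D1_len_add _ _
              have g2 := D1_jensen p hp k _ _ hk' (D1_len_nonneg (y ω - pos (x₀ ω)))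
                (D1_len_nonneg (μ (cur ω)))
              have g3 := mul_le_mul_of_nonneg_left (g1.trans g2) (hW ω)
              refine g3.trans (le_of_eq ?_)
              ring
          _ = (((k : ℝ) + 1) / k) ^ (p - 1) * ∑ ω, W ω * len (y ω - pos (x₀ ω)) ^ p +
              ((k : ℝ) + 1) ^ (p - 1) * ∑ ω, W ω * len (μ (cur ω)) ^ p := by
              rw [Finset.sum_add_distrib, ← Finset.mul_sum, ← Finset.mul_sum]
          _ ≤ (((k : ℝ) + 1) / k) ^ (p - 1) * (((k : ℝ) / N) ^ p * Bp) +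
              ((k : ℝ) + 1) ^ (p - 1) * (((N : ℝ)⁻¹) ^ p * Bp) := by
              apply add_le_add
              · exact mul_le_mul_of_nonneg_left hpp (Real.rpow_nonneg (by positivity) _)
              · exact mul_le_mul_of_nonneg_left f0 (Real.rpow_nonneg (by positivity) _)
          _ = _ := by
              push_cast
              rw [Real.rpow_sub_one (by positivity), Real.rpow_sub_one (by positivity),
                Real.div_rpow (by positivity) hk'.le, Real.div_rpow hk'.le hN'.le,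
                Real.div_rpow (by positivity) hN'.le, Real.inv_rpow hN'.le]
              have := (Real.rpow_pos_of_pos hk' p).ne'
              have := (Real.rpow_pos_of_pos hN' p).ne'
              field_simp
    · rintro ⟨ω, c'⟩
      show len (y ω + μ (cur ω) - pos (x₀ ω)) ≤ _
      rw [show y ω + μ (cur ω) - pos (x₀ ω) = (y ω - pos (x₀ ω)) + μ (cur ω) by abel]
      have g1 := D1_len_add (y ω - pos (x₀ ω)) (μ (cur ω))
      have g2 := hy ω
      have hD : 0 ≤ D := by
        have g3 := (D1_len_nonneg _).trans (hu (cur ω))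
        exact nonneg_of_mul_nonneg_left g3 (hw (cur ω)).1
      have g3 : len (μ (cur ω)) ≤ D / N := by
        rw [hlen, div_le_div_iff₀ (mul_pos hN' (hm0 _)) hN']
        have g4 : len (u (cur ω)) ≤ D * m (cur ω) :=
          (hu (cur ω)).trans (mul_le_mul_of_nonneg_left (hmw _) hD)
        nlinarith
      push_cast
      calc _ ≤ (k : ℝ) / N * D + D / N := by linarith
        _ = _ := by ring

/-- Summation against the joint law. -/
theorem D1_joint {Ω : Type} [Fintype Ω] (W : Ω → ℝ) (x₀ cur : Ω → ι) (K : ι → ι → ℝ) :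
    ∑ c, ∑ c', (∑ ω, if x₀ ω = c ∧ cur ω = c' then W ω else 0) * K c c' =
      ∑ ω, W ω * K (x₀ ω) (cur ω) := by
  have h1 : ∀ c c', (∑ ω, if x₀ ω = c ∧ cur ω = c' then W ω else 0) * K c c' =
      ∑ ω, if c = x₀ ω then (if c' = cur ω then W ω * K (x₀ ω) (cur ω) else 0) else 0 := by
    intro c c'
    rw [Finset.sum_mul]
    apply Finset.sum_congr rfl
    intro ω _
    by_cases h1 : x₀ ω = c
    · by_cases h2 : cur ω = c'
      · simp [h1, h2]
      · simp [h2, Ne.symm h2]
    · simp [h1, Ne.symm h1]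
  simp only [h1]
  have h2 : ∀ c, ∑ c', ∑ ω, (if c = x₀ ω then
      (if c' = cur ω then W ω * K (x₀ ω) (cur ω) else 0) else 0) =
      ∑ ω, if c = x₀ ω then W ω * K (x₀ ω) (cur ω) else 0 := by
    intro c
    rw [Finset.sum_comm]
    apply Finset.sum_congr rfl
    intro ω _
    split_ifs <;> simp
  simp only [h2]
  rw [Finset.sum_comm]
  apply Finset.sum_congr rfl
  intro ω _
  simp

end step

/-- D1: a coupling from a finite flow (Markov chain), from the elementary inequality A0. -/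
theorem D1 (hA0 : StmtA0) : StmtD1 := by
  intro p hp δ hδ
  obtain ⟨C, hC1, hC⟩ := hA0 p hp δ hδ
  refine ⟨C, by linarith, ?_⟩
  intro ι _ _ pos m₀ m₁ w Ψ D A hΨ hdiv hw hD hA hpos hu
  obtain ⟨N, hN, hNq⟩ : ∃ N : ℕ, 0 < N ∧ ∀ c, ∑ c', max (Ψ c c') 0 ≤ N * w c := by
    obtain ⟨N, hN⟩ := exists_nat_ge (∑ c, (∑ c', max (Ψ c c') 0) / w c)
    refine ⟨N + 1, Nat.succ_pos _, ?_⟩
    intro c
    have h1 : (∑ c', max (Ψ c c') 0) / w c ≤ ∑ c, (∑ c', max (Ψ c c') 0) / w c :=
      Finset.single_le_sum (f := fun c => (∑ c', max (Ψ c c') 0) / w c)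
        (fun i _ => div_nonneg (Finset.sum_nonneg fun j _ => le_max_right _ _) (hw i).1.le)
        (Finset.mem_univ c)
    have h2 : (∑ c', max (Ψ c c') 0) / w c ≤ N := h1.trans hN
    rw [div_le_iff₀ (hw c).1] at h2
    have := (hw c).1
    push_cast
    linarith
  obtain ⟨Ω, _, W, x₀, cur, y, hW, hx, hc, h2, hpp, hy⟩ :=
    D1_chain p hp pos m₀ m₁ w Ψ D hΨ hdiv hw hu N hN hNq N le_rfl
  have hN' : (0 : ℝ) < N := by exact_mod_cast hN
  have hNN : (N : ℝ) / N = 1 := div_self hN'.ne'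
  refine ⟨fun c c' => ∑ ω, if x₀ ω = c ∧ cur ω = c' then W ω else 0, ?_, ?_, ?_, ?_⟩
  · intro c c'
    apply Finset.sum_nonneg
    intro ω _
    split_ifs
    · exact hW ω
    · exact le_rfl
  · intro c
    have h3 := D1_joint W x₀ cur (fun a _ => if a = c then (1 : ℝ) else 0)
    rw [hx (fun a => if a = c then (1 : ℝ) else 0)] at h3
    simp only [mul_ite, mul_one, mul_zero, Finset.sum_ite_eq', Finset.mem_univ, if_true] at h3
    rw [← h3]
    symm
    rw [Finset.sum_eq_single c]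
    · simp
    · intro b _ hb
      simp [hb]
    · intro h
      exact absurd (Finset.mem_univ c) h
  · intro c'
    have h3 := D1_joint W x₀ cur (fun _ b => if b = c' then (1 : ℝ) else 0)
    rw [hc (fun b => if b = c' then (1 : ℝ) else 0)] at h3
    simp only [mul_ite, mul_one, mul_zero, Finset.sum_ite_eq', Finset.mem_univ, if_true] at h3
    rw [h3, D1_m, hNN]
    ring
  · rw [D1_joint W x₀ cur (fun c c' => len (pos c - pos c') ^ p)]
    have key : ∀ ω, len (pos (x₀ ω) - pos (cur ω)) ^ p ≤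
        (1 + δ) * len (y ω - pos (x₀ ω)) ^ p +
        C * (A ^ p + (A ^ (p - 2) + (2 * D) ^ (p - 2)) * len (pos (cur ω) - y ω) ^ 2) := by
      intro ω
      have g1 : len (pos (x₀ ω) - pos (cur ω)) ≤
          len (y ω - pos (x₀ ω)) + len (pos (cur ω) - y ω) := by
        rw [D1_len_sub_comm]
        have := D1_len_add (y ω - pos (x₀ ω)) (pos (cur ω) - y ω)
        rwa [show (y ω - pos (x₀ ω)) + (pos (cur ω) - y ω) = pos (cur ω) - pos (x₀ ω) by
          abel] at this
      have g2 : len (pos (cur ω) - y ω) ≤ 2 * D := by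
        have g3 := D1_len_add (pos (cur ω) - pos (x₀ ω)) (pos (x₀ ω) - y ω)
        rw [show (pos (cur ω) - pos (x₀ ω)) + (pos (x₀ ω) - y ω) = pos (cur ω) - y ω by
          abel] at g3
        have g4 := hpos (cur ω) (x₀ ω)
        have g5 := hy ω
        rw [hNN, one_mul, D1_len_sub_comm] at g5
        linarith
      calc len (pos (x₀ ω) - pos (cur ω)) ^ p ≤
            (len (y ω - pos (x₀ ω)) + len (pos (cur ω) - y ω)) ^ p :=
              Real.rpow_le_rpow (D1_len_nonneg _) g1 (by linarith)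
        _ ≤ (1 + δ) * len (y ω - pos (x₀ ω)) ^ p + C * len (pos (cur ω) - y ω) ^ p :=
              hC _ _ (D1_len_nonneg _) (D1_len_nonneg _)
        _ ≤ _ := by
              have g6 := D1_interp p A (2 * D) _ hp hA (by linarith) (D1_len_nonneg _) g2
              have g7 := mul_le_mul_of_nonneg_left g6 (by linarith : 0 ≤ C)
              linarith
    have hE : 0 ≤ A ^ (p - 2) + (2 * D) ^ (p - 2) :=
      add_nonneg (Real.rpow_nonneg hA.le _) (Real.rpow_nonneg (by linarith) _)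
    calc ∑ ω, W ω * len (pos (x₀ ω) - pos (cur ω)) ^ p
        ≤ ∑ ω, ((1 + δ) * (W ω * len (y ω - pos (x₀ ω)) ^ p) +
            C * (A ^ p * (W ω * 1) + (A ^ (p - 2) + (2 * D) ^ (p - 2)) *
              (W ω * len (pos (cur ω) - y ω) ^ 2))) := by
          apply Finset.sum_le_sum
          intro ω _
          refine (mul_le_mul_of_nonneg_left (key ω) (hW ω)).trans (le_of_eq ?_)
          ring
      _ = (1 + δ) * ∑ ω, W ω * len (y ω - pos (x₀ ω)) ^ p +
            C * (A ^ p * ∑ c, m₀ c * 1 + (A ^ (p - 2) + (2 * D) ^ (p - 2)) *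
              ∑ ω, W ω * len (pos (cur ω) - y ω) ^ 2) := by
          rw [Finset.sum_add_distrib, ← Finset.mul_sum, ← Finset.mul_sum,
            Finset.sum_add_distrib, ← Finset.mul_sum, ← Finset.mul_sum, hx (fun _ => 1)]
      _ ≤ _ := by
          rw [hNN, Real.one_rpow, one_mul] at hpp
          rw [hNN, one_mul] at h2
          simp only [mul_one]
          have e1 := mul_le_mul_of_nonneg_left hpp (by linarith : 0 ≤ 1 + δ)
          have e2 := mul_le_mul_of_nonneg_left h2 hE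
          have e3 := mul_le_mul_of_nonneg_left (add_le_add_left e2 (A ^ p * ∑ c, m₀ c))
            (by linarith : 0 ≤ C)
          linarith

end Match2D
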