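import Pool.Agent.Work.MP_884187_pr.Bd.B02

/-!
MP_884187_pr, item D2: transport cost of a flux.
-/

open MeasureTheory Set Filter Topology

namespace Match2D

section
variable {p : ℝ} {R : ℕ} {b : ℝ × ℝ → ℝ × ℝ} {ρ w g1 g2 : ℝ × ℝ → ℝ} {B ω : ℝ}
    {r q : ℕ × ℕ → ℝ} {k : ℕ}

/-- The drift of a cell. -/
noncomputable def D2_u (b : ℝ × ℝ → ℝ × ℝ) (N : ℕ) (c : Fin N × Fin N) : ℝ × ℝ :=
  (1 / N * (max (D2_f1 b N (c.1 + 1) c.2) 0 - max (-D2_f1 b N c.1 c.2) 0),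
    1 / N * (max (D2_f2 b N c.1 (c.2 + 1)) 0 - max (-D2_f2 b N c.1 c.2) 0))

lemma D2_u_eq (h : D2_Data p R b ρ w g1 g2 B ω r q) {N : ℕ} (c : Fin N × Fin N) :
    ∑ c', max (D2_Psi N (D2_f1 b N) (D2_f2 b N) c c') 0 • (D2_pos N c' - D2_pos N c) =
      D2_u b N c := by
  have hN : 0 < N := lt_of_le_of_lt (Nat.zero_le _) c.1.2
  rw [D2_expand hN _ _ (fun j hj => (D2_f1_zero h j hj).1) (fun j hj => (D2_f1_zero h j hj).2)
    (fun j hj => (D2_f2_zero h j hj).1) (fun j hj => (D2_f2_zero h j hj).2)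
    (fun ψ v => max ψ 0 • v) (fun v => by simp)]
  unfold D2_u
  refine Prod.ext ?_ ?_
  · simp only [Prod.fst_add, Prod.smul_fst, smul_eq_mul, mul_zero, add_zero]
    ring
  · simp only [Prod.snd_add, Prod.smul_snd, smul_eq_mul, mul_zero, add_zero, zero_add]
    ring

lemma D2_max_le {x y e : ℝ} (hx : |x| ≤ e) (hy : |y| ≤ e) : |max x 0 - max (-y) 0| ≤ e := by
  have h1 := abs_le.1 hx
  have h2 := abs_le.1 hy
  have he : 0 ≤ e := (abs_nonneg _).trans hx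
  rw [abs_le]
  constructor
  · have := le_max_right x 0
    have h3 : max (-y) 0 ≤ e := max_le (by linarith) he
    linarith
  · have := le_max_right (-y) 0
    have h3 : max x 0 ≤ e := max_le (by linarith) he
    linarith

lemma D2_u_bd (h : D2_Data p R b ρ w g1 g2 B ω r q) {N : ℕ} (c : Fin N × Fin N) :
    len (D2_u b N c) ≤ 2 * B * (1 / N) ^ 2 := by
  have hN : 0 < N := lt_of_le_of_lt (Nat.zero_le _) c.1.2
  have hN' : (0 : ℝ) < 1 / N := by positivity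
  refine (len_le_abs_add_abs _).trans ?_
  have h1 := D2_max_le (D2_f1_bd h c).2 (D2_f1_bd h c).1
  have h2 := D2_max_le (D2_f2_bd h c).2 (D2_f2_bd h c).1
  unfold D2_u
  simp only [abs_mul, abs_of_pos hN']
  have h3 := mul_le_mul_of_nonneg_left h1 hN'.le
  have h4 := mul_le_mul_of_nonneg_left h2 hN'.le
  nlinarith

/-- The drift of a cell is close to the integral of the flux. -/
lemma D2_u_near (h : D2_Data p R b ρ w g1 g2 B ω r q) {N : ℕ} (c : Fin N × Fin N) :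
    len (D2_u b N c) ≤ len (∫ z in D2_Q N c, (b z).1, ∫ z in D2_Q N c, (b z).2) +
      4 * B * (1 / N) ^ 3 := by
  have hN : 0 < N := lt_of_le_of_lt (Nat.zero_le _) c.1.2
  have hN' : (0 : ℝ) < 1 / N := by positivity
  obtain ⟨n1, n2, n3, n4⟩ := D2_near h c
  have d1 := D2_drift hN'.le n2 n1
  have d2 := D2_drift hN'.le n4 n3
  set X : ℝ × ℝ := (∫ z in D2_Q N c, (b z).1, ∫ z in D2_Q N c, (b z).2) with hX
  have h1 : D2_u b N c = X + (D2_u b N c - X) := by abel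
  rw [h1]
  refine (len_add_le _ _).trans ?_
  refine add_le_add le_rfl ?_
  refine (len_le_abs_add_abs _).trans ?_
  have e1 : (D2_u b N c - X).1 = 1 / N * (max (D2_f1 b N (c.1 + 1) c.2) 0 -
      max (-D2_f1 b N c.1 c.2) 0) - ∫ z in D2_Q N c, (b z).1 := rfl
  have e2 : (D2_u b N c - X).2 = 1 / N * (max (D2_f2 b N c.1 (c.2 + 1)) 0 -
      max (-D2_f2 b N c.1 c.2) 0) - ∫ z in D2_Q N c, (b z).2 := rfl
  rw [e1, e2]
  linarith

/-- The energy of the flow. -/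
lemma D2_energy (h : D2_Data p R b ρ w g1 g2 B ω r q) {N : ℕ} (c : Fin N × Fin N) :
    ∑ c', max (D2_Psi N (D2_f1 b N) (D2_f2 b N) c c') 0 *
      len (D2_pos N c' - D2_pos N c) ^ 2 ≤ 4 * B * (1 / N) ^ 3 := by
  have hN : 0 < N := lt_of_le_of_lt (Nat.zero_le _) c.1.2
  have hN' : (0 : ℝ) < 1 / N := by positivity
  rw [D2_expand hN _ _ (fun j hj => (D2_f1_zero h j hj).1) (fun j hj => (D2_f1_zero h j hj).2)
    (fun j hj => (D2_f2_zero h j hj).1) (fun j hj => (D2_f2_zero h j hj).2)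
    (fun ψ v => max ψ 0 * len v ^ 2) (fun v => by simp)]
  simp only [len_sq]
  have hB := D2_B0 h
  have key : ∀ x : ℝ, |x| ≤ B * (1 / N) → max x 0 ≤ B * (1 / N) := fun x hx =>
    max_le ((le_abs_self x).trans hx) (by positivity)
  have k1 := key _ (D2_f1_bd h c).2
  have k2 := key (-D2_f1 b N c.1 c.2) (by rw [abs_neg]; exact (D2_f1_bd h c).1)
  have k3 := key _ (D2_f2_bd h c).2
  have k4 := key (-D2_f2 b N c.1 c.2) (by rw [abs_neg]; exact (D2_f2_bd h c).1)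
  have hs : (0 : ℝ) ≤ (1 / N) ^ 2 := by positivity
  have l1 := mul_le_mul_of_nonneg_right k1 hs
  have l2 := mul_le_mul_of_nonneg_right k2 hs
  have l3 := mul_le_mul_of_nonneg_right k3 hs
  have l4 := mul_le_mul_of_nonneg_right k4 hs
  nlinarith

/-- The positions are in the unit square. -/
lemma D2_pos_dist {N : ℕ} (c c' : Fin N × Fin N) : len (D2_pos N c - D2_pos N c') ≤ 2 := by
  have h1 := D2_Q_sub c (D2_pos_Q c)
  have h2 := D2_Q_sub c' (D2_pos_Q c')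
  refine (len_le_abs_add_abs _).trans ?_
  have e1 : |(D2_pos N c - D2_pos N c').1| ≤ 1 := by
    rw [Prod.fst_sub, abs_le]
    constructor <;> linarith [h1.1.1, h1.1.2, h2.1.1, h2.1.2]
  have e2 : |(D2_pos N c - D2_pos N c').2| ≤ 1 := by
    rw [Prod.snd_sub, abs_le]
    constructor <;> linarith [h1.2.1, h1.2.2, h2.2.1, h2.2.2]
  linarith

/-- The integrand of the action. -/
noncomputable def D2_F (p : ℝ) (b : ℝ × ℝ → ℝ × ℝ) (w : ℝ × ℝ → ℝ) (z : ℝ × ℝ) : ℝ :=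
  len (b z) ^ p * w z ^ (1 - p)

lemma D2_b_bd (h : D2_Data p R b ρ w g1 g2 B ω r q) {z : ℝ × ℝ} (hz : z ∈ Sq0) :
    len (b z) ≤ 2 * B := by
  refine (len_le_abs_add_abs _).trans ?_
  have h1 : |(b z).1| ≤ B := D2_bd h.P1 (x := z.1) (y := z.2) ⟨hz.1.1, hz.1.2.le⟩ hz.2
  have h2 : |(b z).2| ≤ B := D2_bd h.P2 (x := z.2) (y := z.1) ⟨hz.2.1, hz.2.2.le⟩ hz.1
  linarith

lemma D2_Sq0_ae : Sq =ᵐ[(volume : Measure (ℝ × ℝ))] Sq0 := by
  unfold Sq Sq0
  rw [Measure.volume_eq_prod]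
  exact Measure.set_prod_ae_eq Ico_ae_eq_Icc.symm Ico_ae_eq_Icc.symm

lemma D2_F_int (h : D2_Data p R b ρ w g1 g2 B ω r q) : IntegrableOn (D2_F p b w) Sq := by
  have hm : MeasurableSet Sq0 := measurableSet_Ico.prod measurableSet_Ico
  have h0 : IntegrableOn (D2_F p b w) Sq0 := by
    refine Measure.integrableOn_of_bounded (M := (2 * B) ^ p * ω ^ (1 - p)) ?_ ?_ ?_
    · have : (volume : Measure (ℝ × ℝ)) Sq0 = 1 := by
        unfold Sq0
        rw [Measure.volume_eq_prod, Measure.prod_prod]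
        simp
      rw [this]
      simp
    · exact (((measurable_len.comp h.mb).pow_const p).mul
        (h.mw.pow_const (1 - p))).aestronglyMeasurable
    · filter_upwards [ae_restrict_mem hm] with z hz
      obtain ⟨w1, w2, w3⟩ := h.hw z hz
      have hp := h.hp
      have hω := h.hω
      have hl := len_nonneg (b z)
      have hwp : 0 < w z := hω.trans_le w1
      unfold D2_F
      rw [Real.norm_eq_abs, abs_of_nonneg (mul_nonneg (Real.rpow_nonneg hl _)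
        (Real.rpow_nonneg hwp.le _))]
      refine mul_le_mul (Real.rpow_le_rpow hl (D2_b_bd h hz) (by linarith)) ?_
        (Real.rpow_nonneg hwp.le _) (Real.rpow_nonneg (by linarith [D2_B0 h]) _)
      exact Real.rpow_le_rpow_of_nonpos hω w1 (by linarith)
  exact h0.congr_set_ae D2_Sq0_ae

lemma D2_F_nonneg (h : D2_Data p R b ρ w g1 g2 B ω r q) {z : ℝ × ℝ} (hz : z ∈ Sq0) :
    0 ≤ D2_F p b w z := by
  have w1 := (h.hw z hz).1
  have hω := h.hω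
  exact mul_nonneg (Real.rpow_nonneg (len_nonneg _) _) (Real.rpow_nonneg (by linarith) _)

lemma D2_F_sum (h : D2_Data p R b ρ w g1 g2 B ω r q) (N : ℕ) :
    ∑ c : Fin N × Fin N, ∫ z in D2_Q N c, D2_F p b w z ≤ ∫ z, D2_F p b w z ∂U := by
  have hi := D2_F_int h
  have h1 : ∫ z, D2_F p b w z ∂U = ∫ z in Sq0, D2_F p b w z := by
    unfold U
    exact setIntegral_congr_set D2_Sq0_ae
  have hi0 : IntegrableOn (D2_F p b w) Sq0 := hi.congr_set_ae D2_Sq0_ae.symm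
  rw [h1, ← integral_iUnion_fintype (fun c => D2_Q_meas N c)
    (fun c c' hcc => D2_Q_disj hcc) (fun c => hi0.mono_set (D2_Q_sub c))]
  refine setIntegral_mono_set hi0 ?_ (Eventually.of_forall (iUnion_subset fun c =>
    D2_Q_sub c))
  filter_upwards [ae_restrict_mem (measurableSet_Ico.prod measurableSet_Ico)] with z hz
  exact D2_F_nonneg h hz

/-- The contribution of one cell to the action. -/
lemma D2_cell (h : D2_Data p R b ρ w g1 g2 B ω r q) (hk : 0 < k) {δ C₀ : ℝ} (hδ : 0 < δ)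
    (hC₀ : 1 ≤ C₀)
    (hA0 : ∀ a b : ℝ, 0 ≤ a → 0 ≤ b → (a + b) ^ p ≤ (1 + δ) * a ^ p + C₀ * b ^ p)
    (c : Fin (R * k) × Fin (R * k)) :
    len (D2_u b (R * k) c) ^ p * ((1 / ((R * k : ℕ) : ℝ)) ^ 2 * w (D2_pos (R * k) c)) ^ (1 - p) ≤
      (1 + δ) * (∫ z in D2_Q (R * k) c, D2_F p b w z) +
      C₀ * ((4 * B * (1 / ((R * k : ℕ) : ℝ)) ^ 3) ^ p *
        ((1 / ((R * k : ℕ) : ℝ)) ^ 2 * ω) ^ (1 - p)) := by
  have hN : 0 < R * k := Nat.mul_pos h.hR hk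
  have hη : (0 : ℝ) < 1 / ((R * k : ℕ) : ℝ) := by positivity
  set η : ℝ := 1 / ((R * k : ℕ) : ℝ) with hηdef
  have hp := h.hp
  have hω := h.hω
  have hB := D2_B0 h
  obtain ⟨w1, w2, w3⟩ := h.hw _ (D2_Q_sub c (D2_pos_Q c))
  set wc := w (D2_pos (R * k) c) with hwc
  have hwc0 : 0 < wc := hω.trans_le w1
  have hv : 0 < η ^ 2 := by positivity
  set X := len (∫ z in D2_Q (R * k) c, (b z).1, ∫ z in D2_Q (R * k) c, (b z).2) with hX
  have hX0 : 0 ≤ X := len_nonneg _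
  have hY0 : 0 ≤ 4 * B * η ^ 3 := by positivity
  have h1 : len (D2_u b (R * k) c) ^ p ≤ (1 + δ) * X ^ p + C₀ * (4 * B * η ^ 3) ^ p :=
    (Real.rpow_le_rpow (len_nonneg _) (D2_u_near h c) (by linarith)).trans (hA0 _ _ hX0 hY0)
  have hvw : 0 ≤ (η ^ 2 * wc) ^ (1 - p) := Real.rpow_nonneg (by positivity) _
  refine (mul_le_mul_of_nonneg_right h1 hvw).trans ?_
  have h2 : X ^ p ≤ (η ^ 2) ^ (p - 1) * ∫ z in D2_Q (R * k) c, len (b z) ^ p := by
    have := D2_jensen hp b h.mb (D2_Q (R * k) c) (D2_Q_meas _ c)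
      (by rw [D2_Q_vol]; exact hv) (2 * B) (fun z hz => D2_b_bd h (D2_Q_sub c hz))
    rwa [D2_Q_vol] at this
  have h3 : X ^ p * (η ^ 2 * wc) ^ (1 - p) ≤ ∫ z in D2_Q (R * k) c, D2_F p b w z := by
    refine (mul_le_mul_of_nonneg_right h2 hvw).trans (le_of_eq ?_)
    have h4 : ∀ z ∈ D2_Q (R * k) c, D2_F p b w z = len (b z) ^ p * wc ^ (1 - p) := by
      intro z hz
      unfold D2_F
      rw [(D2_const h hk c (D2_Q_sub c hz) (D2_Q_floor c hz)).2]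
    rw [setIntegral_congr_fun (D2_Q_meas _ c) h4, integral_mul_const,
      Real.mul_rpow hv.le hwc0.le]
    have h5 : (η ^ 2) ^ (p - 1) * (η ^ 2) ^ (1 - p) = 1 := by
      rw [← Real.rpow_add hv]
      simp
    calc (η ^ 2) ^ (p - 1) * (∫ z in D2_Q (R * k) c, len (b z) ^ p) *
          ((η ^ 2) ^ (1 - p) * wc ^ (1 - p))
        = ((η ^ 2) ^ (p - 1) * (η ^ 2) ^ (1 - p)) *
          ((∫ z in D2_Q (R * k) c, len (b z) ^ p) * wc ^ (1 - p)) := by ring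
      _ = (∫ z in D2_Q (R * k) c, len (b z) ^ p) * wc ^ (1 - p) := by rw [h5, one_mul]
  have h6 : (η ^ 2 * wc) ^ (1 - p) ≤ (η ^ 2 * ω) ^ (1 - p) :=
    Real.rpow_le_rpow_of_nonpos (by positivity) (mul_le_mul_of_nonneg_left w1 hv.le)
      (by linarith)
  have h7 : 0 ≤ (4 * B * η ^ 3) ^ p := Real.rpow_nonneg hY0 _
  have h8 := mul_le_mul_of_nonneg_left h6 h7
  have h9 : ((1 + δ) * X ^ p + C₀ * (4 * B * η ^ 3) ^ p) * (η ^ 2 * wc) ^ (1 - p) =
      (1 + δ) * (X ^ p * (η ^ 2 * wc) ^ (1 - p)) +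
      C₀ * ((4 * B * η ^ 3) ^ p * (η ^ 2 * wc) ^ (1 - p)) := by ring
  rw [h9]
  exact add_le_add (mul_le_mul_of_nonneg_left h3 (by linarith))
    (mul_le_mul_of_nonneg_left h8 (by linarith))

lemma D2_power {N : ℕ} (hN : 0 < N) (hB : 0 ≤ B) (hω : 0 < ω) :
    (N : ℝ) ^ 2 * ((4 * B * (1 / (N : ℝ)) ^ 3) ^ p * ((1 / (N : ℝ)) ^ 2 * ω) ^ (1 - p)) =
      (4 * B) ^ p * ω ^ (1 - p) * (1 / (N : ℝ)) ^ p := by
  have hη : (0 : ℝ) < 1 / (N : ℝ) := by positivity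
  have hNη : (N : ℝ) ^ 2 * (1 / (N : ℝ)) ^ 2 = 1 := by
    have : (N : ℝ) ≠ 0 := by positivity
    field_simp
  set η : ℝ := 1 / (N : ℝ) with hηdef
  have hv : 0 < η ^ 2 := by positivity
  have e1 : (4 * B * η ^ 3) ^ p = (4 * B) ^ p * (η ^ p * (η ^ 2) ^ p) := by
    rw [← Real.mul_rpow hη.le hv.le, ← Real.mul_rpow (by positivity) (by positivity)]
    congr 1
    ring
  have e2 : (η ^ 2 * ω) ^ (1 - p) = (η ^ 2) ^ (1 - p) * ω ^ (1 - p) :=
    Real.mul_rpow hv.le hω.le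
  have e3 : (η ^ 2) ^ p * (η ^ 2) ^ (1 - p) = η ^ 2 := by
    rw [← Real.rpow_add hv]
    simp
  rw [e1, e2]
  calc (N : ℝ) ^ 2 * ((4 * B) ^ p * (η ^ p * (η ^ 2) ^ p) * ((η ^ 2) ^ (1 - p) * ω ^ (1 - p)))
      = (N : ℝ) ^ 2 * ((η ^ 2) ^ p * (η ^ 2) ^ (1 - p)) *
          ((4 * B) ^ p * ω ^ (1 - p) * η ^ p) := by ring
    _ = (4 * B) ^ p * ω ^ (1 - p) * η ^ p := by rw [e3, hNη, one_mul]

/-- The transport cost at a finite mesh. -/
lemma D2_step (hA5 : StmtA5) (h : D2_Data p R b ρ w g1 g2 B ω r q) (hk : 0 < k)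
    {δ C₀ C₁ A : ℝ} (hδ : 0 < δ) (hC₀ : 1 ≤ C₀)
    (hA0 : ∀ a b : ℝ, 0 ≤ a → 0 ≤ b → (a + b) ^ p ≤ (1 + δ) * a ^ p + C₀ * b ^ p)
    (hC₁ : 0 < C₁) (hA : 0 < A)
    (hD1 : ∀ (ι : Type) [Fintype ι] [DecidableEq ι] (pos : ι → ℝ × ℝ) (m₀ m₁ w : ι → ℝ)
      (Ψ : ι → ι → ℝ) (D A : ℝ), (∀ c c', Ψ c c' = - Ψ c' c) →
      (∀ c, ∑ c', Ψ c c' = m₀ c - m₁ c) →
      (∀ c, 0 < w c ∧ w c ≤ m₀ c ∧ w c ≤ m₁ c) → 0 < D → 0 < A →
      (∀ c c', len (pos c - pos c') ≤ D) →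
      (∀ c, len (∑ c', max (Ψ c c') 0 • (pos c' - pos c)) ≤ D * w c) →
      ∃ π : ι → ι → ℝ, (∀ c c', 0 ≤ π c c') ∧ (∀ c, ∑ c', π c c' = m₀ c) ∧
        (∀ c', ∑ c, π c c' = m₁ c') ∧
        ∑ c, ∑ c', π c c' * len (pos c - pos c') ^ p ≤
          (1 + δ) * ∑ c, len (∑ c', max (Ψ c c') 0 • (pos c' - pos c)) ^ p * w c ^ (1 - p) +
          C₁ * (A ^ p * ∑ c, m₀ c +
            (A ^ (p - 2) + (2 * D) ^ (p - 2)) *
              ∑ c, ∑ c', max (Ψ c c') 0 * len (pos c' - pos c) ^ 2)) :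
    Wpp p (dens ρ) U ≤ ENNReal.ofReal ((1 + δ) * ((1 + δ) * ((1 + δ) * (∫ z, D2_F p b w z ∂U) +
      C₀ * ((4 * B) ^ p * ω ^ (1 - p) * (1 / ((R * k : ℕ) : ℝ)) ^ p)) +
      C₁ * (A ^ p + (A ^ (p - 2) + (2 * (2 + 2 * B / ω)) ^ (p - 2)) *
        (4 * B * (1 / ((R * k : ℕ) : ℝ))))) + C₀ * (2 / ((R * k : ℕ) : ℝ)) ^ p) := by
  have hN : 0 < R * k := Nat.mul_pos h.hR hk
  have hη : (0 : ℝ) < 1 / ((R * k : ℕ) : ℝ) := by positivity
  have hp := h.hp
  have hω := h.hω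
  have hB := D2_B0 h
  set N := R * k with hNdef
  set Ψ := D2_Psi N (D2_f1 b N) (D2_f2 b N) with hΨ
  set m₀ : Fin N × Fin N → ℝ := fun c => (1 / (N : ℝ)) ^ 2 * ρ (D2_pos N c) with hm₀
  set m₁ : Fin N × Fin N → ℝ := fun _ => (1 / (N : ℝ)) ^ 2 with hm₁
  set W : Fin N × Fin N → ℝ := fun c => (1 / (N : ℝ)) ^ 2 * w (D2_pos N c) with hW
  set D : ℝ := 2 + 2 * B / ω with hD
  have hv : 0 < (1 / (N : ℝ)) ^ 2 := by positivity
  have hD0 : 0 < D := by positivity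
  have hcard : (Fintype.card (Fin N × Fin N) : ℝ) = (N : ℝ) ^ 2 := by
    rw [Fintype.card_prod, Fintype.card_fin]
    push_cast
    ring
  have hNv : (N : ℝ) ^ 2 * (1 / (N : ℝ)) ^ 2 = 1 := by
    have : (N : ℝ) ≠ 0 := by positivity
    field_simp
  have anti : ∀ c c', Ψ c c' = - Ψ c' c := fun c c' => D2_Psi_anti _ _ _ c c'
  have net : ∀ c, ∑ c', Ψ c c' = m₀ c - m₁ c := by
    intro c
    rw [hΨ, D2_expand hN _ _ (fun j hj => (D2_f1_zero h j hj).1)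
      (fun j hj => (D2_f1_zero h j hj).2)
      (fun j hj => (D2_f2_zero h j hj).1) (fun j hj => (D2_f2_zero h j hj).2)
      (fun ψ _ => ψ) (fun v => rfl)]
    exact D2_net h hk c
  have wts : ∀ c, 0 < W c ∧ W c ≤ m₀ c ∧ W c ≤ m₁ c := by
    intro c
    obtain ⟨w1, w2, w3⟩ := h.hw _ (D2_Q_sub c (D2_pos_Q c))
    refine ⟨mul_pos hv (by linarith), mul_le_mul_of_nonneg_left w2 hv.le, ?_⟩
    have := mul_le_mul_of_nonneg_left w3 hv.le
    rw [mul_one] at this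
    exact this
  have dist : ∀ c c', len (D2_pos N c - D2_pos N c') ≤ D := by
    intro c c'
    refine (D2_pos_dist c c').trans ?_
    rw [hD]
    have : 0 ≤ 2 * B / ω := by positivity
    linarith
  have drift : ∀ c, len (∑ c', max (Ψ c c') 0 • (D2_pos N c' - D2_pos N c)) ≤ D * W c := by
    intro c
    rw [hΨ, D2_u_eq h c]
    refine (D2_u_bd h c).trans ?_
    obtain ⟨w1, w2, w3⟩ := h.hw _ (D2_Q_sub c (D2_pos_Q c))
    have h1 : 2 * B = 2 * B / ω * ω := by field_simp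
    have h2 : 2 * B / ω * ω ≤ D * w (D2_pos N c) := by
      refine mul_le_mul ?_ w1 hω.le hD0.le
      rw [hD]; linarith
    have h3 := mul_le_mul_of_nonneg_right h2 hv.le
    rw [← h1] at h3
    refine h3.trans (le_of_eq ?_)
    simp only [hW]
    ring
  obtain ⟨π, π0, πm₀, πm₁, πc⟩ := hD1 (Fin N × Fin N) (D2_pos N) m₀ m₁ W Ψ D A anti net wts hD0 hA
    dist drift
  -- total mass
  have mass1 : ∑ c, m₁ c = 1 := by
    simp only [hm₁, Finset.sum_const, nsmul_eq_mul, Finset.card_univ]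
    rw [hcard, hNv]
  have massΨ : ∑ c, ∑ c', Ψ c c' = 0 := by
    have h1 : ∑ c, ∑ c', Ψ c c' = - ∑ c, ∑ c', Ψ c c' := by
      conv_lhs => rw [Finset.sum_comm]
      rw [← Finset.sum_neg_distrib]
      refine Finset.sum_congr rfl fun c _ => ?_
      rw [← Finset.sum_neg_distrib]
      exact Finset.sum_congr rfl fun c' _ => anti c' c
    linarith
  have mass0 : ∑ c, m₀ c = 1 := by
    have h1 : ∑ c, (m₀ c - m₁ c) = 0 := by
      rw [← massΨ]
      exact Finset.sum_congr rfl fun c _ => (net c).symm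
    rw [Finset.sum_sub_distrib, mass1] at h1
    linarith
  -- the action
  have act : ∑ c, len (∑ c', max (Ψ c c') 0 • (D2_pos N c' - D2_pos N c)) ^ p * W c ^ (1 - p) ≤
      (1 + δ) * (∫ z, D2_F p b w z ∂U) +
      C₀ * ((4 * B) ^ p * ω ^ (1 - p) * (1 / (N : ℝ)) ^ p) := by
    have h1 : ∀ c ∈ (Finset.univ : Finset (Fin N × Fin N)),
        len (∑ c', max (Ψ c c') 0 • (D2_pos N c' - D2_pos N c)) ^ p * W c ^ (1 - p) ≤
        (1 + δ) * (∫ z in D2_Q N c, D2_F p b w z) +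
        C₀ * ((4 * B * (1 / (N : ℝ)) ^ 3) ^ p * ((1 / (N : ℝ)) ^ 2 * ω) ^ (1 - p)) := by
      intro c _
      rw [hΨ, D2_u_eq h c]
      exact D2_cell h hk hδ hC₀ hA0 c
    refine (Finset.sum_le_sum h1).trans ?_
    rw [Finset.sum_add_distrib, ← Finset.mul_sum, Finset.sum_const, nsmul_eq_mul,
      Finset.card_univ, hcard, ← D2_power (p := p) hN hB hω]
    have h2 := mul_le_mul_of_nonneg_left (D2_F_sum h N) (by linarith : (0 : ℝ) ≤ 1 + δ)
    linarith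
  have en : ∑ c, ∑ c', max (Ψ c c') 0 * len (D2_pos N c' - D2_pos N c) ^ 2 ≤
      4 * B * (1 / (N : ℝ)) := by
    have h1 : ∀ c ∈ (Finset.univ : Finset (Fin N × Fin N)),
        ∑ c', max (Ψ c c') 0 * len (D2_pos N c' - D2_pos N c) ^ 2 ≤ 4 * B * (1 / (N : ℝ)) ^ 3 :=
      fun c _ => D2_energy h c
    refine (Finset.sum_le_sum h1).trans (le_of_eq ?_)
    rw [Finset.sum_const, nsmul_eq_mul, Finset.card_univ, hcard]
    calc (N : ℝ) ^ 2 * (4 * B * (1 / (N : ℝ)) ^ 3)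
        = (N : ℝ) ^ 2 * (1 / (N : ℝ)) ^ 2 * (4 * B * (1 / (N : ℝ))) := by ring
      _ = _ := by rw [hNv, one_mul]
  have hAD : 0 ≤ A ^ (p - 2) + (2 * D) ^ (p - 2) :=
    add_nonneg (Real.rpow_nonneg hA.le _) (Real.rpow_nonneg (by positivity) _)
  rw [mass0, mul_one] at πc
  have πc2 : ∑ c, ∑ c', π c c' * len (D2_pos N c - D2_pos N c') ^ p ≤
      (1 + δ) * ((1 + δ) * (∫ z, D2_F p b w z ∂U) +
      C₀ * ((4 * B) ^ p * ω ^ (1 - p) * (1 / (N : ℝ)) ^ p)) +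
      C₁ * (A ^ p + (A ^ (p - 2) + (2 * D) ^ (p - 2)) * (4 * B * (1 / (N : ℝ)))) := by
    refine πc.trans (add_le_add (mul_le_mul_of_nonneg_left act (by linarith)) ?_)
    refine mul_le_mul_of_nonneg_left (add_le_add le_rfl ?_) hC₁.le
    exact mul_le_mul_of_nonneg_left en hAD
  -- the coupling of the densities
  have cell : ∀ z ∈ Sq0, ∀ c : Fin N × Fin N,
      (⌊(N : ℝ) * z.1⌋₊, ⌊(N : ℝ) * z.2⌋₊) = ((c.1 : ℕ), (c.2 : ℕ)) →
      ρ z = (N : ℝ) ^ 2 * m₀ c ∧ (1 : ℝ) = (N : ℝ) ^ 2 * m₁ c := by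
    intro z hz c hc
    constructor
    · rw [(D2_const h hk c hz hc).1]
      simp only [hm₀]
      rw [← mul_assoc, hNv, one_mul]
    · exact hNv.symm
  have h5 := hA5 p hp N hN π m₀ m₁ ρ (fun _ => 1) π0 πm₀ πm₁ cell
  have hU : dens (fun _ => 1) = U := by
    unfold dens
    simp only [ENNReal.ofReal_one]
    exact withDensity_one
  rw [hU] at h5
  refine h5.trans (ENNReal.ofReal_le_ofReal ?_)
  have h6 : ∑ c, ∑ c', π c c' *
      (len ((((c.1 : ℕ) : ℝ) + 1 / 2) / N - (((c'.1 : ℕ) : ℝ) + 1 / 2) / N,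
      (((c.2 : ℕ) : ℝ) + 1 / 2) / N - (((c'.2 : ℕ) : ℝ) + 1 / 2) / N) + 2 / N) ^ p ≤
      ∑ c, ∑ c', π c c' * ((1 + δ) * len (D2_pos N c - D2_pos N c') ^ p +
        C₀ * (2 / (N : ℝ)) ^ p) := by
    refine Finset.sum_le_sum fun c _ => Finset.sum_le_sum fun c' _ => ?_
    exact mul_le_mul_of_nonneg_left (hA0 _ _ (len_nonneg _) (by positivity)) (π0 c c')
  refine h6.trans ?_
  have h7 : ∑ c, ∑ c', π c c' * ((1 + δ) * len (D2_pos N c - D2_pos N c') ^ p +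
        C₀ * (2 / (N : ℝ)) ^ p) =
      (1 + δ) * (∑ c, ∑ c', π c c' * len (D2_pos N c - D2_pos N c') ^ p) +
      C₀ * (2 / (N : ℝ)) ^ p := by
    have h8 : ∑ c, ∑ c', π c c' = 1 := by
      rw [← mass0]
      exact Finset.sum_congr rfl fun c _ => πm₀ c
    calc ∑ c, ∑ c', π c c' * ((1 + δ) * len (D2_pos N c - D2_pos N c') ^ p +
          C₀ * (2 / (N : ℝ)) ^ p)
        = ∑ c, ∑ c', ((1 + δ) * (π c c' * len (D2_pos N c - D2_pos N c') ^ p) +
          C₀ * (2 / (N : ℝ)) ^ p * π c c') := by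
          refine Finset.sum_congr rfl fun c _ => Finset.sum_congr rfl fun c' _ => ?_
          ring
      _ = (1 + δ) * (∑ c, ∑ c', π c c' * len (D2_pos N c - D2_pos N c') ^ p) +
          C₀ * (2 / (N : ℝ)) ^ p * ∑ c, ∑ c', π c c' := by
          simp only [Finset.sum_add_distrib, Finset.mul_sum]
      _ = _ := by rw [h8, mul_one]
  rw [h7]
  exact add_le_add (mul_le_mul_of_nonneg_left πc2 (by linarith)) le_rfl

end

/-- D2: transport cost of a flux. -/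
theorem D2 (hA0 : StmtA0) (hA5 : StmtA5) (hD1 : StmtD1) : StmtD2 := by
  intro p hp R hR b ρ w mb _ mw hflux hρ hw hpos
  obtain ⟨g1, g2, B, mg1, mg2, bd1, bd2, prim1, zero1, prim2, zero2, hdiv⟩ := hflux
  obtain ⟨r, hr⟩ := hρ
  obtain ⟨q, hq⟩ := hw
  have hR' : (0 : ℝ) < R := by exact_mod_cast hR
  have hsub : Sq0 ⊆ Sq := prod_mono Ico_subset_Icc_self Ico_subset_Icc_self
  -- a positive lower bound for `w` on the half-open square
  obtain ⟨ω, hω, hωw⟩ : ∃ ω : ℝ, 0 < ω ∧ ∀ z ∈ Sq0, ω ≤ w z := by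
    have hne : (Finset.univ : Finset (Fin R × Fin R)).Nonempty :=
      ⟨(⟨0, hR⟩, ⟨0, hR⟩), Finset.mem_univ _⟩
    obtain ⟨c₀, -, hc₀⟩ := Finset.exists_min_image Finset.univ
      (fun c : Fin R × Fin R => q ((c.1 : ℕ), (c.2 : ℕ))) hne
    have hval : ∀ c : Fin R × Fin R, q ((c.1 : ℕ), (c.2 : ℕ)) = w (D2_pos R c) := by
      intro c
      rw [hq _ (D2_Q_sub c (D2_pos_Q c)), D2_Q_floor c (D2_pos_Q c)]
    refine ⟨q ((c₀.1 : ℕ), (c₀.2 : ℕ)), ?_, ?_⟩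
    · rw [hval]
      exact (hpos _ (hsub (D2_Q_sub c₀ (D2_pos_Q c₀)))).1
    · intro z hz
      have f1 : ⌊(R : ℝ) * z.1⌋₊ < R := by
        rw [Nat.floor_lt (mul_nonneg hR'.le hz.1.1)]
        have := hz.1.2
        nlinarith
      have f2 : ⌊(R : ℝ) * z.2⌋₊ < R := by
        rw [Nat.floor_lt (mul_nonneg hR'.le hz.2.1)]
        have := hz.2.2
        nlinarith
      rw [hq z hz]
      exact hc₀ (⟨_, f1⟩, ⟨_, f2⟩) (Finset.mem_univ _)
  have hdata : D2_Data p R b ρ w g1 g2 B ω r q :=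
    { hp := hp
      hR := hR
      mb := mb
      mw := mw
      P1 := ⟨mg1, mb.fst, bd1, prim1, zero1⟩
      P2 := ⟨mg2.comp measurable_swap, (mb.comp measurable_swap).snd, fun z => bd2 _,
        fun x hx y hy => prim2 y hy x hx, fun y hy => zero2 y hy⟩
      div := hdiv
      cρ := hr
      cw := hq
      hw := fun z hz => ⟨hωw z hz, (hpos z (hsub hz)).2.1, (hpos z (hsub hz)).2.2⟩
      hω := hω }
  set I : ℝ := ∫ z, D2_F p b w z ∂U with hI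
  -- the mesh tends to zero
  have step1 : ∀ δ : ℝ, 0 < δ → ∃ C₁ : ℝ, 0 < C₁ ∧ ∀ A : ℝ, 0 < A →
      Wpp p (dens ρ) U ≤ ENNReal.ofReal ((1 + δ) * ((1 + δ) * ((1 + δ) * I) + C₁ * A ^ p)) := by
    intro δ hδ
    obtain ⟨C₀, hC₀, hA0'⟩ := hA0 p hp δ hδ
    obtain ⟨C₁, hC₁, hD1'⟩ := hD1 p hp δ hδ
    refine ⟨C₁, hC₁, fun A hA => ?_⟩
    set G : ℝ → ℝ := fun η => (1 + δ) * ((1 + δ) * ((1 + δ) * I +
      C₀ * ((4 * B) ^ p * ω ^ (1 - p) * η ^ p)) +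
      C₁ * (A ^ p + (A ^ (p - 2) + (2 * (2 + 2 * B / ω)) ^ (p - 2)) *
        (4 * B * η))) + C₀ * (2 * η) ^ p with hG
    have hGc : Continuous G := by
      have c1 : Continuous fun η : ℝ => η ^ p := Real.continuous_rpow_const (by linarith)
      have c2 : Continuous fun η : ℝ => (2 * η) ^ p := c1.comp (continuous_const.mul continuous_id)
      fun_prop
    have hG0 : G 0 = (1 + δ) * ((1 + δ) * ((1 + δ) * I) + C₁ * A ^ p) := by
      have hp0 : p ≠ 0 := by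
        have : (0 : ℝ) < p := by linarith
        exact this.ne'
      simp only [hG, mul_zero, Real.zero_rpow hp0]
      ring
    have hlim : Tendsto (fun n : ℕ => ((R * (n + 1) : ℕ) : ℝ)⁻¹) atTop (𝓝 0) := by
      refine tendsto_inv_atTop_zero.comp (tendsto_natCast_atTop_atTop.comp ?_)
      refine tendsto_atTop_mono (fun n => ?_) tendsto_id
      simp only [id_eq]
      nlinarith [Nat.succ_le_of_lt hR]
    have hlim2 : Tendsto (fun n : ℕ => ENNReal.ofReal (G (((R * (n + 1) : ℕ) : ℝ)⁻¹))) atTop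
        (𝓝 (ENNReal.ofReal (G 0))) :=
      ((ENNReal.continuous_ofReal.comp hGc).tendsto 0).comp hlim
    rw [← hG0]
    refine ge_of_tendsto' hlim2 fun n => ?_
    have h1 := D2_step hA5 hdata (Nat.succ_pos n) hδ hC₀ hA0' hC₁ hA hD1'
    refine h1.trans (le_of_eq ?_)
    simp only [hG, div_eq_mul_inv, one_mul]
    rfl
  -- `A` tends to zero
  have step2 : ∀ δ : ℝ, 0 < δ →
      Wpp p (dens ρ) U ≤ ENNReal.ofReal ((1 + δ) * ((1 + δ) * ((1 + δ) * I))) := by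
    intro δ hδ
    obtain ⟨C₁, hC₁, h1⟩ := step1 δ hδ
    have hc : Continuous fun A : ℝ =>
        ENNReal.ofReal ((1 + δ) * ((1 + δ) * ((1 + δ) * I) + C₁ * A ^ p)) := by
      have c1 : Continuous fun η : ℝ => η ^ p := Real.continuous_rpow_const (by linarith)
      exact ENNReal.continuous_ofReal.comp (by fun_prop)
    have hlim : Tendsto (fun A : ℝ =>
        ENNReal.ofReal ((1 + δ) * ((1 + δ) * ((1 + δ) * I) + C₁ * A ^ p))) (𝓝[>] 0)
        (𝓝 (ENNReal.ofReal ((1 + δ) * ((1 + δ) * ((1 + δ) * I) + C₁ * 0 ^ p)))) :=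
      (hc.tendsto 0).mono_left nhdsWithin_le_nhds
    rw [Real.zero_rpow (by linarith), mul_zero, add_zero] at hlim
    exact ge_of_tendsto hlim (Filter.eventually_of_mem self_mem_nhdsWithin fun A hA => h1 A hA)
  -- `δ` tends to zero
  have hc : Continuous fun δ : ℝ =>
      ENNReal.ofReal ((1 + δ) * ((1 + δ) * ((1 + δ) * I))) :=
    ENNReal.continuous_ofReal.comp (by fun_prop)
  have hlim : Tendsto (fun δ : ℝ =>
      ENNReal.ofReal ((1 + δ) * ((1 + δ) * ((1 + δ) * I)))) (𝓝[>] 0)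
      (𝓝 (ENNReal.ofReal ((1 + 0) * ((1 + 0) * ((1 + 0) * I))))) :=
    (hc.tendsto 0).mono_left nhdsWithin_le_nhds
  simp only [add_zero, one_mul] at hlim
  exact ge_of_tendsto hlim (Filter.eventually_of_mem self_mem_nhdsWithin fun δ hδ => step2 δ hδ)

end Match2D
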