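import Pool.Agent.Work.MP_884187_pr.Bd.B01

/-!
MP_884187_pr: item D3, the flux of the process.
-/

open MeasureTheory Set Filter Topology

namespace Match2D

theorem D3_qidx_succ (m j : ℕ) {z : ℝ × ℝ} (hz : z ∈ Sq) :
    qidx m (j + 1) z = (m * (qidx m j z).1 + ⌊(m : ℝ) * (loc m j z).1⌋₊,
      m * (qidx m j z).2 + ⌊(m : ℝ) * (loc m j z).2⌋₊) := by
  have h1 := loc_mem_Sq (m := m) (j := j) hz
  have aux : ∀ t u : ℝ, ∀ k : ℕ, 0 ≤ u → (m : ℝ) ^ j * t = k + u →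
      ⌊(m : ℝ) ^ (j + 1) * t⌋₊ = m * k + ⌊(m : ℝ) * u⌋₊ := by
    intro t u k hu h
    have : (m : ℝ) ^ (j + 1) * t = (m : ℝ) * u + ((m * k : ℕ) : ℝ) := by
      push_cast
      rw [pow_succ]
      calc (m : ℝ) ^ j * m * t = m * ((m : ℝ) ^ j * t) := by ring
        _ = _ := by rw [h]; ring
    rw [this, Nat.floor_add_natCast (by positivity), add_comm]
  simp only [qidx, Prod.mk.injEq]
  exact ⟨aux _ _ _ h1.1.1 (by simp [loc]), aux _ _ _ h1.2.1 (by simp [loc])⟩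

theorem D3_digit_lt {m : ℕ} (hm : 0 < m) {u : ℝ × ℝ} (hu : u ∈ Sq0) :
    ⌊(m : ℝ) * u.1⌋₊ < m ∧ ⌊(m : ℝ) * u.2⌋₊ < m := by
  have hm' : (0 : ℝ) < m := by exact_mod_cast hm
  constructor
  · rw [Nat.floor_lt (mul_nonneg hm'.le hu.1.1)]
    have := mul_lt_mul_of_pos_left hu.1.2 hm'
    simpa using this
  · rw [Nat.floor_lt (mul_nonneg hm'.le hu.2.1)]
    have := mul_lt_mul_of_pos_left hu.2.2 hm'
    simpa using this

theorem D3_avg_src {m : ℕ} (hm : 0 < m) {u : ℝ × ℝ} (hu : u ∈ Sq0) :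
    avg (fun d : Dig m => src m d u) = 0 := by
  have hm' : (0 : ℝ) < m := by exact_mod_cast hm
  obtain ⟨h1, h2⟩ := D3_digit_lt hm hu
  have : NeZero m := ⟨hm.ne'⟩
  have e : ∀ d : Dig m, (if (⌊(m : ℝ) * u.1⌋₊, ⌊(m : ℝ) * u.2⌋₊) = ((d.1 : ℕ), (d.2 : ℕ))
      then (m : ℝ) ^ 2 else 0) = if (⟨⌊(m : ℝ) * u.1⌋₊, h1⟩, ⟨⌊(m : ℝ) * u.2⌋₊, h2⟩) = d
      then (m : ℝ) ^ 2 else 0 := by
    intro d
    obtain ⟨⟨d1, hd1⟩, ⟨d2, hd2⟩⟩ := d
    simp
  unfold src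
  rw [avg_sub, avg_const, avg_congr e]
  unfold avg
  rw [Finset.sum_ite_eq, if_pos (Finset.mem_univ _), card_dig, smul_eq_mul]
  push_cast
  field_simp
  ring

theorem D3_inCell_succ {m n : ℕ} (hm : 0 < m) (ω : Seqs m n) (j : ℕ) {z : ℝ × ℝ} (hz : z ∈ Sq) :
    inCell ω (j + 1) (qidx m (j + 1) z) = (inCell ω j (qidx m j z)).filter (fun i =>
      (⌊(m : ℝ) * (loc m j z).1⌋₊, ⌊(m : ℝ) * (loc m j z).2⌋₊) =
        (((ω j i).1 : ℕ), ((ω j i).2 : ℕ))) := by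
  obtain ⟨h1, h2⟩ := D3_digit_lt hm (loc_mem_Sq (m := m) (j := j) hz)
  rw [D3_qidx_succ m j hz]
  generalize ⌊(m : ℝ) * (loc m j z).1⌋₊ = e1 at *
  generalize ⌊(m : ℝ) * (loc m j z).2⌋₊ = e2 at *
  generalize qidx m j z = q
  obtain ⟨k1, k2⟩ := q
  have aux : ∀ a d k e : ℕ, d < m → e < m → m * a + d = m * k + e → a = k ∧ e = d := by
    intro a d k e hd he h
    have ha : (m * a + d) / m = a := by
      rw [Nat.mul_add_div hm, Nat.div_eq_of_lt hd, add_zero]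
    have hk : (m * k + e) / m = k := by
      rw [Nat.mul_add_div hm, Nat.div_eq_of_lt he, add_zero]
    have : a = k := by rw [← ha, h, hk]
    subst this
    exact ⟨rfl, by omega⟩
  ext i
  simp only [inCell, Finset.mem_filter, Finset.mem_univ, true_and, cidx, Prod.mk.injEq]
  constructor
  · rintro ⟨ha, hb⟩
    obtain ⟨a1, a2⟩ := aux _ _ _ _ (ω j i).1.2 h1 ha
    obtain ⟨b1, b2⟩ := aux _ _ _ _ (ω j i).2.2 h2 hb
    exact ⟨Prod.ext a1 b1, a2, b2⟩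
  · rintro ⟨hq, ha, hb⟩
    rw [hq, ha, hb]
    exact ⟨rfl, rfl⟩

theorem D3_sum_src {m n : ℕ} (I : Finset (Fin n)) (δ : Fin n → Dig m) (u : ℝ × ℝ) :
    ∑ i ∈ I, src m (δ i) u = (m : ℝ) ^ 2 * ((I.filter (fun i =>
      (⌊(m : ℝ) * u.1⌋₊, ⌊(m : ℝ) * u.2⌋₊) = (((δ i).1 : ℕ), ((δ i).2 : ℕ)))).card : ℝ)
        - I.card := by
  unfold src
  rw [Finset.sum_sub_distrib, ← Finset.sum_filter]
  simp
  ring

theorem D3_rdens_succ {m n : ℕ} (hm : 0 < m) (ω : Seqs m n) (j : ℕ) {z : ℝ × ℝ} (hz : z ∈ Sq) :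
    (m : ℝ) ^ (2 * j) * ((n : ℝ)⁻¹ * ∑ i ∈ inCell ω j (qidx m j z),
      (src m (ω j i) (loc m j z) - avg (fun d : Dig m => src m d (loc m j z)))) =
      rdens ω (j + 1) (qidx m (j + 1) z) - rdens ω j (qidx m j z) := by
  rw [D3_avg_src hm (loc_mem_Sq hz)]
  simp only [sub_zero]
  rw [D3_sum_src]
  unfold rdens
  rw [D3_inCell_succ hm ω j hz]
  rw [show 2 * (j + 1) = 2 * j + 2 by ring, pow_add]
  ring

theorem D3_coef {m n : ℕ} (hn : 2 ≤ n) (j : ℕ) :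
    Real.sqrt (Real.log n / n) * stp m n j = (m : ℝ) ^ j * (n : ℝ)⁻¹ := by
  have hn1 : (1 : ℝ) < n := by exact_mod_cast (by omega : 1 < n)
  have hn0 : (0 : ℝ) < n := by linarith
  have hl : 0 < Real.log n := Real.log_pos hn1
  unfold stp
  have e : Real.sqrt (Real.log n / n) = Real.sqrt (n * Real.log n) * (n : ℝ)⁻¹ := by
    rw [show Real.log n / n = (n * Real.log n) * ((n : ℝ)⁻¹) ^ 2 by field_simp,
      Real.sqrt_mul (by positivity), Real.sqrt_sq (by positivity)]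
  rw [e]
  have hs : Real.sqrt (n * Real.log n) ≠ 0 := (Real.sqrt_pos.2 (by positivity)).ne'
  field_simp

theorem D3_rhoJ_zero {m n : ℕ} (hn : 0 < n) (ω : Seqs m n) {z : ℝ × ℝ} (hz : z ∈ Sq0) :
    rhoJ ω 0 z = 1 := by
  have h1 : ⌊z.1⌋₊ = 0 := Nat.floor_eq_zero.2 hz.1.2
  have h2 : ⌊z.2⌋₊ = 0 := Nat.floor_eq_zero.2 hz.2.2
  have hn0 : (n : ℝ) ≠ 0 := by exact_mod_cast hn.ne'
  simp [rhoJ, rdens, inCell, qidx, cidx, h1, h2, hn0]

/-- The increment of the process is a sum over the cells of embedded fields (on all of `Sq`). -/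
theorem D3_incr {m n : ℕ} (hn : 2 ≤ n) {Θ : Type}
    (β : Θ → Dig m → ℝ × ℝ → ℝ × ℝ) (ctl : ℕ → Seqs m n → ℕ × ℕ → Θ) (j : ℕ) (ω : Seqs m n)
    (z : ℝ × ℝ) :
    (Real.sqrt (Real.log n / n) * stp m n j) • ∑ i ∈ inCell ω j (qidx m j z),
        (β (ctl j ω (qidx m j z)) (ω j i) (loc m j z) -
          avg (fun d => β (ctl j ω (qidx m j z)) d (loc m j z))) =
      ∑ q ∈ Finset.range (m ^ j) ×ˢ Finset.range (m ^ j), (if qidx m j z = q then
        (m : ℝ) ^ j • ((n : ℝ)⁻¹ • ∑ i ∈ inCell ω j q,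
          (β (ctl j ω q) (ω j i) (loc m j z) - avg (fun d => β (ctl j ω q) d (loc m j z))))
        else 0) := by
  rw [Finset.sum_ite_eq]
  by_cases hq : qidx m j z ∈ Finset.range (m ^ j) ×ˢ Finset.range (m ^ j)
  · rw [if_pos hq, D3_coef hn, mul_smul]
  · rw [if_neg hq]
    have : inCell ω j (qidx m j z) = ∅ := by
      rw [Finset.eq_empty_iff_forall_notMem]
      intro i hi
      simp only [inCell, Finset.mem_filter, Finset.mem_univ, true_and] at hi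
      apply hq
      rw [← hi]
      have := cidx_lt ω j i
      simp only [Finset.mem_product, Finset.mem_range]
      exact this
    rw [this]; simp

theorem D3 : StmtD3 := by
  intro m n inst Θ β ctl hm hn hflux J ω
  have hm0 : 0 < m := by omega
  induction J with
  | zero =>
    refine IsFlux.zero.congr (fun z _ => ?_) (fun z hz => ?_)
    · simp [proc]
    · rw [D3_rhoJ_zero (by omega) ω hz]; ring
  | succ j ih =>
    have hq : ∀ q : ℕ × ℕ, IsFlux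
        (fun u => (n : ℝ)⁻¹ • ∑ i ∈ inCell ω j q,
          (β (ctl j ω q) (ω j i) u - avg (fun d => β (ctl j ω q) d u)))
        (fun u => (n : ℝ)⁻¹ * ∑ i ∈ inCell ω j q,
          (src m (ω j i) u - avg (fun d : Dig m => src m d u))) := fun q =>
      (IsFlux.sum _ (fun i _ => (hflux (ctl j ω q) (ω j i)).sub
        (IsFlux.avg (fun d => hflux (ctl j ω q) d)))).smul _
    have hsum := IsFlux.sum (Finset.range (m ^ j) ×ˢ Finset.range (m ^ j))
      (fun q _ => (hq q).cell hm0 j q)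
    refine (ih.add hsum).congr (fun z _ => ?_) (fun z hz => ?_)
    · rw [proc, smul_add, smul_smul, D3_incr hn]
    · rw [Finset.sum_ite_eq, if_pos]
      · have := D3_rdens_succ hm0 ω j (n := n) (Sq0_subset_Sq hz)
        rw [this]
        simp only [rhoJ]
        ring
      · have := qidx_lt hm0 j hz
        simp only [Finset.mem_product, Finset.mem_range]
        exact this

end Match2D
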