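import Pool.Agent.Work.MP_884187_pr.KerDefs

/-!
MP_884187_pr, item E0: integration of a function of a quadratic form of determinant one.
-/

open MeasureTheory Set Filter Topology

namespace Match2D

/-- The linear map of determinant one which carries the quadratic form to the square of the
length. -/
noncomputable def E0_L (M : SymM) : (ℝ × ℝ) →ₗ[ℝ] (ℝ × ℝ) :=
  Matrix.toLin (Module.Basis.finTwoProd ℝ) (Module.Basis.finTwoProd ℝ)
    !![Real.sqrt M.a, M.b / Real.sqrt M.a; 0, 1 / Real.sqrt M.a]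

theorem E0_L_apply (M : SymM) (z : ℝ × ℝ) :
    E0_L M z = (Real.sqrt M.a * z.1 + M.b / Real.sqrt M.a * z.2, 0 * z.1 +
      1 / Real.sqrt M.a * z.2) := by
  unfold E0_L
  exact Matrix.toLin_finTwoProd_apply _ _ _ _ _

theorem E0_det (M : SymM) (ha : 0 < M.a) : LinearMap.det (E0_L M) = 1 := by
  unfold E0_L
  rw [LinearMap.det_toLin, Matrix.det_fin_two_of]
  have h : Real.sqrt M.a ≠ 0 := (Real.sqrt_pos.2 ha).ne'
  field_simp
  ring

theorem E0_qf (M : SymM) (ha : 0 < M.a) (hd : M.det = 1) (z : ℝ × ℝ) :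
    M.qf z = (E0_L M z).1 ^ 2 + (E0_L M z).2 ^ 2 := by
  rw [E0_L_apply]
  have h : Real.sqrt M.a ≠ 0 := (Real.sqrt_pos.2 ha).ne'
  have h2 : Real.sqrt M.a ^ 2 = M.a := Real.sq_sqrt ha.le
  have hd' : M.a * M.c - M.b ^ 2 = 1 := hd
  simp only [SymM.qf]
  have hc : M.c = (1 + M.b ^ 2) / Real.sqrt M.a ^ 2 := by
    rw [h2, eq_div_iff ha.ne']
    linarith
  have hq : M.a = Real.sqrt M.a ^ 2 := h2.symm
  rw [hc]
  nth_rewrite 1 [hq]
  field_simp
  ring

theorem E0_map (M : SymM) (ha : 0 < M.a) :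
    (volume : Measure (ℝ × ℝ)).map (E0_L M) = volume := by
  have h := Measure.map_linearMap_addHaar_eq_smul_addHaar (volume : Measure (ℝ × ℝ))
    (f := E0_L M) (by rw [E0_det M ha]; exact one_ne_zero)
  rw [h, E0_det M ha]
  simp

theorem E0_polar (f : ℝ → ENNReal) (hf : Measurable f) :
    ∫⁻ z : ℝ × ℝ, f (z.1 ^ 2 + z.2 ^ 2) = ENNReal.ofReal Real.pi * ∫⁻ w in Ioi (0 : ℝ), f w := by
  rw [← lintegral_comp_polarCoord_symm]
  have h1 : ∀ p : ℝ × ℝ, ENNReal.ofReal p.1 • f ((polarCoord.symm p).1 ^ 2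
      + (polarCoord.symm p).2 ^ 2) = ENNReal.ofReal p.1 * f (p.1 ^ 2) := by
    intro p
    rw [polarCoord_symm_apply, smul_eq_mul]
    congr 2
    have := Real.cos_sq_add_sin_sq p.2
    calc (p.1 * Real.cos p.2) ^ 2 + (p.1 * Real.sin p.2) ^ 2
        = p.1 ^ 2 * (Real.cos p.2 ^ 2 + Real.sin p.2 ^ 2) := by ring
      _ = p.1 ^ 2 := by rw [this, mul_one]
  simp_rw [h1]
  have ht : polarCoord.target = Ioi (0 : ℝ) ×ˢ Ioo (-Real.pi) Real.pi := rfl
  rw [ht]
  have hm : Measurable (fun p : ℝ × ℝ => ENNReal.ofReal p.1 * f (p.1 ^ 2)) := by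
    fun_prop
  rw [Measure.volume_eq_prod, ← Measure.prod_restrict, lintegral_prod _ hm.aemeasurable]
  simp only [lintegral_const, Measure.restrict_apply MeasurableSet.univ, univ_inter,
    Real.volume_Ioo]
  have himg : (fun r : ℝ => r ^ 2) '' Ioi (0 : ℝ) = Ioi 0 := by
    ext w
    constructor
    · rintro ⟨r, hr, rfl⟩
      have hr' : (0 : ℝ) < r := hr
      exact mem_Ioi.2 (by positivity)
    · intro hw
      exact ⟨Real.sqrt w, Real.sqrt_pos.2 hw, Real.sq_sqrt (le_of_lt hw)⟩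
  have hsub := lintegral_image_eq_lintegral_abs_deriv_mul (s := Ioi (0 : ℝ))
    (f := fun r : ℝ => r ^ 2) (f' := fun r => 2 * r) measurableSet_Ioi
    (fun x _ => by simpa using (hasDerivAt_pow 2 x).hasDerivWithinAt)
    (by
      intro x hx y hy hxy
      have h0 : (0 : ℝ) ≤ x := le_of_lt hx
      have h1 : (0 : ℝ) ≤ y := le_of_lt hy
      exact (pow_left_inj₀ h0 h1 two_ne_zero).1 hxy) f
  rw [himg] at hsub
  rw [hsub, ← lintegral_const_mul _ (by fun_prop)]
  refine setLIntegral_congr_fun measurableSet_Ioi (fun r hr => ?_)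
  have hr' : (0 : ℝ) < r := hr
  have e1 : |2 * r| = 2 * r := abs_of_pos (by positivity)
  simp only [e1]
  rw [sub_neg_eq_add, ← two_mul, mul_comm (ENNReal.ofReal r * f (r ^ 2)), ← mul_assoc, ← mul_assoc,
    ← ENNReal.ofReal_mul (by positivity), ← ENNReal.ofReal_mul (by positivity)]
  congr 2
  ring

/-- Item E0. -/
theorem E0 : StmtE0 := by
  intro M ha hd f hf
  have h1 : ∀ z : ℝ × ℝ, f (M.qf z) = (fun u : ℝ × ℝ => f (u.1 ^ 2 + u.2 ^ 2)) (E0_L M z) := by
    intro z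
    rw [E0_qf M ha hd z]
  simp_rw [h1]
  have hL : Measurable (E0_L M) := (LinearMap.continuous_of_finiteDimensional _).measurable
  have hm : Measurable (fun u : ℝ × ℝ => f (u.1 ^ 2 + u.2 ^ 2)) := by fun_prop
  rw [← lintegral_map hm hL, E0_map M ha]
  exact E0_polar f hf

end Match2D
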