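import Pool.Agent.Work.MP_884187_pr.KerDefs

/-!
MP_884187_pr, item E1: the radial kernels are fluxes.
-/

open MeasureTheory Set Filter Topology

namespace Match2D

/-- The scalar profile of the kernel. -/
noncomputable def E1_h (r A w : ℝ) : ℝ := 1 / (2 * Real.pi) * (kk r w - kk A w)

/-- Its derivative. -/
noncomputable def E1_dh (r A w : ℝ) : ℝ :=
  1 / (2 * Real.pi) * (-(1 / (max w (r ^ 2)) ^ 2) - -(1 / (max w (A ^ 2)) ^ 2))

lemma E1_kk_deriv {r : ℝ} (hr : 0 < r) (w : ℝ) :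
    HasDerivAt (kk r) (-(1 / (max w (r ^ 2)) ^ 2)) w := by
  have hr2 : 0 < r ^ 2 := by positivity
  have hlin : ∀ w : ℝ, HasDerivAt (fun w : ℝ => (2 * r ^ 2 - w) / r ^ 4) (-(1 / (r ^ 2) ^ 2)) w := by
    intro w
    have h1 : HasDerivAt (fun w : ℝ => (2 * r ^ 2 - w) / r ^ 4) ((0 - 1) / r ^ 4) w :=
      (((hasDerivAt_const w (2 * r ^ 2)).sub (hasDerivAt_id w))).div_const _
    convert h1 using 1
    field_simp
    ring
  have hinv : ∀ w : ℝ, 0 < w → HasDerivAt (fun w : ℝ => 1 / w) (-(1 / w ^ 2)) w := by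
    intro w hw
    have h1 := hasDerivAt_inv hw.ne'
    have h2 : (fun w : ℝ => 1 / w) = fun w : ℝ => w⁻¹ := by
      funext w; simp
    rw [h2, one_div]
    exact h1
  rcases lt_trichotomy w (r ^ 2) with h | h | h
  · rw [max_eq_right h.le]
    refine (hlin w).congr_of_eventuallyEq ?_
    filter_upwards [Iio_mem_nhds h] with v hv
    simp only [kk]
    rw [if_neg (not_le.mpr hv)]
  · subst h
    rw [max_self]
    have hl : HasDerivWithinAt (kk r) (-(1 / (r ^ 2) ^ 2)) (Iic (r ^ 2)) (r ^ 2) := by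
      refine ((hlin (r ^ 2)).hasDerivWithinAt).congr ?_ ?_
      · intro v hv
        rcases eq_or_lt_of_le (mem_Iic.mp hv) with h | h
        · subst h
          simp only [kk, le_refl, if_true]
          field_simp
          ring
        · simp only [kk]
          rw [if_neg (not_le.mpr h)]
      · simp only [kk, le_refl, if_true]
        field_simp
        ring
    have hg : HasDerivWithinAt (kk r) (-(1 / (r ^ 2) ^ 2)) (Ici (r ^ 2)) (r ^ 2) := by
      refine ((hinv (r ^ 2) hr2).hasDerivWithinAt).congr ?_ ?_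
      · intro v hv
        simp only [kk]
        rw [if_pos (mem_Ici.mp hv)]
      · simp only [kk, le_refl, if_true]
    have := hl.union hg
    rwa [Iic_union_Ici, hasDerivWithinAt_univ] at this
  · rw [max_eq_left h.le]
    refine (hinv w (hr2.trans h)).congr_of_eventuallyEq ?_
    filter_upwards [Ioi_mem_nhds h] with v hv
    simp only [kk]
    rw [if_pos (le_of_lt hv)]

lemma E1_h_deriv {r A : ℝ} (hr : 0 < r) (hA : 0 < A) (w : ℝ) :
    HasDerivAt (E1_h r A) (E1_dh r A w) w :=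
  ((E1_kk_deriv hr w).sub (E1_kk_deriv hA w)).const_mul _

lemma E1_h_cont {r A : ℝ} (hr : 0 < r) (hA : 0 < A) : Continuous (E1_h r A) :=
  continuous_iff_continuousAt.mpr fun w => (E1_h_deriv hr hA w).continuousAt

lemma E1_dh_cont {r A : ℝ} (hr : 0 < r) (hA : 0 < A) : Continuous (E1_dh r A) := by
  unfold E1_dh
  have h1 : ∀ r : ℝ, 0 < r → Continuous fun w : ℝ => 1 / (max w (r ^ 2)) ^ 2 := by
    intro r hr
    refine continuous_const.div (by fun_prop) ?_
    intro w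
    have : 0 < max w (r ^ 2) := lt_max_of_lt_right (by positivity)
    positivity
  exact continuous_const.mul ((h1 r hr).neg.sub (h1 A hA).neg)

lemma E1_h_zero {r A w : ℝ} (hr : 0 < r) (hA : r < A) (hw : A ^ 2 ≤ w) : E1_h r A w = 0 := by
  have h1 : r ^ 2 ≤ w := le_trans (by nlinarith) hw
  simp only [E1_h, kk, if_pos hw, if_pos h1, sub_self, mul_zero]

lemma E1_dh_zero {r A w : ℝ} (hr : 0 < r) (hA : r < A) (hw : A ^ 2 ≤ w) : E1_dh r A w = 0 := by
  have h1 : r ^ 2 ≤ w := le_trans (by nlinarith) hw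
  simp only [E1_dh, max_eq_left hw, max_eq_left h1, sub_self, mul_zero]

/-- The quadratic form. -/
def E1_Q (a b c u v : ℝ) : ℝ := a * u ^ 2 + 2 * b * u * v + c * v ^ 2

/-- The partial derivative of `u ↦ h(Q u v) u`. -/
noncomputable def E1_G (r A a b c u v : ℝ) : ℝ :=
  E1_dh r A (E1_Q a b c u v) * (2 * a * u + 2 * b * v) * u + E1_h r A (E1_Q a b c u v)

lemma E1_G_deriv {r A : ℝ} (hr : 0 < r) (hA : 0 < A) (a b c u v : ℝ) :
    HasDerivAt (fun u => E1_h r A (E1_Q a b c u v) * u) (E1_G r A a b c u v) u := by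
  have h0 : HasDerivAt (fun u => E1_Q a b c u v) (2 * a * u + 2 * b * v) u := by
    have h1 : HasDerivAt (fun u : ℝ => a * u ^ 2 + 2 * b * u * v + c * v ^ 2)
        (a * ((2 : ℕ) * u ^ (2 - 1)) + 2 * b * 1 * v + 0) u :=
      (((hasDerivAt_pow 2 u).const_mul a).add
        (((hasDerivAt_id u).const_mul (2 * b)).mul_const v)).add (hasDerivAt_const u _)
    refine h1.congr_deriv ?_
    norm_num
    ring
  have h2 := (E1_h_deriv hr hA (E1_Q a b c u v)).comp u h0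
  have h3 := h2.mul (hasDerivAt_id u)
  refine h3.congr_deriv ?_
  simp only [E1_G, Function.comp, id, mul_one]

lemma E1_G_cont {r A : ℝ} (hr : 0 < r) (hA : 0 < A) (a b c : ℝ) :
    Continuous (fun z : ℝ × ℝ => E1_G r A a b c z.1 z.2) := by
  have hQ : Continuous (fun z : ℝ × ℝ => E1_Q a b c z.1 z.2) := by
    unfold E1_Q; fun_prop
  have h1 := (E1_dh_cont hr hA).comp hQ
  have h2 := (E1_h_cont hr hA).comp hQ
  unfold E1_G
  exact ((h1.mul (by fun_prop)).mul (by fun_prop)).add h2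

lemma E1_G_zero {r A a b c u v : ℝ} (hr : 0 < r) (hA : r < A) (h : A ^ 2 ≤ E1_Q a b c u v) :
    E1_G r A a b c u v = 0 := by
  simp only [E1_G, E1_h_zero hr hA h, E1_dh_zero hr hA h, zero_mul, add_zero]

lemma E1_div_aux {r : ℝ} (hr : 0 < r) (q : ℝ) :
    1 / Real.pi * (kk r q + q * (-(1 / (max q (r ^ 2)) ^ 2))) =
      2 / (Real.pi * r ^ 2) * max (1 - q / r ^ 2) 0 := by
  have hr2 : 0 < r ^ 2 := by positivity
  have hpi := Real.pi_pos
  rcases le_or_gt (r ^ 2) q with h | h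
  · have hq : 0 < q := hr2.trans_le h
    rw [max_eq_left h, max_eq_right (by rw [sub_nonpos, le_div_iff₀ hr2]; linarith)]
    simp only [kk, if_pos h]
    field_simp
    ring
  · rw [max_eq_right h.le, max_eq_left (by rw [sub_nonneg, div_le_iff₀ hr2]; linarith)]
    simp only [kk, if_neg (not_le.mpr h)]
    field_simp
    ring

lemma E1_Q_swap (a b c u v : ℝ) : E1_Q c b a v u = E1_Q a b c u v := by
  simp only [E1_Q]; ring

lemma E1_div {r A : ℝ} (hr : 0 < r) (hA : 0 < A) (M : SymM) (z : ℝ × ℝ) :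
    E1_G r A M.a M.b M.c z.1 z.2 + E1_G r A M.c M.b M.a z.2 z.1 = th M r z - th M A z := by
  have hq : M.qf z = E1_Q M.a M.b M.c z.1 z.2 := rfl
  have e1 := E1_div_aux hr (M.qf z)
  have e2 := E1_div_aux hA (M.qf z)
  simp only [th]
  rw [← e1, ← e2]
  simp only [E1_G, E1_Q_swap M.a M.b M.c z.1 z.2, ← hq, E1_h, E1_dh]
  have hpi := Real.pi_pos.ne'
  have key : (2 * M.a * z.1 + 2 * M.b * z.2) * z.1 + (2 * M.c * z.2 + 2 * M.b * z.1) * z.2 =
      2 * M.qf z := by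
    simp only [SymM.qf]; ring
  set q := M.qf z
  set D := -(1 / (max q (r ^ 2)) ^ 2) - -(1 / (max q (A ^ 2)) ^ 2) with hD
  have : 1 / (2 * Real.pi) * D * (2 * M.a * z.1 + 2 * M.b * z.2) * z.1 +
      1 / (2 * Real.pi) * (kk r q - kk A q) +
      (1 / (2 * Real.pi) * D * (2 * M.c * z.2 + 2 * M.b * z.1) * z.2 +
      1 / (2 * Real.pi) * (kk r q - kk A q)) =
      1 / (2 * Real.pi) * D * ((2 * M.a * z.1 + 2 * M.b * z.2) * z.1 +
        (2 * M.c * z.2 + 2 * M.b * z.1) * z.2) + 1 / Real.pi * (kk r q - kk A q) := by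
    field_simp
    ring
  rw [this, key, hD]
  field_simp
  ring

/-- Fundamental theorem of calculus for a function vanishing at `0`. -/
lemma E1_ftc {f g : ℝ → ℝ} (x : ℝ) (hd : ∀ s, HasDerivAt f (g s) s) (hg : Continuous g)
    (h0 : f 0 = 0) : f x = ∫ s in (0 : ℝ)..x, g s := by
  rw [intervalIntegral.integral_eq_sub_of_hasDerivAt (fun s _ => hd s)
    (hg.intervalIntegrable _ _), h0, sub_zero]

lemma E1_Kf_fst (M : SymM) (r A : ℝ) (z : ℝ × ℝ) :
    (Kf M r A z).1 = E1_h r A (E1_Q M.a M.b M.c z.1 z.2) * z.1 := rfl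

lemma E1_Kf_snd (M : SymM) (r A : ℝ) (z : ℝ × ℝ) :
    (Kf M r A z).2 = E1_h r A (E1_Q M.c M.b M.a z.2 z.1) * z.2 := by
  rw [E1_Q_swap]; rfl

lemma E1_len_lt {A : ℝ} (hA : 0 < A) (z : ℝ × ℝ) : len z < A ↔ oneM.qf z < A ^ 2 := by
  unfold len
  rw [Real.sqrt_lt' hA]
  simp [oneM, SymM.qf]

/-- A continuous function which vanishes off the unit square is bounded. -/
lemma E1_bdd {g : ℝ × ℝ → ℝ} (hg : Continuous g) : ∃ B : ℝ, 0 ≤ B ∧ ∀ z ∈ Sq, |g z| ≤ B := by
  have hc : IsCompact Sq := isCompact_Icc.prod isCompact_Icc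
  obtain ⟨B, hB⟩ := hc.exists_bound_of_continuousOn hg.continuousOn
  refine ⟨max B 0, le_max_right _ _, fun z hz => ?_⟩
  exact (hB z hz).trans (le_max_left _ _)

/-- Assembly of a flux. -/
lemma E1_asm {b : ℝ × ℝ → ℝ × ℝ} {f g1 g2 : ℝ × ℝ → ℝ} (B : ℝ) (hm1 : Measurable g1)
    (hm2 : Measurable g2) (hB1 : ∀ z, |g1 z| ≤ B) (hB2 : ∀ z, |g2 z| ≤ B)
    (h1 : ∀ x y, 0 ≤ x → (b (x, y)).1 - (b (0, y)).1 = ∫ s in (0 : ℝ)..x, g1 (s, y))
    (h2 : ∀ x y, 0 ≤ y → (b (x, y)).2 - (b (x, 0)).2 = ∫ s in (0 : ℝ)..y, g2 (x, s))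
    (hx0 : ∀ y, (b (0, y)).1 = 0) (hx1 : ∀ y, (b (1, y)).1 = 0)
    (hy0 : ∀ x, (b (x, 0)).2 = 0) (hy1 : ∀ x, (b (x, 1)).2 = 0)
    (hs : ∀ z, g1 z + g2 z = f z) : IsFlux b f := by
  refine ⟨g1, g2, B, hm1, hm2, hB1, hB2, ?_, ?_, ?_, ?_, fun z _ => hs z⟩
  · intro x hx y _
    rw [← h1 x y hx.1, hx0, sub_zero]
  · intro y _
    rw [← h1 1 y zero_le_one, hx0, hx1, sub_zero]
  · intro x _ y hy
    rw [← h2 x y hy.1, hy0, sub_zero]
  · intro x _
    rw [← h2 x 1 zero_le_one, hy0, hy1, sub_zero]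

/-- If `P` holds at `t` and is open there on the side `σ`, it holds at some point beyond. -/
lemma E1_push {P : ℝ → Prop} (t σ : ℝ)
    (hopen : P t → ∀ᶠ ε in 𝓝[>] (0 : ℝ), P (t + σ * ε))
    (hno : ∀ ε, 0 < ε → ¬ P (t + σ * ε)) : ¬ P t := by
  intro h
  obtain ⟨ε, h1, h2⟩ := ((hopen h).and (self_mem_nhdsWithin)).exists
  exact hno ε h2 h1

lemma E1_push_cont {k : ℝ → ℝ} (hk : Continuous k) (t σ K : ℝ) (h : k t < K) :
    ∀ᶠ ε in 𝓝[>] (0 : ℝ), k (t + σ * ε) < K := by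
  have h1 : Continuous fun ε : ℝ => k (t + σ * ε) := hk.comp (by fun_prop)
  have h2 : ∀ᶠ ε in 𝓝 (0 : ℝ), k (t + σ * ε) < K := by
    refine h1.continuousAt.eventually_lt continuousAt_const ?_
    simpa using h
  exact nhdsWithin_le_nhds h2

/-- Boundary points of the square, the four sides. -/
lemma E1_sides {R : ℝ × ℝ → Prop} (hR : ∀ z, R z → z ∈ Sq)
    (hx0 : ∀ y, R (0, y) → ∀ᶠ ε in 𝓝[>] (0 : ℝ), R (0 + (-1) * ε, y))
    (hx1 : ∀ y, R (1, y) → ∀ᶠ ε in 𝓝[>] (0 : ℝ), R (1 + 1 * ε, y))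
    (hy0 : ∀ x, R (x, 0) → ∀ᶠ ε in 𝓝[>] (0 : ℝ), R (x, 0 + (-1) * ε))
    (hy1 : ∀ x, R (x, 1) → ∀ᶠ ε in 𝓝[>] (0 : ℝ), R (x, 1 + 1 * ε)) :
    (∀ y, ¬ R (0, y)) ∧ (∀ y, ¬ R (1, y)) ∧ (∀ x, ¬ R (x, 0)) ∧ (∀ x, ¬ R (x, 1)) := by
  refine ⟨fun y => ?_, fun y => ?_, fun x => ?_, fun x => ?_⟩
  · refine E1_push (P := fun t => R (t, y)) 0 (-1) (hx0 y) ?_
    intro ε hε h
    have h1 := (hR _ h).1.1
    simp only at h1
    linarith
  · refine E1_push (P := fun t => R (t, y)) 1 1 (hx1 y) ?_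
    intro ε hε h
    have h1 := (hR _ h).1.2
    simp only at h1
    linarith
  · refine E1_push (P := fun t => R (x, t)) 0 (-1) (hy0 x) ?_
    intro ε hε h
    have h1 := (hR _ h).2.1
    simp only at h1
    linarith
  · refine E1_push (P := fun t => R (x, t)) 1 1 (hy1 x) ?_
    intro ε hε h
    have h1 := (hR _ h).2.2
    simp only at h1
    linarith

lemma E1_d1 {r A : ℝ} (hr : 0 < r) (hA : 0 < A) (M : SymM) (y₀ : ℝ × ℝ) (y s : ℝ) :
    HasDerivAt (fun s => (Kf M r A ((s, y) - y₀)).1)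
      (E1_G r A M.a M.b M.c (s - y₀.1) (y - y₀.2)) s := by
  have h1 := E1_G_deriv hr hA M.a M.b M.c (s - y₀.1) (y - y₀.2)
  have h2 := h1.comp s ((hasDerivAt_id s).sub_const y₀.1)
  rw [mul_one] at h2
  exact h2

lemma E1_d2 {r A : ℝ} (hr : 0 < r) (hA : 0 < A) (M : SymM) (y₀ : ℝ × ℝ) (x s : ℝ) :
    HasDerivAt (fun s => (Kf M r A ((x, s) - y₀)).2)
      (E1_G r A M.c M.b M.a (s - y₀.2) (x - y₀.1)) s := by
  have h1 := E1_G_deriv hr hA M.c M.b M.a (s - y₀.2) (x - y₀.1)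
  have h2 := h1.comp s ((hasDerivAt_id s).sub_const y₀.2)
  rw [mul_one] at h2
  have h3 : (fun s => (Kf M r A ((x, s) - y₀)).2) = fun s =>
      E1_h r A (E1_Q M.c M.b M.a (s - y₀.2) (x - y₀.1)) * (s - y₀.2) := by
    funext s
    rw [E1_Kf_snd]
    rfl
  rw [h3]
  exact h2

lemma E1_c1 {r A : ℝ} (hr : 0 < r) (hA : 0 < A) (M : SymM) (y₀ : ℝ × ℝ) :
    Continuous (fun z : ℝ × ℝ => E1_G r A M.a M.b M.c (z.1 - y₀.1) (z.2 - y₀.2)) := by
  have h := E1_G_cont hr hA M.a M.b M.c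
  have h2 : Continuous fun z : ℝ × ℝ => (z.1 - y₀.1, z.2 - y₀.2) := by fun_prop
  have h3 := h.comp h2
  simpa only [Function.comp_def] using h3

lemma E1_c2 {r A : ℝ} (hr : 0 < r) (hA : 0 < A) (M : SymM) (y₀ : ℝ × ℝ) :
    Continuous (fun z : ℝ × ℝ => E1_G r A M.c M.b M.a (z.2 - y₀.2) (z.1 - y₀.1)) := by
  have h := E1_G_cont hr hA M.c M.b M.a
  have h2 : Continuous fun z : ℝ × ℝ => (z.2 - y₀.2, z.1 - y₀.1) := by fun_prop
  have h3 := h.comp h2
  simpa only [Function.comp_def] using h3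

lemma E1_c1s {r A : ℝ} (hr : 0 < r) (hA : 0 < A) (M : SymM) (y₀ : ℝ × ℝ) (y : ℝ) :
    Continuous (fun t : ℝ => 4 * E1_G r A M.a M.b M.c (t - y₀.1) (y - y₀.2)) := by
  have h := E1_c1 hr hA M y₀
  have h2 : Continuous fun t : ℝ => (t, y) := by fun_prop
  have h3 := h.comp h2
  simp only [Function.comp_def] at h3
  exact continuous_const.mul h3

lemma E1_c2s {r A : ℝ} (hr : 0 < r) (hA : 0 < A) (M : SymM) (y₀ : ℝ × ℝ) (x : ℝ) :
    Continuous (fun t : ℝ => 4 * E1_G r A M.c M.b M.a (t - y₀.2) (x - y₀.1)) := by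
  have h := E1_c2 hr hA M y₀
  have h2 : Continuous fun t : ℝ => (x, t) := by fun_prop
  have h3 := h.comp h2
  simp only [Function.comp_def] at h3
  exact continuous_const.mul h3

theorem E1_plane (M : SymM) (r A : ℝ) (y₀ : ℝ × ℝ) (hr : 0 < r) (hrA : r < A)
    (hsub : ∀ z, M.qf (z - y₀) < A ^ 2 → z ∈ Sq) :
    IsFlux (fun z => Kf M r A (z - y₀)) (fun z => th M r (z - y₀) - th M A (z - y₀)) := by
  have hA : 0 < A := hr.trans hrA
  obtain ⟨B1, hB1, hb1⟩ := E1_bdd (E1_c1 hr hA M y₀)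
  obtain ⟨B2, hB2, hb2⟩ := E1_bdd (E1_c2 hr hA M y₀)
  have hout : ∀ z, z ∉ Sq → A ^ 2 ≤ M.qf (z - y₀) := by
    intro z hz
    by_contra h
    exact hz (hsub z (not_le.mp h))
  have hqc : Continuous (fun z : ℝ × ℝ => M.qf (z - y₀)) := by
    unfold SymM.qf; fun_prop
  obtain ⟨s1, s2, s3, s4⟩ := E1_sides (R := fun z => M.qf (z - y₀) < A ^ 2) hsub
    (fun y h => E1_push_cont (k := fun t => M.qf ((t, y) - y₀)) (hqc.comp (by fun_prop)) 0 (-1) _ h)
    (fun y h => E1_push_cont (k := fun t => M.qf ((t, y) - y₀)) (hqc.comp (by fun_prop)) 1 1 _ h)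
    (fun x h => E1_push_cont (k := fun t => M.qf ((x, t) - y₀)) (hqc.comp (by fun_prop)) 0 (-1) _ h)
    (fun x h => E1_push_cont (k := fun t => M.qf ((x, t) - y₀)) (hqc.comp (by fun_prop)) 1 1 _ h)
  have hz1 : ∀ z, ¬ M.qf (z - y₀) < A ^ 2 → (Kf M r A (z - y₀)).1 = 0 := by
    intro z hz
    have h0 : A ^ 2 ≤ E1_Q M.a M.b M.c (z - y₀).1 (z - y₀).2 := not_lt.mp hz
    rw [E1_Kf_fst, E1_h_zero hr hrA h0, zero_mul]
  have hz2 : ∀ z, ¬ M.qf (z - y₀) < A ^ 2 → (Kf M r A (z - y₀)).2 = 0 := by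
    intro z hz
    rw [E1_Kf_snd, E1_h_zero hr hrA (by rw [E1_Q_swap]; exact (not_lt.mp hz)), zero_mul]
  refine E1_asm (g1 := fun z => E1_G r A M.a M.b M.c (z.1 - y₀.1) (z.2 - y₀.2))
    (g2 := fun z => E1_G r A M.c M.b M.a (z.2 - y₀.2) (z.1 - y₀.1)) (max B1 B2)
    (E1_c1 hr hA M y₀).measurable (E1_c2 hr hA M y₀).measurable ?_ ?_ ?_ ?_
    (fun y => hz1 _ (s1 y)) (fun y => hz1 _ (s2 y)) (fun x => hz2 _ (s3 x)) (fun x => hz2 _ (s4 x))
    (fun z => E1_div hr hA M (z - y₀))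
  · intro z
    by_cases hz : z ∈ Sq
    · exact (hb1 z hz).trans (le_max_left _ _)
    · have h0 : E1_G r A M.a M.b M.c (z.1 - y₀.1) (z.2 - y₀.2) = 0 :=
        E1_G_zero hr hrA (hout z hz)
      simp only [h0, abs_zero]
      exact le_max_of_le_left hB1
  · intro z
    by_cases hz : z ∈ Sq
    · exact (hb2 z hz).trans (le_max_right _ _)
    · have h0 : E1_G r A M.c M.b M.a (z.2 - y₀.2) (z.1 - y₀.1) = 0 :=
        E1_G_zero hr hrA (by rw [E1_Q_swap]; exact hout z hz)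
      simp only [h0, abs_zero]
      exact le_max_of_le_left hB1
  · intro x y _
    rw [intervalIntegral.integral_eq_sub_of_hasDerivAt (fun s _ => E1_d1 hr hA M y₀ y s)
      (((E1_c1 hr hA M y₀).comp (by fun_prop : Continuous fun s : ℝ => (s, y))).intervalIntegrable
        _ _)]
  · intro x y _
    rw [intervalIntegral.integral_eq_sub_of_hasDerivAt (fun s _ => E1_d2 hr hA M y₀ x s)
      (((E1_c2 hr hA M y₀).comp (by fun_prop : Continuous fun s : ℝ => (x, s))).intervalIntegrable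
        _ _)]

/-- Half-line version of the fundamental theorem of calculus. -/
lemma E1_ftc_half {k k' : ℝ → ℝ} (hd : ∀ t, HasDerivAt k (k' t) t) (hk' : Continuous k')
    (c σ : ℝ) (hc : ∀ t, 0 = σ * (t - c) → k t = 0) (x : ℝ) :
    (if 0 ≤ σ * (x - c) then k x else 0) - (if 0 ≤ σ * (0 - c) then k 0 else 0) =
      ∫ s in (0 : ℝ)..x, (if 0 ≤ σ * (s - c) then k' s else 0) := by
  have hk : Continuous k := continuous_iff_continuousAt.mpr fun t => (hd t).continuousAt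
  have hF : Continuous (fun t => if 0 ≤ σ * (t - c) then k t else 0) :=
    Continuous.if_le hk continuous_const continuous_const (by fun_prop) hc
  have hmeas : MeasurableSet {s : ℝ | 0 ≤ σ * (s - c)} :=
    measurableSet_le measurable_const (by fun_prop)
  have hint : IntervalIntegrable (fun s => if 0 ≤ σ * (s - c) then k' s else 0) volume 0 x := by
    have h0 : (fun s => if 0 ≤ σ * (s - c) then k' s else 0) =
        indicator {s : ℝ | 0 ≤ σ * (s - c)} k' := by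
      funext s
      simp only [indicator, Set.mem_ofPred_eq]
    rw [h0]
    have h1 := hk'.intervalIntegrable (μ := volume) 0 x
    exact ⟨h1.1.indicator hmeas, h1.2.indicator hmeas⟩
  have key := MeasureTheory.integral_eq_of_hasDerivAt_off_countable
    (fun t => if 0 ≤ σ * (t - c) then k t else 0) (fun s => if 0 ≤ σ * (s - c) then k' s else 0)
    (a := 0) (b := x) (countable_singleton c) hF.continuousOn ?_ hint
  · exact key.symm
  · rintro t ⟨_, ht⟩
    have htc : t ≠ c := ht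
    by_cases hσ : σ = 0
    · subst hσ
      simp only [zero_mul, le_refl, if_true]
      exact hd t
    have hne : σ * (t - c) ≠ 0 := mul_ne_zero hσ (sub_ne_zero.mpr htc)
    have hcont : ContinuousAt (fun t : ℝ => σ * (t - c)) t := by fun_prop
    rcases lt_or_gt_of_ne hne with h | h
    · rw [if_neg (not_le.mpr h)]
      refine (hasDerivAt_const t (0 : ℝ)).congr_of_eventuallyEq ?_
      filter_upwards [hcont.eventually_lt continuousAt_const h] with v hv
      rw [if_neg (not_le.mpr hv)]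
    · rw [if_pos h.le]
      refine (hd t).congr_of_eventuallyEq ?_
      filter_upwards [continuousAt_const.eventually_lt hcont h] with v hv
      rw [if_pos (le_of_lt hv)]

open Classical in
theorem E1_quad (s : ℝ × ℝ) (r A : ℝ) (y₀ : ℝ × ℝ) (hs1 : s.1 = 1 ∨ s.1 = -1)
    (hs2 : s.2 = 1 ∨ s.2 = -1) (hr : 0 < r) (hrA : r < A) (hy₀ : y₀ ∈ SqO)
    (hsub : ∀ z, z - y₀ ∈ Quad s → len (z - y₀) < A → z ∈ Sq) :
    IsFlux (fun z => if z - y₀ ∈ Quad s then (4 : ℝ) • Kf oneM r A (z - y₀) else 0)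
      (fun z => if z - y₀ ∈ Quad s then 4 * (th oneM r (z - y₀) - th oneM A (z - y₀)) else 0) := by
  have hA : 0 < A := hr.trans hrA
  obtain ⟨B1, hB1, hb1⟩ := E1_bdd (E1_c1 hr hA oneM y₀)
  obtain ⟨B2, hB2, hb2⟩ := E1_bdd (E1_c2 hr hA oneM y₀)
  have hy1 := hy₀.1
  have hy2 := hy₀.2
  have hout : ∀ z, z - y₀ ∈ Quad s → z ∉ Sq → A ^ 2 ≤ oneM.qf (z - y₀) := by
    intro z hz hz2
    by_contra h
    exact hz2 (hsub z hz ((E1_len_lt hA _).mpr (not_le.mp h)))
  have hqc : Continuous (fun z : ℝ × ℝ => oneM.qf (z - y₀)) := by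
    unfold SymM.qf; fun_prop
  have hmem : ∀ x y : ℝ, ((x, y) - y₀ ∈ Quad s) ↔
      (0 ≤ s.1 * (x - y₀.1) ∧ 0 ≤ s.2 * (y - y₀.2)) := fun x y => Iff.rfl
  have hquad : MeasurableSet {z : ℝ × ℝ | z - y₀ ∈ Quad s} := by
    have h1 : MeasurableSet {z : ℝ × ℝ | 0 ≤ s.1 * (z.1 - y₀.1)} :=
      measurableSet_le measurable_const (by fun_prop)
    have h2 : MeasurableSet {z : ℝ × ℝ | 0 ≤ s.2 * (z.2 - y₀.2)} :=
      measurableSet_le measurable_const (by fun_prop)
    exact h1.inter h2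
  obtain ⟨s1, s2, s3, s4⟩ := E1_sides
    (R := fun z => z - y₀ ∈ Quad s ∧ oneM.qf (z - y₀) < A ^ 2)
    (fun z hz => hsub z hz.1 ((E1_len_lt hA _).mpr hz.2))
    (by
      rintro y ⟨h1, h2⟩
      rw [hmem] at h1
      filter_upwards [E1_push_cont (k := fun t => oneM.qf ((t, y) - y₀)) (hqc.comp (by fun_prop))
        0 (-1) _ h2, self_mem_nhdsWithin] with ε hε hε0
      refine ⟨(hmem _ _).mpr ⟨?_, h1.2⟩, hε⟩
      have := h1.1
      have hp : 0 < ε := hε0
      rcases hs1 with h | h <;> rw [h] at this ⊢ <;> nlinarith [hy1.1])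
    (by
      rintro y ⟨h1, h2⟩
      rw [hmem] at h1
      filter_upwards [E1_push_cont (k := fun t => oneM.qf ((t, y) - y₀)) (hqc.comp (by fun_prop))
        1 1 _ h2, self_mem_nhdsWithin] with ε hε hε0
      refine ⟨(hmem _ _).mpr ⟨?_, h1.2⟩, hε⟩
      have := h1.1
      have hp : 0 < ε := hε0
      rcases hs1 with h | h <;> rw [h] at this ⊢ <;> nlinarith [hy1.2])
    (by
      rintro x ⟨h1, h2⟩
      rw [hmem] at h1
      filter_upwards [E1_push_cont (k := fun t => oneM.qf ((x, t) - y₀)) (hqc.comp (by fun_prop))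
        0 (-1) _ h2, self_mem_nhdsWithin] with ε hε hε0
      refine ⟨(hmem _ _).mpr ⟨h1.1, ?_⟩, hε⟩
      have := h1.2
      have hp : 0 < ε := hε0
      rcases hs2 with h | h <;> rw [h] at this ⊢ <;> nlinarith [hy2.1])
    (by
      rintro x ⟨h1, h2⟩
      rw [hmem] at h1
      filter_upwards [E1_push_cont (k := fun t => oneM.qf ((x, t) - y₀)) (hqc.comp (by fun_prop))
        1 1 _ h2, self_mem_nhdsWithin] with ε hε hε0
      refine ⟨(hmem _ _).mpr ⟨h1.1, ?_⟩, hε⟩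
      have := h1.2
      have hp : 0 < ε := hε0
      rcases hs2 with h | h <;> rw [h] at this ⊢ <;> nlinarith [hy2.2])
  have hz1 : ∀ z, ¬ (z - y₀ ∈ Quad s ∧ oneM.qf (z - y₀) < A ^ 2) →
      (if z - y₀ ∈ Quad s then (4 : ℝ) • Kf oneM r A (z - y₀) else 0).1 = 0 := by
    intro z hz
    by_cases hq : z - y₀ ∈ Quad s
    · have h0 : A ^ 2 ≤ E1_Q oneM.a oneM.b oneM.c (z - y₀).1 (z - y₀).2 :=
        not_lt.mp fun h => hz ⟨hq, h⟩
      rw [if_pos hq, Prod.smul_fst, E1_Kf_fst, E1_h_zero hr hrA h0, zero_mul, smul_zero]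
    · rw [if_neg hq]; rfl
  have hz2 : ∀ z, ¬ (z - y₀ ∈ Quad s ∧ oneM.qf (z - y₀) < A ^ 2) →
      (if z - y₀ ∈ Quad s then (4 : ℝ) • Kf oneM r A (z - y₀) else 0).2 = 0 := by
    intro z hz
    by_cases hq : z - y₀ ∈ Quad s
    · have h0 : A ^ 2 ≤ E1_Q oneM.c oneM.b oneM.a (z - y₀).2 (z - y₀).1 := by
        rw [E1_Q_swap]
        exact not_lt.mp fun h => hz ⟨hq, h⟩
      rw [if_pos hq, Prod.smul_snd, E1_Kf_snd, E1_h_zero hr hrA h0, zero_mul, smul_zero]
    · rw [if_neg hq]; rfl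
  have hbnd : ∀ (g : ℝ × ℝ → ℝ) (B' : ℝ), 0 ≤ B' → (∀ z ∈ Sq, |g z| ≤ B') →
      (∀ z, A ^ 2 ≤ oneM.qf (z - y₀) → g z = 0) →
      ∀ z, |if z - y₀ ∈ Quad s then 4 * g z else 0| ≤ 4 * B' := by
    intro g B' hB' hb hg z
    by_cases hq : z - y₀ ∈ Quad s
    · rw [if_pos hq, abs_mul, abs_of_pos (by norm_num : (0 : ℝ) < 4)]
      by_cases hz : z ∈ Sq
      · linarith [hb z hz]
      · rw [hg z (hout z hq hz), abs_zero]
        linarith
    · rw [if_neg hq, abs_zero]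
      linarith
  refine E1_asm
    (g1 := fun z => if z - y₀ ∈ Quad s then
      4 * E1_G r A oneM.a oneM.b oneM.c (z.1 - y₀.1) (z.2 - y₀.2) else 0)
    (g2 := fun z => if z - y₀ ∈ Quad s then
      4 * E1_G r A oneM.c oneM.b oneM.a (z.2 - y₀.2) (z.1 - y₀.1) else 0)
    (max (4 * B1) (4 * B2))
    (Measurable.ite hquad ((E1_c1 hr hA oneM y₀).measurable.const_mul 4) measurable_const)
    (Measurable.ite hquad ((E1_c2 hr hA oneM y₀).measurable.const_mul 4) measurable_const)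
    (fun z => (hbnd _ B1 hB1 hb1 (fun z hz => E1_G_zero hr hrA hz) z).trans (le_max_left _ _))
    (fun z => (hbnd _ B2 hB2 hb2
      (fun z hz => E1_G_zero hr hrA (by rw [E1_Q_swap]; exact hz)) z).trans (le_max_right _ _))
    ?_ ?_
    (fun y => hz1 _ (s1 y)) (fun y => hz1 _ (s2 y)) (fun x => hz2 _ (s3 x)) (fun x => hz2 _ (s4 x))
    ?_
  · intro x y _
    by_cases hy : 0 ≤ s.2 * (y - y₀.2)
    · have key := E1_ftc_half (k := fun t => 4 * (Kf oneM r A ((t, y) - y₀)).1)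
        (k' := fun t => 4 * E1_G r A oneM.a oneM.b oneM.c (t - y₀.1) (y - y₀.2))
        (fun t => (E1_d1 hr hA oneM y₀ y t).const_mul 4)
        (E1_c1s hr hA oneM y₀ y)
        y₀.1 s.1 (by
          intro t ht
          have ht0 : t - y₀.1 = 0 := by
            rcases hs1 with h | h <;> rw [h] at ht <;> linarith
          have : (Kf oneM r A ((t, y) - y₀)).1 = 0 := by
            rw [E1_Kf_fst]
            show _ * (t - y₀.1) = 0
            rw [ht0, mul_zero]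
          simp only [this, mul_zero]) x
      simp only [hmem, hy, and_true]
      refine Eq.trans ?_ key
      congr 1
      · by_cases h : 0 ≤ s.1 * (x - y₀.1)
        · simp only [if_pos h, Prod.smul_fst, smul_eq_mul]
        · simp only [if_neg h, Prod.fst_zero]
      · by_cases h : 0 ≤ s.1 * (0 - y₀.1)
        · simp only [if_pos h, Prod.smul_fst, smul_eq_mul]
        · simp only [if_neg h, Prod.fst_zero]
    · simp only [hmem, hy, and_false, if_false, Prod.fst_zero, sub_zero,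
        intervalIntegral.integral_zero]
  · intro x y _
    by_cases hx : 0 ≤ s.1 * (x - y₀.1)
    · have key := E1_ftc_half (k := fun t => 4 * (Kf oneM r A ((x, t) - y₀)).2)
        (k' := fun t => 4 * E1_G r A oneM.c oneM.b oneM.a (t - y₀.2) (x - y₀.1))
        (fun t => (E1_d2 hr hA oneM y₀ x t).const_mul 4)
        (E1_c2s hr hA oneM y₀ x)
        y₀.2 s.2 (by
          intro t ht
          have ht0 : t - y₀.2 = 0 := by
            rcases hs2 with h | h <;> rw [h] at ht <;> linarith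
          have : (Kf oneM r A ((x, t) - y₀)).2 = 0 := by
            rw [E1_Kf_snd]
            show _ * (t - y₀.2) = 0
            rw [ht0, mul_zero]
          simp only [this, mul_zero]) y
      simp only [hmem, hx, true_and]
      refine Eq.trans ?_ key
      congr 1
      · by_cases h : 0 ≤ s.2 * (y - y₀.2)
        · simp only [if_pos h, Prod.smul_snd, smul_eq_mul]
        · simp only [if_neg h, Prod.snd_zero]
      · by_cases h : 0 ≤ s.2 * (0 - y₀.2)
        · simp only [if_pos h, Prod.smul_snd, smul_eq_mul]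
        · simp only [if_neg h, Prod.snd_zero]
    · simp only [hmem, hx, false_and, if_false, Prod.snd_zero, sub_zero,
        intervalIntegral.integral_zero]
  · intro z
    by_cases hq : z - y₀ ∈ Quad s
    · simp only [if_pos hq]
      rw [← mul_add]
      congr 1
      exact E1_div hr hA oneM (z - y₀)
    · simp only [if_neg hq, add_zero]

theorem E1 : StmtE1 :=
  ⟨fun M r A y₀ _ _ hr hrA _ hsub => E1_plane M r A y₀ hr hrA hsub,
    fun s r A y₀ hs1 hs2 hr hrA hy₀ hsub => E1_quad s r A y₀ hs1 hs2 hr hrA hy₀ hsub⟩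

end Match2D
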