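import Pool.Agent.Work.MP_884187_pr.KerDefs

/-!
MP_884187_pr, item E2: crude flux solver on a square.
-/

open MeasureTheory Set Filter Topology

namespace Match2D

lemma E2_Iic_eq {h : ℝ → ℝ} {u v x : ℝ} (hux : v ≤ x) (hh : ∀ s, s < u ∨ v < s ∧ s ≤ x → h s = 0) :
    ∫ s in Iic x, h s = ∫ s in Icc u v, h s := by
  refine setIntegral_eq_of_subset_of_forall_sdiff_eq_zero measurableSet_Iic
    (fun s hs => hs.2.trans hux) fun s hs => hh s ?_
  by_cases h1 : s < u
  · exact Or.inl h1
  · refine Or.inr ⟨?_, hs.1⟩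
    by_contra h2
    exact hs.2 ⟨not_lt.mp h1, not_lt.mp h2⟩

lemma E2_interval {h : ℝ → ℝ} {x : ℝ} (hx : 0 ≤ x) (hh : ∀ s, s < 0 → h s = 0) :
    ∫ s in Iic x, h s = ∫ s in (0 : ℝ)..x, h s := by
  rw [E2_Iic_eq (u := 0) (v := x) le_rfl, intervalIntegral.integral_of_le hx,
    integral_Icc_eq_integral_Ioc]
  rintro s (hs | ⟨h1, h2⟩)
  · exact hh s hs
  · linarith

lemma E2_zero {h : ℝ → ℝ} {a x : ℝ} (hx : x < a) (hh : ∀ s, s < a → h s = 0) :
    ∫ s in Iic x, h s = 0 := by
  refine setIntegral_eq_zero_of_forall_eq_zero fun s hs => hh s (lt_of_le_of_lt hs hx)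

lemma E2_full {h : ℝ → ℝ} {a l x : ℝ} (hl : 0 < l) (hx : a + l ≤ x)
    (hh : ∀ s, s ∉ Ico a (a + l) → h s = 0) :
    ∫ s in Iic x, h s = ∫ s in a..(a + l), h s := by
  rw [E2_Iic_eq (u := a) (v := a + l) hx, intervalIntegral.integral_of_le (by linarith),
    integral_Icc_eq_integral_Ioc]
  rintro s (hs | ⟨h1, h2⟩)
  · exact hh s fun h => absurd h.1 (not_le.mpr hs)
  · exact hh s fun h => absurd h.2 (not_lt.mpr h1.le)

lemma E2_bound {h : ℝ → ℝ} {a l x K : ℝ} (hl : 0 < l) (hK : ∀ s, |h s| ≤ K)
    (hh : ∀ s, s ∉ Ico a (a + l) → h s = 0) :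
    |∫ s in Iic x, h s| ≤ K * l := by
  have hK0 : 0 ≤ K := (abs_nonneg _).trans (hK 0)
  have e : ∫ s in Iic x, h s = ∫ s in Iic x ∩ Ico a (a + l), h s := by
    refine setIntegral_eq_of_subset_of_forall_sdiff_eq_zero measurableSet_Iic inter_subset_left
      fun s hs => hh s fun h2 => hs.2 ⟨hs.1, h2⟩
  rw [e, ← Real.norm_eq_abs]
  have hsub : Iic x ∩ Ico a (a + l) ⊆ Ico a (a + l) := inter_subset_right
  have hfin : volume (Ico a (a + l)) < ⊤ := by simp
  calc ‖∫ s in Iic x ∩ Ico a (a + l), h s‖ ≤ K * volume.real (Iic x ∩ Ico a (a + l)) :=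
        norm_setIntegral_le_of_norm_le_const ((measure_mono hsub).trans_lt hfin) fun s _ => hK s
    _ ≤ K * volume.real (Ico a (a + l)) :=
        mul_le_mul_of_nonneg_left (measureReal_mono hsub hfin.ne) hK0
    _ = K * l := by
        rw [Real.volume_real_Ico_of_le (by linarith)]
        ring

lemma E2_meas {g : ℝ × ℝ → ℝ} (hg : Measurable g) :
    Measurable fun z : ℝ × ℝ => ∫ s in Iic z.1, g (s, z.2) := by
  have e : (fun z : ℝ × ℝ => ∫ s in Iic z.1, g (s, z.2)) =
      fun z : ℝ × ℝ => ∫ s, (Iic z.1).indicator (fun s => g (s, z.2)) s := by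
    funext z
    rw [integral_indicator measurableSet_Iic]
  rw [e]
  refine StronglyMeasurable.measurable ?_
  refine StronglyMeasurable.integral_prod_right
    (f := fun (z : ℝ × ℝ) (s : ℝ) => (Iic z.1).indicator (fun s => g (s, z.2)) s) ?_
  refine Measurable.stronglyMeasurable ?_
  have e2 : (Function.uncurry fun (z : ℝ × ℝ) (s : ℝ) =>
      (Iic z.1).indicator (fun s => g (s, z.2)) s) =
      {q : (ℝ × ℝ) × ℝ | q.2 ≤ q.1.1}.indicator fun q => g (q.2, q.1.2) := by
    funext q
    simp only [Function.uncurry, indicator, mem_Iic, mem_ofPred_eq]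
  rw [e2]
  refine Measurable.indicator (by fun_prop) ?_
  exact measurableSet_le (by fun_prop) (by fun_prop)

open Classical in
theorem E2 : StmtE2 := by
  intro a a' l F ha ha' hl hal ha'l f hf hF hzero
  have hF0 : 0 ≤ F := (abs_nonneg _).trans (hF 0)
  obtain ⟨fb, hfb⟩ : ∃ fb : ℝ → ℝ, ∀ y, fb y = (1 / l) * ∫ s in Ioc a (a + l), f (s, y) :=
    ⟨_, fun _ => rfl⟩
  have hfb_meas : Measurable fb := by
    have e : fb = fun y => (1 / l) * ∫ s in Ioc a (a + l), f (s, y) := funext hfb
    rw [e]
    refine Measurable.const_mul (StronglyMeasurable.measurable ?_) _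
    exact StronglyMeasurable.integral_prod_left (f := fun (s y : ℝ) => f (s, y))
      (μ := volume.restrict (Ioc a (a + l))) hf.stronglyMeasurable
  have hfb_bd : ∀ y, |fb y| ≤ F := by
    intro y
    rw [hfb, abs_mul, abs_of_pos (by positivity)]
    have h1 : ‖∫ s in Ioc a (a + l), f (s, y)‖ ≤ F * volume.real (Ioc a (a + l)) :=
      norm_setIntegral_le_of_norm_le_const (by simp) fun s _ => hF _
    rw [Real.volume_real_Ioc_of_le (by linarith), Real.norm_eq_abs] at h1
    calc 1 / l * |∫ s in Ioc a (a + l), f (s, y)| ≤ 1 / l * (F * (a + l - a)) := by gcongr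
      _ = F := by field_simp; ring
  set Cc : Set (ℝ × ℝ) := Ico a (a + l) ×ˢ Ico a' (a' + l) with hCc
  have hCm : MeasurableSet Cc := measurableSet_Ico.prod measurableSet_Ico
  obtain ⟨g1, hg1⟩ : ∃ g1 : ℝ × ℝ → ℝ, ∀ z, g1 z = if z ∈ Cc then f z - fb z.2 else 0 :=
    ⟨_, fun _ => rfl⟩
  obtain ⟨g2, hg2⟩ : ∃ g2 : ℝ × ℝ → ℝ, ∀ z, g2 z = if z ∈ Cc then fb z.2 else 0 :=
    ⟨_, fun _ => rfl⟩
  have m1 : Measurable g1 := by
    have e : g1 = fun z => if z ∈ Cc then f z - fb z.2 else 0 := funext hg1
    rw [e]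
    exact Measurable.ite hCm (hf.sub (hfb_meas.comp measurable_snd)) measurable_const
  have m2 : Measurable g2 := by
    have e : g2 = fun z => if z ∈ Cc then fb z.2 else 0 := funext hg2
    rw [e]
    exact Measurable.ite hCm (hfb_meas.comp measurable_snd) measurable_const
  have b1 : ∀ z, |g1 z| ≤ 2 * F := by
    intro z
    rw [hg1]
    split_ifs with h
    · calc |f z - fb z.2| ≤ |f z| + |fb z.2| := abs_sub _ _
        _ ≤ 2 * F := by linarith [hF z, hfb_bd z.2]
    · simp
      positivity
  have b2 : ∀ z, |g2 z| ≤ F := by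
    intro z
    rw [hg2]
    split_ifs with h
    · exact hfb_bd _
    · simpa using hF0
  -- supports
  have s1 : ∀ y s, s ∉ Ico a (a + l) → g1 (s, y) = 0 := fun y s hs => by
    rw [hg1, if_neg fun h => hs h.1]
  have s1' : ∀ y s, y ∉ Ico a' (a' + l) → g1 (s, y) = 0 := fun y s hy => by
    rw [hg1, if_neg fun h => hy h.2]
  have s2 : ∀ x s, s ∉ Ico a' (a' + l) → g2 (x, s) = 0 := fun x s hs => by
    rw [hg2, if_neg fun h => hs h.2]
  have s2' : ∀ x s, x ∉ Ico a (a + l) → g2 (x, s) = 0 := fun x s hx => by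
    rw [hg2, if_neg fun h => hx h.1]
  -- full integrals
  have full1 : ∀ y, ∫ s in a..(a + l), g1 (s, y) = 0 := by
    intro y
    by_cases hy : y ∈ Ico a' (a' + l)
    · rw [intervalIntegral.integral_of_le (by linarith), ← integral_Ico_eq_integral_Ioc]
      have e : ∫ s in Ico a (a + l), g1 (s, y) = ∫ s in Ico a (a + l), (f (s, y) - fb y) := by
        refine setIntegral_congr_fun measurableSet_Ico fun s hs => ?_
        rw [hg1, if_pos ⟨hs, hy⟩]
      rw [e, integral_sub, setIntegral_const, integral_Ico_eq_integral_Ioc, hfb,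
        Real.volume_real_Ico_of_le (by linarith), smul_eq_mul]
      · field_simp
        ring
      · exact Measure.integrableOn_of_bounded (M := F) (by simp)
          (hf.comp (measurable_id.prodMk measurable_const)).aestronglyMeasurable
          (Eventually.of_forall fun s => by simpa using hF (s, y))
      · exact integrableOn_const (by simp)
    · have e : ∀ s, g1 (s, y) = 0 := fun s => s1' y s hy
      simp [e]
  have full2 : ∀ x, ∫ s in a'..(a' + l), g2 (x, s) = 0 := by
    intro x
    by_cases hx : x ∈ Ico a (a + l)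
    · rw [intervalIntegral.integral_of_le (by linarith), ← integral_Ico_eq_integral_Ioc]
      have e : ∫ s in Ico a' (a' + l), g2 (x, s) = ∫ s in Ico a' (a' + l), fb s := by
        refine setIntegral_congr_fun measurableSet_Ico fun s hs => ?_
        rw [hg2, if_pos ⟨hx, hs⟩]
      rw [e]
      have hint : IntegrableOn f Cc (volume.prod volume) := by
        refine Measure.integrableOn_of_bounded (M := F) ?_ hf.aestronglyMeasurable
          (Eventually.of_forall fun z => by simpa using hF z)
        rw [hCc, Measure.prod_prod]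
        simp [ENNReal.mul_eq_top]
      have e2 : ∫ z in Cc, f z = ∫ y in Ico a' (a' + l), ∫ x in Ico a (a + l), f (x, y) := by
        have h1 := integral_prod_symm (μ := volume.restrict (Ico a (a + l)))
          (ν := volume.restrict (Ico a' (a' + l))) f (by
            rw [Measure.prod_restrict]
            exact hint)
        rw [Measure.prod_restrict] at h1
        exact h1
      have e3 : ∫ s in Ico a' (a' + l), fb s = (1 / l) * ∫ z in Cc, f z := by
        rw [e2, ← integral_const_mul]
        refine setIntegral_congr_fun measurableSet_Ico fun y _ => ?_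
        rw [hfb, integral_Ico_eq_integral_Ioc]
      rw [e3, hzero, mul_zero]
    · have e : ∀ s, g2 (x, s) = 0 := fun s => s2' x s hx
      simp [e]
  have neg1 : ∀ y s, s < a → g1 (s, y) = 0 := fun y s hs => s1 y s fun h => absurd h.1 (not_le.mpr hs)
  have neg2 : ∀ x s, s < a' → g2 (x, s) = 0 := fun x s hs => s2 x s fun h => absurd h.1 (not_le.mpr hs)
  refine ⟨fun z => (∫ s in Iic z.1, g1 (s, z.2), ∫ s in Iic z.2, g2 (z.1, s)), ?_, ?_, ?_, ?_⟩
  · refine (E2_meas m1).prodMk ?_
    have h := (E2_meas (g := fun z => g2 (z.2, z.1)) (m2.comp measurable_swap)).comp measurable_swap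
    exact h
  · refine ⟨g1, g2, 2 * F, m1, m2, b1, fun z => (b2 z).trans (by linarith), ?_, ?_, ?_, ?_, ?_⟩
    · intro x hx y _
      exact E2_interval hx.1 fun s hs => neg1 y s (by linarith)
    · intro y _
      rw [← E2_interval zero_le_one fun s hs => neg1 y s (by linarith),
        E2_full hl hal (s1 y), full1]
    · intro x _ y hy
      exact E2_interval hy.1 fun s hs => neg2 x s (by linarith)
    · intro x _
      rw [← E2_interval zero_le_one fun s hs => neg2 x s (by linarith),
        E2_full hl ha'l (s2 x), full2]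
    · intro z _
      show g1 z + g2 z = if z ∈ Cc then f z else 0
      rw [hg1, hg2]
      by_cases h : z ∈ Cc
      · rw [if_pos h, if_pos h, if_pos h]
        ring
      · rw [if_neg h, if_neg h, if_neg h, add_zero]
  · intro z
    have c1 : |∫ s in Iic z.1, g1 (s, z.2)| ≤ 2 * F * l := E2_bound hl (fun s => b1 _) (s1 z.2)
    have c2 : |∫ s in Iic z.2, g2 (z.1, s)| ≤ F * l := E2_bound hl (fun s => b2 _) (s2 z.1)
    have p1 : (∫ s in Iic z.1, g1 (s, z.2)) ^ 2 ≤ (2 * F * l) ^ 2 := sq_le_sq' (abs_le.mp c1).1 (abs_le.mp c1).2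
    have p2 : (∫ s in Iic z.2, g2 (z.1, s)) ^ 2 ≤ (F * l) ^ 2 := sq_le_sq' (abs_le.mp c2).1 (abs_le.mp c2).2
    unfold len
    refine Real.sqrt_le_iff.mpr ⟨by positivity, ?_⟩
    simp only
    nlinarith [sq_nonneg (F * l)]
  · intro z hz
    have hz' : z.1 ∉ Icc a (a + l) ∨ z.2 ∉ Icc a' (a' + l) := by
      by_contra h
      rw [not_or, not_not, not_not] at h
      exact hz h
    refine Prod.ext ?_ ?_
    · simp only [Prod.fst_zero]
      by_cases hy : z.2 ∈ Ico a' (a' + l)
      · rcases hz' with h | h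
        · rcases lt_or_ge z.1 a with h1 | h1
          · exact E2_zero h1 (neg1 z.2)
          · have h2 : a + l ≤ z.1 := by
              by_contra h3
              exact h ⟨h1, (not_le.mp h3).le⟩
            rw [E2_full hl h2 (s1 z.2), full1]
        · exact absurd (Ico_subset_Icc_self hy) h
      · have e : ∀ s, g1 (s, z.2) = 0 := fun s => s1' z.2 s hy
        simp [e]
    · simp only [Prod.snd_zero]
      by_cases hx : z.1 ∈ Ico a (a + l)
      · rcases hz' with h | h
        · exact absurd (Ico_subset_Icc_self hx) h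
        · rcases lt_or_ge z.2 a' with h1 | h1
          · exact E2_zero h1 (neg2 z.1)
          · have h2 : a' + l ≤ z.2 := by
              by_contra h3
              exact h ⟨h1, (not_le.mp h3).le⟩
            rw [E2_full hl h2 (s2 z.1), full2]
      · have e : ∀ s, g2 (z.1, s) = 0 := fun s => s2' z.1 s hx
        simp [e]

end Match2D
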