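import Pool.Agent.Work.MP_884187_pr.KerDefs

/-!
MP_884187_pr, item E3: sizes of the upper kernels.
-/

open MeasureTheory Set Filter Topology

namespace Match2D

theorem E3_kk_eq {r : ℝ} (hr : 0 < r) (w : ℝ) :
    kk r w = (2 * max w (r ^ 2) - w) / (max w (r ^ 2)) ^ 2 := by
  unfold kk
  split_ifs with h
  · rw [max_eq_left h]
    have : 0 < w := lt_of_lt_of_le (by positivity) h
    field_simp
    ring
  · rw [max_eq_right (le_of_not_ge h)]
    ring_nf

theorem E3_max_pos {r : ℝ} (hr : 0 < r) (w : ℝ) : 0 < max w (r ^ 2) :=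
  lt_max_of_lt_right (by positivity)

theorem E3_kk_cont {r : ℝ} (hr : 0 < r) : Continuous (kk r) := by
  have : kk r = fun w => (2 * max w (r ^ 2) - w) / (max w (r ^ 2)) ^ 2 :=
    funext (E3_kk_eq hr)
  rw [this]
  refine Continuous.div (by fun_prop) (by fun_prop) (fun w => ?_)
  exact (pow_pos (E3_max_pos hr w) 2).ne'

theorem E3_kk_pos {r : ℝ} (hr : 0 < r) (w : ℝ) : 0 < kk r w := by
  rw [E3_kk_eq hr]
  have h1 := E3_max_pos hr w
  have h2 := le_max_left w (r ^ 2)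
  apply div_pos _ (pow_pos h1 2)
  linarith

theorem E3_kk_le {r : ℝ} (hr : 0 < r) {w : ℝ} (hw : 0 ≤ w) : kk r w ≤ 2 / max w (r ^ 2) := by
  rw [E3_kk_eq hr, div_le_div_iff₀ (pow_pos (E3_max_pos hr w) 2) (E3_max_pos hr w)]
  have h1 := E3_max_pos hr w
  nlinarith

theorem E3_phi {w s t : ℝ} (hs : 0 < s) (hst : s ≤ t) (hws : w ≤ s) :
    (2 * t - w) / t ^ 2 ≤ (2 * s - w) / s ^ 2 := by
  have ht : 0 < t := lt_of_lt_of_le hs hst
  rw [div_le_div_iff₀ (by positivity) (by positivity)]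
  have h1 : 0 ≤ (t - s) * ((s - w) * (t + s) + s * (t - s)) :=
    mul_nonneg (by linarith) (add_nonneg (mul_nonneg (by linarith) (by linarith))
      (mul_nonneg hs.le (by linarith)))
  nlinarith

theorem E3_kk_anti {r A : ℝ} (hr : 0 < r) (hA : r ≤ A) (w : ℝ) : kk A w ≤ kk r w := by
  rw [E3_kk_eq hr, E3_kk_eq (lt_of_lt_of_le hr hA)]
  rcases le_or_gt w (A ^ 2) with h | h
  · rcases le_or_gt w (r ^ 2) with h' | h'
    · rw [max_eq_right h, max_eq_right h']
      exact E3_phi (by positivity) (by gcongr) h'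
    · rw [max_eq_right h, max_eq_left h'.le]
      exact E3_phi (lt_trans (by positivity) h') h le_rfl
  · have h' : r ^ 2 ≤ w := le_trans (by gcongr) h.le
    rw [max_eq_left h.le, max_eq_left h']

theorem E3_tangent {r : ℝ} (hr : 0 < r) {q q' : ℝ} (hq : q' ≤ q) :
    kk r q' - kk r q ≤ (q - q') / (max q' (r ^ 2)) ^ 2 := by
  have h0 := E3_max_pos hr q'
  have key : (2 * max q' (r ^ 2) - q) / (max q' (r ^ 2)) ^ 2 ≤ kk r q := by
    rw [E3_kk_eq hr]
    rcases le_or_gt q (r ^ 2) with h | h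
    · rw [max_eq_right h, max_eq_right (hq.trans h)]
    · rw [max_eq_left h.le]
      have hq0 : 0 < q := lt_trans (by positivity) h
      rw [div_le_div_iff₀ (by positivity) (by positivity)]
      have h1 : 0 ≤ q * (max q' (r ^ 2) - q) ^ 2 := by positivity
      nlinarith
  rw [E3_kk_eq hr q'] 
  have h2 : (2 * max q' (r ^ 2) - q') / (max q' (r ^ 2)) ^ 2
      = (2 * max q' (r ^ 2) - q) / (max q' (r ^ 2)) ^ 2 + (q - q') / (max q' (r ^ 2)) ^ 2 := by
    rw [← add_div]; ring_nf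
  linarith

theorem E3_kk_mono {r : ℝ} (hr : 0 < r) {q q' : ℝ} (hq : q' ≤ q) : kk r q ≤ kk r q' := by
  have h0 := E3_max_pos hr q
  rw [E3_kk_eq hr, E3_kk_eq hr q']
  rcases le_or_gt q (r ^ 2) with h | h
  · rw [max_eq_right h, max_eq_right (hq.trans h)]
    gcongr
  · have hq0 : 0 < q := lt_trans (by positivity) h
    rw [max_eq_left h.le]
    rcases le_or_gt q' (r ^ 2) with h' | h'
    · rw [max_eq_right h']
      calc (2 * q - q) / q ^ 2 = 1 / q := by field_simp; ring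
        _ ≤ 1 / (r ^ 2) := by
            apply one_div_le_one_div_of_le (by positivity) h.le
        _ ≤ (2 * r ^ 2 - q') / (r ^ 2) ^ 2 := by
            rw [div_le_div_iff₀ (by positivity) (by positivity)]
            nlinarith [sq_nonneg r, mul_nonneg (sq_nonneg r) (sub_nonneg.2 h')]
    · rw [max_eq_left h'.le]
      have hq0' : 0 < q' := lt_trans (by positivity) h'
      calc (2 * q - q) / q ^ 2 = 1 / q := by field_simp; ring
        _ ≤ 1 / q' := one_div_le_one_div_of_le hq0' hq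
        _ = (2 * q' - q') / q' ^ 2 := by field_simp; ring

/-! ### the quadratic form -/

theorem E3_c_pos {B : ℝ} {M : SymM} (hM : Unim B M) : 0 < M.c := by
  obtain ⟨ha, hd, _⟩ := hM
  unfold SymM.det at hd
  by_contra hc
  push Not at hc
  nlinarith [mul_nonneg ha.le (neg_nonneg.2 hc), sq_nonneg M.b]

theorem E3_qf_nonneg {B : ℝ} {M : SymM} (hM : Unim B M) (z : ℝ × ℝ) : 0 ≤ M.qf z := by
  have hc := E3_c_pos hM
  obtain ⟨ha, hd, _⟩ := hM
  unfold SymM.det at hd
  unfold SymM.qf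
  have h : M.a * (M.a * z.1 ^ 2 + 2 * M.b * z.1 * z.2 + M.c * z.2 ^ 2)
      = (M.a * z.1 + M.b * z.2) ^ 2 + z.2 ^ 2 := by
    linear_combination z.2 ^ 2 * hd
  by_contra hneg
  push Not at hneg
  nlinarith [mul_pos ha (neg_pos.2 hneg), sq_nonneg (M.a * z.1 + M.b * z.2), sq_nonneg z.2]

theorem E3_len_sq (z : ℝ × ℝ) : len z ^ 2 = z.1 ^ 2 + z.2 ^ 2 := by
  unfold len
  exact Real.sq_sqrt (by positivity)

theorem E3_len_nonneg (z : ℝ × ℝ) : 0 ≤ len z := Real.sqrt_nonneg _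

theorem E3_len_smul (c : ℝ) (z : ℝ × ℝ) : len (c • z) = |c| * len z := by
  unfold len
  rw [← Real.sqrt_sq_eq_abs, ← Real.sqrt_mul (sq_nonneg c)]
  congr 1
  simp only [Prod.smul_fst, Prod.smul_snd, smul_eq_mul]
  ring

theorem E3_len_add (z w : ℝ × ℝ) : len (z + w) ≤ len z + len w := by
  apply abs_le_of_sq_le_sq' _ (add_nonneg (E3_len_nonneg _) (E3_len_nonneg _)) |>.2
  rw [add_sq, E3_len_sq, E3_len_sq, E3_len_sq]
  have h : z.1 * w.1 + z.2 * w.2 ≤ len z * len w := by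
    apply abs_le_of_sq_le_sq' _ (mul_nonneg (E3_len_nonneg _) (E3_len_nonneg _)) |>.2
    rw [mul_pow, E3_len_sq, E3_len_sq]
    nlinarith [sq_nonneg (z.1 * w.2 - z.2 * w.1)]
  simp only [Prod.fst_add, Prod.snd_add]
  nlinarith

theorem E3_low {B : ℝ} {M : SymM} (hM : Unim B M) (z : ℝ × ℝ) :
    len z ^ 2 ≤ B * M.qf z := by
  have hq := E3_qf_nonneg hM z
  obtain ⟨ha, hd, htr⟩ := hM
  unfold SymM.det at hd
  unfold SymM.tr at htr
  have h1 : (M.a + M.c) * M.qf z ≤ B * M.qf z := mul_le_mul_of_nonneg_right htr hq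
  refine le_trans ?_ h1
  rw [E3_len_sq]
  have h : (M.a + M.c) * M.qf z - (z.1 ^ 2 + z.2 ^ 2)
      = (M.a * z.1 + M.b * z.2) ^ 2 + (M.b * z.1 + M.c * z.2) ^ 2 := by
    unfold SymM.qf
    linear_combination (z.1 ^ 2 + z.2 ^ 2) * hd
  nlinarith [sq_nonneg (M.a * z.1 + M.b * z.2), sq_nonneg (M.b * z.1 + M.c * z.2)]

theorem E3_up {B : ℝ} {M : SymM} (hM : Unim B M) (z : ℝ × ℝ) :
    M.qf z ≤ B * len z ^ 2 := by
  have hc := E3_c_pos hM
  obtain ⟨ha, hd, htr⟩ := hM
  unfold SymM.det at hd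
  unfold SymM.tr at htr
  rw [E3_len_sq]
  have h0 : 0 ≤ M.c * z.1 ^ 2 - 2 * M.b * z.1 * z.2 + M.a * z.2 ^ 2 := by
    have h : M.a * (M.c * z.1 ^ 2 - 2 * M.b * z.1 * z.2 + M.a * z.2 ^ 2)
      = (M.a * z.2 - M.b * z.1) ^ 2 + z.1 ^ 2 := by
      linear_combination z.1 ^ 2 * hd
    by_contra hneg
    push Not at hneg
    nlinarith [mul_pos ha (neg_pos.2 hneg), sq_nonneg (M.a * z.2 - M.b * z.1), sq_nonneg z.1]
  have h1 : (M.a + M.c) * (z.1 ^ 2 + z.2 ^ 2) ≤ B * (z.1 ^ 2 + z.2 ^ 2) :=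
    mul_le_mul_of_nonneg_right htr (by positivity)
  unfold SymM.qf
  nlinarith

/-- Polarisation: the difference of the quadratic form at two points. -/
theorem E3_qf_sub {B : ℝ} {M : SymM} (hM : Unim B M) (z z' : ℝ × ℝ) :
    M.qf z - M.qf z' ≤ B * (len (z + z') * len (z - z')) := by
  have hc := E3_c_pos hM
  have hup := E3_up hM
  have hB : 0 ≤ B := by
    have := hM.2.2
    unfold SymM.tr at this
    linarith [hM.1]
  -- scaling argument
  have key : ∀ t : ℝ, 0 < t → 2 * (M.qf z - M.qf z') ≤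
      B * (t * len (z + z') ^ 2 + t⁻¹ * len (z - z') ^ 2) := by
    intro t ht
    have h1 := hup ((z + z'))
    have h2 := hup ((z - z'))
    have h3 := E3_qf_nonneg hM (t • (z + z') - (z - z'))
    have h4 : M.qf (t • (z + z') - (z - z')) = t ^ 2 * M.qf (z + z') + M.qf (z - z')
        - 2 * t * (M.qf z - M.qf z') := by
      unfold SymM.qf
      simp only [Prod.fst_sub, Prod.snd_sub, Prod.smul_fst, Prod.smul_snd, Prod.fst_add,
        Prod.snd_add, smul_eq_mul]
      ring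
    have h5 : 2 * t * (M.qf z - M.qf z') ≤ t ^ 2 * (B * len (z + z') ^ 2) + B * len (z - z') ^ 2 := by
      have := mul_le_mul_of_nonneg_left h1 (sq_nonneg t)
      linarith
    have h6 : 2 * (M.qf z - M.qf z') = t⁻¹ * (2 * t * (M.qf z - M.qf z')) := by
      field_simp
    rw [h6]
    calc t⁻¹ * (2 * t * (M.qf z - M.qf z'))
        ≤ t⁻¹ * (t ^ 2 * (B * len (z + z') ^ 2) + B * len (z - z') ^ 2) := by
          gcongr
      _ = B * (t * len (z + z') ^ 2 + t⁻¹ * len (z - z') ^ 2) := by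
          field_simp
  set x := len (z + z') with hx
  set y := len (z - z') with hy
  have hx0 : 0 ≤ x := E3_len_nonneg _
  have hy0 : 0 ≤ y := E3_len_nonneg _
  by_contra hcon
  push Not at hcon
  rcases hx0.eq_or_lt with hx1 | hx1
  · -- x = 0
    rw [← hx1] at hcon key
    have hd : 0 < M.qf z - M.qf z' := by simpa using hcon
    have := key ((B * y ^ 2 + 1) / (M.qf z - M.qf z')) (by positivity)
    have h7 : B * (((B * y ^ 2 + 1) / (M.qf z - M.qf z'))⁻¹ * y ^ 2)
        = (M.qf z - M.qf z') * (B * y ^ 2 / (B * y ^ 2 + 1)) := by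
      have : B * y ^ 2 + 1 ≠ 0 := by positivity
      field_simp
    have h8 : B * y ^ 2 / (B * y ^ 2 + 1) ≤ 1 := by
      rw [div_le_one (by positivity)]; linarith
    have h9 := mul_le_mul_of_nonneg_left h8 hd.le
    have h10 : B * ((B * y ^ 2 + 1) / (M.qf z - M.qf z') * 0 ^ 2 + ((B * y ^ 2 + 1) / (M.qf z - M.qf z'))⁻¹ * y ^ 2)
       = (M.qf z - M.qf z') * (B * y ^ 2 / (B * y ^ 2 + 1)) := by
      rw [← h7]; ring
    rw [h10] at this
    linarith
  · rcases hy0.eq_or_lt with hy1 | hy1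
    · rw [← hy1] at hcon key
      have hd : 0 < M.qf z - M.qf z' := by simpa using hcon
      have := key ((M.qf z - M.qf z') / (B * x ^ 2 + 1)) (by positivity)
      have h8 : B * x ^ 2 / (B * x ^ 2 + 1) ≤ 1 := by
        rw [div_le_one (by positivity)]; linarith
      have h9 := mul_le_mul_of_nonneg_left h8 hd.le
      have h10 : B * ((M.qf z - M.qf z') / (B * x ^ 2 + 1) * x ^ 2 +
          ((M.qf z - M.qf z') / (B * x ^ 2 + 1))⁻¹ * 0 ^ 2)
         = (M.qf z - M.qf z') * (B * x ^ 2 / (B * x ^ 2 + 1)) := by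
        ring
      rw [h10] at this
      linarith
    · have := key (y / x) (by positivity)
      have h11 : y / x * x ^ 2 + (y / x)⁻¹ * y ^ 2 = 2 * (x * y) := by
        field_simp
        ring
      rw [h11] at this
      linarith

/-! ### the kernel -/

theorem E3_Kf_coef {r A : ℝ} (hr : 0 < r) (hA : r < A) (w : ℝ) :
    0 ≤ 1 / (2 * Real.pi) * (kk r w - kk A w) := by
  have := E3_kk_anti hr hA.le w
  have hpi := Real.pi_pos
  apply mul_nonneg (by positivity)
  linarith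

theorem E3_bound {B : ℝ} (hB : 2 ≤ B) {M : SymM} (hM : Unim B M) {r A : ℝ} (hr : 0 < r)
    (hA : r < A) (z : ℝ × ℝ) : len (Kf M r A z) * max (len z) r ≤ B := by
  have hq := E3_qf_nonneg hM z
  have hlow := E3_low hM z
  have hc := E3_Kf_coef hr hA (M.qf z)
  have hAp := E3_kk_pos (hr.trans hA) (M.qf z)
  have hk := E3_kk_le hr hq
  set s := max (M.qf z) (r ^ 2) with hs
  have hs0 : 0 < s := E3_max_pos hr _
  have hs1 : M.qf z ≤ s := le_max_left _ _
  have hs2 : r ^ 2 ≤ s := le_max_right _ _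
  have hpi := Real.pi_gt_three
  unfold Kf
  rw [E3_len_smul, abs_of_nonneg hc]
  have h1 : len z * max (len z) r ≤ B * s := by
    rcases le_total (len z) r with h | h
    · rw [max_eq_right h]
      nlinarith [sq_nonneg (len z - r), mul_nonneg (by linarith : (0:ℝ) ≤ B - 2) hs0.le]
    · rw [max_eq_left h]
      nlinarith
  have h2 : 1 / (2 * Real.pi) * (kk r (M.qf z) - kk A (M.qf z)) ≤ 1 / s := by
    have : kk r (M.qf z) - kk A (M.qf z) ≤ 2 / s := by linarith
    calc 1 / (2 * Real.pi) * (kk r (M.qf z) - kk A (M.qf z))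
        ≤ 1 / (2 * Real.pi) * (2 / s) := by gcongr
      _ = 1 / (Real.pi * s) := by field_simp
      _ ≤ 1 / s := by
          apply one_div_le_one_div_of_le hs0
          nlinarith
  have h3 : 0 ≤ len z * max (len z) r :=
    mul_nonneg (E3_len_nonneg _) (le_max_of_le_right hr.le)
  calc 1 / (2 * Real.pi) * (kk r (M.qf z) - kk A (M.qf z)) * len z * max (len z) r
      = 1 / (2 * Real.pi) * (kk r (M.qf z) - kk A (M.qf z)) * (len z * max (len z) r) := by ring
    _ ≤ 1 / s * (B * s) := mul_le_mul h2 h1 h3 (by positivity)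
    _ = B := by field_simp

/-- Lipschitz bound of one half of the kernel, ordered case. -/
theorem E3_lip_aux {B : ℝ} (hB : 2 ≤ B) {M : SymM} (hM : Unim B M) {r : ℝ} (hr : 0 < r)
    (z z' : ℝ × ℝ) (hqq : M.qf z' ≤ M.qf z) :
    len (kk r (M.qf z) • z - kk r (M.qf z') • z') ≤ 4 * B ^ 2 / r ^ 2 * len (z - z') := by
  have hq := E3_qf_nonneg hM z
  have hq' := E3_qf_nonneg hM z'
  have hlow := E3_low hM z'
  have e : kk r (M.qf z) • z - kk r (M.qf z') • z'
      = kk r (M.qf z) • (z - z') + (kk r (M.qf z) - kk r (M.qf z')) • z' := by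
    rw [smul_sub, sub_smul]; abel
  rw [e]
  refine (E3_len_add _ _).trans ?_
  rw [E3_len_smul, E3_len_smul, abs_of_pos (E3_kk_pos hr _), abs_sub_comm,
    abs_of_nonneg (sub_nonneg.2 (E3_kk_mono hr hqq))]
  set D := len (z - z') with hD
  have hD0 : 0 ≤ D := E3_len_nonneg _
  have hr2 : 0 < r ^ 2 := by positivity
  set s := max (M.qf z') (r ^ 2) with hs
  have hs0 : 0 < s := E3_max_pos hr _
  have hs1 : M.qf z' ≤ s := le_max_left _ _
  have hs2 : r ^ 2 ≤ s := le_max_right _ _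
  have hinv : 1 / s ≤ 1 / r ^ 2 := one_div_le_one_div_of_le hr2 hs2
  have h1 : kk r (M.qf z) ≤ 2 / r ^ 2 := by
    refine (E3_kk_le hr hq).trans ?_
    have : r ^ 2 ≤ max (M.qf z) (r ^ 2) := le_max_right _ _
    gcongr
  have hl0 : 0 ≤ len z' := E3_len_nonneg _
  have h2 : (kk r (M.qf z') - kk r (M.qf z)) * len z' ≤ 3 * B ^ 2 / r ^ 2 * D := by
    rcases le_total D (len z') with h | h
    · have ht := E3_tangent hr hqq
      have hsub := E3_qf_sub hM z z'
      have h3 : len (z + z') ≤ 3 * len z' := by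
        have e2 : z + z' = (z - z') + ((2 : ℝ) • z') := by
          rw [two_smul]; abel
        rw [e2]
        refine (E3_len_add _ _).trans ?_
        rw [E3_len_smul, abs_of_pos (by norm_num : (0:ℝ) < 2)]
        linarith
      have h4 : M.qf z - M.qf z' ≤ B * (3 * len z' * D) := by
        refine hsub.trans ?_
        gcongr
      have h5 : kk r (M.qf z') - kk r (M.qf z) ≤ B * (3 * len z' * D) / s ^ 2 := by
        refine ht.trans ?_
        gcongr
      calc (kk r (M.qf z') - kk r (M.qf z)) * len z'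
          ≤ B * (3 * len z' * D) / s ^ 2 * len z' := by gcongr
        _ = 3 * B * D / s ^ 2 * len z' ^ 2 := by ring
        _ ≤ 3 * B * D / s ^ 2 * (B * s) := by
            have : len z' ^ 2 ≤ B * s := hlow.trans (by gcongr)
            gcongr
        _ = 3 * B ^ 2 * D * (1 / s) := by field_simp
        _ ≤ 3 * B ^ 2 * D * (1 / r ^ 2) := by gcongr
        _ = 3 * B ^ 2 / r ^ 2 * D := by ring
    · have h3 : kk r (M.qf z') - kk r (M.qf z) ≤ 2 * (1 / r ^ 2) := by
        have h4 := E3_kk_le hr hq'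
        have h5 := E3_kk_pos hr (M.qf z)
        have h6 : 2 / s = 2 * (1 / s) := by ring
        linarith
      calc (kk r (M.qf z') - kk r (M.qf z)) * len z'
          ≤ 2 * (1 / r ^ 2) * D := by
            have := sub_nonneg.2 (E3_kk_mono hr hqq)
            gcongr
        _ ≤ (3 * B ^ 2) * (1 / r ^ 2) * D := by
            gcongr
            nlinarith
        _ = 3 * B ^ 2 / r ^ 2 * D := by ring
  have h6 : kk r (M.qf z) * D ≤ B ^ 2 / r ^ 2 * D := by
    refine mul_le_mul_of_nonneg_right (h1.trans ?_) hD0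
    gcongr
    nlinarith
  calc kk r (M.qf z) * D + (kk r (M.qf z') - kk r (M.qf z)) * len z'
      ≤ B ^ 2 / r ^ 2 * D + 3 * B ^ 2 / r ^ 2 * D := add_le_add h6 h2
    _ = 4 * B ^ 2 / r ^ 2 * D := by ring

theorem E3_len_sub_comm (z w : ℝ × ℝ) : len (z - w) = len (w - z) := by
  unfold len
  congr 1
  simp only [Prod.fst_sub, Prod.snd_sub]
  ring

theorem E3_lip1 {B : ℝ} (hB : 2 ≤ B) {M : SymM} (hM : Unim B M) {r : ℝ} (hr : 0 < r)
    (z z' : ℝ × ℝ) :
    len (kk r (M.qf z) • z - kk r (M.qf z') • z') ≤ 4 * B ^ 2 / r ^ 2 * len (z - z') := by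
  rcases le_total (M.qf z') (M.qf z) with h | h
  · exact E3_lip_aux hB hM hr z z' h
  · rw [E3_len_sub_comm, E3_len_sub_comm z z']
    exact E3_lip_aux hB hM hr z' z h

theorem E3_lip {B : ℝ} (hB : 2 ≤ B) {M : SymM} (hM : Unim B M) {r A : ℝ} (hr : 0 < r)
    (hA : r < A) (z z' : ℝ × ℝ) :
    len (Kf M r A z - Kf M r A z') ≤ 10 * B ^ 2 / r ^ 2 * len (z - z') := by
  have hA0 : 0 < A := hr.trans hA
  have h1 := E3_lip1 hB hM hr z z'
  have h2 := E3_lip1 hB hM hA0 z z'
  have e : Kf M r A z - Kf M r A z' = (1 / (2 * Real.pi)) •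
      ((kk r (M.qf z) • z - kk r (M.qf z') • z')
        + (-1 : ℝ) • (kk A (M.qf z) • z - kk A (M.qf z') • z')) := by
    unfold Kf
    ext <;> simp only [Prod.fst_sub, Prod.snd_sub, Prod.smul_fst, Prod.smul_snd, Prod.fst_add,
        Prod.snd_add, smul_eq_mul] <;> ring
  have hpi := Real.pi_gt_three
  have hpi0 := Real.pi_pos
  rw [e, E3_len_smul, abs_of_pos (by positivity)]
  have h3 := E3_len_add (kk r (M.qf z) • z - kk r (M.qf z') • z')
    ((-1 : ℝ) • (kk A (M.qf z) • z - kk A (M.qf z') • z'))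
  rw [E3_len_smul (-1), abs_neg, abs_one, one_mul] at h3
  have hD0 : 0 ≤ len (z - z') := E3_len_nonneg _
  have h4 : 4 * B ^ 2 / A ^ 2 * len (z - z') ≤ 4 * B ^ 2 / r ^ 2 * len (z - z') := by
    gcongr
  have h5 : 1 / (2 * Real.pi) ≤ 1 := by
    rw [div_le_one (by positivity)]
    linarith
  calc 1 / (2 * Real.pi) * len ((kk r (M.qf z) • z - kk r (M.qf z') • z')
        + (-1 : ℝ) • (kk A (M.qf z) • z - kk A (M.qf z') • z'))
      ≤ 1 * (8 * B ^ 2 / r ^ 2 * len (z - z')) := by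
        refine mul_le_mul h5 ?_ (E3_len_nonneg _) zero_le_one
        have : 8 * B ^ 2 / r ^ 2 * len (z - z') = 4 * B ^ 2 / r ^ 2 * len (z - z')
          + 4 * B ^ 2 / r ^ 2 * len (z - z') := by ring
        linarith
    _ ≤ 10 * B ^ 2 / r ^ 2 * len (z - z') := by
        rw [one_mul]
        gcongr
        norm_num

theorem E3_Kf_zero {M : SymM} {r A : ℝ} (hr : 0 < r) (hA : r < A) (z : ℝ × ℝ)
    (hz : A ^ 2 ≤ M.qf z) : Kf M r A z = 0 := by
  have h : r ^ 2 ≤ M.qf z := le_trans (by gcongr) hz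
  unfold Kf kk
  rw [if_pos hz, if_pos h]
  simp

/-! ### integrals -/

theorem E3_qf_cont (M : SymM) : Continuous M.qf := by
  have : M.qf = fun v => M.a * v.1 ^ 2 + 2 * M.b * v.1 * v.2 + M.c * v.2 ^ 2 := rfl
  rw [this]
  fun_prop

theorem E3_radial (hE0 : StmtE0) {B : ℝ} {M : SymM} (hM : Unim B M) {f : ℝ → ℝ}
    (hf : Measurable f) (hf0 : ∀ w, 0 ≤ w → 0 ≤ f w) (hi : IntegrableOn f (Ioi 0)) :
    Integrable (fun z : ℝ × ℝ => f (M.qf z)) ∧
      ∫ z : ℝ × ℝ, f (M.qf z) = Real.pi * ∫ w in Ioi (0 : ℝ), f w := by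
  have hmeas : Measurable (fun z : ℝ × ℝ => f (M.qf z)) := hf.comp (E3_qf_cont M).measurable
  have hnn : ∀ z, 0 ≤ f (M.qf z) := fun z => hf0 _ (E3_qf_nonneg hM z)
  have h1 := hE0 M hM.1 hM.2.1 (fun w => ENNReal.ofReal (f w)) hf.ennreal_ofReal
  have h2 : ∫⁻ w in Ioi (0 : ℝ), ENNReal.ofReal (f w) = ENNReal.ofReal (∫ w in Ioi (0 : ℝ), f w) := by
    rw [ofReal_integral_eq_lintegral_ofReal hi]
    refine (ae_restrict_iff' measurableSet_Ioi).2 (ae_of_all _ (fun w hw => ?_))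
    exact hf0 w (le_of_lt hw)
  rw [h2] at h1
  have h3 : ∫⁻ z : ℝ × ℝ, ENNReal.ofReal (f (M.qf z)) < ⊤ := by
    rw [h1]
    exact ENNReal.mul_lt_top ENNReal.ofReal_lt_top ENNReal.ofReal_lt_top
  have hint : Integrable (fun z : ℝ × ℝ => f (M.qf z)) := by
    refine ⟨hmeas.aestronglyMeasurable, ?_⟩
    rw [hasFiniteIntegral_iff_ofReal (ae_of_all _ hnn)]
    exact h3
  refine ⟨hint, ?_⟩
  rw [integral_eq_lintegral_of_nonneg_ae (ae_of_all _ hnn) hmeas.aestronglyMeasurable, h1,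
    ENNReal.toReal_mul, ENNReal.toReal_ofReal Real.pi_pos.le, ENNReal.toReal_ofReal]
  exact setIntegral_nonneg measurableSet_Ioi (fun w hw => hf0 w (le_of_lt hw))

theorem E3_Ioi {f : ℝ → ℝ} (hf : Continuous f) {a : ℝ} (ha : 0 ≤ a)
    (hz : ∀ w, a < w → f w = 0) :
    IntegrableOn f (Ioi 0) ∧ ∫ w in Ioi (0 : ℝ), f w = ∫ w in (0 : ℝ)..a, f w := by
  have h1 : IntegrableOn f (Ioc 0 a) := (hf.integrableOn_Icc).mono_set Ioc_subset_Icc_self
  constructor
  · have h2 : IntegrableOn f (Ioi a) := by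
      have h0 : IntegrableOn (fun _ : ℝ => (0 : ℝ)) (Ioi a) := integrableOn_zero
      refine h0.congr_fun (fun w hw => ?_) measurableSet_Ioi
      exact (hz w hw).symm
    have h3 : Ioi (0 : ℝ) = Ioc 0 a ∪ Ioi a := (Ioc_union_Ioi_eq_Ioi ha).symm
    rw [h3]
    exact h1.union h2
  · rw [intervalIntegral.integral_of_le ha]
    apply setIntegral_eq_of_subset_of_forall_sdiff_eq_zero measurableSet_Ioi
    · intro w hw
      exact hw.1
    · intro w hw
      apply hz
      by_contra hcon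
      push Not at hcon
      exact hw.2 ⟨hw.1, hcon⟩

theorem E3_int_cubic {r : ℝ} (hr : 0 < r) :
    ∫ w in (0 : ℝ)..(r ^ 2), ((2 * r ^ 2 - w) / r ^ 4) ^ 2 * w = 11 / 12 := by
  have hd : ∀ w ∈ uIcc (0 : ℝ) (r ^ 2), HasDerivAt
      (fun w : ℝ => (2 * r ^ 4 * w ^ 2 - 4 * r ^ 2 * w ^ 3 / 3 + w ^ 4 / 4) / r ^ 8)
      (((2 * r ^ 2 - w) / r ^ 4) ^ 2 * w) w := by
    intro w _
    have h : HasDerivAt
      (fun w : ℝ => (2 * r ^ 4 * w ^ 2 - 4 * r ^ 2 * w ^ 3 / 3 + w ^ 4 / 4) / r ^ 8)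
      ((2 * r ^ 4 * (2 * w) - 4 * r ^ 2 * (3 * w ^ 2) / 3 + (4 * w ^ 3) / 4) / r ^ 8) w := by
      have h2 := hasDerivAt_pow 2 w
      have h3 := hasDerivAt_pow 3 w
      have h4 := hasDerivAt_pow 4 w
      have := (((h2.const_mul (2 * r ^ 4)).sub ((h3.const_mul (4 * r ^ 2)).div_const 3)).add
        (h4.div_const 4)).div_const (r ^ 8)
      refine this.congr_deriv ?_
      norm_num
    refine h.congr_deriv ?_
    field_simp
    ring
  rw [intervalIntegral.integral_eq_sub_of_hasDerivAt hd]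
  · field_simp
    ring
  · apply Continuous.intervalIntegrable
    fun_prop

theorem E3_int_F {r A : ℝ} (hr : 0 < r) (hA : r < A) :
    ∫ w in (0 : ℝ)..(A ^ 2), (1 / (2 * Real.pi) * (kk r w - kk A w)) ^ 2 * w ≤
      1 / (4 * Real.pi ^ 2) * (11 / 12 + 2 * Real.log (A / r)) := by
  have hA0 : 0 < A := hr.trans hA
  have hcr := E3_kk_cont hr
  have hcA := E3_kk_cont hA0
  have hpi := Real.pi_pos
  have hF : Continuous (fun w => (1 / (2 * Real.pi) * (kk r w - kk A w)) ^ 2 * w) := by fun_prop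
  have hrA : r ^ 2 ≤ A ^ 2 := by gcongr
  rw [← intervalIntegral.integral_add_adjacent_intervals (hF.intervalIntegrable 0 (r ^ 2))
    (hF.intervalIntegrable (r ^ 2) (A ^ 2)), mul_add]
  have hdiff : ∀ w, 0 ≤ w → (1 / (2 * Real.pi) * (kk r w - kk A w)) ^ 2 ≤
      1 / (4 * Real.pi ^ 2) * kk r w ^ 2 := by
    intro w _
    have h1 := E3_kk_anti hr hA.le w
    have h2 := E3_kk_pos hA0 w
    have h3 : (kk r w - kk A w) ^ 2 ≤ kk r w ^ 2 :=
      pow_le_pow_left₀ (by linarith) (by linarith) 2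
    calc (1 / (2 * Real.pi) * (kk r w - kk A w)) ^ 2
        = 1 / (4 * Real.pi ^ 2) * (kk r w - kk A w) ^ 2 := by
          rw [mul_pow]; congr 1; field_simp; norm_num
      _ ≤ _ := by gcongr
  apply add_le_add
  · rw [← E3_int_cubic hr, ← intervalIntegral.integral_const_mul]
    apply intervalIntegral.integral_mono_on (by positivity) (hF.intervalIntegrable _ _)
    · apply Continuous.intervalIntegrable
      fun_prop
    · intro w hw
      have h1 := hdiff w hw.1
      have h2 : kk r w = (2 * r ^ 2 - w) / r ^ 4 := by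
        rw [E3_kk_eq hr, max_eq_right hw.2]
        ring_nf
      calc (1 / (2 * Real.pi) * (kk r w - kk A w)) ^ 2 * w
          ≤ 1 / (4 * Real.pi ^ 2) * kk r w ^ 2 * w := mul_le_mul_of_nonneg_right h1 hw.1
        _ = 1 / (4 * Real.pi ^ 2) * (((2 * r ^ 2 - w) / r ^ 4) ^ 2 * w) := by rw [h2]; ring
  · have hlog : ∫ w in (r ^ 2)..(A ^ 2), 1 / w = 2 * Real.log (A / r) := by
      rw [integral_one_div_of_pos (by positivity) (by positivity), ← div_pow, Real.log_pow]
      norm_num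
    rw [← hlog, ← intervalIntegral.integral_const_mul]
    apply intervalIntegral.integral_mono_on hrA (hF.intervalIntegrable _ _)
    · apply ContinuousOn.intervalIntegrable
      rw [uIcc_of_le hrA]
      apply ContinuousOn.mul continuousOn_const
      apply ContinuousOn.div continuousOn_const continuousOn_id
      intro w hw
      have : 0 < r ^ 2 := by positivity
      exact (lt_of_lt_of_le this hw.1).ne'
    · intro w hw
      have hw0 : 0 < w := lt_of_lt_of_le (by positivity) hw.1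
      have h1 := hdiff w hw0.le
      have h2 : kk r w = 1 / w := by
        unfold kk
        rw [if_pos hw.1]
      calc (1 / (2 * Real.pi) * (kk r w - kk A w)) ^ 2 * w
          ≤ 1 / (4 * Real.pi ^ 2) * kk r w ^ 2 * w := mul_le_mul_of_nonneg_right h1 hw0.le
        _ = 1 / (4 * Real.pi ^ 2) * (1 / w) := by rw [h2]; field_simp

theorem E3_qf_smul (M : SymM) (c : ℝ) (z : ℝ × ℝ) : M.qf (c • z) = c ^ 2 * M.qf z := by
  unfold SymM.qf
  simp only [Prod.smul_fst, Prod.smul_snd, smul_eq_mul]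
  ring

theorem E3_energy (hE0 : StmtE0) {B : ℝ} {M : SymM} (hM : Unim B M) {r A : ℝ} (hr : 0 < r)
    (hA : r < A) :
    (∫ z : ℝ × ℝ, M.qf (Kf M r A z) ≤ 1 / (2 * Real.pi) * (Real.log (A / r) + 1 / 2)) ∧
      Integrable (fun z : ℝ × ℝ => M.qf (Kf M r A z)) := by
  have hA0 : 0 < A := hr.trans hA
  have hcr := E3_kk_cont hr
  have hcA := E3_kk_cont hA0
  have hpi := Real.pi_pos
  have hF : Continuous (fun w => (1 / (2 * Real.pi) * (kk r w - kk A w)) ^ 2 * w) := by fun_prop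
  have hrA : r ^ 2 ≤ A ^ 2 := by gcongr
  have hI := E3_Ioi hF (sq_nonneg A) (fun w hw => by
    have h1 : A ^ 2 ≤ w := hw.le
    have h2 : r ^ 2 ≤ w := hrA.trans h1
    simp [kk, h1, h2])
  have hR := E3_radial hE0 hM hF.measurable (fun w hw => by positivity) hI.1
  have he : (fun z : ℝ × ℝ => M.qf (Kf M r A z)) =
      fun z : ℝ × ℝ => (1 / (2 * Real.pi) * (kk r (M.qf z) - kk A (M.qf z))) ^ 2 * M.qf z := by
    funext z
    unfold Kf
    rw [E3_qf_smul]
  rw [he]
  refine ⟨?_, hR.1⟩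
  rw [hR.2, hI.2]
  calc Real.pi * ∫ w in (0 : ℝ)..(A ^ 2), (1 / (2 * Real.pi) * (kk r w - kk A w)) ^ 2 * w
      ≤ Real.pi * (1 / (4 * Real.pi ^ 2) * (11 / 12 + 2 * Real.log (A / r))) := by
        have := E3_int_F hr hA
        gcongr
    _ = 1 / (2 * Real.pi) * (Real.log (A / r) + 11 / 24) := by
        field_simp
        ring
    _ ≤ 1 / (2 * Real.pi) * (Real.log (A / r) + 1 / 2) :=
        mul_le_mul_of_nonneg_left (by linarith) (by positivity)

theorem E3_th_cont (M : SymM) (r : ℝ) : Continuous (th M r) := by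
  have h : th M r = fun z => 2 / (Real.pi * r ^ 2) * max (1 - M.qf z / r ^ 2) 0 := rfl
  have := E3_qf_cont M
  rw [h]
  fun_prop

theorem E3_th_int (hE0 : StmtE0) {B : ℝ} {M : SymM} (hM : Unim B M) {r : ℝ} (hr : 0 < r) :
    Integrable (th M r) ∧ ∫ z : ℝ × ℝ, th M r z = 1 := by
  have hpi := Real.pi_pos
  have hF : Continuous (fun w : ℝ => 2 / (Real.pi * r ^ 2) * max (1 - w / r ^ 2) 0) := by
    fun_prop
  have hI := E3_Ioi hF (sq_nonneg r) (fun w hw => by
    have h1 : 1 ≤ w / r ^ 2 := by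
      rw [one_le_div (by positivity)]
      exact hw.le
    rw [max_eq_right (by linarith), mul_zero])
  have hR := E3_radial hE0 hM hF.measurable (fun w hw => by positivity) hI.1
  have he : th M r = fun z : ℝ × ℝ => 2 / (Real.pi * r ^ 2) * max (1 - M.qf z / r ^ 2) 0 := rfl
  rw [he]
  refine ⟨hR.1, ?_⟩
  rw [hR.2, hI.2]
  have h2 : ∫ w in (0 : ℝ)..(r ^ 2), 2 / (Real.pi * r ^ 2) * max (1 - w / r ^ 2) 0
      = ∫ w in (0 : ℝ)..(r ^ 2), 2 / (Real.pi * r ^ 2) * (1 - w / r ^ 2) := by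
    apply intervalIntegral.integral_congr
    intro w hw
    rw [uIcc_of_le (by positivity)] at hw
    have h1 : w / r ^ 2 ≤ 1 := by
      rw [div_le_one (by positivity)]
      exact hw.2
    simp only []
    rw [max_eq_left (by linarith)]
  rw [h2]
  have hd : ∀ w ∈ uIcc (0 : ℝ) (r ^ 2), HasDerivAt
      (fun w : ℝ => 2 / (Real.pi * r ^ 2) * (w - w ^ 2 / (2 * r ^ 2)))
      (2 / (Real.pi * r ^ 2) * (1 - w / r ^ 2)) w := by
    intro w _
    have h2 := hasDerivAt_pow 2 w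
    have := (((hasDerivAt_id w).sub (h2.div_const (2 * r ^ 2))).const_mul (2 / (Real.pi * r ^ 2)))
    refine this.congr_deriv ?_
    field_simp
    norm_num
    ring
  rw [intervalIntegral.integral_eq_sub_of_hasDerivAt hd
    (Continuous.intervalIntegrable (by fun_prop) _ _)]
  field_simp
  ring

theorem E3_half {μ : Measure (ℝ × ℝ)} {e : ℝ × ℝ → ℝ × ℝ} (he : MeasurePreserving e μ μ)
    (hem : MeasurableEmbedding e) {S : Set (ℝ × ℝ)} (hS : MeasurableSet S)
    (heS : e ⁻¹' S =ᵐ[μ] Sᶜ) {f : ℝ × ℝ → ℝ} (hf : Integrable f μ) (hfe : ∀ z, f (e z) = f z) :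
    ∫ z in S, f z ∂μ = (∫ z, f z ∂μ) / 2 := by
  have h1 : ∫ z in S, f z ∂μ = ∫ z in Sᶜ, f z ∂μ := by
    have h3 : ∫ z in e ⁻¹' S, f z ∂μ = ∫ z in Sᶜ, f z ∂μ := setIntegral_congr_set heS
    rw [← h3, ← he.setIntegral_preimage_emb hem f S]
    simp only [hfe]
  have h2 := integral_add_compl hS hf
  linarith

theorem E3_refl1 : MeasurePreserving (fun z : ℝ × ℝ => (-z.1, z.2)) volume volume ∧
    MeasurableEmbedding (fun z : ℝ × ℝ => (-z.1, z.2)) := by
  constructor
  · exact (Measure.measurePreserving_neg (volume : Measure ℝ)).prod (MeasurePreserving.id volume)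
  · exact ((MeasurableEquiv.neg ℝ).prodCongr (MeasurableEquiv.refl ℝ)).measurableEmbedding

theorem E3_refl2 : MeasurePreserving (fun z : ℝ × ℝ => (z.1, -z.2)) volume volume ∧
    MeasurableEmbedding (fun z : ℝ × ℝ => (z.1, -z.2)) := by
  constructor
  · exact (MeasurePreserving.id volume).prod (Measure.measurePreserving_neg (volume : Measure ℝ))
  · exact ((MeasurableEquiv.refl ℝ).prodCongr (MeasurableEquiv.neg ℝ)).measurableEmbedding

theorem E3_null1 : ∀ᵐ z : ℝ × ℝ, z.1 ≠ 0 := by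
  have h : (volume : Measure (ℝ × ℝ)) {z | z.1 = 0} = 0 := by
    have : {z : ℝ × ℝ | z.1 = 0} = {0} ×ˢ univ := by ext z; simp
    rw [this, Measure.volume_eq_prod, Measure.prod_prod]
    simp
  exact (measure_eq_zero_iff_ae_notMem).1 h

theorem E3_null2 : ∀ᵐ z : ℝ × ℝ, z.2 ≠ 0 := by
  have h : (volume : Measure (ℝ × ℝ)) {z | z.2 = 0} = 0 := by
    have : {z : ℝ × ℝ | z.2 = 0} = univ ×ˢ {0} := by ext z; simp
    rw [this, Measure.volume_eq_prod, Measure.prod_prod]
    simp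
  exact (measure_eq_zero_iff_ae_notMem).1 h

theorem E3_sgn {s x : ℝ} (hs : s = 1 ∨ s = -1) (hx : x ≠ 0) : 0 ≤ s * -x ↔ ¬ 0 ≤ s * x := by
  rcases hs with h | h <;> subst h
  · constructor
    · intro h1 h2
      apply hx
      linarith
    · intro h1
      push Not at h1
      linarith
  · constructor
    · intro h1 h2
      apply hx
      linarith
    · intro h1
      push Not at h1
      linarith

theorem E3_quad (hE0 : StmtE0) {r : ℝ} (hr : 0 < r) {s : ℝ × ℝ} (hs1 : s.1 = 1 ∨ s.1 = -1)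
    (hs2 : s.2 = 1 ∨ s.2 = -1) : ∫ z in Quad s, th oneM r z = 1 / 4 := by
  have hM : Unim 2 oneM := by
    refine ⟨?_, ?_, ?_⟩
    · norm_num [oneM]
    · norm_num [oneM, SymM.det]
    · norm_num [oneM, SymM.tr]
  obtain ⟨hi, hone⟩ := E3_th_int hE0 hM hr
  have hm1 : MeasurableSet {z : ℝ × ℝ | 0 ≤ s.1 * z.1} :=
    measurableSet_le measurable_const (measurable_fst.const_mul _)
  have hm2 : MeasurableSet {z : ℝ × ℝ | 0 ≤ s.2 * z.2} :=
    measurableSet_le measurable_const (measurable_snd.const_mul _)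
  have h1 : ∫ z in {z : ℝ × ℝ | 0 ≤ s.1 * z.1}, th oneM r z = 1 / 2 := by
    rw [E3_half E3_refl1.1 E3_refl1.2 hm1 _ hi, hone]
    · intro z
      simp [th, oneM, SymM.qf]
    · filter_upwards [E3_null1] with z hz
      exact propext (E3_sgn hs1 hz)
  have h2 : ∫ z in {z : ℝ × ℝ | 0 ≤ s.2 * z.2}, th oneM r z
      ∂(volume.restrict {z : ℝ × ℝ | 0 ≤ s.1 * z.1}) = 1 / 4 := by
    have hpre : (fun z : ℝ × ℝ => (z.1, -z.2)) ⁻¹' {z : ℝ × ℝ | 0 ≤ s.1 * z.1}
        = {z : ℝ × ℝ | 0 ≤ s.1 * z.1} := rfl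
    have hmp := E3_refl2.1.restrict_preimage_emb E3_refl2.2 {z : ℝ × ℝ | 0 ≤ s.1 * z.1}
    rw [hpre] at hmp
    rw [E3_half hmp E3_refl2.2 hm2 _ hi.integrableOn, h1]
    · norm_num
    · intro z
      simp [th, oneM, SymM.qf]
    · apply ae_restrict_of_ae
      filter_upwards [E3_null2] with z hz
      exact propext (E3_sgn hs2 hz)
  rw [Measure.restrict_restrict hm2] at h2
  have h3 : Quad s = {z : ℝ × ℝ | 0 ≤ s.2 * z.2} ∩ {z : ℝ × ℝ | 0 ≤ s.1 * z.1} := by
    ext z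
    simp only [Quad, mem_ofPred_eq, mem_inter_iff]
    exact and_comm
  rw [h3, h2]

theorem E3 (hE0 : StmtE0) : StmtE3 := by
  intro B M hB hM r A hr hA
  obtain ⟨h1, h2⟩ := E3_energy hE0 hM hr hA
  have hpi := Real.pi_pos
  refine ⟨h1, h2, fun z => ⟨E3_low hM z, E3_up hM z⟩, E3_bound hB hM hr hA, E3_lip hB hM hr hA,
    E3_Kf_zero hr hA, (E3_th_int hE0 hM hr).2, fun z => ⟨?_, ?_⟩,
    fun s hs1 hs2 => E3_quad hE0 hr hs1 hs2⟩
  · unfold th
    positivity
  · unfold th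
    have hq := E3_qf_nonneg hM z
    have h3 : max (1 - M.qf z / r ^ 2) 0 ≤ 1 := by
      apply max_le _ zero_le_one
      have : 0 ≤ M.qf z / r ^ 2 := by positivity
      linarith
    calc 2 / (Real.pi * r ^ 2) * max (1 - M.qf z / r ^ 2) 0 ≤ 2 / (Real.pi * r ^ 2) * 1 := by
          gcongr
      _ = _ := mul_one _

end Match2D
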