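import Pool.Agent.Work.MP_884187_pr.KerDefs

/-!
MP_884187_pr, item E5: a lattice sum.
-/

open MeasureTheory Set Filter Topology

namespace Match2D

/-- A sum over `d < m` of a function of the distance of `d` to `k`. -/
theorem E5_sum (f : ℕ → ℝ) (hf : ∀ j, 0 ≤ f j) (m k : ℕ) (hk : k ≤ m) :
    ∑ d ∈ Finset.range m, f (Nat.dist d k) ≤ 2 * ∑ j ∈ Finset.range (m + 1), f j := by
  have h1 : ∑ d ∈ Finset.range k, f (Nat.dist d k) ≤ ∑ j ∈ Finset.range (m + 1), f j := by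
    have : ∑ d ∈ Finset.range k, f (Nat.dist d k) = ∑ d ∈ Finset.range k, f (d + 1) := by
      rw [← Finset.sum_range_reflect (fun d => f (d + 1)) k]
      refine Finset.sum_congr rfl fun d hd => ?_
      have hd' : d < k := Finset.mem_range.1 hd
      congr 1
      rw [Nat.dist_eq_sub_of_le hd'.le]
      omega
    rw [this]
    calc ∑ d ∈ Finset.range k, f (d + 1) ≤ ∑ d ∈ Finset.range (k + 1), f d := by
          rw [Finset.sum_range_succ']
          linarith [hf 0]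
      _ ≤ ∑ j ∈ Finset.range (m + 1), f j :=
          Finset.sum_le_sum_of_subset_of_nonneg
            (Finset.range_subset_range.2 (by omega)) (fun i _ _ => hf i)
  have h2 : ∑ d ∈ Finset.Ico k m, f (Nat.dist d k) ≤ ∑ j ∈ Finset.range (m + 1), f j := by
    rw [Finset.sum_Ico_eq_sum_range]
    have : ∑ d ∈ Finset.range (m - k), f (Nat.dist (k + d) k)
        = ∑ d ∈ Finset.range (m - k), f d := by
      refine Finset.sum_congr rfl fun d _ => ?_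
      congr 1
      rw [Nat.dist_comm, Nat.dist_eq_sub_of_le (Nat.le_add_right k d)]
      omega
    rw [this]
    exact Finset.sum_le_sum_of_subset_of_nonneg
      (Finset.range_subset_range.2 (by omega)) (fun i _ _ => hf i)
  have h3 := Finset.sum_range_add_sum_Ico (fun d => f (Nat.dist d k)) hk
  linarith

/-- Telescoping bound of a tail of squares. -/
theorem E5_tel (j N : ℕ) :
    ∑ t ∈ Finset.range N, (1 : ℝ) / ((j : ℝ) + t + 2) ^ 2 ≤ 1 / ((j : ℝ) + 1) := by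
  have key : ∀ N : ℕ, ∑ t ∈ Finset.range N, (1 : ℝ) / ((j : ℝ) + t + 2) ^ 2
      ≤ 1 / ((j : ℝ) + 1) - 1 / ((j : ℝ) + N + 1) := by
    intro N
    induction N with
    | zero => simp
    | succ n ih =>
      rw [Finset.sum_range_succ]
      have hj : (0 : ℝ) ≤ j := Nat.cast_nonneg j
      have hn : (0 : ℝ) ≤ n := Nat.cast_nonneg n
      have h1 : (1 : ℝ) / ((j : ℝ) + n + 2) ^ 2
          ≤ 1 / ((j : ℝ) + n + 1) - 1 / ((j : ℝ) + ((n + 1 : ℕ) : ℝ) + 1) := by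
        have e1 : 1 / ((j : ℝ) + n + 1) - 1 / ((j : ℝ) + ((n + 1 : ℕ) : ℝ) + 1)
            = 1 / (((j : ℝ) + n + 1) * ((j : ℝ) + n + 2)) := by
          push_cast
          have a1 : (j : ℝ) + n + 1 ≠ 0 := by positivity
          have a2 : (j : ℝ) + n + 2 ≠ 0 := by positivity
          have a3 : (j : ℝ) + (n + 1) + 1 ≠ 0 := by positivity
          field_simp
          ring
        rw [e1]
        apply one_div_le_one_div_of_le
        · positivity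
        · nlinarith
      linarith
  refine (key N).trans ?_
  have : (0 : ℝ) ≤ 1 / ((j : ℝ) + N + 1) := by positivity
  linarith

/-- One coordinate: the distance of `a` to the centre `d + 1/2`. -/
theorem E5_coord (a : ℝ) (ha : 0 ≤ a) (d : ℕ) :
    ((Nat.dist d ⌊a⌋₊ : ℕ) : ℝ) + 1 ≤ 2 * max |a - ((d : ℝ) + 1 / 2)| 1 := by
  have h1 : (⌊a⌋₊ : ℝ) ≤ a := Nat.floor_le ha
  have h2 : a < (⌊a⌋₊ : ℝ) + 1 := Nat.lt_floor_add_one a
  set k := ⌊a⌋₊ with hk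
  have key : ((Nat.dist d k : ℕ) : ℝ) - 1 / 2 ≤ |a - ((d : ℝ) + 1 / 2)| := by
    rcases le_total d k with h | h
    · rw [Nat.dist_eq_sub_of_le h, Nat.cast_sub h]
      refine le_trans ?_ (le_abs_self _)
      linarith
    · rw [Nat.dist_comm, Nat.dist_eq_sub_of_le h, Nat.cast_sub h]
      refine le_trans ?_ (neg_le_abs _)
      linarith
  by_cases hd : Nat.dist d k ≤ 1
  · have : ((Nat.dist d k : ℕ) : ℝ) ≤ 1 := by exact_mod_cast hd
    have := le_max_right |a - ((d : ℝ) + 1 / 2)| 1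
    linarith
  · have h3 : (2 : ℝ) ≤ ((Nat.dist d k : ℕ) : ℝ) := by
      have : 2 ≤ Nat.dist d k := by omega
      exact_mod_cast this
    have := le_max_left |a - ((d : ℝ) + 1 / 2)| 1
    linarith

theorem E5_abs_fst_le (v : ℝ × ℝ) : |v.1| ≤ len v := by
  unfold len
  apply Real.abs_le_sqrt
  nlinarith [sq_nonneg v.2]

theorem E5_abs_snd_le (v : ℝ × ℝ) : |v.2| ≤ len v := by
  unfold len
  apply Real.abs_le_sqrt
  nlinarith [sq_nonneg v.1]

/-- One term of the lattice sum. -/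
theorem E5_term (m : ℕ) (hm : 2 ≤ m) (y : ℝ × ℝ) (hy : y ∈ Sq) (d1 d2 : ℕ) :
    ((max (len (y.1 - ((d1 : ℝ) + 1 / 2) / m, y.2 - ((d2 : ℝ) + 1 / 2) / m)) (1 / m)) ^ 2)⁻¹
      ≤ (m : ℝ) ^ 2 * (16 * (1 / (((Nat.dist d1 ⌊(m : ℝ) * y.1⌋₊ : ℕ) : ℝ)
          + ((Nat.dist d2 ⌊(m : ℝ) * y.2⌋₊ : ℕ) : ℝ) + 2) ^ 2)) := by
  obtain ⟨hy1, hy2⟩ := hy
  have hm0 : (0 : ℝ) < m := by
    have : 0 < m := by omega
    exact_mod_cast this
  set L := len (y.1 - ((d1 : ℝ) + 1 / 2) / m, y.2 - ((d2 : ℝ) + 1 / 2) / m) with hL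
  set A := ((Nat.dist d1 ⌊(m : ℝ) * y.1⌋₊ : ℕ) : ℝ) with hA
  set B := ((Nat.dist d2 ⌊(m : ℝ) * y.2⌋₊ : ℕ) : ℝ) with hB
  have hA0 : 0 ≤ A := Nat.cast_nonneg _
  have hB0 : 0 ≤ B := Nat.cast_nonneg _
  have hc1 := E5_coord ((m : ℝ) * y.1) (mul_nonneg hm0.le hy1.1) d1
  have hc2 := E5_coord ((m : ℝ) * y.2) (mul_nonneg hm0.le hy2.1) d2
  have hl1 : |(m : ℝ) * y.1 - ((d1 : ℝ) + 1 / 2)| ≤ m * L := by
    have h := E5_abs_fst_le (y.1 - ((d1 : ℝ) + 1 / 2) / m, y.2 - ((d2 : ℝ) + 1 / 2) / m)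
    have e : (m : ℝ) * y.1 - ((d1 : ℝ) + 1 / 2) = m * (y.1 - ((d1 : ℝ) + 1 / 2) / m) := by
      field_simp
    rw [e, abs_mul, abs_of_pos hm0]
    exact mul_le_mul_of_nonneg_left h hm0.le
  have hl2 : |(m : ℝ) * y.2 - ((d2 : ℝ) + 1 / 2)| ≤ m * L := by
    have h := E5_abs_snd_le (y.1 - ((d1 : ℝ) + 1 / 2) / m, y.2 - ((d2 : ℝ) + 1 / 2) / m)
    have e : (m : ℝ) * y.2 - ((d2 : ℝ) + 1 / 2) = m * (y.2 - ((d2 : ℝ) + 1 / 2) / m) := by
      field_simp
    rw [e, abs_mul, abs_of_pos hm0]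
    exact mul_le_mul_of_nonneg_left h hm0.le
  have hM : (m : ℝ) * max L (1 / m) = max (m * L) 1 := by
    rw [mul_max_of_nonneg _ _ hm0.le]
    congr 1
    field_simp
  have hb1 : A + 1 ≤ 2 * max (m * L) 1 :=
    hc1.trans (mul_le_mul_of_nonneg_left (max_le_max hl1 le_rfl) (by norm_num))
  have hb2 : B + 1 ≤ 2 * max (m * L) 1 :=
    hc2.trans (mul_le_mul_of_nonneg_left (max_le_max hl2 le_rfl) (by norm_num))
  have hb : (A + B + 2) / 4 ≤ m * max L (1 / m) := by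
    rw [hM]
    linarith
  have hsum : 0 < A + B + 2 := by positivity
  have hmax : 0 < max L (1 / (m : ℝ)) := lt_max_of_lt_right (by positivity)
  have h4 : ((A + B + 2) / 4) ^ 2 ≤ (m * max L (1 / m)) ^ 2 :=
    pow_le_pow_left₀ (by positivity) hb 2
  have h5 : (m : ℝ) ^ 2 * (16 * (1 / (A + B + 2) ^ 2)) = (m : ℝ) ^ 2 * (((A + B + 2) / 4) ^ 2)⁻¹ := by
    field_simp
    norm_num
  rw [h5]
  have h6 : ((max L (1 / (m : ℝ))) ^ 2)⁻¹ = (m : ℝ) ^ 2 * (((m : ℝ) * max L (1 / m)) ^ 2)⁻¹ := by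
    field_simp
  rw [h6]
  apply mul_le_mul_of_nonneg_left _ (by positivity)
  exact inv_anti₀ (by positivity) h4

theorem E5 : StmtE5 := by
  refine ⟨256, by norm_num, ?_⟩
  intro m hm y hy
  have hm0 : (0 : ℝ) < m := by
    have : 0 < m := by omega
    exact_mod_cast this
  obtain ⟨hy1, hy2⟩ := hy
  have hk1 : ⌊(m : ℝ) * y.1⌋₊ ≤ m := by
    apply Nat.floor_le_of_le
    have := hy1.2
    nlinarith
  have hk2 : ⌊(m : ℝ) * y.2⌋₊ ≤ m := by
    apply Nat.floor_le_of_le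
    have := hy2.2
    nlinarith
  set k1 := ⌊(m : ℝ) * y.1⌋₊ with hk1def
  set k2 := ⌊(m : ℝ) * y.2⌋₊ with hk2def
  -- the double sum
  have hdouble : ∑ d1 ∈ Finset.range m, ∑ d2 ∈ Finset.range m,
      (1 : ℝ) / (((Nat.dist d1 k1 : ℕ) : ℝ) + ((Nat.dist d2 k2 : ℕ) : ℝ) + 2) ^ 2
      ≤ 4 * (1 + Real.log (m + 1 : ℕ)) := by
    have s1 : ∀ d1 ∈ Finset.range m, ∑ d2 ∈ Finset.range m,
        (1 : ℝ) / (((Nat.dist d1 k1 : ℕ) : ℝ) + ((Nat.dist d2 k2 : ℕ) : ℝ) + 2) ^ 2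
        ≤ 2 * (1 / (((Nat.dist d1 k1 : ℕ) : ℝ) + 1)) := by
      intro d1 _
      have := E5_sum (fun j => (1 : ℝ) / (((Nat.dist d1 k1 : ℕ) : ℝ) + (j : ℝ) + 2) ^ 2)
        (fun j => by positivity) m k2 hk2
      refine this.trans ?_
      exact mul_le_mul_of_nonneg_left (E5_tel _ _) (by norm_num)
    refine (Finset.sum_le_sum s1).trans ?_
    have s2 := E5_sum (fun j => 2 * (1 / ((j : ℝ) + 1))) (fun j => by positivity) m k1 hk1
    refine s2.trans ?_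
    rw [← Finset.mul_sum]
    have h3 : ∑ j ∈ Finset.range (m + 1), (1 : ℝ) / ((j : ℝ) + 1) ≤ 1 + Real.log (m + 1 : ℕ) := by
      have h := harmonic_le_one_add_log (m + 1)
      have e : ((harmonic (m + 1) : ℚ) : ℝ) = ∑ j ∈ Finset.range (m + 1), (1 : ℝ) / ((j : ℝ) + 1) := by
        unfold harmonic
        push_cast
        refine Finset.sum_congr rfl fun j _ => ?_
        rw [one_div]
      rw [e] at h
      exact h
    linarith
  have hlog : 1 + Real.log (m + 1 : ℕ) ≤ 4 * Real.log m := by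
    have h2 : Real.log 2 ≤ Real.log m := Real.log_le_log (by norm_num) (by exact_mod_cast hm)
    have h3 : (0.6931471803 : ℝ) < Real.log 2 := Real.log_two_gt_d9
    have h4 : Real.log (m + 1 : ℕ) ≤ 2 * Real.log m := by
      have : 2 * Real.log m = Real.log ((m : ℝ) ^ 2) := by
        rw [Real.log_pow]; norm_num
      rw [this]
      apply Real.log_le_log
      · positivity
      · have : (2 : ℝ) ≤ m := by exact_mod_cast hm
        push_cast
        nlinarith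
    linarith
  unfold avg
  have hcard : (Fintype.card (Dig m) : ℝ) = (m : ℝ) ^ 2 := by
    simp [Dig, sq]
  rw [hcard, smul_eq_mul]
  have hsum : ∑ d : Dig m, ((max (len (y.1 - (((d.1 : ℕ) : ℝ) + 1 / 2) / m,
      y.2 - (((d.2 : ℕ) : ℝ) + 1 / 2) / m)) (1 / m)) ^ 2)⁻¹
      ≤ (m : ℝ) ^ 2 * (16 * (4 * (1 + Real.log (m + 1 : ℕ)))) := by
    have t1 : ∑ d : Dig m, ((max (len (y.1 - (((d.1 : ℕ) : ℝ) + 1 / 2) / m,
        y.2 - (((d.2 : ℕ) : ℝ) + 1 / 2) / m)) (1 / m)) ^ 2)⁻¹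
        ≤ ∑ d : Dig m, (m : ℝ) ^ 2 * (16 * (1 / (((Nat.dist (d.1 : ℕ) k1 : ℕ) : ℝ)
          + ((Nat.dist (d.2 : ℕ) k2 : ℕ) : ℝ) + 2) ^ 2)) :=
      Finset.sum_le_sum fun d _ => E5_term m hm y ⟨hy1, hy2⟩ _ _
    refine t1.trans ?_
    rw [← Finset.mul_sum, ← Finset.mul_sum]
    apply mul_le_mul_of_nonneg_left _ (by positivity)
    apply mul_le_mul_of_nonneg_left _ (by norm_num)
    rw [Fintype.sum_prod_type]
    have e := Finset.sum_range (n := m) (fun d1 => ∑ d2 ∈ Finset.range m,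
      (1 : ℝ) / (((Nat.dist d1 k1 : ℕ) : ℝ) + ((Nat.dist d2 k2 : ℕ) : ℝ) + 2) ^ 2)
    rw [e] at hdouble
    refine le_trans (le_of_eq ?_) hdouble
    refine Finset.sum_congr rfl fun d1 _ => ?_
    rw [Finset.sum_range (n := m) (fun d2 =>
      (1 : ℝ) / (((Nat.dist (d1 : ℕ) k1 : ℕ) : ℝ) + ((Nat.dist d2 k2 : ℕ) : ℝ) + 2) ^ 2)]
  calc ((m : ℝ) ^ 2)⁻¹ * _ ≤ ((m : ℝ) ^ 2)⁻¹ * ((m : ℝ) ^ 2 * (16 * (4 * (1 + Real.log (m + 1 : ℕ))))) :=
        mul_le_mul_of_nonneg_left hsum (by positivity)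
    _ = 64 * (1 + Real.log (m + 1 : ℕ)) := by
        field_simp
        ring
    _ ≤ 256 * Real.log m := by linarith

end Match2D
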