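import Pool.Agent.Work.MP_884187_pr.KerDefs
import Pool.Agent.Work.MP_884187_pr.Bd.B01

/-!
MP_884187_pr, item E6: assembly of the kernels of the upper bound.
-/

open MeasureTheory Set Filter Topology

namespace Match2D

/-! ### Fluxes -/

lemma E6_ii {g : ℝ × ℝ → ℝ} {B : ℝ} (hg : Measurable g) (hb : ∀ z, |g z| ≤ B) (y a b : ℝ) :
    IntervalIntegrable (fun s => g (s, y)) volume a b ∧
      IntervalIntegrable (fun s => g (y, s)) volume a b := by
  constructor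
  · refine (intervalIntegrable_const (c := B)).mono_fun'
      (hg.comp measurable_prodMk_right).aestronglyMeasurable ?_
    exact Filter.Eventually.of_forall (fun s => hb _)
  · refine (intervalIntegrable_const (c := B)).mono_fun'
      (hg.comp measurable_prodMk_left).aestronglyMeasurable ?_
    exact Filter.Eventually.of_forall (fun s => hb _)

lemma E6_flux_add {b b' : ℝ × ℝ → ℝ × ℝ} {f f' : ℝ × ℝ → ℝ} (h : IsFlux b f) (h' : IsFlux b' f') :
    IsFlux (fun z => b z + b' z) (fun z => f z + f' z) := by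
  obtain ⟨g1, g2, B, m1, m2, b1, b2, p1, q1, p2, q2, s⟩ := h
  obtain ⟨g1', g2', B', m1', m2', b1', b2', p1', q1', p2', q2', s'⟩ := h'
  refine ⟨fun z => g1 z + g1' z, fun z => g2 z + g2' z, B + B', m1.add m1', m2.add m2', ?_, ?_,
    ?_, ?_, ?_, ?_, ?_⟩
  · exact fun z => (abs_add_le _ _).trans (add_le_add (b1 z) (b1' z))
  · exact fun z => (abs_add_le _ _).trans (add_le_add (b2 z) (b2' z))
  · intro x hx y hy
    rw [intervalIntegral.integral_add (E6_ii m1 b1 y 0 x).1 (E6_ii m1' b1' y 0 x).1]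
    show (b (x, y)).1 + (b' (x, y)).1 = _
    rw [p1 x hx y hy, p1' x hx y hy]
  · intro y hy
    rw [intervalIntegral.integral_add (E6_ii m1 b1 y 0 1).1 (E6_ii m1' b1' y 0 1).1,
      q1 y hy, q1' y hy, add_zero]
  · intro x hx y hy
    rw [intervalIntegral.integral_add (E6_ii m2 b2 x 0 y).2 (E6_ii m2' b2' x 0 y).2]
    show (b (x, y)).2 + (b' (x, y)).2 = _
    rw [p2 x hx y hy, p2' x hx y hy]
  · intro x hx
    rw [intervalIntegral.integral_add (E6_ii m2 b2 x 0 1).2 (E6_ii m2' b2' x 0 1).2,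
      q2 x hx, q2' x hx, add_zero]
  · intro z hz
    show g1 z + g1' z + (g2 z + g2' z) = f z + f' z
    rw [← s z hz, ← s' z hz]
    ring

lemma E6_flux_congr {b b' : ℝ × ℝ → ℝ × ℝ} {f f' : ℝ × ℝ → ℝ} (h : IsFlux b f)
    (hb : ∀ z, b z = b' z) (hf : ∀ z ∈ Sq0, f z = f' z) : IsFlux b' f' := by
  obtain ⟨g1, g2, B, m1, m2, b1, b2, p1, q1, p2, q2, s⟩ := h
  refine ⟨g1, g2, B, m1, m2, b1, b2, ?_, q1, ?_, q2, ?_⟩
  · intro x hx y hy
    rw [← hb]
    exact p1 x hx y hy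
  · intro x hx y hy
    rw [← hb]
    exact p2 x hx y hy
  · intro z hz
    rw [s z hz, hf z hz]

/-! ### Cells -/

/-- The half-open cell of the digit `d`. -/
def E6_cell (m : ℕ) (d : Dig m) : Set (ℝ × ℝ) :=
  Ico (((d.1 : ℕ) : ℝ) / m) (((d.1 : ℕ) : ℝ) / m + 1 / m) ×ˢ
    Ico (((d.2 : ℕ) : ℝ) / m) (((d.2 : ℕ) : ℝ) / m + 1 / m)

/-- The closed cell of the digit `d`. -/
def E6_ccell (m : ℕ) (d : Dig m) : Set (ℝ × ℝ) :=
  Icc (((d.1 : ℕ) : ℝ) / m) (((d.1 : ℕ) : ℝ) / m + 1 / m) ×ˢ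
    Icc (((d.2 : ℕ) : ℝ) / m) (((d.2 : ℕ) : ℝ) / m + 1 / m)

/-- The centre of the cell. -/
noncomputable def E6_y (m : ℕ) (d : Dig m) : ℝ × ℝ :=
  ((((d.1 : ℕ) : ℝ) + 1 / 2) / m, (((d.2 : ℕ) : ℝ) + 1 / 2) / m)

lemma E6_meas_cell (m : ℕ) (d : Dig m) : MeasurableSet (E6_cell m d) :=
  measurableSet_Ico.prod measurableSet_Ico

lemma E6_meas_ccell (m : ℕ) (d : Dig m) : MeasurableSet (E6_ccell m d) :=
  measurableSet_Icc.prod measurableSet_Icc

lemma E6_floor {m : ℕ} (hm : 0 < m) (d : Fin m) {x : ℝ} (hx : 0 ≤ x) :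
    ⌊(m : ℝ) * x⌋₊ = (d : ℕ) ↔ x ∈ Ico (((d : ℕ) : ℝ) / m) (((d : ℕ) : ℝ) / m + 1 / m) := by
  have hm' : (0 : ℝ) < m := by exact_mod_cast hm
  rw [Nat.floor_eq_iff (mul_nonneg hm'.le hx), mem_Ico, div_le_iff₀ hm', ← add_div,
    lt_div_iff₀ hm', mul_comm x]

lemma E6_src {m : ℕ} (hm : 0 < m) (d : Dig m) {z : ℝ × ℝ} (hz : z ∈ Sq0) [Decidable (z ∈ E6_cell m d)] :
    src m d z = (if z ∈ E6_cell m d then (m : ℝ) ^ 2 else 0) - 1 := by
  have h : ((⌊(m : ℝ) * z.1⌋₊, ⌊(m : ℝ) * z.2⌋₊) = ((d.1 : ℕ), (d.2 : ℕ))) ↔ z ∈ E6_cell m d := by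
    rw [Prod.ext_iff]
    show ⌊(m : ℝ) * z.1⌋₊ = (d.1 : ℕ) ∧ ⌊(m : ℝ) * z.2⌋₊ = (d.2 : ℕ) ↔ _
    rw [E6_floor hm d.1 hz.1.1, E6_floor hm d.2 hz.2.1]
    rfl
  unfold src
  by_cases hc : z ∈ E6_cell m d
  · rw [if_pos hc, if_pos (h.mpr hc)]
  · rw [if_neg hc, if_neg (fun h' => hc (h.mp h'))]

lemma E6_vol_cell {m : ℕ} (hm : 0 < m) (d : Dig m) : volume.real (E6_cell m d) = 1 / (m : ℝ) ^ 2 := by
  have hm' : (0 : ℝ) < m := by exact_mod_cast hm
  unfold Measure.real E6_cell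
  rw [Measure.volume_eq_prod, Measure.prod_prod, Real.volume_Ico, Real.volume_Ico,
    add_sub_cancel_left, add_sub_cancel_left, ENNReal.toReal_mul,
    ENNReal.toReal_ofReal (by positivity)]
  field_simp

lemma E6_vol_ccell {m : ℕ} (hm : 0 < m) (d : Dig m) :
    volume.real (E6_ccell m d) = 1 / (m : ℝ) ^ 2 := by
  have hm' : (0 : ℝ) < m := by exact_mod_cast hm
  unfold Measure.real E6_ccell
  rw [Measure.volume_eq_prod, Measure.prod_prod, Real.volume_Icc, Real.volume_Icc,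
    add_sub_cancel_left, add_sub_cancel_left, ENNReal.toReal_mul,
    ENNReal.toReal_ofReal (by positivity)]
  field_simp

lemma E6_vol_cell_lt {m : ℕ} (d : Dig m) : volume (E6_cell m d) ≠ ⊤ := by
  unfold E6_cell
  rw [Measure.volume_eq_prod, Measure.prod_prod, Real.volume_Ico, Real.volume_Ico]
  exact ENNReal.mul_ne_top ENNReal.ofReal_ne_top ENNReal.ofReal_ne_top

lemma E6_vol_ccell_lt {m : ℕ} (d : Dig m) : volume (E6_ccell m d) ≠ ⊤ := by
  unfold E6_ccell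
  rw [Measure.volume_eq_prod, Measure.prod_prod, Real.volume_Icc, Real.volume_Icc]
  exact ENNReal.mul_ne_top ENNReal.ofReal_ne_top ENNReal.ofReal_ne_top

lemma E6_cell_sub {m : ℕ} (hm : 0 < m) (d : Dig m) :
    ((d.1 : ℕ) : ℝ) / m + 1 / m ≤ 1 ∧ ((d.2 : ℕ) : ℝ) / m + 1 / m ≤ 1 := by
  have hm' : (0 : ℝ) < m := by exact_mod_cast hm
  have h1 : (d.1 : ℕ) + 1 ≤ m := d.1.2
  have h2 : (d.2 : ℕ) + 1 ≤ m := d.2.2
  constructor
  · rw [← add_div, div_le_one hm']
    exact_mod_cast h1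
  · rw [← add_div, div_le_one hm']
    exact_mod_cast h2

/-- A point close to the centre is in the cell. -/
lemma E6_near {m : ℕ} (hm : 0 < m) (d : Dig m) {z : ℝ × ℝ} (hz : len (z - E6_y m d) < 1 / (2 * m)) :
    z ∈ E6_cell m d := by
  have hm' : (0 : ℝ) < m := by exact_mod_cast hm
  have h1 := (abs_fst_le_len (z - E6_y m d)).trans_lt hz
  have h2 := (abs_snd_le_len (z - E6_y m d)).trans_lt hz
  rw [Prod.fst_sub, abs_lt] at h1
  rw [Prod.snd_sub, abs_lt] at h2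
  have e1 : (E6_y m d).1 = ((d.1 : ℕ) : ℝ) / m + 1 / (2 * m) := by
    show (((d.1 : ℕ) : ℝ) + 1 / 2) / m = _
    field_simp
  have e2 : (E6_y m d).2 = ((d.2 : ℕ) : ℝ) / m + 1 / (2 * m) := by
    show (((d.2 : ℕ) : ℝ) + 1 / 2) / m = _
    field_simp
  have e3 : (1 : ℝ) / m = 1 / (2 * m) + 1 / (2 * m) := by
    field_simp
    norm_num
  rw [e1] at h1
  rw [e2] at h2
  exact ⟨⟨by linarith, by rw [e3]; linarith⟩, ⟨by linarith, by rw [e3]; linarith⟩⟩

lemma E6_y_mem {m : ℕ} (hm : 0 < m) (d : Dig m) : E6_y m d ∈ SqO := by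
  have hm' : (0 : ℝ) < m := by exact_mod_cast hm
  have h1 : (((d.1 : ℕ) : ℝ) + 1) ≤ m := by exact_mod_cast d.1.2
  have h2 : (((d.2 : ℕ) : ℝ) + 1) ≤ m := by exact_mod_cast d.2.2
  refine ⟨⟨?_, ?_⟩, ⟨?_, ?_⟩⟩
  · show 0 < (((d.1 : ℕ) : ℝ) + 1 / 2) / m
    positivity
  · show (((d.1 : ℕ) : ℝ) + 1 / 2) / m < 1
    rw [div_lt_one hm']
    linarith
  · show 0 < (((d.2 : ℕ) : ℝ) + 1 / 2) / m
    positivity
  · show (((d.2 : ℕ) : ℝ) + 1 / 2) / m < 1
    rw [div_lt_one hm']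
    linarith

open Classical in
/-- Correction of a kernel by two crude fluxes. -/
lemma E6_gen (hE2 : StmtE2) {m : ℕ} (hm : 0 < m) (d : Dig m) (K : ℝ × ℝ → ℝ × ℝ)
    (ψ Φ : ℝ × ℝ → ℝ) (Fψ FΦ : ℝ) (hψm : Measurable ψ) (hΦm : Measurable Φ)
    (hψ : ∀ z, |ψ z| ≤ Fψ) (hΦ : ∀ z, |Φ z| ≤ FΦ) (hψs : ∀ z, z ∉ E6_cell m d → ψ z = 0)
    (hΦs : ∀ z, z ∉ Sq → Φ z = 0) (hψi : ∫ z, ψ z = 1) (hΦi : ∫ z, Φ z = 1)
    (hK : IsFlux K (fun z => ψ z - Φ z)) :
    ∃ be : ℝ × ℝ → ℝ × ℝ, Measurable be ∧ IsFlux (fun y => K y + be y) (src m d) ∧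
      ∀ y, len (be y) ≤ (if y ∈ E6_ccell m d then 4 * (1 / m) * ((m : ℝ) ^ 2 + Fψ) else 0) +
        4 * (1 + FΦ) := by
  have hm' : (0 : ℝ) < m := by exact_mod_cast hm
  obtain ⟨hs1, hs2⟩ := E6_cell_sub hm d
  have hFψ : 0 ≤ Fψ := (abs_nonneg _).trans (hψ 0)
  have hFΦ : 0 ≤ FΦ := (abs_nonneg _).trans (hΦ 0)
  -- the subcell
  have i1 : ∫ z in E6_cell m d, ((m : ℝ) ^ 2 - ψ z) = 0 := by
    have hψi' : ∫ z in E6_cell m d, ψ z = 1 := by
      rw [← hψi]
      exact setIntegral_eq_integral_of_forall_compl_eq_zero (fun z hz => hψs z hz)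
    have hint : IntegrableOn ψ (E6_cell m d) := by
      refine Measure.integrableOn_of_bounded (M := Fψ) (E6_vol_cell_lt d) hψm.aestronglyMeasurable ?_
      exact Filter.Eventually.of_forall (fun z => hψ z)
    have hint2 : IntegrableOn (fun _ : ℝ × ℝ => (m : ℝ) ^ 2) (E6_cell m d) :=
      integrableOn_const (E6_vol_cell_lt d)
    rw [integral_sub hint2 hint, hψi', setIntegral_const, E6_vol_cell hm, smul_eq_mul]
    field_simp
    norm_num
  obtain ⟨b1, mb1, fb1, lb1, zb1⟩ := hE2 (((d.1 : ℕ) : ℝ) / m) (((d.2 : ℕ) : ℝ) / m) (1 / m)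
    ((m : ℝ) ^ 2 + Fψ) (by positivity) (by positivity) (by positivity) hs1 hs2
    (fun z => (m : ℝ) ^ 2 - ψ z) (measurable_const.sub hψm) (fun z => by
      refine (abs_sub _ _).trans ?_
      rw [abs_of_nonneg (by positivity : (0 : ℝ) ≤ (m : ℝ) ^ 2)]
      exact add_le_add (le_refl _) (hψ z)) i1
  -- the whole square
  have hSq : (Ico (0 : ℝ) (0 + 1) ×ˢ Ico (0 : ℝ) (0 + 1) : Set (ℝ × ℝ)) = Sq0 := by
    rw [zero_add]
    rfl
  have hΦi' : ∫ z in Sq0, Φ z = 1 := by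
    have h1 : ∫ z in Sq0, Φ z = ∫ z in Sq, Φ z := by
      refine setIntegral_congr_set ?_
      exact Measure.set_prod_ae_eq Ico_ae_eq_Icc Ico_ae_eq_Icc
    rw [h1, ← hΦi]
    exact setIntegral_eq_integral_of_forall_compl_eq_zero (fun z hz => hΦs z hz)
  have i2 : ∫ z in Ico (0 : ℝ) (0 + 1) ×ˢ Ico (0 : ℝ) (0 + 1), (Φ z - 1) = 0 := by
    rw [hSq]
    have hv : volume Sq0 ≠ ⊤ := by
      rw [volume_Sq0]
      exact ENNReal.one_ne_top
    have hint : IntegrableOn Φ Sq0 := by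
      refine Measure.integrableOn_of_bounded (M := FΦ) hv hΦm.aestronglyMeasurable ?_
      exact Filter.Eventually.of_forall (fun z => hΦ z)
    rw [integral_sub hint (integrableOn_const hv), hΦi', setIntegral_const]
    unfold Measure.real
    rw [volume_Sq0]
    simp
  obtain ⟨b2, mb2, fb2, lb2, zb2⟩ := hE2 0 0 1 (1 + FΦ) (le_refl _) (le_refl _) one_pos
    (by norm_num) (by norm_num) (fun z => Φ z - 1) (hΦm.sub measurable_const) (fun z => by
      refine (abs_sub _ _).trans ?_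
      rw [abs_one, add_comm]
      exact add_le_add (le_refl _) (hΦ z)) i2
  refine ⟨fun z => b1 z + b2 z, mb1.add mb2, ?_, ?_⟩
  · refine E6_flux_congr (E6_flux_add hK (E6_flux_add fb1 fb2)) (fun z => rfl) (fun z hz => ?_)
    rw [E6_src hm d hz]
    have h1 : z ∈ (Ico (0 : ℝ) (0 + 1) ×ˢ Ico (0 : ℝ) (0 + 1) : Set (ℝ × ℝ)) := by
      rw [hSq]
      exact hz
    simp only [if_pos h1]
    by_cases hc : z ∈ E6_cell m d
    · have hc' : z ∈ (Ico (((d.1 : ℕ) : ℝ) / m) (((d.1 : ℕ) : ℝ) / m + 1 / m) ×ˢ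
        Ico (((d.2 : ℕ) : ℝ) / m) (((d.2 : ℕ) : ℝ) / m + 1 / m) : Set (ℝ × ℝ)) := hc
      rw [if_pos hc, if_pos hc']
      ring
    · have hc' : z ∉ (Ico (((d.1 : ℕ) : ℝ) / m) (((d.1 : ℕ) : ℝ) / m + 1 / m) ×ˢ
        Ico (((d.2 : ℕ) : ℝ) / m) (((d.2 : ℕ) : ℝ) / m + 1 / m) : Set (ℝ × ℝ)) := hc
      rw [if_neg hc, if_neg hc', hψs z hc]
      ring
  · intro z
    refine (len_add_le _ _).trans (add_le_add ?_ ?_)
    · by_cases hc : z ∈ E6_ccell m d
      · rw [if_pos hc]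
        exact lb1 z
      · rw [if_neg hc, zb1 z hc, len_zero]
    · have h := lb2 z
      rw [mul_one] at h
      exact h

/-! ### Measurability of the kernels -/

lemma E6_meas_qf (M : SymM) : Measurable M.qf := by
  unfold SymM.qf
  fun_prop

lemma E6_meas_kk (r : ℝ) : Measurable (kk r) := by
  unfold kk
  refine Measurable.ite (measurableSet_le measurable_const measurable_id) ?_ ?_
  · exact measurable_const.div measurable_id
  · exact (measurable_const.sub measurable_id).div_const _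

lemma E6_meas_Kf (M : SymM) (r A : ℝ) : Measurable (Kf M r A) := by
  have h : Measurable (fun z => 1 / (2 * Real.pi) * (kk r (M.qf z) - kk A (M.qf z))) :=
    (((E6_meas_kk r).comp (E6_meas_qf M)).sub ((E6_meas_kk A).comp (E6_meas_qf M))).const_mul _
  exact h.smul measurable_id

lemma E6_meas_th (M : SymM) (r : ℝ) : Measurable (th M r) := by
  unfold th
  refine Measurable.const_mul ?_ _
  exact (measurable_const.sub ((E6_meas_qf M).div_const _)).max measurable_const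

lemma E6_th_zero {M : SymM} {r : ℝ} (hr : 0 < r) {z : ℝ × ℝ} (h : r ^ 2 ≤ M.qf z) :
    th M r z = 0 := by
  unfold th
  have h1 : 1 - M.qf z / r ^ 2 ≤ 0 := by
    rw [sub_nonpos, le_div_iff₀ (by positivity)]
    linarith
  rw [max_eq_right h1, mul_zero]

/-! ### Interior digits -/

/-- Interior digits. -/
def E6_Int (η : ℝ) (m : ℕ) (d : Dig m) : Prop :=
  (η ≤ (E6_y m d).1 ∧ (E6_y m d).1 ≤ 1 - η) ∧ (η ≤ (E6_y m d).2 ∧ (E6_y m d).2 ≤ 1 - η)

open Classical in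
lemma E6_inner (hE1 : StmtE1) (hE2 : StmtE2) (hE3 : StmtE3) {B η : ℝ} (hB : 2 ≤ B) (hη : 0 < η)
    {M : SymM} (hM : Unim B M) {m : ℕ} (hm : 0 < m) (d : Dig m)
    (hd : E6_Int η m d) {r A : ℝ} (hr : 0 < r) (hrA : r < A) (hr2 : r ^ 2 = 1 / (4 * (m : ℝ) ^ 2 * B))
    (hA2 : A ^ 2 = η ^ 2 / B) :
    ∃ be : ℝ × ℝ → ℝ × ℝ, Measurable be ∧
      IsFlux (fun y => Kf M r A (y - E6_y m d) + be y) (src m d) ∧
      ∀ y, len (be y) ≤ (if y ∈ E6_ccell m d then 48 * B * m else 0) +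
        4 * (1 + 2 * B / (Real.pi * η ^ 2)) := by
  have hm' : (0 : ℝ) < m := by exact_mod_cast hm
  have hB0 : 0 < B := by linarith
  have hA : 0 < A := hr.trans hrA
  have hpi := Real.pi_pos
  obtain ⟨-, -, hq, -, -, -, hi1, hb1, -⟩ := hE3 B M hB hM r A hr hrA
  obtain ⟨-, -, -, -, -, -, hi2, hb2, -⟩ := hE3 B M hB hM A (A + 1) hA (by linarith)
  have hsq : ∀ z, M.qf (z - E6_y m d) < A ^ 2 → z ∈ Sq := by
    intro z hz
    have h1 : len (z - E6_y m d) ^ 2 < η ^ 2 := by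
      calc len (z - E6_y m d) ^ 2 ≤ B * M.qf (z - E6_y m d) := (hq _).1
        _ < B * A ^ 2 := mul_lt_mul_of_pos_left hz hB0
        _ = η ^ 2 := by rw [hA2]; field_simp
    have h2 : len (z - E6_y m d) < η := lt_of_pow_lt_pow_left₀ 2 hη.le h1
    have h3 := (abs_fst_le_len (z - E6_y m d)).trans_lt h2
    have h4 := (abs_snd_le_len (z - E6_y m d)).trans_lt h2
    rw [Prod.fst_sub, abs_lt] at h3
    rw [Prod.snd_sub, abs_lt] at h4
    obtain ⟨⟨c1, c2⟩, ⟨c3, c4⟩⟩ := hd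
    exact ⟨⟨by linarith, by linarith⟩, ⟨by linarith, by linarith⟩⟩
  have hF := hE1.1 M r A (E6_y m d) hM.1 hM.2.1 hr hrA (E6_y_mem hm d) hsq
  have hms : Measurable (fun z : ℝ × ℝ => z - E6_y m d) := measurable_id.sub measurable_const
  obtain ⟨be, hbm, hbf, hbl⟩ := E6_gen hE2 hm d (fun z => Kf M r A (z - E6_y m d))
    (fun z => th M r (z - E6_y m d)) (fun z => th M A (z - E6_y m d))
    (2 / (Real.pi * r ^ 2)) (2 / (Real.pi * A ^ 2)) ((E6_meas_th M r).comp hms)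
    ((E6_meas_th M A).comp hms)
    (fun z => by rw [abs_of_nonneg (hb1 _).1]; exact (hb1 _).2)
    (fun z => by rw [abs_of_nonneg (hb2 _).1]; exact (hb2 _).2)
    (fun z hz => by
      refine E6_th_zero hr ?_
      by_contra hcon
      refine hz (E6_near hm d ?_)
      have h1 : len (z - E6_y m d) ^ 2 < (1 / (2 * (m : ℝ))) ^ 2 := by
        calc len (z - E6_y m d) ^ 2 ≤ B * M.qf (z - E6_y m d) := (hq _).1
          _ < B * r ^ 2 := mul_lt_mul_of_pos_left (not_le.mp hcon) hB0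
          _ = (1 / (2 * (m : ℝ))) ^ 2 := by rw [hr2]; field_simp; norm_num
      exact lt_of_pow_lt_pow_left₀ 2 (by positivity) h1)
    (fun z hz => by
      refine E6_th_zero hA ?_
      by_contra hcon
      exact hz (hsq z (not_le.mp hcon)))
    (by rw [integral_sub_right_eq_self (fun z => th M r z)]; exact hi1)
    (by rw [integral_sub_right_eq_self (fun z => th M A z)]; exact hi2) hF
  refine ⟨be, hbm, hbf, fun y => (hbl y).trans (add_le_add ?_ (le_of_eq ?_))⟩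
  · split_ifs
    · rw [hr2]
      have e1 : 2 / (Real.pi * (1 / (4 * (m : ℝ) ^ 2 * B))) = 8 * (m : ℝ) ^ 2 * B / Real.pi := by
        field_simp
        norm_num
      have e2 : 8 * (m : ℝ) ^ 2 * B / Real.pi ≤ 8 * (m : ℝ) ^ 2 * B / 3 := by
        refine div_le_div_of_nonneg_left (by positivity) (by norm_num) ?_
        exact Real.pi_gt_three.le
      rw [e1]
      have e3 : 4 * (1 / (m : ℝ)) * ((m : ℝ) ^ 2 + 8 * (m : ℝ) ^ 2 * B / 3) =
          4 * m * (1 + 8 * B / 3) := by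
        field_simp
      calc 4 * (1 / (m : ℝ)) * ((m : ℝ) ^ 2 + 8 * (m : ℝ) ^ 2 * B / Real.pi)
          ≤ 4 * (1 / (m : ℝ)) * ((m : ℝ) ^ 2 + 8 * (m : ℝ) ^ 2 * B / 3) := by gcongr
        _ = 4 * m * (1 + 8 * B / 3) := e3
        _ ≤ 48 * B * m := by nlinarith
    · exact le_refl _
  · rw [hA2]
    field_simp

/-! ### Boundary digits -/

lemma E6_qf_one (v : ℝ × ℝ) : oneM.qf v = len v ^ 2 := by
  rw [len_sq]
  unfold SymM.qf oneM
  ring

lemma E6_unim_one : Unim 2 oneM := by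
  refine ⟨?_, ?_, ?_⟩
  · show (0 : ℝ) < 1
    norm_num
  · show (1 : ℝ) * 1 - 0 ^ 2 = 1
    norm_num
  · show (1 : ℝ) + 1 ≤ 2
    norm_num

lemma E6_meas_Quad (s : ℝ × ℝ) : MeasurableSet (Quad s) := by
  have h1 : MeasurableSet {z : ℝ × ℝ | 0 ≤ s.1 * z.1} :=
    measurableSet_le measurable_const (measurable_fst.const_mul _)
  have h2 : MeasurableSet {z : ℝ × ℝ | 0 ≤ s.2 * z.2} :=
    measurableSet_le measurable_const (measurable_snd.const_mul _)
  exact h1.inter h2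

lemma E6_quad_int {s y₀ : ℝ × ℝ} [∀ z, Decidable (z - y₀ ∈ Quad s)] (f : ℝ × ℝ → ℝ)
    (h : ∫ z in Quad s, f z = 1 / 4) :
    ∫ z, (if z - y₀ ∈ Quad s then 4 * f (z - y₀) else 0) = 1 := by
  classical
  have h1 : ∫ z, (if z - y₀ ∈ Quad s then 4 * f (z - y₀) else 0) =
      ∫ z, (Quad s).indicator (fun v => 4 * f v) (z - y₀) := by
    refine integral_congr_ae (Filter.Eventually.of_forall fun z => ?_)
    show (if z - y₀ ∈ Quad s then 4 * f (z - y₀) else 0) = (Quad s).indicator (fun v => 4 * f v) (z - y₀)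
    rw [Set.indicator_apply]
  rw [h1, integral_sub_right_eq_self (fun z => (Quad s).indicator (fun v => 4 * f v) z),
    integral_indicator (E6_meas_Quad s), integral_const_mul, h]
  norm_num

open Classical in
lemma E6_bdry (hE1 : StmtE1) (hE2 : StmtE2) (hE3 : StmtE3) {m : ℕ} (hm : 3 ≤ m) (d : Dig m) :
    ∃ ke : ℝ × ℝ → ℝ × ℝ, Measurable ke ∧ IsFlux ke (src m d) ∧
      ∀ y, len (ke y) ≤ 4 * len (Kf oneM (1 / (2 * m)) (1 / 4) (y - E6_y m d)) +
        (if y ∈ E6_ccell m d then 48 * (m : ℝ) else 0) + 176 := by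
  have hm0 : 0 < m := by omega
  have hm' : (0 : ℝ) < m := by exact_mod_cast hm0
  have hm3 : (3 : ℝ) ≤ m := by exact_mod_cast hm
  have hpi := Real.pi_pos
  have hpi3 := Real.pi_gt_three
  set r : ℝ := 1 / (2 * m) with hrdef
  have hr : 0 < r := by positivity
  have hrA : r < 1 / 4 := by
    rw [hrdef]
    refine one_div_lt_one_div_of_lt (by norm_num) (by linarith)
  obtain ⟨-, -, -, -, -, -, -, hb1, hi1⟩ := hE3 2 oneM (le_refl _) E6_unim_one r (1 / 4) hr hrA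
  obtain ⟨-, -, -, -, -, -, -, hb2, hi2⟩ := hE3 2 oneM (le_refl _) E6_unim_one (1 / 4) 1
    (by norm_num) (by norm_num)
  obtain ⟨⟨p1, p2⟩, ⟨p3, p4⟩⟩ := E6_y_mem hm0 d
  -- the signs
  obtain ⟨s, hs1, hs2, hsq⟩ : ∃ s : ℝ × ℝ, (s.1 = 1 ∨ s.1 = -1) ∧ (s.2 = 1 ∨ s.2 = -1) ∧
      ∀ z, z - E6_y m d ∈ Quad s → len (z - E6_y m d) < 1 / 4 → z ∈ Sq := by
    have key : ∀ y : ℝ, 0 < y → y < 1 → ∃ t : ℝ, (t = 1 ∨ t = -1) ∧ ∀ x : ℝ, 0 ≤ t * (x - y) →
        |x - y| < 1 / 4 → x ∈ Icc (0 : ℝ) 1 := by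
      intro y h0 h1
      by_cases hy : y ≤ 1 / 2
      · refine ⟨1, Or.inl rfl, fun x hx hxy => ?_⟩
        rw [abs_lt] at hxy
        exact ⟨by linarith, by linarith⟩
      · refine ⟨-1, Or.inr rfl, fun x hx hxy => ?_⟩
        rw [abs_lt] at hxy
        push Not at hy
        exact ⟨by linarith, by linarith⟩
    obtain ⟨t1, ht1, hk1⟩ := key _ p1 p2
    obtain ⟨t2, ht2, hk2⟩ := key _ p3 p4
    refine ⟨(t1, t2), ht1, ht2, fun z hz hl => ?_⟩
    exact ⟨hk1 _ hz.1 ((abs_fst_le_len (z - E6_y m d)).trans_lt hl),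
      hk2 _ hz.2 ((abs_snd_le_len (z - E6_y m d)).trans_lt hl)⟩
  have hF := hE1.2 s r (1 / 4) (E6_y m d) hs1 hs2 hr hrA (E6_y_mem hm0 d) hsq
  have hms : Measurable (fun z : ℝ × ℝ => z - E6_y m d) := measurable_id.sub measurable_const
  have hmQ : MeasurableSet {z : ℝ × ℝ | z - E6_y m d ∈ Quad s} := hms (E6_meas_Quad s)
  have hmth : ∀ ρ : ℝ, Measurable (fun z : ℝ × ℝ =>
      if z - E6_y m d ∈ Quad s then 4 * th oneM ρ (z - E6_y m d) else 0) := fun ρ =>
    Measurable.ite hmQ (((E6_meas_th oneM ρ).comp hms).const_mul 4) measurable_const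
  have habs : ∀ (ρ : ℝ) (z : ℝ × ℝ), 0 < ρ → (0 ≤ th oneM ρ (z - E6_y m d) ∧
      th oneM ρ (z - E6_y m d) ≤ 2 / (Real.pi * ρ ^ 2)) →
      |(if z - E6_y m d ∈ Quad s then 4 * th oneM ρ (z - E6_y m d) else 0)| ≤
        4 * (2 / (Real.pi * ρ ^ 2)) := by
    intro ρ z hρ hz
    split_ifs
    · rw [abs_of_nonneg (mul_nonneg (by norm_num) hz.1)]
      exact mul_le_mul_of_nonneg_left hz.2 (by norm_num)
    · rw [abs_zero]
      positivity
  obtain ⟨be, hbm, hbf, hbl⟩ := E6_gen hE2 hm0 d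
    (fun z => if z - E6_y m d ∈ Quad s then (4 : ℝ) • Kf oneM r (1 / 4) (z - E6_y m d) else 0)
    (fun z => if z - E6_y m d ∈ Quad s then 4 * th oneM r (z - E6_y m d) else 0)
    (fun z => if z - E6_y m d ∈ Quad s then 4 * th oneM (1 / 4) (z - E6_y m d) else 0)
    (4 * (2 / (Real.pi * r ^ 2))) (4 * (2 / (Real.pi * (1 / 4) ^ 2))) (hmth r) (hmth (1 / 4))
    (fun z => habs r z hr (hb1 _)) (fun z => habs (1 / 4) z (by norm_num) (hb2 _))
    (fun z hz => by
      by_cases hQ : z - E6_y m d ∈ Quad s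
      · rw [if_pos hQ, E6_th_zero hr, mul_zero]
        by_contra hcon
        refine hz (E6_near hm0 d ?_)
        rw [E6_qf_one] at hcon
        exact lt_of_pow_lt_pow_left₀ 2 hr.le (not_le.mp hcon)
      · rw [if_neg hQ])
    (fun z hz => by
      by_cases hQ : z - E6_y m d ∈ Quad s
      · rw [if_pos hQ, E6_th_zero (by norm_num : (0 : ℝ) < 1 / 4), mul_zero]
        by_contra hcon
        refine hz (hsq z hQ ?_)
        rw [E6_qf_one] at hcon
        exact lt_of_pow_lt_pow_left₀ 2 (by norm_num) (not_le.mp hcon)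
      · rw [if_neg hQ])
    (E6_quad_int (fun z => th oneM r z) (hi1 s hs1 hs2))
    (E6_quad_int (fun z => th oneM (1 / 4) z) (hi2 s hs1 hs2))
    (E6_flux_congr hF (fun z => rfl) (fun z _ => by
      by_cases hQ : z - E6_y m d ∈ Quad s
      · rw [if_pos hQ, if_pos hQ, if_pos hQ]
        ring
      · rw [if_neg hQ, if_neg hQ, if_neg hQ]
        ring))
  refine ⟨fun y => (if y - E6_y m d ∈ Quad s then (4 : ℝ) • Kf oneM r (1 / 4) (y - E6_y m d) else 0) +
    be y, ?_, hbf, fun y => ?_⟩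
  · refine Measurable.add ?_ hbm
    exact Measurable.ite hmQ (((E6_meas_Kf oneM r (1 / 4)).comp hms).const_smul (4 : ℝ)) measurable_const
  · refine (len_add_le _ _).trans ?_
    rw [add_assoc]
    refine add_le_add ?_ ((hbl y).trans (add_le_add ?_ ?_))
    · by_cases hQ : y - E6_y m d ∈ Quad s
      · rw [if_pos hQ, len_smul, abs_of_pos (by norm_num : (0 : ℝ) < 4)]
      · rw [if_neg hQ, len_zero]
        exact mul_nonneg (by norm_num) (len_nonneg _)
    · split_ifs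
      · have e1 : 4 * (2 / (Real.pi * r ^ 2)) = 32 * (m : ℝ) ^ 2 / Real.pi := by
          rw [hrdef]
          field_simp
          norm_num
        have e2 : 32 * (m : ℝ) ^ 2 / Real.pi ≤ 11 * (m : ℝ) ^ 2 := by
          rw [div_le_iff₀ hpi]
          nlinarith [sq_nonneg (m : ℝ)]
        rw [e1]
        calc 4 * (1 / (m : ℝ)) * ((m : ℝ) ^ 2 + 32 * (m : ℝ) ^ 2 / Real.pi)
            ≤ 4 * (1 / (m : ℝ)) * ((m : ℝ) ^ 2 + 11 * (m : ℝ) ^ 2) := by gcongr
          _ = 48 * (m : ℝ) := by field_simp; norm_num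
      · exact le_refl _
    · have e1 : 4 * (2 / (Real.pi * (1 / 4) ^ 2)) ≤ 43 := by
        have : 4 * (2 / (Real.pi * (1 / 4) ^ 2)) = 128 / Real.pi := by
          field_simp
          norm_num
        rw [this, div_le_iff₀ hpi]
        nlinarith
      linarith

/-! ### Counting -/

lemma E6_avg_fst {m : ℕ} (hm : 0 < m) (f : Fin m → ℝ) : avg (fun d : Dig m => f d.1) = avg f := by
  have : Nonempty (Fin m) := ⟨⟨0, hm⟩⟩
  rw [avg_prod]
  exact avg_congr (fun a => avg_const (α := Fin m) (f a))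

lemma E6_avg_snd {m : ℕ} (hm : 0 < m) (f : Fin m → ℝ) : avg (fun d : Dig m => f d.2) = avg f := by
  have : Nonempty (Fin m) := ⟨⟨0, hm⟩⟩
  rw [avg_prod]
  exact avg_const (α := Fin m) (avg f)

lemma E6_avg_card {m : ℕ} (p : Fin m → Prop) [DecidablePred p] (s : Finset ℕ)
    (h : ∀ k, p k → (k : ℕ) ∈ s) :
    avg (fun k : Fin m => if p k then (1 : ℝ) else 0) ≤ (s.card : ℝ) / m := by
  unfold avg
  rw [Finset.sum_boole, Fintype.card_fin, smul_eq_mul, div_eq_inv_mul]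
  refine mul_le_mul_of_nonneg_left ?_ (by positivity)
  have h1 : (Finset.univ.filter p).card ≤ s.card := by
    refine Finset.card_le_card_of_injOn (fun k : Fin m => (k : ℕ)) ?_ ?_
    · intro k hk
      exact h k (by simpa using hk)
    · intro a _ b _ hab
      exact Fin.ext hab
  exact_mod_cast h1

lemma E6_count {m : ℕ} (hm : 0 < m) {η : ℝ} (hη : 0 ≤ η) :
    avg (fun k : Fin m => if (((k : ℕ) : ℝ) + 1 / 2) / m < η then (1 : ℝ) else 0) ≤ η + 1 / m := by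
  have hm' : (0 : ℝ) < m := by exact_mod_cast hm
  refine (E6_avg_card _ (Finset.range ⌈η * m⌉₊) ?_).trans ?_
  · intro k hk
    rw [Finset.mem_range, Nat.lt_ceil]
    rw [div_lt_iff₀ hm'] at hk
    linarith
  · rw [Finset.card_range, div_le_iff₀ hm', add_mul, one_div_mul_cancel hm'.ne']
    exact (Nat.ceil_lt_add_one (by positivity)).le

lemma E6_count2 {m : ℕ} (hm : 0 < m) (x : ℝ) :
    avg (fun k : Fin m => if x ∈ Icc (((k : ℕ) : ℝ) / m) (((k : ℕ) : ℝ) / m + 1 / m) then (1 : ℝ)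
      else 0) ≤ 2 / m := by
  have hm' : (0 : ℝ) < m := by exact_mod_cast hm
  refine (E6_avg_card _ ({⌊(m : ℝ) * x⌋₊, ⌊(m : ℝ) * x⌋₊ - 1} : Finset ℕ) ?_).trans ?_
  · intro k hk
    obtain ⟨h1, h2⟩ := hk
    rw [div_le_iff₀ hm', mul_comm] at h1
    rw [← add_div, le_div_iff₀ hm', mul_comm] at h2
    have h3 : (k : ℕ) ≤ ⌊(m : ℝ) * x⌋₊ := Nat.le_floor h1
    have h4 : ⌊(m : ℝ) * x⌋₊ ≤ (k : ℕ) + 1 := by
      have h5 : (0 : ℝ) ≤ (m : ℝ) * x := le_trans (Nat.cast_nonneg _) h1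
      have h6 := (Nat.floor_le h5).trans h2
      exact_mod_cast h6
    rw [Finset.mem_insert, Finset.mem_singleton]
    omega
  · refine div_le_div_of_nonneg_right ?_ hm'.le
    have := Finset.card_le_two (a := ⌊(m : ℝ) * x⌋₊) (b := ⌊(m : ℝ) * x⌋₊ - 1)
    exact_mod_cast this

open Classical in
lemma E6_cells {m : ℕ} (hm : 0 < m) (y : ℝ × ℝ) :
    avg (fun d : Dig m => if y ∈ E6_ccell m d then (1 : ℝ) else 0) ≤ 4 / (m : ℝ) ^ 2 := by
  have hm' : (0 : ℝ) < m := by exact_mod_cast hm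
  have h1 : ∀ d : Dig m, (if y ∈ E6_ccell m d then (1 : ℝ) else 0) =
      (if y.1 ∈ Icc (((d.1 : ℕ) : ℝ) / m) (((d.1 : ℕ) : ℝ) / m + 1 / m) then (1 : ℝ) else 0) *
      (if y.2 ∈ Icc (((d.2 : ℕ) : ℝ) / m) (((d.2 : ℕ) : ℝ) / m + 1 / m) then (1 : ℝ) else 0) := by
    intro d
    by_cases a : y.1 ∈ Icc (((d.1 : ℕ) : ℝ) / m) (((d.1 : ℕ) : ℝ) / m + 1 / m)
    · by_cases b : y.2 ∈ Icc (((d.2 : ℕ) : ℝ) / m) (((d.2 : ℕ) : ℝ) / m + 1 / m)
      · rw [if_pos a, if_pos b, if_pos (show y ∈ E6_ccell m d from ⟨a, b⟩), one_mul]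
      · rw [if_pos a, if_neg b, if_neg (fun h : y ∈ E6_ccell m d => b h.2), mul_zero]
    · rw [if_neg a, if_neg (fun h : y ∈ E6_ccell m d => a h.1), zero_mul]
  rw [avg_congr h1, avg_prod]
  have h2 : ∀ a : Fin m, avg (fun b : Fin m =>
      (if y.1 ∈ Icc (((a : ℕ) : ℝ) / m) (((a : ℕ) : ℝ) / m + 1 / m) then (1 : ℝ) else 0) *
      (if y.2 ∈ Icc (((b : ℕ) : ℝ) / m) (((b : ℕ) : ℝ) / m + 1 / m) then (1 : ℝ) else 0)) =
      (if y.1 ∈ Icc (((a : ℕ) : ℝ) / m) (((a : ℕ) : ℝ) / m + 1 / m) then (1 : ℝ) else 0) *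
      avg (fun b : Fin m =>
      (if y.2 ∈ Icc (((b : ℕ) : ℝ) / m) (((b : ℕ) : ℝ) / m + 1 / m) then (1 : ℝ) else 0)) :=
    fun a => avg_const_mul _ _
  rw [avg_congr h2, avg_mul_const]
  calc _ ≤ (2 / (m : ℝ)) * (2 / m) := by
        refine mul_le_mul (E6_count2 hm _) (E6_count2 hm _) ?_ (by positivity)
        exact avg_nonneg (fun b => by split_ifs <;> norm_num)
    _ = 4 / (m : ℝ) ^ 2 := by
        field_simp
        norm_num

open Classical in
lemma E6_bad {m : ℕ} (hm : 0 < m) {η : ℝ} (hη : 0 ≤ η) :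
    avg (fun d : Dig m => if E6_Int η m d then (0 : ℝ) else 1) ≤ 4 * (η + 1 / m) := by
  have hm' : (0 : ℝ) < m := by exact_mod_cast hm
  set f : Fin m → ℝ := fun k => if (((k : ℕ) : ℝ) + 1 / 2) / m < η then (1 : ℝ) else 0 with hf
  have hf0 : ∀ k, 0 ≤ f k := fun k => by
    rw [hf]
    dsimp only
    split_ifs <;> norm_num
  have hrev : ∀ k : Fin m, (((Fin.rev k : Fin m) : ℕ) : ℝ) = m - (((k : ℕ) : ℝ) + 1) := by
    intro k
    rw [Fin.val_rev, Nat.cast_sub k.2]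
    push_cast
    ring
  have h1 : ∀ d : Dig m, (if E6_Int η m d then (0 : ℝ) else 1) ≤
      f d.1 + f (Fin.rev d.1) + (f d.2 + f (Fin.rev d.2)) := by
    intro d
    have a1 := hf0 d.1
    have a2 := hf0 (Fin.rev d.1)
    have a3 := hf0 d.2
    have a4 := hf0 (Fin.rev d.2)
    split_ifs with hd
    · linarith
    · have key : ∀ k : Fin m, 1 - η < (((k : ℕ) : ℝ) + 1 / 2) / m → f (Fin.rev k) = 1 := by
        intro k hk
        rw [hf]
        dsimp only
        rw [if_pos]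
        rw [hrev]
        have e : ((m : ℝ) - (((k : ℕ) : ℝ) + 1) + 1 / 2) / m = 1 - (((k : ℕ) : ℝ) + 1 / 2) / m := by
          field_simp
          ring
        rw [e]
        linarith
      have key2 : ∀ k : Fin m, (((k : ℕ) : ℝ) + 1 / 2) / m < η → f k = 1 := by
        intro k hk
        rw [hf]
        dsimp only
        rw [if_pos hk]
      by_cases b1 : (((d.1 : ℕ) : ℝ) + 1 / 2) / m < η
      · have := key2 d.1 b1
        linarith
      by_cases b2 : 1 - η < (((d.1 : ℕ) : ℝ) + 1 / 2) / m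
      · have := key d.1 b2
        linarith
      by_cases b3 : (((d.2 : ℕ) : ℝ) + 1 / 2) / m < η
      · have := key2 d.2 b3
        linarith
      by_cases b4 : 1 - η < (((d.2 : ℕ) : ℝ) + 1 / 2) / m
      · have := key d.2 b4
        linarith
      · exact absurd ⟨⟨not_lt.mp b1, not_lt.mp b2⟩, ⟨not_lt.mp b3, not_lt.mp b4⟩⟩ hd
  refine (avg_mono h1).trans ?_
  rw [avg_add, avg_add, avg_add, E6_avg_fst hm f, E6_avg_snd hm f,
    E6_avg_fst hm (fun k => f (Fin.rev k)), E6_avg_snd hm (fun k => f (Fin.rev k))]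
  have h2 : avg (fun k => f (Fin.rev k)) = avg f := avg_equiv Fin.revPerm f
  rw [h2]
  have h3 := E6_count hm hη
  have h4 : avg f ≤ η + 1 / m := h3
  linarith

/-! ### Energy of one digit -/

lemma E6_sq3 (a b c : ℝ) : (a + b + c) ^ 2 ≤ 3 * (a ^ 2 + b ^ 2 + c ^ 2) := by
  nlinarith [sq_nonneg (a - b), sq_nonneg (b - c), sq_nonneg (a - c)]

lemma E6_U_le {g : ℝ × ℝ → ℝ} (hg : Integrable g) (h0 : ∀ z, 0 ≤ g z) :
    ∫ z, g z ∂U ≤ ∫ z, g z :=
  setIntegral_le_integral hg (Filter.Eventually.of_forall h0)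

lemma E6_U_int {g : ℝ × ℝ → ℝ} (hg : Integrable g) : Integrable g U := hg.integrableOn

/-- Energy of the translated kernel. -/
lemma E6_enK (hE3 : StmtE3) {B : ℝ} (hB : 2 ≤ B) {M : SymM} (hM : Unim B M) {r A : ℝ}
    (hr : 0 < r) (hrA : r < A) (y₀ : ℝ × ℝ) :
    Integrable (fun y => M.qf (Kf M r A (y - y₀))) ∧
    ∫ y, M.qf (Kf M r A (y - y₀)) ∂U ≤ 1 / (2 * Real.pi) * (Real.log (A / r) + 1 / 2) := by
  obtain ⟨h1, h2, -⟩ := hE3 B M hB hM r A hr hrA
  have h3 : Integrable (fun y => M.qf (Kf M r A (y - y₀))) := h2.comp_sub_right y₀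
  refine ⟨h3, (E6_U_le h3 (fun z => ?_)).trans ?_⟩
  · exact SymM.qf_nonneg hM.1 (by rw [hM.2.1]; norm_num) _
  · rw [integral_sub_right_eq_self (fun y => M.qf (Kf M r A y))]
    exact h1

open Classical in
/-- The energy of the error kernel of one digit. -/
lemma E6_enE (hE3 : StmtE3) {m : ℕ} (hm : 3 ≤ m) (hlog : 1 ≤ Real.log m) (d : Dig m)
    (ke : ℝ × ℝ → ℝ × ℝ) (hke : Measurable ke) (κ a c : ℝ) (hκ : 0 ≤ κ) (hκ1 : κ ≤ 1)
    (hb : ∀ y, len (ke y) ≤ κ * (4 * len (Kf oneM (1 / (2 * m)) (1 / 4) (y - E6_y m d))) +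
      (if y ∈ E6_ccell m d then a * m else 0) + c) :
    ∫ y, len (ke y) ^ 2 ∂U ≤ 3 * (κ * (4 * Real.log m) + a ^ 2 + c ^ 2) := by
  have hm0 : 0 < m := by omega
  have hm' : (0 : ℝ) < m := by exact_mod_cast hm0
  have hm3 : (3 : ℝ) ≤ m := by exact_mod_cast hm
  have hpi := Real.pi_pos
  have hpi3 := Real.pi_gt_three
  set r : ℝ := 1 / (2 * m) with hrdef
  have hr : 0 < r := by positivity
  have hrA : r < 1 / 4 := by
    rw [hrdef]
    refine one_div_lt_one_div_of_lt (by norm_num) (by linarith)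
  obtain ⟨i1, e1⟩ := E6_enK hE3 (le_refl 2) E6_unim_one hr hrA (E6_y m d)
  set q : ℝ × ℝ → ℝ := fun y => oneM.qf (Kf oneM r (1 / 4) (y - E6_y m d)) with hq
  have hq0 : ∀ y, q y = len (Kf oneM r (1 / 4) (y - E6_y m d)) ^ 2 := fun y => E6_qf_one _
  have eq : ∫ y, q y ∂U ≤ 1 / 4 * Real.log m := by
    refine e1.trans ?_
    have h1 : (1 / 4 : ℝ) / r = m / 2 := by
      rw [hrdef]
      field_simp
      norm_num
    have h2 : Real.log ((1 / 4 : ℝ) / r) ≤ Real.log m := by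
      rw [h1]
      exact Real.log_le_log (by positivity) (by linarith)
    have h3 : 1 / (2 * Real.pi) ≤ 1 / 6 := one_div_le_one_div_of_le (by norm_num) (by linarith)
    calc 1 / (2 * Real.pi) * (Real.log ((1 / 4 : ℝ) / r) + 1 / 2)
        ≤ 1 / (2 * Real.pi) * (3 / 2 * Real.log m) := by
          refine mul_le_mul_of_nonneg_left (by linarith) (by positivity)
      _ ≤ 1 / 6 * (3 / 2 * Real.log m) := by
          refine mul_le_mul_of_nonneg_right h3 (by positivity)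
      _ = 1 / 4 * Real.log m := by ring
  have i2 : Integrable ((E6_ccell m d).indicator (fun _ : ℝ × ℝ => (a * m) ^ 2)) := by
    rw [integrable_indicator_iff (E6_meas_ccell m d)]
    exact integrableOn_const (E6_vol_ccell_lt d)
  have e2 : ∫ y, (E6_ccell m d).indicator (fun _ : ℝ × ℝ => (a * m) ^ 2) y ∂U ≤ a ^ 2 := by
    refine (E6_U_le i2 (fun z => indicator_nonneg (fun _ _ => sq_nonneg _) z)).trans (le_of_eq ?_)
    rw [integral_indicator (E6_meas_ccell m d), setIntegral_const, E6_vol_ccell hm0, smul_eq_mul]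
    field_simp
  have hpt : ∀ y, len (ke y) ^ 2 ≤ 3 * (κ * (16 * q y) +
      (E6_ccell m d).indicator (fun _ : ℝ × ℝ => (a * m) ^ 2) y + c ^ 2) := by
    intro y
    have h1 : len (ke y) ^ 2 ≤ (κ * (4 * len (Kf oneM r (1 / 4) (y - E6_y m d))) +
      (if y ∈ E6_ccell m d then a * m else 0) + c) ^ 2 :=
      pow_le_pow_left₀ (len_nonneg _) (hb y) 2
    refine h1.trans ((E6_sq3 _ _ _).trans ?_)
    have h2 : (κ * (4 * len (Kf oneM r (1 / 4) (y - E6_y m d)))) ^ 2 ≤ κ * (16 * q y) := by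
      rw [hq0, mul_pow, mul_pow]
      have h3 : κ ^ 2 ≤ κ := by nlinarith
      have h4 : 0 ≤ (4 : ℝ) ^ 2 * len (Kf oneM r (1 / 4) (y - E6_y m d)) ^ 2 := by positivity
      calc κ ^ 2 * ((4 : ℝ) ^ 2 * len (Kf oneM r (1 / 4) (y - E6_y m d)) ^ 2)
          ≤ κ * ((4 : ℝ) ^ 2 * len (Kf oneM r (1 / 4) (y - E6_y m d)) ^ 2) :=
            mul_le_mul_of_nonneg_right h3 h4
        _ = _ := by norm_num
    have h5 : (if y ∈ E6_ccell m d then a * m else 0) ^ 2 =
        (E6_ccell m d).indicator (fun _ : ℝ × ℝ => (a * m) ^ 2) y := by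
      rw [Set.indicator_apply]
      split_ifs
      · rfl
      · norm_num
    rw [h5]
    linarith
  have j1 : Integrable (fun y => κ * (16 * q y)) U := ((E6_U_int i1).const_mul 16).const_mul κ
  have j2 : Integrable ((E6_ccell m d).indicator (fun _ : ℝ × ℝ => (a * m) ^ 2)) U := E6_U_int i2
  have j3 : Integrable (fun _ : ℝ × ℝ => c ^ 2) U := integrable_const _
  have j12 : Integrable (fun y => κ * (16 * q y) +
      (E6_ccell m d).indicator (fun _ : ℝ × ℝ => (a * m) ^ 2) y) U := j1.add j2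
  have j : Integrable (fun y => 3 * (κ * (16 * q y) +
      (E6_ccell m d).indicator (fun _ : ℝ × ℝ => (a * m) ^ 2) y + c ^ 2)) U :=
    (j12.add j3).const_mul 3
  have j0 : Integrable (fun y => len (ke y) ^ 2) U := by
    refine j.mono' ((measurable_len.comp hke).pow_const 2).aestronglyMeasurable ?_
    refine Filter.Eventually.of_forall (fun y => ?_)
    rw [Real.norm_eq_abs, abs_of_nonneg (sq_nonneg _)]
    exact hpt y
  calc ∫ y, len (ke y) ^ 2 ∂U ≤ ∫ y, 3 * (κ * (16 * q y) +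
      (E6_ccell m d).indicator (fun _ : ℝ × ℝ => (a * m) ^ 2) y + c ^ 2) ∂U :=
        integral_mono j0 j hpt
    _ = 3 * (κ * (16 * ∫ y, q y ∂U) +
      (∫ y, (E6_ccell m d).indicator (fun _ : ℝ × ℝ => (a * m) ^ 2) y ∂U) + c ^ 2) := by
        rw [integral_const_mul, integral_add j12 j3, integral_add j1 j2, integral_const_mul,
          integral_const_mul, integral_const_U]
    _ ≤ 3 * (κ * (4 * Real.log m) + a ^ 2 + c ^ 2) := by
        have : κ * (16 * ∫ y, q y ∂U) ≤ κ * (4 * Real.log m) :=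
          mul_le_mul_of_nonneg_left (by linarith) hκ
        linarith

open Classical in
/-- The pointwise bound of the error kernel. -/
lemma E6_pt (hE3 : StmtE3) {C5 : ℝ} {m : ℕ} (hm : 3 ≤ m)
    (y : ℝ × ℝ) (hC5 : avg (fun d : Dig m => ((max (len (y.1 - (((d.1 : ℕ) : ℝ) + 1 / 2) / m,
    y.2 - (((d.2 : ℕ) : ℝ) + 1 / 2) / m)) (1 / m)) ^ 2)⁻¹) ≤ C5 * Real.log m)
    (ke : Dig m → ℝ × ℝ) (κ : Dig m → ℝ) (a c : ℝ) (hκ : ∀ d, 0 ≤ κ d) (hκ1 : ∀ d, κ d ≤ 1)
    (hb : ∀ d, len (ke d) ≤ κ d * (4 * len (Kf oneM (1 / (2 * m)) (1 / 4) (y - E6_y m d))) +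
      (if y ∈ E6_ccell m d then a * m else 0) + c) :
    avg (fun d => len (ke d) ^ 2) ≤ 768 * C5 * Real.log m + 12 * a ^ 2 + 3 * c ^ 2 := by
  have hm0 : 0 < m := by omega
  have hm' : (0 : ℝ) < m := by exact_mod_cast hm0
  have hm3 : (3 : ℝ) ≤ m := by exact_mod_cast hm
  set r : ℝ := 1 / (2 * m) with hrdef
  have hr : 0 < r := by positivity
  have hrA : r < 1 / 4 := by
    rw [hrdef]
    refine one_div_lt_one_div_of_lt (by norm_num) (by linarith)
  obtain ⟨-, -, -, hsz, -⟩ := hE3 2 oneM (le_refl _) E6_unim_one r (1 / 4) hr hrA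
  have hpt : ∀ d, len (ke d) ^ 2 ≤ 768 * ((max (len (y.1 - (((d.1 : ℕ) : ℝ) + 1 / 2) / m,
      y.2 - (((d.2 : ℕ) : ℝ) + 1 / 2) / m)) (1 / m)) ^ 2)⁻¹ +
      (3 * (a * m) ^ 2 * (if y ∈ E6_ccell m d then (1 : ℝ) else 0) + 3 * c ^ 2) := by
    intro d
    have h1 : len (ke d) ^ 2 ≤ (κ d * (4 * len (Kf oneM r (1 / 4) (y - E6_y m d))) +
      (if y ∈ E6_ccell m d then a * m else 0) + c) ^ 2 :=
      pow_le_pow_left₀ (len_nonneg _) (hb d) 2
    refine h1.trans ((E6_sq3 _ _ _).trans ?_)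
    have h5 : (if y ∈ E6_ccell m d then a * m else 0) ^ 2 =
        (a * m) ^ 2 * (if y ∈ E6_ccell m d then (1 : ℝ) else 0) := by
      split_ifs
      · ring
      · ring
    have hv : (y.1 - (((d.1 : ℕ) : ℝ) + 1 / 2) / m, y.2 - (((d.2 : ℕ) : ℝ) + 1 / 2) / m) =
        y - E6_y m d := rfl
    rw [hv, h5]
    set v := y - E6_y m d with hvdef
    have h6 : (κ d * (4 * len (Kf oneM r (1 / 4) v))) ^ 2 ≤ 256 * (max (len v) (1 / m) ^ 2)⁻¹ := by
      have k1 : 0 < max (len v) (1 / (m : ℝ)) := lt_max_of_lt_right (by positivity)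
      have k2 : max (len v) (1 / (m : ℝ)) ≤ 2 * max (len v) r := by
        refine max_le ?_ ?_
        · have := le_max_left (len v) r
          linarith [len_nonneg v]
        · have := le_max_right (len v) r
          have e : (1 : ℝ) / m = 2 * r := by
            rw [hrdef]
            field_simp
          linarith
      have k3 : len (Kf oneM r (1 / 4) v) * max (len v) (1 / (m : ℝ)) ≤ 4 := by
        have := hsz v
        nlinarith [len_nonneg (Kf oneM r (1 / 4) v)]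
      have k4 : κ d * (4 * len (Kf oneM r (1 / 4) v)) ≤ 16 / max (len v) (1 / (m : ℝ)) := by
        rw [le_div_iff₀ k1]
        have l0 : 0 ≤ 4 * len (Kf oneM r (1 / 4) v) * max (len v) (1 / (m : ℝ)) := by
          have := len_nonneg (Kf oneM r (1 / 4) v)
          positivity
        have l1 := hκ1 d
        nlinarith [hκ d]
      have k5 : 0 ≤ κ d * (4 * len (Kf oneM r (1 / 4) v)) :=
        mul_nonneg (hκ d) (mul_nonneg (by norm_num) (len_nonneg _))
      refine (pow_le_pow_left₀ k5 k4 2).trans (le_of_eq ?_)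
      rw [div_pow]
      norm_num
      rfl
    nlinarith
  refine (avg_mono hpt).trans ?_
  have : Nonempty (Dig m) := ⟨(⟨0, hm0⟩, ⟨0, hm0⟩)⟩
  rw [avg_add, avg_add, avg_const_mul, avg_const_mul, avg_const]
  have h7 := E6_cells hm0 y
  have h8 : 3 * (a * m) ^ 2 * avg (fun d : Dig m => if y ∈ E6_ccell m d then (1 : ℝ) else 0) ≤
      12 * a ^ 2 := by
    calc 3 * (a * m) ^ 2 * avg (fun d : Dig m => if y ∈ E6_ccell m d then (1 : ℝ) else 0)
        ≤ 3 * (a * m) ^ 2 * (4 / (m : ℝ) ^ 2) := mul_le_mul_of_nonneg_left h7 (by positivity)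
      _ = 12 * a ^ 2 := by
        field_simp
        ring
  linarith

/-! ### Assembly -/

open Classical in
/-- The main kernel and the error kernel of one digit. -/
lemma E6_one (hE1 : StmtE1) (hE2 : StmtE2) (hE3 : StmtE3) {B η : ℝ} (hB : 2 ≤ B) (hη : 0 < η)
    (hη1 : η ≤ 1 / 16) {M : SymM} (hM : Unim B M) {m : ℕ} (hm : 3 ≤ m) (hmη : 1 / η ≤ m)
    (d : Dig m) {r A : ℝ} (hr : r = 1 / (2 * m * Real.sqrt B)) (hA : A = η / Real.sqrt B) :
    ∃ km ke : ℝ × ℝ → ℝ × ℝ, Measurable km ∧ Measurable ke ∧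
      (∀ y, len (km y) ≤ B / r) ∧
      (∀ y y', len (km y - km y') ≤ 10 * B ^ 2 / r ^ 2 * len (y - y')) ∧
      (∫ y, M.qf (km y) ∂U ≤ 1 / (2 * Real.pi) * (Real.log m + 1)) ∧
      (∀ y, len (ke y) ≤ (if E6_Int η m d then (0 : ℝ) else 1) *
        (4 * len (Kf oneM (1 / (2 * m)) (1 / 4) (y - E6_y m d))) +
        (if y ∈ E6_ccell m d then 48 * B * m else 0) +
        (4 * (1 + 2 * B / (Real.pi * η ^ 2)) + 176)) ∧
      IsFlux (fun y => km y + ke y) (src m d) := by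
  have hm0 : 0 < m := by omega
  have hm' : (0 : ℝ) < m := by exact_mod_cast hm0
  have hm3 : (3 : ℝ) ≤ m := by exact_mod_cast hm
  have hpi := Real.pi_pos
  have hB0 : 0 < B := by linarith
  have hsB : 0 < Real.sqrt B := Real.sqrt_pos.mpr hB0
  have hr0 : 0 < r := by
    rw [hr]
    positivity
  have hmη' : 1 ≤ m * η := by
    rw [div_le_iff₀ hη] at hmη
    exact hmη
  have hAr : A / r = 2 * m * η := by
    rw [hA, hr]
    field_simp
  have hrA : r < A := by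
    rw [← one_lt_div hr0, hAr]
    linarith
  have hsq : Real.sqrt B ^ 2 = B := Real.sq_sqrt hB0.le
  have hr2 : r ^ 2 = 1 / (4 * (m : ℝ) ^ 2 * B) := by
    rw [hr, div_pow, mul_pow, mul_pow, hsq]
    norm_num
  have hA2 : A ^ 2 = η ^ 2 / B := by
    rw [hA, div_pow, hsq]
  have hlog : 0 ≤ Real.log m := Real.log_nonneg (by linarith)
  by_cases hd : E6_Int η m d
  · obtain ⟨be, hbm, hbf, hbl⟩ := E6_inner hE1 hE2 hE3 hB hη hM hm0 d hd hr0 hrA hr2 hA2
    have hms : Measurable (fun z : ℝ × ℝ => z - E6_y m d) := measurable_id.sub measurable_const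
    obtain ⟨-, -, -, hsz, hlp, -⟩ := hE3 B M hB hM r A hr0 hrA
    refine ⟨fun y => Kf M r A (y - E6_y m d), be, (E6_meas_Kf M r A).comp hms, hbm, ?_, ?_, ?_, ?_,
      hbf⟩
    · intro y
      rw [le_div_iff₀ hr0]
      refine le_trans ?_ (hsz (y - E6_y m d))
      exact mul_le_mul_of_nonneg_left (le_max_right _ _) (len_nonneg _)
    · intro y y'
      refine (hlp _ _).trans (le_of_eq ?_)
      rw [sub_sub_sub_cancel_right]
    · refine (E6_enK hE3 hB hM hr0 hrA (E6_y m d)).2.trans ?_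
      refine mul_le_mul_of_nonneg_left ?_ (by positivity)
      have h1 : Real.log (A / r) ≤ Real.log m := by
        rw [hAr]
        refine Real.log_le_log (by positivity) ?_
        nlinarith
      linarith
    · intro y
      rw [if_pos hd, zero_mul, zero_add]
      refine (hbl y).trans (add_le_add (le_refl _) ?_)
      linarith
  · obtain ⟨be, hbm, hbf, hbl⟩ := E6_bdry hE1 hE2 hE3 hm d
    refine ⟨fun _ => 0, be, measurable_const, hbm, ?_, ?_, ?_, ?_, ?_⟩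
    · intro y
      rw [len_zero]
      positivity
    · intro y y'
      rw [sub_zero, len_zero]
      exact mul_nonneg (by positivity) (len_nonneg _)
    · have h0 : M.qf (0 : ℝ × ℝ) = 0 := by
        unfold SymM.qf
        simp
      simp only [h0, integral_zero]
      positivity
    · intro y
      rw [if_neg hd, one_mul]
      refine (hbl y).trans (add_le_add (add_le_add (le_refl _) ?_) ?_)
      · split_ifs
        · nlinarith
        · exact le_refl _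
      · have : 0 ≤ 4 * (1 + 2 * B / (Real.pi * η ^ 2)) := by positivity
        linarith
    · refine E6_flux_congr hbf (fun z => ?_) (fun z _ => rfl)
      rw [zero_add]

open Classical in
/-- E: existence of the kernels of the upper bound. -/
theorem E (hE1 : StmtE1) (hE2 : StmtE2) (hE3 : StmtE3) (hE5 : StmtE5) : StmtE := by
  intro B hB
  obtain ⟨C5, hC5, h5⟩ := hE5
  refine ⟨768 * C5 + 27648 * B ^ 2 + 1, by positivity, fun δ hδ => ?_⟩
  obtain ⟨η, hη0, hη1, hη2⟩ : ∃ η : ℝ, 0 < η ∧ η ≤ 1 / 16 ∧ η ≤ δ / 192 :=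
    ⟨min (1 / 16) (δ / 192), lt_min (by norm_num) (by positivity), min_le_left _ _,
      min_le_right _ _⟩
  have hpi := Real.pi_pos
  obtain ⟨Ca, hCa⟩ : ∃ Ca : ℝ, Ca = 4 * (1 + 2 * B / (Real.pi * η ^ 2)) + 176 := ⟨_, rfl⟩
  have hCa0 : 0 ≤ Ca := by
    rw [hCa]
    positivity
  have hev : ∀ᶠ m : ℕ in atTop, 3 ≤ m ∧ 1 ≤ Real.log m ∧ 1 / η ≤ (m : ℝ) ∧
      (2 / δ) * (3 * (48 * B) ^ 2 + 3 * Ca ^ 2) ≤ Real.log m ∧ 3 * Ca ^ 2 ≤ Real.log m := by
    have hl : Tendsto (fun m : ℕ => Real.log (m : ℝ)) atTop atTop :=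
      Real.tendsto_log_atTop.comp tendsto_natCast_atTop_atTop
    filter_upwards [eventually_ge_atTop 3, hl.eventually_ge_atTop 1,
      tendsto_natCast_atTop_atTop.eventually_ge_atTop (1 / η),
      hl.eventually_ge_atTop ((2 / δ) * (3 * (48 * B) ^ 2 + 3 * Ca ^ 2)),
      hl.eventually_ge_atTop (3 * Ca ^ 2)] with m h1 h2 h3 h4 h5
    exact ⟨h1, h2, h3, h4, h5⟩
  obtain ⟨m₀, hm₀⟩ := eventually_atTop.mp hev
  refine ⟨m₀, fun m hm => ?_⟩
  obtain ⟨hm3, hlog, hmη, hm4, hm5⟩ := hm₀ m hm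
  have hm0 : 0 < m := by omega
  have hm' : (0 : ℝ) < m := by exact_mod_cast hm0
  have hB0 : 0 < B := by linarith
  have hsB : 0 < Real.sqrt B := Real.sqrt_pos.mpr hB0
  obtain ⟨r, hr⟩ : ∃ r : ℝ, r = 1 / (2 * m * Real.sqrt B) := ⟨_, rfl⟩
  have hr0 : 0 < r := by
    rw [hr]
    positivity
  have hNe : Nonempty (Dig m) := ⟨(⟨0, hm0⟩, ⟨0, hm0⟩)⟩
  choose km ke kmm kem kmb kml kme keb hfl using fun (M : UM B) (d : Dig m) =>
    E6_one hE1 hE2 hE3 hB hη0 hη1 M.2 hm3 hmη d hr (rfl : η / Real.sqrt B = η / Real.sqrt B)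
  have hκ0 : ∀ d : Dig m, 0 ≤ (if E6_Int η m d then (0 : ℝ) else 1) := fun d => by
    split_ifs <;> norm_num
  have hκ1 : ∀ d : Dig m, (if E6_Int η m d then (0 : ℝ) else 1) ≤ 1 := fun d => by
    split_ifs <;> norm_num
  refine ⟨km, ke, B / r + 10 * B ^ 2 / r ^ 2 + (16 * m + 48 * B * m + Ca),
    ⟨kmm, ?_, ?_, ?_⟩, ⟨kem, ?_, ?_, ?_⟩, hfl⟩
  · intro M d y _
    have h1 := kmb M d y
    have h2 : 0 ≤ 10 * B ^ 2 / r ^ 2 := by positivity
    have h3 : 0 ≤ 16 * (m : ℝ) + 48 * B * m + Ca := by positivity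
    linarith
  · intro M d y _ y' _
    refine (kml M d y y').trans (mul_le_mul_of_nonneg_right ?_ (len_nonneg _))
    have h2 : 0 ≤ B / r := by positivity
    have h3 : 0 ≤ 16 * (m : ℝ) + 48 * B * m + Ca := by positivity
    linarith
  · intro M
    refine (avg_mono (fun d => kme M d)).trans (le_of_eq ?_)
    exact avg_const _
  · intro M d y _
    have h1 := keb M d y
    have h2 : 0 ≤ B / r := by positivity
    have h3 : 0 ≤ 10 * B ^ 2 / r ^ 2 := by positivity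
    obtain ⟨-, -, -, hsz, -⟩ := hE3 2 oneM (le_refl _) E6_unim_one (1 / (2 * m)) (1 / 4)
      (by positivity) (one_div_lt_one_div_of_lt (by norm_num) (by
        have : (3 : ℝ) ≤ m := by exact_mod_cast hm3
        linarith))
    have h4 : len (Kf oneM (1 / (2 * m)) (1 / 4) (y - E6_y m d)) ≤ 4 * m := by
      have h5 : len (Kf oneM (1 / (2 * m)) (1 / 4) (y - E6_y m d)) * (1 / (2 * m)) ≤ 2 := by
        refine le_trans ?_ (hsz (y - E6_y m d))
        exact mul_le_mul_of_nonneg_left (le_max_right _ _) (len_nonneg _)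
      rw [mul_one_div, div_le_iff₀ (by positivity)] at h5
      linarith
    have h6 : (if E6_Int η m d then (0 : ℝ) else 1) *
        (4 * len (Kf oneM (1 / (2 * m)) (1 / 4) (y - E6_y m d))) ≤ 16 * m := by
      have h7 := len_nonneg (Kf oneM (1 / (2 * m)) (1 / 4) (y - E6_y m d))
      calc _ ≤ 1 * (4 * len (Kf oneM (1 / (2 * m)) (1 / 4) (y - E6_y m d))) :=
            mul_le_mul_of_nonneg_right (hκ1 d) (by positivity)
        _ ≤ 16 * m := by linarith
    have h8 : (if y ∈ E6_ccell m d then 48 * B * (m : ℝ) else 0) ≤ 48 * B * m := by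
      split_ifs
      · exact le_refl _
      · positivity
    rw [← hCa] at h1
    linarith
  · intro M
    have h1 : ∀ d, ∫ y, len (ke M d y) ^ 2 ∂U ≤
        3 * ((if E6_Int η m d then (0 : ℝ) else 1) * (4 * Real.log m) + (48 * B) ^ 2 + Ca ^ 2) := by
      intro d
      refine E6_enE hE3 hm3 hlog d (ke M d) (kem M d) _ (48 * B) Ca (hκ0 d) (hκ1 d) ?_
      intro y
      rw [hCa]
      exact keb M d y
    refine (avg_mono h1).trans ?_
    rw [avg_const_mul, avg_add, avg_add, avg_mul_const, avg_const, avg_const]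
    have h2 := E6_bad hm0 hη0.le
    have h3 : 1 / (m : ℝ) ≤ η := by
      rw [div_le_iff₀ hη0] at hmη
      rw [div_le_iff₀ hm']
      linarith
    have h4 : avg (fun d : Dig m => if E6_Int η m d then (0 : ℝ) else 1) * (4 * Real.log m) ≤
        (8 * η) * (4 * Real.log m) := by
      refine mul_le_mul_of_nonneg_right (by linarith) (by positivity)
    have h5 : 3 * (48 * B) ^ 2 + 3 * Ca ^ 2 ≤ δ / 2 * Real.log m := by
      have := mul_le_mul_of_nonneg_left hm4 (by positivity : (0 : ℝ) ≤ δ / 2)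
      have e : δ / 2 * (2 / δ * (3 * (48 * B) ^ 2 + 3 * Ca ^ 2)) = 3 * (48 * B) ^ 2 + 3 * Ca ^ 2 := by
        field_simp
      rw [e] at this
      exact this
    have h6 : 96 * η * Real.log m ≤ δ / 2 * Real.log m := by
      refine mul_le_mul_of_nonneg_right (by linarith) (by linarith)
    linarith
  · intro M y hy
    have h1 := E6_pt hE3 hm3 y (h5 m (by omega) y hy) (fun d => ke M d y)
      (fun d => if E6_Int η m d then (0 : ℝ) else 1) (48 * B) Ca hκ0 hκ1 (fun d => by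
        rw [hCa]
        exact keb M d y)
    refine h1.trans ?_
    have h2 : 27648 * B ^ 2 * 1 ≤ 27648 * B ^ 2 * Real.log m :=
      mul_le_mul_of_nonneg_left hlog (by positivity)
    nlinarith

end Match2D
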