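import Pool.Agent.Work.MP_884187_pr.KerDefs

/-!
MP_884187_pr, item F: the potential kernels of the lower bound.
-/

open MeasureTheory Set Filter Topology

namespace Match2D

/-! ### Lengths -/

lemma F_len_sq (v : ℝ × ℝ) : len v ^ 2 = v.1 ^ 2 + v.2 ^ 2 := by
  unfold len
  rw [Real.sq_sqrt (by positivity)]

lemma F_len_nonneg (v : ℝ × ℝ) : 0 ≤ len v := Real.sqrt_nonneg _

lemma F_le_of_sq {x y : ℝ} (hy : 0 ≤ y) (h : x ^ 2 ≤ y ^ 2) : x ≤ y := by
  by_contra hc
  push Not at hc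
  nlinarith

lemma F_dot_le (v w : ℝ × ℝ) : |dot v w| ≤ len v * len w := by
  refine F_le_of_sq (mul_nonneg (F_len_nonneg _) (F_len_nonneg _)) ?_
  rw [sq_abs, mul_pow, F_len_sq, F_len_sq]
  unfold dot
  nlinarith [sq_nonneg (v.1 * w.2 - v.2 * w.1)]

lemma F_len_add (v w : ℝ × ℝ) : len (v + w) ≤ len v + len w := by
  refine F_le_of_sq (add_nonneg (F_len_nonneg _) (F_len_nonneg _)) ?_
  have h1 := le_trans (le_abs_self _) (F_dot_le v w)
  have h2 := F_len_sq v
  have h3 := F_len_sq w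
  have h4 := F_len_sq (v + w)
  rw [Prod.fst_add, Prod.snd_add] at h4
  unfold dot at h1
  nlinarith

lemma F_len_smul (s : ℝ) (v : ℝ × ℝ) : len (s • v) = |s| * len v := by
  unfold len
  rw [← Real.sqrt_sq_eq_abs, ← Real.sqrt_mul (sq_nonneg s)]
  congr 1
  simp only [Prod.smul_fst, Prod.smul_snd, smul_eq_mul]
  ring

/-! ### Matrices -/

/-- The product `M z`. -/
def F_mv (M : SymM) (z : ℝ × ℝ) : ℝ × ℝ := (M.a * z.1 + M.b * z.2, M.b * z.1 + M.c * z.2)

section Mat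

variable {B : ℝ} {M : SymM}

lemma F_c_pos (hM : Unim B M) : 0 < M.c := by
  obtain ⟨h1, h2, h3⟩ := hM
  unfold SymM.det at h2
  have h4 : 0 < M.a * M.c := by nlinarith [sq_nonneg M.b]
  exact (mul_pos_iff_of_pos_left h1).mp h4

lemma F_qf_nonneg (hM : Unim B M) (z : ℝ × ℝ) : 0 ≤ M.qf z := by
  obtain ⟨h1, h2, h3⟩ := hM
  unfold SymM.det at h2
  unfold SymM.qf
  have h4 : M.a * (M.a * z.1 ^ 2 + 2 * M.b * z.1 * z.2 + M.c * z.2 ^ 2) =
      (M.a * z.1 + M.b * z.2) ^ 2 + z.2 ^ 2 := by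
    linear_combination z.2 ^ 2 * h2
  by_contra hc
  push Not at hc
  have := mul_neg_of_pos_of_neg h1 hc
  nlinarith [sq_nonneg (M.a * z.1 + M.b * z.2), sq_nonneg z.2]

lemma F_ch (hM : Unim B M) (z : ℝ × ℝ) : M.tr * M.qf z = len z ^ 2 + len (F_mv M z) ^ 2 := by
  obtain ⟨h1, h2, h3⟩ := hM
  rw [F_len_sq, F_len_sq]
  unfold SymM.det at h2
  unfold SymM.qf SymM.tr F_mv
  simp only
  linear_combination (z.1 ^ 2 + z.2 ^ 2) * h2

lemma F_len_le (hM : Unim B M) (z : ℝ × ℝ) : len z ^ 2 ≤ B * M.qf z := by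
  have h1 := F_ch hM z
  have h2 := F_qf_nonneg hM z
  have h3 := hM.2.2
  nlinarith [sq_nonneg (len (F_mv M z))]

lemma F_mv_le (hM : Unim B M) (z : ℝ × ℝ) : len (F_mv M z) ^ 2 ≤ B * M.qf z := by
  have h1 := F_ch hM z
  have h2 := F_qf_nonneg hM z
  have h3 := hM.2.2
  nlinarith [sq_nonneg (len z)]

lemma F_adj_nonneg (hM : Unim B M) (z : ℝ × ℝ) : 0 ≤ M.adj.qf z := by
  have h : M.adj.qf z = M.qf (z.2, -z.1) := by
    unfold SymM.adj SymM.qf; simp only; ring
  rw [h]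
  exact F_qf_nonneg hM _

lemma F_qf_le (hM : Unim B M) (z : ℝ × ℝ) : M.qf z ≤ B * len z ^ 2 := by
  have h1 := F_adj_nonneg hM z
  have h2 : M.tr * len z ^ 2 = M.qf z + M.adj.qf z := by
    rw [F_len_sq]
    unfold SymM.tr SymM.adj SymM.qf; simp only; ring
  have h3 := hM.2.2
  nlinarith [sq_nonneg (len z)]

lemma F_mv_le' (hB : 0 ≤ B) (hM : Unim B M) (z : ℝ × ℝ) : len (F_mv M z) ≤ B * len z := by
  refine F_le_of_sq (mul_nonneg hB (F_len_nonneg _)) ?_
  have h1 := F_mv_le hM z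
  have h2 := F_qf_le hM z
  nlinarith

lemma F_adj_mv (hM : Unim B M) (z : ℝ × ℝ) (s : ℝ) :
    M.adj.qf (s • F_mv M z) = s ^ 2 * M.qf z := by
  obtain ⟨h1, h2, h3⟩ := hM
  unfold SymM.det at h2
  unfold SymM.adj SymM.qf F_mv
  simp only [Prod.smul_mk, smul_eq_mul]
  linear_combination s ^ 2 * (M.a * z.1 ^ 2 + 2 * M.b * z.1 * z.2 + M.c * z.2 ^ 2) * h2

lemma F_qf_diff (M : SymM) (z z' : ℝ × ℝ) :
    M.qf z' = M.qf z + 2 * dot (F_mv M z) (z' - z) + M.qf (z' - z) := by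
  unfold SymM.qf F_mv dot
  simp only [Prod.fst_sub, Prod.snd_sub]
  ring

lemma F_qf_sq (hB : 0 ≤ B) (hM : Unim B M) (z z' : ℝ × ℝ) :
    (M.qf z' - M.qf z) ^ 2 ≤ 2 * B * (M.qf z + M.qf z') * len (z' - z) ^ 2 := by
  have h1 : M.qf z' - M.qf z = dot (F_mv M (z + z')) (z' - z) := by
    unfold SymM.qf F_mv dot
    simp only [Prod.fst_sub, Prod.snd_sub, Prod.fst_add, Prod.snd_add]
    ring
  have h2 : M.qf (z + z') + M.qf (z' - z) = 2 * (M.qf z + M.qf z') := by
    unfold SymM.qf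
    simp only [Prod.fst_sub, Prod.snd_sub, Prod.fst_add, Prod.snd_add]
    ring
  have h3 := F_qf_nonneg hM (z' - z)
  have h4 := F_mv_le hM (z + z')
  have h5 := F_dot_le (F_mv M (z + z')) (z' - z)
  rw [h1, ← sq_abs]
  calc |dot (F_mv M (z + z')) (z' - z)| ^ 2
      ≤ (len (F_mv M (z + z')) * len (z' - z)) ^ 2 := by
        gcongr
    _ = len (F_mv M (z + z')) ^ 2 * len (z' - z) ^ 2 := by ring
    _ ≤ (B * M.qf (z + z')) * len (z' - z) ^ 2 := by gcongr
    _ ≤ (2 * B * (M.qf z + M.qf z')) * len (z' - z) ^ 2 := by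
        refine mul_le_mul_of_nonneg_right ?_ (sq_nonneg _)
        nlinarith

end Mat

/-! ### The profile -/

/-- `max (1/(w+r²) - 1/(A²+r²), 0)`. -/
noncomputable def F_k (r A w : ℝ) : ℝ := max (1 / (w + r ^ 2) - 1 / (A ^ 2 + r ^ 2)) 0

/-- `u - 1 - log u` for `u ≤ 1`, zero for `u > 1`. -/
noncomputable def F_T (u : ℝ) : ℝ := if u ≤ 1 then u - 1 - Real.log u else 0

/-- The radial potential. -/
noncomputable def F_G (r A w : ℝ) : ℝ := 1 / (4 * Real.pi) * F_T ((w + r ^ 2) / (A ^ 2 + r ^ 2))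

lemma F_T_nonneg {u : ℝ} (hu : 0 < u) : 0 ≤ F_T u := by
  unfold F_T
  split_ifs
  · have := Real.log_le_sub_one_of_pos hu
    linarith
  · exact le_refl 0

lemma F_T_ge {u : ℝ} : -1 - Real.log u ≤ F_T u ∨ u ≤ 0 := by
  rcases le_or_gt u 0 with h | h
  · exact Or.inr h
  · left
    unfold F_T
    split_ifs with h1
    · linarith
    · have := Real.log_nonneg (le_of_not_ge h1)
      linarith

lemma F_T_le {u : ℝ} (hu1 : u ≤ 1) : F_T u ≤ - Real.log u := by
  unfold F_T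
  rw [if_pos hu1]
  linarith

/-- The tangent line inequality. -/
lemma F_T_tangent {u v : ℝ} (hu : 0 < u) (hv : 0 < v) :
    F_T u ≤ F_T v + max (1 / u - 1) 0 * (v - u) := by
  rcases le_or_gt u 1 with h1 | h1
  · have h2 : 1 ≤ 1 / u := by rw [le_div_iff₀ hu]; linarith
    rw [max_eq_left (by linarith)]
    have h3 : F_T u = u - 1 - Real.log u := by unfold F_T; rw [if_pos h1]
    rw [h3]
    have h5 : (1 / u - 1) * (v - u) = v / u - 1 - v + u := by field_simp; ring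
    rw [h5]
    rcases le_or_gt v 1 with h4 | h4
    · have h6 : F_T v = v - 1 - Real.log v := by unfold F_T; rw [if_pos h4]
      rw [h6]
      have h7 := Real.log_le_sub_one_of_pos (div_pos hv hu)
      rw [Real.log_div hv.ne' hu.ne'] at h7
      linarith
    · have h6 : F_T v = 0 := by unfold F_T; rw [if_neg (not_le.mpr h4)]
      rw [h6]
      have h7 := Real.log_le_sub_one_of_pos (one_div_pos.mpr hu)
      rw [one_div, Real.log_inv] at h7
      have h8 : 0 ≤ (v - 1) * (1 / u - 1) := mul_nonneg (by linarith) (by linarith)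
      have h9 : (v - 1) * (1 / u - 1) = v / u - u⁻¹ - v + 1 := by field_simp; ring
      rw [h9] at h8
      linarith
  · have h3 : F_T u = 0 := by unfold F_T; rw [if_neg (not_le.mpr h1)]
    have h2 : 1 / u ≤ 1 := by rw [div_le_one hu]; linarith
    rw [h3, max_eq_right (by linarith), zero_mul, add_zero]
    exact F_T_nonneg hv

section Prof

variable {r A : ℝ}

lemma F_k_nonneg (w : ℝ) : 0 ≤ F_k r A w := le_max_right _ _

lemma F_k_le (hr : 0 < r) {w : ℝ} (hw : 0 ≤ w) : F_k r A w ≤ 1 / (w + r ^ 2) := by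
  unfold F_k
  refine max_le ?_ (by positivity)
  have : 0 ≤ 1 / (A ^ 2 + r ^ 2) := by positivity
  linarith

lemma F_k_zero (hr : 0 < r) {w : ℝ} (hw : A ^ 2 ≤ w) : F_k r A w = 0 := by
  unfold F_k
  refine max_eq_right ?_
  have : 1 / (w + r ^ 2) ≤ 1 / (A ^ 2 + r ^ 2) :=
    one_div_le_one_div_of_le (by positivity) (by linarith)
  linarith

lemma F_k_lip (hr : 0 < r) {w w' : ℝ} (hw : 0 ≤ w) (hw' : 0 ≤ w') :
    |F_k r A w - F_k r A w'| ≤ |w' - w| / ((w + r ^ 2) * (w' + r ^ 2)) := by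
  unfold F_k
  have hr2 : 0 < r ^ 2 := by positivity
  have h1 : 0 < w + r ^ 2 := by linarith
  have h2 : 0 < w' + r ^ 2 := by linarith
  refine (abs_max_sub_max_le_abs _ _ _).trans ?_
  have h3 : 1 / (w + r ^ 2) - 1 / (A ^ 2 + r ^ 2) - (1 / (w' + r ^ 2) - 1 / (A ^ 2 + r ^ 2)) =
      (w' - w) / ((w + r ^ 2) * (w' + r ^ 2)) := by
    field_simp
    ring
  rw [h3, abs_div, abs_of_pos (mul_pos h1 h2)]

lemma F_G_nonneg (hr : 0 < r) {w : ℝ} (hw : 0 ≤ w) : 0 ≤ F_G r A w := by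
  unfold F_G
  have h1 : 0 < (w + r ^ 2) / (A ^ 2 + r ^ 2) := by positivity
  have := F_T_nonneg h1
  have := Real.pi_pos
  positivity

lemma F_G_zero (hr : 0 < r) {w : ℝ} (hw : A ^ 2 ≤ w) : F_G r A w = 0 := by
  unfold F_G
  have h0 : 0 < A ^ 2 + r ^ 2 := by positivity
  have h1 : 1 ≤ (w + r ^ 2) / (A ^ 2 + r ^ 2) := by
    rw [le_div_iff₀ h0]; linarith
  have h2 : F_T ((w + r ^ 2) / (A ^ 2 + r ^ 2)) = 0 := by
    unfold F_T
    split_ifs with h
    · have h3 : (w + r ^ 2) / (A ^ 2 + r ^ 2) = 1 := le_antisymm h h1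
      rw [h3]; simp
    · rfl
  rw [h2, mul_zero]

lemma F_G_le (hr : 0 < r) {w : ℝ} (hw : 0 ≤ w) :
    F_G r A w ≤ 1 / (4 * Real.pi) * (A ^ 2 / r ^ 2) := by
  have hp := Real.pi_pos
  have h0 : 0 < A ^ 2 + r ^ 2 := by positivity
  rcases le_or_gt (A ^ 2) w with h | h
  · rw [F_G_zero hr h]; positivity
  · unfold F_G
    have h1 : 0 < (w + r ^ 2) / (A ^ 2 + r ^ 2) := by positivity
    have h2 : (w + r ^ 2) / (A ^ 2 + r ^ 2) ≤ 1 := by rw [div_le_one h0]; linarith
    have h3 := F_T_le h2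
    have h4 : - Real.log ((w + r ^ 2) / (A ^ 2 + r ^ 2)) ≤ A ^ 2 / r ^ 2 := by
      rw [← Real.log_inv]
      have h5 : 0 < ((w + r ^ 2) / (A ^ 2 + r ^ 2))⁻¹ := by positivity
      refine (Real.log_le_sub_one_of_pos h5).trans ?_
      rw [inv_div]
      have h6 : (A ^ 2 + r ^ 2) / (w + r ^ 2) ≤ (A ^ 2 + r ^ 2) / r ^ 2 := by
        apply div_le_div_of_nonneg_left h0.le (by positivity) (by linarith)
      have h7 : (A ^ 2 + r ^ 2) / r ^ 2 = A ^ 2 / r ^ 2 + 1 := by field_simp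
      linarith
    have : 0 < 1 / (4 * Real.pi) := by positivity
    exact mul_le_mul_of_nonneg_left (h3.trans h4) this.le

lemma F_G_ge (hr : 0 < r) {w : ℝ} (hw : 0 ≤ w) :
    1 / (4 * Real.pi) * (-1 - Real.log ((w + r ^ 2) / (A ^ 2 + r ^ 2))) ≤ F_G r A w := by
  unfold F_G
  have hp := Real.pi_pos
  have h1 : 0 < (w + r ^ 2) / (A ^ 2 + r ^ 2) := by positivity
  rcases F_T_ge (u := (w + r ^ 2) / (A ^ 2 + r ^ 2)) with h | h
  · exact mul_le_mul_of_nonneg_left h (by positivity)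
  · exact absurd h1 (not_lt.mpr h)

lemma F_G_tangent (hr : 0 < r) {w w' : ℝ} (hw : 0 ≤ w) (hw' : 0 ≤ w') :
    F_G r A w ≤ F_G r A w' + 1 / (4 * Real.pi) * (F_k r A w * (w' - w)) := by
  have hp := Real.pi_pos
  have h0 : 0 < A ^ 2 + r ^ 2 := by positivity
  have hr2 : 0 < r ^ 2 := by positivity
  have h1 : 0 < w + r ^ 2 := by linarith
  have h2 : 0 < w' + r ^ 2 := by linarith
  have h3 := F_T_tangent (div_pos h1 h0) (div_pos h2 h0)
  have h4 : F_k r A w = (A ^ 2 + r ^ 2)⁻¹ * max (1 / ((w + r ^ 2) / (A ^ 2 + r ^ 2)) - 1) 0 := by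
    unfold F_k
    rw [mul_max_of_nonneg _ _ (inv_pos.mpr h0).le, mul_zero]
    congr 1
    field_simp
  have h5 : F_k r A w * (w' - w) = max (1 / ((w + r ^ 2) / (A ^ 2 + r ^ 2)) - 1) 0 *
      ((w' + r ^ 2) / (A ^ 2 + r ^ 2) - (w + r ^ 2) / (A ^ 2 + r ^ 2)) := by
    rw [h4]
    field_simp
    ring
  rw [h5]
  unfold F_G
  rw [← mul_add]
  exact mul_le_mul_of_nonneg_left h3 (by positivity)

lemma F_G_taylor (hr : 0 < r) {w w' : ℝ} (hw : 0 ≤ w) (hw' : 0 ≤ w') :
    |F_G r A w' - F_G r A w + 1 / (4 * Real.pi) * (F_k r A w * (w' - w))| ≤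
      1 / (4 * Real.pi) * ((w' - w) ^ 2 / ((w + r ^ 2) * (w' + r ^ 2))) := by
  have hp := Real.pi_pos
  have hr2 : 0 < r ^ 2 := by positivity
  have h1 := F_G_tangent (A := A) hr hw hw'
  have h2 := F_G_tangent (A := A) hr hw' hw
  have h3 := F_k_lip (A := A) hr hw hw'
  rw [abs_of_nonneg (by linarith)]
  have h4 : F_G r A w' - F_G r A w + 1 / (4 * Real.pi) * (F_k r A w * (w' - w)) ≤
      1 / (4 * Real.pi) * ((F_k r A w - F_k r A w') * (w' - w)) := by
    have : 1 / (4 * Real.pi) * ((F_k r A w - F_k r A w') * (w' - w)) =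
        1 / (4 * Real.pi) * (F_k r A w * (w' - w)) +
        1 / (4 * Real.pi) * (F_k r A w' * (w - w')) := by ring
    linarith
  refine h4.trans (mul_le_mul_of_nonneg_left ?_ (by positivity))
  calc (F_k r A w - F_k r A w') * (w' - w) ≤ |(F_k r A w - F_k r A w') * (w' - w)| :=
        le_abs_self _
    _ = |F_k r A w - F_k r A w'| * |w' - w| := abs_mul _ _
    _ ≤ |w' - w| / ((w + r ^ 2) * (w' + r ^ 2)) * |w' - w| := by gcongr
    _ = (w' - w) ^ 2 / ((w + r ^ 2) * (w' + r ^ 2)) := by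
        rw [div_mul_eq_mul_div, ← sq, sq_abs]

lemma F_frac (hr : 0 < r) {w w' : ℝ} (hw : 0 ≤ w) (hw' : 0 ≤ w') :
    (w + w') / ((w + r ^ 2) * (w' + r ^ 2)) ≤ 2 / r ^ 2 := by
  have hr2 : 0 < r ^ 2 := by positivity
  have h1 : 0 < w + r ^ 2 := by linarith
  have h2 : 0 < w' + r ^ 2 := by linarith
  rw [div_le_div_iff₀ (mul_pos h1 h2) hr2]
  nlinarith [mul_nonneg hw hw', mul_nonneg hw hr2.le, mul_nonneg hw' hr2.le]

lemma F_frac' (hr : 0 < r) {w w' : ℝ} (hw : 0 ≤ w) (hw' : 0 ≤ w') :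
    w' / ((w + r ^ 2) * (w' + r ^ 2)) ≤ 1 / r ^ 2 := by
  have hr2 : 0 < r ^ 2 := by positivity
  have h1 : 0 < w + r ^ 2 := by linarith
  have h2 : 0 < w' + r ^ 2 := by linarith
  rw [div_le_div_iff₀ (mul_pos h1 h2) hr2]
  nlinarith [mul_nonneg hw hw', mul_nonneg hw hr2.le, mul_nonneg hw' hr2.le]

end Prof

/-! ### The potential on the plane -/

section Plane

variable {B : ℝ} {M : SymM} {r A : ℝ}

/-- The gradient. -/
noncomputable def F_gr (M : SymM) (r A : ℝ) (z : ℝ × ℝ) : ℝ × ℝ :=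
  (-(1 / (2 * Real.pi)) * F_k r A (M.qf z)) • F_mv M z

lemma F_pi_le : 1 / (2 * Real.pi) ≤ 1 := by
  have := Real.pi_gt_three
  rw [div_le_one (by positivity)]
  linarith

lemma F_pi_le' : 1 / (4 * Real.pi) ≤ 1 / 12 := by
  have := Real.pi_gt_three
  apply one_div_le_one_div_of_le (by norm_num)
  linarith

lemma F_gr_len (hr : 0 < r) (hB : 0 ≤ B) (hM : Unim B M) (z : ℝ × ℝ) :
    len (F_gr M r A z) ≤ B / r ^ 2 + 1 := by
  have hp := Real.pi_pos
  have hr2 : 0 < r ^ 2 := by positivity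
  unfold F_gr
  rw [F_len_smul, abs_mul, abs_neg, abs_of_pos (by positivity : 0 < 1 / (2 * Real.pi)),
    abs_of_nonneg (F_k_nonneg _)]
  have h0 := F_qf_nonneg hM z
  have h1 := F_k_le (A := A) hr h0
  have h2 := F_mv_le hM z
  have h3 : F_k r A (M.qf z) * len (F_mv M z) ≤ B / r ^ 2 + 1 := by
    have h4 : len (F_mv M z) ≤ B * M.qf z / 2 * (2 / (M.qf z + r ^ 2)) + (M.qf z + r ^ 2) := by
      have h5 : (len (F_mv M z)) ≤ len (F_mv M z) ^ 2 / (M.qf z + r ^ 2) + (M.qf z + r ^ 2) := by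
        have h6 : 0 < M.qf z + r ^ 2 := by linarith
        have h7 : len (F_mv M z) ^ 2 / (M.qf z + r ^ 2) + (M.qf z + r ^ 2) - len (F_mv M z) =
            ((len (F_mv M z) - (M.qf z + r ^ 2) / 2) ^ 2 + 3 / 4 * (M.qf z + r ^ 2) ^ 2) /
              (M.qf z + r ^ 2) := by
          field_simp
          ring
        have h8 : 0 ≤ ((len (F_mv M z) - (M.qf z + r ^ 2) / 2) ^ 2 +
            3 / 4 * (M.qf z + r ^ 2) ^ 2) / (M.qf z + r ^ 2) := by positivity
        linarith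
      have h9 : len (F_mv M z) ^ 2 / (M.qf z + r ^ 2) ≤
          B * M.qf z / 2 * (2 / (M.qf z + r ^ 2)) := by
        have h6 : 0 < M.qf z + r ^ 2 := by linarith
        have : B * M.qf z / 2 * (2 / (M.qf z + r ^ 2)) = B * M.qf z / (M.qf z + r ^ 2) := by
          ring
        rw [this]
        gcongr
      linarith
    have h6 : 0 < M.qf z + r ^ 2 := by linarith
    have h10 : 1 / (M.qf z + r ^ 2) *
        (B * M.qf z / 2 * (2 / (M.qf z + r ^ 2)) + (M.qf z + r ^ 2)) ≤ B / r ^ 2 + 1 := by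
      have h11 : 1 / (M.qf z + r ^ 2) *
        (B * M.qf z / 2 * (2 / (M.qf z + r ^ 2)) + (M.qf z + r ^ 2)) =
          B * (M.qf z / (M.qf z + r ^ 2)) * (1 / (M.qf z + r ^ 2)) + 1 := by
        field_simp
      rw [h11]
      have h12 : M.qf z / (M.qf z + r ^ 2) ≤ 1 := by rw [div_le_one h6]; linarith
      have h13 : 1 / (M.qf z + r ^ 2) ≤ 1 / r ^ 2 := one_div_le_one_div_of_le hr2 (by linarith)
      have h14 : 0 ≤ M.qf z / (M.qf z + r ^ 2) := by positivity
      have h15 : B * (M.qf z / (M.qf z + r ^ 2)) * (1 / (M.qf z + r ^ 2)) ≤ B * 1 * (1 / r ^ 2) := by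
        gcongr
      have h16 : B * 1 * (1 / r ^ 2) = B / r ^ 2 := by ring
      linarith
    refine le_trans ?_ h10
    exact mul_le_mul h1 h4 (F_len_nonneg _) (by positivity)
  have h5 : 0 ≤ F_k r A (M.qf z) * len (F_mv M z) :=
    mul_nonneg (F_k_nonneg _) (F_len_nonneg _)
  calc 1 / (2 * Real.pi) * F_k r A (M.qf z) * len (F_mv M z)
      = 1 / (2 * Real.pi) * (F_k r A (M.qf z) * len (F_mv M z)) := by ring
    _ ≤ 1 * (F_k r A (M.qf z) * len (F_mv M z)) :=
        mul_le_mul_of_nonneg_right F_pi_le h5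
    _ ≤ _ := by linarith

lemma F_gr_lip (hr : 0 < r) (hB : 0 ≤ B) (hM : Unim B M) (z z' : ℝ × ℝ) :
    len (F_gr M r A z - F_gr M r A z') ≤ 3 * B / r ^ 2 * len (z - z') := by
  have hp := Real.pi_pos
  have hr2 : 0 < r ^ 2 := by positivity
  have h0 := F_qf_nonneg hM z
  have h0' := F_qf_nonneg hM z'
  have e1 : F_gr M r A z - F_gr M r A z' =
      (-(1 / (2 * Real.pi))) • (F_k r A (M.qf z) • F_mv M (z - z') +
        (F_k r A (M.qf z) - F_k r A (M.qf z')) • F_mv M z') := by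
    unfold F_gr F_mv
    ext
    · simp only [Prod.smul_mk, Prod.fst_sub, Prod.snd_sub, Prod.mk_add_mk, Prod.mk_sub_mk,
        smul_eq_mul]
      ring
    · simp only [Prod.smul_mk, Prod.fst_sub, Prod.snd_sub, Prod.mk_add_mk, Prod.mk_sub_mk,
        smul_eq_mul]
      ring
  rw [e1, F_len_smul, abs_neg, abs_of_pos (by positivity : 0 < 1 / (2 * Real.pi))]
  have h1 : len (F_k r A (M.qf z) • F_mv M (z - z')) ≤ B / r ^ 2 * len (z - z') := by
    rw [F_len_smul, abs_of_nonneg (F_k_nonneg _)]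
    have h2 : F_k r A (M.qf z) ≤ 1 / r ^ 2 :=
      (F_k_le hr h0).trans (one_div_le_one_div_of_le hr2 (by linarith))
    have h3 := F_mv_le' hB hM (z - z')
    calc F_k r A (M.qf z) * len (F_mv M (z - z')) ≤ 1 / r ^ 2 * (B * len (z - z')) :=
          mul_le_mul h2 h3 (F_len_nonneg _) (by positivity)
      _ = _ := by ring
  have h2 : len ((F_k r A (M.qf z) - F_k r A (M.qf z')) • F_mv M z') ≤
      2 * B / r ^ 2 * len (z - z') := by
    refine F_le_of_sq (mul_nonneg (by positivity) (F_len_nonneg _)) ?_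
    rw [F_len_smul, mul_pow, mul_pow]
    have h3 := F_k_lip (A := A) hr h0 h0'
    have h4 := F_mv_le hM z'
    have h5 := F_qf_sq hB hM z z'
    have h6 := F_frac hr h0 h0'
    have h7 := F_frac' hr h0 h0'
    have hD : 0 < (M.qf z + r ^ 2) * (M.qf z' + r ^ 2) := by positivity
    have hl : len (z' - z) ^ 2 = len (z - z') ^ 2 := by
      rw [F_len_sq, F_len_sq]
      simp only [Prod.fst_sub, Prod.snd_sub]
      ring
    calc |F_k r A (M.qf z) - F_k r A (M.qf z')| ^ 2 * len (F_mv M z') ^ 2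
        ≤ (|M.qf z' - M.qf z| / ((M.qf z + r ^ 2) * (M.qf z' + r ^ 2))) ^ 2 *
            (B * M.qf z') := by
          gcongr
      _ = (M.qf z' - M.qf z) ^ 2 * (B * M.qf z') /
            ((M.qf z + r ^ 2) * (M.qf z' + r ^ 2)) ^ 2 := by
          rw [div_pow, sq_abs]; ring
      _ ≤ (2 * B * (M.qf z + M.qf z') * len (z' - z) ^ 2) * (B * M.qf z') /
            ((M.qf z + r ^ 2) * (M.qf z' + r ^ 2)) ^ 2 := by
          gcongr
      _ = 2 * B ^ 2 * ((M.qf z + M.qf z') / ((M.qf z + r ^ 2) * (M.qf z' + r ^ 2))) *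
            (M.qf z' / ((M.qf z + r ^ 2) * (M.qf z' + r ^ 2))) * len (z - z') ^ 2 := by
          rw [hl]
          field_simp
      _ ≤ 2 * B ^ 2 * (2 / r ^ 2) * (1 / r ^ 2) * len (z - z') ^ 2 := by
          gcongr
      _ = (2 * B / r ^ 2) ^ 2 * len (z - z') ^ 2 := by
          ring
  have h3 := F_len_add (F_k r A (M.qf z) • F_mv M (z - z'))
    ((F_k r A (M.qf z) - F_k r A (M.qf z')) • F_mv M z')
  have h4 := F_len_nonneg (F_k r A (M.qf z) • F_mv M (z - z') +
    (F_k r A (M.qf z) - F_k r A (M.qf z')) • F_mv M z')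
  have h5 := mul_le_mul_of_nonneg_right F_pi_le h4
  have h6 : B / r ^ 2 * len (z - z') + 2 * B / r ^ 2 * len (z - z') =
      3 * B / r ^ 2 * len (z - z') := by ring
  linarith

lemma F_diff (hr : 0 < r) (hB : 0 ≤ B) (hM : Unim B M) (z z' : ℝ × ℝ) :
    |F_G r A (M.qf z') - F_G r A (M.qf z) - dot (F_gr M r A z) (z' - z)| ≤
      3 * B / r ^ 2 * len (z' - z) ^ 2 := by
  have hp := Real.pi_pos
  have hr2 : 0 < r ^ 2 := by positivity
  have h0 := F_qf_nonneg hM z
  have h0' := F_qf_nonneg hM z'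
  have h1 := F_G_taylor (A := A) hr h0 h0'
  have e1 : F_G r A (M.qf z') - F_G r A (M.qf z) - dot (F_gr M r A z) (z' - z) =
      (F_G r A (M.qf z') - F_G r A (M.qf z) +
        1 / (4 * Real.pi) * (F_k r A (M.qf z) * (M.qf z' - M.qf z))) -
        1 / (4 * Real.pi) * (F_k r A (M.qf z) * M.qf (z' - z)) := by
    have e2 : dot (F_gr M r A z) (z' - z) =
        -(1 / (2 * Real.pi)) * F_k r A (M.qf z) * dot (F_mv M z) (z' - z) := by
      unfold F_gr dot
      simp only [Prod.smul_fst, Prod.smul_snd, smul_eq_mul]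
      ring
    have e3 := F_qf_diff M z z'
    have e4 : dot (F_mv M z) (z' - z) = (M.qf z' - M.qf z - M.qf (z' - z)) / 2 := by
      linarith
    rw [e2, e4]
    field_simp
    ring
  rw [e1]
  refine (abs_sub _ _).trans ?_
  have h2 : 1 / (4 * Real.pi) * ((M.qf z' - M.qf z) ^ 2 /
      ((M.qf z + r ^ 2) * (M.qf z' + r ^ 2))) ≤ 1 / 12 * (4 * B / r ^ 2 * len (z' - z) ^ 2) := by
    have h3 := F_qf_sq hB hM z z'
    have h4 := F_frac hr h0 h0'
    have h5 : (M.qf z' - M.qf z) ^ 2 / ((M.qf z + r ^ 2) * (M.qf z' + r ^ 2)) ≤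
        4 * B / r ^ 2 * len (z' - z) ^ 2 := by
      calc (M.qf z' - M.qf z) ^ 2 / ((M.qf z + r ^ 2) * (M.qf z' + r ^ 2))
          ≤ (2 * B * (M.qf z + M.qf z') * len (z' - z) ^ 2) /
              ((M.qf z + r ^ 2) * (M.qf z' + r ^ 2)) := by gcongr
        _ = 2 * B * ((M.qf z + M.qf z') / ((M.qf z + r ^ 2) * (M.qf z' + r ^ 2))) *
              len (z' - z) ^ 2 := by ring
        _ ≤ 2 * B * (2 / r ^ 2) * len (z' - z) ^ 2 := by gcongr
        _ = _ := by ring
    exact mul_le_mul F_pi_le' h5 (by positivity) (by norm_num)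
  have h3 : |1 / (4 * Real.pi) * (F_k r A (M.qf z) * M.qf (z' - z))| ≤
      1 / 12 * (B / r ^ 2 * len (z' - z) ^ 2) := by
    have h4 := F_qf_nonneg hM (z' - z)
    have h5 := F_k_nonneg (r := r) (A := A) (M.qf z)
    rw [abs_of_nonneg (by positivity)]
    have h6 : F_k r A (M.qf z) ≤ 1 / r ^ 2 :=
      (F_k_le hr h0).trans (one_div_le_one_div_of_le hr2 (by linarith))
    have h7 := F_qf_le hM (z' - z)
    refine mul_le_mul F_pi_le' ?_ (by positivity) (by norm_num)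
    calc F_k r A (M.qf z) * M.qf (z' - z) ≤ 1 / r ^ 2 * (B * len (z' - z) ^ 2) :=
          mul_le_mul h6 h7 h4 (by positivity)
      _ = _ := by ring
  have h4 : 0 ≤ B / r ^ 2 * len (z' - z) ^ 2 := by positivity
  have h5 : 4 * B / r ^ 2 * len (z' - z) ^ 2 = 4 * (B / r ^ 2 * len (z' - z) ^ 2) := by ring
  have h6 : 3 * B / r ^ 2 * len (z' - z) ^ 2 = 3 * (B / r ^ 2 * len (z' - z) ^ 2) := by ring
  rw [h5] at h2
  rw [h6]
  linarith

end Plane

/-! ### Integrals -/

section Int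

lemma F_U_prob : IsProbabilityMeasure U := by
  constructor
  unfold U Sq
  rw [Measure.restrict_apply_univ, Measure.volume_eq_prod, Measure.prod_prod, Real.volume_Icc]
  norm_num

variable {B : ℝ} {M : SymM} {r A : ℝ}

lemma F_meas_qf (M : SymM) (y₀ : ℝ × ℝ) : Measurable (fun y : ℝ × ℝ => M.qf (y - y₀)) := by
  unfold SymM.qf
  have h : Continuous (fun y : ℝ × ℝ => M.a * (y - y₀).1 ^ 2 + 2 * M.b * (y - y₀).1 * (y - y₀).2 +
    M.c * (y - y₀).2 ^ 2) := by fun_prop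
  exact h.measurable

lemma F_int (hE : StmtE0) (hM : Unim B M) {ψ : ℝ → ℝ} (hψ : Measurable ψ)
    (h0 : ∀ w, 0 ≤ w → 0 ≤ ψ w) {I : ℝ} (hI : 0 ≤ I)
    (h : ∫⁻ w in Ioi (0 : ℝ), ENNReal.ofReal (ψ w) ≤ ENNReal.ofReal I) (y₀ : ℝ × ℝ) :
    ∫ y, ψ (M.qf (y - y₀)) ∂U ≤ Real.pi * I := by
  have hp := Real.pi_pos
  rw [integral_eq_lintegral_of_nonneg_ae (ae_of_all _ fun y => h0 _ (F_qf_nonneg hM _))
    (hψ.comp (F_meas_qf M y₀)).aestronglyMeasurable]
  apply ENNReal.toReal_le_of_le_ofReal (by positivity)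
  calc ∫⁻ y, ENNReal.ofReal (ψ (M.qf (y - y₀))) ∂U
      ≤ ∫⁻ y : ℝ × ℝ, ENNReal.ofReal (ψ (M.qf (y - y₀))) := by
        unfold U; exact setLIntegral_le_lintegral _ _
    _ = ∫⁻ y : ℝ × ℝ, ENNReal.ofReal (ψ (M.qf y)) :=
        lintegral_sub_right_eq_self (fun y => ENNReal.ofReal (ψ (M.qf y))) y₀
    _ = ENNReal.ofReal Real.pi * ∫⁻ w in Ioi (0:ℝ), ENNReal.ofReal (ψ w) :=
        hE M hM.1 hM.2.1 (fun w => ENNReal.ofReal (ψ w)) (ENNReal.measurable_ofReal.comp hψ)
    _ ≤ ENNReal.ofReal Real.pi * ENNReal.ofReal I := by gcongr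
    _ = _ := by rw [ENNReal.ofReal_mul hp.le]

lemma F_lint {ψ g : ℝ → ℝ} {a : ℝ} (ha : 0 ≤ a) (hg : ContinuousOn g (Icc 0 a))
    (h : ∀ w ∈ Ioc (0 : ℝ) a, ψ w ≤ g w) (hg0 : ∀ w ∈ Ioc (0 : ℝ) a, 0 ≤ g w)
    (hz : ∀ w, a < w → ψ w = 0) :
    ∫⁻ w in Ioi (0 : ℝ), ENNReal.ofReal (ψ w) ≤ ENNReal.ofReal (∫ w in (0 : ℝ)..a, g w) := by
  rw [← Ioc_union_Ioi_eq_Ioi ha, lintegral_union measurableSet_Ioi]
  · have h1 : ∫⁻ w in Ioi a, ENNReal.ofReal (ψ w) = 0 := by
      have h2 : ∫⁻ w in Ioi a, ENNReal.ofReal (ψ w) = ∫⁻ w in Ioi a, 0 :=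
        setLIntegral_congr_fun measurableSet_Ioi (fun w hw => by
          show ENNReal.ofReal (ψ w) = 0
          rw [hz w hw, ENNReal.ofReal_zero])
      rw [h2, lintegral_zero]
    rw [h1, add_zero, intervalIntegral.integral_of_le ha,
      ofReal_integral_eq_lintegral_ofReal]
    · exact setLIntegral_mono' measurableSet_Ioc (fun w hw => ENNReal.ofReal_le_ofReal (h w hw))
    · exact (hg.integrableOn_Icc).mono_set Ioc_subset_Icc_self
    · exact (ae_restrict_mem measurableSet_Ioc).mono (fun w hw => hg0 w hw)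
  · rw [Set.disjoint_left]
    intro x hx hx'
    exact absurd hx.2 (not_le.mpr hx')

lemma F_meas_k : Measurable (F_k r A) := by
  unfold F_k
  fun_prop

lemma F_meas_G : Measurable (F_G r A) := by
  unfold F_G
  have h1 : Measurable F_T := by
    unfold F_T
    refine Measurable.ite (measurableSet_le measurable_id measurable_const) ?_ measurable_const
    exact (measurable_id.sub_const 1).sub Real.measurable_log
  exact (h1.comp (by fun_prop)).const_mul _

/-- The energy integral. -/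
lemma F_energy1 (hE : StmtE0) (hM : Unim B M) (hr : 0 < r) (y₀ : ℝ × ℝ) :
    ∫ y, M.adj.qf (F_gr M r A (y - y₀)) ∂U ≤
      1 / (4 * Real.pi) * Real.log ((A ^ 2 + r ^ 2) / r ^ 2) := by
  have hp := Real.pi_pos
  have hr2 : 0 < r ^ 2 := by positivity
  have hA2 : 0 ≤ A ^ 2 := sq_nonneg A
  set ψ : ℝ → ℝ := fun w => (-(1 / (2 * Real.pi)) * F_k r A w) ^ 2 * w with hψ
  have e1 : ∀ y : ℝ × ℝ, M.adj.qf (F_gr M r A (y - y₀)) = ψ (M.qf (y - y₀)) := by
    intro y
    unfold F_gr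
    rw [F_adj_mv hM]
  have hlog : 0 ≤ Real.log ((A ^ 2 + r ^ 2) / r ^ 2) := by
    apply Real.log_nonneg
    rw [le_div_iff₀ hr2]; linarith
  simp_rw [e1]
  have h1 := F_int hE hM (ψ := ψ) (I := 1 / (4 * Real.pi ^ 2) *
    Real.log ((A ^ 2 + r ^ 2) / r ^ 2)) ?_ ?_ (by positivity) ?_ y₀
  · refine h1.trans (le_of_eq ?_)
    field_simp
  · rw [hψ]
    exact (((F_meas_k).const_mul _).pow_const 2).mul measurable_id
  · intro w hw
    rw [hψ]
    positivity
  · have h2 := F_lint (ψ := ψ) (g := fun w => 1 / (4 * Real.pi ^ 2) * (w + r ^ 2)⁻¹) hA2 ?_ ?_ ?_ ?_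
    · refine h2.trans (le_of_eq ?_)
      congr 1
      rw [intervalIntegral.integral_const_mul]
      congr 1
      rw [intervalIntegral.integral_comp_add_right (fun x => x⁻¹) (r ^ 2), zero_add,
        integral_inv_of_pos hr2 (by positivity)]
    · apply ContinuousOn.mul continuousOn_const
      apply ContinuousOn.inv₀ (by fun_prop)
      intro w hw
      have := hw.1
      positivity
    · intro w hw
      rw [hψ]
      have h3 : 0 < w := hw.1
      have h4 := F_k_le (A := A) hr h3.le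
      have h5 := F_k_nonneg (r := r) (A := A) w
      have h6 : F_k r A w ^ 2 * w ≤ (w + r ^ 2)⁻¹ := by
        calc F_k r A w ^ 2 * w ≤ (1 / (w + r ^ 2)) ^ 2 * w := by gcongr
          _ = w / (w + r ^ 2) * (w + r ^ 2)⁻¹ := by field_simp
          _ ≤ 1 * (w + r ^ 2)⁻¹ := by
              refine mul_le_mul_of_nonneg_right ?_ (by positivity)
              rw [div_le_one (by positivity)]
              linarith
          _ = _ := one_mul _
      calc (-(1 / (2 * Real.pi)) * F_k r A w) ^ 2 * w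
          = 1 / (4 * Real.pi ^ 2) * (F_k r A w ^ 2 * w) := by field_simp; ring
        _ ≤ 1 / (4 * Real.pi ^ 2) * (w + r ^ 2)⁻¹ := by gcongr
    · intro w hw
      have := hw.1
      positivity
    · intro w hw
      rw [hψ]
      simp only
      rw [F_k_zero hr hw.le]
      ring

/-- The integral of the potential. -/
lemma F_pot1 (hE : StmtE0) (hM : Unim B M) (hr : 0 < r) (y₀ : ℝ × ℝ) :
    ∫ y, F_G r A (M.qf (y - y₀)) ∂U ≤ A ^ 2 / 4 := by
  have hp := Real.pi_pos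
  have hr2 : 0 < r ^ 2 := by positivity
  have hA2 : 0 ≤ A ^ 2 := sq_nonneg A
  have h1 := F_int hE hM (ψ := F_G r A) (I := 1 / (4 * Real.pi) * A ^ 2) F_meas_G
    (fun w hw => F_G_nonneg hr hw) (by positivity) ?_ y₀
  · refine h1.trans (le_of_eq ?_)
    field_simp
  · have h2 := F_lint (ψ := F_G r A)
      (g := fun w => 1 / (4 * Real.pi) * (Real.log (A ^ 2 + r ^ 2) - Real.log (w + r ^ 2)))
      hA2 ?_ ?_ ?_ ?_
    · refine h2.trans (ENNReal.ofReal_le_ofReal ?_)
      rw [intervalIntegral.integral_const_mul]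
      refine mul_le_mul_of_nonneg_left ?_ (by positivity)
      rw [intervalIntegral.integral_sub]
      · rw [intervalIntegral.integral_comp_add_right (fun x => Real.log x) (r ^ 2), zero_add,
          integral_log, intervalIntegral.integral_const, smul_eq_mul]
        have h3 : Real.log (r ^ 2) ≤ Real.log (A ^ 2 + r ^ 2) :=
          Real.log_le_log hr2 (by linarith)
        nlinarith
      · exact intervalIntegrable_const
      · apply ContinuousOn.intervalIntegrable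
        rw [uIcc_of_le hA2]
        apply ContinuousOn.log (by fun_prop)
        intro w hw
        have := hw.1
        positivity
    · apply ContinuousOn.mul continuousOn_const
      apply ContinuousOn.sub continuousOn_const
      apply ContinuousOn.log (by fun_prop)
      intro w hw
      have := hw.1
      positivity
    · intro w hw
      have h3 : 0 < w := hw.1
      have h4 : w ≤ A ^ 2 := hw.2
      have h0 : 0 < A ^ 2 + r ^ 2 := by positivity
      unfold F_G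
      refine mul_le_mul_of_nonneg_left ?_ (by positivity)
      have h5 : (w + r ^ 2) / (A ^ 2 + r ^ 2) ≤ 1 := by rw [div_le_one h0]; linarith
      have h6 := F_T_le h5
      rw [Real.log_div (by positivity) h0.ne'] at h6
      linarith
    · intro w hw
      have h3 : 0 < w := hw.1
      have h4 : w ≤ A ^ 2 := hw.2
      have h5 : Real.log (w + r ^ 2) ≤ Real.log (A ^ 2 + r ^ 2) :=
        Real.log_le_log (by positivity) (by linarith)
      have h6 : 0 ≤ Real.log (A ^ 2 + r ^ 2) - Real.log (w + r ^ 2) := by linarith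
      positivity
    · intro w hw
      exact F_G_zero hr hw.le

end Int

/-! ### Averages and counting -/

section Count

lemma F_avg_le {m : ℕ} (hm : 0 < m) {f : Dig m → ℝ} {c : ℝ} (h : ∀ d, f d ≤ c) : avg f ≤ c := by
  unfold avg
  have h1 : (0 : ℝ) < Fintype.card (Dig m) := by
    have : 0 < Fintype.card (Dig m) := by
      rw [Fintype.card_prod, Fintype.card_fin]; positivity
    exact_mod_cast this
  rw [smul_eq_mul, inv_mul_le_iff₀ h1]
  calc ∑ d, f d ≤ ∑ _d : Dig m, c := Finset.sum_le_sum (fun d _ => h d)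
    _ = _ := by rw [Finset.sum_const, nsmul_eq_mul, Finset.card_univ]

/-- The centre of the subcell `d`. -/
noncomputable def F_ct (m : ℕ) (d : Dig m) : ℝ × ℝ :=
  ((((d.1 : ℕ) : ℝ) + 1 / 2) / m, (((d.2 : ℕ) : ℝ) + 1 / 2) / m)

/-- The centre is far from the boundary. -/
def F_good (η : ℝ) (m : ℕ) (d : Dig m) : Prop :=
  (F_ct m d).1 ∈ Icc η (1 - η) ∧ (F_ct m d).2 ∈ Icc η (1 - η)

open Classical in
lemma F_bad1 {m : ℕ} (hm : 0 < m) {η : ℝ} (hη : 0 < η) :
    ((Finset.univ.filter (fun i : Fin m =>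
      ¬ ((((i : ℕ) : ℝ) + 1 / 2) / m ∈ Icc η (1 - η)))).card : ℝ) ≤ 2 * (η * m + 1) := by
  have hm' : (0 : ℝ) < m := by exact_mod_cast hm
  have h1 : (Finset.univ.filter (fun i : Fin m =>
      ¬ ((((i : ℕ) : ℝ) + 1 / 2) / m ∈ Icc η (1 - η)))) ⊆
      (Finset.univ.filter (fun i : Fin m => ((i : ℕ) : ℝ) < η * m)) ∪
      (Finset.univ.filter (fun i : Fin m => ((m - 1 - (i : ℕ) : ℕ) : ℝ) < η * m)) := by
    intro i hi
    simp only [Finset.mem_filter, Finset.mem_univ, true_and, Finset.mem_union, mem_Icc,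
      not_and_or, not_le] at hi ⊢
    rcases hi with h | h
    · left
      rw [div_lt_iff₀ hm'] at h
      linarith
    · right
      rw [lt_div_iff₀ hm'] at h
      have h2 : (i : ℕ) + 1 ≤ m := i.2
      have h3 : ((m - 1 - (i : ℕ) : ℕ) : ℝ) = m - 1 - (i : ℕ) := by
        rw [Nat.cast_sub (by omega), Nat.cast_sub (by omega)]
        simp
      rw [h3]
      linarith
  have h2 : (Finset.univ.filter (fun i : Fin m => ((i : ℕ) : ℝ) < η * m)).card ≤ ⌈η * m⌉₊ := by
    rw [← Finset.card_range ⌈η * m⌉₊]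
    refine Finset.card_le_card_of_injOn (fun i : Fin m => (i : ℕ)) ?_ ?_
    · intro i hi
      simp only [Finset.coe_filter, Finset.mem_univ, true_and, Set.mem_ofPred_eq] at hi
      simp only [Finset.coe_range, mem_Iio]
      exact Nat.lt_ceil.mpr hi
    · intro i _ j _ hij
      exact Fin.ext hij
  have h3 : (Finset.univ.filter (fun i : Fin m =>
      ((m - 1 - (i : ℕ) : ℕ) : ℝ) < η * m)).card ≤ ⌈η * m⌉₊ := by
    rw [← Finset.card_range ⌈η * m⌉₊]
    refine Finset.card_le_card_of_injOn (fun i : Fin m => m - 1 - (i : ℕ)) ?_ ?_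
    · intro i hi
      simp only [Finset.coe_filter, Finset.mem_univ, true_and, Set.mem_ofPred_eq] at hi
      simp only [Finset.coe_range, mem_Iio]
      exact Nat.lt_ceil.mpr hi
    · intro i _ j _ hij
      have hi := i.2
      have hj := j.2
      apply Fin.ext
      simp only at hij
      omega
  have h4 : ((⌈η * m⌉₊ : ℕ) : ℝ) < η * m + 1 := Nat.ceil_lt_add_one (by positivity)
  have h5 := (Finset.card_le_card h1).trans (Finset.card_union_le _ _)
  have h6 : ((Finset.univ.filter (fun i : Fin m =>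
      ¬ ((((i : ℕ) : ℝ) + 1 / 2) / m ∈ Icc η (1 - η)))).card : ℝ) ≤
      ((⌈η * m⌉₊ : ℕ) : ℝ) + ((⌈η * m⌉₊ : ℕ) : ℝ) := by
    exact_mod_cast h5.trans (add_le_add h2 h3)
  linarith

open Classical in
lemma F_count {m : ℕ} (hm : 0 < m) {η : ℝ} (hη : 0 < η) :
    (m : ℝ) ^ 2 * (1 - (4 * η + 4 / m)) ≤
      ((Finset.univ.filter (fun d : Dig m => F_good η m d)).card : ℝ) := by
  have hm' : (0 : ℝ) < m := by exact_mod_cast hm
  set Bd : Finset (Fin m) := Finset.univ.filter (fun i : Fin m =>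
      ¬ ((((i : ℕ) : ℝ) + 1 / 2) / m ∈ Icc η (1 - η))) with hBd
  have h1 := F_bad1 hm hη
  rw [← hBd] at h1
  have h2 : (Finset.univ.filter (fun d : Dig m => ¬ F_good η m d)) ⊆
      (Bd ×ˢ (Finset.univ : Finset (Fin m))) ∪ ((Finset.univ : Finset (Fin m)) ×ˢ Bd) := by
    intro d hd
    simp only [Finset.mem_filter, Finset.mem_univ, true_and, F_good, F_ct, not_and_or] at hd
    simp only [Finset.mem_union, Finset.mem_product, Finset.mem_univ, and_true, true_and, hBd,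
      Finset.mem_filter]
    exact hd
  have h3 := (Finset.card_le_card h2).trans (Finset.card_union_le _ _)
  rw [Finset.card_product, Finset.card_product, Finset.card_univ, Fintype.card_fin] at h3
  have h4 : ((Finset.univ.filter (fun d : Dig m => ¬ F_good η m d)).card : ℝ) ≤
      Bd.card * m + m * Bd.card := by exact_mod_cast h3
  have h5 := Finset.card_filter_add_card_filter_not (s := (Finset.univ : Finset (Dig m)))
    (fun d : Dig m => F_good η m d)
  have h6 : ((Finset.univ.filter (fun d : Dig m => F_good η m d)).card : ℝ) +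
      ((Finset.univ.filter (fun d : Dig m => ¬ F_good η m d)).card : ℝ) = (m : ℝ) ^ 2 := by
    have h7 : (Finset.univ : Finset (Dig m)).card = m ^ 2 := by
      rw [Finset.card_univ, Fintype.card_prod, Fintype.card_fin, sq]
    rw [h7] at h5
    exact_mod_cast h5
  have h8 : (m : ℝ) ^ 2 * (1 - (4 * η + 4 / m)) = m ^ 2 - 2 * (2 * (η * m + 1)) * m := by
    field_simp
    ring
  rw [h8]
  have h9 : (Bd.card : ℝ) * m ≤ 2 * (η * m + 1) * m := mul_le_mul_of_nonneg_right h1 hm'.le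
  nlinarith

open Classical in
lemma F_avg_ge {m : ℕ} (hm : 0 < m) {η : ℝ} (hη : 0 < η) {f : Dig m → ℝ} {c : ℝ} (hc : 0 ≤ c)
    (h0 : ∀ d, 0 ≤ f d) (h : ∀ d, F_good η m d → c ≤ f d) :
    (1 - (4 * η + 4 / m)) * c ≤ avg f := by
  have hm' : (0 : ℝ) < m := by exact_mod_cast hm
  unfold avg
  have h1 : (Fintype.card (Dig m) : ℝ) = (m : ℝ) ^ 2 := by
    rw [Fintype.card_prod, Fintype.card_fin]; push_cast; ring
  rw [smul_eq_mul, h1]
  have h2 : 0 < (m : ℝ) ^ 2 := by positivity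
  rw [le_inv_mul_iff₀ h2]
  have h3 := F_count hm hη
  calc (m : ℝ) ^ 2 * ((1 - (4 * η + 4 / m)) * c) = ((m : ℝ) ^ 2 * (1 - (4 * η + 4 / m))) * c := by
        ring
    _ ≤ ((Finset.univ.filter (fun d : Dig m => F_good η m d)).card : ℝ) * c :=
        mul_le_mul_of_nonneg_right h3 hc
    _ = ∑ d ∈ Finset.univ.filter (fun d : Dig m => F_good η m d), c := by
        rw [Finset.sum_const, nsmul_eq_mul]
    _ ≤ ∑ d ∈ Finset.univ.filter (fun d : Dig m => F_good η m d), f d := by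
        refine Finset.sum_le_sum (fun d hd => h d ?_)
        simpa using hd
    _ ≤ ∑ d, f d := Finset.sum_le_sum_of_subset_of_nonneg (Finset.filter_subset _ _)
        (fun d _ _ => h0 d)

end Count

/-! ### The kernels -/

section Ker

variable {B : ℝ}

open Classical in
/-- The potential kernel. -/
noncomputable def F_z (η A : ℝ) (m : ℕ) (M : UM B) (d : Dig m) (y : ℝ × ℝ) : ℝ :=
  if F_good η m d then F_G (1 / (m : ℝ)) A (M.1.qf (y - F_ct m d)) else 0

open Classical in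
/-- Its gradient. -/
noncomputable def F_dz (η A : ℝ) (m : ℕ) (M : UM B) (d : Dig m) (y : ℝ × ℝ) : ℝ × ℝ :=
  if F_good η m d then F_gr M.1 (1 / (m : ℝ)) A (y - F_ct m d) else 0

lemma F_supp {M : SymM} {m : ℕ} {η A : ℝ} {d : Dig m} {y : ℝ × ℝ} (hB : 0 < B)
    (hA : B * A ^ 2 ≤ η ^ 2) (hη : 0 < η) (hM : Unim B M) (hd : F_good η m d) (hy : y ∉ SqO) :
    A ^ 2 ≤ M.qf (y - F_ct m d) := by
  have h1 := F_len_le hM (y - F_ct m d)
  have h2 : η ^ 2 ≤ len (y - F_ct m d) ^ 2 := by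
    rw [F_len_sq, Prod.fst_sub, Prod.snd_sub]
    obtain ⟨⟨h3, h4⟩, ⟨h5, h6⟩⟩ := hd
    have h7 : ¬ ((0 < y.1 ∧ y.1 < 1) ∧ (0 < y.2 ∧ y.2 < 1)) := hy
    have h8 : y.1 ≤ 0 ∨ 1 ≤ y.1 ∨ y.2 ≤ 0 ∨ 1 ≤ y.2 := by
      by_contra hc
      push Not at hc
      exact h7 ⟨⟨hc.1, hc.2.1⟩, hc.2.2⟩
    have e1 := sq_nonneg (y.1 - (F_ct m d).1)
    have e2 := sq_nonneg (y.2 - (F_ct m d).2)
    rcases h8 with h | h | h | h
    · nlinarith
    · nlinarith
    · nlinarith
    · nlinarith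
  have h3 : B * A ^ 2 ≤ B * M.qf (y - F_ct m d) := hA.trans (h2.trans h1)
  exact le_of_mul_le_mul_left h3 hB

lemma F_near {M : SymM} {m : ℕ} (hB : 0 ≤ B) (hm : 0 < m) (hM : Unim B M) (d : Dig m)
    {u : ℝ × ℝ} (hu : u ∈ Sq) :
    M.qf (emb m 1 ((d.1 : ℕ), (d.2 : ℕ)) u - F_ct m d) ≤ B * (1 / (m : ℝ)) ^ 2 := by
  have hm' : (0 : ℝ) < m := by exact_mod_cast hm
  refine (F_qf_le hM _).trans (mul_le_mul_of_nonneg_left ?_ hB)
  obtain ⟨⟨h1, h2⟩, ⟨h3, h4⟩⟩ := hu
  rw [F_len_sq]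
  have e1 : (emb m 1 ((d.1 : ℕ), (d.2 : ℕ)) u - F_ct m d).1 = (u.1 - 1 / 2) * (1 / m) := by
    unfold emb F_ct
    simp only [Prod.fst_sub, pow_one]
    ring
  have e2 : (emb m 1 ((d.1 : ℕ), (d.2 : ℕ)) u - F_ct m d).2 = (u.2 - 1 / 2) * (1 / m) := by
    unfold emb F_ct
    simp only [Prod.snd_sub, pow_one]
    ring
  rw [e1, e2]
  have h5 : (u.1 - 1 / 2) ^ 2 + (u.2 - 1 / 2) ^ 2 ≤ 1 := by nlinarith
  calc ((u.1 - 1 / 2) * (1 / (m : ℝ))) ^ 2 + ((u.2 - 1 / 2) * (1 / (m : ℝ))) ^ 2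
      = ((u.1 - 1 / 2) ^ 2 + (u.2 - 1 / 2) ^ 2) * (1 / (m : ℝ)) ^ 2 := by ring
    _ ≤ 1 * (1 / (m : ℝ)) ^ 2 := mul_le_mul_of_nonneg_right h5 (sq_nonneg _)
    _ = _ := one_mul _

lemma F_meas_emb (m j : ℕ) (q : ℕ × ℕ) (c : ℝ × ℝ) :
    Measurable (fun u : ℝ × ℝ => emb m j q u - c) := by
  unfold emb
  have h : Continuous (fun u : ℝ × ℝ =>
    (((q.1 : ℝ) + u.1) / (m : ℝ) ^ j, ((q.2 : ℝ) + u.2) / (m : ℝ) ^ j) - c) := by fun_prop
  exact h.measurable

/-- Lower bound for the self energy of one subcell. -/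
lemma F_self1 {M : SymM} {m : ℕ} {A : ℝ} (hB : 0 ≤ B) (hm : 0 < m) (hA : 0 < A)
    (hM : Unim B M) (d : Dig m) :
    1 / (4 * Real.pi) * (2 * Real.log m - (1 + Real.log ((B + 1) / A ^ 2))) ≤
      ∫ u, F_G (1 / (m : ℝ)) A (M.qf (emb m 1 ((d.1 : ℕ), (d.2 : ℕ)) u - F_ct m d)) ∂U := by
  have hm' : (0 : ℝ) < m := by exact_mod_cast hm
  have hp := Real.pi_pos
  have := F_U_prob
  have hr : 0 < 1 / (m : ℝ) := by positivity
  have hint : Integrable (fun u => F_G (1 / (m : ℝ)) A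
      (M.qf (emb m 1 ((d.1 : ℕ), (d.2 : ℕ)) u - F_ct m d))) U := by
    refine Integrable.of_bound ?_ (1 / (4 * Real.pi) * (A ^ 2 / (1 / (m : ℝ)) ^ 2)) ?_
    · have h1 := F_meas_emb m 1 ((d.1 : ℕ), (d.2 : ℕ)) (F_ct m d)
      have h2 : Measurable (fun y : ℝ × ℝ => M.qf y) := by
        have := F_meas_qf M 0
        simpa using this
      exact (F_meas_G.comp (h2.comp h1)).aestronglyMeasurable
    · refine ae_of_all _ (fun u => ?_)
      have h0 := F_qf_nonneg hM (emb m 1 ((d.1 : ℕ), (d.2 : ℕ)) u - F_ct m d)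
      rw [Real.norm_eq_abs, abs_of_nonneg (F_G_nonneg hr h0)]
      exact F_G_le hr h0
  have h1 : ∫ _u, (1 / (4 * Real.pi) * (2 * Real.log m - (1 + Real.log ((B + 1) / A ^ 2)))) ∂U =
      1 / (4 * Real.pi) * (2 * Real.log m - (1 + Real.log ((B + 1) / A ^ 2))) := by
    rw [integral_const, smul_eq_mul]
    simp
  rw [← h1]
  refine integral_mono_ae (integrable_const _) hint ?_
  have hS : MeasurableSet Sq := measurableSet_Icc.prod measurableSet_Icc
  have h2 : ∀ᵐ u ∂U, u ∈ Sq := ae_restrict_mem hS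
  filter_upwards [h2] with u hu
  have h0 := F_qf_nonneg hM (emb m 1 ((d.1 : ℕ), (d.2 : ℕ)) u - F_ct m d)
  have h3 := F_near hB hm hM d hu
  refine le_trans ?_ (F_G_ge hr h0)
  refine mul_le_mul_of_nonneg_left ?_ (by positivity)
  have h4 : Real.log ((M.qf (emb m 1 ((d.1 : ℕ), (d.2 : ℕ)) u - F_ct m d) + (1 / (m : ℝ)) ^ 2) /
      (A ^ 2 + (1 / (m : ℝ)) ^ 2)) ≤ Real.log ((B + 1) / A ^ 2) - 2 * Real.log m := by
    have h5 : Real.log ((B + 1) / A ^ 2) - 2 * Real.log m =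
        Real.log ((B + 1) / A ^ 2 / (m : ℝ) ^ 2) := by
      have h6 : (B + 1) / A ^ 2 ≠ 0 := by positivity
      have h7 : (m : ℝ) ^ 2 ≠ 0 := by positivity
      rw [Real.log_div h6 h7, Real.log_pow]
      push_cast
      ring
    rw [h5]
    apply Real.log_le_log (by positivity)
    rw [div_le_iff₀ (by positivity)]
    have h6 : (B + 1) / A ^ 2 / (m : ℝ) ^ 2 * (A ^ 2 + (1 / (m : ℝ)) ^ 2) =
        (B + 1) * (1 / (m : ℝ)) ^ 2 + (B + 1) / A ^ 2 / (m : ℝ) ^ 2 * (1 / (m : ℝ)) ^ 2 := by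
      field_simp
    rw [h6]
    have h7 : 0 ≤ (B + 1) / A ^ 2 / (m : ℝ) ^ 2 * (1 / (m : ℝ)) ^ 2 := by positivity
    linarith
  linarith

end Ker

/-- Item F: the potential kernels of the lower bound exist. -/
theorem F (hE : StmtE0) : StmtF := by
  intro B hB δ hδ
  have hB0 : 0 < B := by linarith
  have hp := Real.pi_pos
  have hp3 := Real.pi_gt_three
  set η : ℝ := min δ 1 / 16 with hη
  have hη0 : 0 < η := by
    have : 0 < min δ 1 := lt_min hδ one_pos
    positivity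
  have hη1 : η ≤ δ / 16 := by
    have := min_le_left δ 1
    rw [hη]; linarith
  have hη2 : η ≤ 1 / 16 := by
    have := min_le_right δ 1
    rw [hη]; linarith
  set A : ℝ := η / Real.sqrt B with hA
  have hsB : 0 < Real.sqrt B := Real.sqrt_pos.mpr hB0
  have hA0 : 0 < A := by positivity
  have hA2 : B * A ^ 2 = η ^ 2 := by
    rw [hA, div_pow, Real.sq_sqrt hB0.le]
    field_simp
  have hA3 : A ^ 2 ≤ 1 / 2 := by nlinarith [sq_nonneg A]
  set K : ℝ := 1 + Real.log ((B + 1) / A ^ 2) with hK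
  have hK0 : 0 ≤ K := by
    have : 0 ≤ Real.log ((B + 1) / A ^ 2) := by
      apply Real.log_nonneg
      rw [le_div_iff₀ (by positivity)]
      linarith
    linarith
  have hlog : Tendsto (fun m : ℕ => Real.log m) atTop atTop :=
    Real.tendsto_log_atTop.comp tendsto_natCast_atTop_atTop
  have hev : ∀ᶠ m : ℕ in atTop, (8 ≤ m ∧ 16 / δ ≤ (m : ℝ)) ∧
      (K ≤ Real.log m ∧ (K + Real.pi) / δ ≤ Real.log m) :=
    ((eventually_ge_atTop 8).and (tendsto_natCast_atTop_atTop.eventually_ge_atTop _)).and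
      ((hlog.eventually_ge_atTop _).and (hlog.eventually_ge_atTop _))
  obtain ⟨m₀, hm₀⟩ := eventually_atTop.mp hev
  refine ⟨m₀, fun m hm => ?_⟩
  obtain ⟨⟨hm8, hmδ⟩, hmK, hmK2⟩ := hm₀ m hm
  have hm0 : 0 < m := by omega
  have hm' : (8 : ℝ) ≤ m := by exact_mod_cast hm8
  have hmpos : (0 : ℝ) < m := by linarith
  have hr : 0 < 1 / (m : ℝ) := by positivity
  have hr2 : 3 * B / (1 / (m : ℝ)) ^ 2 = 3 * B * (m : ℝ) ^ 2 := by field_simp
  have hm2 : 1 ≤ (m : ℝ) ^ 2 := by nlinarith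
  have hL0 : 0 ≤ Real.log m := Real.log_nonneg (by linarith)
  refine ⟨F_z η A m, F_dz η A m, 3 * B * (m : ℝ) ^ 2, ?_⟩
  refine ⟨by positivity, ?_, ?_, ?_, ?_, ?_, ?_⟩
  · -- support
    intro M d y hy
    unfold F_z F_dz
    by_cases hd : F_good η m d
    · rw [if_pos hd, if_pos hd]
      have h1 := F_supp (A := A) hB0 hA2.le hη0 M.2 hd hy
      refine ⟨F_G_zero hr h1, ?_⟩
      unfold F_gr
      rw [F_k_zero hr h1, mul_zero, zero_smul]
    · rw [if_neg hd, if_neg hd]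
      exact ⟨rfl, rfl⟩
  · -- bounds
    intro M d y
    unfold F_z F_dz
    by_cases hd : F_good η m d
    · rw [if_pos hd, if_pos hd]
      have h0 := F_qf_nonneg M.2 (y - F_ct m d)
      refine ⟨?_, ?_⟩
      · rw [abs_of_nonneg (F_G_nonneg hr h0)]
        refine (F_G_le hr h0).trans ?_
        have h1 : 1 / (4 * Real.pi) * (A ^ 2 / (1 / (m : ℝ)) ^ 2) =
            1 / (4 * Real.pi) * A ^ 2 * (m : ℝ) ^ 2 := by field_simp
        rw [h1]
        have h2 : 1 / (4 * Real.pi) * A ^ 2 ≤ 3 * B := by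
          have := F_pi_le'
          have h3 : 0 ≤ A ^ 2 := sq_nonneg A
          nlinarith
        exact mul_le_mul_of_nonneg_right h2 (by positivity)
      · refine (F_gr_len hr hB0.le M.2 _).trans ?_
        have h1 : B / (1 / (m : ℝ)) ^ 2 = B * (m : ℝ) ^ 2 := by field_simp
        rw [h1]
        nlinarith
    · rw [if_neg hd, if_neg hd]
      refine ⟨?_, ?_⟩
      · rw [abs_zero]; positivity
      · have : len (0 : ℝ × ℝ) = 0 := by unfold len; simp
        rw [this]; positivity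
  · -- Lipschitz
    intro M d y y'
    unfold F_dz
    by_cases hd : F_good η m d
    · rw [if_pos hd, if_pos hd]
      have h1 := F_gr_lip (A := A) hr hB0.le M.2 (y - F_ct m d) (y' - F_ct m d)
      rw [sub_sub_sub_cancel_right, hr2] at h1
      exact h1
    · rw [if_neg hd, if_neg hd]
      have h1 : len ((0 : ℝ × ℝ) - 0) = 0 := by unfold len; simp
      rw [h1]
      have := F_len_nonneg (y - y')
      positivity
  · -- second order
    intro M d y y'
    unfold F_z F_dz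
    by_cases hd : F_good η m d
    · rw [if_pos hd, if_pos hd, if_pos hd]
      have h1 := F_diff (A := A) hr hB0.le M.2 (y - F_ct m d) (y' - F_ct m d)
      rw [sub_sub_sub_cancel_right, hr2] at h1
      exact h1
    · rw [if_neg hd, if_neg hd, if_neg hd]
      have h1 : dot (0 : ℝ × ℝ) (y' - y) = 0 := by unfold dot; simp
      rw [h1, sub_zero, sub_zero, abs_zero]
      have := F_len_nonneg (y' - y)
      positivity
  · -- energy
    intro M
    refine F_avg_le hm0 (fun d => ?_)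
    by_cases hd : F_good η m d
    · have e1 : ∀ y, F_dz η A m M d y = F_gr M.1 (1 / (m : ℝ)) A (y - F_ct m d) := by
        intro y; unfold F_dz; rw [if_pos hd]
      simp_rw [e1]
      refine (F_energy1 hE M.2 hr _).trans ?_
      have h1 : (A ^ 2 + (1 / (m : ℝ)) ^ 2) / (1 / (m : ℝ)) ^ 2 = A ^ 2 * (m : ℝ) ^ 2 + 1 := by
        field_simp
      rw [h1]
      have h2 : Real.log (A ^ 2 * (m : ℝ) ^ 2 + 1) ≤ 2 * Real.log m := by
        have h3 : 2 * Real.log m = Real.log ((m : ℝ) ^ 2) := by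
          rw [Real.log_pow]; push_cast; ring
        rw [h3]
        apply Real.log_le_log (by positivity)
        nlinarith
      have h4 : 1 / (4 * Real.pi) * (2 * Real.log m) = 1 / (2 * Real.pi) * Real.log m := by
        field_simp; ring
      have h5 : 1 / (4 * Real.pi) * Real.log (A ^ 2 * (m : ℝ) ^ 2 + 1) ≤
          1 / (4 * Real.pi) * (2 * Real.log m) :=
        mul_le_mul_of_nonneg_left h2 (by positivity)
      rw [h4] at h5
      refine h5.trans (mul_le_mul_of_nonneg_left (by linarith) (by positivity))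
    · have e1 : ∀ y, M.1.adj.qf (F_dz η A m M d y) = 0 := by
        intro y; unfold F_dz SymM.qf; rw [if_neg hd]; simp
      simp_rw [e1]
      rw [integral_zero]
      positivity
  · -- self energy
    intro M
    have h1 : avg (fun d : Dig m => ∫ y, F_z η A m M d y ∂U) ≤ A ^ 2 / 4 := by
      refine F_avg_le hm0 (fun d => ?_)
      by_cases hd : F_good η m d
      · have e1 : ∀ y, F_z η A m M d y = F_G (1 / (m : ℝ)) A (M.1.qf (y - F_ct m d)) := by
          intro y; unfold F_z; rw [if_pos hd]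
        simp_rw [e1]
        exact F_pot1 hE M.2 hr _
      · have e1 : ∀ y, F_z η A m M d y = 0 := by
          intro y; unfold F_z; rw [if_neg hd]
        simp_rw [e1]
        rw [integral_zero]
        positivity
    have hc : 0 ≤ 1 / (4 * Real.pi) * (2 * Real.log m - K) := by
      have : 0 ≤ 2 * Real.log m - K := by linarith
      positivity
    have h2 : (1 - (4 * η + 4 / m)) * (1 / (4 * Real.pi) * (2 * Real.log m - K)) ≤
        avg (fun d : Dig m => ∫ u, F_z η A m M d (emb m 1 ((d.1 : ℕ), (d.2 : ℕ)) u) ∂U) := by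
      refine F_avg_ge hm0 hη0 hc (fun d => ?_) (fun d hd => ?_)
      · refine integral_nonneg (fun u => ?_)
        unfold F_z
        split_ifs
        · exact F_G_nonneg hr (F_qf_nonneg M.2 _)
        · exact le_refl 0
      · have e1 : ∀ y, F_z η A m M d y = F_G (1 / (m : ℝ)) A (M.1.qf (y - F_ct m d)) := by
          intro y; unfold F_z; rw [if_pos hd]
        simp_rw [e1]
        exact F_self1 hB0.le hm0 hA0 M.2 d
    have h3 : (4 : ℝ) / m ≤ δ / 4 := by
      rw [div_le_div_iff₀ hmpos (by norm_num)]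
      rw [div_le_iff₀ hδ] at hmδ
      linarith
    have h4 : K + Real.pi ≤ δ * Real.log m := by
      rw [div_le_iff₀ hδ] at hmK2
      linarith
    have h5 : 4 * η + 4 / m ≤ δ / 2 := by linarith
    have h6 : 0 ≤ 4 * η + 4 / (m : ℝ) := by positivity
    have h7 : 1 / (4 * Real.pi) * (2 * Real.log m - K - 2 * (δ / 2) * Real.log m) ≤
        (1 - (4 * η + 4 / m)) * (1 / (4 * Real.pi) * (2 * Real.log m - K)) := by
      have e1 : (1 - (4 * η + 4 / m)) * (1 / (4 * Real.pi) * (2 * Real.log m - K)) =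
          1 / (4 * Real.pi) * ((1 - (4 * η + 4 / m)) * (2 * Real.log m - K)) := by ring
      rw [e1]
      refine mul_le_mul_of_nonneg_left ?_ (by positivity)
      nlinarith [mul_nonneg h6 hK0, mul_le_mul_of_nonneg_right h5 hL0]
    have h8 : 1 / (2 * Real.pi) * ((1 - δ) * Real.log m) + 1 / 4 * (1 / 2) ≤
        1 / (4 * Real.pi) * (2 * Real.log m - K - 2 * (δ / 2) * Real.log m) := by
      have e1 : 1 / (2 * Real.pi) * ((1 - δ) * Real.log m) =
          1 / (4 * Real.pi) * (2 * ((1 - δ) * Real.log m)) := by field_simp; ring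
      have e2 : (1 : ℝ) / 4 * (1 / 2) = 1 / (4 * Real.pi) * (Real.pi / 2) := by field_simp
      rw [e1, e2, ← mul_add]
      refine mul_le_mul_of_nonneg_left ?_ (by positivity)
      nlinarith
    have h9 : A ^ 2 / 4 ≤ 1 / 4 * (1 / 2) := by linarith
    linarith

end Match2D
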