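import Pool.Agent.Work.MP_884187_pr.A1

/-!
MP_884187_pr, item L1: deterministic bounds on the potentials of the lower bound.
-/

open MeasureTheory Set Filter Topology

namespace Match2D

theorem L1_len_smul (a : ℝ) (v : ℝ × ℝ) : len (a • v) = |a| * len v := by
  rw [len, len, Prod.smul_fst, Prod.smul_snd, smul_eq_mul, smul_eq_mul,
    show (a * v.1) ^ 2 + (a * v.2) ^ 2 = a ^ 2 * (v.1 ^ 2 + v.2 ^ 2) by ring,
    Real.sqrt_mul (sq_nonneg a), Real.sqrt_sq_eq_abs]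

theorem L1_len_sum {ι : Type*} (s : Finset ι) (v : ι → ℝ × ℝ) :
    len (∑ i ∈ s, v i) ≤ ∑ i ∈ s, len (v i) := by
  classical
  induction s using Finset.induction_on with
  | empty => simp [A1_len_zero]
  | insert a s ha ih =>
    rw [Finset.sum_insert ha, Finset.sum_insert ha]
    exact (A1_len_add_le _ _).trans (by linarith)

theorem L1_dot_le (v w : ℝ × ℝ) : |dot v w| ≤ len v * len w := by
  rw [len, len, ← Real.sqrt_mul (by positivity)]
  apply Real.abs_le_sqrt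
  rw [dot]
  nlinarith [sq_nonneg (v.1 * w.2 - v.2 * w.1)]

theorem L1_dot_add_left (v v' w : ℝ × ℝ) : dot (v + v') w = dot v w + dot v' w := by
  simp only [dot, Prod.fst_add, Prod.snd_add]; ring

theorem L1_dot_smul_left (a : ℝ) (v w : ℝ × ℝ) : dot (a • v) w = a * dot v w := by
  simp only [dot, Prod.smul_fst, Prod.smul_snd, smul_eq_mul]; ring

theorem L1_dot_zero_left (w : ℝ × ℝ) : dot 0 w = 0 := by
  simp [dot]

theorem L1_dot_smul_right (a : ℝ) (v w : ℝ × ℝ) : dot v (a • w) = a * dot v w := by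
  simp only [dot, Prod.smul_fst, Prod.smul_snd, smul_eq_mul]; ring

theorem L1_dot_sum_left {ι : Type*} (s : Finset ι) (v : ι → ℝ × ℝ) (w : ℝ × ℝ) :
    dot (∑ i ∈ s, v i) w = ∑ i ∈ s, dot (v i) w := by
  classical
  induction s using Finset.induction_on with
  | empty => simp [L1_dot_zero_left]
  | insert a s ha ih => rw [Finset.sum_insert ha, Finset.sum_insert ha, L1_dot_add_left, ih]

/-- The local coordinate of `x` with respect to the cell `q` (possibly not containing `x`). -/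
def L1_u (N : ℝ) (q : ℕ × ℕ) (x : ℝ × ℝ) : ℝ × ℝ := (N * x.1 - q.1, N * x.2 - q.2)

theorem L1_u_sub (N : ℝ) (q : ℕ × ℕ) (x y : ℝ × ℝ) : L1_u N q x - L1_u N q y = N • (x - y) := by
  ext
  · simp only [L1_u, Prod.fst_sub, Prod.smul_fst, smul_eq_mul]; ring
  · simp only [L1_u, Prod.snd_sub, Prod.smul_snd, smul_eq_mul]; ring

theorem L1_loc (m j : ℕ) (x : ℝ × ℝ) : loc m j x = L1_u ((m : ℝ) ^ j) (qidx m j x) x := rfl

theorem L1_not_mem (m j : ℕ) (q : ℕ × ℕ) (x : ℝ × ℝ) (h : q ≠ qidx m j x) :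
    L1_u ((m : ℝ) ^ j) q x ∉ SqO := by
  intro hx
  apply h
  simp only [SqO, L1_u, mem_prod, mem_Ioo] at hx
  obtain ⟨⟨h1, h2⟩, h3, h4⟩ := hx
  ext
  · simp only [qidx]
    symm
    rw [Nat.floor_eq_iff (by have : (0 : ℝ) ≤ q.1 := Nat.cast_nonneg _; linarith)]
    constructor <;> linarith
  · simp only [qidx]
    symm
    rw [Nat.floor_eq_iff (by have : (0 : ℝ) ≤ q.2 := Nat.cast_nonneg _; linarith)]
    constructor <;> linarith

/-- Abstract gluing of cellwise functions vanishing outside their cells. -/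
theorem L1_glue (D : ℕ × ℕ → ℝ × ℝ → ℝ) (E : ℕ × ℕ → ℝ × ℝ → ℝ × ℝ) (idx : ℝ × ℝ → ℕ × ℕ)
    (K : ℝ) (h0 : ∀ q x, q ≠ idx x → D q x = 0 ∧ E q x = 0)
    (hD : ∀ q x y, |D q x - D q y - dot (E q y) (x - y)| ≤ K * len (x - y) ^ 2)
    (hE : ∀ q x y, len (E q x - E q y) ≤ K * len (x - y)) (hK : 0 ≤ K) (x y : ℝ × ℝ) :
    |D (idx x) x - D (idx y) y - dot (E (idx y) y) (x - y)| ≤ 2 * K * len (x - y) ^ 2 ∧
    len (E (idx x) x - E (idx y) y) ≤ 2 * K * len (x - y) := by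
  by_cases hxy : idx x = idx y
  · rw [hxy]
    have h1 := hD (idx y) x y
    have h2 := hE (idx y) x y
    have h3 : 0 ≤ K * len (x - y) ^ 2 := by positivity
    have h4 : 0 ≤ K * len (x - y) := mul_nonneg hK (A1_len_nonneg _)
    constructor
    · linarith
    · linarith
  · have hx := h0 (idx x) y hxy
    have hy := h0 (idx y) x (Ne.symm hxy)
    have h1 := hD (idx x) x y
    have h2 := hD (idx y) x y
    have h3 := hE (idx x) x y
    have h4 := hE (idx y) x y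
    rw [hx.1, hx.2, L1_dot_zero_left] at h1
    rw [hy.1] at h2
    rw [hx.2] at h3
    rw [hy.2] at h4
    constructor
    · have : D (idx x) x - D (idx y) y - dot (E (idx y) y) (x - y) =
          (D (idx x) x - 0 - 0) + (0 - D (idx y) y - dot (E (idx y) y) (x - y)) := by ring
      rw [this]
      exact (abs_add_le _ _).trans (by linarith)
    · have : E (idx x) x - E (idx y) y = (E (idx x) x - 0) + (0 - E (idx y) y) := by abel
      rw [this]
      exact (A1_len_add_le _ _).trans (by linarith)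

/-- A function with a quadratic first order expansion and bounded gradient is Lipschitz. -/
theorem L1_lip (f : ℝ × ℝ → ℝ) (G : ℝ × ℝ → ℝ × ℝ) (K L : ℝ) (hL : ∀ z ∈ Sq, len (G z) ≤ L)
    (hf : ∀ x ∈ Sq, ∀ y ∈ Sq, |f x - f y - dot (G y) (x - y)| ≤ K * len (x - y) ^ 2)
    (x : ℝ × ℝ) (hx : x ∈ Sq) (y : ℝ × ℝ) (hy : y ∈ Sq) : |f x - f y| ≤ L * len (x - y) := by
  -- subdivision of the segment
  have key : ∀ N : ℕ, 0 < N → |f x - f y| ≤ L * len (x - y) + K * len (x - y) ^ 2 / N := by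
    intro N hN
    have hN' : (0 : ℝ) < N := by exact_mod_cast hN
    set z : ℕ → ℝ × ℝ := fun k => y + ((k : ℝ) / N) • (x - y) with hz
    have hzmem : ∀ k, k ≤ N → z k ∈ Sq := by
      intro k hk
      have hk' : (k : ℝ) / N ≤ 1 := by
        rw [div_le_one hN']; exact_mod_cast hk
      have hk0 : (0 : ℝ) ≤ (k : ℝ) / N := by positivity
      simp only [Sq, mem_prod, mem_Icc] at hx hy ⊢
      simp only [hz, Prod.fst_add, Prod.snd_add, Prod.smul_fst, Prod.smul_snd, Prod.fst_sub,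
        Prod.snd_sub, smul_eq_mul]
      obtain ⟨⟨a1, a2⟩, a3, a4⟩ := hx
      obtain ⟨⟨b1, b2⟩, b3, b4⟩ := hy
      set t := (k : ℝ) / N
      refine ⟨⟨?_, ?_⟩, ?_, ?_⟩ <;> nlinarith
    have hstep : ∀ k, k < N → |f (z (k + 1)) - f (z k)| ≤
        L * len (x - y) / N + K * len (x - y) ^ 2 / N ^ 2 := by
      intro k hk
      have hd : z (k + 1) - z k = (1 / (N : ℝ)) • (x - y) := by
        simp only [hz]
        rw [add_sub_add_left_eq_sub, ← sub_smul]
        congr 1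
        push_cast
        field_simp
        ring
      have h1 := hf _ (hzmem (k + 1) hk) _ (hzmem k hk.le)
      rw [hd, L1_len_smul, L1_dot_smul_right, abs_of_pos (by positivity : (0 : ℝ) < 1 / N)] at h1
      have h2 : |dot (G (z k)) (x - y)| ≤ L * len (x - y) :=
        (L1_dot_le _ _).trans (mul_le_mul_of_nonneg_right (hL _ (hzmem k hk.le)) (A1_len_nonneg _))
      have h3 : |1 / (N : ℝ) * dot (G (z k)) (x - y)| ≤ L * len (x - y) / N := by
        rw [abs_mul, abs_of_pos (by positivity : (0 : ℝ) < 1 / N)]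
        calc 1 / (N : ℝ) * |dot (G (z k)) (x - y)| ≤ 1 / (N : ℝ) * (L * len (x - y)) :=
              mul_le_mul_of_nonneg_left h2 (by positivity)
          _ = L * len (x - y) / N := by ring
      have h4 : K * (1 / (N : ℝ) * len (x - y)) ^ 2 = K * len (x - y) ^ 2 / N ^ 2 := by ring
      rw [h4] at h1
      have h5 : f (z (k + 1)) - f (z k) = (f (z (k + 1)) - f (z k) -
          1 / (N : ℝ) * dot (G (z k)) (x - y)) + 1 / (N : ℝ) * dot (G (z k)) (x - y) := by ring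
      rw [h5]
      exact (abs_add_le _ _).trans (by linarith)
    have hsum : f x - f y = ∑ k ∈ Finset.range N, (f (z (k + 1)) - f (z k)) := by
      rw [Finset.sum_range_sub (fun k => f (z k))]
      have e1 : z N = x := by
        simp only [hz]
        rw [div_self hN'.ne', one_smul]; abel
      have e2 : z 0 = y := by simp [hz]
      rw [e1, e2]
    rw [hsum]
    calc |∑ k ∈ Finset.range N, (f (z (k + 1)) - f (z k))|
        ≤ ∑ k ∈ Finset.range N, |f (z (k + 1)) - f (z k)| := Finset.abs_sum_le_sum_abs _ _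
      _ ≤ ∑ _k ∈ Finset.range N, (L * len (x - y) / N + K * len (x - y) ^ 2 / N ^ 2) :=
          Finset.sum_le_sum (fun k hk => hstep k (Finset.mem_range.mp hk))
      _ = L * len (x - y) + K * len (x - y) ^ 2 / N := by
          rw [Finset.sum_const, Finset.card_range, nsmul_eq_mul]
          field_simp
  have hlim : Tendsto (fun N : ℕ => L * len (x - y) + K * len (x - y) ^ 2 / N) atTop
      (𝓝 (L * len (x - y) + 0)) :=
    tendsto_const_nhds.add (tendsto_const_div_atTop_nhds_zero_nat _)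
  rw [add_zero] at hlim
  refine ge_of_tendsto hlim ?_
  filter_upwards [eventually_gt_atTop 0] with N hN using key N hN

theorem L1_sum_bound {m : ℕ} (X : Dig m → ℝ) (F : Dig m → ℝ × ℝ) (K : ℝ)
    (hF : ∀ d, len (F d) ≤ K) : len (∑ d, X d • F d) ≤ (∑ d, |X d|) * K := by
  refine (L1_len_sum _ _).trans ?_
  rw [Finset.sum_mul]
  refine Finset.sum_le_sum (fun d _ => ?_)
  rw [L1_len_smul]
  exact mul_le_mul_of_nonneg_left (hF d) (abs_nonneg _)

/-- Bounds for one cell: size of the gradient. -/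
theorem L1_cell_bdd {m : ℕ} {B C₀ δ : ℝ} {ζ : UM B → Dig m → ℝ × ℝ → ℝ}
    {dζ : UM B → Dig m → ℝ × ℝ → ℝ × ℝ} (h : KerL B m C₀ δ ζ dζ) (a N P : ℝ) (hN : 0 ≤ N)
    (X : Dig m → ℝ) (M : UM B) (hP : |a| * N * ∑ d, |X d| ≤ P) (u : ℝ × ℝ) :
    len ((a * N) • ∑ d, X d • dζ M d u) ≤ P * C₀ := by
  rw [L1_len_smul, abs_mul, abs_of_nonneg hN]
  calc |a| * N * len (∑ d, X d • dζ M d u) ≤ |a| * N * ((∑ d, |X d|) * C₀) :=
        mul_le_mul_of_nonneg_left (L1_sum_bound _ _ _ (fun d => (h.bdd M d u).2)) (by positivity)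
    _ = (|a| * N * ∑ d, |X d|) * C₀ := by ring
    _ ≤ P * C₀ := mul_le_mul_of_nonneg_right hP h.pos.le

/-- Bounds for one cell: Lipschitz bound of the gradient. -/
theorem L1_cell_lip {m : ℕ} {B C₀ δ : ℝ} {ζ : UM B → Dig m → ℝ × ℝ → ℝ}
    {dζ : UM B → Dig m → ℝ × ℝ → ℝ × ℝ} (h : KerL B m C₀ δ ζ dζ) (a N P : ℝ) (hN : 0 ≤ N)
    (X : Dig m → ℝ) (M : UM B) (hP : |a| * N * ∑ d, |X d| ≤ P) (q : ℕ × ℕ) (x y : ℝ × ℝ) :
    len ((a * N) • (∑ d, X d • dζ M d (L1_u N q x)) - (a * N) • ∑ d, X d • dζ M d (L1_u N q y)) ≤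
      P * C₀ * N * len (x - y) := by
  rw [← smul_sub, ← Finset.sum_sub_distrib]
  have e : (∑ d, (X d • dζ M d (L1_u N q x) - X d • dζ M d (L1_u N q y))) =
      ∑ d, X d • (dζ M d (L1_u N q x) - dζ M d (L1_u N q y)) :=
    Finset.sum_congr rfl (fun d _ => (smul_sub _ _ _).symm)
  rw [e, L1_len_smul, abs_mul, abs_of_nonneg hN]
  have hb : ∀ d, len (dζ M d (L1_u N q x) - dζ M d (L1_u N q y)) ≤ C₀ * (N * len (x - y)) := by
    intro d
    refine (h.lip M d _ _).trans (le_of_eq ?_)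
    rw [L1_u_sub, L1_len_smul, abs_of_nonneg hN]
  calc |a| * N * len (∑ d, X d • (dζ M d (L1_u N q x) - dζ M d (L1_u N q y)))
      ≤ |a| * N * ((∑ d, |X d|) * (C₀ * (N * len (x - y)))) :=
        mul_le_mul_of_nonneg_left (L1_sum_bound _ _ _ hb) (by positivity)
    _ = (|a| * N * ∑ d, |X d|) * (C₀ * (N * len (x - y))) := by ring
    _ ≤ P * (C₀ * (N * len (x - y))) := mul_le_mul_of_nonneg_right hP
        (mul_nonneg h.pos.le (mul_nonneg hN (A1_len_nonneg _)))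
    _ = P * C₀ * N * len (x - y) := by ring

/-- Bounds for one cell: first order expansion. -/
theorem L1_cell_diff {m : ℕ} {B C₀ δ : ℝ} {ζ : UM B → Dig m → ℝ × ℝ → ℝ}
    {dζ : UM B → Dig m → ℝ × ℝ → ℝ × ℝ} (h : KerL B m C₀ δ ζ dζ) (a N P : ℝ) (hN : 0 ≤ N)
    (X : Dig m → ℝ) (M : UM B) (hP : |a| * N * ∑ d, |X d| ≤ P) (q : ℕ × ℕ) (x y : ℝ × ℝ) :
    |a * (∑ d, X d * ζ M d (L1_u N q x)) - a * (∑ d, X d * ζ M d (L1_u N q y)) -
      dot ((a * N) • ∑ d, X d • dζ M d (L1_u N q y)) (x - y)| ≤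
      P * C₀ * N * len (x - y) ^ 2 := by
  have e : a * (∑ d, X d * ζ M d (L1_u N q x)) - a * (∑ d, X d * ζ M d (L1_u N q y)) -
      dot ((a * N) • ∑ d, X d • dζ M d (L1_u N q y)) (x - y) =
      a * ∑ d, X d * (ζ M d (L1_u N q x) - ζ M d (L1_u N q y) -
        dot (dζ M d (L1_u N q y)) (L1_u N q x - L1_u N q y)) := by
    rw [L1_dot_smul_left, L1_dot_sum_left, L1_u_sub]
    simp only [Finset.mul_sum, ← Finset.sum_sub_distrib]
    refine Finset.sum_congr rfl (fun d _ => ?_)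
    rw [L1_dot_smul_left, L1_dot_smul_right]
    ring
  rw [e, abs_mul]
  have hb : |∑ d, X d * (ζ M d (L1_u N q x) - ζ M d (L1_u N q y) -
        dot (dζ M d (L1_u N q y)) (L1_u N q x - L1_u N q y))| ≤
      (∑ d, |X d|) * (C₀ * (N * len (x - y)) ^ 2) := by
    refine (Finset.abs_sum_le_sum_abs _ _).trans ?_
    rw [Finset.sum_mul]
    refine Finset.sum_le_sum (fun d _ => ?_)
    rw [abs_mul]
    refine mul_le_mul_of_nonneg_left ?_ (abs_nonneg _)
    refine (h.diff M d (L1_u N q y) (L1_u N q x)).trans (le_of_eq ?_)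
    rw [L1_u_sub, L1_len_smul, abs_of_nonneg hN]
  calc |a| * |∑ d, X d * (ζ M d (L1_u N q x) - ζ M d (L1_u N q y) -
        dot (dζ M d (L1_u N q y)) (L1_u N q x - L1_u N q y))|
      ≤ |a| * ((∑ d, |X d|) * (C₀ * (N * len (x - y)) ^ 2)) :=
        mul_le_mul_of_nonneg_left hb (abs_nonneg _)
    _ = (|a| * N * ∑ d, |X d|) * (C₀ * N * len (x - y) ^ 2) := by ring
    _ ≤ P * (C₀ * N * len (x - y) ^ 2) := mul_le_mul_of_nonneg_right hP
        (mul_nonneg (mul_nonneg h.pos.le hN) (sq_nonneg _))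
    _ = P * C₀ * N * len (x - y) ^ 2 := by ring

open Classical in
/-- The increment of the potential in the cell `q`, as a function on the plane. -/
noncomputable def L1_D {m n : ℕ} {B : ℝ} (θ : ℝ) (ζ : UM B → Dig m → ℝ × ℝ → ℝ)
    (dζ : UM B → Dig m → ℝ × ℝ → ℝ × ℝ) (cM : ℕ → ℝ × ℝ → UM B) (cs : ℕ → ℝ × ℝ → ℝ)
    (j : ℕ) (ω : Seqs m n) (q : ℕ × ℕ) (x : ℝ × ℝ) : ℝ :=
  if Good θ ω j q then
    (cs j (Gr θ dζ cM cs j ω (corner m j q)) / Real.sqrt (n * Real.log n)) *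
      ∑ d, xi (inCell ω j q) (ω j) d *
        ζ (cM j (Gr θ dζ cM cs j ω (corner m j q))) d (L1_u ((m : ℝ) ^ j) q x)
  else 0

open Classical in
/-- The increment of the gradient in the cell `q`, as a function on the plane. -/
noncomputable def L1_E {m n : ℕ} {B : ℝ} (θ : ℝ)
    (dζ : UM B → Dig m → ℝ × ℝ → ℝ × ℝ) (cM : ℕ → ℝ × ℝ → UM B) (cs : ℕ → ℝ × ℝ → ℝ)
    (j : ℕ) (ω : Seqs m n) (q : ℕ × ℕ) (x : ℝ × ℝ) : ℝ × ℝ :=
  if Good θ ω j q then
    (cs j (Gr θ dζ cM cs j ω (corner m j q)) * stp m n j) •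
      ∑ d, xi (inCell ω j q) (ω j) d •
        dζ (cM j (Gr θ dζ cM cs j ω (corner m j q))) d (L1_u ((m : ℝ) ^ j) q x)
  else 0

theorem L1_Ph_succ {m n : ℕ} {B : ℝ} (θ : ℝ) (ζ : UM B → Dig m → ℝ × ℝ → ℝ)
    (dζ : UM B → Dig m → ℝ × ℝ → ℝ × ℝ) (cM : ℕ → ℝ × ℝ → UM B) (cs : ℕ → ℝ × ℝ → ℝ)
    (j : ℕ) (ω : Seqs m n) (x : ℝ × ℝ) : Ph θ ζ dζ cM cs (j + 1) ω x =
      Ph θ ζ dζ cM cs j ω x + L1_D θ ζ dζ cM cs j ω (qidx m j x) x := rfl

theorem L1_Gr_succ {m n : ℕ} {B : ℝ} (θ : ℝ)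
    (dζ : UM B → Dig m → ℝ × ℝ → ℝ × ℝ) (cM : ℕ → ℝ × ℝ → UM B) (cs : ℕ → ℝ × ℝ → ℝ)
    (j : ℕ) (ω : Seqs m n) (x : ℝ × ℝ) : Gr θ dζ cM cs (j + 1) ω x =
      Gr θ dζ cM cs j ω x + L1_E θ dζ cM cs j ω (qidx m j x) x := rfl

theorem L1_supp {m n : ℕ} {B C₀ δ : ℝ} {ζ : UM B → Dig m → ℝ × ℝ → ℝ}
    {dζ : UM B → Dig m → ℝ × ℝ → ℝ × ℝ} (h : KerL B m C₀ δ ζ dζ) (θ : ℝ)
    (cM : ℕ → ℝ × ℝ → UM B) (cs : ℕ → ℝ × ℝ → ℝ) (j : ℕ) (ω : Seqs m n) (q : ℕ × ℕ) (x : ℝ × ℝ)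
    (hq : q ≠ qidx m j x) :
    L1_D θ ζ dζ cM cs j ω q x = 0 ∧ L1_E θ dζ cM cs j ω q x = 0 := by
  have hx := L1_not_mem m j q x hq
  constructor
  · unfold L1_D
    split_ifs with hg
    · rw [Finset.sum_eq_zero, mul_zero]
      intro d _
      rw [(h.supp _ d _ hx).1, mul_zero]
    · rfl
  · unfold L1_E
    split_ifs with hg
    · rw [Finset.sum_eq_zero, smul_zero]
      intro d _
      rw [(h.supp _ d _ hx).2, smul_zero]
    · rfl

/-- The coefficient bound in a normal cell. -/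
theorem L1_coef {m n : ℕ} {θ Cs : ℝ} {ω : Seqs m n} {j : ℕ} {q : ℕ × ℕ} (c : ℝ) (hc : |c| ≤ Cs)
    (hg : Good θ ω j q) :
    |c / Real.sqrt (n * Real.log n)| * (m : ℝ) ^ j * ∑ d, |xi (inCell ω j q) (ω j) d| ≤
      Cs * θ := by
  have h1 : stp m n j * ∑ d, |xi (inCell ω j q) (ω j) d| ≤ θ := hg
  have h2 : |c / Real.sqrt (n * Real.log n)| * (m : ℝ) ^ j * ∑ d, |xi (inCell ω j q) (ω j) d| =
      |c| * (stp m n j * ∑ d, |xi (inCell ω j q) (ω j) d|) := by
    rw [abs_div, abs_of_nonneg (Real.sqrt_nonneg _), stp]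
    ring
  rw [h2]
  have hCs : 0 ≤ Cs := (abs_nonneg c).trans hc
  have h3 : 0 ≤ stp m n j * ∑ d, |xi (inCell ω j q) (ω j) d| := by
    apply mul_nonneg
    · unfold stp; positivity
    · exact Finset.sum_nonneg (fun d _ => abs_nonneg _)
  exact mul_le_mul hc h1 h3 hCs

theorem L1_coef_eq (m n j : ℕ) (c : ℝ) :
    c * stp m n j = c / Real.sqrt (n * Real.log n) * (m : ℝ) ^ j := by
  rw [stp]; ring

/-- All the bounds on the increments of one generation. -/
theorem L1_incr {m n : ℕ} {B C₀ δ Cs : ℝ} {ζ : UM B → Dig m → ℝ × ℝ → ℝ}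
    {dζ : UM B → Dig m → ℝ × ℝ → ℝ × ℝ} (h : KerL B m C₀ δ ζ dζ) (θ : ℝ) (hθ : 0 ≤ θ)
    (hCs : 0 ≤ Cs)
    (cM : ℕ → ℝ × ℝ → UM B) (cs : ℕ → ℝ × ℝ → ℝ) (hcs : ∀ j g, |cs j g| ≤ Cs) (j : ℕ)
    (ω : Seqs m n) (q : ℕ × ℕ) (x y : ℝ × ℝ) :
    len (L1_E θ dζ cM cs j ω q x) ≤ Cs * θ * C₀ ∧
    len (L1_E θ dζ cM cs j ω q x - L1_E θ dζ cM cs j ω q y) ≤
      Cs * θ * C₀ * (m : ℝ) ^ j * len (x - y) ∧
    |L1_D θ ζ dζ cM cs j ω q x - L1_D θ ζ dζ cM cs j ω q y -
      dot (L1_E θ dζ cM cs j ω q y) (x - y)| ≤ Cs * θ * C₀ * (m : ℝ) ^ j * len (x - y) ^ 2 := by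
  have hC₀ := h.pos.le
  have hN : (0 : ℝ) ≤ (m : ℝ) ^ j := by positivity
  by_cases hg : Good θ ω j q
  · simp only [L1_D, L1_E, if_pos hg, L1_coef_eq]
    have hP := L1_coef (cs j (Gr θ dζ cM cs j ω (corner m j q))) (hcs _ _) hg
    exact ⟨L1_cell_bdd h _ _ _ hN _ _ hP _, L1_cell_lip h _ _ _ hN _ _ hP _ _ _,
      L1_cell_diff h _ _ _ hN _ _ hP _ _ _⟩
  · simp only [L1_D, L1_E, if_neg hg, sub_self, A1_len_zero, L1_dot_zero_left, abs_zero]
    have := A1_len_nonneg (x - y)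
    refine ⟨by positivity, by positivity, by positivity⟩

/-! ### Measurability -/

theorem L1_meas_qidx (m j : ℕ) : Measurable (qidx m j) :=
  (Nat.measurable_floor.comp (measurable_const.mul measurable_fst)).prodMk
    (Nat.measurable_floor.comp (measurable_const.mul measurable_snd))

theorem L1_meas_u (N : ℝ) (q : ℕ × ℕ) : Measurable (L1_u N q) := by
  unfold L1_u; fun_prop

theorem L1_abs_fst_le (v : ℝ × ℝ) : |v.1| ≤ len v := by
  rw [len]; exact Real.abs_le_sqrt (by nlinarith [sq_nonneg v.2])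

theorem L1_abs_snd_le (v : ℝ × ℝ) : |v.2| ≤ len v := by
  rw [len]; exact Real.abs_le_sqrt (by nlinarith [sq_nonneg v.1])

theorem L1_tendsto_len (y : ℝ × ℝ) : Tendsto (fun y' => len (y' - y)) (𝓝 y) (𝓝 0) := by
  have h : Continuous (fun y' => len (y' - y)) :=
    A1_continuous_len.comp (continuous_id.sub continuous_const)
  have := h.tendsto y
  simpa [A1_len_zero] using this

theorem L1_cont_real (f : ℝ × ℝ → ℝ) (C₀ : ℝ)
    (hf : ∀ y y', |f y' - f y| ≤ C₀ * len (y' - y) + C₀ * len (y' - y) ^ 2) : Continuous f := by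
  rw [continuous_iff_continuousAt]
  intro y
  rw [ContinuousAt, tendsto_iff_norm_sub_tendsto_zero]
  have h1 : Tendsto (fun y' => C₀ * len (y' - y) + C₀ * len (y' - y) ^ 2) (𝓝 y)
      (𝓝 (C₀ * 0 + C₀ * 0 ^ 2)) :=
    ((L1_tendsto_len y).const_mul C₀).add (((L1_tendsto_len y).pow 2).const_mul C₀)
  have h2 : C₀ * 0 + C₀ * 0 ^ 2 = (0 : ℝ) := by ring
  rw [h2] at h1
  exact squeeze_zero (fun _ => norm_nonneg _) (fun y' => hf y y') h1

theorem L1_meas_ζ {m : ℕ} {B C₀ δ : ℝ} {ζ : UM B → Dig m → ℝ × ℝ → ℝ}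
    {dζ : UM B → Dig m → ℝ × ℝ → ℝ × ℝ} (h : KerL B m C₀ δ ζ dζ) (M : UM B) (d : Dig m) :
    Measurable (ζ M d) := by
  apply Continuous.measurable
  apply L1_cont_real _ C₀
  intro y y'
  have h1 := h.diff M d y y'
  have h2 : |dot (dζ M d y) (y' - y)| ≤ C₀ * len (y' - y) :=
    (L1_dot_le _ _).trans (mul_le_mul_of_nonneg_right (h.bdd M d y).2 (A1_len_nonneg _))
  have h3 : ζ M d y' - ζ M d y = dot (dζ M d y) (y' - y) +
      (ζ M d y' - ζ M d y - dot (dζ M d y) (y' - y)) := by ring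
  rw [h3]
  exact (abs_add_le _ _).trans (by linarith)

theorem L1_meas_dζ {m : ℕ} {B C₀ δ : ℝ} {ζ : UM B → Dig m → ℝ × ℝ → ℝ}
    {dζ : UM B → Dig m → ℝ × ℝ → ℝ × ℝ} (h : KerL B m C₀ δ ζ dζ) (M : UM B) (d : Dig m) :
    Measurable (dζ M d) := by
  have key : ∀ y y', len (dζ M d y' - dζ M d y) ≤ C₀ * len (y' - y) + C₀ * len (y' - y) ^ 2 := by
    intro y y'
    have := mul_nonneg h.pos.le (sq_nonneg (len (y' - y)))
    linarith [h.lip M d y' y]
  have h1 : Measurable (fun y => (dζ M d y).1) := by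
    apply Continuous.measurable
    apply L1_cont_real _ C₀
    intro y y'
    exact (L1_abs_fst_le (dζ M d y' - dζ M d y)).trans (key y y')
  have h2 : Measurable (fun y => (dζ M d y).2) := by
    apply Continuous.measurable
    apply L1_cont_real _ C₀
    intro y y'
    exact (L1_abs_snd_le (dζ M d y' - dζ M d y)).trans (key y y')
  exact h1.prodMk h2

theorem L1_meas_glue {α : Type*} [MeasurableSpace α] (m j : ℕ) (F : ℕ × ℕ → ℝ × ℝ → α)
    (hF : ∀ q, Measurable (F q)) : Measurable (fun x => F (qidx m j x) x) := by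
  have h1 : Measurable (fun p : (ℕ × ℕ) × (ℝ × ℝ) => F p.1 p.2) :=
    measurable_from_prod_countable_right (fun q => hF q)
  exact h1.comp ((L1_meas_qidx m j).prodMk measurable_id)

theorem L1_meas_D {m n : ℕ} {B C₀ δ : ℝ} {ζ : UM B → Dig m → ℝ × ℝ → ℝ}
    {dζ : UM B → Dig m → ℝ × ℝ → ℝ × ℝ} (h : KerL B m C₀ δ ζ dζ) (θ : ℝ)
    (cM : ℕ → ℝ × ℝ → UM B) (cs : ℕ → ℝ × ℝ → ℝ) (j : ℕ) (ω : Seqs m n) (q : ℕ × ℕ) :
    Measurable (L1_D θ ζ dζ cM cs j ω q) := by
  by_cases hg : Good θ ω j q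
  · have e : L1_D θ ζ dζ cM cs j ω q = fun x =>
        (cs j (Gr θ dζ cM cs j ω (corner m j q)) / Real.sqrt (n * Real.log n)) *
        ∑ d, xi (inCell ω j q) (ω j) d *
        ζ (cM j (Gr θ dζ cM cs j ω (corner m j q))) d (L1_u ((m : ℝ) ^ j) q x) := by
      funext x
      simp only [L1_D, if_pos hg]
    rw [e]
    refine Measurable.const_mul (Finset.measurable_sum _ (fun d _ => ?_)) _
    exact ((L1_meas_ζ h _ d).comp (L1_meas_u _ _)).const_mul _
  · have e : L1_D θ ζ dζ cM cs j ω q = fun x => 0 := by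
      funext x
      simp only [L1_D, if_neg hg]
    rw [e]
    exact measurable_const

theorem L1_meas_smul (c : ℝ) (f : ℝ × ℝ → ℝ × ℝ) (hf : Measurable f) :
    Measurable (fun x => c • f x) := (measurable_const_smul c).comp hf

theorem L1_meas_E {m n : ℕ} {B C₀ δ : ℝ} {ζ : UM B → Dig m → ℝ × ℝ → ℝ}
    {dζ : UM B → Dig m → ℝ × ℝ → ℝ × ℝ} (h : KerL B m C₀ δ ζ dζ) (θ : ℝ)
    (cM : ℕ → ℝ × ℝ → UM B) (cs : ℕ → ℝ × ℝ → ℝ) (j : ℕ) (ω : Seqs m n) (q : ℕ × ℕ) :
    Measurable (L1_E θ dζ cM cs j ω q) := by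
  by_cases hg : Good θ ω j q
  · have e : L1_E θ dζ cM cs j ω q = fun x =>
        (cs j (Gr θ dζ cM cs j ω (corner m j q)) * stp m n j) •
        ∑ d, xi (inCell ω j q) (ω j) d •
        dζ (cM j (Gr θ dζ cM cs j ω (corner m j q))) d (L1_u ((m : ℝ) ^ j) q x) := by
      funext x
      simp only [L1_E, if_pos hg]
    rw [e]
    have hs : Measurable (fun x : ℝ × ℝ => ∑ d, xi (inCell ω j q) (ω j) d •
        dζ (cM j (Gr θ dζ cM cs j ω (corner m j q))) d (L1_u ((m : ℝ) ^ j) q x)) := by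
      refine Finset.measurable_sum _ (fun d _ => ?_)
      exact L1_meas_smul _ _ ((L1_meas_dζ h _ d).comp (L1_meas_u _ _))
    exact L1_meas_smul _ _ hs
  · have e : L1_E θ dζ cM cs j ω q = fun x => 0 := by
      funext x
      simp only [L1_E, if_neg hg]
    rw [e]
    exact measurable_const

/-! ### Adaptedness -/

theorem L1_cidx_congr {m n : ℕ} (ω ω' : Seqs m n) (j : ℕ) (h : ∀ l, l < j → ω l = ω' l) :
    cidx ω j = cidx ω' j := by
  induction j with
  | zero => rfl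
  | succ j ih =>
    have h1 := ih (fun l hl => h l (by omega))
    have h2 := h j (Nat.lt_succ_self j)
    funext i
    simp only [cidx, h1, h2]

theorem L1_inCell_congr {m n : ℕ} (ω ω' : Seqs m n) (j : ℕ) (h : ∀ l, l < j → ω l = ω' l)
    (q : ℕ × ℕ) : inCell ω j q = inCell ω' j q := by
  simp only [inCell, L1_cidx_congr ω ω' j h]

theorem L1_adapted {m n : ℕ} {B : ℝ} (θ : ℝ) (ζ : UM B → Dig m → ℝ × ℝ → ℝ)
    (dζ : UM B → Dig m → ℝ × ℝ → ℝ × ℝ) (cM : ℕ → ℝ × ℝ → UM B) (cs : ℕ → ℝ × ℝ → ℝ)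
    (j : ℕ) (ω ω' : Seqs m n) (h : ∀ l, l < j → ω l = ω' l) :
    Gr θ dζ cM cs j ω = Gr θ dζ cM cs j ω' ∧ Ph θ ζ dζ cM cs j ω = Ph θ ζ dζ cM cs j ω' := by
  induction j with
  | zero => exact ⟨rfl, rfl⟩
  | succ j ih =>
    have h0 : ∀ l, l < j → ω l = ω' l := fun l hl => h l (by omega)
    obtain ⟨h1, h2⟩ := ih h0
    have h3 := h j (Nat.lt_succ_self j)
    have h4 := L1_inCell_congr ω ω' j h0
    have hG : ∀ q, Good θ ω j q = Good θ ω' j q := by
      intro q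
      simp only [Good, h4, h3]
    constructor
    · funext x
      rw [L1_Gr_succ, L1_Gr_succ, h1]
      congr 1
      by_cases hg : Good θ ω j (qidx m j x)
      · have hg' : Good θ ω' j (qidx m j x) := (hG _) ▸ hg
        simp only [L1_E, if_pos hg, if_pos hg', h1, h3, h4]
      · have hg' : ¬ Good θ ω' j (qidx m j x) := (hG _) ▸ hg
        simp only [L1_E, if_neg hg, if_neg hg']
    · funext x
      rw [L1_Ph_succ, L1_Ph_succ, h2]
      congr 1
      by_cases hg : Good θ ω j (qidx m j x)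
      · have hg' : Good θ ω' j (qidx m j x) := (hG _) ▸ hg
        simp only [L1_D, if_pos hg, if_pos hg', h1, h3, h4]
      · have hg' : ¬ Good θ ω' j (qidx m j x) := (hG _) ▸ hg
        simp only [L1_D, if_neg hg, if_neg hg']

/-! ### The corner -/

theorem L1_loc_corner {m j : ℕ} (hm : 2 ≤ m) (x : ℝ × ℝ) :
    loc m j x = ((m : ℝ) ^ j) • (x - corner m j (qidx m j x)) := by
  have hN : (0 : ℝ) < (m : ℝ) ^ j := by
    have : (0 : ℝ) < m := by exact_mod_cast (by omega : 0 < m)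
    positivity
  ext
  · simp only [loc, corner, emb, qidx, Prod.smul_fst, Prod.fst_sub, smul_eq_mul]
    field_simp
    ring
  · simp only [loc, corner, emb, qidx, Prod.smul_snd, Prod.snd_sub, smul_eq_mul]
    field_simp
    ring

theorem L1_len_le (v : ℝ × ℝ) : len v ≤ |v.1| + |v.2| := by
  have e : v = (v.1, (0 : ℝ)) + ((0 : ℝ), v.2) := by ext <;> simp
  calc len v = len ((v.1, (0 : ℝ)) + ((0 : ℝ), v.2)) := by rw [← e]
    _ ≤ len (v.1, (0 : ℝ)) + len ((0 : ℝ), v.2) := A1_len_add_le _ _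
    _ = |v.1| + |v.2| := by simp [len, Real.sqrt_sq_eq_abs]

theorem L1_corner_dist {m j : ℕ} (hm : 2 ≤ m) (x : ℝ × ℝ) (hx : x ∈ Sq) :
    (m : ℝ) ^ j * len (x - corner m j (qidx m j x)) ≤ 2 := by
  have hN : (0 : ℝ) ≤ (m : ℝ) ^ j := by positivity
  have h1 : (m : ℝ) ^ j * len (x - corner m j (qidx m j x)) = len (loc m j x) := by
    rw [L1_loc_corner hm, L1_len_smul, abs_of_nonneg hN]
  rw [h1]
  refine (L1_len_le _).trans ?_
  simp only [Sq, mem_prod, mem_Icc] at hx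
  obtain ⟨⟨a1, a2⟩, a3, a4⟩ := hx
  have b1 : 0 ≤ (m : ℝ) ^ j * x.1 := mul_nonneg hN a1
  have b2 : 0 ≤ (m : ℝ) ^ j * x.2 := mul_nonneg hN a3
  have c1 := Nat.floor_le b1
  have c2 := Nat.lt_floor_add_one ((m : ℝ) ^ j * x.1)
  have c3 := Nat.floor_le b2
  have c4 := Nat.lt_floor_add_one ((m : ℝ) ^ j * x.2)
  simp only [loc]
  rw [abs_of_nonneg (by linarith), abs_of_nonneg (by linarith)]
  linarith

/-- L1: deterministic bounds on the potentials. -/
theorem L1 : StmtL1 := by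
  intro B m C₀ δ Cs ζ dζ hm hCs h
  have hC₀ := h.pos
  refine ⟨5 * (Cs * C₀), by positivity, ?_⟩
  intro n θ R₀ _hn hθ hR₀ cM cs hcs hcut
  have hm2 : (2 : ℝ) ≤ m := by exact_mod_cast hm
  have hm0 : (0 : ℝ) < m := by linarith
  set P : ℝ := Cs * θ * C₀ with hP
  have hP0 : 0 < P := by positivity
  have hinc := fun (ω : Seqs m n) j q x y => L1_incr h θ hθ.le hCs.le cM cs hcs j ω q x y
  have hglue : ∀ (ω : Seqs m n) j x y,
      |L1_D θ ζ dζ cM cs j ω (qidx m j x) x - L1_D θ ζ dζ cM cs j ω (qidx m j y) y -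
        dot (L1_E θ dζ cM cs j ω (qidx m j y) y) (x - y)| ≤
        2 * (P * (m : ℝ) ^ j) * len (x - y) ^ 2 ∧
      len (L1_E θ dζ cM cs j ω (qidx m j x) x - L1_E θ dζ cM cs j ω (qidx m j y) y) ≤
        2 * (P * (m : ℝ) ^ j) * len (x - y) := by
    intro ω j x y
    exact L1_glue (L1_D θ ζ dζ cM cs j ω) (L1_E θ dζ cM cs j ω) (qidx m j) (P * (m : ℝ) ^ j)
      (fun q x hq => L1_supp h θ cM cs j ω q x hq)
      (fun q x y => (hinc ω j q x y).2.2) (fun q x y => (hinc ω j q x y).2.1)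
      (by positivity) x y
  have hconst : ∀ j : ℕ, 4 * P * (m : ℝ) ^ j / m + 2 * (P * (m : ℝ) ^ j) ≤
      4 * P * (m : ℝ) ^ (j + 1) / m := by
    intro j
    have e1 : 4 * P * (m : ℝ) ^ (j + 1) / m = 4 * P * (m : ℝ) ^ j := by
      rw [pow_succ]; field_simp
    rw [e1]
    have e2 : 4 * P * (m : ℝ) ^ j / m ≤ 2 * (P * (m : ℝ) ^ j) := by
      rw [div_le_iff₀ hm0]
      have : 0 ≤ P * (m : ℝ) ^ j := by positivity
      nlinarith
    linarith
  have hlip : ∀ (ω : Seqs m n) j x y,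
      len (Gr θ dζ cM cs j ω x - Gr θ dζ cM cs j ω y) ≤ 4 * P * (m : ℝ) ^ j / m * len (x - y) := by
    intro ω j x y
    induction j with
    | zero =>
      have e : Gr θ dζ cM cs 0 ω x - Gr θ dζ cM cs 0 ω y = 0 := by
        simp [Gr]
      rw [e, A1_len_zero]
      exact mul_nonneg (by positivity) (A1_len_nonneg _)
    | succ j ih =>
      rw [L1_Gr_succ, L1_Gr_succ]
      have e : Gr θ dζ cM cs j ω x + L1_E θ dζ cM cs j ω (qidx m j x) x -
          (Gr θ dζ cM cs j ω y + L1_E θ dζ cM cs j ω (qidx m j y) y) =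
          (Gr θ dζ cM cs j ω x - Gr θ dζ cM cs j ω y) +
          (L1_E θ dζ cM cs j ω (qidx m j x) x - L1_E θ dζ cM cs j ω (qidx m j y) y) := by abel
      rw [e]
      refine (A1_len_add_le _ _).trans ?_
      have h2 := (hglue ω j x y).2
      have h3 := mul_le_mul_of_nonneg_right (hconst j) (A1_len_nonneg (x - y))
      linarith
  have hdiff : ∀ (ω : Seqs m n) j x y,
      |Ph θ ζ dζ cM cs j ω x - Ph θ ζ dζ cM cs j ω y - dot (Gr θ dζ cM cs j ω y) (x - y)| ≤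
        4 * P * (m : ℝ) ^ j / m * len (x - y) ^ 2 := by
    intro ω j x y
    induction j with
    | zero =>
      have e : Ph θ ζ dζ cM cs 0 ω x - Ph θ ζ dζ cM cs 0 ω y -
          dot (Gr θ dζ cM cs 0 ω y) (x - y) = 0 := by
        simp [Ph, Gr, L1_dot_zero_left]
      rw [e, abs_zero]
      positivity
    | succ j ih =>
      rw [L1_Ph_succ, L1_Ph_succ, L1_Gr_succ, L1_dot_add_left]
      have e : Ph θ ζ dζ cM cs j ω x + L1_D θ ζ dζ cM cs j ω (qidx m j x) x -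
          (Ph θ ζ dζ cM cs j ω y + L1_D θ ζ dζ cM cs j ω (qidx m j y) y) -
          (dot (Gr θ dζ cM cs j ω y) (x - y) +
            dot (L1_E θ dζ cM cs j ω (qidx m j y) y) (x - y)) =
          (Ph θ ζ dζ cM cs j ω x - Ph θ ζ dζ cM cs j ω y - dot (Gr θ dζ cM cs j ω y) (x - y)) +
          (L1_D θ ζ dζ cM cs j ω (qidx m j x) x - L1_D θ ζ dζ cM cs j ω (qidx m j y) y -
            dot (L1_E θ dζ cM cs j ω (qidx m j y) y) (x - y)) := by ring
      rw [e]
      refine (abs_add_le _ _).trans ?_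
      have h2 := (hglue ω j x y).1
      have h3 := mul_le_mul_of_nonneg_right (hconst j) (sq_nonneg (len (x - y)))
      linarith
  have hbd : ∀ (ω : Seqs m n) j x, x ∈ Sq → len (Gr θ dζ cM cs j ω x) ≤ R₀ + 5 * P := by
    intro ω j x hx
    induction j with
    | zero =>
      have e : Gr θ dζ cM cs 0 ω x = 0 := by simp [Gr]
      rw [e, A1_len_zero]
      positivity
    | succ j ih =>
      rw [L1_Gr_succ]
      by_cases hc : cs j (Gr θ dζ cM cs j ω (corner m j (qidx m j x))) = 0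
      · have e : L1_E θ dζ cM cs j ω (qidx m j x) x = 0 := by
          simp only [L1_E, hc, zero_mul, zero_smul, ite_self]
        rw [e, add_zero]
        exact ih
      · have h1 : len (Gr θ dζ cM cs j ω (corner m j (qidx m j x))) ≤ R₀ := by
          by_contra hlt
          exact hc (hcut _ _ (not_le.mp hlt))
        have h2 := hlip ω j x (corner m j (qidx m j x))
        have h3 := L1_corner_dist (j := j) hm x hx
        have h4 : 4 * P * (m : ℝ) ^ j / m * len (x - corner m j (qidx m j x)) ≤ 4 * P := by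
          have e : 4 * P * (m : ℝ) ^ j / m * len (x - corner m j (qidx m j x)) =
              4 * P * ((m : ℝ) ^ j * len (x - corner m j (qidx m j x))) / m := by ring
          rw [e, div_le_iff₀ hm0]
          nlinarith
        have h5 : len (Gr θ dζ cM cs j ω x) ≤ R₀ + 4 * P := by
          have e : Gr θ dζ cM cs j ω x = Gr θ dζ cM cs j ω (corner m j (qidx m j x)) +
            (Gr θ dζ cM cs j ω x - Gr θ dζ cM cs j ω (corner m j (qidx m j x))) := by abel
          rw [e]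
          exact (A1_len_add_le _ _).trans (by linarith)
        have h6 := (hinc ω j (qidx m j x) x x).1
        exact (A1_len_add_le _ _).trans (by linarith)
  intro j ω
  have hC : 5 * (Cs * C₀) * θ = 5 * P := by rw [hP]; ring
  have hmono : 4 * P * (m : ℝ) ^ j / m ≤ 5 * (Cs * C₀) * θ * (m : ℝ) ^ j / m := by
    rw [hC]
    gcongr
    norm_num
  rw [hC] at hmono
  rw [hC]
  refine ⟨?_, ?_, fun x hx => hbd ω j x hx, ?_, ?_, ?_, ?_, fun ω' hω => ?_⟩
  · clear hmono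
    induction j with
    | zero => exact measurable_const
    | succ j ih =>
      exact Measurable.add ih (L1_meas_glue m j _ (fun q => L1_meas_D h θ cM cs j ω q))
  · clear hmono
    induction j with
    | zero => exact measurable_const
    | succ j ih =>
      exact Measurable.add ih (L1_meas_glue m j _ (fun q => L1_meas_E h θ cM cs j ω q))
  · intro x _
    rw [L1_Gr_succ, add_sub_cancel_left]
    have h6 := (hinc ω j (qidx m j x) x x).1
    linarith
  · intro x _ y _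
    exact (hlip ω j x y).trans (mul_le_mul_of_nonneg_right hmono (A1_len_nonneg _))
  · intro x _ y _
    exact (hdiff ω j x y).trans (mul_le_mul_of_nonneg_right hmono (sq_nonneg _))
  · intro x hx y hy
    exact L1_lip (Ph θ ζ dζ cM cs j ω) (Gr θ dζ cM cs j ω) (4 * P * (m : ℝ) ^ j / m) (R₀ + 5 * P)
      (fun z hz => hbd ω j z hz) (fun x _ y _ => hdiff ω j x y) x hx y hy
  · exact L1_adapted θ ζ dζ cM cs j ω ω' hω

end Match2D
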