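import Pool.Agent.Work.MP_884187_pr.Defs

/-!
MP_884187_pr, G1: existence of the profile (Picard-Lindeloef and barriers).
-/

open Set Filter Topology NNReal

namespace Match2D

namespace G1

/-- The clamp to `[1/p, (1+r)^2]`. -/
noncomputable def cl (p r q : ℝ) : ℝ := max (min q ((1 + r) ^ 2)) (1 / p)

noncomputable def hh (p q : ℝ) : ℝ := Real.sqrt q * (1 - (p - 1) * q)

noncomputable def ff (p r y : ℝ) : ℝ := 1 + r * hh p (cl p r (y / r))

variable {p : ℝ} (hp : 1 ≤ p)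

include hp

theorem inv_le_one' : 1 / p ≤ 1 := by
  rw [div_le_one (by linarith)]; exact hp

theorem inv_pos' : 0 < 1 / p := by
  have : 0 < p := by linarith
  positivity

omit hp in
theorem le_cl (r q : ℝ) : 1 / p ≤ cl p r q := le_max_right _ _

theorem cl_le {r R : ℝ} (hr : 0 ≤ r) (hR : r ≤ R) (q : ℝ) : cl p r q ≤ (1 + R) ^ 2 := by
  have h1 : (1 + r) ^ 2 ≤ (1 + R) ^ 2 := by
    apply pow_le_pow_left₀ <;> linarith
  refine max_le ((min_le_right _ _).trans h1) ((inv_le_one' hp).trans ?_)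
  nlinarith

omit hp in
theorem cl_lip (r a b : ℝ) : |cl p r a - cl p r b| ≤ |a - b| := by
  unfold cl
  refine (abs_max_sub_max_le_abs _ _ _).trans ?_
  refine (abs_min_sub_min_le_max _ _ _ _).trans ?_
  simp

theorem hh_lip {R a b : ℝ} (hR : 0 ≤ R) (ha : 1 / p ≤ a) (hb : 1 / p ≤ b) (ha' : a ≤ (1 + R) ^ 2)
    (hb' : b ≤ (1 + R) ^ 2) :
    |hh p a - hh p b| ≤ p * (1 + 3 * (p - 1) * (1 + R) ^ 2) * |a - b| := by
  have hp0 : 0 < p := by linarith
  have hi := inv_pos' hp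
  have hi1 := inv_le_one' hp
  obtain ⟨u, hu, hua⟩ : ∃ u, 1 / p ≤ u ∧ u ^ 2 = a := by
    refine ⟨Real.sqrt a, Real.le_sqrt_of_sq_le ?_, Real.sq_sqrt (hi.le.trans ha)⟩
    nlinarith
  obtain ⟨v, hv, hvb⟩ : ∃ v, 1 / p ≤ v ∧ v ^ 2 = b := by
    refine ⟨Real.sqrt b, Real.le_sqrt_of_sq_le ?_, Real.sq_sqrt (hi.le.trans hb)⟩
    nlinarith
  have hu0 : 0 ≤ u := hi.le.trans hu
  have hv0 : 0 ≤ v := hi.le.trans hv
  subst hua hvb
  have h1 : hh p (u ^ 2) - hh p (v ^ 2) =
      (1 - (p - 1) * (u ^ 2 + u * v + v ^ 2)) * (u - v) := by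
    unfold hh
    rw [Real.sqrt_sq hu0, Real.sqrt_sq hv0]
    ring
  have h2 : |u - v| ≤ p * |u ^ 2 - v ^ 2| := by
    have h3 : |u ^ 2 - v ^ 2| = |u - v| * (u + v) := by
      rw [show u ^ 2 - v ^ 2 = (u - v) * (u + v) by ring, abs_mul,
        abs_of_nonneg (a := u + v) (by positivity)]
    rw [h3]
    have h4 : 1 / p * |u - v| ≤ (u + v) * |u - v| :=
      mul_le_mul_of_nonneg_right (by linarith) (abs_nonneg _)
    calc |u - v| = p * (1 / p * |u - v|) := by field_simp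
      _ ≤ p * ((u + v) * |u - v|) := mul_le_mul_of_nonneg_left h4 hp0.le
      _ = _ := by ring
  have h5 : |1 - (p - 1) * (u ^ 2 + u * v + v ^ 2)| ≤ 1 + 3 * (p - 1) * (1 + R) ^ 2 := by
    have h6 : u * v ≤ (1 + R) ^ 2 := by nlinarith [sq_nonneg (u - v)]
    have h7 : 0 ≤ p - 1 := by linarith
    have h8 : 0 ≤ u * v := by positivity
    rw [abs_le]
    constructor
    · nlinarith [mul_nonneg h7 (sub_nonneg.2 h6), mul_nonneg h7 (sub_nonneg.2 ha'),
        mul_nonneg h7 (sub_nonneg.2 hb')]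
    · have h9 : 0 ≤ (p - 1) * (u ^ 2 + u * v + v ^ 2) := by positivity
      have h10 : 0 ≤ 3 * (p - 1) * (1 + R) ^ 2 := by positivity
      linarith
  rw [h1, abs_mul]
  calc |1 - (p - 1) * (u ^ 2 + u * v + v ^ 2)| * |u - v|
      ≤ (1 + 3 * (p - 1) * (1 + R) ^ 2) * (p * |u ^ 2 - v ^ 2|) :=
        mul_le_mul h5 h2 (abs_nonneg _) (le_trans (abs_nonneg _) h5)
    _ = _ := by ring

theorem hh_le {R a : ℝ} (hR : 0 ≤ R) (ha : 1 / p ≤ a) (ha' : a ≤ (1 + R) ^ 2) :
    |hh p a| ≤ (1 + R) * (1 + (p - 1) * (1 + R) ^ 2) := by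
  have hi := inv_pos' hp
  have h1 : Real.sqrt a ≤ 1 + R := by
    rw [Real.sqrt_le_left (by linarith)]
    exact ha'
  have h2 : 0 ≤ p - 1 := by linarith
  have h3 : |1 - (p - 1) * a| ≤ 1 + (p - 1) * (1 + R) ^ 2 := by
    have h4 : 0 ≤ (p - 1) * a := mul_nonneg h2 (hi.le.trans ha)
    have h5 : (p - 1) * a ≤ (p - 1) * (1 + R) ^ 2 := mul_le_mul_of_nonneg_left ha' h2
    rw [abs_le]
    constructor <;> linarith
  unfold hh
  rw [abs_mul, abs_of_nonneg (Real.sqrt_nonneg a)]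
  exact mul_le_mul h1 h3 (abs_nonneg _) (by linarith)

theorem ff_lip {r R : ℝ} (hr : 0 ≤ r) (hR : r ≤ R) (a b : ℝ) :
    |ff p r a - ff p r b| ≤ p * (1 + 3 * (p - 1) * (1 + R) ^ 2) * |a - b| := by
  have h1 := hh_lip hp (hr.trans hR) (le_cl r (a / r)) (le_cl (p := p) r (b / r))
    (cl_le hp hr hR _) (cl_le hp hr hR _)
  have hK : 0 ≤ p * (1 + 3 * (p - 1) * (1 + R) ^ 2) := by
    have : 0 ≤ p - 1 := by linarith
    positivity
  have h2 : |ff p r a - ff p r b| = r * |hh p (cl p r (a / r)) - hh p (cl p r (b / r))| := by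
    unfold ff
    rw [show 1 + r * hh p (cl p r (a / r)) - (1 + r * hh p (cl p r (b / r))) =
      r * (hh p (cl p r (a / r)) - hh p (cl p r (b / r))) by ring, abs_mul, abs_of_nonneg hr]
  rw [h2]
  have h3 : r * |a / r - b / r| ≤ |a - b| := by
    rcases hr.eq_or_lt with h | h
    · rw [← h]; simp
    · rw [← _root_.sub_div, abs_div, abs_of_pos h, mul_div_cancel₀ _ h.ne']
  calc r * |hh p (cl p r (a / r)) - hh p (cl p r (b / r))|
      ≤ r * (p * (1 + 3 * (p - 1) * (1 + R) ^ 2) * |a / r - b / r|) := by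
        refine mul_le_mul_of_nonneg_left (h1.trans ?_) hr
        exact mul_le_mul_of_nonneg_left (cl_lip _ _ _) hK
    _ = p * (1 + 3 * (p - 1) * (1 + R) ^ 2) * (r * |a / r - b / r|) := by ring
    _ ≤ _ := mul_le_mul_of_nonneg_left h3 hK

theorem hhcl_le {r R : ℝ} (hr : 0 ≤ r) (hR : r ≤ R) (q : ℝ) :
    |hh p (cl p r q)| ≤ (1 + R) * (1 + (p - 1) * (1 + R) ^ 2) :=
  hh_le hp (hr.trans hR) (le_cl r q) (cl_le hp hr hR q)

theorem ff_cont (y R : ℝ) : ContinuousOn (fun r => ff p r y) (Icc 0 R) := by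
  intro r hr
  rcases hr.1.eq_or_lt with h | h
  · subst h
    have h1 : Tendsto (fun r => r * hh p (cl p r (y / r))) (𝓝[Icc 0 R] 0) (𝓝 0) := by
      refine squeeze_zero_norm' (a := fun r => |r| * ((1 + R) * (1 + (p - 1) * (1 + R) ^ 2)))
        ?_ ?_
      · filter_upwards [self_mem_nhdsWithin] with r hr
        rw [norm_mul, Real.norm_eq_abs, Real.norm_eq_abs]
        exact mul_le_mul_of_nonneg_left (hhcl_le hp hr.1 hr.2 _) (abs_nonneg _)
      · have h2 : Continuous fun r : ℝ => |r| * ((1 + R) * (1 + (p - 1) * (1 + R) ^ 2)) := by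
          fun_prop
        have h3 := h2.tendsto 0
        simp only [abs_zero, zero_mul] at h3
        exact h3.mono_left nhdsWithin_le_nhds
    have h4 := h1.const_add 1
    unfold ContinuousWithinAt ff
    simpa using h4
  · refine ContinuousAt.continuousWithinAt ?_
    unfold ff hh cl
    have h1 : ContinuousAt (fun r : ℝ => y / r) r := continuousAt_const.div continuousAt_id h.ne'
    fun_prop

theorem exists_sol (N : ℕ) : ∃ α : ℝ → ℝ, α 0 = 0 ∧ ∀ t ∈ Icc (0 : ℝ) N,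
    HasDerivWithinAt α (ff p t (α t)) (Icc 0 (N : ℝ)) t := by
  have hN : (0 : ℝ) ≤ N := Nat.cast_nonneg N
  have hp1 : 0 ≤ p - 1 := by linarith
  have hp0 : 0 ≤ p := by linarith
  have hM : 0 ≤ (1 + (N : ℝ)) * (1 + (p - 1) * (1 + (N : ℝ)) ^ 2) := by positivity
  have hK : 0 ≤ p * (1 + 3 * (p - 1) * (1 + (N : ℝ)) ^ 2) := by positivity
  have hL : 0 ≤ 1 + (N : ℝ) * ((1 + (N : ℝ)) * (1 + (p - 1) * (1 + (N : ℝ)) ^ 2)) := by
    positivity
  have hPL : IsPicardLindelof (ff p) (tmin := 0) (tmax := (N : ℝ)) ⟨0, ⟨le_rfl, hN⟩⟩ (0 : ℝ)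
      (⟨_, mul_nonneg hL hN⟩ : ℝ≥0) 0 (⟨_, hL⟩ : ℝ≥0) (⟨_, hK⟩ : ℝ≥0) := by
    refine ⟨?_, ?_, ?_, ?_⟩
    · intro t ht
      refine LipschitzOnWith.of_dist_le_mul ?_
      intro x _ y _
      rw [Real.dist_eq, Real.dist_eq]
      exact ff_lip hp ht.1 ht.2 x y
    · intro x _
      exact ff_cont hp x N
    · intro t ht x _
      rw [Real.norm_eq_abs]
      unfold ff
      refine (abs_add_le _ _).trans ?_
      rw [abs_one, abs_mul, abs_of_nonneg ht.1]
      have := mul_le_mul ht.2 (hhcl_le hp ht.1 ht.2 (x / t)) (abs_nonneg _) hN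
      exact add_le_add_right this 1
    · simp only [sub_zero, sub_self, NNReal.coe_zero]
      rw [max_eq_left hN]
      exact le_refl _
  obtain ⟨α, h1, h2⟩ := hPL.exists_eq_forall_mem_Icc_hasDerivWithinAt₀
  exact ⟨α, h1, h2⟩

theorem sol_unique {α β : ℝ → ℝ} {R S : ℝ} (hRS : R ≤ S) (hα0 : α 0 = 0) (hβ0 : β 0 = 0)
    (hα : ∀ t ∈ Icc (0 : ℝ) R, HasDerivWithinAt α (ff p t (α t)) (Icc 0 R) t)
    (hβ : ∀ t ∈ Icc (0 : ℝ) S, HasDerivWithinAt β (ff p t (β t)) (Icc 0 S) t) :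
    EqOn α β (Icc 0 R) := by
  rcases lt_or_ge R 0 with hR | hR
  · rw [Icc_eq_empty (not_le.2 hR)]; exact eqOn_empty _ _
  have hp1 : 0 ≤ p - 1 := by linarith
  have hp0 : 0 ≤ p := by linarith
  have hK : 0 ≤ p * (1 + 3 * (p - 1) * (1 + R) ^ 2) := by positivity
  refine ODE_solution_unique_of_mem_Icc_right (v := ff p) (s := fun _ => univ)
    (K := (⟨_, hK⟩ : ℝ≥0)) ?_ ?_ ?_ (fun _ _ => mem_univ _) ?_ ?_ (fun _ _ => mem_univ _)
    (hα0.trans hβ0.symm)
  · intro t ht
    refine LipschitzOnWith.of_dist_le_mul ?_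
    intro x _ y _
    rw [Real.dist_eq, Real.dist_eq]
    exact ff_lip hp ht.1 ht.2.le x y
  · exact fun t ht => (hα t ht).continuousWithinAt
  · intro t ht
    exact (hα t ⟨ht.1, ht.2.le⟩).mono_of_mem_nhdsWithin (Icc_mem_nhdsGE_of_mem ht)
  · exact fun t ht => ((hβ t ⟨ht.1, ht.2.trans hRS⟩).mono
      (Icc_subset_Icc_right hRS)).continuousWithinAt
  · intro t ht
    exact (hβ t ⟨ht.1, ht.2.le.trans hRS⟩).mono_of_mem_nhdsWithin
      (Icc_mem_nhdsGE_of_mem ⟨ht.1, ht.2.trans_le hRS⟩)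

/-- The global solution. -/
theorem exists_global : ∃ y : ℝ → ℝ, ∀ N : ℕ, 0 < N → y 0 = 0 ∧ ∀ t ∈ Icc (0 : ℝ) N,
    HasDerivWithinAt y (ff p t (y t)) (Icc 0 (N : ℝ)) t := by
  choose α h0 hα using exists_sol hp
  have key : ∀ N M : ℕ, ∀ t : ℝ, 0 ≤ t → t ≤ N → t ≤ M → α N t = α M t := by
    intro N M t h1 h2 h3
    rcases le_total N M with h | h
    · exact sol_unique hp (Nat.cast_le.2 h) (h0 N) (h0 M) (hα N) (hα M) ⟨h1, h2⟩
    · exact (sol_unique hp (Nat.cast_le.2 h) (h0 M) (h0 N) (hα M) (hα N) ⟨h1, h3⟩).symm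
  refine ⟨fun r => α (⌈r⌉₊ + 1) r, fun N hN => ⟨h0 _, fun t ht => ?_⟩⟩
  have e : ∀ r ∈ Icc (0 : ℝ) N, α (⌈r⌉₊ + 1) r = α N r := by
    intro r hr
    refine key _ _ _ hr.1 ?_ hr.2
    have := Nat.le_ceil r
    push_cast
    linarith
  have h := (hα N t ht).congr (fun r hr => e r hr) (e t ht)
  rw [← e t ht] at h
  exact h

end G1

open G1 in
theorem exists_profile (p : ℝ) (hp : 1 ≤ p) : ∃ x : ℝ → ℝ, IsProfile p x := by
  have hp0 : 0 < p := by linarith
  have hi := inv_pos' hp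
  have hi1 := inv_le_one' hp
  obtain ⟨y, hy⟩ := exists_global hp
  have hy0 : y 0 = 0 := (hy 1 one_pos).1
  -- two-sided derivative
  have hder : ∀ r, 0 < r → HasDerivAt y (ff p r (y r)) r := by
    intro r hr
    have h1 : r ∈ Ioo (0 : ℝ) ((⌈r⌉₊ + 1 : ℕ) : ℝ) := by
      refine ⟨hr, ?_⟩
      have := Nat.le_ceil r
      push_cast
      linarith
    exact ((hy (⌈r⌉₊ + 1) (by omega)).2 r ⟨h1.1.le, h1.2.le⟩).hasDerivAt (Icc_mem_nhds h1.1 h1.2)
  set q : ℝ → ℝ := fun r => y r / r with hq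
  have hqder : ∀ r, 0 < r → HasDerivAt q (hh p (cl p r (q r)) + (1 - q r) / r) r := by
    intro r hr
    have h1 := (hder r hr).div (hasDerivAt_id r) hr.ne'
    refine h1.congr_deriv ?_
    simp only [hq, ff, id]
    field_simp
    ring
  have hqlim : Tendsto q (𝓝[>] 0) (𝓝 1) := by
    have h1 := (hy 1 one_pos).2 0 ⟨le_rfl, by simp⟩
    rw [hasDerivWithinAt_iff_tendsto_slope] at h1
    have h2 : ff p 0 (y 0) = 1 := by simp [ff]
    rw [h2] at h1
    have h3 : 𝓝[>] (0 : ℝ) ≤ 𝓝[Icc 0 ((1 : ℕ) : ℝ) \ {0}] 0 := by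
      refine nhdsWithin_le_of_mem ?_
      filter_upwards [Ioo_mem_nhdsGT (show (0 : ℝ) < 1 from one_pos)] with r hr
      refine ⟨⟨hr.1.le, by simpa using hr.2.le⟩, ?_⟩
      simp [hr.1.ne']
    refine (h1.mono_left h3).congr (fun r => ?_)
    simp only [slope, hq, hy0, vsub_eq_sub, sub_zero, smul_eq_mul]
    rw [div_eq_inv_mul]
  -- barriers
  have hup : ∀ r, 0 < r → q r ≤ (1 + r) ^ 2 := by
    intro r hr
    refine le_of_forall_pos_le_add (fun ε hε => ?_)
    obtain ⟨r0, h1, h2⟩ : ∃ r0, q r0 < 1 + ε ∧ r0 ∈ Ioo 0 r := by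
      have h3 := hqlim.eventually (gt_mem_nhds (show (1 : ℝ) < 1 + ε by linarith))
      have h4 := h3.and (Ioo_mem_nhdsGT hr)
      exact h4.exists
    refine image_le_of_deriv_right_lt_deriv_boundary' (f := q)
      (f' := fun r => hh p (cl p r (q r)) + (1 - q r) / r) (a := r0) (b := r)
      (B := fun r => (1 + r) ^ 2 + ε) (B' := fun r => 2 * (1 + r))
      ?_ ?_ ?_ (by fun_prop) ?_ ?_ ⟨h2.2.le, le_rfl⟩
    · exact fun t ht => (hqder t (h2.1.trans_le ht.1)).continuousAt.continuousWithinAt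
    · exact fun t ht => (hqder t (h2.1.trans_le ht.1)).hasDerivWithinAt
    · have := h2.1
      nlinarith
    · intro t _
      have h5 : HasDerivAt (fun r : ℝ => (1 + r) ^ 2 + ε) (2 * (1 + t)) t := by
        have h6 := (((hasDerivAt_id t).const_add 1).pow 2).add_const ε
        refine h6.congr_deriv ?_
        simp
      exact h5.hasDerivWithinAt
    · intro t ht hte
      have ht0 : 0 < t := h2.1.trans_le ht.1
      have h6 : cl p t (q t) = (1 + t) ^ 2 := by
        unfold cl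
        rw [hte, min_eq_right (by linarith), max_eq_left (hi1.trans (by nlinarith))]
      have h7 : hh p ((1 + t) ^ 2) ≤ 1 + t := by
        unfold hh
        rw [Real.sqrt_sq (by linarith)]
        have h8 : 0 ≤ (p - 1) * (1 + t) ^ 2 := mul_nonneg (by linarith) (by positivity)
        nlinarith
      have h9 : (1 - q t) / t < - 2 := by
        rw [div_lt_iff₀ ht0, hte]
        nlinarith
      change hh p (cl p t (q t)) + (1 - q t) / t < 2 * (1 + t)
      rw [h6]
      linarith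
  have hlow : ∀ r, 0 < r → 1 / p ≤ q r := by
    intro r hr
    have key : ∀ ε > 0, - q r ≤ - (1 / p) + ε := by
      intro ε hε
      obtain ⟨r0, h1, h2⟩ : ∃ r0, 1 / p - ε < q r0 ∧ r0 ∈ Ioo 0 r := by
        have h3 := hqlim.eventually (lt_mem_nhds (show 1 / p - ε < 1 by linarith))
        have h4 := h3.and (Ioo_mem_nhdsGT hr)
        exact h4.exists
      refine image_le_of_deriv_right_lt_deriv_boundary' (f := fun r => - q r)
        (f' := fun r => - (hh p (cl p r (q r)) + (1 - q r) / r)) (a := r0) (b := r)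
        (B := fun _ => - (1 / p) + ε) (B' := fun _ => 0)
        ?_ ?_ ?_ (by fun_prop) ?_ ?_ ⟨h2.2.le, le_rfl⟩
      · exact fun t ht => (hqder t (h2.1.trans_le ht.1)).neg.continuousAt.continuousWithinAt
      · exact fun t ht => (hqder t (h2.1.trans_le ht.1)).neg.hasDerivWithinAt
      · linarith
      · intro t _
        exact (hasDerivAt_const t _).hasDerivWithinAt
      · intro t ht hte
        have ht0 : 0 < t := h2.1.trans_le ht.1
        have hqt : q t = 1 / p - ε := by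
          have : - q t = - (1 / p) + ε := hte
          linarith
        have h6 : cl p t (q t) = 1 / p := by
          unfold cl
          rw [hqt]
          exact max_eq_right ((min_le_left _ _).trans (by linarith))
        have h7 : 0 < hh p (1 / p) := by
          unfold hh
          have h8 : 1 - (p - 1) * (1 / p) = 1 / p := by field_simp; ring
          rw [h8]
          have := Real.sqrt_pos.2 hi
          positivity
        have h9 : 0 ≤ (1 - q t) / t := by
          refine div_nonneg ?_ ht0.le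
          rw [hqt]; linarith
        change - (hh p (cl p t (q t)) + (1 - q t) / t) < 0
        rw [h6]
        linarith
    refine le_of_forall_pos_le_add (fun ε hε => ?_)
    have := key ε hε
    linarith
  have hqpos : ∀ r, 0 < r → 0 < q r := fun r hr => hi.trans_le (hlow r hr)
  have hode : ∀ r, 0 < r → HasDerivAt q (hh p (q r) + (1 - q r) / r) r := by
    intro r hr
    have h1 : cl p r (q r) = q r := by
      unfold cl
      rw [min_eq_left (hup r hr), max_eq_left (hlow r hr)]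
    have h2 := hqder r hr
    rwa [h1] at h2
  refine ⟨fun r => 1 / Real.sqrt (q r), ⟨?_, ?_, ?_⟩⟩
  · intro r hr
    have := Real.sqrt_pos.2 (hqpos r hr)
    positivity
  · intro r hr
    have hs := Real.sqrt_pos.2 (hqpos r hr)
    have h1 := (hode r hr).sqrt (hqpos r hr).ne'
    have h2 := h1.inv hs.ne'
    have h3 : (fun r => 1 / Real.sqrt (q r)) = fun r => (Real.sqrt (q r))⁻¹ := by
      funext r; rw [one_div]
    rw [h3]
    refine h2.congr_deriv ?_
    have h4 : Real.sqrt (q r) ^ 2 = q r := Real.sq_sqrt (hqpos r hr).le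
    unfold hh
    set s := Real.sqrt (q r) with hsdef
    rw [← h4]
    field_simp
    ring
  · have h1 := (Real.continuous_sqrt.tendsto 1).comp hqlim
    rw [Real.sqrt_one] at h1
    have h2 := h1.inv₀ one_ne_zero
    simp only [inv_one] at h2
    refine h2.congr (fun r => ?_)
    simp [Function.comp]

end Match2D
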