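import Pool.Agent.Work.MP_884187_pr.Stmts
import Pool.Agent.Work.MP_884187_pr.G1
import Pool.Agent.Work.MP_884187_pr.Bd.B03

/-!
Module G of MP_884187_pr: existence of the profile, the value function and its Legendre dual.
-/

set_option autoImplicit false

open MeasureTheory Set Filter Topology

namespace Match2D

theorem stmtG : StmtG := by
  intro p hp
  refine ⟨exists_profile p hp, fun x hx => ⟨hx.integrable_one hp, hx.integrable_two hp, ?_⟩⟩
  obtain ⟨y, hy, hk⟩ := MG.exists_prof0 hp hx
  rw [← hk]
  exact ⟨_, _, _, _, _, _, hy.vfacts, hy.wfacts⟩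

end Match2D
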