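import Pool.Agent.Work.MP_884187_pr.Bd.B02

/-!
MP_884187_pr, item H1: verification for the main upper process.
-/

open MeasureTheory Set Filter Topology

namespace Match2D

theorem H1_EJ_int {m n : ℕ} [NeZero m] (J : ℕ) {f : Seqs m n → ℝ × ℝ → ℝ}
    (hf : ∀ ω, H1_BM (f ω)) :
    EJ J (fun ω => ∫ z, f ω z ∂U) = ∫ z, EJ J (fun ω => f ω z) ∂U := by
  unfold EJ
  exact (H1_integral_avg (f := fun w : Fin J → Fin n → Dig m => f (ext J w))
    fun w => hf _).symm

theorem H1_EJ_BM {m n : ℕ} [NeZero m] (J : ℕ) {f : Seqs m n → ℝ × ℝ → ℝ}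
    (hf : ∀ ω, H1_BM (f ω)) : H1_BM (fun z => EJ J (fun ω => f ω z)) := by
  unfold EJ
  exact H1_BM.avg fun w => hf _

theorem H1_err_BM (h : ℝ) (K m j : ℕ) (S : ℝ × ℝ → ℝ × ℝ) (hS : Measurable S)
    (hb : ∃ C, ∀ z ∈ Sq, len (S z) ≤ C) (g : ℕ × ℕ → ℝ × ℝ) (r : ℕ × ℕ → ℝ) :
    H1_BM (fun z => H1_err h K (len (S z)) (len (g (qidx m j z))) (len (S z - g (qidx m j z)))
      (r (qidx m j z))) := by
  refine H1_BM.cells m j (G := fun q z => H1_err h K (len (S z)) (len (g q))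
    (len (S z - g q)) (r q)) fun q => ?_
  refine H1_BM.comp hS hb
    (φ := fun v => H1_err h K (len v) (len (g q)) (len (v - g q)) (r q)) ?_
  unfold H1_err
  fun_prop

theorem H1_add_pow (a b : ℝ) (ha : 0 ≤ a) (hb : 0 ≤ b) (N : ℕ) :
    (a + b) ^ N ≤ 2 ^ N * (a ^ N + b ^ N) := by
  refine (add_pow_le ha hb N).trans ?_
  refine mul_le_mul_of_nonneg_right (pow_le_pow_right₀ (by norm_num) (by omega)) (by positivity)

theorem H1_Y_pow (a b r : ℝ) (ha : 0 ≤ a) (hb : 0 ≤ b) (hr : 0 ≤ r) (N : ℕ) :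
    (1 + a + b + r) ^ N ≤ 4 ^ N * (1 + a ^ N + b ^ N + r ^ N) := by
  have h1 := H1_add_pow (1 + a) (b + r) (by positivity) (by positivity) N
  have h2 := H1_add_pow 1 a (by positivity) (by positivity) N
  have h3 := H1_add_pow b r (by positivity) (by positivity) N
  have e : 1 + a + b + r = 1 + a + (b + r) := by ring
  have e4 : (4 : ℝ) ^ N = 2 ^ N * 2 ^ N := by rw [← mul_pow]; norm_num
  rw [one_pow] at h2
  rw [e, e4]
  calc (1 + a + (b + r)) ^ N ≤ 2 ^ N * ((1 + a) ^ N + (b + r) ^ N) := h1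
    _ ≤ 2 ^ N * (2 ^ N * (1 + a ^ N) + 2 ^ N * (b ^ N + r ^ N)) :=
        mul_le_mul_of_nonneg_left (add_le_add h2 h3) (by positivity)
    _ = _ := by ring

theorem H1_corner_mem (m j : ℕ) (hm : 0 < m) (z : ℝ × ℝ) (hz : z ∈ Sq0) :
    corner m j (qidx m j z) ∈ Sq0 := by
  have h := H1_qidx_lt m j hm z hz
  have hp : (0 : ℝ) < (m : ℝ) ^ j := by positivity
  have h1 : ((qidx m j z).1 : ℝ) < (m : ℝ) ^ j := by exact_mod_cast h.1
  have h2 : ((qidx m j z).2 : ℝ) < (m : ℝ) ^ j := by exact_mod_cast h.2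
  simp only [corner, emb, Sq0, mem_prod, mem_Ico, add_zero]
  refine ⟨⟨by positivity, ?_⟩, ⟨by positivity, ?_⟩⟩
  · rw [div_lt_one hp]; exact h1
  · rw [div_lt_one hp]; exact h2

theorem H1_J_le (m J n : ℕ) (hm : 2 ≤ m) (hJ : m ^ (2 * J) ≤ n) :
    2 * J * Real.log m ≤ Real.log n ∧ (J : ℝ) ≤ Real.log n := by
  have hm1 : (2 : ℝ) ≤ m := by exact_mod_cast hm
  have h1 : 2 * J * Real.log m ≤ Real.log n := by
    have h2 : (m : ℝ) ^ (2 * J) ≤ n := by exact_mod_cast hJ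
    have h3 := Real.log_le_log (by positivity) h2
    rw [Real.log_pow] at h3
    push_cast at h3
    exact h3
  refine ⟨h1, le_trans ?_ h1⟩
  have h4 : Real.log 2 ≤ Real.log m := Real.log_le_log (by norm_num) hm1
  have h5 := Real.log_two_gt_d9
  have h6 : (0 : ℝ) ≤ J := Nat.cast_nonneg J
  nlinarith

/-- Expectation of the error. -/
theorem H1_Eerr (hC2 : StmtC2) (hC4 : StmtC4) (hC6 : StmtC6) (hC8 : StmtC8) (K m : ℕ) [NeZero m]
    (B C₀ : ℝ) (β : UM B → Dig m → ℝ × ℝ → ℝ × ℝ) (hm : 2 ≤ m) (hC₀ : 0 ≤ C₀)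
    (hβ : KerM B m C₀ β) :
    ∃ C : ℝ, 0 < C ∧ ∃ n₀ : ℕ, ∀ n, n₀ ≤ n → ∀ (J : ℕ) (h : ℝ), m ^ (2 * J) ≤ n →
    1 ≤ Real.log n → 0 < h → h ≤ 1 → h ^ 4 * Real.log n = 1 →
    (m : ℝ) ^ (2 * J) ≤ n * h ^ 2 → ∀ (ch : ℕ → ℝ × ℝ → UM B) (j : ℕ), j ≤ J → ∀ z ∈ Sq0,
    EJ J (fun ω : Seqs m n => H1_err h K (len (Sm β ch j ω z))
        (len (Sm β ch j ω (corner m j (qidx m j z))))
        (len (Sm β ch j ω z - Sm β ch j ω (corner m j (qidx m j z))))
        (rdens ω j (qidx m j z))) ≤ C * h := by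
  obtain ⟨c, hc, hC4⟩ := hC4
  obtain ⟨n₀, hC4⟩ := hC4 m K C₀ (C₀ ^ 2) hm hC₀ (by positivity)
  obtain ⟨C6, hC6p, hC6⟩ := hC6 m C₀ hm hC₀
  refine ⟨5 * 4 ^ (2 * K) * (1 + 2 * Real.exp (c K * C₀ ^ 2) + 2 * Real.exp (c K * C₀ ^ 2) +
    (2 * K).factorial * Real.exp 2) + 1 + 2 * C6 + 1, by positivity, max n₀ 2, ?_⟩
  intro n hn J h hJ hL hh hh1 hhL hJh ch j hj z hz
  have hn0 : n₀ ≤ n := le_trans (le_max_left _ _) hn
  have hn2 : 2 ≤ n := le_trans (le_max_right _ _) hn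
  have hm0 : 0 < m := by omega
  have hm1 : (2 : ℝ) ≤ m := by exact_mod_cast hm
  have hnpos : (0 : ℝ) < n := by
    have : (2 : ℝ) ≤ n := by exact_mod_cast hn2
    linarith
  have hL0 : 0 < Real.log n := by linarith
  set q := qidx m j z with hq
  have hql := H1_qidx_lt m j hm0 z hz
  have hcz := H1_corner_mem m j hm0 z hz
  have hproc := (hC8 m n (UM B) β).2.2.2 ch
  have hb2 : ∀ θ : UM B, ∀ y ∈ Sq, avg (fun d => len (β θ d y) ^ 2) ≤ C₀ ^ 2 := by
    intro θ y hy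
    refine (H1_avg_mono (g := fun _ => C₀ ^ 2) fun d => ?_).trans (H1_avg_const _).le
    exact pow_le_pow_left₀ (A1_len_nonneg _) (hβ.bdd θ d y hy) 2
  have hJL := (H1_J_le m J n hm hJ).2
  have hexp : 2 * Real.exp (c K * C₀ ^ 2 * J / Real.log n) ≤ 2 * Real.exp (c K * C₀ ^ 2) := by
    have : c K * C₀ ^ 2 * J / Real.log n ≤ c K * C₀ ^ 2 := by
      rw [div_le_iff₀ hL0]
      have := hc K
      exact mul_le_mul_of_nonneg_left hJL (by positivity)
    have := Real.exp_le_exp.2 this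
    linarith
  -- moments of the process
  have mom : ∀ x ∈ Sq0, EJ J (fun ω : Seqs m n => len (Sm β ch j ω x) ^ (2 * K)) ≤
      2 * Real.exp (c K * C₀ ^ 2) := by
    intro x hx
    have h1 := hC4 n hn0 J hJ (UM B) β (clCtl β ch) hproc.1 hβ.bdd hb2 j hj x hx
    refine le_trans (le_of_eq ?_) (h1.trans hexp)
    congr 1
    funext ω
    rw [hproc.2 j ω]
  -- oscillation
  have osc : EJ J (fun ω : Seqs m n => len (Sm β ch j ω z - Sm β ch j ω (corner m j q)) ^ 2) ≤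
      C6 * h ^ 4 := by
    have h1 := hC6 n hn2 J hJ (UM B) β (clCtl β ch) hproc.1 hβ.lip j hj z hz
    have h2 : C6 / Real.log n = C6 * h ^ 4 := by
      have : h ^ 4 = 1 / Real.log n := by
        field_simp
        linarith
      rw [this]
      ring
    rw [h2] at h1
    refine le_trans (le_of_eq ?_) h1
    congr 1
    funext ω
    rw [hproc.2 j ω]
  -- density
  have hpowj : m ^ (2 * j) ≤ n := le_trans (Nat.pow_le_pow_right hm0 (by omega)) hJ
  obtain ⟨-, d2, d3⟩ := hC2 m n J j hm (by omega) hj hpowj q hql.1 hql.2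
  have hr0 : ∀ ω : Seqs m n, 0 ≤ rdens ω j q := fun ω => by
    unfold rdens
    positivity
  have dens2 : EJ J (fun ω : Seqs m n => (rdens ω j q - 1) ^ 2) ≤ h ^ 2 := by
    refine d2.trans ?_
    rw [div_le_iff₀ hnpos]
    calc (m : ℝ) ^ (2 * j) ≤ (m : ℝ) ^ (2 * J) := pow_le_pow_right₀ (by linarith) (by omega)
      _ ≤ n * h ^ 2 := hJh
      _ = _ := by ring
  have densK : EJ J (fun ω : Seqs m n => rdens ω j q ^ (2 * K)) ≤
      (2 * K).factorial * Real.exp 2 := by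
    have h1 : EJ J (fun ω : Seqs m n => rdens ω j q ^ (2 * K)) ≤
        EJ J (fun ω : Seqs m n => (2 * K).factorial * Real.exp (rdens ω j q)) := by
      refine H1_EJ_mono J fun ω => ?_
      have := Real.pow_div_factorial_le_exp (rdens ω j q) (hr0 ω) (2 * K)
      rw [div_le_iff₀ (by positivity)] at this
      linarith
    rw [H1_EJ_mul] at h1
    exact h1.trans (mul_le_mul_of_nonneg_left d3 (by positivity))
  -- the power
  have hYK : EJ J (fun ω : Seqs m n => (1 + len (Sm β ch j ω z) +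
      len (Sm β ch j ω (corner m j q)) + rdens ω j q) ^ (2 * K)) ≤
      4 ^ (2 * K) * (1 + 2 * Real.exp (c K * C₀ ^ 2) + 2 * Real.exp (c K * C₀ ^ 2) +
        (2 * K).factorial * Real.exp 2) := by
    have h1 : EJ J (fun ω : Seqs m n => (1 + len (Sm β ch j ω z) +
        len (Sm β ch j ω (corner m j q)) + rdens ω j q) ^ (2 * K)) ≤
        EJ J (fun ω : Seqs m n => 4 ^ (2 * K) * (1 + len (Sm β ch j ω z) ^ (2 * K) +
          len (Sm β ch j ω (corner m j q)) ^ (2 * K) + rdens ω j q ^ (2 * K))) :=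
      H1_EJ_mono J fun ω => H1_Y_pow _ _ _ (A1_len_nonneg _) (A1_len_nonneg _) (hr0 ω) _
    rw [H1_EJ_mul, H1_EJ_add, H1_EJ_add, H1_EJ_add, H1_EJ_const] at h1
    refine h1.trans (mul_le_mul_of_nonneg_left ?_ (by positivity))
    have m1 := mom z hz
    have m2 := mom _ hcz
    linarith
  -- total
  have htot : EJ J (fun ω : Seqs m n => H1_err h K (len (Sm β ch j ω z))
        (len (Sm β ch j ω (corner m j q)))
        (len (Sm β ch j ω z - Sm β ch j ω (corner m j q))) (rdens ω j q)) =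
      5 * h * EJ J (fun ω : Seqs m n => (1 + len (Sm β ch j ω z) +
        len (Sm β ch j ω (corner m j q)) + rdens ω j q) ^ (2 * K)) +
      h⁻¹ * EJ J (fun ω : Seqs m n => (rdens ω j q - 1) ^ 2) +
      2 / h ^ 3 * EJ J (fun ω : Seqs m n =>
        len (Sm β ch j ω z - Sm β ch j ω (corner m j q)) ^ 2) + h := by
    rw [← H1_EJ_mul, ← H1_EJ_mul, ← H1_EJ_mul, ← H1_EJ_add, ← H1_EJ_add,
      ← H1_EJ_const (m := m) (n := n) J h, ← H1_EJ_add, H1_EJ_const]
    congr 1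
    funext ω
    simp only [H1_err]
    ring
  rw [htot]
  have u1 : 5 * h * EJ J (fun ω : Seqs m n => (1 + len (Sm β ch j ω z) +
        len (Sm β ch j ω (corner m j q)) + rdens ω j q) ^ (2 * K)) ≤
      5 * h * (4 ^ (2 * K) * (1 + 2 * Real.exp (c K * C₀ ^ 2) + 2 * Real.exp (c K * C₀ ^ 2) +
        (2 * K).factorial * Real.exp 2)) := mul_le_mul_of_nonneg_left hYK (by positivity)
  have u2 : h⁻¹ * EJ J (fun ω : Seqs m n => (rdens ω j q - 1) ^ 2) ≤ h := by
    calc h⁻¹ * EJ J (fun ω : Seqs m n => (rdens ω j q - 1) ^ 2) ≤ h⁻¹ * h ^ 2 :=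
          mul_le_mul_of_nonneg_left dens2 (by positivity)
      _ = h := by field_simp
  have u3 : 2 / h ^ 3 * EJ J (fun ω : Seqs m n =>
        len (Sm β ch j ω z - Sm β ch j ω (corner m j q)) ^ 2) ≤ 2 * C6 * h := by
    calc 2 / h ^ 3 * EJ J (fun ω : Seqs m n =>
          len (Sm β ch j ω z - Sm β ch j ω (corner m j q)) ^ 2) ≤ 2 / h ^ 3 * (C6 * h ^ 4) :=
          mul_le_mul_of_nonneg_left osc (by positivity)
      _ = 2 * C6 * h := by field_simp
  have ufin : (5 * 4 ^ (2 * K) * (1 + 2 * Real.exp (c K * C₀ ^ 2) +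
      2 * Real.exp (c K * C₀ ^ 2) + (2 * K).factorial * Real.exp 2) + 1 + 2 * C6 + 1) * h =
      5 * h * (4 ^ (2 * K) * (1 + 2 * Real.exp (c K * C₀ ^ 2) + 2 * Real.exp (c K * C₀ ^ 2) +
        (2 * K).factorial * Real.exp 2)) + h + 2 * C6 * h + h := by ring
  rw [ufin]
  linarith

theorem H1_choose_x (κ p : ℝ) (ε : ℝ) (hε : 0 < ε) : ∃ x : ℝ, 0 < x ∧ x ≤ 1 ∧
    κ * (1 / (8 * Real.pi) * (1 + x) + x) ^ (p / 2) + 1 / (8 * Real.pi) * (1 + x) * x + x ≤
      κ / (8 * Real.pi) ^ (p / 2) + ε := by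
  have hT : 0 < 1 / (8 * Real.pi) := by positivity
  have hc : ContinuousAt (fun x : ℝ => κ * (1 / (8 * Real.pi) * (1 + x) + x) ^ (p / 2) +
      1 / (8 * Real.pi) * (1 + x) * x + x) 0 := by
    have h1 : ContinuousAt (fun x : ℝ => (1 / (8 * Real.pi) * (1 + x) + x) ^ (p / 2)) 0 := by
      refine ContinuousAt.rpow_const ?_ (Or.inl ?_)
      · fun_prop
      · simp only [add_zero, mul_one]
        exact hT.ne'
    exact ((continuousAt_const.mul h1).add (by fun_prop)).add continuousAt_id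
  have h0 : κ * (1 / (8 * Real.pi) * (1 + 0) + 0) ^ (p / 2) +
      1 / (8 * Real.pi) * (1 + 0) * 0 + 0 = κ / (8 * Real.pi) ^ (p / 2) := by
    have e : 1 / (8 * Real.pi) * (1 + 0) + 0 = 1 / (8 * Real.pi) := by ring
    rw [e, Real.div_rpow zero_le_one (by positivity), Real.one_rpow]
    ring
  have h1 : ∀ᶠ x in 𝓝 (0 : ℝ), κ * (1 / (8 * Real.pi) * (1 + x) + x) ^ (p / 2) +
      1 / (8 * Real.pi) * (1 + x) * x + x < κ / (8 * Real.pi) ^ (p / 2) + ε := by
    refine hc.eventually_lt continuousAt_const ?_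
    rw [h0]
    linarith
  have h2 : ∀ᶠ x in 𝓝[>] (0 : ℝ), κ * (1 / (8 * Real.pi) * (1 + x) + x) ^ (p / 2) +
      1 / (8 * Real.pi) * (1 + x) * x + x < κ / (8 * Real.pi) ^ (p / 2) + ε :=
    h1.filter_mono nhdsWithin_le_nhds
  have h3 : ∀ᶠ x in 𝓝[>] (0 : ℝ), x ∈ Ioc (0 : ℝ) 1 := Ioc_mem_nhdsGT one_pos
  obtain ⟨x, hx1, hx2⟩ := (h2.and h3).exists
  exact ⟨x, hx2.1, hx2.2, hx1.le⟩

/-- H1: the main process of the upper bound. -/
theorem H1 (hC1 : StmtC1) (hC2 : StmtC2) (hC3 : StmtC3) (hC3' : StmtC3') (hC4 : StmtC4)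
    (hC5 : StmtC5) (hC6 : StmtC6) (hC8 : StmtC8) (hH0 : StmtH0) : StmtH1 := by
  intro p hp κ V G H hV ε hε
  have hκ : 0 ≤ κ := by
    have h1 := hV.lower 1 one_pos 0
    rw [hV.zero 1 one_pos, Real.one_rpow, mul_one, A1_len_zero,
      Real.zero_rpow (by linarith)] at h1
    exact h1
  obtain ⟨x, hx0, hx1, hx⟩ := H1_choose_x κ p ε hε
  have hT0 : 0 < 1 / (8 * Real.pi) := by positivity
  set T := 1 / (8 * Real.pi) * (1 + x) + x with hTd
  have hxT : x ≤ T := by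
    rw [hTd]
    have : 0 ≤ 1 / (8 * Real.pi) * (1 + x) := by positivity
    linarith
  obtain ⟨B, hB2, Mc, hMc⟩ := H1_choice hV x T x hx0 hxT hx0
  obtain ⟨K, hK⟩ := H1_step hC3 hC3' hC5 hC8 hV x T x B hx0 hxT hx0 Mc hMc
  refine ⟨B, hB2, max 2 ⌈Real.exp (1 / x)⌉₊, ?_⟩
  intro m hm _ C₀ β hβ
  have hm2 : 2 ≤ m := le_trans (le_max_left _ _) hm
  have hm2' : (2 : ℝ) ≤ m := by exact_mod_cast hm2
  have hm0 : 0 < m := by omega
  have hlm : 0 < Real.log m := Real.log_pos (by linarith)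
  have hlmx : 1 / Real.log m ≤ x := by
    have h1 : Real.exp (1 / x) ≤ m :=
      (Nat.le_ceil _).trans (by exact_mod_cast le_trans (le_max_right _ _) hm)
    have h2 : 1 / x ≤ Real.log m := (Real.le_log_iff_exp_le (by linarith)).2 h1
    rw [div_le_iff₀ hlm]
    rw [div_le_iff₀ hx0] at h2
    linarith
  have hC₀ : 0 ≤ C₀ := by
    have h1 := hβ.bdd ⟨⟨1, 0, 1⟩, one_pos, by simp [SymM.det], by
      simp only [SymM.tr]; linarith⟩ (0, 0) (0, 0) (by simp [Sq])
    exact (A1_len_nonneg _).trans h1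
  obtain ⟨C, hC, hst⟩ := hK m C₀ β hm2 hC₀ hβ
  obtain ⟨Ce, hCe, n1, hEe⟩ := H1_Eerr hC2 hC4 hC6 hC8 K m B C₀ β hm2 hC₀ hβ
  -- largeness of n
  have hlog : Tendsto (fun n : ℕ => Real.log n) atTop atTop :=
    Real.tendsto_log_atTop.comp tendsto_natCast_atTop_atTop
  have ev1 : ∀ᶠ n : ℕ in atTop, 1 ≤ Real.log n := hlog.eventually_ge_atTop 1
  have ev2 : ∀ᶠ n : ℕ in atTop, (C * Ce / x) ^ 4 ≤ Real.log n := hlog.eventually_ge_atTop _
  have ev3 := (hH0 (1 / 2) m (by norm_num) hm2).1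
  obtain ⟨n₀, hn₀⟩ := eventually_atTop.1 ((ev1.and ev2).and (ev3.and (eventually_ge_atTop n1)))
  refine ⟨n₀, fun n hn => ?_⟩
  obtain ⟨⟨hL, hLx⟩, ⟨hJn, -⟩, hn1⟩ := hn₀ n hn
  set J := Jn (1 / 2) m n with hJd
  set L := Real.log n with hLd
  have hL0 : 0 < L := by linarith
  -- the small parameter
  set h := 1 / Real.sqrt (Real.sqrt L) with hh
  have hs1 : 1 ≤ Real.sqrt L := Real.one_le_sqrt.2 hL
  have hs2 : 1 ≤ Real.sqrt (Real.sqrt L) := Real.one_le_sqrt.2 hs1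
  have hh0 : 0 < h := by positivity
  have hh1 : h ≤ 1 := by
    rw [hh, div_le_one (by linarith)]
    exact hs2
  have hsq : Real.sqrt L = 1 / h ^ 2 := by
    rw [hh, div_pow, one_pow, Real.sq_sqrt (Real.sqrt_nonneg L)]
    simp
  have hh2 : h ^ 2 * Real.sqrt L = 1 := by
    rw [hsq]
    field_simp
  have hh4 : h ^ 4 * L = 1 := by
    have e : h ^ 4 * L = (h ^ 2 * Real.sqrt L) ^ 2 := by
      rw [mul_pow, Real.sq_sqrt hL0.le]
      ring
    rw [e, hh2, one_pow]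
  have hCh : C * Ce * h ≤ x := by
    have h1 : (C * Ce / x) ^ 4 * h ^ 4 ≤ 1 := by
      calc (C * Ce / x) ^ 4 * h ^ 4 ≤ L * h ^ 4 :=
            mul_le_mul_of_nonneg_right hLx (by positivity)
        _ = 1 := by linarith
    rw [← mul_pow] at h1
    have h2 : C * Ce / x * h ≤ 1 := by
      by_contra hcon
      push Not at hcon
      have := one_lt_pow₀ hcon (n := 4) (by norm_num)
      linarith
    have h3 : C * Ce * h = x * (C * Ce / x * h) := by field_simp
    rw [h3]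
    nlinarith
  have hnpos : (0 : ℝ) < n := by
    by_contra hcon
    have : (n : ℝ) = 0 := le_antisymm (not_lt.1 hcon) (Nat.cast_nonneg n)
    rw [hLd, this, Real.log_zero] at hL
    linarith
  have hJh : (m : ℝ) ^ (2 * J) ≤ n * h ^ 2 := by
    rw [← Real.sqrt_eq_rpow] at hJn
    have e : (m : ℝ) ^ (2 * J) = (m : ℝ) ^ (2 * J) * Real.sqrt L * h ^ 2 := by
      rw [mul_assoc, mul_comm (Real.sqrt L), hh2, mul_one]
    rw [e]
    exact mul_le_mul_of_nonneg_right hJn (by positivity)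
  have hJpow : m ^ (2 * J) ≤ n := by
    have h1 : (m : ℝ) ^ (2 * J) ≤ n := by
      refine hJh.trans ?_
      have : h ^ 2 ≤ 1 := pow_le_one₀ hh0.le hh1
      nlinarith
    exact_mod_cast h1
  obtain ⟨hJ1, hJ2⟩ := H1_J_le m J n hm2 hJpow
  have hJ0 : (0 : ℝ) ≤ J := Nat.cast_nonneg J
  -- the time step
  set lam := (Real.log m + 1) / (4 * Real.pi * L) with hlam
  have hlam0 : 0 ≤ lam := by positivity
  have hlamJ : lam * J ≤ 1 / (8 * Real.pi) * (1 + x) := by
    have h1 : (J : ℝ) ≤ L / (2 * Real.log m) := by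
      rw [le_div_iff₀ (by positivity)]
      linarith
    calc lam * J ≤ lam * (L / (2 * Real.log m)) := mul_le_mul_of_nonneg_left h1 hlam0
      _ = 1 / (8 * Real.pi) * (1 + 1 / Real.log m) := by
          rw [hlam]
          field_simp
          ring
      _ ≤ _ := mul_le_mul_of_nonneg_left (by linarith) hT0.le
  -- the control
  have hMu : ∀ t s, Unim B (Mc t s).unit := fun t s =>
    H1_unit (Mc t s) (hMc.1 t s).1 (hMc.1 t s).2.1 (hMc.1 t s).2.2
  set ch : ℕ → ℝ × ℝ → UM B := fun j s =>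
    ⟨(Mc (x + lam * ((J : ℝ) - ((j : ℝ) + 1))) s).unit, hMu _ _⟩ with hch
  refine ⟨ch, ?_⟩
  have hproc := hC8 m n (UM B) β
  have hSmeas : ∀ j (ω : Seqs m n), Measurable (Sm β ch j ω) := fun j ω => by
    rw [(hproc.2.2.2 ch).2 j ω]
    exact hproc.1 _ j ω hβ.meas
  have hSbdd : ∀ j (ω : Seqs m n), ∃ C, ∀ z ∈ Sq, len (Sm β ch j ω z) ≤ C := fun j ω => by
    obtain ⟨C, hC⟩ := hproc.2.1 (clCtl β ch) j C₀ hβ.bdd
    refine ⟨C, fun z hz => ?_⟩
    rw [(hproc.2.2.2 ch).2 j ω]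
    exact hC ω z hz
  have hmain : ∀ j : ℕ, j ≤ J →
      EJ J (fun ω : Seqs m n => ∫ z, V (x + lam * ((J : ℝ) - j)) (Sm β ch j ω z) ∂U) ≤
      κ * (x + lam * J) ^ (p / 2) + j * (lam * x + C * h ^ 4 * (Ce * h)) := by
    intro j
    induction j with
    | zero =>
      intro _
      have h1 : ∀ ω : Seqs m n, ∫ z, V (x + lam * ((J : ℝ) - (0 : ℕ))) (Sm β ch 0 ω z) ∂U =
          κ * (x + lam * J) ^ (p / 2) := by
        intro ω
        have h2 : ∀ z, V (x + lam * ((J : ℝ) - (0 : ℕ))) (Sm β ch 0 ω z) =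
            κ * (x + lam * J) ^ (p / 2) := by
          intro z
          rw [Nat.cast_zero, sub_zero]
          exact hV.zero _ (by positivity)
        simp only [h2]
        simp
      simp only [h1]
      rw [H1_EJ_const]
      simp
    | succ j ih =>
      intro hj
      have hjJ : j < J := hj
      have hjJ' : (j : ℝ) + 1 ≤ J := by exact_mod_cast hj
      have ih' := ih hjJ.le
      set t := x + lam * ((J : ℝ) - ((j : ℝ) + 1)) with ht
      have htl : t + lam = x + lam * ((J : ℝ) - j) := by rw [ht]; ring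
      have ecast : (((j + 1 : ℕ) : ℝ)) = (j : ℝ) + 1 := by push_cast; ring
      have htI : t ∈ Icc x T := by
        constructor
        · have : 0 ≤ lam * ((J : ℝ) - ((j : ℝ) + 1)) := mul_nonneg hlam0 (by linarith)
          linarith
        · have : lam * ((J : ℝ) - ((j : ℝ) + 1)) ≤ lam * J :=
            mul_le_mul_of_nonneg_left (by linarith [Nat.cast_nonneg (α := ℝ) j]) hlam0
          linarith
      have htlI : t + lam ∈ Icc x T := by
        constructor
        · linarith [htI.1]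
        · rw [htl]
          have : lam * ((J : ℝ) - (j : ℝ)) ≤ lam * J :=
            mul_le_mul_of_nonneg_left (by linarith [Nat.cast_nonneg (α := ℝ) j]) hlam0
          linarith
      have hstep := hst n h hL hh0 hh1 hh4 t lam hlam htI htlI ch j (fun s => rfl)
      have e1 := hC1 m n J j hjJ (fun ω : Seqs m n =>
        ∫ z, V (x + lam * ((J : ℝ) - ((j + 1 : ℕ) : ℝ))) (Sm β ch (j + 1) ω z) ∂U)
      rw [e1, ecast]
      have herr : ∀ ω : Seqs m n, H1_BM (fun z => H1_err h K (len (Sm β ch j ω z))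
          (len (Sm β ch j ω (corner m j (qidx m j z))))
          (len (Sm β ch j ω z - Sm β ch j ω (corner m j (qidx m j z))))
          (rdens ω j (qidx m j z))) := fun ω =>
        H1_err_BM h K m j (Sm β ch j ω) (hSmeas j ω) (hSbdd j ω)
          (fun q => Sm β ch j ω (corner m j q)) (fun q => rdens ω j q)
      have e2 := H1_EJ_mono J hstep
      have e3 : EJ J (fun ω : Seqs m n => ∫ z, V (t + lam) (Sm β ch j ω z) ∂U + lam * x +
          C * h ^ 4 * ∫ z, H1_err h K (len (Sm β ch j ω z))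
            (len (Sm β ch j ω (corner m j (qidx m j z))))
            (len (Sm β ch j ω z - Sm β ch j ω (corner m j (qidx m j z))))
            (rdens ω j (qidx m j z)) ∂U) =
          EJ J (fun ω : Seqs m n => ∫ z, V (t + lam) (Sm β ch j ω z) ∂U) + lam * x +
          C * h ^ 4 * EJ J (fun ω : Seqs m n => ∫ z, H1_err h K (len (Sm β ch j ω z))
            (len (Sm β ch j ω (corner m j (qidx m j z))))
            (len (Sm β ch j ω z - Sm β ch j ω (corner m j (qidx m j z))))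
            (rdens ω j (qidx m j z)) ∂U) := by
        rw [H1_EJ_add, H1_EJ_add, H1_EJ_const, H1_EJ_mul]
      rw [e3, H1_EJ_int J herr] at e2
      have e4 : ∫ z, EJ J (fun ω : Seqs m n => H1_err h K (len (Sm β ch j ω z))
            (len (Sm β ch j ω (corner m j (qidx m j z))))
            (len (Sm β ch j ω z - Sm β ch j ω (corner m j (qidx m j z))))
            (rdens ω j (qidx m j z))) ∂U ≤ Ce * h :=
        H1_integral_le (H1_EJ_BM J herr) fun z hz =>
          hEe n hn1 J h hJpow hL hh0 hh1 hh4 hJh ch j hjJ.le z hz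
      rw [htl] at e2
      have e5 : C * h ^ 4 * ∫ z, EJ J (fun ω : Seqs m n => H1_err h K (len (Sm β ch j ω z))
            (len (Sm β ch j ω (corner m j (qidx m j z))))
            (len (Sm β ch j ω z - Sm β ch j ω (corner m j (qidx m j z))))
            (rdens ω j (qidx m j z))) ∂U ≤ C * h ^ 4 * (Ce * h) :=
        mul_le_mul_of_nonneg_left e4 (by positivity)
      rw [ht] at e2
      linarith
  have hJfin := hmain J le_rfl
  rw [sub_self, mul_zero, add_zero] at hJfin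
  have hlow : EJ J (fun ω : Seqs m n => ∫ z, len (Sm β ch J ω z) ^ p ∂U) ≤
      EJ J (fun ω : Seqs m n => ∫ z, V x (Sm β ch J ω z) ∂U) := by
    refine H1_EJ_mono J fun ω => ?_
    refine H1_integral_mono (H1_BM.comp (hSmeas J ω) (hSbdd J ω)
      (φ := fun v => len v ^ p) (A1_continuous_len.rpow_const fun _ => Or.inr (by linarith)))
      (H1_BM.comp (hSmeas J ω) (hSbdd J ω) (hV.cont x hx0)) fun z _ => hV.lower x hx0 _
  have hk1 : κ * (x + lam * J) ^ (p / 2) ≤ κ * T ^ (p / 2) := by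
    refine mul_le_mul_of_nonneg_left ?_ hκ
    exact Real.rpow_le_rpow (by positivity) (by linarith) (by linarith)
  have hk2 : (J : ℝ) * (lam * x + C * h ^ 4 * (Ce * h)) ≤
      1 / (8 * Real.pi) * (1 + x) * x + x := by
    have h1 : (J : ℝ) * h ^ 4 ≤ 1 := by
      calc (J : ℝ) * h ^ 4 ≤ L * h ^ 4 := mul_le_mul_of_nonneg_right hJ2 (by positivity)
        _ = 1 := by linarith
    have h2 : (J : ℝ) * (lam * x + C * h ^ 4 * (Ce * h)) =
        (lam * J) * x + (J * h ^ 4) * (C * Ce * h) := by ring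
    rw [h2]
    have h3 : (lam * J) * x ≤ 1 / (8 * Real.pi) * (1 + x) * x :=
      mul_le_mul_of_nonneg_right hlamJ hx0.le
    have h4 : (J * h ^ 4) * (C * Ce * h) ≤ 1 * x :=
      mul_le_mul h1 hCh (by positivity) zero_le_one
    linarith
  linarith

end Match2D
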