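import Pool.Agent.Work.MP_884187_pr.Stmts

/-!
MP_884187_pr item H0: the number of generations.
-/

open MeasureTheory Set Filter Topology

namespace Match2D

/-- log log n / log n tends to 0. -/
theorem H0_loglog : Tendsto (fun n : ℕ => Real.log (Real.log n) / Real.log n) atTop (𝓝 0) := by
  have h1 : Tendsto (fun n : ℕ => Real.log (n : ℝ)) atTop atTop :=
    Real.tendsto_log_atTop.comp tendsto_natCast_atTop_atTop
  have h2 : Tendsto (fun x : ℝ => Real.log x / x) atTop (𝓝 0) := by
    have := Real.isLittleO_log_id_atTop.tendsto_div_nhds_zero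
    simpa using this
  exact h2.comp h1

/-- The argument of the floor, divided by log n. -/
theorem H0_arg (a : ℝ) (m : ℕ) (_hm : 2 ≤ m) :
    Tendsto (fun n : ℕ => ((Real.log n - a * Real.log (Real.log n)) / (2 * Real.log m)) / Real.log n)
      atTop (𝓝 (1 / (2 * Real.log m))) := by
  have h1 : Tendsto (fun n : ℕ => Real.log (n : ℝ)) atTop atTop :=
    Real.tendsto_log_atTop.comp tendsto_natCast_atTop_atTop
  have h3 : Tendsto (fun n : ℕ => (1 - a * (Real.log (Real.log n) / Real.log n)) /
      (2 * Real.log m)) atTop (𝓝 ((1 - a * 0) / (2 * Real.log m))) :=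
    ((tendsto_const_nhds).sub (H0_loglog.const_mul a)).div_const _
  rw [mul_zero, sub_zero] at h3
  refine h3.congr' ?_
  filter_upwards [h1.eventually_gt_atTop 0] with n hn
  field_simp

theorem H0_inv : Tendsto (fun n : ℕ => (1 : ℝ) / Real.log n) atTop (𝓝 0) := by
  have h1 : Tendsto (fun n : ℕ => Real.log (n : ℝ)) atTop atTop :=
    Real.tendsto_log_atTop.comp tendsto_natCast_atTop_atTop
  have h2 : Tendsto (fun n : ℕ => (Real.log (n : ℝ))⁻¹) atTop (𝓝 0) := tendsto_inv_atTop_zero.comp h1
  simpa using h2

theorem H0 : StmtH0 := by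
  intro a m ha hm
  have hm1 : (1 : ℝ) < m := by exact_mod_cast hm
  have hlm : 0 < Real.log m := Real.log_pos hm1
  have h1 : Tendsto (fun n : ℕ => Real.log (n : ℝ)) atTop atTop :=
    Real.tendsto_log_atTop.comp tendsto_natCast_atTop_atTop
  have hpos : ∀ᶠ n : ℕ in atTop,
      0 < (Real.log n - a * Real.log (Real.log n)) / (2 * Real.log m) := by
    have hT := H0_arg a m hm
    have hc : (0 : ℝ) < 1 / (2 * Real.log m) := by positivity
    filter_upwards [hT.eventually (lt_mem_nhds hc), h1.eventually_gt_atTop 0] with n hn hn2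
    have := mul_pos hn hn2
    rwa [div_mul_cancel₀ _ hn2.ne'] at this
  constructor
  · filter_upwards [hpos, h1.eventually_gt_atTop 0, eventually_ge_atTop 2] with n hn hln hn2
    have hn0 : (0 : ℝ) < n := by
      have : 0 < n := by omega
      exact_mod_cast this
    have hf1 : ((Jn a m n : ℕ) : ℝ) ≤ (Real.log n - a * Real.log (Real.log n)) / (2 * Real.log m) :=
      Nat.floor_le hn.le
    have hf2 : (Real.log n - a * Real.log (Real.log n)) / (2 * Real.log m) < (Jn a m n : ℕ) + 1 :=
      Nat.lt_floor_add_one _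
    have e1 : (m : ℝ) ^ (2 * Jn a m n) = Real.exp ((2 * (Jn a m n : ℕ) : ℝ) * Real.log m) := by
      rw [← Real.rpow_natCast, Real.rpow_def_of_pos (by linarith)]
      push_cast
      ring_nf
    have e2 : Real.log n ^ a = Real.exp (a * Real.log (Real.log n)) := by
      rw [Real.rpow_def_of_pos hln]
      ring_nf
    have e3 : (m : ℝ) ^ 2 = Real.exp (2 * Real.log m) := by
      rw [← Real.rpow_natCast, Real.rpow_def_of_pos (by linarith)]
      push_cast
      ring_nf
    have e4 : (n : ℝ) = Real.exp (Real.log n) := (Real.exp_log hn0).symm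
    rw [e1, e2, e3, ← Real.exp_add, ← Real.exp_add]
    rw [le_div_iff₀ (by positivity)] at hf1
    rw [div_lt_iff₀ (by positivity)] at hf2
    constructor
    · refine le_trans (Real.exp_le_exp.mpr ?_) e4.symm.le
      nlinarith
    · refine le_trans e4.le (Real.exp_le_exp.mpr ?_)
      nlinarith
  · have hT := H0_arg a m hm
    have hT2 : Tendsto (fun n : ℕ => ((Real.log n - a * Real.log (Real.log n)) / (2 * Real.log m)) /
        Real.log n - 1 / Real.log n) atTop (𝓝 (1 / (2 * Real.log m) - 0)) := hT.sub H0_inv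
    rw [sub_zero] at hT2
    refine tendsto_of_tendsto_of_tendsto_of_le_of_le' hT2 hT ?_ ?_
    · filter_upwards [hpos, h1.eventually_gt_atTop 0] with n hn hln
      rw [← sub_div]
      have hf2 : (Real.log n - a * Real.log (Real.log n)) / (2 * Real.log m) <
        (Jn a m n : ℕ) + 1 := Nat.lt_floor_add_one _
      gcongr
      linarith
    · filter_upwards [hpos, h1.eventually_gt_atTop 0] with n hn hln
      have hf1 : ((Jn a m n : ℕ) : ℝ) ≤
        (Real.log n - a * Real.log (Real.log n)) / (2 * Real.log m) := Nat.floor_le hn.le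
      gcongr

end Match2D
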