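import Pool.Agent.Work.MP_884187_pr.Stmts
import Pool.Agent.Work.MP_884187_pr.A2
import Pool.Agent.Work.MP_884187_pr.H0

/-!
MP_884187_pr, item H2: the upper bound from the pieces.
-/

open MeasureTheory Set Filter Topology

namespace Match2D

/-! ### Lengths -/

lemma H2_len_nonneg (v : ℝ × ℝ) : 0 ≤ len v := Real.sqrt_nonneg _

lemma H2_len_eq (v : ℝ × ℝ) : len v = ‖(⟨v.1, v.2⟩ : ℂ)‖ := by
  rw [Complex.norm_def, Complex.normSq_mk]
  unfold len
  congr 1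
  ring

lemma H2_len_add (v w : ℝ × ℝ) : len (v + w) ≤ len v + len w := by
  rw [H2_len_eq, H2_len_eq, H2_len_eq]
  have e : (⟨(v + w).1, (v + w).2⟩ : ℂ) = ⟨v.1, v.2⟩ + ⟨w.1, w.2⟩ := rfl
  rw [e]
  exact norm_add_le _ _

lemma H2_len_smul (c : ℝ) (v : ℝ × ℝ) : len (c • v) = |c| * len v := by
  unfold len
  have e : (c • v).1 ^ 2 + (c • v).2 ^ 2 = c ^ 2 * (v.1 ^ 2 + v.2 ^ 2) := by
    simp only [Prod.smul_fst, Prod.smul_snd, smul_eq_mul]
    ring
  rw [e, Real.sqrt_mul (sq_nonneg c), Real.sqrt_sq_eq_abs]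

lemma H2_len_cont : Continuous len := by
  unfold len
  fun_prop

/-! ### The uniform measure -/

lemma H2_U_prob : IsProbabilityMeasure U := by
  refine ⟨?_⟩
  unfold U Sq
  rw [Measure.restrict_apply_univ, Measure.volume_eq_prod, Measure.prod_prod, Real.volume_Icc]
  simp

lemma H2_U_eq : U = volume.restrict Sq0 := by
  unfold U Sq Sq0
  refine Measure.restrict_congr_set ?_
  rw [Measure.volume_eq_prod]
  exact Measure.set_prod_ae_eq Ico_ae_eq_Icc.symm Ico_ae_eq_Icc.symm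

lemma H2_ae_Sq0 : ∀ᵐ z ∂U, z ∈ Sq0 := by
  rw [H2_U_eq]
  exact ae_restrict_mem (measurableSet_Ico.prod measurableSet_Ico)

lemma H2_Sq0_sub : Sq0 ⊆ Sq := prod_mono Ico_subset_Icc_self Ico_subset_Icc_self

lemma H2_ae_Sq : ∀ᵐ z ∂U, z ∈ Sq := H2_ae_Sq0.mono fun _ h => H2_Sq0_sub h

/-- A measurable function bounded on the square is integrable. -/
lemma H2_integrable {f : ℝ × ℝ → ℝ} (hf : Measurable f) {C : ℝ} (hC : ∀ z ∈ Sq, |f z| ≤ C) :
    Integrable f U := by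
  have := H2_U_prob
  exact Integrable.of_bound hf.aestronglyMeasurable C
    (H2_ae_Sq.mono fun z hz => by simpa using hC z hz)

/-! ### Expectations -/

section EJ

variable {m n : ℕ} [NeZero m]

lemma H2_EJ_mono (J : ℕ) {F G : Seqs m n → ℝ} (h : ∀ ω, F ω ≤ G ω) : EJ J F ≤ EJ J G := by
  unfold EJ avg
  rw [smul_eq_mul, smul_eq_mul]
  refine mul_le_mul_of_nonneg_left (Finset.sum_le_sum fun w _ => h _) (by positivity)

lemma H2_EJ_const (J : ℕ) (c : ℝ) : EJ J (fun _ : Seqs m n => c) = c := by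
  unfold EJ avg
  have : Nonempty (Fin J → Fin n → Dig m) := ⟨fun _ _ => (0, 0)⟩
  have h : (Fintype.card (Fin J → Fin n → Dig m) : ℝ) ≠ 0 := by
    exact_mod_cast Fintype.card_ne_zero
  rw [Finset.sum_const, Finset.card_univ, nsmul_eq_mul, smul_eq_mul, ← mul_assoc,
    inv_mul_cancel₀ h, one_mul]

lemma H2_EJ_add (J : ℕ) (F G : Seqs m n → ℝ) :
    EJ J (fun ω => F ω + G ω) = EJ J F + EJ J G := by
  unfold EJ avg
  rw [Finset.sum_add_distrib, smul_add]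

lemma H2_EJ_mul (J : ℕ) (c : ℝ) (F : Seqs m n → ℝ) :
    EJ J (fun ω => c * F ω) = c * EJ J F := by
  unfold EJ avg
  rw [← Finset.mul_sum, smul_eq_mul, smul_eq_mul]
  ring

lemma H2_EJ_integral (J : ℕ) (f : Seqs m n → ℝ × ℝ → ℝ) (hf : ∀ ω, Integrable (f ω) U) :
    EJ J (fun ω => ∫ z, f ω z ∂U) = ∫ z, EJ J (fun ω => f ω z) ∂U := by
  unfold EJ avg
  simp only [smul_eq_mul]
  rw [integral_const_mul, integral_finsetSum _ fun w _ => hf _]

/-- A pointwise bound on `Sq0` gives a bound of the mean integral. -/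
lemma H2_EJ_int_le (J : ℕ) (f : Seqs m n → ℝ × ℝ → ℝ) (hf : ∀ ω, Integrable (f ω) U)
    {D : ℝ} (hD : ∀ z ∈ Sq0, EJ J (fun ω => f ω z) ≤ D) :
    EJ J (fun ω => ∫ z, f ω z ∂U) ≤ D := by
  have := H2_U_prob
  rw [H2_EJ_integral J f hf]
  have hi : Integrable (fun z => EJ J (fun ω => f ω z)) U := by
    unfold EJ avg
    simp only [smul_eq_mul]
    exact (integrable_finsetSum _ fun w _ => hf _).const_mul _
  calc ∫ z, EJ J (fun ω => f ω z) ∂U ≤ ∫ _, D ∂U :=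
        integral_mono_ae hi (integrable_const D) (H2_ae_Sq0.mono fun z hz => hD z hz)
    _ = D := by simp

lemma H2_avg_add {α E : Type*} [Fintype α] [AddCommGroup E] [Module ℝ E] (f g : α → E) :
    avg (fun a => f a + g a) = avg f + avg g := by
  unfold avg
  rw [Finset.sum_add_distrib, smul_add]

omit [NeZero m] in
/-- The process is linear in the kernel. -/
lemma H2_proc_add {Θ : Type} (β β' : Θ → Dig m → ℝ × ℝ → ℝ × ℝ)
    (ctl : ℕ → Seqs m n → ℕ × ℕ → Θ) (j : ℕ) (ω : Seqs m n) (x : ℝ × ℝ) :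
    proc (fun θ d y => β θ d y + β' θ d y) ctl j ω x = proc β ctl j ω x + proc β' ctl j ω x := by
  induction j with
  | zero => simp [proc]
  | succ j ih =>
    unfold proc
    rw [ih]
    have e : ∀ i, (β (ctl j ω (qidx m j x)) (ω j i) (loc m j x) +
        β' (ctl j ω (qidx m j x)) (ω j i) (loc m j x) -
        avg (fun d => β (ctl j ω (qidx m j x)) d (loc m j x) +
          β' (ctl j ω (qidx m j x)) d (loc m j x))) =
        (β (ctl j ω (qidx m j x)) (ω j i) (loc m j x) -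
          avg (fun d => β (ctl j ω (qidx m j x)) d (loc m j x))) +
        (β' (ctl j ω (qidx m j x)) (ω j i) (loc m j x) -
          avg (fun d => β' (ctl j ω (qidx m j x)) d (loc m j x))) := by
      intro i
      rw [H2_avg_add]
      abel
    simp only [e]
    rw [Finset.sum_add_distrib, smul_add]
    abel

end EJ

/-! ### Elementary inequalities -/

lemma H2_pow_bad {p A x : ℝ} {k : ℕ} (hp : 1 ≤ p) (hA : 0 < A) (hx : 0 ≤ x)
    (hk : p ≤ 2 * k) : x ^ p ≤ A ^ p + A ^ (p - 2 * k) * x ^ (2 * k) := by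
  rcases le_or_gt x A with h | h
  · have h1 : x ^ p ≤ A ^ p := Real.rpow_le_rpow hx h (by linarith)
    have h2 : 0 ≤ A ^ (p - 2 * k) * x ^ (2 * k) := by positivity
    linarith
  · have hx0 : 0 < x := hA.trans h
    have h1 : x ^ p = x ^ (p - 2 * k) * x ^ (2 * k) := by
      rw [← Real.rpow_natCast x (2 * k), ← Real.rpow_add hx0]
      congr 1
      push_cast
      ring
    have h2 : x ^ (p - 2 * k) ≤ A ^ (p - 2 * k) :=
      Real.rpow_le_rpow_of_nonpos hA h.le (by linarith)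
    have h3 : 0 ≤ A ^ p := by positivity
    rw [h1]
    have h4 : x ^ (p - 2 * k) * x ^ (2 * k) ≤ A ^ (p - 2 * k) * x ^ (2 * k) :=
      mul_le_mul_of_nonneg_right h2 (by positivity)
    linarith

lemma H2_pow_split {p s A x : ℝ} {k : ℕ} (hp : 1 ≤ p) (hs : 0 < s) (hsA : s ≤ A) (hx : 0 ≤ x)
    (hk : p ≤ 2 * k) :
    x ^ p ≤ s ^ p + (s ^ (p - 2) + A ^ (p - 2)) * x ^ 2 + A ^ (p - 2 * k) * x ^ (2 * k) := by
  have hA : 0 < A := hs.trans_le hsA
  have n1 : 0 ≤ s ^ p := by positivity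
  have n2 : 0 ≤ s ^ (p - 2) := by positivity
  have n3 : 0 ≤ A ^ (p - 2) := by positivity
  have n4 : 0 ≤ A ^ (p - 2 * k) * x ^ (2 * k) := by positivity
  have n5 : 0 ≤ (s ^ (p - 2) + A ^ (p - 2)) * x ^ 2 := by positivity
  rcases le_or_gt x s with h | h
  · have h1 : x ^ p ≤ s ^ p := Real.rpow_le_rpow hx h (by linarith)
    linarith
  · rcases le_or_gt x A with h' | h'
    · have hx0 : 0 < x := hs.trans h
      have h1 : x ^ p = x ^ (p - 2) * x ^ 2 := by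
        rw [← Real.rpow_natCast x 2, ← Real.rpow_add hx0]
        congr 1
        push_cast
        ring
      have h2 : x ^ (p - 2) ≤ s ^ (p - 2) + A ^ (p - 2) := by
        rcases le_or_gt 2 p with hp2 | hp2
        · have : x ^ (p - 2) ≤ A ^ (p - 2) := Real.rpow_le_rpow hx h' (by linarith)
          linarith
        · have : x ^ (p - 2) ≤ s ^ (p - 2) :=
            Real.rpow_le_rpow_of_nonpos hs h.le (by linarith)
          linarith
      rw [h1]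
      have h4 : x ^ (p - 2) * x ^ 2 ≤ (s ^ (p - 2) + A ^ (p - 2)) * x ^ 2 :=
        mul_le_mul_of_nonneg_right h2 (by positivity)
      linarith
    · have hx0 : 0 < x := hA.trans h'
      have h1 : x ^ p = x ^ (p - 2 * k) * x ^ (2 * k) := by
        rw [← Real.rpow_natCast x (2 * k), ← Real.rpow_add hx0]
        congr 1
        push_cast
        ring
      have h2 : x ^ (p - 2 * k) ≤ A ^ (p - 2 * k) :=
        Real.rpow_le_rpow_of_nonpos hA h'.le (by linarith)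
      rw [h1]
      have h4 : x ^ (p - 2 * k) * x ^ (2 * k) ≤ A ^ (p - 2 * k) * x ^ (2 * k) :=
        mul_le_mul_of_nonneg_right h2 (by positivity)
      linarith

/-- Large truncation level. -/
lemma H2_exists_A {q D τ : ℝ} (hq : q < 0) (hτ : 0 < τ) :
    ∃ A : ℝ, 1 ≤ A ∧ A ^ q * D ≤ τ := by
  have h1 : Tendsto (fun A : ℝ => A ^ q * D) atTop (𝓝 (0 * D)) := by
    refine Tendsto.mul_const D ?_
    have := tendsto_rpow_neg_atTop (y := -q) (by linarith)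
    simpa using this
  rw [zero_mul] at h1
  have h2 := (h1.eventually (eventually_le_nhds hτ)).and (eventually_ge_atTop 1)
  obtain ⟨A, hA1, hA2⟩ := h2.exists
  exact ⟨A, hA2, hA1⟩

/-- The choice of the small parameter. -/
lemma H2_exists_t {p θ : ℝ} (hp : 1 ≤ p) (hθ : 1 < θ) : ∃ t : ℝ, 0 < t ∧ t ≤ 1 / 2 ∧
    0 < 1 - t ^ (1 / p) ∧ (1 + t) / (1 - t ^ (1 / p)) ^ p * (1 - t) ^ (1 - p) ≤ θ := by
  have hp0 : 0 < p := by linarith
  have c1 : ContinuousAt (fun t : ℝ => t ^ (1 / p)) 0 :=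
    Real.continuousAt_rpow_const 0 (1 / p) (Or.inr (by positivity))
  have z1 : (0 : ℝ) ^ (1 / p) = 0 := Real.zero_rpow (by positivity)
  have c2 : ContinuousAt (fun t : ℝ => 1 - t ^ (1 / p)) 0 := continuousAt_const.sub c1
  have c3 : ContinuousAt (fun t : ℝ => (1 - t ^ (1 / p)) ^ p) 0 := by
    refine c2.rpow_const (Or.inl ?_)
    rw [z1]
    norm_num
  have c4 : ContinuousAt (fun t : ℝ => (1 - t) ^ (1 - p)) 0 := by
    refine ContinuousAt.rpow_const (by fun_prop) (Or.inl (by norm_num))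
  have c5 : ContinuousAt (fun t : ℝ => (1 + t) / (1 - t ^ (1 / p)) ^ p * (1 - t) ^ (1 - p)) 0 := by
    refine ContinuousAt.mul (ContinuousAt.div (by fun_prop) c3 ?_) c4
    rw [z1]
    norm_num
  have v5 : (1 + (0 : ℝ)) / (1 - (0 : ℝ) ^ (1 / p)) ^ p * (1 - 0) ^ (1 - p) = 1 := by
    rw [z1]
    norm_num
  have e1 : ∀ᶠ t in 𝓝 (0 : ℝ), (1 + t) / (1 - t ^ (1 / p)) ^ p * (1 - t) ^ (1 - p) ≤ θ := by
    have := c5.tendsto
    rw [v5] at this
    exact this.eventually (eventually_le_nhds hθ)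
  have e2 : ∀ᶠ t in 𝓝 (0 : ℝ), 0 < 1 - t ^ (1 / p) := by
    have := c2.tendsto
    rw [z1, sub_zero] at this
    exact this.eventually (eventually_gt_nhds one_pos)
  have e3 : ∀ᶠ t in 𝓝 (0 : ℝ), t ≤ 1 / 2 := eventually_le_nhds (by norm_num)
  have e4 : ∀ᶠ t in 𝓝[>] (0 : ℝ), 0 < t := eventually_mem_nhdsWithin
  obtain ⟨t, ⟨⟨h1, h2⟩, h3⟩, h4⟩ :=
    ((((e1.and e2).and e3).filter_mono nhdsWithin_le_nhds).and e4).exists
  exact ⟨t, h4, h3, h2, h1⟩

/-- Combination of the transport bounds. -/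
lemma H2_W {p : ℝ} (hp : 1 ≤ p) {W₁ W₂ W₃ W₄ : ENNReal} {b s c : ℝ} (hb : 0 ≤ b) (hs : 0 ≤ s)
    (hc : 0 < c) (h1 : W₁ ^ (1 / p) ≤ W₂ ^ (1 / p) + W₃ ^ (1 / p))
    (h2 : W₂ ≤ ENNReal.ofReal (b ^ p)) (h3 : ENNReal.ofReal c * W₃ ^ (1 / p) ≤ W₄ ^ (1 / p))
    (h4 : W₄ ≤ ENNReal.ofReal s) : W₁ ≤ ENNReal.ofReal ((s ^ (1 / p) / c + b) ^ p) := by
  have hp0 : 0 < p := by linarith
  have hip : 0 < 1 / p := by positivity
  have e2 : W₂ ^ (1 / p) ≤ ENNReal.ofReal b := by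
    calc W₂ ^ (1 / p) ≤ (ENNReal.ofReal (b ^ p)) ^ (1 / p) := ENNReal.rpow_le_rpow h2 hip.le
      _ = ENNReal.ofReal b := by
        rw [ENNReal.ofReal_rpow_of_nonneg (by positivity) hip.le, ← Real.rpow_mul hb,
          mul_one_div_cancel hp0.ne', Real.rpow_one]
  have e3 : W₃ ^ (1 / p) ≤ ENNReal.ofReal (s ^ (1 / p) / c) := by
    have h5 : ENNReal.ofReal c * W₃ ^ (1 / p) ≤ ENNReal.ofReal (s ^ (1 / p)) := by
      calc ENNReal.ofReal c * W₃ ^ (1 / p) ≤ W₄ ^ (1 / p) := h3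
        _ ≤ (ENNReal.ofReal s) ^ (1 / p) := ENNReal.rpow_le_rpow h4 hip.le
        _ = ENNReal.ofReal (s ^ (1 / p)) := ENNReal.ofReal_rpow_of_nonneg hs hip.le
    have hc' : ENNReal.ofReal c ≠ 0 := by simpa using hc
    rw [ENNReal.ofReal_div_of_pos hc, ENNReal.le_div_iff_mul_le (Or.inl hc')
      (Or.inl ENNReal.ofReal_ne_top), mul_comm]
    exact h5
  have e1 : W₁ ^ (1 / p) ≤ ENNReal.ofReal (s ^ (1 / p) / c + b) := by
    rw [add_comm, ENNReal.ofReal_add hb (by positivity)]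
    exact h1.trans (add_le_add e2 e3)
  have e4 : W₁ = (W₁ ^ (1 / p)) ^ p := by
    rw [← ENNReal.rpow_mul, one_div_mul_cancel hp0.ne', ENNReal.rpow_one]
  rw [e4]
  calc (W₁ ^ (1 / p)) ^ p ≤ (ENNReal.ofReal (s ^ (1 / p) / c + b)) ^ p :=
        ENNReal.rpow_le_rpow e1 hp0.le
    _ = ENNReal.ofReal ((s ^ (1 / p) / c + b) ^ p) :=
        ENNReal.ofReal_rpow_of_nonneg (by positivity) hp0.le

/-! ### The densities -/

lemma H2_cidx_lt {m n : ℕ} (ω : Seqs m n) (j : ℕ) (i : Fin n) :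
    (cidx ω j i).1 < m ^ j ∧ (cidx ω j i).2 < m ^ j := by
  induction j with
  | zero => simp [cidx]
  | succ j ih =>
    have h1 := (ω j i).1.2
    have h2 := (ω j i).2.2
    have key : ∀ a d : ℕ, a < m ^ j → d < m → m * a + d < m ^ (j + 1) := by
      intro a d ha hd
      calc m * a + d < m * a + m := by omega
        _ = m * (a + 1) := by ring
        _ ≤ m * m ^ j := Nat.mul_le_mul_left m ha
        _ = m ^ (j + 1) := by ring
    exact ⟨key _ _ ih.1 h1, key _ _ ih.2 h2⟩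

lemma H2_rdens_nonneg {m n : ℕ} (ω : Seqs m n) (j : ℕ) (q : ℕ × ℕ) : 0 ≤ rdens ω j q := by
  unfold rdens
  positivity

lemma H2_rdens_le {m n : ℕ} (ω : Seqs m n) (j : ℕ) (q : ℕ × ℕ) :
    rdens ω j q ≤ (m : ℝ) ^ (2 * j) := by
  unfold rdens
  have h : ((inCell ω j q).card : ℝ) ≤ n := by
    have := (Finset.card_le_univ (inCell ω j q))
    rw [Fintype.card_fin] at this
    exact_mod_cast this
  rcases Nat.eq_zero_or_pos n with h0 | h0
  · have h1 : (n : ℝ) = 0 := by exact_mod_cast h0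
    rw [h1, div_zero]
    positivity
  · have hn : (0 : ℝ) < n := by exact_mod_cast h0
    rw [div_le_iff₀ hn]
    gcongr

lemma H2_qidx_meas (m j : ℕ) : Measurable (qidx m j) := by
  unfold qidx
  exact (Nat.measurable_floor.comp (measurable_fst.const_mul _)).prodMk
    (Nat.measurable_floor.comp (measurable_snd.const_mul _))

lemma H2_rhoJ_meas {m n : ℕ} (ω : Seqs m n) (j : ℕ) : Measurable (rhoJ ω j) :=
  (Measurable.of_discrete (f := rdens ω j)).comp (H2_qidx_meas m j)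

lemma H2_rhoJ_nonneg {m n : ℕ} (ω : Seqs m n) (j : ℕ) (z : ℝ × ℝ) : 0 ≤ rhoJ ω j z :=
  H2_rdens_nonneg _ _ _

lemma H2_rhoJ_le {m n : ℕ} (ω : Seqs m n) (j : ℕ) (z : ℝ × ℝ) : rhoJ ω j z ≤ (m : ℝ) ^ (2 * j) :=
  H2_rdens_le _ _ _

lemma H2_rhoJ_int {m n : ℕ} (ω : Seqs m n) (j : ℕ) : Integrable (rhoJ ω j) U :=
  H2_integrable (H2_rhoJ_meas ω j) (C := (m : ℝ) ^ (2 * j)) fun z _ => by
    rw [abs_of_nonneg (H2_rhoJ_nonneg ω j z)]
    exact H2_rhoJ_le ω j z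

lemma H2_mass (hC5 : StmtC5) {m n : ℕ} (hm : 0 < m) (hn : 0 < n) (ω : Seqs m n) (J : ℕ) :
    ∫ z, rhoJ ω J z ∂U = 1 := by
  have := H2_U_prob
  have h := hC5 m J hm (fun q _ => rdens ω J q) (fun q => measurable_const)
    ⟨(m : ℝ) ^ (2 * J), fun q y _ => by
      rw [abs_of_nonneg (H2_rdens_nonneg ω J q)]
      exact H2_rdens_le ω J q⟩
  have e : ∫ z, rhoJ ω J z ∂U = ∫ z, rdens ω J (qidx m J z) ∂U := rfl
  rw [e, h]
  simp only [integral_const, probReal_univ, one_smul]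
  have hcard : ∑ q ∈ Finset.range (m ^ J) ×ˢ Finset.range (m ^ J), (inCell ω J q).card = n := by
    have h1 := Finset.card_eq_sum_card_fiberwise (s := (Finset.univ : Finset (Fin n)))
      (t := Finset.range (m ^ J) ×ˢ Finset.range (m ^ J)) (f := cidx ω J) (by
        intro i _
        have := H2_cidx_lt ω J i
        simp [this.1, this.2])
    rw [Finset.card_univ, Fintype.card_fin] at h1
    exact h1.symm
  have hm' : (m : ℝ) ≠ 0 := by exact_mod_cast hm.ne'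
  have hn' : (n : ℝ) ≠ 0 := by exact_mod_cast hn.ne'
  unfold rdens
  rw [← Finset.sum_div, ← Finset.mul_sum, ← Nat.cast_sum, hcard]
  field_simp

lemma H2_dens_prob (hC5 : StmtC5) {m n : ℕ} (hm : 0 < m) (hn : 0 < n) (ω : Seqs m n) (J : ℕ) :
    IsProbabilityMeasure (dens (rhoJ ω J)) := by
  refine ⟨?_⟩
  unfold dens
  rw [withDensity_apply _ MeasurableSet.univ, Measure.restrict_univ,
    ← ofReal_integral_eq_lintegral_ofReal (H2_rhoJ_int ω J)
      (Eventually.of_forall fun z => H2_rhoJ_nonneg ω J z), H2_mass hC5 hm hn ω J,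
    ENNReal.ofReal_one]

lemma H2_emp_prob {n : ℕ} (hn : 0 < n) (X : Fin n → ℝ × ℝ) : IsProbabilityMeasure (emp n X) := by
  refine ⟨?_⟩
  unfold emp
  rw [Measure.smul_apply, Measure.finsetSum_apply]
  simp only [Measure.dirac_apply_of_mem (mem_univ _), Finset.sum_const, Finset.card_univ,
    Fintype.card_fin, nsmul_eq_mul, mul_one, smul_eq_mul]
  exact ENNReal.inv_mul_cancel (by exact_mod_cast hn.ne') (ENNReal.natCast_ne_top n)

lemma H2_flux_smul {b : ℝ × ℝ → ℝ × ℝ} {f : ℝ × ℝ → ℝ} (h : IsFlux b f) (c : ℝ) :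
    IsFlux (fun z => c • b z) (fun z => c * f z) := by
  obtain ⟨g1, g2, B, m1, m2, b1, b2, h1, h2, h3, h4, h5⟩ := h
  refine ⟨fun z => c * g1 z, fun z => c * g2 z, |c| * B, m1.const_mul c, m2.const_mul c,
    fun z => ?_, fun z => ?_, ?_, ?_, ?_, ?_, ?_⟩
  · rw [abs_mul]
    exact mul_le_mul_of_nonneg_left (b1 z) (abs_nonneg c)
  · rw [abs_mul]
    exact mul_le_mul_of_nonneg_left (b2 z) (abs_nonneg c)
  · intro x hx y hy
    rw [intervalIntegral.integral_const_mul, ← h1 x hx y hy]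
    rfl
  · intro y hy
    rw [intervalIntegral.integral_const_mul, h2 y hy, mul_zero]
  · intro x hx y hy
    rw [intervalIntegral.integral_const_mul, ← h3 x hx y hy]
    rfl
  · intro x hx
    rw [intervalIntegral.integral_const_mul, h4 x hx, mul_zero]
  · intro z hz
    rw [← mul_add, h5 z hz]

open Classical in
/-- The weight. -/
noncomputable def H2_w {m n : ℕ} (t : ℝ) (ω : Seqs m n) (J : ℕ) (z : ℝ × ℝ) : ℝ :=
  if 1 - t ≤ rhoJ ω J z then 1 - t else t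

lemma H2_w_meas {m n : ℕ} (t : ℝ) (ω : Seqs m n) (J : ℕ) : Measurable (H2_w t ω J) := by
  unfold H2_w
  exact Measurable.ite (measurableSet_le measurable_const (H2_rhoJ_meas ω J)) measurable_const
    measurable_const

lemma H2_w_pos {m n : ℕ} {t : ℝ} (h0 : 0 < t) (h1 : t ≤ 1 / 2) (ω : Seqs m n) (J : ℕ)
    (z : ℝ × ℝ) : 0 < H2_w t ω J z := by
  unfold H2_w
  split_ifs <;> linarith

/-- The transport bound for one configuration. -/
lemma H2_point (hA1 : StmtA1) (hA6 : StmtA6) (hA7 : StmtA7) (hC5 : StmtC5) (hD2 : StmtD2)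
    {p t : ℝ} (hp : 1 ≤ p) (ht0 : 0 < t) (ht1 : t ≤ 1 / 2) (ht2 : 0 < 1 - t ^ (1 / p))
    {m n J : ℕ} (hm : 2 ≤ m) (hn : 2 ≤ n) (ω : Seqs m n) (u : Fin n → ℝ × ℝ)
    (hu : ∀ i, u i ∈ Sq) (S : ℝ × ℝ → ℝ × ℝ) (hSm : Measurable S) {CS : ℝ}
    (hSb : ∀ z ∈ Sq, len (S z) ≤ CS)
    (hSf : IsFlux (fun z => Real.sqrt (Real.log n / n) • S z) (fun z => rhoJ ω J z - 1)) :
    Wpp p (emp n (fun i => emb m J (cidx ω J i) (u i))) U ≤
      ENNReal.ofReal (((Real.sqrt (Real.log n / n) ^ p *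
        ∫ z, len (S z) ^ p * H2_w t ω J z ^ (1 - p) ∂U) ^ (1 / p) / (1 - t ^ (1 / p)) +
          2 / (m : ℝ) ^ J) ^ p) := by
  have hp0 : 0 < p := by linarith
  have hmr : (0 : ℝ) < m := by exact_mod_cast (by omega : 0 < m)
  have hUp := H2_U_prob
  have hemp := H2_emp_prob (by omega : 0 < n) (fun i => emb m J (cidx ω J i) (u i))
  have hdens := H2_dens_prob hC5 (by omega : 0 < m) (by omega : 0 < n) ω J
  obtain ⟨σ, hσ⟩ : ∃ σ, σ = Real.sqrt (Real.log n / n) := ⟨_, rfl⟩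
  have hσ0 : 0 ≤ σ := by rw [hσ]; exact Real.sqrt_nonneg _
  rw [← hσ] at hSf ⊢
  have hw0 := H2_w_pos (m := m) (n := n) ht0 ht1 ω J
  have hIn : 0 ≤ ∫ z, len (S z) ^ p * H2_w t ω J z ^ (1 - p) ∂U :=
    integral_nonneg fun z => mul_nonneg (Real.rpow_nonneg (H2_len_nonneg _) _)
      (Real.rpow_nonneg (hw0 z).le _)
  refine H2_W hp (W₂ := Wpp p (emp n (fun i => emb m J (cidx ω J i) (u i))) (dens (rhoJ ω J)))
    (W₃ := Wpp p (dens (rhoJ ω J)) U)
    (W₄ := Wpp p (dens (fun z => (1 - t) * rhoJ ω J z + t)) U)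
    (by positivity) (by positivity) ht2 (hA1 p hp _ _ _ hemp hdens hUp)
    (hA6 p hp m n J hm (by omega) ω u hu)
    (hA7 p hp t ht0 (by linarith) _ (H2_rhoJ_meas ω J) (H2_rhoJ_nonneg ω J) hdens) ?_
  -- the flux bound
  have hflux : IsFlux (fun z => (1 - t) • (σ • S z)) (fun z => ((1 - t) * rhoJ ω J z + t) - 1) := by
    have h := H2_flux_smul hSf (1 - t)
    have e : (fun z => (1 - t) * (rhoJ ω J z - 1)) = fun z => ((1 - t) * rhoJ ω J z + t) - 1 := by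
      funext z
      ring
    rw [e] at h
    exact h
  have hcell : ∀ z : ℝ × ℝ, (⌊((m ^ J : ℕ) : ℝ) * z.1⌋₊, ⌊((m ^ J : ℕ) : ℝ) * z.2⌋₊) =
      qidx m J z := by
    intro z
    unfold qidx
    push_cast
    rfl
  have hD := hD2 p hp (m ^ J) (by positivity) (fun z => (1 - t) • (σ • S z))
    (fun z => (1 - t) * rhoJ ω J z + t) (H2_w t ω J)
    ((hSm.const_smul σ).const_smul (1 - t)) (((H2_rhoJ_meas ω J).const_mul _).add_const _)
    (H2_w_meas t ω J) hflux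
    ⟨fun q => (1 - t) * rdens ω J q + t, fun z _ => by rw [hcell]; rfl⟩
    (by
      classical
      refine ⟨fun q => if 1 - t ≤ rdens ω J q then 1 - t else t, fun z _ => ?_⟩
      rw [hcell]
      unfold H2_w rhoJ
      congr)
    (by
      intro z _
      refine ⟨hw0 z, ?_, ?_⟩
      · have hr := H2_rhoJ_nonneg ω J z
        unfold H2_w
        split_ifs with h
        · nlinarith
        · nlinarith
      · unfold H2_w
        split_ifs <;> linarith)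
  refine hD.trans (ENNReal.ofReal_le_ofReal ?_)
  rw [← integral_const_mul]
  have hCS : ∀ z ∈ Sq, len (S z) ^ p ≤ |CS| ^ p := fun z hz =>
    Real.rpow_le_rpow (H2_len_nonneg _) ((hSb z hz).trans (le_abs_self _)) hp0.le
  have hw1 : ∀ z, H2_w t ω J z ^ (1 - p) ≤ t ^ (1 - p) := by
    intro z
    refine Real.rpow_le_rpow_of_nonpos ht0 ?_ (by linarith)
    unfold H2_w
    split_ifs <;> linarith
  have hmeas : Measurable fun z => len (S z) ^ p * H2_w t ω J z ^ (1 - p) :=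
    ((H2_len_cont.measurable.comp hSm).pow_const p).mul ((H2_w_meas t ω J).pow_const (1 - p))
  have hint : Integrable (fun z => len (S z) ^ p * H2_w t ω J z ^ (1 - p)) U := by
    refine H2_integrable hmeas (C := |CS| ^ p * t ^ (1 - p)) fun z hz => ?_
    rw [abs_of_nonneg (mul_nonneg (Real.rpow_nonneg (H2_len_nonneg _) _)
      (Real.rpow_nonneg (hw0 z).le _))]
    exact mul_le_mul (hCS z hz) (hw1 z) (Real.rpow_nonneg (hw0 z).le _) (by positivity)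
  refine integral_mono_of_nonneg (Eventually.of_forall fun z => mul_nonneg
    (Real.rpow_nonneg (H2_len_nonneg _) _) (Real.rpow_nonneg (hw0 z).le _))
    (hint.const_mul _) (Eventually.of_forall fun z => ?_)
  simp only
  rw [H2_len_smul, H2_len_smul, abs_of_nonneg hσ0, abs_of_nonneg (by linarith : 0 ≤ 1 - t)]
  have h1 : ((1 - t) * (σ * len (S z))) ^ p ≤ σ ^ p * len (S z) ^ p := by
    rw [← Real.mul_rpow hσ0 (H2_len_nonneg _)]
    refine Real.rpow_le_rpow (mul_nonneg (by linarith) (mul_nonneg hσ0 (H2_len_nonneg _))) ?_ hp0.le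
    have : 0 ≤ σ * len (S z) := mul_nonneg hσ0 (H2_len_nonneg _)
    nlinarith
  calc ((1 - t) * (σ * len (S z))) ^ p * H2_w t ω J z ^ (1 - p)
      ≤ (σ ^ p * len (S z) ^ p) * H2_w t ω J z ^ (1 - p) :=
        mul_le_mul_of_nonneg_right h1 (Real.rpow_nonneg (hw0 z).le _)
    _ = σ ^ p * (len (S z) ^ p * H2_w t ω J z ^ (1 - p)) := by ring

/-! ### One scale -/

lemma H2_qidx_lt {m j : ℕ} (hm : 0 < m) {z : ℝ × ℝ} (hz : z ∈ Sq0) :
    (qidx m j z).1 < m ^ j ∧ (qidx m j z).2 < m ^ j := by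
  have hmr : (0 : ℝ) < (m : ℝ) ^ j := by
    have : (0 : ℝ) < m := by exact_mod_cast hm
    positivity
  unfold qidx
  constructor
  · rw [Nat.floor_lt (mul_nonneg hmr.le hz.1.1)]
    push_cast
    nlinarith [hz.1.2]
  · rw [Nat.floor_lt (mul_nonneg hmr.le hz.2.1)]
    push_cast
    nlinarith [hz.2.2]

lemma H2_var (hC2 : StmtC2) {m n J : ℕ} [NeZero m] (hm : 2 ≤ m) (hn : 0 < n)
    (hmJ : m ^ (2 * J) ≤ n) :
    EJ J (fun ω : Seqs m n => ∫ z, (rhoJ ω J z - 1) ^ 2 ∂U) ≤ (m : ℝ) ^ (2 * J) / n := by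
  refine H2_EJ_int_le J _ (fun ω => ?_) fun z hz => ?_
  · refine H2_integrable (((H2_rhoJ_meas ω J).sub_const 1).pow_const 2)
      (C := ((m : ℝ) ^ (2 * J) + 1) ^ 2) fun z _ => ?_
    rw [abs_pow]
    refine pow_le_pow_left₀ (abs_nonneg _) ?_ 2
    rw [abs_le]
    have h1 := H2_rhoJ_nonneg ω J z
    have h2 := H2_rhoJ_le ω J z
    constructor <;> linarith
  · have hq := H2_qidx_lt (j := J) (by omega : 0 < m) hz
    exact (hC2 m n J J hm hn le_rfl hmJ (qidx m J z) hq.1 hq.2).2.1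

lemma H2_ae_pi {n : ℕ} : ∀ᵐ u ∂(Measure.pi (fun _ : Fin n => U)), ∀ i, u i ∈ Sq := by
  have := H2_U_prob
  rw [ae_all_iff]
  intro i
  exact (Measure.tendsto_eval_ae_ae (μ := fun _ : Fin n => U) (i := i)).eventually H2_ae_Sq

lemma H2_len_Sq {x y : ℝ × ℝ} (hx : x ∈ Sq) (hy : y ∈ Sq) : len (x - y) ≤ 2 := by
  unfold len
  refine Real.sqrt_le_iff.mpr ⟨by norm_num, ?_⟩
  have h1 := hx.1.1
  have h2 := hx.1.2
  have h3 := hx.2.1
  have h4 := hx.2.2
  have h5 := hy.1.1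
  have h6 := hy.1.2
  have h7 := hy.2.1
  have h8 := hy.2.2
  simp only [Prod.fst_sub, Prod.snd_sub]
  nlinarith

lemma H2_emp_compl {n : ℕ} {X : Fin n → ℝ × ℝ} (hX : ∀ i, X i ∈ Sq) : emp n X Sqᶜ = 0 := by
  have hm : MeasurableSet (Sqᶜ : Set (ℝ × ℝ)) :=
    (measurableSet_Icc.prod measurableSet_Icc).compl
  unfold emp
  rw [Measure.smul_apply, Measure.finsetSum_apply]
  have : ∀ i, (Measure.dirac (X i)) (Sqᶜ : Set (ℝ × ℝ)) = 0 := fun i => by
    rw [Measure.dirac_apply' _ hm]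
    simp [hX i]
  simp [this]

lemma H2_U_compl : U Sqᶜ = 0 := by
  have hm : MeasurableSet (Sqᶜ : Set (ℝ × ℝ)) :=
    (measurableSet_Icc.prod measurableSet_Icc).compl
  unfold U
  rw [Measure.restrict_apply hm]
  simp

lemma H2_Wpp_le {p : ℝ} (hp : 1 ≤ p) {n : ℕ} (hn : 0 < n) {X : Fin n → ℝ × ℝ}
    (hX : ∀ i, X i ∈ Sq) : Wpp p (emp n X) U ≤ ENNReal.ofReal (2 ^ p) :=
  A2.2 p hp _ _ Sq Sq 2 (H2_emp_prob hn X) H2_U_prob (by norm_num) (H2_emp_compl hX) H2_U_compl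
    fun x hx y hy => H2_len_Sq hx hy

lemma H2_step (hA1 : StmtA1) (hA4 : StmtA4) (hA6 : StmtA6) (hA7 : StmtA7) (hB1 : StmtB1)
    (hC2 : StmtC2) (hC5 : StmtC5) (hD2 : StmtD2)
    {p t : ℝ} (hp : 1 ≤ p) (ht0 : 0 < t) (ht1 : t ≤ 1 / 2) (ht2 : 0 < 1 - t ^ (1 / p))
    {C : ℝ} (hC : ∀ a b : ℝ, 0 ≤ a → 0 ≤ b → (a + b) ^ p ≤ (1 + t) * a ^ p + C * b ^ p)
    {m n J k : ℕ} [NeZero m] (hm : 2 ≤ m) (hn : 2 ≤ n) (hmJ : m ^ (2 * J) ≤ n)
    (S : Seqs m n → ℝ × ℝ → ℝ × ℝ) (hSm : ∀ ω, Measurable (S ω)) {CS : ℝ}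
    (hSb : ∀ ω, ∀ z ∈ Sq, len (S ω z) ≤ CS)
    (hSf : ∀ ω, IsFlux (fun z => Real.sqrt (Real.log n / n) • S ω z) (fun z => rhoJ ω J z - 1))
    {a₁ D A : ℝ} (hM1 : EJ J (fun ω => ∫ z, len (S ω z) ^ p ∂U) ≤ a₁)
    (hM2 : ∀ z ∈ Sq0, EJ J (fun ω => len (S ω z) ^ (2 * k)) ≤ D) (hk : p ≤ 2 * k) (hA : 0 < A) :
    EW p n ≤ (1 + t) / (1 - t ^ (1 / p)) ^ p * Real.sqrt (Real.log n / n) ^ p *
      ((1 - t) ^ (1 - p) * a₁ + t ^ (1 - p) *
        (A ^ p * ((m : ℝ) ^ (2 * J) / n / t ^ 2) + A ^ (p - 2 * k) * D)) +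
      C * (2 / (m : ℝ) ^ J) ^ p := by
  have hp0 : 0 < p := by linarith
  have hUp := H2_U_prob
  have hn0 : 0 < n := by omega
  have hmr : (0 : ℝ) < m := by exact_mod_cast (by omega : 0 < m)
  obtain ⟨σ, hσ⟩ : ∃ σ, σ = Real.sqrt (Real.log n / n) := ⟨_, rfl⟩
  have hσ0 : 0 ≤ σ := by rw [hσ]; exact Real.sqrt_nonneg _
  obtain ⟨I, hI⟩ : ∃ I : Seqs m n → ℝ, ∀ ω, I ω =
      ∫ z, len (S ω z) ^ p * H2_w t ω J z ^ (1 - p) ∂U := ⟨_, fun _ => rfl⟩
  have hI0 : ∀ ω, 0 ≤ I ω := fun ω => by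
    rw [hI]
    exact integral_nonneg fun z => mul_nonneg (Real.rpow_nonneg (H2_len_nonneg _) _)
      (Real.rpow_nonneg (H2_w_pos ht0 ht1 ω J z).le _)
  -- integrability
  have hlenp : ∀ ω, Integrable (fun z => len (S ω z) ^ p) U := fun ω => by
    refine H2_integrable ((H2_len_cont.measurable.comp (hSm ω)).pow_const p)
      (C := |CS| ^ p) fun z hz => ?_
    rw [abs_of_nonneg (Real.rpow_nonneg (H2_len_nonneg _) _)]
    exact Real.rpow_le_rpow (H2_len_nonneg _) ((hSb ω z hz).trans (le_abs_self _)) hp0.le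
  have hlenk : ∀ ω, Integrable (fun z => len (S ω z) ^ (2 * k)) U := fun ω => by
    refine H2_integrable ((H2_len_cont.measurable.comp (hSm ω)).pow_const (2 * k))
      (C := |CS| ^ (2 * k)) fun z hz => ?_
    rw [abs_of_nonneg (pow_nonneg (H2_len_nonneg _) _)]
    exact pow_le_pow_left₀ (H2_len_nonneg _) ((hSb ω z hz).trans (le_abs_self _)) _
  have hrho : ∀ ω : Seqs m n, Integrable (fun z => (rhoJ ω J z - 1) ^ 2) U := fun ω => by
    refine H2_integrable (((H2_rhoJ_meas ω J).sub_const 1).pow_const 2)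
      (C := ((m : ℝ) ^ (2 * J) + 1) ^ 2) fun z _ => ?_
    rw [abs_pow]
    refine pow_le_pow_left₀ (abs_nonneg _) ?_ 2
    rw [abs_le]
    have h1 := H2_rhoJ_nonneg ω J z
    have h2 := H2_rhoJ_le ω J z
    constructor <;> linarith
  -- step one: the mean over the local coordinates
  have h1 : EW p n ≤ EJ J (fun ω : Seqs m n =>
      ((1 + t) / (1 - t ^ (1 / p)) ^ p * σ ^ p) * I ω + C * (2 / (m : ℝ) ^ J) ^ p) := by
    unfold EW
    rw [hB1 m n J (fun X => (Wpp p (emp n X) U).toReal) (hA4 p hp n hn0)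
      ⟨2 ^ p, fun X hX => by
        rw [abs_of_nonneg ENNReal.toReal_nonneg]
        exact ENNReal.toReal_le_of_le_ofReal (by positivity) (H2_Wpp_le hp hn0 hX)⟩]
    refine H2_EJ_mono J fun ω => ?_
    have hpi : IsProbabilityMeasure (Measure.pi (fun _ : Fin n => U)) := inferInstance
    calc ∫ u, (Wpp p (emp n fun i => emb m J (cidx ω J i) (u i)) U).toReal
          ∂(Measure.pi (fun _ : Fin n => U))
        ≤ ∫ _, (((1 + t) / (1 - t ^ (1 / p)) ^ p * σ ^ p) * I ω + C * (2 / (m : ℝ) ^ J) ^ p)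
          ∂(Measure.pi (fun _ : Fin n => U)) := by
          refine integral_mono_of_nonneg (Eventually.of_forall fun u => ENNReal.toReal_nonneg)
            (integrable_const _) (H2_ae_pi.mono fun u hu => ?_)
          have hpt := H2_point hA1 hA6 hA7 hC5 hD2 hp ht0 ht1 ht2 hm hn ω u hu (S ω) (hSm ω)
            (hSb ω) (hSf ω)
          rw [← hσ, ← hI ω] at hpt
          have hx0 : 0 ≤ (σ ^ p * I ω) ^ (1 / p) / (1 - t ^ (1 / p)) := by
            have := hI0 ω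
            positivity
          have hb0 : (0 : ℝ) ≤ 2 / (m : ℝ) ^ J := by positivity
          refine (ENNReal.toReal_le_of_le_ofReal (by positivity) hpt).trans ?_
          refine (hC _ _ hx0 hb0).trans (le_of_eq ?_)
          have hs : 0 ≤ σ ^ p * I ω := mul_nonneg (Real.rpow_nonneg hσ0 _) (hI0 ω)
          rw [Real.div_rpow (by positivity) ht2.le, ← Real.rpow_mul hs, one_div_mul_cancel hp0.ne',
            Real.rpow_one]
          ring
      _ = _ := by simp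
  rw [H2_EJ_add, H2_EJ_const, H2_EJ_mul] at h1
  rw [← hσ]
  refine h1.trans (add_le_add_left (mul_le_mul_of_nonneg_left ?_ (by positivity)) _)
  -- step two: the bad cells
  have hIle : ∀ ω : Seqs m n, I ω ≤ ∫ z, ((1 - t) ^ (1 - p) * len (S ω z) ^ p + t ^ (1 - p) *
      ((A ^ p / t ^ 2) * (rhoJ ω J z - 1) ^ 2 + A ^ (p - 2 * k) * len (S ω z) ^ (2 * k))) ∂U := by
    intro ω
    rw [hI]
    refine integral_mono_of_nonneg (Eventually.of_forall fun z => mul_nonneg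
      (Real.rpow_nonneg (H2_len_nonneg _) _)
      (Real.rpow_nonneg (H2_w_pos ht0 ht1 ω J z).le _)) ?_ (Eventually.of_forall fun z => ?_)
    · exact ((hlenp ω).const_mul _).add ((((hrho ω).const_mul _).add
        ((hlenk ω).const_mul _)).const_mul _)
    · simp only
      have n1 : 0 ≤ len (S ω z) ^ p := Real.rpow_nonneg (H2_len_nonneg _) _
      have n2 : 0 ≤ (1 - t) ^ (1 - p) := Real.rpow_nonneg (by linarith) _
      have n3 : 0 ≤ t ^ (1 - p) := Real.rpow_nonneg ht0.le _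
      have n4 : 0 ≤ A ^ (p - 2 * k) := Real.rpow_nonneg hA.le _
      have n5 : 0 ≤ len (S ω z) ^ (2 * k) := pow_nonneg (H2_len_nonneg _) _
      have n6 : 0 ≤ A ^ p := Real.rpow_nonneg hA.le _
      unfold H2_w
      split_ifs with hcase
      · have : 0 ≤ t ^ (1 - p) *
          ((A ^ p / t ^ 2) * (rhoJ ω J z - 1) ^ 2 + A ^ (p - 2 * k) * len (S ω z) ^ (2 * k)) := by
          positivity
        nlinarith
      · have hb := H2_pow_bad hp hA (H2_len_nonneg (S ω z)) hk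
        have hr : 1 ≤ (rhoJ ω J z - 1) ^ 2 / t ^ 2 := by
          rw [le_div_iff₀ (by positivity), one_mul]
          have : t < 1 - rhoJ ω J z := by linarith
          nlinarith
        have h2 : len (S ω z) ^ p ≤ (A ^ p / t ^ 2) * (rhoJ ω J z - 1) ^ 2 +
            A ^ (p - 2 * k) * len (S ω z) ^ (2 * k) := by
          have : A ^ p ≤ (A ^ p / t ^ 2) * (rhoJ ω J z - 1) ^ 2 := by
            calc A ^ p = A ^ p * 1 := (mul_one _).symm
              _ ≤ A ^ p * ((rhoJ ω J z - 1) ^ 2 / t ^ 2) := mul_le_mul_of_nonneg_left hr n6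
              _ = (A ^ p / t ^ 2) * (rhoJ ω J z - 1) ^ 2 := by ring
          linarith
        have h3 : len (S ω z) ^ p * t ^ (1 - p) ≤ t ^ (1 - p) * ((A ^ p / t ^ 2) *
            (rhoJ ω J z - 1) ^ 2 + A ^ (p - 2 * k) * len (S ω z) ^ (2 * k)) := by
          rw [mul_comm]
          exact mul_le_mul_of_nonneg_left h2 n3
        have h4 : 0 ≤ (1 - t) ^ (1 - p) * len (S ω z) ^ p := mul_nonneg n2 n1
        linarith
  refine (H2_EJ_mono J hIle).trans ?_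
  have hsplit : ∀ ω : Seqs m n, ∫ z, ((1 - t) ^ (1 - p) * len (S ω z) ^ p + t ^ (1 - p) *
      ((A ^ p / t ^ 2) * (rhoJ ω J z - 1) ^ 2 + A ^ (p - 2 * k) * len (S ω z) ^ (2 * k))) ∂U =
      (1 - t) ^ (1 - p) * (∫ z, len (S ω z) ^ p ∂U) + t ^ (1 - p) *
      ((A ^ p / t ^ 2) * (∫ z, (rhoJ ω J z - 1) ^ 2 ∂U) +
        A ^ (p - 2 * k) * (∫ z, len (S ω z) ^ (2 * k) ∂U)) := by
    intro ω
    have i3 : Integrable (fun z => (A ^ p / t ^ 2) * (rhoJ ω J z - 1) ^ 2 +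
        A ^ (p - 2 * k) * len (S ω z) ^ (2 * k)) U :=
      ((hrho ω).const_mul _).add ((hlenk ω).const_mul _)
    rw [integral_add ((hlenp ω).const_mul _) (i3.const_mul _), integral_const_mul,
      integral_const_mul, integral_add ((hrho ω).const_mul _) ((hlenk ω).const_mul _), integral_const_mul,
      integral_const_mul]
  simp only [hsplit]
  rw [H2_EJ_add, H2_EJ_mul, H2_EJ_mul, H2_EJ_add, H2_EJ_mul, H2_EJ_mul]
  have hv := H2_var hC2 hm hn0 hmJ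
  have hk2 : EJ J (fun ω => ∫ z, len (S ω z) ^ (2 * k) ∂U) ≤ D := H2_EJ_int_le J _ hlenk hM2
  have n2 : 0 ≤ (1 - t) ^ (1 - p) := Real.rpow_nonneg (by linarith) _
  have n3 : 0 ≤ t ^ (1 - p) := Real.rpow_nonneg ht0.le _
  have n4 : 0 ≤ A ^ (p - 2 * k) := Real.rpow_nonneg hA.le _
  have n6 : 0 ≤ A ^ p / t ^ 2 := by positivity
  have e : A ^ p * ((m : ℝ) ^ (2 * J) / n / t ^ 2) = (A ^ p / t ^ 2) * ((m : ℝ) ^ (2 * J) / n) := by
    ring
  rw [e]
  gcongr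

/-! ### Moments -/

lemma H2_len_integrable {p CS : ℝ} (hp : 0 < p) {S : ℝ × ℝ → ℝ × ℝ} (hS : Measurable S)
    (hSb : ∀ z ∈ Sq, len (S z) ≤ CS) : Integrable (fun z => len (S z) ^ p) U := by
  refine H2_integrable ((H2_len_cont.measurable.comp hS).pow_const p) (C := |CS| ^ p) fun z hz => ?_
  rw [abs_of_nonneg (Real.rpow_nonneg (H2_len_nonneg _) _)]
  exact Real.rpow_le_rpow (H2_len_nonneg _) ((hSb z hz).trans (le_abs_self _)) hp.le

lemma H2_len_integrable_nat {CS : ℝ} (k : ℕ) {S : ℝ × ℝ → ℝ × ℝ} (hS : Measurable S)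
    (hSb : ∀ z ∈ Sq, len (S z) ≤ CS) : Integrable (fun z => len (S z) ^ k) U := by
  refine H2_integrable ((H2_len_cont.measurable.comp hS).pow_const k) (C := |CS| ^ k) fun z hz => ?_
  rw [abs_of_nonneg (pow_nonneg (H2_len_nonneg _) _)]
  exact pow_le_pow_left₀ (H2_len_nonneg _) ((hSb z hz).trans (le_abs_self _)) _

lemma H2_err {m n J k : ℕ} [NeZero m] {p s A : ℝ} (hp : 1 ≤ p) (hs : 0 < s) (hsA : s ≤ A)
    (hk : p ≤ 2 * k) (S : Seqs m n → ℝ × ℝ → ℝ × ℝ) (hSm : ∀ ω, Measurable (S ω)) {CS : ℝ}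
    (hSb : ∀ ω, ∀ z ∈ Sq, len (S ω z) ≤ CS) {E₂ D : ℝ}
    (h2 : EJ J (fun ω => ∫ z, len (S ω z) ^ 2 ∂U) ≤ E₂)
    (hD : ∀ z ∈ Sq0, EJ J (fun ω => len (S ω z) ^ (2 * k)) ≤ D) :
    EJ J (fun ω => ∫ z, len (S ω z) ^ p ∂U) ≤
      s ^ p + (s ^ (p - 2) + A ^ (p - 2)) * E₂ + A ^ (p - 2 * k) * D := by
  have hUp := H2_U_prob
  have hA : 0 < A := hs.trans_le hsA
  have i2 : ∀ ω, Integrable (fun z => len (S ω z) ^ 2) U := fun ω =>
    H2_len_integrable_nat 2 (hSm ω) (hSb ω)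
  have ik : ∀ ω, Integrable (fun z => len (S ω z) ^ (2 * k)) U := fun ω =>
    H2_len_integrable_nat (2 * k) (hSm ω) (hSb ω)
  have h1 : ∀ ω : Seqs m n, ∫ z, len (S ω z) ^ p ∂U ≤
      s ^ p + ((s ^ (p - 2) + A ^ (p - 2)) * (∫ z, len (S ω z) ^ 2 ∂U) +
        A ^ (p - 2 * k) * ∫ z, len (S ω z) ^ (2 * k) ∂U) := by
    intro ω
    have i3 : Integrable (fun z => (s ^ (p - 2) + A ^ (p - 2)) * len (S ω z) ^ 2 +
        A ^ (p - 2 * k) * len (S ω z) ^ (2 * k)) U := ((i2 ω).const_mul _).add ((ik ω).const_mul _)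
    calc ∫ z, len (S ω z) ^ p ∂U ≤ ∫ z, (s ^ p + ((s ^ (p - 2) + A ^ (p - 2)) * len (S ω z) ^ 2 +
        A ^ (p - 2 * k) * len (S ω z) ^ (2 * k))) ∂U := by
          refine integral_mono (H2_len_integrable (by linarith) (hSm ω) (hSb ω))
            ((integrable_const _).add i3) fun z => ?_
          have := H2_pow_split hp hs hsA (H2_len_nonneg (S ω z)) hk
          simp only
          linarith
      _ = _ := by
          rw [integral_add (integrable_const _) i3, integral_add ((i2 ω).const_mul _)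
            ((ik ω).const_mul _), integral_const_mul, integral_const_mul]
          simp
  refine (H2_EJ_mono J h1).trans ?_
  rw [H2_EJ_add, H2_EJ_const, H2_EJ_add, H2_EJ_mul, H2_EJ_mul]
  have hk2 : EJ J (fun ω => ∫ z, len (S ω z) ^ (2 * k) ∂U) ≤ D := H2_EJ_int_le J _ ik hD
  have n1 : 0 ≤ s ^ (p - 2) + A ^ (p - 2) := by positivity
  have n2 : 0 ≤ A ^ (p - 2 * k) := by positivity
  nlinarith [mul_le_mul_of_nonneg_left h2 n1, mul_le_mul_of_nonneg_left hk2 n2]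

lemma H2_sum {m n J : ℕ} [NeZero m] {p δ C : ℝ} (hp : 1 ≤ p) (hδ : 0 ≤ δ) (hC0 : 0 ≤ C)
    (hC : ∀ a b : ℝ, 0 ≤ a → 0 ≤ b → (a + b) ^ p ≤ (1 + δ) * a ^ p + C * b ^ p)
    (S S' : Seqs m n → ℝ × ℝ → ℝ × ℝ) (hSm : ∀ ω, Measurable (S ω)) (hSm' : ∀ ω, Measurable (S' ω))
    {CS CS' : ℝ} (hSb : ∀ ω, ∀ z ∈ Sq, len (S ω z) ≤ CS)
    (hSb' : ∀ ω, ∀ z ∈ Sq, len (S' ω z) ≤ CS') {a b : ℝ}
    (h1 : EJ J (fun ω => ∫ z, len (S ω z) ^ p ∂U) ≤ a)
    (h2 : EJ J (fun ω => ∫ z, len (S' ω z) ^ p ∂U) ≤ b) :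
    EJ J (fun ω => ∫ z, len (S ω z + S' ω z) ^ p ∂U) ≤ (1 + δ) * a + C * b := by
  have hp0 : 0 < p := by linarith
  have i1 : ∀ ω, Integrable (fun z => len (S ω z) ^ p) U := fun ω =>
    H2_len_integrable hp0 (hSm ω) (hSb ω)
  have i2 : ∀ ω, Integrable (fun z => len (S' ω z) ^ p) U := fun ω =>
    H2_len_integrable hp0 (hSm' ω) (hSb' ω)
  have h3 : ∀ ω : Seqs m n, ∫ z, len (S ω z + S' ω z) ^ p ∂U ≤
      (1 + δ) * (∫ z, len (S ω z) ^ p ∂U) + C * ∫ z, len (S' ω z) ^ p ∂U := by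
    intro ω
    rw [← integral_const_mul, ← integral_const_mul,
      ← integral_add ((i1 ω).const_mul _) ((i2 ω).const_mul _)]
    refine integral_mono_of_nonneg (Eventually.of_forall fun z =>
      Real.rpow_nonneg (H2_len_nonneg _) _) (((i1 ω).const_mul _).add ((i2 ω).const_mul _))
      (Eventually.of_forall fun z => ?_)
    exact (Real.rpow_le_rpow (H2_len_nonneg _) (H2_len_add _ _) hp0.le).trans
      (hC _ _ (H2_len_nonneg _) (H2_len_nonneg _))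
  refine (H2_EJ_mono J h3).trans ?_
  rw [H2_EJ_add, H2_EJ_mul, H2_EJ_mul]
  gcongr

/-- Number of generations: consequences of H0. -/
lemma H2_J {m n J : ℕ} (hm : 2 ≤ m) (hn : 3 ≤ n)
    (h1 : (m : ℝ) ^ (2 * J) * Real.log n ^ (1 / 2 : ℝ) ≤ n) :
    1 ≤ Real.log n ∧ m ^ (2 * J) ≤ n ∧ (J : ℝ) / Real.log n ≤ 1 / (2 * Real.log m) ∧
      (m : ℝ) ^ (2 * J) / n ≤ Real.log n ^ (-(1 / 2) : ℝ) := by
  have hn0 : (0 : ℝ) < n := by exact_mod_cast (by omega : 0 < n)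
  have hlog : 1 ≤ Real.log n := by
    rw [Real.le_log_iff_exp_le hn0]
    have h3 : (3 : ℝ) ≤ n := by exact_mod_cast hn
    have := Real.exp_one_lt_d9
    linarith
  have hl0 : 0 < Real.log n := by linarith
  have hs1 : 1 ≤ Real.log n ^ (1 / 2 : ℝ) := Real.one_le_rpow hlog (by norm_num)
  have hmr : (1 : ℝ) < m := by exact_mod_cast (by omega : 1 < m)
  have hmp : (0 : ℝ) < (m : ℝ) ^ (2 * J) := by positivity
  have h2 : (m : ℝ) ^ (2 * J) ≤ n := by nlinarith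
  have hlm : 0 < Real.log m := Real.log_pos hmr
  refine ⟨hlog, by exact_mod_cast h2, ?_, ?_⟩
  · have h3 := Real.log_le_log hmp h2
    rw [Real.log_pow] at h3
    push_cast at h3
    rw [div_le_div_iff₀ hl0 (by positivity)]
    nlinarith
  · rw [Real.rpow_neg hl0.le, div_le_iff₀ hn0, inv_mul_eq_div, le_div_iff₀ (by positivity)]
    exact h1

/-- The last term. -/
lemma H2_tail {p : ℝ} (hp : 1 ≤ p) {m n J : ℕ} (hm : 2 ≤ m) (hn : 3 ≤ n) (hlog : 1 ≤ Real.log n)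
    (h2 : (n : ℝ) ≤ (m : ℝ) ^ 2 * ((m : ℝ) ^ (2 * J) * Real.log n ^ (1 / 2 : ℝ))) :
    (2 / (m : ℝ) ^ J) ^ p ≤
      (4 * (m : ℝ) ^ 2) ^ (p / 2) * Real.log n ^ (-(p / 4)) * (Real.log n / n) ^ (p / 2) := by
  have hn0 : (0 : ℝ) < n := by exact_mod_cast (by omega : 0 < n)
  have hmr : (0 : ℝ) < m := by exact_mod_cast (by omega : 0 < m)
  have hl0 : 0 < Real.log n := by linarith
  have e1 : (2 / (m : ℝ) ^ J) ^ p = ((2 / (m : ℝ) ^ J) ^ 2) ^ (p / 2) := by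
    rw [← Real.rpow_natCast (2 / (m : ℝ) ^ J) 2, ← Real.rpow_mul (by positivity)]
    congr 1
    push_cast
    ring
  have e2 : (4 * (m : ℝ) ^ 2) ^ (p / 2) * Real.log n ^ (-(p / 4)) * (Real.log n / n) ^ (p / 2) =
      (4 * (m : ℝ) ^ 2 * Real.log n ^ (-(1 / 2) : ℝ) * (Real.log n / n)) ^ (p / 2) := by
    have a1 : (Real.log n ^ (-(1 / 2) : ℝ)) ^ (p / 2) = Real.log n ^ (-(p / 4)) := by
      rw [← Real.rpow_mul hl0.le]
      congr 1
      ring
    rw [← a1, ← Real.mul_rpow (by positivity) (by positivity),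
      ← Real.mul_rpow (by positivity) (by positivity)]
  rw [e1, e2]
  refine Real.rpow_le_rpow (by positivity) ?_ (by linarith)
  have e3 : Real.log n ^ (-(1 / 2) : ℝ) * Real.log n = Real.log n ^ (1 / 2 : ℝ) := by
    nth_rewrite 2 [← Real.rpow_one (Real.log n)]
    rw [← Real.rpow_add hl0]
    norm_num
  have e4 : 4 * (m : ℝ) ^ 2 * Real.log n ^ (-(1 / 2) : ℝ) * (Real.log n / n) =
      4 * (m : ℝ) ^ 2 * Real.log n ^ (1 / 2 : ℝ) / n := by
    rw [← e3]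
    ring
  rw [e4, div_pow, le_div_iff₀ hn0, div_mul_eq_mul_div, div_le_iff₀ (by positivity)]
  have e5 : ((m : ℝ) ^ J) ^ 2 = (m : ℝ) ^ (2 * J) := by
    rw [← pow_mul, mul_comm]
  rw [e5]
  nlinarith

lemma H2_tendsto_log {q : ℝ} (hq : 0 < q) (c : ℝ) :
    Tendsto (fun n : ℕ => c * Real.log n ^ (-q)) atTop (𝓝 0) := by
  have h1 : Tendsto (fun n : ℕ => Real.log n) atTop atTop :=
    Real.tendsto_log_atTop.comp tendsto_natCast_atTop_atTop
  have h2 := ((tendsto_rpow_neg_atTop hq).comp h1).const_mul c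
  simpa using h2

theorem H2 (hA1 : StmtA1) (hA4 : StmtA4) (hA6 : StmtA6) (hA7 : StmtA7) (hB1 : StmtB1)
    (hC2 : StmtC2) (hC4 : StmtC4) (hC5 : StmtC5) (hC7 : StmtC7) (hC8 : StmtC8) (hD2 : StmtD2)
    (hD3 : StmtD3) (hE : StmtE) (hH1 : StmtH1) : StmtH2 := by
  intro p hp κ V G H hV ε hε
  have hp0 : 0 < p := by linarith
  have hUp := H2_U_prob
  have hκ : 0 ≤ κ := by
    have h1 := hV.lower 1 one_pos 0
    rw [hV.zero 1 one_pos, Real.one_rpow, mul_one] at h1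
    exact (Real.rpow_nonneg (H2_len_nonneg _) _).trans h1
  obtain ⟨K, hK⟩ : ∃ K, K = κ / (8 * Real.pi) ^ (p / 2) := ⟨_, rfl⟩
  have hK0 : 0 ≤ K := by rw [hK]; positivity
  rw [← hK]
  -- the small parameter
  obtain ⟨t, ht0, ht1, ht2, ht3⟩ := H2_exists_t (θ := (K + ε / 2) / (K + ε / 4)) hp (by
    rw [one_lt_div (by positivity)]
    linarith)
  obtain ⟨C, hC1, hC⟩ := A0 p hp t ht0
  obtain ⟨δ₃, hδ₃⟩ : ∃ δ₃, δ₃ = (ε / 16) / (K + ε / 8) := ⟨_, rfl⟩
  have hδ₃0 : 0 < δ₃ := by rw [hδ₃]; positivity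
  obtain ⟨C₃, hC31, hC3⟩ := A0 p hp δ₃ hδ₃0
  obtain ⟨k, hk⟩ : ∃ k : ℕ, p < 2 * k := by
    obtain ⟨k, hk⟩ := exists_nat_gt p
    exact ⟨k, by linarith⟩
  obtain ⟨B, hB2, m₁, hm₁⟩ := hH1 p hp κ V G H hV (ε / 8) (by positivity)
  obtain ⟨CB, hCB, hE⟩ := hE B hB2
  obtain ⟨c, hc, hC4⟩ := hC4
  obtain ⟨D₀, hD₀⟩ : ∃ D₀, D₀ = 2 * Real.exp (c k * CB / 2) := ⟨_, rfl⟩
  obtain ⟨τ, hτ⟩ : ∃ τ, τ = ε / (16 * C₃) := ⟨_, rfl⟩
  have hC30 : 0 < C₃ := by linarith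
  have hτ0 : 0 < τ := by rw [hτ]; positivity
  obtain ⟨s, hs0, hs1, hsp⟩ : ∃ s : ℝ, 0 < s ∧ s ≤ 1 ∧ s ^ p ≤ τ / 3 := by
    refine ⟨min 1 (τ / 3), lt_min one_pos (by positivity), min_le_left _ _, ?_⟩
    have h1 : (0 : ℝ) < min 1 (τ / 3) := lt_min one_pos (by positivity)
    calc (min 1 (τ / 3)) ^ p ≤ (min 1 (τ / 3)) ^ (1 : ℝ) :=
          Real.rpow_le_rpow_of_exponent_ge h1 (min_le_left _ _) hp
      _ = min 1 (τ / 3) := Real.rpow_one _
      _ ≤ τ / 3 := min_le_right _ _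
  obtain ⟨A, hA1', hA2⟩ := H2_exists_A (q := p - 2 * k) (D := D₀) (τ := τ / 3) (by linarith)
    (by positivity)
  have hA0 : 0 < A := by linarith
  obtain ⟨δ, hδ⟩ : ∃ δ, δ = (2 * τ / 3) / (s ^ (p - 2) + A ^ (p - 2)) := ⟨_, rfl⟩
  have hsA : 0 < s ^ (p - 2) + A ^ (p - 2) := by positivity
  have hδ0 : 0 < δ := by rw [hδ]; positivity
  obtain ⟨m₀, hm₀⟩ := hE δ hδ0
  -- the scale factor
  obtain ⟨m, hmm⟩ : ∃ m, m = max (max m₁ m₀) 2 := ⟨_, rfl⟩
  have hm1 : m₁ ≤ m := by rw [hmm]; exact (le_max_left _ _).trans (le_max_left _ _)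
  have hm0 : m₀ ≤ m := by rw [hmm]; exact (le_max_right _ _).trans (le_max_left _ _)
  have hm2 : 2 ≤ m := by rw [hmm]; exact le_max_right _ _
  have : NeZero m := ⟨by omega⟩
  have hmr : (1 : ℝ) < m := by exact_mod_cast (by omega : 1 < m)
  have hlm : 0 < Real.log m := Real.log_pos hmr
  obtain ⟨βm, βe, C₀, hKm, hKe, hfl⟩ := hm₀ m hm0
  obtain ⟨n₀, hn₀⟩ := hm₁ m hm1 C₀ βm hKm
  obtain ⟨n₁, hn₁⟩ := hC4 m k |C₀| (CB * Real.log m) hm2 (abs_nonneg _) (by positivity)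
  obtain ⟨n₂, hn₂⟩ := hC4 m k (2 * |C₀|) ((2 * |C₀|) ^ 2) hm2 (by positivity) (by positivity)
  obtain ⟨D, hD⟩ : ∃ D, D = 2 * Real.exp (c k * (2 * |C₀|) ^ 2 * (1 / (2 * Real.log m))) :=
    ⟨_, rfl⟩
  obtain ⟨T, hT⟩ : ∃ T, T = (1 + t) / (1 - t ^ (1 / p)) ^ p := ⟨_, rfl⟩
  have hT0 : 0 < T := by rw [hT]; positivity
  rw [← hT] at ht3
  have htp : 0 < t ^ (1 - p) := Real.rpow_pos_of_pos ht0 _
  obtain ⟨A₁, hA₁1, hA₁2⟩ := H2_exists_A (q := p - 2 * k) (D := T * t ^ (1 - p) * D)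
    (τ := ε / 8) (by linarith) (by positivity)
  have hA₁0 : 0 < A₁ := by linarith
  -- eventual conditions
  have ev1 := (H0 (1 / 2) m (by norm_num) hm2).1
  have ev2 : ∀ᶠ n : ℕ in atTop,
      (T * t ^ (1 - p) * A₁ ^ p / t ^ 2) * Real.log n ^ (-(1 / 2) : ℝ) ≤ ε / 8 :=
    (H2_tendsto_log (q := 1 / 2) (by norm_num) _).eventually (eventually_le_nhds (by positivity))
  have ev3 : ∀ᶠ n : ℕ in atTop,
      (C * (4 * (m : ℝ) ^ 2) ^ (p / 2)) * Real.log n ^ (-(p / 4)) ≤ ε / 8 :=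
    (H2_tendsto_log (q := p / 4) (by positivity) _).eventually (eventually_le_nhds (by positivity))
  filter_upwards [ev1, ev2, ev3, eventually_ge_atTop n₀, eventually_ge_atTop n₁,
    eventually_ge_atTop n₂, eventually_ge_atTop 3] with n h1 h2 h3 hn0 hn1 hn2 hn3
  obtain ⟨J, hJ⟩ : ∃ J, J = Jn (1 / 2) m n := ⟨_, rfl⟩
  rw [← hJ] at h1
  obtain ⟨hlog, hmJ, hJl, hdens⟩ := H2_J hm2 hn3 h1.1
  have hl0 : 0 < Real.log n := by linarith
  have hnr : (0 : ℝ) < n := by exact_mod_cast (by omega : 0 < n)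
  obtain ⟨ch, hch⟩ := hn₀ n hn0
  rw [← hJ] at hch
  obtain ⟨hAd, hSmEq⟩ := (hC8 m n (UM B) βm).2.2.2 ch
  have hSmeq : ∀ ω : Seqs m n, Sm βm ch J ω = proc βm (clCtl βm ch) J ω := fun ω => hSmEq J ω
  simp only [hSmeq] at hch
  -- kernels
  have bm : ∀ θ d, ∀ y ∈ Sq, len (βm θ d y) ≤ |C₀| := fun θ d y hy =>
    (hKm.bdd θ d y hy).trans (le_abs_self _)
  have be : ∀ θ d, ∀ y ∈ Sq, len (βe θ d y) ≤ |C₀| := fun θ d y hy =>
    (hKe.bdd θ d y hy).trans (le_abs_self _)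
  have bs : ∀ θ d, ∀ y ∈ Sq, len (βm θ d y + βe θ d y) ≤ 2 * |C₀| := fun θ d y hy =>
    (H2_len_add _ _).trans (by linarith [bm θ d y hy, be θ d y hy])
  have ms : ∀ θ d, Measurable (fun y => βm θ d y + βe θ d y) := fun θ d =>
    (hKm.meas θ d).add (hKe.meas θ d)
  obtain ⟨CSm, hCSm⟩ := (hC8 m n (UM B) βm).2.1 (clCtl βm ch) J |C₀| bm
  obtain ⟨CSe, hCSe⟩ := (hC8 m n (UM B) βe).2.1 (clCtl βm ch) J |C₀| be
  obtain ⟨CS, hCS⟩ := (hC8 m n (UM B) (fun θ d y => βm θ d y + βe θ d y)).2.1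
    (clCtl βm ch) J (2 * |C₀|) bs
  have mSm := fun ω => (hC8 m n (UM B) βm).1 (clCtl βm ch) J ω hKm.meas
  have mSe := fun ω => (hC8 m n (UM B) βe).1 (clCtl βm ch) J ω hKe.meas
  have mS := fun ω => (hC8 m n (UM B) (fun θ d y => βm θ d y + βe θ d y)).1
    (clCtl βm ch) J ω ms
  -- the error process
  have he2 : EJ J (fun ω : Seqs m n => ∫ z, len (proc βe (clCtl βm ch) J ω z) ^ 2 ∂U) ≤ δ / 2 := by
    refine (hC7 m n J hm2 (by omega) (UM B) βe (clCtl βm ch) |C₀| (δ * Real.log m) hAd hKe.meas be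
      hKe.energy).trans ?_
    calc (J : ℝ) / Real.log n * (δ * Real.log m)
        ≤ 1 / (2 * Real.log m) * (δ * Real.log m) := by gcongr
      _ = δ / 2 := by field_simp
  have hek : ∀ z ∈ Sq0, EJ J (fun ω : Seqs m n =>
      len (proc βe (clCtl βm ch) J ω z) ^ (2 * k)) ≤ D₀ := by
    intro z hz
    refine (hn₁ n hn1 J hmJ (UM B) βe (clCtl βm ch) hAd be hKe.pointwise J le_rfl z hz).trans ?_
    rw [hD₀]
    have h5 : c k * (CB * Real.log m) * J / Real.log n ≤ c k * CB / 2 := by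
      calc c k * (CB * Real.log m) * J / Real.log n
          = c k * (CB * Real.log m) * (J / Real.log n) := by ring
        _ ≤ c k * (CB * Real.log m) * (1 / (2 * Real.log m)) := by
            have := hc k
            gcongr
        _ = c k * CB / 2 := by field_simp
    have := Real.exp_le_exp.mpr h5
    linarith
  have hep : EJ J (fun ω : Seqs m n => ∫ z, len (proc βe (clCtl βm ch) J ω z) ^ p ∂U) ≤ τ := by
    refine (H2_err hp hs0 (hs1.trans hA1') hk.le _ mSe hCSe he2 hek).trans ?_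
    have h6 : (s ^ (p - 2) + A ^ (p - 2)) * (δ / 2) = τ / 3 := by
      rw [hδ]
      field_simp
    rw [h6]
    linarith
  -- the whole process
  have hM1 : EJ J (fun ω : Seqs m n => ∫ z,
      len (proc (fun θ d y => βm θ d y + βe θ d y) (clCtl βm ch) J ω z) ^ p ∂U) ≤ K + ε / 4 := by
    simp only [H2_proc_add]
    rw [← hK] at hch
    refine (H2_sum hp hδ₃0.le hC30.le hC3 _ _ mSm mSe hCSm hCSe hch hep).trans ?_
    have h7 : δ₃ * (K + ε / 8) = ε / 16 := by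
      rw [hδ₃]
      field_simp
    have h8 : C₃ * τ = ε / 16 := by
      rw [hτ]
      field_simp
    have e9 : (1 + δ₃) * (K + ε / 8) = (K + ε / 8) + δ₃ * (K + ε / 8) := by ring
    rw [e9, h7, h8]
    linarith
  have hM2 : ∀ z ∈ Sq0, EJ J (fun ω : Seqs m n =>
      len (proc (fun θ d y => βm θ d y + βe θ d y) (clCtl βm ch) J ω z) ^ (2 * k)) ≤ D := by
    intro z hz
    refine (hn₂ n hn2 J hmJ (UM B) (fun θ d y => βm θ d y + βe θ d y) (clCtl βm ch) hAd bs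
      (fun θ y hy => ?_) J le_rfl z hz).trans ?_
    · unfold avg
      have hne : Nonempty (Dig m) := ⟨(0, 0)⟩
      have hcard : (0 : ℝ) < Fintype.card (Dig m) := by exact_mod_cast Fintype.card_pos
      rw [smul_eq_mul, inv_mul_le_iff₀ hcard]
      calc ∑ d : Dig m, len (βm θ d y + βe θ d y) ^ 2 ≤ ∑ _d : Dig m, (2 * |C₀|) ^ 2 :=
            Finset.sum_le_sum fun d _ => pow_le_pow_left₀ (H2_len_nonneg _) (bs θ d y hy) 2
        _ = Fintype.card (Dig m) * (2 * |C₀|) ^ 2 := by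
            rw [Finset.sum_const, Finset.card_univ, nsmul_eq_mul]
    · rw [hD]
      have h5 : c k * (2 * |C₀|) ^ 2 * J / Real.log n ≤
          c k * (2 * |C₀|) ^ 2 * (1 / (2 * Real.log m)) := by
        calc c k * (2 * |C₀|) ^ 2 * J / Real.log n
            = c k * (2 * |C₀|) ^ 2 * (J / Real.log n) := by ring
          _ ≤ c k * (2 * |C₀|) ^ 2 * (1 / (2 * Real.log m)) := by
              have := hc k
              gcongr
      have := Real.exp_le_exp.mpr h5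
      linarith
  have hflS := fun ω : Seqs m n => hD3 m n (UM B) (fun θ d y => βm θ d y + βe θ d y)
    (clCtl βm ch) hm2 (by omega) hfl J ω
  have hstep := H2_step hA1 hA4 hA6 hA7 hB1 hC2 hC5 hD2 hp ht0 ht1 ht2 hC hm2 (by omega) hmJ
    (fun ω => proc (fun θ d y => βm θ d y + βe θ d y) (clCtl βm ch) J ω) mS hCS hflS hM1 hM2
    hk.le hA₁0
  have hσp : Real.sqrt (Real.log n / n) ^ p = (Real.log n / n) ^ (p / 2) := by
    rw [Real.sqrt_eq_rpow, ← Real.rpow_mul (by positivity)]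
    congr 1
    ring
  rw [hσp, ← hT] at hstep
  obtain ⟨Y, hY⟩ : ∃ Y, Y = (Real.log n / n) ^ (p / 2) := ⟨_, rfl⟩
  have hY0 : 0 ≤ Y := by rw [hY]; positivity
  have htail := H2_tail hp (J := J) hm2 hn3 hlog h1.2
  rw [← hY] at hstep htail ⊢
  -- final estimate
  have f1 : T * (1 - t) ^ (1 - p) * (K + ε / 4) ≤ K + ε / 2 := by
    rwa [le_div_iff₀ (by positivity)] at ht3
  have f2 : T * t ^ (1 - p) * (A₁ ^ p * ((m : ℝ) ^ (2 * J) / n / t ^ 2)) ≤ ε / 8 := by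
    refine le_trans ?_ h2
    calc T * t ^ (1 - p) * (A₁ ^ p * ((m : ℝ) ^ (2 * J) / n / t ^ 2))
        = (T * t ^ (1 - p) * A₁ ^ p / t ^ 2) * ((m : ℝ) ^ (2 * J) / n) := by ring
      _ ≤ (T * t ^ (1 - p) * A₁ ^ p / t ^ 2) * Real.log n ^ (-(1 / 2) : ℝ) := by gcongr
  have f3 : T * t ^ (1 - p) * (A₁ ^ (p - 2 * k) * D) ≤ ε / 8 := by
    calc T * t ^ (1 - p) * (A₁ ^ (p - 2 * k) * D)
        = A₁ ^ (p - 2 * k) * (T * t ^ (1 - p) * D) := by ring
      _ ≤ ε / 8 := hA₁2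
  have f4 : C * (2 / (m : ℝ) ^ J) ^ p ≤ ε / 8 * Y := by
    calc C * (2 / (m : ℝ) ^ J) ^ p
        ≤ C * ((4 * (m : ℝ) ^ 2) ^ (p / 2) * Real.log n ^ (-(p / 4)) * Y) := by gcongr
      _ = (C * (4 * (m : ℝ) ^ 2) ^ (p / 2) * Real.log n ^ (-(p / 4))) * Y := by ring
      _ ≤ ε / 8 * Y := mul_le_mul_of_nonneg_right h3 hY0
  calc EW p n ≤ T * Y * ((1 - t) ^ (1 - p) * (K + ε / 4) + t ^ (1 - p) *
        (A₁ ^ p * ((m : ℝ) ^ (2 * J) / n / t ^ 2) + A₁ ^ (p - 2 * k) * D)) +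
        C * (2 / (m : ℝ) ^ J) ^ p := hstep
    _ = (T * (1 - t) ^ (1 - p) * (K + ε / 4) +
        T * t ^ (1 - p) * (A₁ ^ p * ((m : ℝ) ^ (2 * J) / n / t ^ 2)) +
        T * t ^ (1 - p) * (A₁ ^ (p - 2 * k) * D)) * Y + C * (2 / (m : ℝ) ^ J) ^ p := by ring
    _ ≤ ((K + ε / 2) + ε / 8 + ε / 8) * Y + ε / 8 * Y := by gcongr
    _ ≤ (K + ε) * Y := by nlinarith [mul_nonneg hε.le hY0]

end Match2D
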