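import Pool.Agent.Work.MP_884187_pr.Stmts

/-!
MP_884187_pr, item L2: the gain of one generation.
-/

open MeasureTheory Set Filter Topology

namespace Match2D

section L2avg
variable {α : Type*} [Fintype α]

lemma L2_avg_def (f : α → ℝ) : avg f = (Fintype.card α : ℝ)⁻¹ * ∑ a, f a := rfl

lemma L2_avg_mono {f g : α → ℝ} (h : ∀ a, f a ≤ g a) : avg f ≤ avg g := by
  rw [L2_avg_def, L2_avg_def]
  exact mul_le_mul_of_nonneg_left (Finset.sum_le_sum fun a _ => h a) (by positivity)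

lemma L2_avg_add (f g : α → ℝ) : avg (fun a => f a + g a) = avg f + avg g := by
  simp only [L2_avg_def, Finset.sum_add_distrib, mul_add]

lemma L2_avg_sub (f g : α → ℝ) : avg (fun a => f a - g a) = avg f - avg g := by
  simp only [L2_avg_def, Finset.sum_sub_distrib, mul_sub]

lemma L2_avg_mul (c : ℝ) (f : α → ℝ) : avg (fun a => c * f a) = c * avg f := by
  simp only [L2_avg_def, ← Finset.mul_sum]
  ring

lemma L2_avg_sum {ι : Type*} (s : Finset ι) (f : ι → α → ℝ) :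
    avg (fun a => ∑ i ∈ s, f i a) = ∑ i ∈ s, avg (f i) := by
  simp only [L2_avg_def]
  rw [Finset.sum_comm, Finset.mul_sum]

lemma L2_avg_const [Nonempty α] (c : ℝ) : avg (fun _ : α => c) = c := by
  have : (Fintype.card α : ℝ) ≠ 0 := by
    exact_mod_cast Fintype.card_ne_zero
  simp only [L2_avg_def, Finset.sum_const, Finset.card_univ, nsmul_eq_mul]
  field_simp

lemma L2_avg_sq (f : α → ℝ) : avg f ^ 2 ≤ avg (fun a => f a ^ 2) := by
  rcases isEmpty_or_nonempty α with h | h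
  · simp [L2_avg_def]
  have hc : (0 : ℝ) < Fintype.card α := by exact_mod_cast Fintype.card_pos
  have h1 : (∑ a, f a) ^ 2 ≤ (Fintype.card α : ℝ) * ∑ a, f a ^ 2 := by
    have := sq_sum_le_card_mul_sum_sq (s := (Finset.univ : Finset α)) (f := f)
    simpa using this
  rw [L2_avg_def, L2_avg_def, mul_pow]
  calc ((Fintype.card α : ℝ)⁻¹) ^ 2 * (∑ a, f a) ^ 2
      ≤ ((Fintype.card α : ℝ)⁻¹) ^ 2 * ((Fintype.card α : ℝ) * ∑ a, f a ^ 2) :=
        mul_le_mul_of_nonneg_left h1 (by positivity)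
    _ = (Fintype.card α : ℝ)⁻¹ * ∑ a, f a ^ 2 := by
        field_simp

lemma L2_avg_nonneg {f : α → ℝ} (h : ∀ a, 0 ≤ f a) : 0 ≤ avg f := by
  rw [L2_avg_def]
  exact mul_nonneg (by positivity) (Finset.sum_nonneg fun a _ => h a)

end L2avg

section L2EJ
variable {m n : ℕ} [NeZero m]

lemma L2_EJ_mono (J : ℕ) {F G : Seqs m n → ℝ} (h : ∀ ω, F ω ≤ G ω) : EJ J F ≤ EJ J G :=
  L2_avg_mono fun _ => h _

lemma L2_EJ_add (J : ℕ) (F G : Seqs m n → ℝ) : EJ J (fun ω => F ω + G ω) = EJ J F + EJ J G :=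
  L2_avg_add _ _

lemma L2_EJ_sub (J : ℕ) (F G : Seqs m n → ℝ) : EJ J (fun ω => F ω - G ω) = EJ J F - EJ J G :=
  L2_avg_sub _ _

lemma L2_EJ_mul (J : ℕ) (c : ℝ) (F : Seqs m n → ℝ) : EJ J (fun ω => c * F ω) = c * EJ J F :=
  L2_avg_mul _ _

lemma L2_EJ_sum {ι : Type*} (J : ℕ) (s : Finset ι) (F : ι → Seqs m n → ℝ) :
    EJ J (fun ω => ∑ i ∈ s, F i ω) = ∑ i ∈ s, EJ J (F i) :=
  L2_avg_sum s (fun i (w : Fin J → Fin n → Dig m) => F i (ext J w))

lemma L2_EJ_const (J : ℕ) (c : ℝ) : EJ J (fun _ : Seqs m n => c) = c := by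
  have : Nonempty (Fin J → Fin n → Dig m) := ⟨fun _ _ => (0, 0)⟩
  exact L2_avg_const c

lemma L2_EJ_sq (J : ℕ) (F : Seqs m n → ℝ) : EJ J F ^ 2 ≤ EJ J (fun ω => F ω ^ 2) :=
  L2_avg_sq _

end L2EJ

lemma L2_cell (m : ℕ) [NeZero m] {C : ℝ} (hC : 0 < C) (n : ℕ) (I : Finset (Fin n))
    (h1 : ∀ d : Dig m, avg (fun δ : Fin n → Dig m => xi I δ d) = 0)
    (h2 : ∀ d d' : Dig m, avg (fun δ : Fin n → Dig m => xi I δ d * xi I δ d') =
      I.card * ((if d = d' then ((m : ℝ) ^ 2)⁻¹ else 0) - ((m : ℝ) ^ 4)⁻¹))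
    (h4 : avg (fun δ : Fin n → Dig m => (∑ d, |xi I δ d|) ^ 4) ≤ C * (I.card : ℝ) ^ 2)
    (C₀ σ : ℝ) (hC₀ : 0 ≤ C₀) (Z : Dig m → Dig m → ℝ) (hZ : ∀ d d', |Z d d'| ≤ C₀)
    (Zb : Dig m → ℝ) (hZb : ∀ d, Zb d = avg (fun d' => Z d d'))
    (hσ : σ ≤ avg (fun d => Z d d) - avg Zb)
    (s θ a b : ℝ) (hs : 0 < s) (hθ : 0 < θ) (ha : 0 ≤ a)
    (G : (Fin n → Dig m) → Prop) [DecidablePred G]
    (hG : ∀ δ, ¬ G δ → θ < s * ∑ d, |xi I δ d|) :
    a * (I.card * σ) - (a * C₀ * s ^ 2 * θ⁻¹ ^ 2 * (C * (I.card : ℝ) ^ 2)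
        + |b| * C₀ * s * θ⁻¹ * (Real.sqrt C * I.card)) ≤
      avg (fun δ : Fin n → Dig m => if G δ then
        a * ∑ d, ∑ d', xi I δ d * xi I δ d' * Z d d' + b * ∑ d, xi I δ d * Zb d else 0) := by
  have hm : (m : ℝ) ≠ 0 := by exact_mod_cast NeZero.ne m
  have hcard : (Fintype.card (Dig m) : ℝ) = (m : ℝ) ^ 2 := by
    simp [Dig, sq]
  set X : (Fin n → Dig m) → ℝ := fun δ => ∑ d, |xi I δ d| with hX
  have hX0 : ∀ δ, 0 ≤ X δ := fun δ => Finset.sum_nonneg fun d _ => abs_nonneg _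
  set T : (Fin n → Dig m) → ℝ := fun δ =>
    a * ∑ d, ∑ d', xi I δ d * xi I δ d' * Z d d' + b * ∑ d, xi I δ d * Zb d with hT
  have hZb0 : ∀ d, |Zb d| ≤ C₀ := by
    intro d
    have : Nonempty (Dig m) := ⟨(0, 0)⟩
    rw [hZb, abs_le]
    constructor
    · rw [← L2_avg_const (α := Dig m) (-C₀)]
      exact L2_avg_mono fun d' => (abs_le.mp (hZ d d')).1
    · rw [← L2_avg_const (α := Dig m) C₀]
      exact L2_avg_mono fun d' => (abs_le.mp (hZ d d')).2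
  -- pointwise bound
  have hQ : ∀ δ, |∑ d, ∑ d', xi I δ d * xi I δ d' * Z d d'| ≤ C₀ * X δ ^ 2 := by
    intro δ
    calc |∑ d, ∑ d', xi I δ d * xi I δ d' * Z d d'|
        ≤ ∑ d, ∑ d', |xi I δ d * xi I δ d' * Z d d'| :=
          (Finset.abs_sum_le_sum_abs _ _).trans
            (Finset.sum_le_sum fun d _ => Finset.abs_sum_le_sum_abs _ _)
      _ ≤ ∑ d, ∑ d', |xi I δ d| * |xi I δ d'| * C₀ := by
          refine Finset.sum_le_sum fun d _ => Finset.sum_le_sum fun d' _ => ?_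
          rw [abs_mul, abs_mul]
          exact mul_le_mul_of_nonneg_left (hZ d d') (by positivity)
      _ = C₀ * X δ ^ 2 := by
          have hXX : X δ ^ 2 = ∑ d, ∑ d', |xi I δ d| * |xi I δ d'| := by
            rw [sq]
            exact Finset.sum_mul_sum _ _ _ _
          rw [hXX, Finset.mul_sum]
          refine Finset.sum_congr rfl fun d _ => ?_
          rw [Finset.mul_sum]
          refine Finset.sum_congr rfl fun d' _ => ?_
          ring
  have hL : ∀ δ, |∑ d, xi I δ d * Zb d| ≤ C₀ * X δ := by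
    intro δ
    calc |∑ d, xi I δ d * Zb d| ≤ ∑ d, |xi I δ d * Zb d| := Finset.abs_sum_le_sum_abs _ _
      _ ≤ ∑ d, |xi I δ d| * C₀ := by
          refine Finset.sum_le_sum fun d _ => ?_
          rw [abs_mul]
          exact mul_le_mul_of_nonneg_left (hZb0 d) (abs_nonneg _)
      _ = C₀ * X δ := by rw [← Finset.sum_mul, mul_comm]
  have hpt : ∀ δ, T δ - (a * C₀ * s ^ 2 * θ⁻¹ ^ 2) * X δ ^ 4 - (|b| * C₀ * s * θ⁻¹) * X δ ^ 2 ≤
      if G δ then T δ else 0 := by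
    intro δ
    have hp1 : 0 ≤ (a * C₀ * s ^ 2 * θ⁻¹ ^ 2) * X δ ^ 4 := by positivity
    have hp2 : 0 ≤ (|b| * C₀ * s * θ⁻¹) * X δ ^ 2 := by positivity
    split_ifs with hg
    · linarith
    · have hb := hG δ hg
      have hb' : 1 ≤ s * X δ * θ⁻¹ := by
        rw [← div_eq_mul_inv, le_div_iff₀ hθ]
        linarith [hb]
      have e1 : T δ ≤ a * (C₀ * X δ ^ 2) + |b| * (C₀ * X δ) := by
        have i1 : a * ∑ d, ∑ d', xi I δ d * xi I δ d' * Z d d' ≤ a * (C₀ * X δ ^ 2) :=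
          mul_le_mul_of_nonneg_left ((le_abs_self _).trans (hQ δ)) ha
        have i2 : b * ∑ d, xi I δ d * Zb d ≤ |b| * (C₀ * X δ) := by
          refine (le_abs_self _).trans ?_
          rw [abs_mul]
          exact mul_le_mul_of_nonneg_left (hL δ) (abs_nonneg _)
        exact add_le_add i1 i2
      have e2 : a * (C₀ * X δ ^ 2) ≤ (a * C₀ * s ^ 2 * θ⁻¹ ^ 2) * X δ ^ 4 := by
        have : (a * C₀ * s ^ 2 * θ⁻¹ ^ 2) * X δ ^ 4 = (a * (C₀ * X δ ^ 2)) * (s * X δ * θ⁻¹) ^ 2 := by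
          ring
        rw [this]
        exact le_mul_of_one_le_right (by positivity) (one_le_pow₀ hb')
      have e3 : |b| * (C₀ * X δ) ≤ (|b| * C₀ * s * θ⁻¹) * X δ ^ 2 := by
        have : (|b| * C₀ * s * θ⁻¹) * X δ ^ 2 = (|b| * (C₀ * X δ)) * (s * X δ * θ⁻¹) := by
          ring
        rw [this]
        have hx := hX0 δ
        exact le_mul_of_one_le_right (by positivity) hb'
      linarith
  -- the average of T
  have hQavg : avg (fun δ : Fin n → Dig m => ∑ d, ∑ d', xi I δ d * xi I δ d' * Z d d') =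
      I.card * (avg (fun d => Z d d) - avg Zb) := by
    have i1 : avg (fun δ : Fin n → Dig m => ∑ d, ∑ d', xi I δ d * xi I δ d' * Z d d') =
        ∑ d, ∑ d', (I.card * ((if d = d' then ((m : ℝ) ^ 2)⁻¹ else 0) - ((m : ℝ) ^ 4)⁻¹))
          * Z d d' := by
      rw [L2_avg_sum]
      refine Finset.sum_congr rfl fun d _ => ?_
      rw [L2_avg_sum]
      refine Finset.sum_congr rfl fun d' _ => ?_
      rw [← h2 d d', mul_comm, ← L2_avg_mul]
      congr 1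
      funext δ
      ring
    rw [i1]
    have i2 : avg (fun d => Z d d) = ((m : ℝ) ^ 2)⁻¹ * ∑ d, Z d d := by
      rw [L2_avg_def, hcard]
    have i3 : avg Zb = ((m : ℝ) ^ 4)⁻¹ * ∑ d, ∑ d', Z d d' := by
      rw [L2_avg_def, hcard]
      simp only [hZb, L2_avg_def, hcard]
      rw [← Finset.mul_sum, ← mul_assoc]
      congr 1
      field_simp
    rw [i2, i3]
    simp only [sub_mul, mul_sub, Finset.sum_sub_distrib, mul_assoc]
    simp only [← Finset.mul_sum]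
    congr 1
    congr 1
    rw [Finset.mul_sum]
    refine Finset.sum_congr rfl fun d _ => ?_
    simp [ite_mul]
  have hLavg : avg (fun δ : Fin n → Dig m => ∑ d, xi I δ d * Zb d) = 0 := by
    rw [L2_avg_sum]
    refine Finset.sum_eq_zero fun d _ => ?_
    have : (fun δ : Fin n → Dig m => xi I δ d * Zb d) = fun δ => Zb d * xi I δ d := by
      funext δ; ring
    rw [this, L2_avg_mul, h1, mul_zero]
  have hTavg : avg T = a * (I.card * (avg (fun d => Z d d) - avg Zb)) := by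
    rw [hT, L2_avg_add, L2_avg_mul, L2_avg_mul, hQavg, hLavg, mul_zero, add_zero]
  have hX2 : avg (fun δ => X δ ^ 2) ≤ Real.sqrt C * I.card := by
    have i1 : avg (fun δ => X δ ^ 2) ^ 2 ≤ C * (I.card : ℝ) ^ 2 := by
      refine (L2_avg_sq _).trans ?_
      refine le_trans (le_of_eq ?_) h4
      congr 1
      funext δ
      ring
    have i2 : C * (I.card : ℝ) ^ 2 = (Real.sqrt C * I.card) ^ 2 := by
      rw [mul_pow, Real.sq_sqrt hC.le]
    rw [i2] at i1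
    exact abs_le_of_sq_le_sq' i1 (by positivity) |>.2
  have key := L2_avg_mono hpt
  rw [L2_avg_sub, L2_avg_sub, L2_avg_mul, L2_avg_mul, hTavg] at key
  have j1 : a * (I.card * σ) ≤ a * (I.card * (avg (fun d => Z d d) - avg Zb)) :=
    mul_le_mul_of_nonneg_left (mul_le_mul_of_nonneg_left hσ (by positivity)) ha
  have j2 : (a * C₀ * s ^ 2 * θ⁻¹ ^ 2) * avg (fun δ => X δ ^ 4) ≤
      a * C₀ * s ^ 2 * θ⁻¹ ^ 2 * (C * (I.card : ℝ) ^ 2) :=
    mul_le_mul_of_nonneg_left h4 (by positivity)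
  have j3 : (|b| * C₀ * s * θ⁻¹) * avg (fun δ => X δ ^ 2) ≤
      |b| * C₀ * s * θ⁻¹ * (Real.sqrt C * I.card) :=
    mul_le_mul_of_nonneg_left hX2 (by positivity)
  linarith [key, j1, j2, j3]

/-! ### cells -/

lemma L2_cidx_congr {m n : ℕ} {ω ω' : Seqs m n} (j : ℕ) (h : ∀ l, l < j → ω l = ω' l) :
    cidx ω j = cidx ω' j := by
  induction j with
  | zero => funext i; rfl
  | succ j ih =>
    funext i
    have h1 := ih fun l hl => h l (by omega)
    have h2 := h j (by omega)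
    simp only [cidx, h1, h2]

lemma L2_update_lt {m n : ℕ} (ω : Seqs m n) (j : ℕ) (δ : Fin n → Dig m) (l : ℕ) (hl : l < j) :
    Function.update ω j δ l = ω l := Function.update_of_ne (by omega) _ _

lemma L2_inCell_update {m n : ℕ} (ω : Seqs m n) (j : ℕ) (δ : Fin n → Dig m) (q : ℕ × ℕ) :
    inCell (Function.update ω j δ) j q = inCell ω j q := by
  unfold inCell
  rw [L2_cidx_congr j (L2_update_lt ω j δ)]

lemma L2_cidx_update {m n : ℕ} (ω : Seqs m n) (j : ℕ) (δ : Fin n → Dig m) (i : Fin n) :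
    cidx (Function.update ω j δ) (j + 1) i =
      (m * (cidx ω j i).1 + ((δ i).1 : ℕ), m * (cidx ω j i).2 + ((δ i).2 : ℕ)) := by
  simp only [cidx, L2_cidx_congr j (L2_update_lt ω j δ), Function.update_self]

lemma L2_cidx_lt {m n : ℕ} (ω : Seqs m n) (j : ℕ) (i : Fin n) :
    (cidx ω j i).1 < m ^ j ∧ (cidx ω j i).2 < m ^ j := by
  induction j with
  | zero => simp [cidx]
  | succ j ih =>
    have h1 := (ω j i).1.isLt
    have h2 := (ω j i).2.isLt
    simp only [cidx, pow_succ]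
    constructor
    · calc m * (cidx ω j i).1 + ((ω j i).1 : ℕ) < m * (cidx ω j i).1 + m := by omega
        _ = m * ((cidx ω j i).1 + 1) := by ring
        _ ≤ m * m ^ j := Nat.mul_le_mul_left m ih.1
        _ = m ^ j * m := by ring
    · calc m * (cidx ω j i).2 + ((ω j i).2 : ℕ) < m * (cidx ω j i).2 + m := by omega
        _ = m * ((cidx ω j i).2 + 1) := by ring
        _ ≤ m * m ^ j := Nat.mul_le_mul_left m ih.2
        _ = m ^ j * m := by ring

lemma L2_volSq : volume Sq = 1 := by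
  rw [Sq, Measure.volume_eq_prod, Measure.prod_prod, Real.volume_Icc]
  simp

instance L2_isProb : IsProbabilityMeasure U := ⟨by
  rw [U, Measure.restrict_apply_univ, L2_volSq]⟩

lemma L2_ae : ∀ᵐ u ∂U, u ∈ Sq0 := by
  have h1 : (Sq0 : Set (ℝ × ℝ)) =ᵐ[volume] Sq := by
    rw [Sq0, Sq, Measure.volume_eq_prod]
    exact Measure.set_prod_ae_eq Ico_ae_eq_Icc Ico_ae_eq_Icc
  have h2 : U = volume.restrict Sq0 := by
    rw [U]
    exact (Measure.restrict_congr_set h1).symm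
  rw [h2]
  exact ae_restrict_mem (measurableSet_Ico.prod measurableSet_Ico)

lemma L2_floor {m : ℕ} (hm : 0 < m) (j q d : ℕ) (hd : d < m) (u : ℝ) (hu0 : 0 ≤ u) (hu1 : u < 1) :
    (m : ℝ) ^ j * (((m * q + d : ℕ) + u) / (m : ℝ) ^ (j + 1)) = q + (d + u) / (m : ℝ) ^ 1 ∧
    ⌊(m : ℝ) ^ j * (((m * q + d : ℕ) + u) / (m : ℝ) ^ (j + 1))⌋₊ = q := by
  have hm' : (0 : ℝ) < m := by exact_mod_cast hm
  have e : (m : ℝ) ^ j * (((m * q + d : ℕ) + u) / (m : ℝ) ^ (j + 1)) = q + (d + u) / (m : ℝ) ^ 1 := by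
    push_cast
    field_simp
    ring
  refine ⟨e, ?_⟩
  rw [e, Nat.floor_eq_iff (by positivity)]
  have hd' : (d : ℝ) + 1 ≤ m := by exact_mod_cast hd
  constructor
  · have : 0 ≤ ((d : ℝ) + u) / (m : ℝ) ^ 1 := by positivity
    linarith
  · have : ((d : ℝ) + u) / (m : ℝ) ^ 1 < 1 := by
      rw [pow_one, div_lt_one hm']
      linarith
    linarith

lemma L2_qidx_emb {m : ℕ} (hm : 0 < m) (j : ℕ) (q : ℕ × ℕ) (d : Dig m) (u : ℝ × ℝ) (hu : u ∈ Sq0) :
    qidx m j (emb m (j + 1) (m * q.1 + (d.1 : ℕ), m * q.2 + (d.2 : ℕ)) u) = q ∧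
    loc m j (emb m (j + 1) (m * q.1 + (d.1 : ℕ), m * q.2 + (d.2 : ℕ)) u) =
      emb m 1 ((d.1 : ℕ), (d.2 : ℕ)) u := by
  obtain ⟨⟨h1, h2⟩, h3, h4⟩ := hu
  have a1 := L2_floor hm j q.1 d.1 d.1.isLt u.1 h1 h2
  have a2 := L2_floor hm j q.2 d.2 d.2.isLt u.2 h3 h4
  constructor
  · unfold qidx emb
    exact Prod.ext a1.2 a2.2
  · unfold loc emb
    refine Prod.ext ?_ ?_
    · simp only
      rw [a1.2, a1.1]
      ring
    · simp only
      rw [a2.2, a2.1]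
      ring

lemma L2_emb_loc {m : ℕ} (hm : 0 < m) (z : ℝ × ℝ) : emb m 1 (qidx m 1 z) (loc m 1 z) = z := by
  have hm' : (0 : ℝ) < m := by exact_mod_cast hm
  unfold emb qidx loc
  refine Prod.ext ?_ ?_
  · simp only
    field_simp
    ring
  · simp only
    field_simp
    ring

lemma L2_emb_cont (m j : ℕ) (q : ℕ × ℕ) : Continuous (emb m j q) := by
  unfold emb
  fun_prop

lemma L2_sum_dig (m : ℕ) (g : ℕ × ℕ → ℝ) :
    ∑ q ∈ Finset.range (m ^ 1) ×ˢ Finset.range (m ^ 1), g q =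
      ∑ d : Dig m, g ((d.1 : ℕ), (d.2 : ℕ)) := by
  rw [Finset.sum_product, pow_one, Finset.sum_range, Fintype.sum_prod_type]
  refine Finset.sum_congr rfl fun a _ => ?_
  rw [Finset.sum_range]

lemma L2_group {m n : ℕ} (ω : Seqs m n) (j : ℕ) (δ : Fin n → Dig m) (f : ℕ × ℕ → Dig m → ℝ) :
    ∑ i, f (cidx ω j i) (δ i) =
      ∑ q ∈ Finset.range (m ^ j) ×ˢ Finset.range (m ^ j),
        ∑ d, (((inCell ω j q).filter (fun i => δ i = d)).card : ℝ) * f q d := by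
  have h1 : ∀ i ∈ (Finset.univ : Finset (Fin n)), cidx ω j i ∈
      Finset.range (m ^ j) ×ˢ Finset.range (m ^ j) := by
    intro i _
    have := L2_cidx_lt ω j i
    simp [this.1, this.2]
  rw [← Finset.sum_fiberwise_of_maps_to h1]
  refine Finset.sum_congr rfl fun q _ => ?_
  have h2 : ∀ i ∈ inCell ω j q, δ i ∈ (Finset.univ : Finset (Dig m)) := fun i _ => Finset.mem_univ _
  have h3 : (Finset.univ : Finset (Fin n)).filter (fun i => cidx ω j i = q) = inCell ω j q := rfl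
  rw [h3, ← Finset.sum_fiberwise_of_maps_to h2]
  refine Finset.sum_congr rfl fun d _ => ?_
  rw [← nsmul_eq_mul, ← Finset.sum_const]
  refine Finset.sum_congr rfl fun i hi => ?_
  rw [Finset.mem_filter, inCell, Finset.mem_filter] at hi
  rw [hi.1.2, hi.2]

lemma L2_abs_le_len (v : ℝ × ℝ) : |v.1| ≤ len v ∧ |v.2| ≤ len v := by
  unfold len
  constructor
  · exact Real.abs_le_sqrt (by nlinarith [sq_nonneg v.2])
  · exact Real.abs_le_sqrt (by nlinarith [sq_nonneg v.1])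

lemma L2_zeta_cont {B : ℝ} {m : ℕ} {C₀ δ : ℝ} {ζ dζ} (h : KerL B m C₀ δ ζ dζ) (M : UM B)
    (d : Dig m) : Continuous (ζ M d) := by
  rw [continuous_iff_continuousAt]
  intro y
  have hb : ∀ y', |ζ M d y' - ζ M d y| ≤
      C₀ * (|y'.1 - y.1| + |y'.2 - y.2|) + C₀ * ((y'.1 - y.1) ^ 2 + (y'.2 - y.2) ^ 2) := by
    intro y'
    have h1 := h.diff M d y y'
    have h2 : len (y' - y) ^ 2 = (y'.1 - y.1) ^ 2 + (y'.2 - y.2) ^ 2 := by
      unfold len
      rw [Real.sq_sqrt (by positivity)]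
      rfl
    have h3 := (h.bdd M d y).2
    have h4 := L2_abs_le_len (dζ M d y)
    have h5 : |dot (dζ M d y) (y' - y)| ≤ C₀ * (|y'.1 - y.1| + |y'.2 - y.2|) := by
      unfold dot
      refine (abs_add_le _ _).trans ?_
      rw [abs_mul, abs_mul, mul_add]
      exact add_le_add (mul_le_mul_of_nonneg_right (h4.1.trans h3) (abs_nonneg _))
        (mul_le_mul_of_nonneg_right (h4.2.trans h3) (abs_nonneg _))
    rw [h2] at h1
    have h6 : ζ M d y' - ζ M d y = (ζ M d y' - ζ M d y - dot (dζ M d y) (y' - y)) +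
      dot (dζ M d y) (y' - y) := by ring
    rw [h6]
    refine (abs_add_le _ _).trans ?_
    linarith
  have hlim : Tendsto (fun y' : ℝ × ℝ =>
      C₀ * (|y'.1 - y.1| + |y'.2 - y.2|) + C₀ * ((y'.1 - y.1) ^ 2 + (y'.2 - y.2) ^ 2))
      (𝓝 y) (𝓝 0) := by
    have : Continuous (fun y' : ℝ × ℝ =>
      C₀ * (|y'.1 - y.1| + |y'.2 - y.2|) + C₀ * ((y'.1 - y.1) ^ 2 + (y'.2 - y.2) ^ 2)) := by
      fun_prop
    have h0 := this.tendsto y
    simpa using h0
  rw [ContinuousAt, tendsto_iff_dist_tendsto_zero]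
  refine squeeze_zero (fun _ => dist_nonneg) (fun y' => ?_) hlim
  rw [Real.dist_eq]
  exact hb y'

lemma L2_integrable {f : ℝ × ℝ → ℝ} (hf : Continuous f) {C : ℝ} (hC : ∀ y, |f y| ≤ C) :
    Integrable f U :=
  Integrable.of_bound hf.aestronglyMeasurable C (Filter.Eventually.of_forall fun y => by
    rw [Real.norm_eq_abs]; exact hC y)

lemma L2_int_abs_le {f : ℝ × ℝ → ℝ} {C : ℝ} (hC : ∀ y, |f y| ≤ C) :
    |∫ y, f y ∂U| ≤ C := by
  have := norm_integral_le_of_norm_le_const (μ := U) (f := f) (C := C)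
    (Filter.Eventually.of_forall fun y => by rw [Real.norm_eq_abs]; exact hC y)
  simpa using this

/-- The inner quantity for a fixed past and fixed digits. -/
lemma L2_inner {m n : ℕ} [NeZero m] (hn : 0 < n) (hC5 : StmtC5) (ω : Seqs m n) (j : ℕ)
    (δ : Fin n → Dig m) (κ Cs C₀ Cx : ℝ) (c : ℕ × ℕ → ℝ) (hc : ∀ q, |c q| ≤ Cs)
    (z : ℕ × ℕ → Dig m → ℝ × ℝ → ℝ) (hz : ∀ q d, Continuous (z q d))
    (hzb : ∀ q d y, |z q d y| ≤ C₀) (hxb : ∀ q d, |xi (inCell ω j q) δ d| ≤ Cx)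
    (g : ℕ × ℕ → Prop) [DecidablePred g] (D : ℝ × ℝ → ℝ)
    (hD : ∀ x, D x = if g (qidx m j x) then (c (qidx m j x) * κ) *
      ∑ d, xi (inCell ω j (qidx m j x)) δ d * z (qidx m j x) d (loc m j x) else 0) :
    (n : ℝ)⁻¹ * ∑ i, (∫ u, D (emb m (j + 1) (cidx (Function.update ω j δ) (j + 1) i) u) ∂U)
      - ∫ y, D y ∂U =
    ∑ q ∈ Finset.range (m ^ j) ×ˢ Finset.range (m ^ j), if g q then
      (c q * κ / n) * ∑ d, ∑ d', xi (inCell ω j q) δ d * xi (inCell ω j q) δ d' *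
        (∫ u, z q d (emb m 1 ((d'.1 : ℕ), (d'.2 : ℕ)) u) ∂U) +
      (c q * κ * (((inCell ω j q).card : ℝ) / n - ((m : ℝ) ^ (2 * j))⁻¹)) *
        ∑ d, xi (inCell ω j q) δ d * ∫ u, z q d u ∂U
      else 0 := by
  have hm : 0 < m := Nat.pos_of_ne_zero (NeZero.ne m)
  have hm' : (m : ℝ) ≠ 0 := by exact_mod_cast NeZero.ne m
  have hn' : (n : ℝ) ≠ 0 := by exact_mod_cast hn.ne'
  set F : ℕ × ℕ → ℝ × ℝ → ℝ := fun q y => if g q then (c q * κ) *
      ∑ d, xi (inCell ω j q) δ d * z q d y else 0 with hF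
  have hFc : ∀ q, Continuous (F q) := by
    intro q
    rw [hF]
    by_cases hg : g q
    · simp only [hg, if_true]
      exact continuous_const.mul (continuous_finsetSum _ fun d _ => continuous_const.mul (hz q d))
    · simp only [hg, if_false]
      exact continuous_const
  have hC₀ : 0 ≤ C₀ := (abs_nonneg _).trans (hzb (0, 0) (0, 0) 0)
  have hCx : 0 ≤ Cx := (abs_nonneg _).trans (hxb (0, 0) (0, 0))
  have hCs : 0 ≤ Cs := (abs_nonneg _).trans (hc (0, 0))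
  have hFb : ∀ q y, |F q y| ≤ Cs * |κ| * (Fintype.card (Dig m) * (Cx * C₀)) := by
    intro q y
    rw [hF]
    by_cases hg : g q
    · simp only [hg, if_true]
      rw [abs_mul, abs_mul]
      refine mul_le_mul (mul_le_mul_of_nonneg_right (hc q) (abs_nonneg _)) ?_ (abs_nonneg _)
        (by positivity)
      refine (Finset.abs_sum_le_sum_abs _ _).trans ?_
      refine (Finset.sum_le_sum fun d _ => (?_ : _ ≤ Cx * C₀)).trans ?_
      · rw [abs_mul]
        exact mul_le_mul (hxb q d) (hzb q d y) (abs_nonneg _) hCx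
      · simp
    · simp only [hg, if_false, abs_zero]
      positivity
  have hint : ∀ q (φ : ℝ × ℝ → ℝ × ℝ), Continuous φ → ∫ y, F q (φ y) ∂U =
      if g q then (c q * κ) * ∑ d, xi (inCell ω j q) δ d * ∫ y, z q d (φ y) ∂U else 0 := by
    intro q φ hφ
    rw [hF]
    by_cases hg : g q
    · simp only [hg, if_true]
      rw [integral_const_mul, integral_finsetSum]
      · congr 1
        refine Finset.sum_congr rfl fun d _ => ?_
        rw [integral_const_mul]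
      · intro d _
        exact (L2_integrable ((hz q d).comp hφ) (fun y => hzb q d _)).const_mul _
    · simp only [hg, if_false, integral_zero]
  -- the second integral
  have hI2 : ∫ y, D y ∂U = ((m : ℝ) ^ (2 * j))⁻¹ *
      ∑ q ∈ Finset.range (m ^ j) ×ˢ Finset.range (m ^ j), ∫ y, F q y ∂U := by
    have : ∫ y, D y ∂U = ∫ y, F (qidx m j y) (loc m j y) ∂U := by
      refine integral_congr_ae (Filter.Eventually.of_forall fun y => ?_)
      simp only [hD, hF]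
    rw [this]
    exact hC5 m j hm F (fun q => (hFc q).measurable) ⟨_, fun q y _ => hFb q y⟩
  -- the first integral
  have hI1 : ∀ i, ∫ u, D (emb m (j + 1) (cidx (Function.update ω j δ) (j + 1) i) u) ∂U =
      ∫ u, F (cidx ω j i) (emb m 1 (((δ i).1 : ℕ), ((δ i).2 : ℕ)) u) ∂U := by
    intro i
    refine integral_congr_ae ?_
    filter_upwards [L2_ae] with u hu
    have h1 := L2_qidx_emb hm j (cidx ω j i) (δ i) u hu
    rw [L2_cidx_update, hD, h1.1, h1.2]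
  have hZb : ∀ q d, ∫ y, z q d y ∂U = ((m : ℝ) ^ 2)⁻¹ *
      ∑ d' : Dig m, ∫ u, z q d (emb m 1 ((d'.1 : ℕ), (d'.2 : ℕ)) u) ∂U := by
    intro q d
    have h1 := hC5 m 1 hm (fun q' y => z q d (emb m 1 q' y))
      (fun q' => ((hz q d).comp (L2_emb_cont m 1 q')).measurable) ⟨C₀, fun q' y _ => hzb q d _⟩
    simp only [L2_emb_loc hm] at h1
    rw [h1, L2_sum_dig m (fun q' => ∫ u, z q d (emb m 1 q' u) ∂U)]
  simp only [hI1]
  rw [L2_group ω j δ (fun q d' => ∫ u, F q (emb m 1 ((d'.1 : ℕ), (d'.2 : ℕ)) u) ∂U), hI2,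
    Finset.mul_sum, Finset.mul_sum, ← Finset.sum_sub_distrib]
  refine Finset.sum_congr rfl fun q _ => ?_
  have e2 := hint q id continuous_id
  simp only [id] at e2
  rw [e2]
  have e1 : ∀ d' : Dig m, ∫ u, F q (emb m 1 ((d'.1 : ℕ), (d'.2 : ℕ)) u) ∂U = _ :=
    fun d' => hint q (emb m 1 ((d'.1 : ℕ), (d'.2 : ℕ))) (L2_emb_cont m 1 _)
  simp only [e1]
  by_cases hg : g q
  · simp only [hg, if_true]
    have hN : ∀ d' : Dig m, (((inCell ω j q).filter (fun i => δ i = d')).card : ℝ) =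
        xi (inCell ω j q) δ d' + ((inCell ω j q).card : ℝ) / (m : ℝ) ^ 2 := by
      intro d'
      unfold xi
      ring
    simp only [hN]
    set x : Dig m → ℝ := fun d => xi (inCell ω j q) δ d with hx
    set Z : Dig m → Dig m → ℝ := fun d d' => ∫ u, z q d (emb m 1 ((d'.1 : ℕ), (d'.2 : ℕ)) u) ∂U
      with hZ
    set Nq : ℝ := ((inCell ω j q).card : ℝ) with hNq
    have e3 : ∀ d, ∫ y, z q d y ∂U = ((m : ℝ) ^ 2)⁻¹ * ∑ d', Z d d' := fun d => hZb q d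
    simp only [e3]
    have e4 : ∑ d', (x d' + Nq / (m : ℝ) ^ 2) * (c q * κ * ∑ d, x d * Z d d') =
        (c q * κ) * ((∑ d, ∑ d', x d * x d' * Z d d') +
          Nq * ∑ d, x d * (((m : ℝ) ^ 2)⁻¹ * ∑ d', Z d d')) := by
      have f1 : ∑ d, ∑ d', x d * x d' * Z d d' = ∑ d', x d' * ∑ d, x d * Z d d' := by
        rw [Finset.sum_comm]
        refine Finset.sum_congr rfl fun d' _ => ?_
        rw [Finset.mul_sum]
        refine Finset.sum_congr rfl fun d _ => ?_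
        ring
      have f2 : Nq * ∑ d, x d * (((m : ℝ) ^ 2)⁻¹ * ∑ d', Z d d') =
          ∑ d', Nq / (m : ℝ) ^ 2 * ∑ d, x d * Z d d' := by
        have : ∀ d, x d * (((m : ℝ) ^ 2)⁻¹ * ∑ d', Z d d') =
            ∑ d', ((m : ℝ) ^ 2)⁻¹ * (x d * Z d d') := by
          intro d
          rw [Finset.mul_sum, Finset.mul_sum]
          refine Finset.sum_congr rfl fun d' _ => ?_
          ring
        simp only [this]
        rw [Finset.sum_comm, Finset.mul_sum]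
        refine Finset.sum_congr rfl fun d' _ => ?_
        rw [← Finset.mul_sum]
        ring
      rw [f1, f2, ← Finset.sum_add_distrib, Finset.mul_sum]
      refine Finset.sum_congr rfl fun d' _ => ?_
      ring
    rw [e4]
    ring
  · simp only [hg, if_false, mul_zero, Finset.sum_const_zero, sub_zero]

lemma L2_xi_abs {m n : ℕ} [NeZero m] (I : Finset (Fin n)) (δ : Fin n → Dig m) (d : Dig m) :
    |xi I δ d| ≤ n := by
  unfold xi
  have hm : (1 : ℝ) ≤ m := by exact_mod_cast Nat.pos_of_ne_zero (NeZero.ne m)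
  have h1 : ((I.filter (fun i => δ i = d)).card : ℝ) ≤ n := by
    have := Finset.card_le_univ (I.filter (fun i => δ i = d))
    rw [Fintype.card_fin] at this
    exact_mod_cast this
  have h2 : (I.card : ℝ) ≤ n := by
    have := Finset.card_le_univ I
    rw [Fintype.card_fin] at this
    exact_mod_cast this
  have h3 : (I.card : ℝ) / (m : ℝ) ^ 2 ≤ n := by
    refine (div_le_self (by positivity) (one_le_pow₀ hm)).trans h2
  have h4 : 0 ≤ (I.card : ℝ) / (m : ℝ) ^ 2 := by positivity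
  have h5 : (0 : ℝ) ≤ ((I.filter (fun i => δ i = d)).card : ℝ) := by positivity
  rw [abs_le]
  constructor <;> linarith

open Classical in
lemma L2_D {m n : ℕ} {B : ℝ} (θ : ℝ) (ζ : UM B → Dig m → ℝ × ℝ → ℝ)
    (dζ : UM B → Dig m → ℝ × ℝ → ℝ × ℝ) (cM : ℕ → ℝ × ℝ → UM B) (cs : ℕ → ℝ × ℝ → ℝ)
    (j : ℕ) (ω : Seqs m n) (x : ℝ × ℝ) :
    Ph θ ζ dζ cM cs (j + 1) ω x - Ph θ ζ dζ cM cs j ω x =
      if Good θ ω j (qidx m j x) then
        (cs j (Gr θ dζ cM cs j ω (corner m j (qidx m j x))) * (Real.sqrt (n * Real.log n))⁻¹) *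
          ∑ d, xi (inCell ω j (qidx m j x)) (ω j) d *
            ζ (cM j (Gr θ dζ cM cs j ω (corner m j (qidx m j x)))) d (loc m j x)
      else 0 := by
  simp only [Ph, add_sub_cancel_left, div_eq_mul_inv]

open Classical in
/-- Lower bound for a fixed past, averaged over the digits of the generation `j`. -/
lemma L2_past (hC5 : StmtC5) {B : ℝ} {m : ℕ} [NeZero m] {C₀ δ Cs : ℝ} {ζ dζ}
    (hK : KerL B m C₀ δ ζ dζ) {C' : ℝ} (hC' : 0 < C')
    (h10 : ∀ (n : ℕ) (I : Finset (Fin n)),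
      (∀ d : Dig m, avg (fun δ : Fin n → Dig m => xi I δ d) = 0) ∧
      (∀ d d' : Dig m, avg (fun δ : Fin n → Dig m => xi I δ d * xi I δ d') =
        I.card * ((if d = d' then ((m : ℝ) ^ 2)⁻¹ else 0) - ((m : ℝ) ^ 4)⁻¹)) ∧
      avg (fun δ : Fin n → Dig m => (∑ d, |xi I δ d|) ^ 4) ≤ C' * (I.card : ℝ) ^ 2)
    {n j : ℕ} {θ : ℝ} (hn : 2 ≤ n) (hθ : 0 < θ)
    (cM : ℕ → ℝ × ℝ → UM B) (cs : ℕ → ℝ × ℝ → ℝ) (hcs : ∀ j g, 0 ≤ cs j g ∧ cs j g ≤ Cs)
    (hGr : ∀ ω ω' : Seqs m n, (∀ l, l < j → ω l = ω' l) →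
      Gr θ dζ cM cs j ω = Gr θ dζ cM cs j ω') (ω : Seqs m n) (κ : ℝ)
    (hκ : κ = (Real.sqrt (n * Real.log n))⁻¹) :
    ∑ q ∈ Finset.range (m ^ j) ×ˢ Finset.range (m ^ j),
      ((cs j (Gr θ dζ cM cs j ω (corner m j q)) * κ / n) *
          ((inCell ω j q).card * (1 / (2 * Real.pi) * ((1 - δ) * Real.log m))) -
        ((cs j (Gr θ dζ cM cs j ω (corner m j q)) * κ / n) * C₀ * stp m n j ^ 2 * θ⁻¹ ^ 2 *
          (C' * ((inCell ω j q).card : ℝ) ^ 2) +
        |cs j (Gr θ dζ cM cs j ω (corner m j q)) * κ *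
          (((inCell ω j q).card : ℝ) / n - ((m : ℝ) ^ (2 * j))⁻¹)| * C₀ * stp m n j * θ⁻¹ *
          (Real.sqrt C' * (inCell ω j q).card))) ≤
    avg (fun dd : Fin n → Dig m =>
      (n : ℝ)⁻¹ * ∑ i, (∫ u, (Ph θ ζ dζ cM cs (j + 1) (Function.update ω j dd)
          (emb m (j + 1) (cidx (Function.update ω j dd) (j + 1) i) u)
        - Ph θ ζ dζ cM cs j (Function.update ω j dd)
          (emb m (j + 1) (cidx (Function.update ω j dd) (j + 1) i) u)) ∂U)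
      - ∫ z, (Ph θ ζ dζ cM cs (j + 1) (Function.update ω j dd) z
        - Ph θ ζ dζ cM cs j (Function.update ω j dd) z) ∂U) := by
  have hm : 0 < m := Nat.pos_of_ne_zero (NeZero.ne m)
  have hm' : (0 : ℝ) < m := by exact_mod_cast hm
  have hn0 : (0 : ℝ) < n := by exact_mod_cast (by omega : 0 < n)
  have hL : 0 < Real.log n := Real.log_pos (by exact_mod_cast (by omega : 1 < n))
  have hκ0 : 0 < κ := by rw [hκ]; positivity
  have hs : 0 < stp m n j := by unfold stp; positivity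
  have hC₀ := hK.pos
  have hinner : ∀ dd : Fin n → Dig m, _ := fun dd =>
    L2_inner (m := m) (n := n) (by omega) hC5 ω j dd κ Cs C₀ n
      (fun q => cs j (Gr θ dζ cM cs j ω (corner m j q)))
      (fun q => by rw [abs_of_nonneg (hcs _ _).1]; exact (hcs _ _).2)
      (fun q => ζ (cM j (Gr θ dζ cM cs j ω (corner m j q))))
      (fun q d => L2_zeta_cont hK _ d) (fun q d y => (hK.bdd _ d y).1)
      (fun q d => L2_xi_abs _ _ _)
      (fun q => Good θ (Function.update ω j dd) j q)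
      (fun x => Ph θ ζ dζ cM cs (j + 1) (Function.update ω j dd) x -
        Ph θ ζ dζ cM cs j (Function.update ω j dd) x)
      (fun x => by
        rw [L2_D]
        simp only [L2_inCell_update, Function.update_self,
          hGr _ ω (fun l hl => L2_update_lt ω j dd l hl), ← hκ])
  have heq : avg (fun dd : Fin n → Dig m =>
      (n : ℝ)⁻¹ * ∑ i, (∫ u, (Ph θ ζ dζ cM cs (j + 1) (Function.update ω j dd)
          (emb m (j + 1) (cidx (Function.update ω j dd) (j + 1) i) u)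
        - Ph θ ζ dζ cM cs j (Function.update ω j dd)
          (emb m (j + 1) (cidx (Function.update ω j dd) (j + 1) i) u)) ∂U)
      - ∫ z, (Ph θ ζ dζ cM cs (j + 1) (Function.update ω j dd) z
        - Ph θ ζ dζ cM cs j (Function.update ω j dd) z) ∂U) = _ :=
    congrArg avg (funext hinner)
  rw [heq, L2_avg_sum]
  refine Finset.sum_le_sum fun q hq => ?_
  obtain ⟨g1, g2, g4⟩ := h10 n (inCell ω j q)
  refine L2_cell m hC' n (inCell ω j q) g1 g2 g4 C₀ _ hC₀.le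
    (fun d d' => ∫ u, ζ (cM j (Gr θ dζ cM cs j ω (corner m j q))) d
      (emb m 1 ((d'.1 : ℕ), (d'.2 : ℕ)) u) ∂U) ?_
    (fun d => ∫ u, ζ (cM j (Gr θ dζ cM cs j ω (corner m j q))) d u ∂U) ?_ ?_
    (stp m n j) θ _ _ hs hθ ?_ (fun dd => Good θ (Function.update ω j dd) j q) ?_
  · intro d d'
    exact L2_int_abs_le fun y => (hK.bdd _ d _).1
  · intro d
    have h1 := hC5 m 1 hm (fun q' y => ζ (cM j (Gr θ dζ cM cs j ω (corner m j q))) d (emb m 1 q' y))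
      (fun q' => ((L2_zeta_cont hK _ d).comp (L2_emb_cont m 1 q')).measurable)
      ⟨C₀, fun q' y _ => (hK.bdd _ d _).1⟩
    simp only [L2_emb_loc hm] at h1
    rw [h1, L2_sum_dig m (fun q' => ∫ u, ζ (cM j (Gr θ dζ cM cs j ω (corner m j q))) d
      (emb m 1 q' u) ∂U), L2_avg_def]
    congr 1
    simp [Dig, sq]
  · exact hK.self _
  · have := (hcs j (Gr θ dζ cM cs j ω (corner m j q))).1
    positivity
  · intro dd hdd
    unfold Good at hdd
    rw [L2_inCell_update, Function.update_self] at hdd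
    exact not_le.mp hdd

/-- The algebra of the error terms. -/
lemma L2_alg {N L P c κ s θ r Cs C₀ C' σ K W : ℝ} (hN : 0 < N) (hL : 0 < L) (hP : 0 < P)
    (hθ : 0 < θ) (hC₀ : 0 < C₀) (hC' : 0 < C') (hc0 : 0 ≤ c) (hc : c ≤ Cs) (hr : 0 ≤ r)
    (hκ : κ = (Real.sqrt (N * L))⁻¹) (hs : s = P / Real.sqrt (N * L)) (hK : K = r * N / P ^ 2)
    (hW : W = (Real.sqrt (L / N))⁻¹) :
    (σ / L) * ((P ^ 2)⁻¹ * (r * c)) -
      ((P ^ 2)⁻¹ * ((Cs * C₀ * C' * θ⁻¹ ^ 2 / L ^ 2) * r ^ 2) +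
        (P ^ 2)⁻¹ * ((Cs * C₀ * Real.sqrt C' * θ⁻¹ * (Real.sqrt N / (L * Real.sqrt L * P))) *
          (|r - 1| * r))) ≤
    W * ((c * κ / N) * (K * σ) - ((c * κ / N) * C₀ * s ^ 2 * θ⁻¹ ^ 2 * (C' * K ^ 2) +
        |c * κ * (K / N - (P ^ 2)⁻¹)| * C₀ * s * θ⁻¹ * (Real.sqrt C' * K))) := by
  obtain ⟨a, ha, rfl⟩ : ∃ a : ℝ, 0 < a ∧ N = a ^ 2 :=
    ⟨Real.sqrt N, Real.sqrt_pos.mpr hN, (Real.sq_sqrt hN.le).symm⟩
  obtain ⟨b, hb, rfl⟩ : ∃ b : ℝ, 0 < b ∧ L = b ^ 2 :=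
    ⟨Real.sqrt L, Real.sqrt_pos.mpr hL, (Real.sq_sqrt hL.le).symm⟩
  have e1 : Real.sqrt (a ^ 2 * b ^ 2) = a * b := by
    rw [← mul_pow, Real.sqrt_sq (by positivity)]
  have e2 : Real.sqrt (b ^ 2 / a ^ 2) = b / a := by
    rw [← div_pow, Real.sqrt_sq (by positivity)]
  rw [e1] at hκ hs
  rw [e2] at hW
  subst hκ hs hK hW
  rw [Real.sqrt_sq ha.le, Real.sqrt_sq hb.le]
  have habs : |c * (a * b)⁻¹ * (r * a ^ 2 / P ^ 2 / a ^ 2 - (P ^ 2)⁻¹)| =
      c * (a * b)⁻¹ * (P ^ 2)⁻¹ * |r - 1| := by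
    have : c * (a * b)⁻¹ * (r * a ^ 2 / P ^ 2 / a ^ 2 - (P ^ 2)⁻¹) =
        (c * (a * b)⁻¹ * (P ^ 2)⁻¹) * (r - 1) := by
      field_simp
    rw [this, abs_mul, abs_of_nonneg (by positivity : 0 ≤ c * (a * b)⁻¹ * (P ^ 2)⁻¹)]
  rw [habs]
  have hmain : (b / a)⁻¹ * (c * (a * b)⁻¹ / a ^ 2 * (r * a ^ 2 / P ^ 2 * σ) -
      (c * (a * b)⁻¹ / a ^ 2 * C₀ * (P / (a * b)) ^ 2 * θ⁻¹ ^ 2 * (C' * (r * a ^ 2 / P ^ 2) ^ 2) +
        c * (a * b)⁻¹ * (P ^ 2)⁻¹ * |r - 1| * C₀ * (P / (a * b)) * θ⁻¹ *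
          (Real.sqrt C' * (r * a ^ 2 / P ^ 2)))) =
      (σ / b ^ 2) * ((P ^ 2)⁻¹ * (r * c)) -
      ((P ^ 2)⁻¹ * ((c * C₀ * C' * θ⁻¹ ^ 2 / (b ^ 2) ^ 2) * r ^ 2) +
        (P ^ 2)⁻¹ * ((c * C₀ * Real.sqrt C' * θ⁻¹ * (a / (b ^ 2 * b * P))) * (|r - 1| * r))) := by
    field_simp
  rw [hmain]
  have j1 : (P ^ 2)⁻¹ * ((c * C₀ * C' * θ⁻¹ ^ 2 / (b ^ 2) ^ 2) * r ^ 2) ≤
      (P ^ 2)⁻¹ * ((Cs * C₀ * C' * θ⁻¹ ^ 2 / (b ^ 2) ^ 2) * r ^ 2) := by gcongr
  have j2 : (P ^ 2)⁻¹ * ((c * C₀ * Real.sqrt C' * θ⁻¹ * (a / (b ^ 2 * b * P))) * (|r - 1| * r)) ≤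
      (P ^ 2)⁻¹ * ((Cs * C₀ * Real.sqrt C' * θ⁻¹ * (a / (b ^ 2 * b * P))) * (|r - 1| * r)) := by
    gcongr
  linarith

theorem L2 (hC1 : StmtC1) (hC2 : StmtC2) (hC5 : StmtC5) (hC9 : StmtC9) (hC10 : StmtC10)
    (hL1 : StmtL1) : StmtL2 := by
  classical
  intro B m _ C₀ δ Cs ζ dζ hm hCs hδ0 hδ1 hK
  obtain ⟨C', hC', h10⟩ := hC10 m
  obtain ⟨C₁, hC₁, hL⟩ := hL1 B m C₀ δ Cs ζ dζ hm hCs hK
  have hC₀ := hK.pos
  refine ⟨2 * Cs * C₀ * C' + 2 * Cs * C₀ * Real.sqrt C', by positivity, ?_⟩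
  intro n J j θ R₀ hn hj hJ hθ hθ1 hR₀ cM cs hcs hcs0
  have hm0 : (0 : ℝ) < m := by exact_mod_cast (by omega : 0 < m)
  have hn0 : (0 : ℝ) < n := by exact_mod_cast (by omega : 0 < n)
  have hlog : 0 < Real.log n := Real.log_pos (by exact_mod_cast (by omega : 1 < n))
  have hL' : ∀ (j : ℕ) (ω : Seqs m n), _ := fun j ω =>
    hL n θ R₀ hn hθ hR₀ cM cs
      (fun j g => by rw [abs_of_nonneg (hcs j g).1]; exact (hcs j g).2) hcs0 j ω
  set D : Seqs m n → ℝ × ℝ → ℝ := fun ω z =>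
    Ph θ ζ dζ cM cs (j + 1) ω z - Ph θ ζ dζ cM cs j ω z with hD
  have hDmeas : ∀ ω, Measurable (D ω) := fun ω => (hL' (j + 1) ω).1.sub (hL' j ω).1
  have hDbdd : ∃ C, ∀ ω, ∀ z ∈ Sq, |D ω z| ≤ C := by
    refine ⟨Cs * (Real.sqrt (n * Real.log n))⁻¹ * (Fintype.card (Dig m) * (n * C₀)), ?_⟩
    intro ω z _
    rw [hD]
    simp only [L2_D]
    split_ifs
    · rw [abs_mul, abs_mul, abs_of_nonneg (hcs _ _).1,
        abs_of_nonneg (by positivity : 0 ≤ (Real.sqrt (n * Real.log n))⁻¹)]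
      refine mul_le_mul (mul_le_mul_of_nonneg_right (hcs _ _).2 (by positivity)) ?_ (abs_nonneg _)
        (by positivity)
      refine (Finset.abs_sum_le_sum_abs _ _).trans ?_
      refine (Finset.sum_le_sum fun d _ => (?_ : _ ≤ (n : ℝ) * C₀)).trans ?_
      · rw [abs_mul]
        exact mul_le_mul (L2_xi_abs _ _ _) (hK.bdd _ d _).1 (abs_nonneg _) hn0.le
      · simp
    · rw [abs_zero]
      positivity
  have hDad : ∀ ω ω' : Seqs m n, (∀ l, l < j + 1 → ω l = ω' l) → D ω = D ω' := by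
    intro ω ω' h
    obtain ⟨-, -, -, -, -, -, -, h1⟩ := hL' (j + 1) ω
    obtain ⟨-, -, -, -, -, -, -, h2⟩ := hL' j ω
    funext z
    simp only [hD]
    rw [(h1 ω' h).2, (h2 ω' fun l hl => h l (by omega)).2]
  have hGr : ∀ ω ω' : Seqs m n, (∀ l, l < j → ω l = ω' l) →
      Gr θ dζ cM cs j ω = Gr θ dζ cM cs j ω' := by
    intro ω ω' h
    obtain ⟨-, -, -, -, -, -, -, h2⟩ := hL' j ω
    exact (h2 ω' h).1
  -- replace the generation J cells by the generation j + 1 cells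
  set G : Seqs m n → ℝ := fun ω =>
    (n : ℝ)⁻¹ * ∑ i, (∫ u, D ω (emb m (j + 1) (cidx ω (j + 1) i) u) ∂U) - ∫ z, D ω z ∂U with hG
  have hA : EJ J (fun ω : Seqs m n =>
      (n : ℝ)⁻¹ * ∑ i, (∫ u, D ω (emb m J (cidx ω J i) u) ∂U) - ∫ z, D ω z ∂U) = EJ J G := by
    rw [hG, L2_EJ_sub, L2_EJ_sub, L2_EJ_mul, L2_EJ_mul, L2_EJ_sum, L2_EJ_sum]
    congr 1
    congr 1
    refine Finset.sum_congr rfl fun i _ => ?_
    exact hC9 m n J (j + 1) hj D hDmeas hDbdd hDad i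
  have hB : EJ J G = EJ J (fun ω => avg (fun dd : Fin n → Dig m => G (Function.update ω j dd))) :=
    hC1 m n J j hj G
  -- abbreviations
  set κ : ℝ := (Real.sqrt (n * Real.log n))⁻¹ with hκ
  set W : ℝ := (Real.sqrt (Real.log n / n))⁻¹ with hW
  have hW0 : 0 ≤ W := by rw [hW]; positivity
  set P : ℝ := (m : ℝ) ^ j with hP
  have hP0 : 0 < P := by rw [hP]; positivity
  have hPP : (m : ℝ) ^ (2 * j) = P ^ 2 := by rw [hP, ← pow_mul]; ring_nf
  set σ : ℝ := 1 / (2 * Real.pi) * ((1 - δ) * Real.log m) with hσ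
  set Q := Finset.range (m ^ j) ×ˢ Finset.range (m ^ j) with hQ
  set c : Seqs m n → ℕ × ℕ → ℝ := fun ω q => cs j (Gr θ dζ cM cs j ω (corner m j q)) with hc
  set r : Seqs m n → ℕ × ℕ → ℝ := fun ω q => rdens ω j q with hr
  have hr0 : ∀ ω q, 0 ≤ r ω q := by
    intro ω q
    rw [hr]
    simp only [rdens]
    positivity
  set A₁ : ℝ := Cs * C₀ * C' * θ⁻¹ ^ 2 / Real.log n ^ 2 with hA₁
  set A₂ : ℝ := Cs * C₀ * Real.sqrt C' * θ⁻¹ *
    (Real.sqrt n / (Real.log n * Real.sqrt (Real.log n) * P)) with hA₂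
  have hA₁0 : 0 ≤ A₁ := by rw [hA₁]; positivity
  have hA₂0 : 0 ≤ A₂ := by rw [hA₂]; positivity
  have hlow : ∀ ω : Seqs m n,
      (σ / Real.log n) * ((P ^ 2)⁻¹ * ∑ q ∈ Q, r ω q * c ω q) -
        ((P ^ 2)⁻¹ * ∑ q ∈ Q, (A₁ * r ω q ^ 2 + A₂ * (|r ω q - 1| * r ω q))) ≤
      W * avg (fun dd : Fin n → Dig m => G (Function.update ω j dd)) := by
    intro ω
    have h1 := L2_past hC5 hK hC' h10 hn hθ cM cs hcs hGr ω κ hκ
    refine le_trans ?_ (mul_le_mul_of_nonneg_left h1 hW0)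
    rw [Finset.mul_sum, Finset.mul_sum, Finset.mul_sum, Finset.mul_sum, ← Finset.sum_sub_distrib]
    refine Finset.sum_le_sum fun q _ => ?_
    have h2 := L2_alg (N := (n : ℝ)) (L := Real.log n) (P := P) (c := c ω q) (κ := κ)
      (s := stp m n j) (θ := θ) (r := r ω q) (Cs := Cs) (C₀ := C₀) (C' := C') (σ := σ)
      (K := ((inCell ω j q).card : ℝ)) (W := W) hn0 hlog hP0 hθ hC₀ hC' (hcs _ _).1 (hcs _ _).2
      (hr0 ω q) hκ (by rw [stp]) (by
        simp only [hr, rdens, hPP]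
        field_simp) hW
    rw [hPP]
    refine le_trans (le_of_eq ?_) h2
    rw [hA₁, hA₂]
    ring
  have hcells : ∀ ω : Seqs m n, (P ^ 2)⁻¹ * ∑ q ∈ Q, r ω q * c ω q =
      ∫ z, rdens ω j (qidx m j z) * cs j (Gr θ dζ cM cs j ω (corner m j (qidx m j z))) ∂U := by
    intro ω
    have h1 := hC5 m j (by omega) (fun q _ => r ω q * c ω q) (fun q => measurable_const)
      ⟨P ^ 2 * Cs, fun q y _ => by
        rw [abs_of_nonneg (mul_nonneg (hr0 ω q) (hcs _ _).1)]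
        refine mul_le_mul ?_ (hcs _ _).2 (hcs _ _).1 (by positivity)
        simp only [hr, rdens, hPP]
        rw [div_le_iff₀ hn0]
        refine mul_le_mul_of_nonneg_left ?_ (by positivity)
        have := Finset.card_le_univ (inCell ω j q)
        rw [Fintype.card_fin] at this
        exact_mod_cast this⟩
    simp only [integral_const, probReal_univ, one_smul] at h1
    rw [hPP] at h1
    exact h1.symm
  have hcount : ∀ q ∈ Q, EJ J (fun ω : Seqs m n => r ω q ^ 2) ≤ 2 ∧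
      EJ J (fun ω : Seqs m n => |r ω q - 1| * r ω q) ≤ 2 * (P / Real.sqrt n) := by
    intro q hq
    rw [hQ, Finset.mem_product, Finset.mem_range, Finset.mem_range] at hq
    have hjn : m ^ (2 * j) ≤ n := by
      have h1 : m ^ (2 * j) ≤ m ^ (2 * J) := Nat.pow_le_pow_right (by omega) (by omega)
      have h2 : m ^ (2 * J) ≤ n := by exact_mod_cast hJ
      exact h1.trans h2
    obtain ⟨c1, c2, -⟩ := hC2 m n J j hm (by omega) hj.le hjn q hq.1 hq.2
    have hPn : P ^ 2 ≤ n := by rw [← hPP]; exact_mod_cast hjn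
    have hρ : P / Real.sqrt n ≤ 1 := by
      rw [div_le_one (Real.sqrt_pos.mpr hn0)]
      exact Real.le_sqrt_of_sq_le hPn
    have hρ0 : 0 ≤ P / Real.sqrt n := by positivity
    have hρ2 : (P / Real.sqrt n) ^ 2 = (m : ℝ) ^ (2 * j) / n := by
      rw [div_pow, Real.sq_sqrt hn0.le, hPP]
    rw [← hρ2] at c2
    have c3 : EJ J (fun ω : Seqs m n => |r ω q - 1|) ≤ P / Real.sqrt n := by
      have h1 := L2_EJ_sq J (fun ω : Seqs m n => |r ω q - 1|)
      simp only [sq_abs] at h1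
      exact (abs_le_of_sq_le_sq' (h1.trans c2) hρ0).2
    constructor
    · have e : (fun ω : Seqs m n => r ω q ^ 2) =
          fun ω => ((r ω q - 1) ^ 2 + 2 * r ω q) - 1 := by
        funext ω; ring
      rw [e, L2_EJ_sub, L2_EJ_add, L2_EJ_mul, L2_EJ_const]
      have : (P / Real.sqrt n) ^ 2 ≤ 1 := pow_le_one₀ hρ0 hρ
      have c1' : EJ J (fun ω : Seqs m n => r ω q) = 1 := c1
      rw [c1']
      linarith
    · have h1 : EJ J (fun ω : Seqs m n => |r ω q - 1| * r ω q) ≤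
          EJ J (fun ω : Seqs m n => (r ω q - 1) ^ 2 + |r ω q - 1|) := by
        refine L2_EJ_mono J fun ω => ?_
        have : |r ω q - 1| * r ω q = |r ω q - 1| * (r ω q - 1) + |r ω q - 1| := by ring
        rw [this]
        have h3 : |r ω q - 1| * (r ω q - 1) ≤ |r ω q - 1| * |r ω q - 1| :=
          mul_le_mul_of_nonneg_left (le_abs_self _) (abs_nonneg _)
        rw [abs_mul_abs_self] at h3
        nlinarith
      rw [L2_EJ_add] at h1
      have h4 : (P / Real.sqrt n) ^ 2 ≤ P / Real.sqrt n := by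
        rw [sq]
        exact mul_le_of_le_one_left hρ0 hρ
      have c2' : EJ J (fun ω : Seqs m n => (r ω q - 1) ^ 2) ≤ (P / Real.sqrt n) ^ 2 := c2
      linarith
  -- assemble
  have hfin : (σ / Real.log n) * EJ J (fun ω : Seqs m n => ∫ z, rdens ω j (qidx m j z) *
        cs j (Gr θ dζ cM cs j ω (corner m j (qidx m j z))) ∂U) -
      (P ^ 2)⁻¹ * ∑ q ∈ Q, (A₁ * EJ J (fun ω : Seqs m n => r ω q ^ 2) +
        A₂ * EJ J (fun ω : Seqs m n => |r ω q - 1| * r ω q)) ≤ W * EJ J G := by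
    rw [hB, ← L2_EJ_mul J W]
    refine le_trans (le_of_eq ?_) (L2_EJ_mono J hlow)
    simp only [hcells]
    rw [L2_EJ_sub, L2_EJ_mul, L2_EJ_mul, L2_EJ_sum]
    congr 2
    refine Finset.sum_congr rfl fun q _ => ?_
    rw [L2_EJ_add, L2_EJ_mul, L2_EJ_mul]
  have herr : (P ^ 2)⁻¹ * ∑ q ∈ Q, (A₁ * EJ J (fun ω : Seqs m n => r ω q ^ 2) +
        A₂ * EJ J (fun ω : Seqs m n => |r ω q - 1| * r ω q)) ≤
      A₁ * 2 + A₂ * (2 * (P / Real.sqrt n)) := by
    have h1 : ∑ q ∈ Q, (A₁ * EJ J (fun ω : Seqs m n => r ω q ^ 2) +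
        A₂ * EJ J (fun ω : Seqs m n => |r ω q - 1| * r ω q)) ≤
        ∑ _q ∈ Q, (A₁ * 2 + A₂ * (2 * (P / Real.sqrt n))) := by
      refine Finset.sum_le_sum fun q hq => ?_
      exact add_le_add (mul_le_mul_of_nonneg_left (hcount q hq).1 hA₁0)
        (mul_le_mul_of_nonneg_left (hcount q hq).2 hA₂0)
    have h2 : ∑ _q ∈ Q, (A₁ * 2 + A₂ * (2 * (P / Real.sqrt n))) =
        P ^ 2 * (A₁ * 2 + A₂ * (2 * (P / Real.sqrt n))) := by
      rw [Finset.sum_const, hQ, Finset.card_product, Finset.card_range, nsmul_eq_mul]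
      push_cast
      rw [hP]
      ring
    rw [h2] at h1
    calc _ ≤ (P ^ 2)⁻¹ * (P ^ 2 * (A₁ * 2 + A₂ * (2 * (P / Real.sqrt n)))) :=
          mul_le_mul_of_nonneg_left h1 (by positivity)
      _ = _ := by field_simp
  have hAA : A₁ * 2 + A₂ * (2 * (P / Real.sqrt n)) ≤
      (2 * Cs * C₀ * C' + 2 * Cs * C₀ * Real.sqrt C') *
        (θ⁻¹ ^ 2 / Real.log n ^ 2 + θ⁻¹ / (Real.log n * Real.sqrt (Real.log n))) := by
    have e1 : A₁ * 2 = (2 * Cs * C₀ * C') * (θ⁻¹ ^ 2 / Real.log n ^ 2) := by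
      rw [hA₁]; ring
    have e2 : A₂ * (2 * (P / Real.sqrt n)) = (2 * Cs * C₀ * Real.sqrt C') *
        (θ⁻¹ / (Real.log n * Real.sqrt (Real.log n))) := by
      rw [hA₂]
      have : Real.sqrt n ≠ 0 := (Real.sqrt_pos.mpr hn0).ne'
      field_simp
    rw [e1, e2]
    have p1 : 0 ≤ θ⁻¹ ^ 2 / Real.log n ^ 2 := by positivity
    have p2 : 0 ≤ θ⁻¹ / (Real.log n * Real.sqrt (Real.log n)) := by positivity
    have p3 : 0 ≤ 2 * Cs * C₀ * C' := by positivity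
    have p4 : 0 ≤ 2 * Cs * C₀ * Real.sqrt C' := by positivity
    nlinarith [mul_nonneg p3 p2, mul_nonneg p4 p1]
  have hgoal : (1 - δ) * Real.log m / (2 * Real.pi * Real.log n) = σ / Real.log n := by
    rw [hσ]
    have := Real.pi_pos
    field_simp
  rw [hgoal]
  have hA' : EJ J (fun ω : Seqs m n =>
      (n : ℝ)⁻¹ * ∑ i, (∫ u, (Ph θ ζ dζ cM cs (j + 1) ω (emb m J (cidx ω J i) u)
        - Ph θ ζ dζ cM cs j ω (emb m J (cidx ω J i) u)) ∂U)
      - ∫ z, (Ph θ ζ dζ cM cs (j + 1) ω z - Ph θ ζ dζ cM cs j ω z) ∂U) = EJ J G := hA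
  rw [hA']
  linarith [hfin, herr, hAA]

end Match2D
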