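import Pool.Agent.Work.MP_884187_pr.Bd.B03

/-!
MP_884187_pr, item L3: the process of the lower bound.
-/

open MeasureTheory Set Filter Topology

namespace Match2D

theorem L3_eta : Tendsto (fun n : ℕ => Real.log n ^ (-(1 / 16) : ℝ)) atTop (𝓝 0) := by
  have h1 : Tendsto (fun x : ℝ => x ^ (-(1 / 16) : ℝ)) atTop (𝓝 0) :=
    tendsto_rpow_neg_atTop (by norm_num)
  exact h1.comp (Real.tendsto_log_atTop.comp tendsto_natCast_atTop_atTop)

theorem L3_eta_pow {L : ℝ} (hL : 0 < L) : (L ^ (-(1 / 16) : ℝ)) ^ 16 = L⁻¹ := by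
  rw [← Real.rpow_natCast, ← Real.rpow_mul hL.le]
  norm_num
  rw [Real.rpow_neg_one]

/-- The elementary consequences of `η ^ 16 = 1 / L`. -/
theorem L3_eta_facts {L η : ℝ} (hL : 0 < L) (hη : 0 < η) (hη1 : η ≤ 1) (h : η ^ 16 = L⁻¹) :
    (η ^ 2)⁻¹ ^ 3 / L ≤ η ∧ 1 / L ≤ η ∧ (η ^ 2)⁻¹ ^ 2 / L ≤ η ∧ (η ^ 2)⁻¹ / Real.sqrt L ≤ η := by
  have hL' : L = (η ^ 16)⁻¹ := by rw [h, inv_inv]
  have hpow : ∀ k : ℕ, 1 ≤ k → η ^ k ≤ η := fun k hk => pow_le_of_le_one hη.le hη1 (by omega)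
  have hs : Real.sqrt L = (η ^ 8)⁻¹ := by
    rw [hL']
    have : (η ^ 16)⁻¹ = ((η ^ 8)⁻¹) ^ 2 := by
      rw [inv_pow, ← pow_mul]
    rw [this, Real.sqrt_sq (by positivity)]
  refine ⟨?_, ?_, ?_, ?_⟩
  · have : (η ^ 2)⁻¹ ^ 3 / L = η ^ 10 := by
      rw [hL']
      field_simp
    rw [this]
    exact hpow 10 (by norm_num)
  · have : 1 / L = η ^ 16 := by
      rw [h, one_div]
    rw [this]
    exact hpow 16 (by norm_num)
  · have : (η ^ 2)⁻¹ ^ 2 / L = η ^ 12 := by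
      rw [hL']
      field_simp
    rw [this]
    exact hpow 12 (by norm_num)
  · have : (η ^ 2)⁻¹ / Real.sqrt L = η ^ 6 := by
      rw [hs]
      field_simp
    rw [this]
    exact hpow 6 (by norm_num)

theorem L3_delta (κ p ε : ℝ) (hp : 1 ≤ p) (hε : 0 < ε) : ∃ δ : ℝ, 0 < δ ∧ δ ≤ 1 / 8 ∧
    κ * (1 / (8 * Real.pi)) ^ (p / 2) - ε ≤
      κ * ((1 - 4 * δ) * (1 / (8 * Real.pi))) ^ (p / 2) := by
  have h1 : Tendsto (fun δ : ℝ => κ * ((1 - 4 * δ) * (1 / (8 * Real.pi))) ^ (p / 2)) (𝓝 0)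
      (𝓝 (κ * ((1 - 4 * 0) * (1 / (8 * Real.pi))) ^ (p / 2))) := by
    have hc : Continuous (fun δ : ℝ => κ * ((1 - 4 * δ) * (1 / (8 * Real.pi))) ^ (p / 2)) := by
      refine continuous_const.mul (Continuous.rpow_const ?_ fun _ => Or.inr (by linarith))
      fun_prop
    exact hc.tendsto 0
  have e : κ * ((1 - 4 * 0) * (1 / (8 * Real.pi))) ^ (p / 2) =
      κ * (1 / (8 * Real.pi)) ^ (p / 2) := by
    congr 2
    ring
  rw [e] at h1
  have h2 := h1.eventually (lt_mem_nhds (sub_lt_self (κ * (1 / (8 * Real.pi)) ^ (p / 2)) hε))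
  have h3 : ∀ᶠ δ : ℝ in 𝓝[>] 0, κ * (1 / (8 * Real.pi)) ^ (p / 2) - ε <
      κ * ((1 - 4 * δ) * (1 / (8 * Real.pi))) ^ (p / 2) := h2.filter_mono nhdsWithin_le_nhds
  have h4 : ∀ᶠ δ : ℝ in 𝓝[>] 0, δ ∈ Ioo (0 : ℝ) (1 / 8) :=
    Ioo_mem_nhdsGT (by norm_num)
  obtain ⟨δ, h5, h6⟩ := (h3.and h4).exists
  exact ⟨δ, h6.1, h6.2.le, h5.le⟩

/-- The normalised matrices are in `UM B`. -/
theorem L3_unim {W : ℝ → ℝ × ℝ → ℝ} {S : ℝ → ℝ × ℝ → ℝ × ℝ} {HI : ℝ → ℝ × ℝ → SymM}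
    {τ T R' R₀ R e C Cg : ℝ} (hP : L3P W S HI τ T R' R₀ R e C Cg) {t : ℝ} (ht : t ∈ Icc τ T)
    {g : ℝ × ℝ} (hg : len g ≤ R) : Unim (2 + C ^ 2) (HI t g).unit := by
  obtain ⟨ha, hd⟩ := hP.pos t ht g hg
  obtain ⟨u1, u2, u3, -, -⟩ := L3_unit _ ha hd
  refine ⟨u1, u2, ?_⟩
  have hC := hP.hC
  have hC0 : 0 < C := by linarith
  have hs : 0 < Real.sqrt (HI t g).det := Real.sqrt_pos.2 hd
  have h1 : (HI t g).tr ≤ C := by
    refine le_trans ?_ (hP.bH t ht g hg)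
    unfold SymM.tr SymM.nrm
    have := le_abs_self (HI t g).a
    have := le_abs_self (HI t g).c
    have := abs_nonneg (HI t g).b
    linarith
  have h2 : 1 ≤ C * Real.sqrt (HI t g).det := by
    have h3 := hP.bD t ht g hg
    have h4 : 1 ≤ (C * Real.sqrt (HI t g).det) ^ 2 := by
      rw [mul_pow, Real.sq_sqrt hd.le]
      have : C * (HI t g).det ≤ C ^ 2 * (HI t g).det :=
        mul_le_mul_of_nonneg_right (by nlinarith) hd.le
      linarith
    exact (one_le_sq_iff₀ (by positivity)).1 h4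
  have h5 : (HI t g).unit.tr * Real.sqrt (HI t g).det ≤ C ^ 2 * Real.sqrt (HI t g).det := by
    rw [u3]
    calc (HI t g).tr ≤ C := h1
      _ = C * 1 := by ring
      _ ≤ C * (C * Real.sqrt (HI t g).det) := mul_le_mul_of_nonneg_left h2 hC0.le
      _ = _ := by ring
  have h6 := le_of_mul_le_mul_right h5 hs
  linarith

theorem L3 (hC1 : StmtC1) (hC2 : StmtC2) (hC3 : StmtC3') (hC5 : StmtC5) (hC10 : StmtC10)
    (hH0 : StmtH0) (hL1 : StmtL1) (hL2 : StmtL2) : StmtL3 := by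
  classical
  intro p hp κ V W S HI hκ hW τ ε hτ hε
  have hpi := Real.pi_gt_three
  set T₀ : ℝ := 1 / (8 * Real.pi) with hT₀
  have hT₀0 : 0 < T₀ := by positivity
  have hT₀1 : T₀ ≤ 1 := by
    rw [hT₀, div_le_one (by positivity)]
    linarith
  obtain ⟨Cg, hCg, hex⟩ := L3_exists_P hW hτ (by linarith : τ ≤ τ + T₀)
  set e : ℝ := ε / (8 * Real.exp Cg) with he
  have he0 : 0 < e := by positivity
  obtain ⟨R', R₀, R, C, hR1, hP⟩ := hex e he0
  have hC := hP.hC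
  have hC0 : 0 < C := by linarith
  have hR0 : 0 < R := by linarith [hP.hR, hP.hR₀, hP.hR']
  have hR₀0 : 0 < R₀ := by linarith [hP.hR₀, hP.hR']
  obtain ⟨δ, hδ0, hδ1, hδ2⟩ := L3_delta κ p (ε / 2) hp (by positivity)
  refine ⟨R, hR0, hR1, 2 + C ^ 2, by nlinarith, δ, hδ0, ⌈Real.exp (1 / δ)⌉₊ + 3, ?_⟩
  intro m hm _ C₀ ζ dζ hK
  -- the size of m
  have hm2 : 2 ≤ m := by omega
  have hm3 : Real.exp (1 / δ) ≤ m := by
    have h1 : Real.exp (1 / δ) ≤ ⌈Real.exp (1 / δ)⌉₊ := Nat.le_ceil _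
    have h2 : (⌈Real.exp (1 / δ)⌉₊ : ℝ) ≤ m := by exact_mod_cast (by omega)
    linarith
  have hm0 : (0 : ℝ) < m := by exact_mod_cast (by omega : 0 < m)
  have hlmδ : 1 / δ ≤ Real.log m := by
    rw [Real.le_log_iff_exp_le hm0]
    exact hm3
  have hδlm : 1 ≤ δ * Real.log m := by
    rw [div_le_iff₀ hδ0] at hlmδ
    linarith
  have hlm : 1 ≤ Real.log m := by
    have : (1 : ℝ) ≤ 1 / δ := by
      rw [le_div_iff₀ hδ0]
      linarith
    linarith
  have hlm0 : 0 < Real.log m := by linarith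
  obtain ⟨C₁, hC₁, hL1'⟩ := hL1 (2 + C ^ 2) m C₀ δ C ζ dζ hm2 hC0 hK
  obtain ⟨C₂, hC₂, hL2'⟩ := hL2 (2 + C ^ 2) m C₀ δ C ζ dζ hm2 hC0 hδ0.le (by linarith) hK
  obtain ⟨c, hc, hC10'⟩ := hC10 m
  have hX : ∀ (n : ℕ) (I : Finset (Fin n)),
      avg (fun δ : Fin n → Dig m => L3_X I δ ^ 4) ≤ c * (I.card : ℝ) ^ 2 :=
    fun n I => (hC10' n I).2.2
  refine ⟨2 * C₁, by positivity, ?_⟩
  -- constants
  set Λ : ℝ := Real.log m with hΛ
  set K : ℝ := Λ * C + 3 * (C ^ 2 * C₀ * c + 3 * C ^ 7 * C₁ * C₀ ^ 2 * (1 + c) +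
    2 * C * (1 + C₁) * Λ + C * Λ ^ 2) + 2 * C₂ with hKd
  have hC₀ := hK.pos
  have hK0 : 0 ≤ K := by positivity
  set K' : ℝ := Cg * (2 * R * C₁ + (1 + R ^ 2)) + 3 * (2 * R * C * C₀ * c) with hK'
  -- eventually
  have hlogt : Tendsto (fun n : ℕ => Real.log n) atTop atTop :=
    Real.tendsto_log_atTop.comp tendsto_natCast_atTop_atTop
  have ev1 : ∀ᶠ n : ℕ in atTop, 1 ≤ Real.log n := hlogt.eventually_ge_atTop 1
  have ev2 : ∀ᶠ n : ℕ in atTop, 2 ≤ n := eventually_ge_atTop 2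
  have evη : ∀ x : ℝ, 0 < x → ∀ᶠ n : ℕ in atTop, Real.log n ^ (-(1 / 16) : ℝ) ≤ x := by
    intro x hx
    exact L3_eta.eventually (ge_mem_nhds hx)
  have ev3 := evη 1 one_pos
  have evmul : ∀ a x : ℝ, 0 < x → ∀ᶠ n : ℕ in atTop,
      a * Real.log n ^ (-(1 / 16) : ℝ) ≤ x := by
    intro a x hx
    have h1 := L3_eta.const_mul a
    rw [mul_zero] at h1
    exact h1.eventually (ge_mem_nhds hx)
  have ev4 := evmul C₁ (R - R₀) (by linarith [hP.hR])
  have ev5 := evmul C₁ (R₀ - R') (by linarith [hP.hR₀])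
  have ev6 := evmul K' 1 one_pos
  have ev7 := evmul K (ε / 8) (by positivity)
  obtain ⟨hH1, hH2⟩ := hH0 2 m (by norm_num) hm2
  have ev8 : ∀ᶠ n : ℕ in atTop, (1 - 4 * δ) * T₀ ≤
      (1 - 3 * δ) * Real.log m / (4 * Real.pi) * ((Jn 2 m n : ℝ) / Real.log n) := by
    have h1 := hH2.const_mul ((1 - 3 * δ) * Real.log m / (4 * Real.pi))
    have h2 : (1 - 3 * δ) * Real.log m / (4 * Real.pi) * (1 / (2 * Real.log m)) =
        (1 - 3 * δ) * T₀ := by
      have hne : Real.log m ≠ 0 := hlm0.ne'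
      rw [hT₀]
      field_simp
      ring
    rw [h2] at h1
    have h3 : (1 - 4 * δ) * T₀ < (1 - 3 * δ) * T₀ :=
      mul_lt_mul_of_pos_right (by linarith) hT₀0
    exact (h1.eventually (lt_mem_nhds h3)).mono fun _ h => h.le
  obtain ⟨n₀, hn₀⟩ := eventually_atTop.1
    (ev1.and (ev2.and (ev3.and (ev4.and (ev5.and (ev6.and (ev7.and (hH1.and ev8))))))))
  refine ⟨n₀, fun n hn => ?_⟩
  obtain ⟨hL1n, hn2, e3, e4, e5, e6, e7, ⟨hJ, -⟩, e8⟩ := hn₀ n hn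
  have hL0 : 0 < Real.log n := by linarith
  set L := Real.log n with hLd
  set η : ℝ := L ^ (-(1 / 16) : ℝ) with hη
  have hη0 : 0 < η := Real.rpow_pos_of_pos hL0 _
  obtain ⟨f1, f2, f3, f4⟩ := L3_eta_facts hL0 hη0 e3 (L3_eta_pow hL0)
  set J := Jn 2 m n with hJd
  rw [Real.rpow_two] at hJ
  obtain ⟨-, -, hJ1⟩ := L3_ratio (m := m) (n := n) (J := J) (j := J) hm2 hn2 le_rfl hJ hL1n
  have hn0 : (0 : ℝ) < n := by positivity
  have hJ2 : 2 * (J : ℝ) * Real.log m ≤ L := by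
    have h1 := Real.log_le_log (by positivity) hJ1
    rw [Real.log_pow] at h1
    push_cast at h1
    exact h1
  set lam : ℝ := (1 - 3 * δ) * Real.log m / (4 * Real.pi * L) with hlam
  have h3δ : 0 < 1 - 3 * δ := by linarith
  have hlam0 : 0 ≤ lam := by positivity
  have hlamJ : lam * J ≤ T₀ := by
    have h1 : lam * J = (1 - 3 * δ) * (2 * J * Real.log m) / (8 * Real.pi * L) := by
      rw [hlam]
      field_simp
      ring
    rw [h1, hT₀, div_le_div_iff₀ (by positivity) (by positivity)]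
    have h2 : (1 - 3 * δ) * (2 * J * Real.log m) ≤ 1 * L :=
      mul_le_mul (by linarith) hJ2 (by positivity) (by norm_num)
    calc (1 - 3 * δ) * (2 * J * Real.log m) * (8 * Real.pi) ≤ 1 * L * (8 * Real.pi) :=
          mul_le_mul_of_nonneg_right h2 (by positivity)
      _ = _ := by ring
  have hlamJ' : (1 - 4 * δ) * T₀ ≤ lam * J := by
    refine e8.trans (le_of_eq ?_)
    rw [hlam]
    field_simp
  have htime : ∀ j, j < J → τ + lam * ((J : ℝ) - (j + 1)) ∈ Icc τ (τ + T₀) := by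
    intro j hj
    have hj' : ((j : ℝ) + 1) ≤ J := by exact_mod_cast hj
    have hj0 : (0 : ℝ) ≤ j := Nat.cast_nonneg _
    refine ⟨by nlinarith, ?_⟩
    have : lam * ((J : ℝ) - (j + 1)) ≤ lam * J :=
      mul_le_mul_of_nonneg_left (by linarith) hlam0
    linarith
  -- the controls
  have hone : Unim (2 + C ^ 2) ⟨1, 0, 1⟩ := by
    refine ⟨one_pos, ?_, ?_⟩
    · unfold SymM.det
      norm_num
    · unfold SymM.tr
      simp only
      nlinarith
  set cM : ℕ → ℝ × ℝ → UM (2 + C ^ 2) := fun j g =>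
    if hh : j < J ∧ len g ≤ R₀ then
      ⟨(HI (τ + lam * ((J : ℝ) - (j + 1))) g).unit,
        L3_unim hP (htime j hh.1) (hh.2.trans hP.hR.le)⟩
    else ⟨⟨1, 0, 1⟩, hone⟩ with hcM
  set cs : ℕ → ℝ × ℝ → ℝ := fun j g =>
    if j < J ∧ len g ≤ R₀ then Real.sqrt (HI (τ + lam * ((J : ℝ) - (j + 1))) g).det
    else 0 with hcs
  have hcs0 : ∀ j g, 0 ≤ cs j g ∧ cs j g ≤ C := by
    intro j g
    rw [hcs]
    simp only
    split_ifs with hh
    · exact ⟨Real.sqrt_nonneg _, L3_cs_le hP (htime j hh.1) (hh.2.trans hP.hR.le)⟩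
    · exact ⟨le_rfl, hC0.le⟩
  have hcs1 : ∀ j g, R₀ < len g → cs j g = 0 := by
    intro j g hg
    rw [hcs]
    simp only
    rw [if_neg]
    intro hh
    linarith [hh.2]
  have hcs2 : ∀ j, j < J → ∀ g, len g ≤ R₀ →
      cs j g = Real.sqrt (HI (τ + lam * ((J : ℝ) - (j + 1))) g).det ∧
      (cM j g).1 = (HI (τ + lam * ((J : ℝ) - (j + 1))) g).unit := by
    intro j hj g hg
    constructor
    · rw [hcs]
      simp only
      rw [if_pos ⟨hj, hg⟩]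
    · rw [hcM]
      simp only
      rw [dif_pos ⟨hj, hg⟩]
  set θ : ℝ := η ^ 2 with hθ
  have hθ0 : 0 < θ := by positivity
  have hθη : θ ≤ η := by
    rw [hθ]
    nlinarith
  have hθ1 : θ ≤ 1 := hθη.trans e3
  have hC₁θ : C₁ * θ ≤ C₁ * η := mul_le_mul_of_nonneg_left hθη hC₁.le
  have F := hL1' n θ R₀ hn2 hθ0 hR₀0 cM cs (fun j g => by
    rw [abs_of_nonneg (hcs0 j g).1]
    exact (hcs0 j g).2) hcs1
  have hbG : ∀ (j : ℕ) (ω : Seqs m n), ∀ x ∈ Sq, len (Gr θ dζ cM cs j ω x) ≤ R := by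
    intro j ω x hx
    have := (F j ω).2.2.1 x hx
    linarith
  have hQ : L3Q W S HI τ (τ + T₀) R' R₀ R e C Cg m n J C₀ δ C₁ c lam Λ η θ ζ dζ cM cs := by
    refine ⟨hP, hK, hm2, hn2, hX n, hc.le, hθ0, e3, le_rfl, f1, f2, hη0, hC₁, hlam0, hlm0.le,
      ?_, by linarith, by linarith, by linarith, fun j ω => (F j ω).2.1, hbG,
      fun j ω => (F j ω).2.2.2.1, ?_, ?_, hcs0, hcs1, hcs2⟩
    · rw [hlam, div_le_div_iff₀ (by positivity) hL0]
      have h1 : (1 - 3 * δ) * Real.log m ≤ 1 * Real.log m :=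
        mul_le_mul_of_nonneg_right (by linarith) hlm0.le
      have h2 : L ≤ 4 * Real.pi * L := by nlinarith
      calc (1 - 3 * δ) * Real.log m * L ≤ 1 * Real.log m * L :=
            mul_le_mul_of_nonneg_right h1 hL0.le
        _ = Real.log m * L := by ring
        _ ≤ Real.log m * (4 * Real.pi * L) := mul_le_mul_of_nonneg_left h2 hlm0.le
    · intro j ω x hx
      have hxS := Sq0_subset_Sq hx
      have h1 := (F j ω).2.2.2.2.1 x hxS _ (L3_corner_mem (by omega : 0 < m) j hx)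
      have h2 := L1_corner_dist (j := j) hm2 x hxS
      refine h1.trans ?_
      have e9 : C₁ * θ * (m : ℝ) ^ j / m * len (x - corner m j (qidx m j x)) =
          (C₁ * θ / m) * ((m : ℝ) ^ j * len (x - corner m j (qidx m j x))) := by
        ring
      rw [e9]
      calc (C₁ * θ / m) * ((m : ℝ) ^ j * len (x - corner m j (qidx m j x))) ≤
          (C₁ * θ / m) * 2 := mul_le_mul_of_nonneg_left h2 (by positivity)
        _ = (C₁ * θ) * (2 / m) := by ring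
        _ ≤ (C₁ * θ) * 1 := by
            refine mul_le_mul_of_nonneg_left ?_ (by positivity)
            rw [div_le_one hm0]
            exact_mod_cast hm2
        _ = C₁ * θ := by ring
    · intro j ω d
      refine ((F j (Function.update ω j d)).2.2.2.2.2.2.2 ω fun l hl => ?_).1
      exact Function.update_of_ne (by omega) _ _
  have hPb : ∀ (j : ℕ) (ω : Seqs m n), ∀ x ∈ Sq,
      |Ph θ ζ dζ cM cs j ω x| ≤ |Ph θ ζ dζ cM cs j ω (0, 0)| + R * 2 := by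
    intro j ω x hx
    have h00 : ((0 : ℝ), (0 : ℝ)) ∈ Sq := ⟨⟨le_rfl, zero_le_one⟩, ⟨le_rfl, zero_le_one⟩⟩
    have h1 := (F j ω).2.2.2.2.2.2.1 x hx (0, 0) h00
    have h2 : len (x - (0, 0)) ≤ 2 := by
      refine (len_le_abs_add_abs _).trans ?_
      simp only [Prod.fst_sub, Prod.snd_sub, sub_zero]
      rw [abs_of_nonneg hx.1.1, abs_of_nonneg hx.2.1]
      linarith [hx.1.2, hx.2.2]
    have h3 : (R₀ + C₁ * θ) * len (x - (0, 0)) ≤ R * 2 :=
      mul_le_mul (by linarith) h2 (A1_len_nonneg _) hR0.le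
    have h4 : |Ph θ ζ dζ cM cs j ω x| ≤ |Ph θ ζ dζ cM cs j ω x - Ph θ ζ dζ cM cs j ω (0, 0)| +
        |Ph θ ζ dζ cM cs j ω (0, 0)| := by
      have := abs_add_le (Ph θ ζ dζ cM cs j ω x - Ph θ ζ dζ cM cs j ω (0, 0))
        (Ph θ ζ dζ cM cs j ω (0, 0))
      rwa [sub_add_cancel] at this
    linarith
  have hmain := L3_total hQ hC1 hC2 hC3 hC5 hJ hL1n hlm hJ2 e6 (fun j ω => (F j ω).1)
    (fun j ω => ⟨_, hPb j ω⟩) hC₂.le
    (fun j hj => hL2' n J j θ R₀ hn2 hj hJ1 hθ0 hθ1 hR₀0 cM cs hcs0 hcs1)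
    f3 f4 hlam hδlm
  refine ⟨Ph θ ζ dζ cM cs J, Gr θ dζ cM cs J, fun ω => ⟨(F J ω).1, (F J ω).2.1⟩,
    fun ω => hbG J ω, ?_, ?_, ?_, ?_⟩
  · intro ω x hx y hy
    refine ((F J ω).2.2.2.2.2.2.1 x hx y hy).trans ?_
    exact mul_le_mul_of_nonneg_right (by linarith) (A1_len_nonneg _)
  · intro ω x hx y hy
    have h1 := (abs_le.1 ((F J ω).2.2.2.2.2.1 x hx y hy)).2
    have h2 : C₁ * θ * (m : ℝ) ^ J / m * len (x - y) ^ 2 ≤
        2 * C₁ * (m : ℝ) ^ J / 2 * len (x - y) ^ 2 := by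
      refine mul_le_mul_of_nonneg_right ?_ (sq_nonneg _)
      have h3 : C₁ * θ * (m : ℝ) ^ J / m ≤ C₁ * θ * (m : ℝ) ^ J :=
        div_le_self (by positivity) (by exact_mod_cast (by omega : 1 ≤ m))
      have h4 : C₁ * θ * (m : ℝ) ^ J ≤ C₁ * 1 * (m : ℝ) ^ J := by gcongr
      have h5 : 2 * C₁ * (m : ℝ) ^ J / 2 = C₁ * 1 * (m : ℝ) ^ J := by ring
      rw [h5]
      exact h3.trans h4
    linarith
  · -- boundedness
    refine ⟨(∑ w : Fin J → Fin n → Dig m, |Ph θ ζ dζ cM cs J (ext J w) (0, 0)|) + R * 2, ?_⟩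
    intro ω x hx
    refine (hPb J ω x hx).trans ?_
    have h1 : Ph θ ζ dζ cM cs J ω = Ph θ ζ dζ cM cs J
        (ext J (fun j => ω j) : Seqs m n) := by
      refine ((F J ω).2.2.2.2.2.2.2 _ fun l hl => ?_).2
      funext i
      unfold ext
      rw [dif_pos hl]
    rw [h1]
    have h2 : |Ph θ ζ dζ cM cs J (ext J (fun j => ω j)) (0, 0)| ≤
        ∑ w : Fin J → Fin n → Dig m, |Ph θ ζ dζ cM cs J (ext J w) (0, 0)| :=
      Finset.single_le_sum (f := fun w : Fin J → Fin n → Dig m =>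
        |Ph θ ζ dζ cM cs J (ext J w) (0, 0)|) (fun _ _ => abs_nonneg _)
        (Finset.mem_univ (fun j : Fin J => ω j))
    linarith
  · -- the inequality
    have hW0 : W (τ + lam * J) 0 = - κ * (τ + lam * J) ^ (p / 2) :=
      hW.zero _ (by positivity)
    have h1 : κ * T₀ ^ (p / 2) - ε / 2 ≤ - W (τ + lam * J) 0 := by
      rw [hW0]
      have h2 : ((1 - 4 * δ) * T₀) ^ (p / 2) ≤ (τ + lam * J) ^ (p / 2) :=
        Real.rpow_le_rpow (mul_nonneg (by linarith) hT₀0.le) (by linarith) (by linarith)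
      have h3 := mul_le_mul_of_nonneg_left h2 hκ
      linarith
    have h4 : lam * J * e * (2 * Real.exp Cg) ≤ ε / 4 := by
      have h5 : e * (2 * Real.exp Cg) = ε / 4 := by
        rw [he]
        have := Real.exp_ne_zero Cg
        field_simp
        ring
      calc lam * J * e * (2 * Real.exp Cg) = lam * J * (e * (2 * Real.exp Cg)) := by ring
        _ ≤ 1 * (e * (2 * Real.exp Cg)) :=
            mul_le_mul_of_nonneg_right (by linarith) (by positivity)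
        _ = ε / 4 := by rw [h5]; ring
    have h6 : κ * (1 / (8 * Real.pi)) ^ (p / 2) - ε ≤ L3_T n J θ ζ dζ cM cs J -
        EJ J (fun ω : Seqs m n => ∫ z, W τ (Gr θ dζ cM cs J ω z) ∂U) := by
      rw [← hT₀]
      linarith
    exact h6

end Match2D
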