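import Pool.Agent.Work.MP_884187_pr.A2
import Pool.Agent.Work.MP_884187_pr.B1
import Pool.Agent.Work.MP_884187_pr.H0

/-!
MP_884187_pr, items L4 and Z: the lower bound from the pieces, and the final theorem.
-/

open MeasureTheory Set Filter Topology

namespace Match2D

/-! ### Averages -/

theorem L4_avg_mono {α : Type*} [Fintype α] {f g : α → ℝ} (h : ∀ a, f a ≤ g a) :
    avg f ≤ avg g := by
  unfold avg
  exact smul_le_smul_of_nonneg_left (Finset.sum_le_sum fun a _ => h a) (by positivity)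

theorem L4_EJ_mono {m n : ℕ} [NeZero m] (J : ℕ) {F F' : Seqs m n → ℝ} (h : ∀ ω, F ω ≤ F' ω) :
    EJ J F ≤ EJ J F' := L4_avg_mono fun _ => h _

theorem L4_avg_lin {α : Type*} [Fintype α] [Nonempty α] (f g : α → ℝ) (a b c : ℝ) :
    avg (fun x => a * f x + b * g x + c) = a * avg f + b * avg g + c := by
  unfold avg
  have hc : (Fintype.card α : ℝ) ≠ 0 := by exact_mod_cast Fintype.card_ne_zero
  simp only [smul_eq_mul, Finset.sum_add_distrib, Finset.sum_const, Finset.card_univ,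
    nsmul_eq_mul, ← Finset.mul_sum]
  field_simp

theorem L4_EJ_lin {m n : ℕ} [NeZero m] (J : ℕ) (F F' : Seqs m n → ℝ) (a b c : ℝ) :
    EJ J (fun ω => a * F ω + b * F' ω + c) = a * EJ J F + b * EJ J F' + c := by
  unfold EJ
  exact L4_avg_lin _ _ a b c

/-! ### The empirical measure -/

theorem L4_measSq : MeasurableSet Sq := measurableSet_Icc.prod measurableSet_Icc

theorem L4_emp_prob (n : ℕ) (hn : 0 < n) (X : Fin n → ℝ × ℝ) : IsProbabilityMeasure (emp n X) := by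
  refine ⟨?_⟩
  unfold emp
  have hn' : (n : ENNReal) ≠ 0 := by exact_mod_cast hn.ne'
  simp only [Measure.smul_apply, Measure.finsetSum_apply, measure_univ, Finset.sum_const,
    Finset.card_univ, Fintype.card_fin, smul_eq_mul, nsmul_eq_mul, mul_one]
  exact ENNReal.inv_mul_cancel hn' (ENNReal.natCast_ne_top n)

theorem L4_emp_compl (n : ℕ) (X : Fin n → ℝ × ℝ) (hX : ∀ i, X i ∈ Sq) : emp n X Sqᶜ = 0 := by
  unfold emp
  simp only [Measure.smul_apply, Measure.finsetSum_apply, smul_eq_mul]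
  have h : ∀ i, Measure.dirac (X i) Sqᶜ = 0 := by
    intro i
    rw [Measure.dirac_apply' _ L4_measSq.compl]
    simp [hX i]
  simp [h]

theorem L4_emp_integral (n : ℕ) (X : Fin n → ℝ × ℝ) (f : ℝ × ℝ → ℝ) (hf : Measurable f) :
    ∫ x, f x ∂(emp n X) = (n : ℝ)⁻¹ * ∑ i, f (X i) := by
  unfold emp
  rw [integral_smul_measure, integral_finsetSum_measure]
  · simp only [integral_dirac' _ _ hf.stronglyMeasurable, ENNReal.toReal_inv,
      ENNReal.toReal_natCast, smul_eq_mul]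
  · intro i _
    exact integrable_dirac' hf.stronglyMeasurable (by simp)

theorem L4_len_Sq (x y : ℝ × ℝ) (hx : x ∈ Sq) (hy : y ∈ Sq) : len (x - y) ≤ 2 := by
  obtain ⟨⟨h1, h2⟩, ⟨h3, h4⟩⟩ := hx
  obtain ⟨⟨k1, k2⟩, ⟨k3, k4⟩⟩ := hy
  unfold len
  rw [show (2 : ℝ) = Real.sqrt 4 by
    rw [show (4 : ℝ) = 2 ^ 2 by norm_num, Real.sqrt_sq (by norm_num)]]
  apply Real.sqrt_le_sqrt
  have e1 : (x - y).1 = x.1 - y.1 := rfl
  have e2 : (x - y).2 = x.2 - y.2 := rfl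
  rw [e1, e2]
  nlinarith

theorem L4_U_compl : U Sqᶜ = 0 := by
  unfold U
  rw [Measure.restrict_apply' L4_measSq]
  simp

theorem L4_F_bdd (p : ℝ) (hp : 1 ≤ p) (n : ℕ) (hn : 0 < n) (X : Fin n → ℝ × ℝ)
    (hX : ∀ i, X i ∈ Sq) : |(Wpp p (emp n X) U).toReal| ≤ 2 ^ p := by
  rw [abs_of_nonneg ENNReal.toReal_nonneg]
  have h := A2.2 p hp (emp n X) U Sq Sq 2 (L4_emp_prob n hn X) inferInstance (by norm_num)
    (L4_emp_compl n X hX) L4_U_compl (fun x hx y hy => L4_len_Sq x y hx hy)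
  exact ENNReal.toReal_le_of_le_ofReal (by positivity) h

/-! ### The cells -/

theorem L4_cidx_lt {m n : ℕ} (ω : Seqs m n) (J : ℕ) (i : Fin n) :
    (cidx ω J i).1 + 1 ≤ m ^ J ∧ (cidx ω J i).2 + 1 ≤ m ^ J := by
  induction J with
  | zero => exact ⟨by simp [cidx], by simp [cidx]⟩
  | succ J ih =>
    have e : cidx ω (J + 1) i = (m * (cidx ω J i).1 + ((ω J i).1 : ℕ),
      m * (cidx ω J i).2 + ((ω J i).2 : ℕ)) := rfl
    rw [e]
    have h1 := (ω J i).1.isLt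
    have h2 := (ω J i).2.isLt
    obtain ⟨i1, i2⟩ := ih
    constructor
    · show m * (cidx ω J i).1 + ((ω J i).1 : ℕ) + 1 ≤ m ^ (J + 1)
      calc m * (cidx ω J i).1 + ((ω J i).1 : ℕ) + 1 ≤ m * ((cidx ω J i).1 + 1) := by
            rw [mul_add]; omega
        _ ≤ m * m ^ J := Nat.mul_le_mul_left m i1
        _ = m ^ (J + 1) := by ring
    · show m * (cidx ω J i).2 + ((ω J i).2 : ℕ) + 1 ≤ m ^ (J + 1)
      calc m * (cidx ω J i).2 + ((ω J i).2 : ℕ) + 1 ≤ m * ((cidx ω J i).2 + 1) := by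
            rw [mul_add]; omega
        _ ≤ m * m ^ J := Nat.mul_le_mul_left m i2
        _ = m ^ (J + 1) := by ring

theorem L4_emb_mem {m : ℕ} (hm : 0 < m) (J : ℕ) (q : ℕ × ℕ) (hq : q.1 + 1 ≤ m ^ J ∧ q.2 + 1 ≤ m ^ J)
    (u : ℝ × ℝ) (hu : u ∈ Sq) : emb m J q u ∈ Sq := by
  obtain ⟨⟨h1, h2⟩, ⟨h3, h4⟩⟩ := hu
  have hm' : (0 : ℝ) < (m : ℝ) ^ J := by positivity
  have q1 : ((q.1 : ℝ) + 1) ≤ (m : ℝ) ^ J := by exact_mod_cast hq.1
  have q2 : ((q.2 : ℝ) + 1) ≤ (m : ℝ) ^ J := by exact_mod_cast hq.2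
  unfold emb
  refine ⟨⟨?_, ?_⟩, ⟨?_, ?_⟩⟩
  · show 0 ≤ ((q.1 : ℝ) + u.1) / (m : ℝ) ^ J
    positivity
  · show ((q.1 : ℝ) + u.1) / (m : ℝ) ^ J ≤ 1
    rw [div_le_one hm']
    linarith
  · show 0 ≤ ((q.2 : ℝ) + u.2) / (m : ℝ) ^ J
    positivity
  · show ((q.2 : ℝ) + u.2) / (m : ℝ) ^ J ≤ 1
    rw [div_le_one hm']
    linarith

/-! ### One digit sequence -/

theorem L4_eval_integral (n : ℕ) (i : Fin n) (f : ℝ × ℝ → ℝ) (hf : Measurable f) :
    ∫ u : Fin n → ℝ × ℝ, f (u i) ∂(Measure.pi (fun _ : Fin n => U)) = ∫ x, f x ∂U := by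
  have h := measurePreserving_eval (fun _ : Fin n => U) i
  conv_rhs => rw [← h.map_eq]
  rw [integral_map h.measurable.aemeasurable hf.aestronglyMeasurable]

theorem L4_one (hA3 : StmtA3) (hA4 : StmtA4) (p : ℝ) (hp : 1 ≤ p) (m n J : ℕ) [NeZero m]
    (hn : 0 < n) (δ r K R Rd Cw : ℝ) (hδ : 0 ≤ δ) (hr : 0 < r) (hK : 0 ≤ K) (hRd : 0 < Rd)
    (hR : 0 ≤ R) (hRR : R ≤ Rd ^ (p - 1)) (φ : ℝ × ℝ → ℝ) (g : ℝ × ℝ → ℝ × ℝ) (W0 : ℝ × ℝ → ℝ)
    (hφ : Measurable φ) (hW : Measurable (fun y => W0 (g y)))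
    (hWb : ∃ C, ∀ y ∈ Sq, |W0 (g y)| ≤ C) (hφb : ∃ C, ∀ y ∈ Sq, |φ y| ≤ C)
    (hlip : ∀ x ∈ Sq, ∀ y ∈ Sq, |φ x - φ y| ≤ R * len (x - y))
    (hsc : ∀ x ∈ Sq, ∀ y ∈ Sq, φ x ≤ φ y + dot (g y) (x - y) + K / 2 * len (x - y) ^ 2)
    (hf : ∀ y ∈ Sq, ∀ s, dot (g y) s ≤ (1 + δ) * len s ^ p + (W0 (g y) + Cw))
    (ω : Seqs m n) :
    r ^ (p - 1) * ((n : ℝ)⁻¹ * ∑ i, (∫ u, φ (emb m J (cidx ω J i) u) ∂U) - ∫ z, φ z ∂U) ≤
      (1 + δ) * (∫ u, (Wpp p (emp n (fun i => emb m J (cidx ω J i) (u i))) U).toReal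
        ∂(Measure.pi (fun _ : Fin n => U))) +
      r ^ p * ((∫ y, W0 (g y) ∂U) + Cw + K / 2 * r * Rd ^ 2) := by
  have hm : 0 < m := Nat.pos_of_ne_zero (NeZero.ne m)
  obtain ⟨Cw', hCw'⟩ := hWb
  obtain ⟨Cφ, hCφ⟩ := hφb
  have hWi : Integrable (fun y => W0 (g y)) U := by
    refine Integrable.of_bound hW.aestronglyMeasurable Cw' ?_
    have h : ∀ᵐ x ∂U, x ∈ Sq := ae_restrict_mem L4_measSq
    filter_upwards [h] with x hx
    exact hCw' x hx
  have hwint : ∫ y, (W0 (g y) + Cw) ∂U = (∫ y, W0 (g y) ∂U) + Cw := by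
    rw [integral_add hWi (integrable_const _)]
    simp
  set X : (Fin n → ℝ × ℝ) → (Fin n → ℝ × ℝ) := fun u i => emb m J (cidx ω J i) (u i) with hX
  have hXm : Measurable X :=
    measurable_pi_lambda _ (fun i => (B1_emb_meas m J _).comp (measurable_pi_apply i))
  have hXSq : ∀ u, (∀ i, u i ∈ Sq) → ∀ i, X u i ∈ Sq := fun u hu i =>
    L4_emb_mem hm J _ (L4_cidx_lt ω J i) (u i) (hu i)
  set F : (Fin n → ℝ × ℝ) → ℝ := fun Y => (Wpp p (emp n Y) U).toReal with hF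
  have hFm : Measurable F := hA4 p hp n hn
  -- pointwise
  have hpt : ∀ u, (∀ i, u i ∈ Sq) →
      r ^ (p - 1) * ((n : ℝ)⁻¹ * ∑ i, φ (X u i) - ∫ z, φ z ∂U) ≤
      (1 + δ) * F (X u) + r ^ p * ((∫ y, W0 (g y) ∂U) + Cw + K / 2 * r * Rd ^ 2) := by
    intro u hu
    have h := hA3 p hp δ r K Rd R hδ hr hK hRd hR hRR φ g (fun y => W0 (g y) + Cw) hφ
      (hW.add_const _) ⟨Cw' + |Cw|, fun y hy => (abs_add_le _ _).trans
        (add_le_add (hCw' y hy) le_rfl)⟩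
      (fun x hx y hy => (le_abs_self _).trans (hlip x hx y hy)) hsc hf (emp n (X u))
      (L4_emp_prob n hn _) (L4_emp_compl n _ (hXSq u hu))
    rw [L4_emp_integral n _ φ hφ, hwint] at h
    exact h
  have hLi : ∀ i, Integrable (fun u : Fin n → ℝ × ℝ => φ (X u i))
      (Measure.pi (fun _ : Fin n => U)) := by
    intro i
    refine Integrable.of_bound
      (hφ.comp ((measurable_pi_apply i).comp hXm)).aestronglyMeasurable Cφ ?_
    filter_upwards [B1_ae n] with u hu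
    exact hCφ _ (hXSq u hu i)
  have hFi : Integrable (fun u => F (X u)) (Measure.pi (fun _ : Fin n => U)) := by
    refine Integrable.of_bound (hFm.comp hXm).aestronglyMeasurable (2 ^ p) ?_
    filter_upwards [B1_ae n] with u hu
    exact L4_F_bdd p hp n hn _ (hXSq u hu)
  have hsum : Integrable (fun u : Fin n → ℝ × ℝ => (n : ℝ)⁻¹ * ∑ i, φ (X u i))
      (Measure.pi (fun _ : Fin n => U)) :=
    (integrable_finsetSum _ (fun i _ => hLi i)).const_mul _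
  have hmono := integral_mono_ae
    (μ := Measure.pi (fun _ : Fin n => U))
    (f := fun u : Fin n → ℝ × ℝ => r ^ (p - 1) * ((n : ℝ)⁻¹ * ∑ i, φ (X u i) - ∫ z, φ z ∂U))
    (g := fun u : Fin n → ℝ × ℝ => (1 + δ) * F (X u) +
      r ^ p * ((∫ y, W0 (g y) ∂U) + Cw + K / 2 * r * Rd ^ 2))
    ((hsum.sub (integrable_const _)).const_mul _)
    ((hFi.const_mul _).add (integrable_const _))
    (by filter_upwards [B1_ae n] with u hu using hpt u hu)
  rw [integral_const_mul, integral_sub hsum (integrable_const _), integral_const_mul,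
    integral_finsetSum _ (fun i _ => hLi i), integral_add (hFi.const_mul _) (integrable_const _),
    integral_const_mul] at hmono
  have hev : ∀ i, ∫ u : Fin n → ℝ × ℝ, φ (X u i) ∂(Measure.pi (fun _ : Fin n => U)) =
      ∫ u, φ (emb m J (cidx ω J i) u) ∂U := fun i =>
    L4_eval_integral n i (fun u => φ (emb m J (cidx ω J i) u)) (hφ.comp (B1_emb_meas m J _))
  simp only [hev, integral_const, probReal_univ, one_smul] at hmono
  exact hmono

/-! ### The lower bound -/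

theorem L4_sqrt_rpow (x p : ℝ) (hx : 0 ≤ x) : Real.sqrt x ^ p = x ^ (p / 2) := by
  rw [Real.sqrt_eq_rpow, ← Real.rpow_mul hx]
  congr 1
  ring

theorem L4_err (C : ℝ) (ε : ℝ) (hε : 0 < ε) :
    ∀ᶠ n : ℕ in atTop, C * Real.sqrt (1 / Real.log n) ≤ ε := by
  have h1 : Tendsto (fun n : ℕ => (1 : ℝ) / Real.log n) atTop (𝓝 0) := H0_inv
  have h2 : Tendsto (fun n : ℕ => C * Real.sqrt (1 / Real.log n)) atTop (𝓝 (C * Real.sqrt 0)) :=
    ((Real.continuous_sqrt.tendsto 0).comp h1).const_mul C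
  rw [Real.sqrt_zero, mul_zero] at h2
  exact (h2.eventually_lt_const hε).mono fun n hn => hn.le

theorem L4_kappa_nonneg (p κ : ℝ) (hp : 1 ≤ p) (V : ℝ → ℝ × ℝ → ℝ) (G : ℝ → ℝ × ℝ → ℝ × ℝ)
    (H : ℝ → ℝ × ℝ → SymM) (hV : VFacts p κ V G H) : 0 ≤ κ := by
  have h1 := hV.zero 1 one_pos
  have h2 := hV.lower 1 one_pos 0
  rw [h1, Real.one_rpow, mul_one] at h2
  have h3 : len 0 = 0 := by
    unfold len
    simp
  rw [h3, Real.zero_rpow (by linarith)] at h2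
  exact h2

/-- L4 (assuming A3, A4, F, L3). -/
theorem L4 (hA3 : StmtA3) (hA4 : StmtA4) (hF : StmtF) (hL3 : StmtL3) : StmtL4 := by
  intro p hp κ V G H W S HI hV hW ε hε
  have hκ := L4_kappa_nonneg p κ hp V G H hV
  set K0 : ℝ := κ / (8 * Real.pi) ^ (p / 2) with hK0
  have hK0n : 0 ≤ K0 := by positivity
  -- the parameters
  set δ : ℝ := ε / (2 * (K0 + 1)) with hδdef
  have hδ : 0 < δ := by positivity
  obtain ⟨C', hC', hup⟩ := hV.upper δ hδ
  set τ : ℝ := (ε / (8 * C')) ^ (2 / p) with hτdef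
  have hτ : 0 < τ := by positivity
  have hCτ : C' * τ ^ (p / 2) = ε / 8 := by
    rw [hτdef, ← Real.rpow_mul (by positivity)]
    have e : 2 / p * (p / 2) = 1 := by
      have hp0 : p ≠ 0 := by linarith
      field_simp
    rw [e, Real.rpow_one]
    field_simp
  obtain ⟨R, hR, hR1, B, hB, δ₁, hδ₁, m₁, hm₁⟩ := hL3 p hp κ V W S HI hκ hW τ (ε / 8) hτ
    (by positivity)
  obtain ⟨m₀, hm₀⟩ := hF B hB δ₁ hδ₁
  set m : ℕ := max (max m₁ m₀) 2 with hmdef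
  have hm2 : 2 ≤ m := le_max_right _ _
  have : NeZero m := ⟨by omega⟩
  obtain ⟨ζ, dζ, C₀, hker⟩ := hm₀ m ((le_max_right _ _).trans (le_max_left _ _))
  obtain ⟨C₂, hC₂, n₀, hn₀⟩ := hm₁ m ((le_max_left _ _).trans (le_max_left _ _)) C₀ ζ dζ hker
  -- the radius
  set Rd : ℝ := max 1 (R ^ (1 / (p - 1))) with hRd
  have hRd0 : 0 < Rd := lt_of_lt_of_le one_pos (le_max_left _ _)
  have hRR : R ≤ Rd ^ (p - 1) := by
    rcases eq_or_lt_of_le hp with h1 | h1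
    · have h2 : p - 1 = 0 := by linarith
      rw [h2, Real.rpow_zero]
      exact (hR1 h1.symm).le
    · have h2 : 0 < p - 1 := by linarith
      calc R = (R ^ (1 / (p - 1))) ^ (p - 1) := by
            rw [← Real.rpow_mul hR.le, one_div, inv_mul_cancel₀ h2.ne', Real.rpow_one]
        _ ≤ Rd ^ (p - 1) := Real.rpow_le_rpow (by positivity) (le_max_right _ _) h2.le
  have hH0 := (H0 2 m (by norm_num) hm2).1
  have hlog : ∀ᶠ n : ℕ in atTop, 1 ≤ Real.log n :=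
    (Real.tendsto_log_atTop.comp tendsto_natCast_atTop_atTop).eventually_ge_atTop 1
  filter_upwards [hH0, hlog, eventually_ge_atTop n₀, eventually_gt_atTop 0,
    L4_err (C₂ * Rd ^ 2 / 2) (ε / 8) (by positivity)] with n hn1 hL hnn₀ hnpos herr
  obtain ⟨Φ, g, hmeas, hglen, hΦlip, hΦsc, hΦb, hmain⟩ := hn₀ n hnn₀
  obtain ⟨CΦ, hCΦ⟩ := hΦb
  set J : ℕ := Jn 2 m n with hJ
  set L : ℝ := Real.log n with hLdef
  have hL0 : 0 < L := by linarith
  have hn' : (0 : ℝ) < n := by exact_mod_cast hnpos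
  set r : ℝ := Real.sqrt (L / n) with hrdef
  have hr : 0 < r := Real.sqrt_pos.mpr (by positivity)
  have hrp : r ^ p = (L / n) ^ (p / 2) := L4_sqrt_rpow _ _ (by positivity)
  have hrp1 : r ^ (p - 1) = r ^ p * r⁻¹ := by
    rw [Real.rpow_sub hr, Real.rpow_one, div_eq_mul_inv]
  set K : ℝ := C₂ * (m : ℝ) ^ J with hK
  have hKn : 0 ≤ K := by positivity
  -- the quadratic error
  have hKr : K / 2 * r * Rd ^ 2 ≤ ε / 8 := by
    have h1 : (m : ℝ) ^ J * r ≤ Real.sqrt (1 / L) := by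
      apply Real.le_sqrt_of_sq_le
      have e : ((m : ℝ) ^ J * r) ^ 2 = (m : ℝ) ^ (2 * J) * (L / n) := by
        rw [mul_pow, hrdef, Real.sq_sqrt (by positivity), ← pow_mul, mul_comm J 2]
      rw [e]
      have h2 := hn1.1
      rw [Real.rpow_two] at h2
      rw [mul_div_assoc', div_le_div_iff₀ hn' hL0]
      calc (m : ℝ) ^ (2 * J) * L * L = (m : ℝ) ^ (2 * J) * L ^ 2 := by ring
        _ ≤ n := h2
        _ = 1 * n := by ring
    calc K / 2 * r * Rd ^ 2 = (C₂ * Rd ^ 2 / 2) * ((m : ℝ) ^ J * r) := by rw [hK]; ring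
      _ ≤ (C₂ * Rd ^ 2 / 2) * Real.sqrt (1 / L) :=
          mul_le_mul_of_nonneg_left h1 (by positivity)
      _ ≤ ε / 8 := herr
  -- the bound on W
  obtain ⟨CW, hCW, hWb⟩ := hW.bounds τ τ R hτ le_rfl hR hR1
  -- the inequality for one digit sequence
  have hone : ∀ ω : Seqs m n,
      r ^ (p - 1) * ((n : ℝ)⁻¹ * ∑ i, (∫ u, Φ ω (emb m J (cidx ω J i) u) ∂U)
        - ∫ z, Φ ω z ∂U) ≤
      (1 + δ) * (∫ u, (Wpp p (emp n (fun i => emb m J (cidx ω J i) (u i))) U).toReal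
        ∂(Measure.pi (fun _ : Fin n => U))) +
      r ^ p * ((∫ y, W τ (g ω y) ∂U) + C' * τ ^ (p / 2) + K / 2 * r * Rd ^ 2) := by
    intro ω
    refine L4_one hA3 hA4 p hp m n J hnpos δ r K R Rd (C' * τ ^ (p / 2)) hδ.le hr hKn hRd0 hR.le
      hRR (Φ ω) (g ω) (W τ) (hmeas ω).1 ((hW.meas τ hτ).1.comp (hmeas ω).2) ?_ ?_ (hΦlip ω)
      (hΦsc ω) ?_ ω
    · exact ⟨CW, fun y hy => (hWb τ ⟨le_rfl, le_rfl⟩ (g ω y) (hglen ω y hy)).1⟩
    · exact ⟨CΦ, fun y hy => hCΦ ω y hy⟩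
    · intro y hy s
      have hdom : Dom p (g ω y) := fun h1 => lt_of_le_of_lt (hglen ω y hy) (hR1 h1)
      have h1 := hW.fenchel τ hτ (g ω y) hdom s
      have h2 := hup τ hτ s
      linarith
  -- average over the digit sequences
  have hEJ := L4_EJ_mono (m := m) (n := n) J hone
  have hB1 := B1 m n J (fun X : Fin n → ℝ × ℝ => (Wpp p (emp n X) U).toReal) (hA4 p hp n hnpos)
    ⟨2 ^ p, fun X hX => L4_F_bdd p hp n hnpos X hX⟩
  have hEW : EW p n = EJ J (fun ω : Seqs m n =>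
      ∫ u, (Wpp p (emp n (fun i => emb m J (cidx ω J i) (u i))) U).toReal
        ∂(Measure.pi (fun _ : Fin n => U))) := hB1
  have e1 : EJ J (fun ω : Seqs m n => r ^ (p - 1) *
      ((n : ℝ)⁻¹ * ∑ i, (∫ u, Φ ω (emb m J (cidx ω J i) u) ∂U) - ∫ z, Φ ω z ∂U)) =
      r ^ (p - 1) * EJ J (fun ω : Seqs m n =>
      ((n : ℝ)⁻¹ * ∑ i, (∫ u, Φ ω (emb m J (cidx ω J i) u) ∂U) - ∫ z, Φ ω z ∂U)) := by
    have h := L4_EJ_lin (m := m) (n := n) J (fun ω : Seqs m n =>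
      ((n : ℝ)⁻¹ * ∑ i, (∫ u, Φ ω (emb m J (cidx ω J i) u) ∂U) - ∫ z, Φ ω z ∂U))
      (fun _ => 0) (r ^ (p - 1)) 0 0
    simpa using h
  have e2 : EJ J (fun ω : Seqs m n =>
      (1 + δ) * (∫ u, (Wpp p (emp n (fun i => emb m J (cidx ω J i) (u i))) U).toReal
        ∂(Measure.pi (fun _ : Fin n => U))) +
      r ^ p * ((∫ y, W τ (g ω y) ∂U) + C' * τ ^ (p / 2) + K / 2 * r * Rd ^ 2)) =
      (1 + δ) * EW p n + r ^ p * EJ J (fun ω : Seqs m n => ∫ y, W τ (g ω y) ∂U) +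
      r ^ p * (C' * τ ^ (p / 2) + K / 2 * r * Rd ^ 2) := by
    rw [hEW, ← L4_EJ_lin]
    congr 1
    funext ω
    ring
  rw [e1, e2] at hEJ
  -- the final computation
  set A : ℝ := EJ J (fun ω : Seqs m n =>
      ((n : ℝ)⁻¹ * ∑ i, (∫ u, Φ ω (emb m J (cidx ω J i) u) ∂U) - ∫ z, Φ ω z ∂U)) with hA
  set Wb : ℝ := EJ J (fun ω : Seqs m n => ∫ y, W τ (g ω y) ∂U) with hWb'
  have hmain' : K0 - ε / 8 ≤ r⁻¹ * A - Wb := by
    have e : κ * (1 / (8 * Real.pi)) ^ (p / 2) = K0 := by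
      rw [hK0, one_div, Real.inv_rpow (by positivity)]
      exact (div_eq_mul_inv _ _).symm
    rw [← e]
    exact hmain
  have hrp0 : 0 < r ^ p := by positivity
  have h1 : r ^ p * (K0 - ε / 2) ≤ (1 + δ) * EW p n := by
    have h2 : r ^ p * (r⁻¹ * A) ≤ (1 + δ) * EW p n + r ^ p * Wb +
        r ^ p * (C' * τ ^ (p / 2) + K / 2 * r * Rd ^ 2) := by
      calc r ^ p * (r⁻¹ * A) = r ^ (p - 1) * A := by rw [hrp1]; ring
        _ ≤ _ := hEJ
    have h3 : r ^ p * (K0 - ε / 2) ≤ r ^ p * (r⁻¹ * A - Wb -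
        (C' * τ ^ (p / 2) + K / 2 * r * Rd ^ 2)) := by
      apply mul_le_mul_of_nonneg_left _ hrp0.le
      rw [hCτ]
      linarith
    calc r ^ p * (K0 - ε / 2) ≤ _ := h3
      _ = r ^ p * (r⁻¹ * A) - r ^ p * Wb - r ^ p * (C' * τ ^ (p / 2) + K / 2 * r * Rd ^ 2) := by
        ring
      _ ≤ (1 + δ) * EW p n := by linarith
  have h2 : (1 + δ) * (K0 - ε) ≤ K0 - ε / 2 := by
    have h3 : δ * K0 ≤ ε / 2 := by
      rw [hδdef, div_mul_eq_mul_div, div_le_div_iff₀ (by positivity) (by norm_num)]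
      nlinarith
    have h4 : 0 ≤ δ * ε := by positivity
    nlinarith
  rw [← hrp]
  have h3 : (1 + δ) * ((K0 - ε) * r ^ p) ≤ (1 + δ) * EW p n := by
    calc (1 + δ) * ((K0 - ε) * r ^ p) = ((1 + δ) * (K0 - ε)) * r ^ p := by ring
      _ ≤ (K0 - ε / 2) * r ^ p := mul_le_mul_of_nonneg_right h2 hrp0.le
      _ = r ^ p * (K0 - ε / 2) := by ring
      _ ≤ _ := h1
  exact le_of_mul_le_mul_left h3 (by positivity)

/-! ### The final statement -/

theorem Z (hB2 : StmtB2) (hG : StmtG) (hH2 : StmtH2) (hL4 : StmtL4) : StmtZ := by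
  intro p hp
  obtain ⟨hex, hall⟩ := hG p hp
  refine ⟨hex, fun x hx => ?_⟩
  obtain ⟨hi1, hi2, V, G, H, W, S, HI, hV, hW⟩ := hall x hx
  refine ⟨hi1, hi2, ?_⟩
  intro Ω _ P hP X hX hXU hind
  set K0 : ℝ := kap p x / (8 * Real.pi) ^ (p / 2) with hK0
  rw [Metric.tendsto_atTop']
  intro ε hε
  have h1 := hH2 p hp (kap p x) V G H hV (ε / 2) (by positivity)
  have h2 := hL4 p hp (kap p x) V G H W S HI hV hW (ε / 2) (by positivity)
  have hlog : ∀ᶠ n : ℕ in atTop, 1 ≤ Real.log n :=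
    (Real.tendsto_log_atTop.comp tendsto_natCast_atTop_atTop).eventually_ge_atTop 1
  have hev : ∀ᶠ n : ℕ in atTop, dist (((n : ℝ) / Real.log n) ^ (p / 2) *
      ∫ ω, (Wpp p (emp n (fun i => X i ω)) U).toReal ∂P) K0 < ε := by
    filter_upwards [h1, h2, hlog, eventually_gt_atTop 0] with n hn1 hn2 hL hn0
    rw [hB2 Ω _ P hP X hX hXU hind p hp n hn0]
    have hn' : (0 : ℝ) < n := by exact_mod_cast hn0
    have hL0 : 0 < Real.log n := by linarith
    set q : ℝ := ((n : ℝ) / Real.log n) ^ (p / 2) with hq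
    have hq0 : 0 < q := by positivity
    have hqq : (Real.log n / n) ^ (p / 2) * q = 1 := by
      rw [hq, ← Real.mul_rpow (by positivity) (by positivity)]
      have e : Real.log n / n * (n / Real.log n) = 1 := by field_simp
      rw [e, Real.one_rpow]
    have h3 : q * EW p n ≤ K0 + ε / 2 := by
      calc q * EW p n ≤ q * ((K0 + ε / 2) * (Real.log n / n) ^ (p / 2)) :=
            mul_le_mul_of_nonneg_left hn1 hq0.le
        _ = (K0 + ε / 2) * ((Real.log n / n) ^ (p / 2) * q) := by ring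
        _ = K0 + ε / 2 := by rw [hqq, mul_one]
    have h4 : K0 - ε / 2 ≤ q * EW p n := by
      calc K0 - ε / 2 = (K0 - ε / 2) * ((Real.log n / n) ^ (p / 2) * q) := by rw [hqq, mul_one]
        _ = q * ((K0 - ε / 2) * (Real.log n / n) ^ (p / 2)) := by ring
        _ ≤ q * EW p n := mul_le_mul_of_nonneg_left hn2 hq0.le
    rw [Real.dist_eq, abs_lt]
    constructor <;> linarith
  obtain ⟨N, hN⟩ := eventually_atTop.mp hev
  exact ⟨N, fun n hn => hN n hn.le⟩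

end Match2D
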