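import Pool.Agent.Work.MP_884187_pr.Stmts

/-!
MP_884187_pr, item C4: moment bounds for the controlled processes.
-/

open MeasureTheory Set Filter Topology

namespace Match2D

/-! ### averages -/

theorem C4_avg_mono {α : Type*} [Fintype α] {f g : α → ℝ} (h : ∀ a, f a ≤ g a) :
    avg f ≤ avg g := by
  unfold avg
  simp only [smul_eq_mul]
  exact mul_le_mul_of_nonneg_left (Finset.sum_le_sum (fun a _ => h a))
    (inv_nonneg.mpr (Nat.cast_nonneg _))

theorem C4_avg_add {α : Type*} [Fintype α] (f g : α → ℝ) :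
    avg (fun a => f a + g a) = avg f + avg g := by
  unfold avg
  simp only [smul_eq_mul]
  rw [Finset.sum_add_distrib, mul_add]

theorem C4_avg_mul {α : Type*} [Fintype α] (c : ℝ) (f : α → ℝ) :
    avg (fun a => c * f a) = c * avg f := by
  unfold avg
  simp only [smul_eq_mul]
  rw [← Finset.mul_sum]
  ring

theorem C4_avg_const {α : Type*} [Fintype α] [Nonempty α] (c : ℝ) :
    avg (fun _ : α => c) = c := by
  unfold avg
  simp only [smul_eq_mul, Finset.sum_const, Finset.card_univ, nsmul_eq_mul]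
  have h : (Fintype.card α : ℝ) ≠ 0 := by
    exact_mod_cast Fintype.card_ne_zero
  field_simp

theorem C4_EJ_mono {m n : ℕ} [NeZero m] (J : ℕ) {F G : Seqs m n → ℝ} (h : ∀ ω, F ω ≤ G ω) :
    EJ J F ≤ EJ J G := C4_avg_mono (fun _ => h _)

theorem C4_EJ_add {m n : ℕ} [NeZero m] (J : ℕ) (F G : Seqs m n → ℝ) :
    EJ J (fun ω => F ω + G ω) = EJ J F + EJ J G := C4_avg_add _ _

theorem C4_EJ_mul {m n : ℕ} [NeZero m] (J : ℕ) (c : ℝ) (F : Seqs m n → ℝ) :
    EJ J (fun ω => c * F ω) = c * EJ J F := C4_avg_mul _ _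

theorem C4_EJ_const {m n : ℕ} [NeZero m] (J : ℕ) (c : ℝ) :
    EJ J (fun _ : Seqs m n => c) = c := by
  unfold EJ
  exact C4_avg_const c

/-! ### length -/

theorem C4_len_nonneg (v : ℝ × ℝ) : 0 ≤ len v := Real.sqrt_nonneg _

theorem C4_len_sq (v : ℝ × ℝ) : len v ^ 2 = v.1 ^ 2 + v.2 ^ 2 :=
  Real.sq_sqrt (by positivity)

theorem C4_len_zero : len (0 : ℝ × ℝ) = 0 := by
  unfold len; simp

theorem C4_len_add_sq (S D : ℝ × ℝ) : len (S + D) ^ 2 = len S ^ 2 + 2 * dot S D + len D ^ 2 := by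
  rw [C4_len_sq, C4_len_sq, C4_len_sq]
  unfold dot
  simp only [Prod.fst_add, Prod.snd_add]
  ring

theorem C4_dot_le (S D : ℝ × ℝ) : |dot S D| ≤ len S * len D := by
  apply abs_le_of_sq_le_sq _ (mul_nonneg (C4_len_nonneg _) (C4_len_nonneg _))
  rw [mul_pow, C4_len_sq, C4_len_sq]
  unfold dot
  nlinarith [sq_nonneg (S.1 * D.2 - S.2 * D.1)]

theorem C4_len_smul (c : ℝ) (v : ℝ × ℝ) : len (c • v) = |c| * len v := by
  unfold len
  rw [← Real.sqrt_sq_eq_abs, ← Real.sqrt_mul (sq_nonneg c)]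
  congr 1
  simp only [Prod.smul_fst, Prod.smul_snd, smul_eq_mul]
  ring

theorem C4_dot_smul (c : ℝ) (S v : ℝ × ℝ) : dot S (c • v) = c * dot S v := by
  unfold dot
  simp only [Prod.smul_fst, Prod.smul_snd, smul_eq_mul]
  ring

theorem C4_young {s d : ℝ} (hs : 0 ≤ s) (hd : 0 ≤ d) (a b : ℕ) (hb : 2 ≤ b) :
    s ^ a * d ^ b ≤ s ^ (a + b - 2) * d ^ 2 + d ^ (a + b) := by
  obtain ⟨e, rfl⟩ := Nat.exists_eq_add_of_le hb
  rcases le_total d s with h | h
  · have h1 : s ^ a * d ^ (2 + e) ≤ s ^ (a + (2 + e) - 2) * d ^ 2 := by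
      have h2 : a + (2 + e) - 2 = a + e := by omega
      rw [h2, pow_add, pow_add]
      have h3 : d ^ e ≤ s ^ e := pow_le_pow_left₀ hd h e
      calc s ^ a * (d ^ 2 * d ^ e) ≤ s ^ a * (d ^ 2 * s ^ e) := by gcongr
        _ = s ^ a * s ^ e * d ^ 2 := by ring
    have h4 : 0 ≤ d ^ (a + (2 + e)) := by positivity
    linarith
  · have h1 : s ^ a * d ^ (2 + e) ≤ d ^ (a + (2 + e)) := by
      rw [pow_add d a]
      exact mul_le_mul_of_nonneg_right (pow_le_pow_left₀ hs h a) (by positivity)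
    have h4 : 0 ≤ s ^ (a + (2 + e) - 2) * d ^ 2 := by positivity
    linarith

theorem C4_pow (j : ℕ) : ∃ C : ℝ, 0 < C ∧ ∀ S D : ℝ × ℝ,
    len (S + D) ^ (2 * (j + 1)) ≤ len S ^ (2 * (j + 1)) +
      2 * ((j : ℝ) + 1) * len S ^ (2 * j) * dot S D +
      C * (len S ^ (2 * j) * len D ^ 2 + len D ^ (2 * (j + 1))) := by
  induction j with
  | zero =>
    refine ⟨1, one_pos, fun S D => ?_⟩
    have h := C4_len_add_sq S D
    have h1 : 0 ≤ len D ^ 2 := sq_nonneg _
    simp only [zero_add, mul_one, Nat.cast_zero, mul_zero, pow_zero, one_mul]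
    linarith
  | succ j ih =>
    obtain ⟨C, hC, ih⟩ := ih
    refine ⟨1 + 6 * ((j : ℝ) + 1) + 6 * C, by positivity, fun S D => ?_⟩
    have h0 := ih S D
    have hA := C4_len_add_sq S D
    have hs := C4_len_nonneg S
    have hd := C4_len_nonneg D
    have hsd := C4_dot_le S D
    have hAn : 0 ≤ len (S + D) ^ 2 := sq_nonneg _
    set s := len S
    set d := len D
    set σ := dot S D
    set A := len (S + D)
    have hσ1 : σ ≤ s * d := le_trans (le_abs_self _) hsd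
    have hσ2 : σ ^ 2 ≤ s ^ 2 * d ^ 2 := by
      rw [← mul_pow, ← sq_abs σ]
      exact pow_le_pow_left₀ (abs_nonneg _) hsd 2
    have hA2 : A ^ 2 ≤ 2 * s ^ 2 + 2 * d ^ 2 := by
      nlinarith [sq_nonneg (s - d)]
    have y1 := C4_young hs hd (2 * j + 1) 3 (by norm_num)
    have y2 := C4_young hs hd (2 * j) 4 (by norm_num)
    have y3 := C4_young hs hd 2 (2 * j + 2) (by omega)
    have e1 : 2 * j + 1 + 3 - 2 = 2 * j + 2 := by omega
    have e2 : 2 * j + 4 - 2 = 2 * j + 2 := by omega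
    have e3 : 2 + (2 * j + 2) - 2 = 2 * j + 2 := by omega
    have e4 : 2 * j + 1 + 3 = 2 * j + 4 := by omega
    have e5 : 2 + (2 * j + 2) = 2 * j + 4 := by omega
    rw [e1, e4] at y1
    rw [e2] at y2
    rw [e3, e5] at y3
    have hP : 0 ≤ s ^ (2 * j) := by positivity
    -- the product
    have hmain : A ^ (2 * (j + 1 + 1)) ≤ (s ^ (2 * (j + 1)) + 2 * ((j : ℝ) + 1) * s ^ (2 * j) * σ +
        C * (s ^ (2 * j) * d ^ 2 + d ^ (2 * (j + 1)))) * A ^ 2 := by
      have : A ^ (2 * (j + 1 + 1)) = A ^ (2 * (j + 1)) * A ^ 2 := by rw [← pow_add]; ring_nf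
      rw [this]
      exact mul_le_mul_of_nonneg_right h0 hAn
    have hpart1 : (s ^ (2 * (j + 1)) + 2 * ((j : ℝ) + 1) * s ^ (2 * j) * σ) * A ^ 2 =
        s ^ (2 * j + 4) + 2 * ((j : ℝ) + 2) * s ^ (2 * j + 2) * σ + s ^ (2 * j + 2) * d ^ 2
        + 4 * ((j : ℝ) + 1) * (s ^ (2 * j) * σ ^ 2) + 2 * ((j : ℝ) + 1) * (s ^ (2 * j) * (σ * d ^ 2)) := by
      rw [hA]; ring
    have hq1 : s ^ (2 * j) * σ ^ 2 ≤ s ^ (2 * j + 2) * d ^ 2 := by
      calc s ^ (2 * j) * σ ^ 2 ≤ s ^ (2 * j) * (s ^ 2 * d ^ 2) := by gcongr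
        _ = s ^ (2 * j + 2) * d ^ 2 := by ring
    have hq2 : s ^ (2 * j) * (σ * d ^ 2) ≤ s ^ (2 * j + 1) * d ^ 3 := by
      calc s ^ (2 * j) * (σ * d ^ 2) ≤ s ^ (2 * j) * ((s * d) * d ^ 2) := by gcongr
        _ = s ^ (2 * j + 1) * d ^ 3 := by ring
    have hpart2 : C * (s ^ (2 * j) * d ^ 2 + d ^ (2 * (j + 1))) * A ^ 2 ≤
        2 * C * (s ^ (2 * j + 2) * d ^ 2 + s ^ (2 * j) * d ^ 4 + s ^ 2 * d ^ (2 * j + 2) +
          d ^ (2 * j + 4)) := by
      have h1 : 0 ≤ C * (s ^ (2 * j) * d ^ 2 + d ^ (2 * (j + 1))) := by positivity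
      calc C * (s ^ (2 * j) * d ^ 2 + d ^ (2 * (j + 1))) * A ^ 2
          ≤ C * (s ^ (2 * j) * d ^ 2 + d ^ (2 * (j + 1))) * (2 * s ^ 2 + 2 * d ^ 2) :=
            mul_le_mul_of_nonneg_left hA2 h1
        _ = _ := by ring
    have hj : 0 ≤ (j : ℝ) + 1 := by positivity
    have f1 : 4 * ((j : ℝ) + 1) * (s ^ (2 * j) * σ ^ 2) ≤ 4 * ((j : ℝ) + 1) * (s ^ (2 * j + 2) * d ^ 2) :=
      mul_le_mul_of_nonneg_left hq1 (by positivity)
    have f2 : 2 * ((j : ℝ) + 1) * (s ^ (2 * j) * (σ * d ^ 2)) ≤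
        2 * ((j : ℝ) + 1) * (s ^ (2 * j + 2) * d ^ 2 + d ^ (2 * j + 4)) :=
      mul_le_mul_of_nonneg_left (hq2.trans y1) (by positivity)
    have f3 : 2 * C * (s ^ (2 * j + 2) * d ^ 2 + s ^ (2 * j) * d ^ 4 + s ^ 2 * d ^ (2 * j + 2) +
          d ^ (2 * j + 4)) ≤ 6 * C * (s ^ (2 * j + 2) * d ^ 2 + d ^ (2 * j + 4)) := by
      have : s ^ (2 * j + 2) * d ^ 2 + s ^ (2 * j) * d ^ 4 + s ^ 2 * d ^ (2 * j + 2) +
          d ^ (2 * j + 4) ≤ 3 * (s ^ (2 * j + 2) * d ^ 2 + d ^ (2 * j + 4)) := by linarith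
      calc _ ≤ 2 * C * (3 * (s ^ (2 * j + 2) * d ^ 2 + d ^ (2 * j + 4))) :=
            mul_le_mul_of_nonneg_left this (by positivity)
        _ = _ := by ring
    have g1 : s ^ (2 * (j + 1 + 1)) = s ^ (2 * j + 4) := by ring_nf
    have g2 : s ^ (2 * (j + 1)) = s ^ (2 * j + 2) := by ring_nf
    have g3 : d ^ (2 * (j + 1 + 1)) = d ^ (2 * j + 4) := by ring_nf
    have g4 : ((j + 1 : ℕ) : ℝ) + 1 = (j : ℝ) + 2 := by push_cast; ring
    rw [g1, g2, g3, g4]
    rw [add_mul, hpart1] at hmain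
    have hd4 : 0 ≤ d ^ (2 * j + 4) := by positivity
    have hsd2 : 0 ≤ s ^ (2 * j + 2) * d ^ 2 := by positivity
    have key : (1 + 6 * ((j : ℝ) + 1) + 6 * C) * (s ^ (2 * j + 2) * d ^ 2 + d ^ (2 * j + 4)) =
      (s ^ (2 * j + 2) * d ^ 2 + d ^ (2 * j + 4)) + 4 * ((j : ℝ) + 1) * (s ^ (2 * j + 2) * d ^ 2)
      + 4 * ((j : ℝ) + 1) * d ^ (2 * j + 4)
      + 2 * ((j : ℝ) + 1) * (s ^ (2 * j + 2) * d ^ 2 + d ^ (2 * j + 4))
      + 6 * C * (s ^ (2 * j + 2) * d ^ 2 + d ^ (2 * j + 4)) := by ring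
    have hz : 0 ≤ 4 * ((j : ℝ) + 1) * d ^ (2 * j + 4) := by positivity
    linarith

/-- `0` for `k = 1`, and `1` otherwise. -/
noncomputable def C4_e (j : ℕ) : ℝ := if j = 0 then 0 else 1

theorem C4_e_nonneg (j : ℕ) : 0 ≤ C4_e j := by
  unfold C4_e; split_ifs <;> norm_num

theorem C4_pow' (j : ℕ) : ∃ C : ℝ, 0 < C ∧ ∀ S D : ℝ × ℝ,
    len (S + D) ^ (2 * (j + 1)) ≤ len S ^ (2 * (j + 1)) +
      2 * ((j : ℝ) + 1) * len S ^ (2 * j) * dot S D +
      C * (len S ^ (2 * j) * len D ^ 2 + C4_e j * len D ^ (2 * (j + 1))) := by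
  rcases Nat.eq_zero_or_pos j with rfl | hj
  · refine ⟨1, one_pos, fun S D => ?_⟩
    have h := C4_len_add_sq S D
    have he : C4_e 0 = 0 := by simp [C4_e]
    rw [he]
    simp only [zero_add, mul_one, Nat.cast_zero, mul_zero, pow_zero, one_mul, zero_mul, add_zero]
    linarith
  · have he : C4_e j = 1 := by
      unfold C4_e
      rw [if_neg (by omega)]
    rw [he]
    simpa only [one_mul] using C4_pow j

theorem C4_dot_avg {α : Type*} [Fintype α] (S : ℝ × ℝ) (X : α → ℝ × ℝ) :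
    avg (fun a => dot S (X a)) = dot S (avg X) := by
  unfold avg dot
  simp only [smul_eq_mul, Prod.smul_fst, Prod.smul_snd, Prod.fst_sum, Prod.snd_sum]
  rw [Finset.sum_add_distrib, ← Finset.mul_sum, ← Finset.mul_sum]
  ring

/-- One step. -/
theorem C4_one (hC3 : StmtC3) (hC3' : StmtC3') (j : ℕ) : ∃ C : ℝ, 0 < C ∧
    ∀ (m n : ℕ) [NeZero m] (I : Finset (Fin n)) (v : Dig m → ℝ × ℝ) (B₀ B₂ t ρ : ℝ) (S : ℝ × ℝ),
    (∀ d, len (v d) ≤ B₀) → avg (fun d => len (v d) ^ 2) ≤ B₂ → t ^ 2 * I.card = ρ →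
    avg (fun δ : Fin n → Dig m =>
      len (S + t • ∑ i ∈ I, (v (δ i) - avg v)) ^ (2 * (j + 1))) ≤
    len S ^ (2 * (j + 1)) + C * (len S ^ (2 * j) * (B₂ * ρ) + C4_e j * (B₀ ^ 2 * ρ) ^ (j + 1)) := by
  obtain ⟨C, hC, hpow⟩ := C4_pow' j
  obtain ⟨c, hc, hmom⟩ := hC3 (j + 1)
  refine ⟨C * (1 + c), by positivity, ?_⟩
  intro m n _ I v B₀ B₂ t ρ S hB₀ hB₂ hρ
  set X : (Fin n → Dig m) → ℝ × ℝ := fun δ => ∑ i ∈ I, (v (δ i) - avg v) with hX
  have hX0 : avg X = 0 := (hC3' m n I v).1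
  have hX2 : avg (fun δ => len (X δ) ^ 2) ≤ I.card * B₂ := by
    have h := (hC3' m n I v).2 ⟨1, 0, 1⟩ (by
      intro u; unfold SymM.qf; nlinarith [sq_nonneg u.1, sq_nonneg u.2])
    have hq : ∀ u : ℝ × ℝ, SymM.qf ⟨1, 0, 1⟩ u = len u ^ 2 := by
      intro u; rw [C4_len_sq]; unfold SymM.qf; ring
    simp only [hq] at h
    refine h.trans (mul_le_mul_of_nonneg_left hB₂ (Nat.cast_nonneg _))
  have hX2k := hmom m n I v B₀ hB₀
  have hρ0 : 0 ≤ ρ := by rw [← hρ]; positivity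
  -- pointwise bound
  have hpt : ∀ δ, len (S + t • X δ) ^ (2 * (j + 1)) ≤
      len S ^ (2 * (j + 1)) + (2 * ((j : ℝ) + 1) * len S ^ (2 * j) * t * dot S (X δ) +
      (C * len S ^ (2 * j) * t ^ 2 * len (X δ) ^ 2 +
        C * C4_e j * t ^ (2 * (j + 1)) * len (X δ) ^ (2 * (j + 1)))) := by
    intro δ
    have h := hpow S (t • X δ)
    rw [C4_len_smul, C4_dot_smul, mul_pow, mul_pow, sq_abs] at h
    have ht : |t| ^ (2 * (j + 1)) = t ^ (2 * (j + 1)) := by
      rw [pow_mul, sq_abs, ← pow_mul]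
    rw [ht] at h
    refine h.trans (le_of_eq ?_)
    ring
  have h1 := C4_avg_mono hpt
  rw [C4_avg_add, C4_avg_add, C4_avg_add, C4_avg_mul, C4_avg_mul, C4_avg_mul, C4_avg_const,
    C4_dot_avg, hX0] at h1
  have hd0 : dot S (0 : ℝ × ℝ) = 0 := by unfold dot; simp
  rw [hd0, mul_zero, zero_add] at h1
  refine h1.trans ?_
  have hs := C4_len_nonneg S
  have a1 : C * len S ^ (2 * j) * t ^ 2 * avg (fun δ => len (X δ) ^ 2) ≤
      C * (len S ^ (2 * j) * (B₂ * ρ)) := by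
    calc _ ≤ C * len S ^ (2 * j) * t ^ 2 * (I.card * B₂) :=
          mul_le_mul_of_nonneg_left hX2 (by positivity)
      _ = C * (len S ^ (2 * j) * (B₂ * (t ^ 2 * I.card))) := by ring
      _ = _ := by rw [hρ]
  have a2 : C * C4_e j * t ^ (2 * (j + 1)) * avg (fun δ => len (X δ) ^ (2 * (j + 1))) ≤
      C * c * (C4_e j * (B₀ ^ 2 * ρ) ^ (j + 1)) := by
    have he := C4_e_nonneg j
    have ht : 0 ≤ t ^ (2 * (j + 1)) := by rw [pow_mul]; positivity
    calc _ ≤ C * C4_e j * t ^ (2 * (j + 1)) * (c * (B₀ ^ 2 * I.card) ^ (j + 1)) :=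
          mul_le_mul_of_nonneg_left hX2k (by positivity)
      _ = C * c * (C4_e j * (B₀ ^ 2 * (t ^ 2 * I.card)) ^ (j + 1)) := by
          rw [pow_mul, show B₀ ^ 2 * (t ^ 2 * (I.card : ℝ)) = t ^ 2 * (B₀ ^ 2 * I.card) by ring,
            mul_pow (t ^ 2)]
          ring
      _ = _ := by rw [hρ]
  have hB₂0 : 0 ≤ B₂ := by
    refine le_trans ?_ hB₂
    unfold avg
    rw [smul_eq_mul]
    exact mul_nonneg (inv_nonneg.mpr (Nat.cast_nonneg _))
      (Finset.sum_nonneg (fun d _ => sq_nonneg _))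
  have b1 : 0 ≤ len S ^ (2 * j) * (B₂ * ρ) := by positivity
  have b2 : 0 ≤ C4_e j * (B₀ ^ 2 * ρ) ^ (j + 1) := by
    have he := C4_e_nonneg j
    positivity
  have key : C * (1 + c) * (len S ^ (2 * j) * (B₂ * ρ) + C4_e j * (B₀ ^ 2 * ρ) ^ (j + 1)) =
    C * (len S ^ (2 * j) * (B₂ * ρ)) + C * c * (C4_e j * (B₀ ^ 2 * ρ) ^ (j + 1)) +
    (C * c * (len S ^ (2 * j) * (B₂ * ρ)) + C * (C4_e j * (B₀ ^ 2 * ρ) ^ (j + 1))) := by ring
  rw [key]
  have b3 : 0 ≤ C * c * (len S ^ (2 * j) * (B₂ * ρ)) + C * (C4_e j * (B₀ ^ 2 * ρ) ^ (j + 1)) := by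
    positivity
  linarith

theorem C4_cidx_congr {m n : ℕ} (ω ω' : Seqs m n) (j : ℕ) (h : ∀ l, l < j → ω l = ω' l)
    (i : Fin n) : cidx ω j i = cidx ω' j i := by
  induction j with
  | zero => rfl
  | succ j ih =>
    have h1 := ih (fun l hl => h l (by omega))
    have h2 := h j (by omega)
    simp only [cidx, h1, h2]

theorem C4_inCell_congr {m n : ℕ} (ω ω' : Seqs m n) (j : ℕ) (h : ∀ l, l < j → ω l = ω' l)
    (q : ℕ × ℕ) : inCell ω j q = inCell ω' j q := by
  unfold inCell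
  congr 1
  ext i
  rw [C4_cidx_congr ω ω' j h i]

theorem C4_loc_mem (m j : ℕ) (x : ℝ × ℝ) (hx : x ∈ Sq0) : loc m j x ∈ Sq := by
  obtain ⟨⟨h1, h2⟩, h3, h4⟩ := hx
  have p1 : 0 ≤ (m : ℝ) ^ j * x.1 := by positivity
  have p2 : 0 ≤ (m : ℝ) ^ j * x.2 := by positivity
  have a1 := Nat.floor_le p1
  have a2 := Nat.lt_floor_add_one ((m : ℝ) ^ j * x.1)
  have b1 := Nat.floor_le p2
  have b2 := Nat.lt_floor_add_one ((m : ℝ) ^ j * x.2)
  unfold loc Sq
  refine ⟨⟨?_, ?_⟩, ?_, ?_⟩ <;> simp only <;> linarith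

theorem C4_qidx_lt (m j : ℕ) (hm : 0 < m) (x : ℝ × ℝ) (hx : x ∈ Sq0) :
    (qidx m j x).1 < m ^ j ∧ (qidx m j x).2 < m ^ j := by
  obtain ⟨⟨h1, h2⟩, h3, h4⟩ := hx
  have hp : (0 : ℝ) < (m : ℝ) ^ j := by positivity
  have p1 : 0 ≤ (m : ℝ) ^ j * x.1 := by positivity
  have p2 : 0 ≤ (m : ℝ) ^ j * x.2 := by positivity
  unfold qidx
  constructor
  · simp only
    rw [Nat.floor_lt p1]
    push_cast
    nlinarith
  · simp only
    rw [Nat.floor_lt p2]
    push_cast
    nlinarith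

theorem C4_rdens_nonneg {m n : ℕ} (ω : Seqs m n) (j : ℕ) (q : ℕ × ℕ) : 0 ≤ rdens ω j q := by
  unfold rdens; positivity

theorem C4_stp_sq (m n j : ℕ) (ω : Seqs m n) (q : ℕ × ℕ) (_hn : 0 ≤ Real.log n) :
    stp m n j ^ 2 * ((inCell ω j q).card : ℝ) = rdens ω j q / Real.log n := by
  unfold stp rdens
  rw [div_pow, Real.sq_sqrt (by positivity), ← pow_mul, mul_comm j 2]
  rw [div_mul_eq_mul_div, div_div]

/-- The recursion. -/
theorem C4_rec (hC1 : StmtC1) (hC2 : StmtC2) (hC8 : StmtC8) (a : ℕ) (C : ℝ) (hC : 0 < C)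
    (hstep : ∀ (m n : ℕ) [NeZero m] (I : Finset (Fin n)) (v : Dig m → ℝ × ℝ) (B₀ B₂ t ρ : ℝ)
      (S : ℝ × ℝ),
      (∀ d, len (v d) ≤ B₀) → avg (fun d => len (v d) ^ 2) ≤ B₂ → t ^ 2 * I.card = ρ →
      avg (fun δ : Fin n → Dig m =>
        len (S + t • ∑ i ∈ I, (v (δ i) - avg v)) ^ (2 * (a + 1))) ≤
      len S ^ (2 * (a + 1)) + C * (len S ^ (2 * a) * (B₂ * ρ) + C4_e a * (B₀ ^ 2 * ρ) ^ (a + 1)))
    (m : ℕ) [NeZero m] (B₀ B₂ : ℝ) (hm : 2 ≤ m) (hB₂ : 0 ≤ B₂) (n : ℕ) (hn : 0 < n)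
    (hlog : 1 ≤ Real.log n) (J : ℕ) (hJ : m ^ (2 * J) ≤ n) (Θ : Type)
    (β : Θ → Dig m → ℝ × ℝ → ℝ × ℝ) (ctl : ℕ → Seqs m n → ℕ × ℕ → Θ) (had : Adapted ctl)
    (hb0 : ∀ θ d, ∀ y ∈ Sq, len (β θ d y) ≤ B₀)
    (hb2 : ∀ θ, ∀ y ∈ Sq, avg (fun d => len (β θ d y) ^ 2) ≤ B₂)
    (j : ℕ) (hj : j < J) (x : ℝ × ℝ) (hx : x ∈ Sq0) :
    EJ J (fun ω => len (proc β ctl (j + 1) ω x) ^ (2 * (a + 1))) ≤
      EJ J (fun ω => len (proc β ctl j ω x) ^ (2 * (a + 1))) +
      C * (B₂ / Real.log n * (EJ J (fun ω => len (proc β ctl j ω x) ^ (2 * (a + 1))) +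
        (a + 1).factorial * Real.exp 2) +
        C4_e a * (B₀ ^ 2 / Real.log n) ^ (a + 1) * ((a + 1).factorial * Real.exp 2)) := by
  have hL : 0 < Real.log n := by linarith
  have he := C4_e_nonneg a
  obtain ⟨hq1, hq2⟩ := C4_qidx_lt m j (by omega) x hx
  have hy := C4_loc_mem m j x hx
  set q := qidx m j x with hq
  set y := loc m j x with hy'
  -- pointwise inequality after the one step formula
  have hpt : ∀ ω : Seqs m n, avg (fun δ : Fin n → Dig m =>
      len (proc β ctl (j + 1) (Function.update ω j δ) x) ^ (2 * (a + 1))) ≤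
      len (proc β ctl j ω x) ^ (2 * (a + 1)) +
      C * (len (proc β ctl j ω x) ^ (2 * a) * (B₂ * (rdens ω j q / Real.log n)) +
        C4_e a * (B₀ ^ 2 * (rdens ω j q / Real.log n)) ^ (a + 1)) := by
    intro ω
    have hcong : ∀ δ : Fin n → Dig m, ∀ l, l < j → (Function.update ω j δ) l = ω l := by
      intro δ l hl
      rw [Function.update_of_ne (by omega)]
    have hfun : (fun δ : Fin n → Dig m =>
        len (proc β ctl (j + 1) (Function.update ω j δ) x) ^ (2 * (a + 1))) =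
        fun δ => len (proc β ctl j ω x + stp m n j • ∑ i ∈ inCell ω j q,
          ((fun d => β (ctl j ω q) d y) (δ i) - avg (fun d => β (ctl j ω q) d y))) ^
            (2 * (a + 1)) := by
      funext δ
      have e1 : proc β ctl j (Function.update ω j δ) = proc β ctl j ω :=
        (hC8 m n Θ β).2.2.1 ctl had j _ _ (hcong δ)
      have e2 : inCell (Function.update ω j δ) j q = inCell ω j q :=
        C4_inCell_congr _ _ j (hcong δ) q
      have e3 : ctl j (Function.update ω j δ) q = ctl j ω q := had j _ _ (hcong δ) q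
      simp only [proc]
      rw [← hq, ← hy', e1, e2, e3, Function.update_self]
    rw [hfun]
    exact hstep m n (inCell ω j q) (fun d => β (ctl j ω q) d y) B₀ B₂ (stp m n j)
      (rdens ω j q / Real.log n) (proc β ctl j ω x) (fun d => hb0 _ d y hy) (hb2 _ y hy)
      (C4_stp_sq m n j ω q hL.le)
  have h1 : EJ J (fun ω => len (proc β ctl (j + 1) ω x) ^ (2 * (a + 1))) ≤
      EJ J (fun ω : Seqs m n => len (proc β ctl j ω x) ^ (2 * (a + 1)) +
      C * (len (proc β ctl j ω x) ^ (2 * a) * (B₂ * (rdens ω j q / Real.log n)) +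
        C4_e a * (B₀ ^ 2 * (rdens ω j q / Real.log n)) ^ (a + 1))) := by
    rw [hC1 m n J j hj]
    exact C4_EJ_mono J hpt
  refine h1.trans ?_
  -- second pointwise inequality
  have hpt2 : ∀ ω : Seqs m n, len (proc β ctl j ω x) ^ (2 * (a + 1)) +
      C * (len (proc β ctl j ω x) ^ (2 * a) * (B₂ * (rdens ω j q / Real.log n)) +
        C4_e a * (B₀ ^ 2 * (rdens ω j q / Real.log n)) ^ (a + 1)) ≤
      len (proc β ctl j ω x) ^ (2 * (a + 1)) +
      (C * (B₂ / Real.log n) * len (proc β ctl j ω x) ^ (2 * (a + 1)) +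
        (C * (B₂ / Real.log n) + C * (C4_e a * (B₀ ^ 2 / Real.log n) ^ (a + 1))) *
          ((a + 1).factorial * Real.exp (rdens ω j q))) := by
    intro ω
    have hs := C4_len_nonneg (proc β ctl j ω x)
    set s := len (proc β ctl j ω x)
    have hr := C4_rdens_nonneg ω j q
    set r := rdens ω j q
    have hexp : r ^ (a + 1) ≤ (a + 1).factorial * Real.exp r := by
      have := Real.pow_div_factorial_le_exp r hr (a + 1)
      rw [div_le_iff₀ (by positivity)] at this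
      linarith
    have hyoung : s ^ (2 * a) * r ≤ s ^ (2 * (a + 1)) + r ^ (a + 1) := by
      rcases le_total r (s ^ 2) with h | h
      · have : s ^ (2 * a) * r ≤ s ^ (2 * a) * s ^ 2 := by gcongr
        have h2 : s ^ (2 * a) * s ^ 2 = s ^ (2 * (a + 1)) := by ring
        have h3 : 0 ≤ r ^ (a + 1) := by positivity
        linarith
      · have : s ^ (2 * a) * r ≤ r ^ a * r := by
          rw [pow_mul]
          exact mul_le_mul_of_nonneg_right (pow_le_pow_left₀ (by positivity) h a) hr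
        have h2 : r ^ a * r = r ^ (a + 1) := by ring
        have h3 : 0 ≤ s ^ (2 * (a + 1)) := by positivity
        linarith
    have t1 : C * (s ^ (2 * a) * (B₂ * (r / Real.log n))) ≤
        C * (B₂ / Real.log n) * (s ^ (2 * (a + 1)) + (a + 1).factorial * Real.exp r) := by
      calc C * (s ^ (2 * a) * (B₂ * (r / Real.log n))) =
            C * (B₂ / Real.log n) * (s ^ (2 * a) * r) := by ring
        _ ≤ C * (B₂ / Real.log n) * (s ^ (2 * (a + 1)) + (a + 1).factorial * Real.exp r) := by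
            apply mul_le_mul_of_nonneg_left _ (by positivity)
            linarith
    have t2 : C * (C4_e a * (B₀ ^ 2 * (r / Real.log n)) ^ (a + 1)) ≤
        C * (C4_e a * (B₀ ^ 2 / Real.log n) ^ (a + 1)) * ((a + 1).factorial * Real.exp r) := by
      calc C * (C4_e a * (B₀ ^ 2 * (r / Real.log n)) ^ (a + 1)) =
            C * (C4_e a * (B₀ ^ 2 / Real.log n) ^ (a + 1)) * r ^ (a + 1) := by
              rw [show B₀ ^ 2 * (r / Real.log n) = (B₀ ^ 2 / Real.log n) * r by ring, mul_pow]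
              ring
        _ ≤ _ := mul_le_mul_of_nonneg_left hexp (by positivity)
    nlinarith [t1, t2]
  refine (C4_EJ_mono J hpt2).trans ?_
  rw [C4_EJ_add, C4_EJ_add, C4_EJ_mul, C4_EJ_mul, C4_EJ_mul]
  have hexpE := (hC2 m n J j hm hn hj.le
    (le_trans (Nat.pow_le_pow_right (by omega) (by omega)) hJ) q hq1 hq2).2.2
  have h5 : (C * (B₂ / Real.log n) + C * (C4_e a * (B₀ ^ 2 / Real.log n) ^ (a + 1))) *
      (((a + 1).factorial : ℝ) * EJ J (fun ω : Seqs m n => Real.exp (rdens ω j q))) ≤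
      (C * (B₂ / Real.log n) + C * (C4_e a * (B₀ ^ 2 / Real.log n) ^ (a + 1))) *
      (((a + 1).factorial : ℝ) * Real.exp 2) := by
    apply mul_le_mul_of_nonneg_left _ (by positivity)
    exact mul_le_mul_of_nonneg_left hexpE (by positivity)
  linarith [h5]

/-- Elementary inequality for the conclusion. -/
theorem C4_exp_bound {K x : ℝ} (hK : 0 ≤ K) (hx : 0 ≤ x) :
    Real.exp x * (K + 1) - K ≤ 2 * Real.exp ((1 + K) * x) := by
  have h1 : 1 - x ≤ Real.exp (-x) := by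
    have := Real.add_one_le_exp (-x); linarith
  have h2 : Real.exp x * Real.exp (-x) = 1 := by
    rw [← Real.exp_add]; simp
  have hex : 0 < Real.exp x := Real.exp_pos x
  have h3 : Real.exp x - 1 ≤ x * Real.exp x := by
    nlinarith [mul_le_mul_of_nonneg_left h1 hex.le]
  have h4 : 1 + K * x ≤ Real.exp (K * x) := by
    have := Real.add_one_le_exp (K * x); linarith
  have h5 : Real.exp ((1 + K) * x) = Real.exp x * Real.exp (K * x) := by
    rw [← Real.exp_add]; ring_nf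
  have h6 : Real.exp x * (1 + K * x) ≤ Real.exp ((1 + K) * x) := by
    rw [h5]; exact mul_le_mul_of_nonneg_left h4 hex.le
  have h7 : Real.exp x ≤ Real.exp ((1 + K) * x) := by
    refine le_trans ?_ h6
    nlinarith [mul_nonneg hex.le (mul_nonneg hK hx)]
  have h8 : K * (Real.exp x - 1) ≤ K * (x * Real.exp x) := mul_le_mul_of_nonneg_left h3 hK
  nlinarith

theorem C4 (hC1 : StmtC1) (hC2 : StmtC2) (hC3 : StmtC3) (hC3' : StmtC3') (hC8 : StmtC8) :
    StmtC4 := by
  choose C hC hstep using C4_one hC3 hC3'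
  set K : ℕ → ℝ := fun a => (a + 1).factorial * Real.exp 2 with hKdef
  have hK : ∀ a, 0 < K a := fun a => by
    rw [hKdef]; positivity
  refine ⟨fun k => match k with
    | 0 => 1
    | a + 1 => (1 + K a) * C a, ?_, ?_⟩
  · intro k
    cases k with
    | zero => exact one_pos
    | succ a =>
      have := hK a
      have := hC a
      positivity
  intro m k _ B₀ B₂ hm hB₀ hB₂
  cases k with
  | zero =>
    refine ⟨1, ?_⟩
    intro n hn J _ Θ β ctl _ _ _ j _ x _
    simp only [mul_zero, pow_zero]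
    rw [C4_EJ_const]
    have h1 : 0 ≤ Real.log n := Real.log_natCast_nonneg n
    have h2 : 1 ≤ Real.exp (1 * B₂ * J / Real.log n) := Real.one_le_exp (by positivity)
    linarith
  | succ a =>
    have hKa := hK a
    have hCa := hC a
    -- the constant in the remainder
    set D : ℝ := C a * ((B₀ ^ 2) ^ (a + 1) * K a) with hD
    have hD0 : 0 ≤ D := by positivity
    have hev : ∀ᶠ n : ℕ in atTop, 1 ≤ Real.log n ∧ D ≤ Real.log n := by
      have ht : Tendsto (fun n : ℕ => Real.log n) atTop atTop :=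
        Real.tendsto_log_atTop.comp tendsto_natCast_atTop_atTop
      exact (ht.eventually_ge_atTop 1).and (ht.eventually_ge_atTop D)
    obtain ⟨n₀, hn₀⟩ := Filter.eventually_atTop.mp hev
    refine ⟨n₀, ?_⟩
    intro n hn J hJ Θ β ctl had hb0 hb2 j hj x hx
    obtain ⟨hL1, hLD⟩ := hn₀ n hn
    have hL : 0 < Real.log n := by linarith
    have hnpos : 0 < n := by
      rcases Nat.eq_zero_or_pos n with h | h
      · rw [h] at hL1; norm_num at hL1
      · exact h
    set L := Real.log n with hLdef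
    set Y : ℕ → ℝ := fun i => EJ J (fun ω : Seqs m n => len (proc β ctl i ω x) ^ (2 * (a + 1)))
      with hY
    set al : ℝ := C a * (B₂ / L) with hal
    have hal0 : 0 ≤ al := by positivity
    set rem : ℝ := C a * (C4_e a * (B₀ ^ 2 / L) ^ (a + 1) * K a) with hrem
    have he := C4_e_nonneg a
    have hrem0 : 0 ≤ rem := by positivity
    have hrec : ∀ i, i < J → Y (i + 1) ≤ Y i + (al * (Y i + K a) + rem) := by
      intro i hi
      have := C4_rec hC1 hC2 hC8 a (C a) (hC a) (hstep a) m B₀ B₂ hm hB₂ n hnpos hL1 J hJ Θ β ctl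
        had hb0 hb2 i hi x hx
      refine this.trans (le_of_eq ?_)
      rw [hal, hrem, hY, hKdef]
      simp only
      ring
    -- number of generations
    have hJL : (J : ℝ) ≤ L := by
      have h1 : (2 : ℝ) ^ (2 * J) ≤ n := by
        have : 2 ^ (2 * J) ≤ n := le_trans (Nat.pow_le_pow_left hm _) hJ
        exact_mod_cast this
      have h2 := Real.log_le_log (by positivity) h1
      rw [Real.log_pow] at h2
      push_cast at h2
      have h3 : (0.6931471803 : ℝ) < Real.log 2 := Real.log_two_gt_d9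
      have h4 : (0 : ℝ) ≤ J := Nat.cast_nonneg J
      nlinarith
    have hJrem : (J : ℝ) * rem ≤ 1 := by
      rcases Nat.eq_zero_or_pos a with h | h
      · have : C4_e a = 0 := by simp [C4_e, h]
        rw [hrem, this]
        simp
      · have h1 : C4_e a = 1 := by
          unfold C4_e; rw [if_neg (by omega)]
        have h2 : rem = D / L ^ (a + 1) := by
          rw [hrem, hD, h1, div_pow]; ring
        have h3 : L ^ 2 ≤ L ^ (a + 1) := pow_le_pow_right₀ hL1 (by omega)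
        have h4 : rem ≤ D / L ^ 2 := by
          rw [h2]
          exact div_le_div_of_nonneg_left hD0 (by positivity) h3
        calc (J : ℝ) * rem ≤ L * (D / L ^ 2) := mul_le_mul hJL h4 hrem0 hL.le
          _ = D / L := by field_simp
          _ ≤ 1 := by rw [div_le_one hL]; exact hLD
    have hind : ∀ i, i ≤ J → Y i + K a ≤ (1 + al) ^ i * (K a + i * rem) := by
      intro i
      induction i with
      | zero =>
        intro _
        have h0 : Y 0 = 0 := by
          have hf : (fun ω : Seqs m n => len (proc β ctl 0 ω x) ^ (2 * (a + 1))) =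
              fun _ => (0 : ℝ) := by
            funext ω
            simp only [proc]
            rw [C4_len_zero]
            exact zero_pow (by omega)
          rw [hY]
          simp only
          rw [hf, C4_EJ_const]
        rw [h0]
        simp
      | succ i ih =>
        intro hi
        have h1 := ih (by omega)
        have h2 := hrec i (by omega)
        have h3 : (1 : ℝ) ≤ (1 + al) ^ (i + 1) := one_le_pow₀ (by linarith)
        have h4 : rem ≤ (1 + al) ^ (i + 1) * rem := by nlinarith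
        calc Y (i + 1) + K a ≤ (1 + al) * (Y i + K a) + rem := by linarith
          _ ≤ (1 + al) * ((1 + al) ^ i * (K a + i * rem)) + (1 + al) ^ (i + 1) * rem := by
              have := mul_le_mul_of_nonneg_left h1 (show 0 ≤ 1 + al by linarith)
              linarith
          _ = (1 + al) ^ (i + 1) * (K a + ((i + 1 : ℕ) : ℝ) * rem) := by push_cast; ring
    have hfin := hind j hj
    have hjJ : (j : ℝ) ≤ J := by exact_mod_cast hj
    have hx0 : 0 ≤ al * J := by positivity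
    have hpow : (1 + al) ^ j ≤ Real.exp (al * J) := by
      have h1 : (1 + al) ^ j ≤ (Real.exp al) ^ j := by
        apply pow_le_pow_left₀ (by linarith)
        have := Real.add_one_le_exp al; linarith
      rw [← Real.exp_nat_mul] at h1
      refine h1.trans (Real.exp_le_exp.mpr ?_)
      rw [mul_comm]
      exact mul_le_mul_of_nonneg_left hjJ hal0
    have hjrem : (j : ℝ) * rem ≤ 1 := le_trans (mul_le_mul_of_nonneg_right hjJ hrem0) hJrem
    have h6 : Y j + K a ≤ Real.exp (al * J) * (K a + 1) := by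
      refine hfin.trans ?_
      apply mul_le_mul hpow _ (by positivity) (Real.exp_pos _).le
      linarith
    have h7 := C4_exp_bound hKa.le hx0
    have h8 : (1 + K a) * (al * J) = (1 + K a) * C a * B₂ * J / L := by
      rw [hal]; ring
    rw [h8] at h7
    change Y j ≤ _
    simp only
    linarith

end Match2D
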