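import Mathlib

/-!
MP_884187_pr: the two-dimensional matching cost `W_p^p(mu_n, mu)`, all `p >= 1`.

Definitions used by the final statement (section A) and by the proof (sections B-F).
-/

open MeasureTheory Set Filter Topology

namespace Match2D

/-! ## A. Final statement -/

/-- The Euclidean length of a vector of the plane. -/
noncomputable def len (v : ℝ × ℝ) : ℝ := Real.sqrt (v.1 ^ 2 + v.2 ^ 2)

/-- The unit square `[0,1]^2`. -/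
def Sq : Set (ℝ × ℝ) := Icc (0 : ℝ) 1 ×ˢ Icc (0 : ℝ) 1

/-- The uniform (Lebesgue) probability measure on `[0,1]^2`. -/
noncomputable def U : Measure (ℝ × ℝ) := volume.restrict Sq

/-- `W_p^p(ν, ρ)`: the infimum of `∫ |x - y|^p dπ` over the couplings `π` of `ν` and `ρ`. -/
noncomputable def Wpp (p : ℝ) (ν ρ : Measure (ℝ × ℝ)) : ENNReal :=
  ⨅ (π : Measure ((ℝ × ℝ) × (ℝ × ℝ))) (_ : π.map Prod.fst = ν ∧ π.map Prod.snd = ρ),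
    ∫⁻ z, ENNReal.ofReal (len (z.1 - z.2) ^ p) ∂π

/-- The empirical measure of `n` points. -/
noncomputable def emp (n : ℕ) (X : Fin n → ℝ × ℝ) : Measure (ℝ × ℝ) :=
  (n : ENNReal)⁻¹ • ∑ i, Measure.dirac (X i)

/-- `E (W_p^p(μ_n, μ))`, on the canonical space of `n` independent uniform points. -/
noncomputable def EW (p : ℝ) (n : ℕ) : ℝ :=
  ∫ X, (Wpp p (emp n X) U).toReal ∂(Measure.pi (fun _ : Fin n => U))

/-- `x` is a positive solution on `(0, ∞)` of `2 r x' = r (p - 1 - x^2) + x - x^3` with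
`x(r) → 1` as `r → 0`. -/
structure IsProfile (p : ℝ) (x : ℝ → ℝ) : Prop where
  pos : ∀ r, 0 < r → 0 < x r
  ode : ∀ r, 0 < r → HasDerivAt x ((r * (p - 1 - x r ^ 2) + x r - x r ^ 3) / (2 * r)) r
  lim : Tendsto x (𝓝[>] 0) (𝓝 1)

/-- The constant `κ_p`; the limit of the problem is `κ_p / (8 π)^(p/2)`. -/
noncomputable def kap (p : ℝ) (x : ℝ → ℝ) : ℝ :=
  2 ^ (p / 2) * Real.exp ((∫ r in Ioc (0 : ℝ) 1, (1 - x r ^ 2) / r) / 2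
    + (∫ r in Ioi (1 : ℝ), (p - 1 - x r ^ 2) / r) / 2)

/-! ## B. Plane, symmetric matrices -/

/-- Inner product. -/
def dot (v w : ℝ × ℝ) : ℝ := v.1 * w.1 + v.2 * w.2

/-- The half-open unit square. -/
def Sq0 : Set (ℝ × ℝ) := Ico (0 : ℝ) 1 ×ˢ Ico (0 : ℝ) 1

/-- The open unit square. -/
def SqO : Set (ℝ × ℝ) := Ioo (0 : ℝ) 1 ×ˢ Ioo (0 : ℝ) 1

/-- A symmetric 2x2 matrix `((a, b), (b, c))`. -/
@[ext] structure SymM where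
  a : ℝ
  b : ℝ
  c : ℝ

namespace SymM

/-- The quadratic form. -/
def qf (M : SymM) (v : ℝ × ℝ) : ℝ := M.a * v.1 ^ 2 + 2 * M.b * v.1 * v.2 + M.c * v.2 ^ 2

def det (M : SymM) : ℝ := M.a * M.c - M.b ^ 2

def tr (M : SymM) : ℝ := M.a + M.c

/-- The adjugate `((c, -b), (-b, a))`. -/
def adj (M : SymM) : SymM := ⟨M.c, -M.b, M.a⟩

/-- The `ℓ^1` distance of two matrices (off-diagonal entry counted twice). -/
noncomputable def dst (M N : SymM) : ℝ := |M.a - N.a| + 2 * |M.b - N.b| + |M.c - N.c|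

/-- Size of a matrix. -/
noncomputable def nrm (M : SymM) : ℝ := |M.a| + 2 * |M.b| + |M.c|

/-- `M / sqrt (det M)`. -/
noncomputable def unit (M : SymM) : SymM :=
  ⟨M.a / Real.sqrt M.det, M.b / Real.sqrt M.det, M.c / Real.sqrt M.det⟩

end SymM

/-- Positive definite of determinant one, trace at most `B`. -/
def Unim (B : ℝ) (M : SymM) : Prop := 0 < M.a ∧ M.det = 1 ∧ M.tr ≤ B

/-! ## C. The value function and its Legendre dual: the facts the proof uses -/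

/-- The facts on the value function `V(t, s)` (solution of `V_t = sqrt (det D^2 V)`,
`V(0, s) = |s|^p`, `V(t, 0) = κ t^(p/2)`), its gradient `G` and its Hessian `H`. -/
structure VFacts (p κ : ℝ) (V : ℝ → ℝ × ℝ → ℝ) (G : ℝ → ℝ × ℝ → ℝ × ℝ)
    (H : ℝ → ℝ × ℝ → SymM) : Prop where
  zero : ∀ t, 0 < t → V t 0 = κ * t ^ (p / 2)
  cont : ∀ t, 0 < t → Continuous (V t)
  contG : ∀ t, 0 < t → Continuous (G t)
  contH : ∀ t, 0 < t → Continuous (fun s => (H t s).a) ∧ Continuous (fun s => (H t s).b) ∧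
    Continuous (fun s => (H t s).c)
  lower : ∀ t, 0 < t → ∀ s, len s ^ p ≤ V t s
  upper : ∀ δ, 0 < δ → ∃ C, 0 < C ∧ ∀ t, 0 < t → ∀ s, V t s ≤ (1 + δ) * len s ^ p + C * t ^ (p / 2)
  posdef : ∀ t, 0 < t → ∀ s, 0 < (H t s).a ∧ 0 < (H t s).det
  bounds : ∀ τ T, 0 < τ → τ ≤ T → ∃ (C : ℝ) (k : ℕ), 0 < C ∧ ∀ t ∈ Icc τ T, ∀ s,
    V t s ≤ C * (1 + len s) ^ k ∧ len (G t s) ≤ C * (1 + len s) ^ k ∧
    (H t s).nrm ≤ C * (1 + len s) ^ k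
  taylor : ∀ τ T, 0 < τ → τ ≤ T → ∃ (C : ℝ) (k : ℕ), 0 < C ∧ ∀ t ∈ Icc τ T, ∀ s Δ,
    V t (s + Δ) ≤ V t s + dot (G t s) Δ + (H t s).qf Δ / 2
      + C * (1 + len s + len Δ) ^ k * len Δ ^ 3
  hlip : ∀ τ T, 0 < τ → τ ≤ T → ∃ (C : ℝ) (k : ℕ), 0 < C ∧ ∀ t ∈ Icc τ T, ∀ s s',
    SymM.dst (H t s) (H t s') ≤ C * (1 + len s + len s') ^ k * len (s - s')
  time : ∀ τ T, 0 < τ → τ ≤ T → ∃ (C : ℝ) (k : ℕ), 0 < C ∧ ∀ t ∈ Icc τ T, ∀ t' ∈ Icc τ t, ∀ s,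
    V t' s ≤ V t s - (t - t') * Real.sqrt (H t' s).det + C * (1 + len s) ^ k * (t - t') ^ 2
  cond : ∀ τ T ε, 0 < τ → τ ≤ T → 0 < ε → ∃ B, 2 ≤ B ∧ ∀ t ∈ Icc τ T, ∀ s, ∃ M : SymM,
    0 < M.a ∧ 0 < M.det ∧ M.tr ≤ B * Real.sqrt M.det ∧ (∀ v, (H t s).qf v ≤ M.qf v) ∧
    Real.sqrt M.det ≤ Real.sqrt (H t s).det + ε

/-- The domain of the Legendre dual: all of the plane if `p > 1`, the open unit disc if `p = 1`. -/
def Dom (p : ℝ) (g : ℝ × ℝ) : Prop := p = 1 → len g < 1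

/-- The facts on the Legendre dual `W(t, g)` of `V(t, ·)`, its gradient `S` (the point `s` where
`∇V(t, s) = g`), and `HI t g = D^2 V(t, S t g)` (so that `D^2 W(t, g)` is the inverse matrix
`adj (HI t g) / det (HI t g)`). -/
structure WFacts (p κ : ℝ) (V : ℝ → ℝ × ℝ → ℝ) (W : ℝ → ℝ × ℝ → ℝ) (S : ℝ → ℝ × ℝ → ℝ × ℝ)
    (HI : ℝ → ℝ × ℝ → SymM) : Prop where
  zero : ∀ t, 0 < t → W t 0 = - κ * t ^ (p / 2)
  fenchel : ∀ t, 0 < t → ∀ g, Dom p g → ∀ s, dot g s ≤ V t s + W t g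
  meas : ∀ t, 0 < t → Measurable (W t) ∧ Measurable (S t) ∧ Measurable (fun g => (HI t g).a) ∧
    Measurable (fun g => (HI t g).b) ∧ Measurable (fun g => (HI t g).c)
  posdef : ∀ t, 0 < t → ∀ g, Dom p g → 0 < (HI t g).a ∧ 0 < (HI t g).det
  bounds : ∀ τ T R, 0 < τ → τ ≤ T → 0 < R → (p = 1 → R < 1) → ∃ C, 0 < C ∧ ∀ t ∈ Icc τ T,
    ∀ g, len g ≤ R → |W t g| ≤ C ∧ len (S t g) ≤ C ∧ (HI t g).nrm ≤ C ∧ 1 ≤ C * (HI t g).det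
  taylor : ∀ τ T R, 0 < τ → τ ≤ T → 0 < R → (p = 1 → R < 1) → ∃ C, 0 < C ∧ ∀ t ∈ Icc τ T,
    ∀ g Δ, len g ≤ R → len (g + Δ) ≤ R →
    W t (g + Δ) ≤ W t g + dot (S t g) Δ + (HI t g).adj.qf Δ / (2 * (HI t g).det) + C * len Δ ^ 3
  hlip : ∀ τ T R, 0 < τ → τ ≤ T → 0 < R → (p = 1 → R < 1) → ∃ C, 0 < C ∧ ∀ t ∈ Icc τ T,
    ∀ g g', len g ≤ R → len g' ≤ R → SymM.dst (HI t g) (HI t g') ≤ C * len (g - g')
  time : ∀ τ T R, 0 < τ → τ ≤ T → 0 < R → (p = 1 → R < 1) → ∃ C, 0 < C ∧ ∀ t ∈ Icc τ T,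
    ∀ t' ∈ Icc τ t, ∀ g, len g ≤ R →
    W t' g ≤ W t g + (t - t') * Real.sqrt (HI t' g).det + C * (t - t') ^ 2
  grow : ∀ τ T, 0 < τ → τ ≤ T → ∃ C, 0 < C ∧ ∀ t ∈ Icc τ T, ∀ g, Dom p g →
    (HI t g).tr * Real.sqrt (HI t g).det ≤ C * (1 + len g ^ 2)
  loss : ∀ τ T ε, 0 < τ → τ ≤ T → 0 < ε → ∃ R, 0 < R ∧ (p = 1 → R < 1) ∧ ∀ t ∈ Icc τ T, ∀ g,
    Dom p g → R ≤ len g → Real.sqrt (HI t g).det ≤ ε * (1 + len g ^ 2)

end Match2D
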