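import Pool.Agent.Work.MP_884187_pr.Bd.B02

/-!
Module G of MP_884187_pr: the Legendre dual of the value function, inversion of the gradient.
-/

set_option autoImplicit false

open MeasureTheory Set Filter Topology

namespace Match2D.MG

/-- `e(σ) = 2 σ γ(σ)^2`, so that `|∇V|^2 = t^(p-1) e(σ)`. -/
noncomputable def ee (p κ : ℝ) (x : ℝ → ℝ) (s : ℝ) : ℝ := 2 * s * gam p κ x s ^ 2

open Classical in
/-- The inverse function of `ee`. -/
noncomputable def Sg (p κ : ℝ) (x : ℝ → ℝ) (y : ℝ) : ℝ :=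
  if h : ∃ s, 0 ≤ s ∧ ee p κ x s = y then h.choose else 0

/-- `σ` as a function of `(t, g)`. -/
noncomputable def sgg (p κ : ℝ) (x : ℝ → ℝ) (t : ℝ) (g : ℝ × ℝ) : ℝ :=
  Sg p κ x (len g ^ 2 / t ^ (p - 1))

open Classical in
/-- The inverse of the gradient map. -/
noncomputable def SS (p κ : ℝ) (x : ℝ → ℝ) (t : ℝ) (g : ℝ × ℝ) : ℝ × ℝ :=
  if Dom p g then (t ^ (p / 2 - 1) * gam p κ x (sgg p κ x t g))⁻¹ • g else 0

open Classical in
/-- The Legendre dual. -/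
noncomputable def WW (p κ : ℝ) (x : ℝ → ℝ) (t : ℝ) (g : ℝ × ℝ) : ℝ :=
  if Dom p g then dot g (SS p κ x t g) - VV p κ x t (SS p κ x t g) else 0

/-- The Hessian at the inverse gradient. -/
noncomputable def HI (p κ : ℝ) (x : ℝ → ℝ) (t : ℝ) (g : ℝ × ℝ) : SymM :=
  HH p κ x t (SS p κ x t g)

section

variable {p : ℝ} {x : ℝ → ℝ} (hx : IsProf0 p x)
include hx

omit hx in
theorem ee_zero {κ : ℝ} : ee p κ x 0 = 0 := by simp [ee]

theorem IsProf0.continuous_ee {κ : ℝ} : Continuous (ee p κ x) := by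
  have h := hx.continuous_gam (κ := κ)
  unfold ee
  fun_prop

section
variable {κ : ℝ} (hκ : 0 < κ)
include hκ

theorem IsProf0.ee_strictMono : StrictMonoOn (ee p κ x) (Ici 0) := by
  refine strictMonoOn_of_deriv_pos (convex_Ici 0) hx.continuous_ee.continuousOn ?_
  intro s hs
  rw [interior_Ici] at hs
  have hs0 : 0 < s := hs
  have h1 : HasDerivAt (fun s => 2 * s * gam p κ x s ^ 2)
      (2 * 1 * gam p κ x s ^ 2 + 2 * s * (2 * gam p κ x s ^ (2 - 1) *
        (gam p κ x s * ww x s))) s := by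
    have h2 := (hx.hasDerivAt_gam (κ := κ) hs0).pow 2
    have h3 := ((hasDerivAt_id s).const_mul 2).mul h2
    have e : (fun s => 2 * s * gam p κ x s ^ 2) = ((fun y => 2 * id y) * (gam p κ x) ^ 2) := by
      funext y
      simp
    rw [e]
    refine h3.congr_deriv ?_
    simp
  have h4 : ee p κ x = fun s => 2 * s * gam p κ x s ^ 2 := rfl
  rw [h4, h1.deriv]
  have h5 := hx.two_mul_ww hs0.le
  have e : 2 * 1 * gam p κ x s ^ 2 + 2 * s * (2 * gam p κ x s ^ (2 - 1) * (gam p κ x s * ww x s))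
      = 2 * gam p κ x s ^ 2 * x s ^ 2 := by
    simp only [Nat.add_one_sub_one, pow_one]
    linear_combination (2 * gam p κ x s ^ 2) * h5
  rw [e]
  have h6 := hx.gam_pos hκ s
  have h7 := hx.pos' s
  positivity

theorem IsProf0.ee_nonneg {s : ℝ} (hs : 0 ≤ s) : 0 ≤ ee p κ x s := by
  unfold ee
  have := hx.gam_pos hκ s
  positivity

end

omit hx in
theorem ee_eq {s : ℝ} (hs : 0 < s) : ee p (kap p x) x s =
    2 * (gam p (kap p x) x s * s ^ (1 - p / 2)) ^ 2 * s ^ (p - 1) := by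
  have h1 : (s ^ (1 - p / 2)) ^ 2 * s ^ (p - 1) = s := by
    rw [← Real.rpow_natCast, ← Real.rpow_mul hs.le, ← Real.rpow_add hs]
    rw [show (1 - p / 2) * ((2 : ℕ) : ℝ) + (p - 1) = 1 by push_cast; ring, Real.rpow_one]
  unfold ee
  linear_combination (-2 * gam p (kap p x) x s ^ 2) * h1

theorem IsProf0.ee_top (hp : 1 < p) : Tendsto (ee p (kap p x) x) atTop atTop := by
  have hp0 := hx.p_pos
  have h1 : Tendsto (fun s => 2 * (gam p (kap p x) x s * s ^ (1 - p / 2)) ^ 2) atTop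
      (𝓝 (2 * (p / 2 * 2 ^ (p / 2)) ^ 2)) := (hx.gam_tendsto.pow 2).const_mul 2
  have h2 : Tendsto (fun s : ℝ => s ^ (p - 1)) atTop atTop :=
    tendsto_rpow_atTop (by linarith)
  have h3 := h1.pos_mul_atTop (by positivity) h2
  refine h3.congr' ?_
  filter_upwards [eventually_gt_atTop 0] with s hs
  exact (ee_eq hs).symm

theorem IsProf0.ee_one (hp : p = 1) : Tendsto (ee p (kap p x) x) atTop (𝓝 1) := by
  have h1 : Tendsto (fun s => 2 * (gam p (kap p x) x s * s ^ (1 - p / 2)) ^ 2) atTop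
      (𝓝 (2 * (p / 2 * 2 ^ (p / 2)) ^ 2)) := (hx.gam_tendsto.pow 2).const_mul 2
  have e : 2 * (p / 2 * (2 : ℝ) ^ (p / 2)) ^ 2 = 1 := by
    rw [mul_pow, ← Real.rpow_natCast ((2 : ℝ) ^ (p / 2)), ← Real.rpow_mul (by norm_num), hp]
    norm_num
  rw [e] at h1
  refine h1.congr' ?_
  filter_upwards [eventually_gt_atTop 0] with s hs
  rw [ee_eq hs, hp]
  simp

theorem IsProf0.ee_lt_one (hp : p = 1) {s : ℝ} (hs : 0 ≤ s) : ee p (kap p x) x s < 1 := by
  have hκ := kap_pos p x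
  have h1 : ee p (kap p x) x s < ee p (kap p x) x (s + 1) :=
    hx.ee_strictMono hκ hs (show (0 : ℝ) ≤ s + 1 by linarith) (by linarith)
  refine h1.trans_le (ge_of_tendsto (hx.ee_one hp) ?_)
  filter_upwards [eventually_ge_atTop (s + 1)] with y hy
  exact (hx.ee_strictMono hκ).monotoneOn (show (0 : ℝ) ≤ s + 1 by linarith)
    (show (0 : ℝ) ≤ y by linarith) hy

/-- Every admissible value is exceeded. -/
theorem IsProf0.ee_exceed {y : ℝ} (hy : p = 1 → y < 1) : ∃ Z, 0 < Z ∧ y < ee p (kap p x) x Z := by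
  rcases eq_or_lt_of_le hx.one_le_p with h | h
  · have h1 := (hx.ee_one h.symm).eventually (lt_mem_nhds (hy h.symm))
    obtain ⟨Z, hZ, hZ0⟩ := (h1.and (eventually_gt_atTop 0)).exists
    exact ⟨Z, hZ0, hZ⟩
  · have h1 := (hx.ee_top h).eventually (eventually_gt_atTop y)
    obtain ⟨Z, hZ, hZ0⟩ := (h1.and (eventually_gt_atTop 0)).exists
    exact ⟨Z, hZ0, hZ⟩

theorem IsProf0.ee_surj {y : ℝ} (hy0 : 0 ≤ y) (hy : p = 1 → y < 1) :
    ∃ s, 0 ≤ s ∧ ee p (kap p x) x s = y := by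
  obtain ⟨Z, hZ0, hZ⟩ := hx.ee_exceed hy
  have h := intermediate_value_Icc hZ0.le (hx.continuous_ee (κ := kap p x)).continuousOn
  obtain ⟨s, hs, hs2⟩ := h ⟨by rw [ee_zero]; exact hy0, hZ.le⟩
  exact ⟨s, hs.1, hs2⟩

theorem IsProf0.Sg_spec {y : ℝ} (hy0 : 0 ≤ y) (hy : p = 1 → y < 1) :
    0 ≤ Sg p (kap p x) x y ∧ ee p (kap p x) x (Sg p (kap p x) x y) = y := by
  have h := hx.ee_surj hy0 hy
  unfold Sg
  rw [dif_pos h]
  exact h.choose_spec

omit hx in
theorem dom_div {t : ℝ} (ht : 0 < t) {g : ℝ × ℝ} (hg : Dom p g) :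
    0 ≤ len g ^ 2 / t ^ (p - 1) ∧ (p = 1 → len g ^ 2 / t ^ (p - 1) < 1) := by
  refine ⟨div_nonneg (sq_nonneg _) (Real.rpow_nonneg ht.le _), fun hp => ?_⟩
  have h1 := hg hp
  have h0 := len_nonneg g
  rw [hp]
  simp only [sub_self, Real.rpow_zero, div_one]
  nlinarith

theorem IsProf0.sgg_spec {t : ℝ} (ht : 0 < t) {g : ℝ × ℝ} (hg : Dom p g) :
    0 ≤ sgg p (kap p x) x t g ∧
      t ^ (p - 1) * ee p (kap p x) x (sgg p (kap p x) x t g) = len g ^ 2 := by
  obtain ⟨h1, h2⟩ := dom_div ht hg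
  obtain ⟨h3, h4⟩ := hx.Sg_spec h1 h2
  refine ⟨h3, ?_⟩
  unfold sgg
  rw [h4]
  have : t ^ (p - 1) ≠ 0 := (Real.rpow_pos_of_pos ht _).ne'
  field_simp

/-- The point `SS t g` has the right `σ`. -/
theorem IsProf0.sgm_SS {t : ℝ} (ht : 0 < t) {g : ℝ × ℝ} (hg : Dom p g) :
    sgm t (SS p (kap p x) x t g) = sgg p (kap p x) x t g := by
  obtain ⟨h0, h1⟩ := hx.sgg_spec ht hg
  have hκ := kap_pos p x
  have hgp := hx.gam_pos hκ (sgg p (kap p x) x t g)
  have htp : 0 < t ^ (p / 2 - 1) := Real.rpow_pos_of_pos ht _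
  unfold SS
  rw [if_pos hg, sgm_eq, len_smul, mul_pow, ← h1, sq_abs]
  set γ := gam p (kap p x) x (sgg p (kap p x) x t g)
  have e : t ^ (p - 1) = (t ^ (p / 2 - 1)) ^ 2 * t := by
    rw [← Real.rpow_natCast, ← Real.rpow_mul ht.le, ← Real.rpow_add_one ht.ne']
    congr 1
    push_cast
    ring
  unfold ee
  rw [e]
  field_simp
  exact mul_comm _ _

theorem IsProf0.GG_SS {t : ℝ} (ht : 0 < t) {g : ℝ × ℝ} (hg : Dom p g) :
    GG p (kap p x) x t (SS p (kap p x) x t g) = g := by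
  have hκ := kap_pos p x
  have hgp := hx.gam_pos hκ (sgg p (kap p x) x t g)
  have htp : 0 < t ^ (p / 2 - 1) := Real.rpow_pos_of_pos ht _
  unfold GG
  rw [hx.sgm_SS ht hg]
  unfold SS
  rw [if_pos hg, smul_smul, mul_inv_cancel₀ (by positivity), one_smul]

/-- Coercivity of the Hessian on bounded sets. -/
theorem IsProf0.coer {κ : ℝ} (hκ : 0 < κ) {τ T : ℝ} (hτ : 0 < τ) (ρ : ℝ) : ∃ l, 0 < l ∧
    ∀ t ∈ Icc τ T, ∀ s, len s ≤ ρ → (∀ v, l * len v ^ 2 ≤ (HH p κ x t s).qf v) ∧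
      l ^ 2 ≤ (HH p κ x t s).det := by
  rcases le_or_gt τ T with hτT | hτT
  swap
  · refine ⟨1, one_pos, fun t ht => ?_⟩
    exact absurd (ht.1.trans ht.2) (not_le.mpr hτT)
  set Z := ρ ^ 2 / (2 * τ) with hZ
  have hZ0 : 0 ≤ Z := by positivity
  set f : ℝ × ℝ → ℝ := fun q => q.1 ^ (p / 2 - 1) * gam p κ x q.2 * min 1 (x q.2 ^ 2) with hf
  have hfc : ContinuousOn f (Icc τ T ×ˢ Icc 0 Z) := by
    refine ContinuousOn.mul (ContinuousOn.mul ?_ ?_) ?_
    · refine ContinuousOn.rpow_const continuousOn_fst fun q hq => Or.inl ?_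
      exact (hτ.trans_le hq.1.1).ne'
    · exact (hx.continuous_gam (κ := κ)).comp_continuousOn continuousOn_snd
    · refine ContinuousOn.inf continuousOn_const (ContinuousOn.pow ?_ 2)
      exact hx.continuousOn_x.comp continuousOn_snd fun q hq => hq.2.1
  have hfpos : ∀ q ∈ Icc τ T ×ˢ Icc 0 Z, 0 < f q := by
    intro q hq
    have h1 := hx.gam_pos hκ q.2
    have h2 := hx.pos' q.2
    have h3 : 0 < q.1 := hτ.trans_le hq.1.1
    have h4 : 0 < min 1 (x q.2 ^ 2) := lt_min one_pos (by positivity)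
    simp only [hf]
    positivity
  obtain ⟨q0, hq0, hmin⟩ := (isCompact_Icc.prod isCompact_Icc).exists_isMinOn
    (⟨(τ, 0), ⟨⟨le_rfl, hτT⟩, ⟨le_rfl, hZ0⟩⟩⟩ : (Icc τ T ×ˢ Icc 0 Z).Nonempty) hfc
  refine ⟨f q0, hfpos q0 hq0, fun t ht s hs => ?_⟩
  have ht0 : 0 < t := hτ.trans_le ht.1
  have hσ : sgm t s ∈ Icc 0 Z := by
    refine ⟨sgm_nonneg ht0 s, ?_⟩
    rw [sgm_eq, hZ]
    have h1 := len_nonneg s
    have h2 : len s ^ 2 ≤ ρ ^ 2 := pow_le_pow_left₀ h1 hs 2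
    rw [div_le_div_iff₀ (by positivity) (by positivity)]
    have h3 : ρ ^ 2 * (2 * τ) ≤ ρ ^ 2 * (2 * t) :=
      mul_le_mul_of_nonneg_left (by linarith [ht.1]) (sq_nonneg _)
    nlinarith
  have hle : f q0 ≤ f (t, sgm t s) := hmin ⟨ht, hσ⟩
  refine ⟨fun v => ?_, ?_⟩
  · refine le_trans ?_ (hx.qf_HH_ge hκ ht0 s v)
    exact mul_le_mul_of_nonneg_right hle (sq_nonneg _)
  · rw [hx.det_HH ht0]
    refine pow_le_pow_left₀ (hfpos q0 hq0).le (hle.trans ?_) 2
    simp only [hf]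
    have h1 := hx.gam_pos hκ (sgm t s)
    have h2 := hx.pos' (sgm t s)
    refine mul_le_mul_of_nonneg_left ?_ (by positivity)
    rcases le_total 1 (x (sgm t s)) with h | h
    · exact (min_le_left _ _).trans h
    · exact (min_le_right _ _).trans (by nlinarith)

/-- Strong monotonicity of the gradient. -/
theorem IsProf0.GG_mono {κ : ℝ} {t ρ l : ℝ} (ht : 0 < t)
    (hl : ∀ s, len s ≤ ρ → ∀ v, l * len v ^ 2 ≤ (HH p κ x t s).qf v)
    {s s' : ℝ × ℝ} (hs : len s ≤ ρ) (hs' : len s' ≤ ρ) :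
    l * len (s' - s) ^ 2 ≤ dot (GG p κ x t s' - GG p κ x t s) (s' - s) := by
  set Δ := s' - s with hΔ
  have hc : ContinuousOn (fun u : ℝ => dot (GG p κ x t (s + u • Δ)) Δ) (Icc 0 1) := fun u _ =>
    (hx.line_two ht s Δ u).continuousAt.continuousWithinAt
  obtain ⟨c, hc1, hc2⟩ := exists_hasDerivAt_eq_slope
    (fun u : ℝ => dot (GG p κ x t (s + u • Δ)) Δ)
    (fun u : ℝ => (HH p κ x t (s + u • Δ)).qf Δ) one_pos hc
    (fun u _ => hx.line_two ht s Δ u)
  simp only [one_smul, zero_smul, add_zero, sub_zero, div_one] at hc2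
  have e1 : s + Δ = s' := by rw [hΔ]; abel
  rw [e1] at hc2
  have e2 : dot (GG p κ x t s' - GG p κ x t s) Δ = dot (GG p κ x t s') Δ
      - dot (GG p κ x t s) Δ := by
    simp only [dot, Prod.fst_sub, Prod.snd_sub]
    ring
  rw [e2, ← hc2]
  refine hl _ ?_ _
  have e3 : s + c • Δ = (1 - c) • s + c • s' := by
    rw [hΔ, sub_smul, smul_sub, one_smul]
    abel
  rw [e3]
  refine (len_add_le _ _).trans ?_
  rw [len_smul, len_smul, abs_of_nonneg (by linarith [hc1.2]), abs_of_nonneg hc1.1.le]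
  nlinarith [hc1.1, hc1.2]

/-- The first order convexity inequality. -/
theorem IsProf0.VV_convex {κ : ℝ} (hκ : 0 < κ) {t : ℝ} (ht : 0 < t) (s s' : ℝ × ℝ) :
    VV p κ x t s + dot (GG p κ x t s) (s' - s) ≤ VV p κ x t s' := by
  set Δ := s' - s with hΔ
  have hpos : ∀ s v, 0 ≤ (HH p κ x t s).qf v := by
    intro s v
    refine le_trans ?_ (hx.qf_HH_ge hκ ht s v)
    have h1 := hx.gam_pos hκ (sgm t s)
    have h4 : 0 ≤ min 1 (x (sgm t s) ^ 2) := le_min zero_le_one (sq_nonneg _)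
    positivity
  have hmono : MonotoneOn (fun u : ℝ => dot (GG p κ x t (s + u • Δ)) Δ) (Icc 0 1) := by
    refine monotoneOn_of_deriv_nonneg (convex_Icc 0 1)
      (fun u _ => (hx.line_two ht s Δ u).continuousAt.continuousWithinAt)
      (fun u _ => (hx.line_two ht s Δ u).differentiableAt.differentiableWithinAt) ?_
    intro u _
    rw [(hx.line_two ht s Δ u).deriv]
    exact hpos _ _
  obtain ⟨c, hc1, hc2⟩ := exists_hasDerivAt_eq_slope
    (fun u : ℝ => VV p κ x t (s + u • Δ))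
    (fun u : ℝ => dot (GG p κ x t (s + u • Δ)) Δ) one_pos
    (fun u _ => (hx.line_one ht s Δ u).continuousAt.continuousWithinAt)
    (fun u _ => hx.line_one ht s Δ u)
  simp only [one_smul, zero_smul, add_zero, sub_zero, div_one] at hc2
  have e1 : s + Δ = s' := by rw [hΔ]; abel
  rw [e1] at hc2
  have h1 := hmono (left_mem_Icc.mpr zero_le_one) ⟨hc1.1.le, hc1.2.le⟩ hc1.1.le
  simp only [zero_smul, add_zero] at h1
  linarith

end

end Match2D.MG
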