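import Pool.Agent.Work.MP_884187_pr.Bd.B01

/-!
MP_884187_pr: the final statement from StmtA4, StmtG, StmtH2, StmtL4.
-/

open MeasureTheory Set Filter Topology

namespace Match2D

universe u

/-- The expectation on an arbitrary probability space. -/
theorem Fin_law (hA4 : StmtA4) {Ω : Type u} [MeasurableSpace Ω] (P : Measure Ω)
    [IsProbabilityMeasure P] (X : ℕ → Ω → ℝ × ℝ) (hX : ∀ i, Measurable (X i))
    (hU : ∀ i, P.map (X i) = U) (hind : ProbabilityTheory.iIndepFun X P) (p : ℝ) (hp : 1 ≤ p)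
    (n : ℕ) (hn : 0 < n) :
    ∫ ω, (Wpp p (emp n (fun i => X i ω)) U).toReal ∂P = EW p n := by
  have h1 : ProbabilityTheory.iIndepFun (fun i : Fin n => X (i : ℕ)) P :=
    hind.precomp Fin.val_injective
  have h2 := (ProbabilityTheory.iIndepFun_iff_map_fun_eq_pi_map
    (fun i : Fin n => (hX (i : ℕ)).aemeasurable)).mp h1
  simp only [hU] at h2
  have hmeas : Measurable (fun ω (i : Fin n) => X (i : ℕ) ω) :=
    measurable_pi_lambda _ (fun i => hX (i : ℕ))
  unfold EW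
  rw [← h2, integral_map hmeas.aemeasurable (hA4 p hp n hn).aestronglyMeasurable]

/-- The constant of the problem. -/
theorem Fin_const (p : ℝ) (x : ℝ → ℝ) : kap p x / (8 * Real.pi) ^ (p / 2) =
    (4 * Real.pi) ^ (-(p / 2)) * Real.exp ((∫ r in Ioc (0 : ℝ) 1, (1 - x r ^ 2) / r) / 2
      + (∫ r in Ioi (1 : ℝ), (p - 1 - x r ^ 2) / r) / 2) := by
  have h8 : (8 * Real.pi) ^ (p / 2) = 2 ^ (p / 2) * (4 * Real.pi) ^ (p / 2) := by
    rw [← Real.mul_rpow (by norm_num) (by positivity)]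
    congr 1
    ring
  have h2 : (2 : ℝ) ^ (p / 2) ≠ 0 := by positivity
  have h4 : (4 * Real.pi) ^ (p / 2) ≠ 0 := by positivity
  rw [kap, h8, Real.rpow_neg (by positivity)]
  field_simp

theorem Fin_limit (hH : StmtH2) (hL : StmtL4) {p κ : ℝ} (hp : 1 ≤ p) {V G H W S HI}
    (hV : VFacts p κ V G H) (hW : WFacts p κ V W S HI) :
    Tendsto (fun n : ℕ => ((n : ℝ) / Real.log n) ^ (p / 2) * EW p n) atTop
      (𝓝 (κ / (8 * Real.pi) ^ (p / 2))) := by
  rw [Metric.tendsto_atTop]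
  intro ε hε
  have h1 := hH p hp κ V G H hV (ε / 2) (by positivity)
  have h2 := hL p hp κ V G H W S HI hV hW (ε / 2) (by positivity)
  obtain ⟨N, hN⟩ := eventually_atTop.mp (h1.and (h2.and (eventually_ge_atTop 3)))
  refine ⟨N, fun n hn => ?_⟩
  obtain ⟨a1, a2, a3⟩ := hN n hn
  have hn0 : (0 : ℝ) < n := by positivity
  have hl : 0 < Real.log n := Real.log_pos (by exact_mod_cast (by omega : 1 < n))
  have hmul : ((n : ℝ) / Real.log n) ^ (p / 2) * (Real.log n / n) ^ (p / 2) = 1 := by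
    rw [← Real.mul_rpow (by positivity) (by positivity)]
    have : (n : ℝ) / Real.log n * (Real.log n / n) = 1 := by field_simp
    rw [this, Real.one_rpow]
  have hpos : 0 < ((n : ℝ) / Real.log n) ^ (p / 2) := by positivity
  set a := ((n : ℝ) / Real.log n) ^ (p / 2) with ha
  set b := (Real.log n / n) ^ (p / 2) with hb
  set L := κ / (8 * Real.pi) ^ (p / 2) with hLdef
  have c1 : a * EW p n ≤ L + ε / 2 := by
    calc a * EW p n ≤ a * ((L + ε / 2) * b) := by gcongr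
      _ = (a * b) * (L + ε / 2) := by ring
      _ = _ := by rw [hmul, one_mul]
  have c2 : L - ε / 2 ≤ a * EW p n := by
    calc L - ε / 2 = (a * b) * (L - ε / 2) := by rw [hmul, one_mul]
      _ = a * ((L - ε / 2) * b) := by ring
      _ ≤ a * EW p n := by gcongr
  rw [Real.dist_eq, abs_lt]
  constructor <;> linarith

/-- The final theorem from its pieces. -/
theorem Fin_main (hA4 : StmtA4) (hG : StmtG) (hH : StmtH2) (hL : StmtL4) (p : ℝ) (hp : 1 ≤ p) :
    (∃ x : ℝ → ℝ, IsProfile p x) ∧ ∀ x : ℝ → ℝ, IsProfile p x →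
      IntegrableOn (fun r => (1 - x r ^ 2) / r) (Ioc (0 : ℝ) 1) ∧
      IntegrableOn (fun r => (p - 1 - x r ^ 2) / r) (Ioi (1 : ℝ)) ∧
      ∀ (Ω : Type u) [MeasurableSpace Ω] (P : Measure Ω) [IsProbabilityMeasure P]
        (X : ℕ → Ω → ℝ × ℝ), (∀ i, Measurable (X i)) → (∀ i, P.map (X i) = U) →
        ProbabilityTheory.iIndepFun X P →
        Tendsto (fun n : ℕ => ((n : ℝ) / Real.log n) ^ (p / 2) *
          ∫ ω, (Wpp p (emp n (fun i => X i ω)) U).toReal ∂P) atTop
          (𝓝 ((4 * Real.pi) ^ (-(p / 2)) *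
            Real.exp ((∫ r in Ioc (0 : ℝ) 1, (1 - x r ^ 2) / r) / 2
              + (∫ r in Ioi (1 : ℝ), (p - 1 - x r ^ 2) / r) / 2))) := by
  obtain ⟨hex, hall⟩ := hG p hp
  refine ⟨hex, fun x hx => ?_⟩
  obtain ⟨i1, i2, V, G, H, W, S, HI, hV, hW⟩ := hall x hx
  refine ⟨i1, i2, ?_⟩
  intro Ω _ P _ X hX hU hind
  have h := Fin_limit hH hL hp hV hW
  rw [Fin_const] at h
  refine h.congr' ?_
  filter_upwards [eventually_gt_atTop 0] with n hn
  rw [Fin_law hA4 P X hX hU hind p hp n hn]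

end Match2D
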