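import Pool.Agent.Work.MP_884187_pr.Prof

/-!
Module G of MP_884187_pr: the functions `gam` and `FF` of the profile.
-/

set_option autoImplicit false

open MeasureTheory Set Filter Topology

namespace Match2D.MG

/-- A profile that is `1` on the negative half line. -/
structure IsProf0 (p : ℝ) (x : ℝ → ℝ) : Prop extends IsProfile p x where
  one_le_p : 1 ≤ p
  neg : ∀ r, r ≤ 0 → x r = 1

/-- The exponent. -/
noncomputable def lam (x : ℝ → ℝ) (s : ℝ) : ℝ := ∫ r in (0 : ℝ)..s, ww x r

/-- `γ(σ) = (p κ / 2) exp(∫_0^σ (x^2 - 1)/(2 r) dr)`. -/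
noncomputable def gam (p κ : ℝ) (x : ℝ → ℝ) (s : ℝ) : ℝ := p * κ / 2 * Real.exp (lam x s)

/-- The radial profile of the value function, `F' = γ`, `F(0) = κ`. -/
noncomputable def FF (p κ : ℝ) (x : ℝ → ℝ) (s : ℝ) : ℝ := κ + ∫ r in (0 : ℝ)..s, gam p κ x r

section

variable {p : ℝ} {x : ℝ → ℝ} (hx : IsProf0 p x)
include hx

theorem IsProf0.p_pos : 0 < p := lt_of_lt_of_le one_pos hx.one_le_p

theorem IsProf0.ww_neg {r : ℝ} (hr : r ≤ 0) : ww x r = 0 := by
  unfold ww
  rw [hx.neg r hr]
  simp

theorem IsProf0.pos' (r : ℝ) : 0 < x r := by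
  rcases le_or_gt r 0 with h | h
  · rw [hx.neg r h]; exact one_pos
  · exact hx.pos r h

theorem IsProf0.le_p' (r : ℝ) : x r ≤ p := by
  rcases le_or_gt r 0 with h | h
  · rw [hx.neg r h]; exact hx.one_le_p
  · exact hx.toIsProfile.le_p hx.one_le_p h

theorem IsProf0.abs_ww (r : ℝ) : |ww x r| ≤ p ^ 2 := by
  rcases le_or_gt r 0 with h | h
  · rw [hx.ww_neg h, abs_zero]; positivity
  · exact hx.toIsProfile.abs_ww_le' hx.one_le_p h

theorem IsProf0.aesm_ww : AEStronglyMeasurable (ww x) volume := by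
  have h : ww x = (Ioi (0 : ℝ)).indicator (ww x) := by
    funext r
    by_cases hr : r ∈ Ioi (0 : ℝ)
    · rw [indicator_of_mem hr]
    · rw [indicator_of_notMem hr]
      exact hx.ww_neg (not_lt.mp hr)
  rw [h, aestronglyMeasurable_indicator_iff measurableSet_Ioi]
  exact hx.toIsProfile.continuousOn_ww.aestronglyMeasurable measurableSet_Ioi

theorem IsProf0.int_ww (a b : ℝ) : IntervalIntegrable (ww x) volume a b := by
  refine (intervalIntegrable_const (c := p ^ 2)).mono_fun hx.aesm_ww.restrict ?_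
  refine Filter.Eventually.of_forall fun r => ?_
  show ‖ww x r‖ ≤ ‖p ^ 2‖
  rw [Real.norm_eq_abs, Real.norm_eq_abs]
  exact (hx.abs_ww r).trans (le_abs_self _)

theorem IsProf0.lam_sub (a b : ℝ) : lam x b - lam x a = ∫ r in a..b, ww x r := by
  unfold lam
  rw [intervalIntegral.integral_interval_sub_left (hx.int_ww _ _) (hx.int_ww _ _)]

theorem IsProf0.abs_lam_sub (a b : ℝ) : |lam x b - lam x a| ≤ p ^ 2 * |b - a| := by
  rw [hx.lam_sub]
  have := intervalIntegral.norm_integral_le_of_norm_le_const (a := a) (b := b) (f := ww x)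
    (C := p ^ 2) fun r _ => hx.abs_ww r
  rwa [Real.norm_eq_abs] at this

omit hx in
theorem lam_zero (x : ℝ → ℝ) : lam x 0 = 0 := by
  unfold lam
  simp

theorem IsProf0.lam_neg {s : ℝ} (hs : s ≤ 0) : lam x s = 0 := by
  unfold lam
  rw [intervalIntegral.integral_symm, intervalIntegral.integral_of_le hs]
  rw [setIntegral_congr_fun measurableSet_Ioc (g := fun _ => (0 : ℝ))
    (fun r hr => hx.ww_neg hr.2)]
  simp

theorem IsProf0.continuous_lam : Continuous (lam x) := by
  rw [continuous_iff_continuousAt]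
  intro a
  rw [Metric.continuousAt_iff]
  intro ε hε
  have hp := hx.p_pos
  refine ⟨ε / p ^ 2, by positivity, fun b hb => ?_⟩
  rw [Real.dist_eq] at hb ⊢
  refine (hx.abs_lam_sub a b).trans_lt ?_
  rw [lt_div_iff₀ (by positivity)] at hb
  linarith

theorem IsProf0.hasDerivAt_lam {s : ℝ} (hs : 0 < s) : HasDerivAt (lam x) (ww x s) s := by
  refine intervalIntegral.integral_hasDerivAt_right (hx.int_ww _ _) ?_ ?_
  · exact ⟨univ, univ_mem, hx.aesm_ww.restrict⟩
  · exact (hx.toIsProfile.continuousOn_ww s hs).continuousAt (Ioi_mem_nhds hs)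

/-- Logarithmic growth of the exponent. -/
theorem IsProf0.abs_lam_le {s : ℝ} (hs : 0 ≤ s) : |lam x s| ≤ p ^ 2 * Real.log (1 + s) := by
  have hcont : ContinuousOn (fun r : ℝ => p ^ 2 / (1 + r)) (uIcc 0 s) := by
    rw [uIcc_of_le hs]
    refine continuousOn_const.div (by fun_prop) fun y hy => ?_
    have := hy.1
    positivity
  have h := intervalIntegral.norm_integral_le_of_norm_le (f := ww x)
    (g := fun r => p ^ 2 / (1 + r)) hs (μ := volume) (a := 0) (b := s)
    (Filter.Eventually.of_forall fun r hr => by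
      rw [Real.norm_eq_abs]
      exact hx.toIsProfile.abs_ww_le hx.one_le_p hr.1)
    (ContinuousOn.intervalIntegrable hcont)
  have hd : ∀ r ∈ uIcc 0 s, HasDerivAt (fun r : ℝ => p ^ 2 * Real.log (1 + r))
      (p ^ 2 / (1 + r)) r := by
    intro r hr
    rw [uIcc_of_le hs] at hr
    have h1 : (1 : ℝ) + r ≠ 0 := by have := hr.1; positivity
    have h2 := (((hasDerivAt_id r).const_add 1).log h1).const_mul (p ^ 2)
    have e : p ^ 2 * (1 / (1 + r)) = p ^ 2 / (1 + r) := by ring
    rw [← e]
    exact h2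
  rw [intervalIntegral.integral_eq_sub_of_hasDerivAt hd (ContinuousOn.intervalIntegrable hcont),
    Real.norm_eq_abs] at h
  simpa [lam] using h

variable {κ : ℝ} (hκ : 0 < κ)
include hκ

theorem IsProf0.gam_pos (s : ℝ) : 0 < gam p κ x s := by
  have := hx.p_pos
  unfold gam
  positivity

omit hκ in
theorem IsProf0.continuous_gam : Continuous (gam p κ x) := by
  unfold gam
  exact continuous_const.mul (Real.continuous_exp.comp hx.continuous_lam)

omit hκ in
theorem IsProf0.hasDerivAt_gam {s : ℝ} (hs : 0 < s) :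
    HasDerivAt (gam p κ x) (gam p κ x s * ww x s) s := by
  have h := (hx.hasDerivAt_lam hs).exp.const_mul (p * κ / 2)
  unfold gam
  rw [mul_assoc]
  exact h

theorem IsProf0.gam_lip (a b : ℝ) :
    |gam p κ x a - gam p κ x b| ≤ p ^ 2 * (gam p κ x a + gam p κ x b) * |a - b| := by
  have hc : 0 < p * κ / 2 := by have := hx.p_pos; positivity
  have key : ∀ u v : ℝ, u ≤ v → |Real.exp u - Real.exp v| ≤ (Real.exp u + Real.exp v) * |u - v| := by
    intro u v huv
    have h1 : Real.exp u ≤ Real.exp v := Real.exp_le_exp.mpr huv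
    have h2 : Real.exp (u - v) ≥ 1 + (u - v) := by
      have := Real.add_one_le_exp (u - v); linarith
    have h3 : Real.exp u = Real.exp v * Real.exp (u - v) := by
      rw [← Real.exp_add]; ring_nf
    rw [abs_of_nonpos (by linarith), abs_of_nonpos (by linarith)]
    have h4 := Real.exp_pos v
    have h5 := Real.exp_pos u
    nlinarith
  have key2 : ∀ u v : ℝ, |Real.exp u - Real.exp v| ≤ (Real.exp u + Real.exp v) * |u - v| := by
    intro u v
    rcases le_total u v with h | h
    · exact key u v h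
    · rw [abs_sub_comm, abs_sub_comm u v, add_comm]; exact key v u h
  have h1 := key2 (lam x a) (lam x b)
  have h2 := hx.abs_lam_sub b a
  have ha := Real.exp_pos (lam x a)
  have hb := Real.exp_pos (lam x b)
  unfold gam
  rw [← mul_sub, abs_mul, abs_of_pos hc]
  calc p * κ / 2 * |Real.exp (lam x a) - Real.exp (lam x b)|
      ≤ p * κ / 2 * ((Real.exp (lam x a) + Real.exp (lam x b)) * (p ^ 2 * |a - b|)) := by
        refine mul_le_mul_of_nonneg_left (h1.trans ?_) hc.le
        exact mul_le_mul_of_nonneg_left h2 (by positivity)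
    _ = _ := by ring

/-- Polynomial growth of `gam`. -/
theorem IsProf0.gam_le {s : ℝ} (hs : 0 ≤ s) :
    gam p κ x s ≤ p * κ / 2 * (1 + s) ^ ⌈p ^ 2⌉₊ := by
  have hc : 0 < p * κ / 2 := by have := hx.p_pos; positivity
  have h := (abs_le.mp (hx.abs_lam_le hs)).2
  have h1 : 0 < 1 + s := by linarith
  unfold gam
  refine mul_le_mul_of_nonneg_left ?_ hc.le
  calc Real.exp (lam x s) ≤ Real.exp (p ^ 2 * Real.log (1 + s)) := Real.exp_le_exp.mpr h
    _ = (1 + s) ^ (p ^ 2) := by
        rw [Real.rpow_def_of_pos h1, mul_comm]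
    _ ≤ (1 + s) ^ ((⌈p ^ 2⌉₊ : ℕ) : ℝ) :=
        Real.rpow_le_rpow_of_exponent_le (by linarith) (Nat.le_ceil _)
    _ = (1 + s) ^ ⌈p ^ 2⌉₊ := Real.rpow_natCast _ _

omit hx hκ in
theorem gam_zero : gam p κ x 0 = p * κ / 2 := by
  unfold gam
  rw [lam_zero]
  simp

omit hκ in
theorem IsProf0.hasDerivAt_FF (s : ℝ) : HasDerivAt (FF p κ x) (gam p κ x s) s := by
  unfold FF
  exact (intervalIntegral.integral_hasDerivAt_right
    (hx.continuous_gam.intervalIntegrable _ _)
    (hx.continuous_gam.stronglyMeasurableAtFilter _ _) hx.continuous_gam.continuousAt).const_add κ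

omit hx hκ in
theorem FF_zero : FF p κ x 0 = κ := by
  unfold FF
  simp

omit hκ in
theorem IsProf0.continuousOn_x : ContinuousOn x (Ici 0) := by
  intro y hy
  rcases eq_or_lt_of_le (show (0 : ℝ) ≤ y from hy) with h | h
  · rw [← h]
    have h1 : ContinuousWithinAt x (Ioi 0) 0 := by
      unfold ContinuousWithinAt
      rw [hx.neg 0 le_rfl]
      exact hx.lim
    have h2 : Ici (0 : ℝ) = insert 0 (Ioi 0) := by
      rw [insert_eq, union_comm, Ioi_union_left]
    rw [h2, continuousWithinAt_insert_self]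
    exact h1
  · exact (hx.toIsProfile.hasDerivAt h).continuousAt.continuousWithinAt

omit hκ in
/-- `F = (2/p) γ (x + σ)`. -/
theorem IsProf0.FF_eq {s : ℝ} (hs : 0 ≤ s) :
    p / 2 * FF p κ x s = gam p κ x s * (x s + s) := by
  have hp := hx.p_pos
  rcases eq_or_lt_of_le hs with h | h
  · rw [← h, FF_zero, hx.neg 0 le_rfl]
    rw [gam_zero]
    ring
  · set D : ℝ → ℝ := fun s => p / 2 * FF p κ x s - gam p κ x s * (x s + s) with hD
    have hDc : ContinuousOn D (Icc 0 s) := by
      have h1 : Continuous (FF p κ x) :=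
        continuous_iff_continuousAt.mpr fun y => (hx.hasDerivAt_FF y).continuousAt
      refine (continuousOn_const.mul h1.continuousOn).sub
        (hx.continuous_gam.continuousOn.mul ?_)
      exact (hx.continuousOn_x.mono Icc_subset_Ici_self).add continuousOn_id
    have hDd : ∀ y ∈ Ioo 0 s, HasDerivAt D ((fun _ => (0 : ℝ)) y) y := by
      intro y hy
      have h1 := (hx.hasDerivAt_FF (κ := κ) y).const_mul (p / 2)
      have h2 := (hx.hasDerivAt_gam (κ := κ) hy.1).mul
        ((hx.toIsProfile.hasDerivAt hy.1).add (hasDerivAt_id y))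
      have h3 := h1.sub h2
      have e : p / 2 * gam p κ x y - (gam p κ x y * ww x y * (x y + id y) + gam p κ x y *
          ((p - 1 - x y ^ 2) / 2 - x y * ww x y + 1)) = 0 := by
        have e1 : ww x y * (id y) = (x y ^ 2 - 1) / 2 := by
          unfold ww
          have := hy.1.ne'
          simp only [id]
          field_simp
        linear_combination (-gam p κ x y) * e1
      have h4 : HasDerivAt D (p / 2 * gam p κ x y - (gam p κ x y * ww x y * (x y + id y) +
          gam p κ x y * ((p - 1 - x y ^ 2) / 2 - x y * ww x y + 1))) y := h3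
      rw [e] at h4
      exact h4
    obtain ⟨c, hc, hc2⟩ := exists_hasDerivAt_eq_slope D (fun _ => 0) h hDc hDd
    have h5 : D s - D 0 = 0 := by
      have h6 : (D s - D 0) / (s - 0) = 0 := hc2.symm
      rw [div_eq_zero_iff] at h6
      rcases h6 with h6 | h6
      · exact h6
      · linarith
    have h7 : D 0 = 0 := by
      simp only [hD]
      rw [FF_zero, hx.neg 0 le_rfl]
      rw [gam_zero]
      ring
    rw [h7, sub_zero] at h5
    simp only [hD] at h5
    linarith

theorem IsProf0.FF_pos {s : ℝ} (hs : 0 ≤ s) : 0 < FF p κ x s := by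
  have h1 := hx.FF_eq (κ := κ) hs
  have hp := hx.p_pos
  have h2 := hx.gam_pos hκ s
  have h3 := hx.pos' s
  have h4 : 0 < gam p κ x s * (x s + s) := by positivity
  rw [← h1] at h4
  exact (mul_pos_iff_of_pos_left (by positivity)).mp h4

end

end Match2D.MG
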