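import Pool.Agent.Work.MP_884187_pr.Stmts

/-!
MP_884187_pr: the kernels of the upper bound, definitions and statements of the items E0-E6.
-/

open MeasureTheory Set Filter Topology

namespace Match2D

/-- The radial profile: `1/w` for `w ≥ r^2`, continued in a `C^1` way by `(2 r^2 - w)/r^4`. -/
noncomputable def kk (r w : ℝ) : ℝ := if r ^ 2 ≤ w then 1 / w else (2 * r ^ 2 - w) / r ^ 4

/-- The main flux kernel `(1/2π) z (k_r(q) - k_A(q))`, `q = M.qf z`. -/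
noncomputable def Kf (M : SymM) (r A : ℝ) (z : ℝ × ℝ) : ℝ × ℝ :=
  (1 / (2 * Real.pi) * (kk r (M.qf z) - kk A (M.qf z))) • z

/-- The density `(2/(π r^2)) (1 - q/r^2)_+`; the divergence of `Kf M r A` is `th M r - th M A`. -/
noncomputable def th (M : SymM) (r : ℝ) (z : ℝ × ℝ) : ℝ :=
  2 / (Real.pi * r ^ 2) * max (1 - M.qf z / r ^ 2) 0

/-- The identity matrix. -/
def oneM : SymM := ⟨1, 0, 1⟩

/-- The quadrant `{s1 z1 ≥ 0, s2 z2 ≥ 0}`. -/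
def Quad (s : ℝ × ℝ) : Set (ℝ × ℝ) := {z | 0 ≤ s.1 * z.1 ∧ 0 ≤ s.2 * z.2}

/-- E0: integration of a function of a quadratic form of determinant one. -/
def StmtE0 : Prop := ∀ M : SymM, 0 < M.a → M.det = 1 → ∀ f : ℝ → ENNReal, Measurable f →
  ∫⁻ z : ℝ × ℝ, f (M.qf z) = ENNReal.ofReal Real.pi * ∫⁻ w in Ioi (0 : ℝ), f w

open Classical in
/-- E1: the kernels are fluxes (whole plane version and quadrant version). -/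
def StmtE1 : Prop :=
  (∀ (M : SymM) (r A : ℝ) (y₀ : ℝ × ℝ), 0 < M.a → M.det = 1 → 0 < r → r < A → y₀ ∈ SqO →
    (∀ z, M.qf (z - y₀) < A ^ 2 → z ∈ Sq) →
    IsFlux (fun z => Kf M r A (z - y₀)) (fun z => th M r (z - y₀) - th M A (z - y₀))) ∧
  (∀ (s : ℝ × ℝ) (r A : ℝ) (y₀ : ℝ × ℝ), (s.1 = 1 ∨ s.1 = -1) → (s.2 = 1 ∨ s.2 = -1) → 0 < r →
    r < A → y₀ ∈ SqO → (∀ z, z - y₀ ∈ Quad s → len (z - y₀) < A → z ∈ Sq) →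
    IsFlux (fun z => if z - y₀ ∈ Quad s then (4 : ℝ) • Kf oneM r A (z - y₀) else 0)
      (fun z => if z - y₀ ∈ Quad s then 4 * (th oneM r (z - y₀) - th oneM A (z - y₀)) else 0))

open Classical in
/-- E2: crude solver on a square. -/
def StmtE2 : Prop := ∀ (a a' l F : ℝ), 0 ≤ a → 0 ≤ a' → 0 < l → a + l ≤ 1 → a' + l ≤ 1 →
  ∀ f : ℝ × ℝ → ℝ, Measurable f → (∀ z, |f z| ≤ F) →
  (∫ z in Ico a (a + l) ×ˢ Ico a' (a' + l), f z = 0) →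
  ∃ b : ℝ × ℝ → ℝ × ℝ, Measurable b ∧
    IsFlux b (fun z => if z ∈ Ico a (a + l) ×ˢ Ico a' (a' + l) then f z else 0) ∧
    (∀ z, len (b z) ≤ 4 * l * F) ∧ (∀ z, z ∉ Icc a (a + l) ×ˢ Icc a' (a' + l) → b z = 0)

/-- E3: sizes of the kernels. -/
def StmtE3 : Prop := ∀ (B : ℝ) (M : SymM), 2 ≤ B → Unim B M → ∀ (r A : ℝ), 0 < r → r < A →
  (∫ z : ℝ × ℝ, M.qf (Kf M r A z) ≤ 1 / (2 * Real.pi) * (Real.log (A / r) + 1 / 2)) ∧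
  Integrable (fun z : ℝ × ℝ => M.qf (Kf M r A z)) ∧
  (∀ z, len z ^ 2 ≤ B * M.qf z ∧ M.qf z ≤ B * len z ^ 2) ∧
  (∀ z, len (Kf M r A z) * max (len z) r ≤ B) ∧
  (∀ z z', len (Kf M r A z - Kf M r A z') ≤ 10 * B ^ 2 / r ^ 2 * len (z - z')) ∧
  (∀ z, A ^ 2 ≤ M.qf z → Kf M r A z = 0) ∧
  (∫ z : ℝ × ℝ, th M r z = 1) ∧ (∀ z, 0 ≤ th M r z ∧ th M r z ≤ 2 / (Real.pi * r ^ 2)) ∧
  (∀ s : ℝ × ℝ, (s.1 = 1 ∨ s.1 = -1) → (s.2 = 1 ∨ s.2 = -1) →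
    ∫ z in Quad s, th oneM r z = 1 / 4)

/-- E5: a lattice sum. -/
def StmtE5 : Prop := ∃ C : ℝ, 0 < C ∧ ∀ m : ℕ, 2 ≤ m → ∀ y ∈ Sq,
  avg (fun d : Dig m => ((max (len (y.1 - (((d.1 : ℕ) : ℝ) + 1 / 2) / m,
    y.2 - (((d.2 : ℕ) : ℝ) + 1 / 2) / m)) (1 / m)) ^ 2)⁻¹) ≤ C * Real.log m

end Match2D
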