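import Pool.Agent.Work.MP_884187_pr.Defs

/-!
MP_884187_pr: the hierarchical model (digits, cells, averages, adapted processes, fluxes) and the
statements (`Stmt...`) of the items.  Every item proves its `Stmt...`; an item may assume other
`Stmt...` as hypotheses.
-/

open MeasureTheory Set Filter Topology

namespace Match2D

/-! ## D. The hierarchical model -/

/-- A digit: one of the `m^2` subcells. -/
abbrev Dig (m : ℕ) := Fin m × Fin m

/-- Digit sequences: `ω j i` is the generation `j` digit of the point `i`. -/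
abbrev Seqs (m n : ℕ) := ℕ → Fin n → Dig m

/-- Average over a finite type. -/
noncomputable def avg {α E : Type*} [Fintype α] [AddCommGroup E] [Module ℝ E] (f : α → E) : E :=
  (Fintype.card α : ℝ)⁻¹ • ∑ a, f a

/-- Extend a history of `J` generations by the digit `(0, 0)`. -/
def ext {m n : ℕ} [NeZero m] (J : ℕ) (w : Fin J → Fin n → Dig m) : Seqs m n :=
  fun j i => if h : j < J then w ⟨j, h⟩ i else (0, 0)

/-- Expectation over the digits of the first `J` generations (all independent and uniform). -/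
noncomputable def EJ {m n : ℕ} [NeZero m] (J : ℕ) (F : Seqs m n → ℝ) : ℝ :=
  avg (fun w : Fin J → Fin n → Dig m => F (ext J w))

/-- The generation `j` cell of the point `i`. -/
def cidx {m n : ℕ} (ω : Seqs m n) : ℕ → Fin n → ℕ × ℕ
  | 0, _ => (0, 0)
  | j + 1, i => (m * (cidx ω j i).1 + ((ω j i).1 : ℕ), m * (cidx ω j i).2 + ((ω j i).2 : ℕ))

/-- The generation `j` cell containing `x`. -/
noncomputable def qidx (m j : ℕ) (x : ℝ × ℝ) : ℕ × ℕ :=
  (⌊(m : ℝ) ^ j * x.1⌋₊, ⌊(m : ℝ) ^ j * x.2⌋₊)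

/-- The local coordinate of `x` in its generation `j` cell. -/
noncomputable def loc (m j : ℕ) (x : ℝ × ℝ) : ℝ × ℝ :=
  ((m : ℝ) ^ j * x.1 - ⌊(m : ℝ) ^ j * x.1⌋₊, (m : ℝ) ^ j * x.2 - ⌊(m : ℝ) ^ j * x.2⌋₊)

/-- The point of the generation `j` cell `q` with local coordinate `u`. -/
noncomputable def emb (m j : ℕ) (q : ℕ × ℕ) (u : ℝ × ℝ) : ℝ × ℝ :=
  (((q.1 : ℝ) + u.1) / (m : ℝ) ^ j, ((q.2 : ℝ) + u.2) / (m : ℝ) ^ j)

/-- The lower left corner of the generation `j` cell `q`. -/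
noncomputable def corner (m j : ℕ) (q : ℕ × ℕ) : ℝ × ℝ := emb m j q (0, 0)

/-- The points in the generation `j` cell `q`. -/
def inCell {m n : ℕ} (ω : Seqs m n) (j : ℕ) (q : ℕ × ℕ) : Finset (Fin n) :=
  Finset.univ.filter (fun i => cidx ω j i = q)

/-- The relative density of the generation `j` cell `q`: `m^{2j} N / n`. -/
noncomputable def rdens {m n : ℕ} (ω : Seqs m n) (j : ℕ) (q : ℕ × ℕ) : ℝ :=
  (m : ℝ) ^ (2 * j) * (inCell ω j q).card / n

/-- The centred number of points of `I` with digit `d`. -/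
noncomputable def xi {m n : ℕ} (I : Finset (Fin n)) (δ : Fin n → Dig m) (d : Dig m) : ℝ :=
  ((I.filter (fun i => δ i = d)).card : ℝ) - (I.card : ℝ) / (m : ℝ) ^ 2

/-- The step size `m^j / sqrt (n log n)`. -/
noncomputable def stp (m n j : ℕ) : ℝ := (m : ℝ) ^ j / Real.sqrt (n * Real.log n)

/-- A controlled process of fields on the unit square with kernel `β` and control `ctl`:
in the cell `q` of `x` of generation `j` the increment is
`(m^j / sqrt (n log n)) * Σ_{i in q} (β(ctl j ω q)(digit of i)(loc x) - mean over the digits)`. -/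
noncomputable def proc {m n : ℕ} {Θ : Type} (β : Θ → Dig m → ℝ × ℝ → ℝ × ℝ)
    (ctl : ℕ → Seqs m n → ℕ × ℕ → Θ) : ℕ → Seqs m n → ℝ × ℝ → ℝ × ℝ
  | 0, _, _ => 0
  | j + 1, ω, x => proc β ctl j ω x +
      stp m n j • ∑ i ∈ inCell ω j (qidx m j x),
        (β (ctl j ω (qidx m j x)) (ω j i) (loc m j x) -
          avg (fun d => β (ctl j ω (qidx m j x)) d (loc m j x)))

/-- `ctl j ω q` only depends on the digits of the generations `< j`. -/
def Adapted {m n : ℕ} {Θ : Type} (ctl : ℕ → Seqs m n → ℕ × ℕ → Θ) : Prop :=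
  ∀ j (ω ω' : Seqs m n), (∀ l, l < j → ω l = ω' l) → ∀ q, ctl j ω q = ctl j ω' q

/-- The closed loop process: the control in the cell `q` of generation `j` is
`ch j (value of the process at the corner of q)`. -/
noncomputable def Sm {m n : ℕ} {Θ : Type} (β : Θ → Dig m → ℝ × ℝ → ℝ × ℝ)
    (ch : ℕ → ℝ × ℝ → Θ) : ℕ → Seqs m n → ℝ × ℝ → ℝ × ℝ
  | 0, _, _ => 0
  | j + 1, ω, x => Sm β ch j ω x +
      stp m n j • ∑ i ∈ inCell ω j (qidx m j x),
        (β (ch j (Sm β ch j ω (corner m j (qidx m j x)))) (ω j i) (loc m j x) -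
          avg (fun d => β (ch j (Sm β ch j ω (corner m j (qidx m j x)))) d (loc m j x)))

/-- The control of the closed loop process. -/
noncomputable def clCtl {m n : ℕ} {Θ : Type} (β : Θ → Dig m → ℝ × ℝ → ℝ × ℝ)
    (ch : ℕ → ℝ × ℝ → Θ) : ℕ → Seqs m n → ℕ × ℕ → Θ :=
  fun j ω q => ch j (Sm β ch j ω (corner m j q))

/-! ## E. Fluxes -/

/-- `b` is a bounded flux on the unit square with divergence `f` and no flux through the
boundary: `b_1` is an `x`-primitive of `g1`, `b_2` is a `y`-primitive of `g2`, `g1 + g2 = f`. -/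
def IsFlux (b : ℝ × ℝ → ℝ × ℝ) (f : ℝ × ℝ → ℝ) : Prop :=
  ∃ (g1 g2 : ℝ × ℝ → ℝ) (B : ℝ), Measurable g1 ∧ Measurable g2 ∧ (∀ z, |g1 z| ≤ B) ∧
    (∀ z, |g2 z| ≤ B) ∧
    (∀ x ∈ Icc (0 : ℝ) 1, ∀ y ∈ Ico (0 : ℝ) 1, (b (x, y)).1 = ∫ s in (0 : ℝ)..x, g1 (s, y)) ∧
    (∀ y ∈ Ico (0 : ℝ) 1, ∫ s in (0 : ℝ)..1, g1 (s, y) = 0) ∧
    (∀ x ∈ Ico (0 : ℝ) 1, ∀ y ∈ Icc (0 : ℝ) 1, (b (x, y)).2 = ∫ s in (0 : ℝ)..y, g2 (x, s)) ∧
    (∀ x ∈ Ico (0 : ℝ) 1, ∫ s in (0 : ℝ)..1, g2 (x, s) = 0) ∧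
    (∀ z ∈ Sq0, g1 z + g2 z = f z)

/-- The measure with density `ρ` on the unit square. -/
noncomputable def dens (ρ : ℝ × ℝ → ℝ) : Measure (ℝ × ℝ) := U.withDensity (fun z => ENNReal.ofReal (ρ z))

/-- `ρ` is constant on the half-open cells of the grid of mesh `1/R`. -/
def CellConst (R : ℕ) (ρ : ℝ × ℝ → ℝ) : Prop :=
  ∃ r : ℕ × ℕ → ℝ, ∀ z ∈ Sq0, ρ z = r (⌊(R : ℝ) * z.1⌋₊, ⌊(R : ℝ) * z.2⌋₊)

/-- The unit-cell source: `m^2` on the subcell `d`, minus one. -/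
noncomputable def src (m : ℕ) (d : Dig m) (z : ℝ × ℝ) : ℝ :=
  (if (⌊(m : ℝ) * z.1⌋₊, ⌊(m : ℝ) * z.2⌋₊) = ((d.1 : ℕ), (d.2 : ℕ)) then (m : ℝ) ^ 2 else 0) - 1

/-- The density of generation `j`. -/
noncomputable def rhoJ {m n : ℕ} (ω : Seqs m n) (j : ℕ) (z : ℝ × ℝ) : ℝ :=
  rdens ω j (qidx m j z)

end Match2D
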