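import Pool.Agent.Work.MP_884187_pr.Defs

/-!
Module G of MP_884187_pr: bounds for the profile.
-/

set_option autoImplicit false

open MeasureTheory Set Filter Topology

namespace Match2D.MG

/-- Backward barrier: if `f` starts below `c` and decreases where it is above `c`, it stays
below `c`. -/
theorem barrier {f f' : ℝ → ℝ} (hf : ∀ r, 0 < r → HasDerivAt f (f' r) r) {l c : ℝ}
    (hlim : Tendsto f (𝓝[>] 0) (𝓝 l)) (hlc : l ≤ c)
    (hneg : ∀ r, 0 < r → c < f r → f' r < 0) : ∀ r, 0 < r → f r ≤ c := by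
  intro r1 hr1
  by_contra hcon
  rw [not_le] at hcon
  have key : ∀ r0, 0 < r0 → r0 < r1 → f r1 ≤ f r0 := by
    intro r0 h0 h01
    have hcont : ContinuousOn f (Icc r0 r1) := fun y hy =>
      (hf y (h0.trans_le hy.1)).continuousAt.continuousWithinAt
    obtain ⟨rm, hrm, hmax⟩ := isCompact_Icc.exists_isMaxOn (nonempty_Icc.mpr h01.le) hcont
    have h1 : f r1 ≤ f rm := hmax (right_mem_Icc.mpr h01.le)
    rcases eq_or_lt_of_le hrm.1 with h | h
    · rw [h]; exact h1
    · exfalso
      have hrm0 : 0 < rm := h0.trans h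
      have hd := hneg rm hrm0 (hcon.trans_le h1)
      have hs := (hf rm hrm0).tendsto_slope
      have hs' : Tendsto (slope f rm) (𝓝[<] rm) (𝓝 (f' rm)) :=
        hs.mono_left (nhdsWithin_mono _ fun y hy => (ne_of_lt hy))
      have hev := hs'.eventually (gt_mem_nhds hd)
      obtain ⟨r, hr, hr2⟩ := (hev.and (Ioo_mem_nhdsLT h)).exists
      have h3 : f r ≤ f rm := hmax ⟨hr2.1.le, hr2.2.le.trans hrm.2⟩
      rw [slope_def_field, div_lt_iff_of_neg (by linarith [hr2.2])] at hr
      linarith
  have h2 : f r1 ≤ l := by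
    refine ge_of_tendsto hlim ?_
    filter_upwards [Ioo_mem_nhdsGT hr1] with r hr using key r hr.1 hr.2
  linarith

section Prof

variable {p : ℝ} {x : ℝ → ℝ}

/-- The weight `w = (x^2 - 1) / (2 r)`. -/
noncomputable def ww (x : ℝ → ℝ) (r : ℝ) : ℝ := (x r ^ 2 - 1) / (2 * r)

theorem _root_.Match2D.IsProfile.hasDerivAt (hx : IsProfile p x) {r : ℝ} (hr : 0 < r) :
    HasDerivAt x ((p - 1 - x r ^ 2) / 2 - x r * ww x r) r := by
  have h := hx.ode r hr
  have e : (r * (p - 1 - x r ^ 2) + x r - x r ^ 3) / (2 * r)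
      = (p - 1 - x r ^ 2) / 2 - x r * ww x r := by
    unfold ww
    field_simp
    ring
  rwa [e] at h

theorem _root_.Match2D.IsProfile.one_le (hx : IsProfile p x) (hp : 2 ≤ p) {r : ℝ} (hr : 0 < r) : 1 ≤ x r := by
  have h := barrier (f := fun r => - x r) (fun r hr => (hx.hasDerivAt hr).neg) (l := -1) (c := -1)
    hx.lim.neg le_rfl ?_ r hr
  · linarith
  · intro r hr h
    have h0 := hx.pos r hr
    have h1 : x r < 1 := by linarith
    have h2 : x r ^ 2 < 1 := by nlinarith
    have h3 : ww x r < 0 := div_neg_of_neg_of_pos (by linarith) (by linarith)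
    nlinarith

theorem _root_.Match2D.IsProfile.sq_le (hx : IsProfile p x) (hp : 2 ≤ p) {r : ℝ} (hr : 0 < r) :
    x r ^ 2 ≤ p - 1 := by
  have h1 : 1 ≤ Real.sqrt (p - 1) := by
    rw [Real.one_le_sqrt]; linarith
  have h := barrier (f := x) (fun r hr => hx.hasDerivAt hr) (l := 1) (c := Real.sqrt (p - 1))
    hx.lim h1 ?_ r hr
  · have h2 := Real.sq_sqrt (show 0 ≤ p - 1 by linarith)
    have h0 := hx.pos r hr
    nlinarith
  · intro r hr h
    have h2 := Real.sq_sqrt (show 0 ≤ p - 1 by linarith)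
    have h0 := hx.pos r hr
    have h3 : p - 1 < x r ^ 2 := by nlinarith
    have h4 : 0 ≤ ww x r := div_nonneg (by linarith) (by linarith)
    nlinarith

theorem _root_.Match2D.IsProfile.le_one (hx : IsProfile p x) (hp : p ≤ 2) {r : ℝ} (hr : 0 < r) : x r ≤ 1 := by
  refine barrier (f := x) (fun r hr => hx.hasDerivAt hr) (l := 1) (c := 1)
    hx.lim le_rfl ?_ r hr
  intro r hr h
  have h2 : 1 < x r ^ 2 := by nlinarith
  have h4 : 0 < ww x r := div_pos (by linarith) (by linarith)
  nlinarith

theorem _root_.Match2D.IsProfile.le_sq (hx : IsProfile p x) (hp1 : 1 ≤ p) (hp : p ≤ 2) {r : ℝ} (hr : 0 < r) :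
    p - 1 ≤ x r ^ 2 := by
  have h1 : Real.sqrt (p - 1) ≤ 1 := by
    rw [Real.sqrt_le_one]; linarith
  have hs0 := Real.sqrt_nonneg (p - 1)
  have h2 := Real.sq_sqrt (show 0 ≤ p - 1 by linarith)
  have h := barrier (f := fun r => - x r) (fun r hr => (hx.hasDerivAt hr).neg) (l := -1)
    (c := -Real.sqrt (p - 1)) hx.lim.neg (by linarith) ?_ r hr
  · have h0 := hx.pos r hr
    nlinarith
  · intro r hr h
    have h0 := hx.pos r hr
    have h3 : x r < Real.sqrt (p - 1) := by linarith
    have h4 : x r ^ 2 < p - 1 := by nlinarith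
    have h5 : ww x r ≤ 0 := div_nonpos_of_nonpos_of_nonneg (by linarith) (by linarith)
    nlinarith

theorem _root_.Match2D.IsProfile.le_p (hx : IsProfile p x) (hp1 : 1 ≤ p) {r : ℝ} (hr : 0 < r) : x r ≤ p := by
  rcases le_total p 2 with h | h
  · exact (hx.le_one h hr).trans hp1
  · have h1 := hx.sq_le h hr
    have h0 := hx.pos r hr
    nlinarith

/-- `|x - 1| ≤ |p - 2| r / 2`. -/
theorem _root_.Match2D.IsProfile.abs_sub_one_le (hx : IsProfile p x) {r : ℝ} (hr : 0 < r) :
    |x r - 1| ≤ |p - 2| / 2 * r := by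
  have hdiff : DifferentiableOn ℝ (fun r => x r - (p - 2) / 2 * r) (Ioi 0) := fun y hy =>
    ((hx.hasDerivAt hy).sub ((hasDerivAt_id y).const_mul ((p - 2) / 2))
      ).differentiableAt.differentiableWithinAt
  have hder : ∀ y ∈ Ioi (0 : ℝ), deriv (fun r => x r - (p - 2) / 2 * r) y
      = (1 - x y ^ 2) / 2 - x y * ww x y := by
    intro y hy
    have h := ((hx.hasDerivAt hy).sub ((hasDerivAt_id y).const_mul ((p - 2) / 2)))
    have h' : HasDerivAt (fun r => x r - (p - 2) / 2 * r)
      ((p - 1 - x y ^ 2) / 2 - x y * ww x y - (p - 2) / 2 * 1) y := h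
    rw [h'.deriv]
    ring
  have hlim : Tendsto (fun r => x r - (p - 2) / 2 * r) (𝓝[>] 0) (𝓝 1) := by
    have h1 : Tendsto (fun r : ℝ => (p - 2) / 2 * r) (𝓝[>] 0) (𝓝 ((p - 2) / 2 * 0)) :=
      (tendsto_const_nhds.mul tendsto_id).mono_left nhdsWithin_le_nhds
    simpa using hx.lim.sub h1
  rcases le_total p 2 with h | h
  · have hmono : MonotoneOn (fun r => x r - (p - 2) / 2 * r) (Ioi 0) := by
      refine monotoneOn_of_deriv_nonneg (convex_Ioi 0) hdiff.continuousOn ?_ ?_
      · rw [interior_Ioi]; exact hdiff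
      · intro y hy
        rw [interior_Ioi] at hy
        rw [hder y hy]
        have h0 := hx.pos y hy
        have h1 := hx.le_one h hy
        have h2 : x y ^ 2 ≤ 1 := by nlinarith
        have h5 : ww x y ≤ 0 := div_nonpos_of_nonpos_of_nonneg (by linarith)
          (by linarith [show (0 : ℝ) < y from hy])
        nlinarith
    have h3 : 1 ≤ x r - (p - 2) / 2 * r := by
      refine le_of_tendsto hlim ?_
      filter_upwards [Ioo_mem_nhdsGT hr] with y hy using hmono hy.1 hr hy.2.le
    have h4 := hx.le_one h hr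
    rw [abs_of_nonpos (by linarith), abs_of_nonpos (by linarith)]
    linarith
  · have hmono : AntitoneOn (fun r => x r - (p - 2) / 2 * r) (Ioi 0) := by
      refine antitoneOn_of_deriv_nonpos (convex_Ioi 0) hdiff.continuousOn ?_ ?_
      · rw [interior_Ioi]; exact hdiff
      · intro y hy
        rw [interior_Ioi] at hy
        rw [hder y hy]
        have h0 := hx.pos y hy
        have h1 := hx.one_le h hy
        have h2 : 1 ≤ x y ^ 2 := by nlinarith
        have h5 : 0 ≤ ww x y := div_nonneg (by linarith)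
          (by linarith [show (0 : ℝ) < y from hy])
        nlinarith
    have h3 : x r - (p - 2) / 2 * r ≤ 1 := by
      refine ge_of_tendsto hlim ?_
      filter_upwards [Ioo_mem_nhdsGT hr] with y hy using hmono hy.1 hr hy.2.le
    have h4 := hx.one_le h hr
    rw [abs_of_nonneg (by linarith), abs_of_nonneg (by linarith)]
    linarith

theorem _root_.Match2D.IsProfile.abs_ww_le (hx : IsProfile p x) (hp1 : 1 ≤ p) {r : ℝ} (hr : 0 < r) :
    |ww x r| ≤ p ^ 2 / (1 + r) := by
  have h0 := hx.pos r hr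
  have hp := hx.le_p hp1 hr
  have h1 := hx.abs_sub_one_le hr
  have h2 : |p - 2| ≤ p := by
    rw [abs_le]; constructor <;> linarith
  unfold ww
  rw [abs_div, abs_of_pos (by linarith : 0 < 2 * r), div_le_div_iff₀ (by linarith) (by linarith)]
  have h3 : |x r ^ 2 - 1| = |x r - 1| * (x r + 1) := by
    rw [show x r ^ 2 - 1 = (x r - 1) * (x r + 1) by ring, abs_mul,
      abs_of_pos (by linarith : 0 < x r + 1)]
  have h4 : |x r ^ 2 - 1| ≤ p ^ 2 := by
    rw [abs_le]
    constructor <;> nlinarith
  have h5 : |x r - 1| ≤ p / 2 * r := by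
    refine h1.trans ?_
    nlinarith
  have h6 : |x r ^ 2 - 1| ≤ p ^ 2 * r := by
    rw [h3]
    have : |x r - 1| * (x r + 1) ≤ (p / 2 * r) * (p + 1) :=
      mul_le_mul h5 (by linarith) (by linarith) (by positivity)
    nlinarith [mul_nonneg (mul_nonneg hr.le (by linarith : 0 ≤ p)) (sub_nonneg.mpr hp1)]
  nlinarith

theorem _root_.Match2D.IsProfile.abs_ww_le' (hx : IsProfile p x) (hp1 : 1 ≤ p) {r : ℝ} (hr : 0 < r) :
    |ww x r| ≤ p ^ 2 := by
  refine (hx.abs_ww_le hp1 hr).trans ?_
  exact div_le_self (by positivity) (by linarith)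

/-- Bound for the derivative of the profile. -/
theorem _root_.Match2D.IsProfile.abs_deriv_le (hx : IsProfile p x) (hp1 : 1 ≤ p) {r : ℝ} (hr : 0 < r) :
    |(p - 1 - x r ^ 2) / 2 - x r * ww x r| ≤ 2 * p ^ 3 := by
  have h0 := hx.pos r hr
  have hp := hx.le_p hp1 hr
  have h1 := hx.abs_ww_le' hp1 hr
  have h2 : |(p - 1 - x r ^ 2) / 2| ≤ p ^ 3 := by
    rw [abs_le]
    constructor <;> nlinarith [sq_nonneg (x r), pow_le_pow_left₀ h0.le hp 2]
  have h3 : |x r * ww x r| ≤ p ^ 3 := by
    rw [abs_mul, abs_of_pos h0]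
    calc x r * |ww x r| ≤ p * p ^ 2 := mul_le_mul hp h1 (abs_nonneg _) (by linarith)
      _ = p ^ 3 := by ring
  calc _ ≤ |(p - 1 - x r ^ 2) / 2| + |x r * ww x r| := abs_sub _ _
    _ ≤ _ := by linarith

theorem _root_.Match2D.IsProfile.continuousOn (hx : IsProfile p x) : ContinuousOn x (Ioi 0) := fun _ hy =>
  (hx.hasDerivAt hy).continuousAt.continuousWithinAt

theorem _root_.Match2D.IsProfile.continuousOn_ww (hx : IsProfile p x) : ContinuousOn (ww x) (Ioi 0) := by
  unfold ww
  refine ((hx.continuousOn.pow 2).sub continuousOn_const).div (by fun_prop) ?_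
  intro y hy
  have : (0 : ℝ) < y := hy
  positivity

/-! ### Integrability -/

theorem _root_.Match2D.IsProfile.integrable_one (hx : IsProfile p x) (hp1 : 1 ≤ p) :
    IntegrableOn (fun r => (1 - x r ^ 2) / r) (Ioc 0 1) := by
  have hc : ContinuousOn (fun r => (1 - x r ^ 2) / r) (Ioc 0 1) := by
    refine (continuousOn_const.sub ((hx.continuousOn.mono Ioc_subset_Ioi_self).pow 2)).div
      continuousOn_id ?_
    intro y hy
    exact hy.1.ne'
  refine (integrable_const (2 * p ^ 2)).mono' (hc.aestronglyMeasurable measurableSet_Ioc) ?_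
  refine (ae_restrict_mem measurableSet_Ioc).mono fun r hr => ?_
  have h := hx.abs_ww_le' hp1 hr.1
  have e : (1 - x r ^ 2) / r = -(2 * ww x r) := by
    unfold ww
    have := hr.1.ne'
    field_simp
    ring
  rw [e, norm_neg, Real.norm_eq_abs, abs_mul, abs_two]
  linarith

theorem _root_.Match2D.IsProfile.integrable_two (hx : IsProfile p x) (hp1 : 1 ≤ p) :
    IntegrableOn (fun r => (p - 1 - x r ^ 2) / r) (Ioi 1) := by
  set f : ℝ → ℝ := fun r => (p - 1 - x r ^ 2) / r with hf
  set h : ℝ → ℝ := fun r => (x r ^ 3 + x r) / r ^ 2 with hh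
  have hxc : ContinuousOn x (Ici 1) := hx.continuousOn.mono fun y hy =>
    show (0 : ℝ) < y from lt_of_lt_of_le one_pos hy
  have hfc : ContinuousOn f (Ici 1) := by
    refine (continuousOn_const.sub (hxc.pow 2)).div continuousOn_id ?_
    intro y hy
    exact (lt_of_lt_of_le one_pos hy).ne'
  have hhc : ContinuousOn h (Ici 1) := by
    refine ((hxc.pow 3).add hxc).div (by fun_prop) ?_
    intro y hy
    have : (0 : ℝ) < y := lt_of_lt_of_le one_pos hy
    positivity
  have hIcc : ∀ b : ℝ, Icc (1 : ℝ) b ⊆ Ici 1 := fun b y hy => hy.1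
  have hint : ∀ b : ℝ, IntegrableOn f (Ioc 1 b) := fun b =>
    ((hfc.mono (hIcc b)).integrableOn_Icc).mono_set Ioc_subset_Icc_self
  -- the integral of `f` over `[1, b]`
  have hI : ∀ b, 1 ≤ b → |∫ r in (1 : ℝ)..b, f r| ≤ 4 * p + 2 * p ^ 3 := by
    intro b hb
    have hg : ∀ r ∈ uIcc 1 b, HasDerivAt (fun r => 2 * x r / r) (f r - h r) r := by
      intro r hr
      rw [uIcc_of_le hb] at hr
      have hr0 : 0 < r := lt_of_lt_of_le one_pos hr.1
      have h1 : HasDerivAt (fun r => 2 * x r / r)
          ((2 * ((p - 1 - x r ^ 2) / 2 - x r * ww x r) * r - 2 * x r * 1) / r ^ 2) r :=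
        ((hx.hasDerivAt hr0).const_mul 2).div (hasDerivAt_id r) hr0.ne'
      have e : (2 * ((p - 1 - x r ^ 2) / 2 - x r * ww x r) * r - 2 * x r * 1) / r ^ 2
          = f r - h r := by
        simp only [f, h, ww]
        field_simp
        ring
      rwa [e] at h1
    have hci : IntervalIntegrable (fun r => f r - h r) volume 1 b := by
      refine ContinuousOn.intervalIntegrable ?_
      rw [uIcc_of_le hb]
      exact (hfc.mono (hIcc b)).sub (hhc.mono (hIcc b))
    have hhi : IntervalIntegrable h volume 1 b := by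
      refine ContinuousOn.intervalIntegrable ?_
      rw [uIcc_of_le hb]
      exact hhc.mono (hIcc b)
    have h1 := intervalIntegral.integral_eq_sub_of_hasDerivAt hg hci
    have h2 : ∫ r in (1 : ℝ)..b, f r = (2 * x b / b - 2 * x 1 / 1) + ∫ r in (1 : ℝ)..b, h r := by
      rw [← h1, ← intervalIntegral.integral_add hci hhi]
      congr 1
      funext r
      ring
    have h3 : |∫ r in (1 : ℝ)..b, h r| ≤ 2 * p ^ 3 := by
      have hinv : ∀ r ∈ uIcc 1 b, HasDerivAt (fun r => -(2 * p ^ 3 * r⁻¹))
          (2 * p ^ 3 / r ^ 2) r := by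
        intro r hr
        rw [uIcc_of_le hb] at hr
        have hr0 : r ≠ 0 := (lt_of_lt_of_le one_pos hr.1).ne'
        have h1 : HasDerivAt (fun r => -(2 * p ^ 3 * r⁻¹)) (-(2 * p ^ 3 * (-(r ^ 2)⁻¹))) r :=
          ((hasDerivAt_inv hr0).const_mul (2 * p ^ 3)).neg
        have e : -(2 * p ^ 3 * (-(r ^ 2)⁻¹)) = 2 * p ^ 3 / r ^ 2 := by
          rw [div_eq_mul_inv]
          ring
        rwa [e] at h1
      have hci2 : IntervalIntegrable (fun r => 2 * p ^ 3 / r ^ 2) volume 1 b := by
        refine ContinuousOn.intervalIntegrable ?_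
        rw [uIcc_of_le hb]
        refine continuousOn_const.div (by fun_prop) ?_
        intro y hy
        have : (0 : ℝ) < y := lt_of_lt_of_le one_pos hy.1
        positivity
      have h4 := intervalIntegral.norm_integral_le_of_norm_le (f := h)
        (g := fun r => 2 * p ^ 3 / r ^ 2) hb (μ := volume) (a := 1) (b := b)
        (by
          refine Filter.Eventually.of_forall fun r hr => ?_
          have hr0 : 0 < r := one_pos.trans hr.1
          have h0 := hx.pos r hr0
          have hxp := hx.le_p hp1 hr0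
          rw [Real.norm_eq_abs, abs_of_nonneg (by positivity)]
          simp only [h]
          have : x r ^ 3 + x r ≤ 2 * p ^ 3 := by
            have h5 := pow_le_pow_left₀ h0.le hxp 3
            nlinarith [sq_nonneg (p - 1), mul_pos (show 0 < p by linarith) (show 0 < p by linarith)]
          exact div_le_div_of_nonneg_right this (by positivity)) hci2
      rw [intervalIntegral.integral_eq_sub_of_hasDerivAt hinv hci2] at h4
      rw [Real.norm_eq_abs] at h4
      refine h4.trans ?_
      have hb0 : 0 < b⁻¹ := inv_pos.mpr (one_pos.trans_le hb)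
      have hp3 : 0 < p ^ 3 := by positivity
      rw [inv_one]
      nlinarith [mul_pos hp3 hb0]
    have hxb := hx.le_p hp1 (one_pos.trans_le hb)
    have hxb0 := hx.pos b (one_pos.trans_le hb)
    have hx1 := hx.le_p hp1 one_pos
    have hx10 := hx.pos 1 one_pos
    have h5 : 2 * x b / b ≤ 2 * p := by
      refine (div_le_self (by linarith) hb).trans (by linarith)
    have h6 : 0 ≤ 2 * x b / b := by positivity
    rw [abs_le] at h3
    rw [h2, div_one, abs_le]
    constructor <;> linarith [h3.1, h3.2]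
  refine integrableOn_Ioi_of_intervalIntegral_norm_bounded (4 * p + 2 * p ^ 3) 1
    (b := fun b : ℝ => b) (l := atTop) hint tendsto_id ?_
  filter_upwards [eventually_ge_atTop 1] with b hb
  rcases le_total p 2 with hp | hp
  · have e : ∫ r in (1 : ℝ)..b, ‖f r‖ = - ∫ r in (1 : ℝ)..b, f r := by
      rw [← intervalIntegral.integral_neg]
      refine intervalIntegral.integral_congr fun r hr => ?_
      rw [uIcc_of_le hb] at hr
      have hr0 : 0 < r := lt_of_lt_of_le one_pos hr.1
      have := hx.le_sq hp1 hp hr0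
      simp only [Real.norm_eq_abs]
      exact abs_of_nonpos (div_nonpos_of_nonpos_of_nonneg (by linarith) hr0.le)
    rw [e]
    exact (neg_le_abs _).trans (hI b hb)
  · have e : ∫ r in (1 : ℝ)..b, ‖f r‖ = ∫ r in (1 : ℝ)..b, f r := by
      refine intervalIntegral.integral_congr fun r hr => ?_
      rw [uIcc_of_le hb] at hr
      have hr0 : 0 < r := lt_of_lt_of_le one_pos hr.1
      have := hx.sq_le hp hr0
      simp only [Real.norm_eq_abs]
      exact abs_of_nonneg (div_nonneg (by linarith) hr0.le)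
    rw [e]
    exact (le_abs_self _).trans (hI b hb)

end Prof

end Match2D.MG
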