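import Pool.Agent.Work.MP_884187_pr.Bd.B01

/-!
Module G of MP_884187_pr: the value function, its gradient and its Hessian.
-/

set_option autoImplicit false

open MeasureTheory Set Filter Topology

namespace Match2D.MG

/-- `σ = |s|^2 / (2 t)`. -/
noncomputable def sgm (t : ℝ) (s : ℝ × ℝ) : ℝ := (s.1 ^ 2 + s.2 ^ 2) / (2 * t)

/-- The value function. -/
noncomputable def VV (p κ : ℝ) (x : ℝ → ℝ) (t : ℝ) (s : ℝ × ℝ) : ℝ :=
  t ^ (p / 2) * FF p κ x (sgm t s)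

/-- The gradient of the value function. -/
noncomputable def GG (p κ : ℝ) (x : ℝ → ℝ) (t : ℝ) (s : ℝ × ℝ) : ℝ × ℝ :=
  (t ^ (p / 2 - 1) * gam p κ x (sgm t s)) • s

/-- The Hessian of the value function. -/
noncomputable def HH (p κ : ℝ) (x : ℝ → ℝ) (t : ℝ) (s : ℝ × ℝ) : SymM :=
  ⟨t ^ (p / 2 - 1) * (gam p κ x (sgm t s) + gam p κ x (sgm t s) * ww x (sgm t s) * (s.1 ^ 2 / t)),
   t ^ (p / 2 - 1) * (gam p κ x (sgm t s) * ww x (sgm t s) * (s.1 * s.2 / t)),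
   t ^ (p / 2 - 1) * (gam p κ x (sgm t s) + gam p κ x (sgm t s) * ww x (sgm t s) * (s.2 ^ 2 / t))⟩

theorem sgm_eq (t : ℝ) (s : ℝ × ℝ) : sgm t s = len s ^ 2 / (2 * t) := by
  rw [len_sq]; rfl

theorem sgm_nonneg {t : ℝ} (ht : 0 < t) (s : ℝ × ℝ) : 0 ≤ sgm t s := by
  unfold sgm
  positivity

theorem sgm_zero (t : ℝ) : sgm t 0 = 0 := by simp [sgm]

theorem continuous_sgm (t : ℝ) : Continuous (sgm t) := by
  unfold sgm
  fun_prop

/-! ### Polynomial bounds in `(t, s, s')` -/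

/-- The parameter domain. -/
def DD (τ T : ℝ) : Set (ℝ × (ℝ × ℝ) × (ℝ × ℝ)) := {i | i.1 ∈ Icc τ T}

/-- The size. -/
noncomputable def mm (i : ℝ × (ℝ × ℝ) × (ℝ × ℝ)) : ℝ := len i.2.1 + len i.2.2

theorem mm_nonneg (τ T : ℝ) : ∀ i ∈ DD τ T, 0 ≤ mm i := fun _ _ =>
  add_nonneg (len_nonneg _) (len_nonneg _)

section PBs

variable {τ T : ℝ}

theorem pb_rpow (hτ : 0 < τ) (b : ℝ) : PB (DD τ T) mm (fun i => i.1 ^ b) := by
  have hc : ContinuousOn (fun t : ℝ => t ^ b) (Icc τ T) := fun t ht =>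
    (Real.continuousAt_rpow_const t b (Or.inl (hτ.trans_le ht.1).ne')).continuousWithinAt
  obtain ⟨C, hC⟩ := isCompact_Icc.exists_bound_of_continuousOn hc
  exact PB.of_bound C fun i hi => hC i.1 hi

theorem pb_inv (hτ : 0 < τ) : PB (DD τ T) mm (fun i => i.1⁻¹) := by
  refine PB.of_bound τ⁻¹ fun i hi => ?_
  have h1 : 0 < i.1 := hτ.trans_le hi.1
  rw [abs_of_pos (inv_pos.mpr h1)]
  exact (inv_le_inv₀ h1 hτ).mpr hi.1

theorem pb_fst : PB (DD τ T) mm (fun i => i.1) := by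
  refine PB.of_bound (max |τ| |T|) fun i hi => ?_
  exact abs_le_max_abs_abs hi.1 hi.2

theorem pb_len1 : PB (DD τ T) mm (fun i => len i.2.1) :=
  (PB.self (mm_nonneg τ T)).mono fun i hi => by
    rw [abs_of_nonneg (len_nonneg _), abs_of_nonneg (mm_nonneg τ T i hi)]
    exact le_add_of_nonneg_right (len_nonneg _)

theorem pb_len2 : PB (DD τ T) mm (fun i => len i.2.2) :=
  (PB.self (mm_nonneg τ T)).mono fun i hi => by
    rw [abs_of_nonneg (len_nonneg _), abs_of_nonneg (mm_nonneg τ T i hi)]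
    exact le_add_of_nonneg_left (len_nonneg _)

theorem pb_sg1 (hτ : 0 < τ) : PB (DD τ T) mm (fun i => sgm i.1 i.2.1) := by
  have h := ((pb_len1 (τ := τ) (T := T)).pow (mm_nonneg τ T) 2).mul
    ((pb_inv (T := T) hτ).const_mul (mm_nonneg τ T) (1 / 2))
  refine h.mono fun i hi => le_of_eq ?_
  congr 1
  rw [sgm_eq]
  have h1 : i.1 ≠ 0 := (hτ.trans_le hi.1).ne'
  field_simp

theorem pb_sg2 (hτ : 0 < τ) : PB (DD τ T) mm (fun i => sgm i.1 i.2.2) := by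
  have h := ((pb_len2 (τ := τ) (T := T)).pow (mm_nonneg τ T) 2).mul
    ((pb_inv (T := T) hτ).const_mul (mm_nonneg τ T) (1 / 2))
  refine h.mono fun i hi => le_of_eq ?_
  congr 1
  rw [sgm_eq]
  have h1 : i.1 ≠ 0 := (hτ.trans_le hi.1).ne'
  field_simp

end PBs

theorem sgm_diff {t : ℝ} (ht : 0 < t) (s s' : ℝ × ℝ) :
    |sgm t s - sgm t s'| ≤ len (s - s') * (len s + len s') * (t⁻¹ / 2) := by
  have h := abs_len_sq_sub s s'
  have e : sgm t s - sgm t s' = (len s ^ 2 - len s' ^ 2) * (t⁻¹ / 2) := by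
    rw [sgm_eq, sgm_eq]
    field_simp
  rw [e, abs_mul, abs_of_pos (by positivity : 0 < t⁻¹ / 2)]
  exact mul_le_mul_of_nonneg_right h (by positivity)

/-! ### Taylor expansion in one variable -/

theorem taylor_one {φ φ' φ'' : ℝ → ℝ} (h1 : ∀ u ∈ Icc (0 : ℝ) 1, HasDerivAt φ (φ' u) u)
    (h2 : ∀ u ∈ Icc (0 : ℝ) 1, HasDerivAt φ' (φ'' u) u) {K : ℝ}
    (hK : ∀ u ∈ Icc (0 : ℝ) 1, |φ'' u - φ'' 0| ≤ K) :
    |φ 1 - φ 0 - φ' 0 - φ'' 0 / 2| ≤ K := by
  have hK0 : 0 ≤ K := (abs_nonneg _).trans (hK 0 (by simp))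
  have a1 : ∀ u ∈ Icc (0 : ℝ) 1, ‖(φ' u - u * φ'' 0) - (φ' 0 - 0 * φ'' 0)‖ ≤ K * (u - 0) := by
    refine norm_image_sub_le_of_norm_deriv_le_segment' (f := fun u => φ' u - u * φ'' 0)
      (f' := fun u => φ'' u - 1 * φ'' 0) ?_ ?_
    · intro u hu
      exact ((h2 u hu).sub ((hasDerivAt_id u).mul_const (φ'' 0))).hasDerivWithinAt
    · intro u hu
      rw [one_mul, Real.norm_eq_abs]
      exact hK u ⟨hu.1, hu.2.le⟩
  have a2 : ∀ u ∈ Icc (0 : ℝ) 1, ‖(φ u - u * φ' 0 - u ^ 2 * (φ'' 0 / 2)) -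
      (φ 0 - 0 * φ' 0 - 0 ^ 2 * (φ'' 0 / 2))‖ ≤ K * (u - 0) := by
    refine norm_image_sub_le_of_norm_deriv_le_segment'
      (f := fun u => φ u - u * φ' 0 - u ^ 2 * (φ'' 0 / 2))
      (f' := fun u => φ' u - 1 * φ' 0 - (2 * u ^ (2 - 1) * 1) * (φ'' 0 / 2)) ?_ ?_
    · intro u hu
      have h3 : HasDerivAt (fun u : ℝ => u ^ 2) (2 * u ^ (2 - 1) * 1) u := by
        simpa using hasDerivAt_pow 2 u
      exact (((h1 u hu).sub ((hasDerivAt_id u).mul_const (φ' 0))).sub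
        (h3.mul_const (φ'' 0 / 2))).hasDerivWithinAt
    · intro u hu
      have h4 := a1 u ⟨hu.1, hu.2.le⟩
      have e : φ' u - 1 * φ' 0 - (2 * u ^ (2 - 1) * 1) * (φ'' 0 / 2)
          = (φ' u - u * φ'' 0) - (φ' 0 - 0 * φ'' 0) := by ring
      rw [e]
      refine h4.trans ?_
      have := hu.1
      have := hu.2
      nlinarith
  have a3 := a2 1 (by simp)
  rw [Real.norm_eq_abs] at a3
  have e : φ 1 - φ 0 - φ' 0 - φ'' 0 / 2 = (φ 1 - 1 * φ' 0 - 1 ^ 2 * (φ'' 0 / 2)) -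
      (φ 0 - 0 * φ' 0 - 0 ^ 2 * (φ'' 0 / 2)) := by ring
  rw [e]
  linarith

/-- Product rule for a continuous function times a function vanishing at the point. -/
theorem hasDerivAt_mul_zero {f g : ℝ → ℝ} {u g' : ℝ} (hf : ContinuousAt f u) (hg0 : g u = 0)
    (hg : HasDerivAt g g' u) : HasDerivAt (fun y => f y * g y) (f u * g') u := by
  rw [hasDerivAt_iff_tendsto_slope] at hg ⊢
  have h1 : Tendsto (fun y => f y * slope g u y) (𝓝[≠] u) (𝓝 (f u * g')) :=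
    (hf.mono_left nhdsWithin_le_nhds).mul hg
  refine h1.congr fun y => ?_
  rw [slope_def_field, slope_def_field, hg0, mul_zero, sub_zero, sub_zero]
  ring

section

variable {p : ℝ} {x : ℝ → ℝ} (hx : IsProf0 p x)
include hx

/-! ### The Hessian -/

theorem IsProf0.det_HH {κ t : ℝ} (ht : 0 < t) (s : ℝ × ℝ) :
    (HH p κ x t s).det = (t ^ (p / 2 - 1) * gam p κ x (sgm t s) * x (sgm t s)) ^ 2 := by
  have h1 := hx.two_mul_ww (sgm_nonneg ht s)
  have h2 : 2 * sgm t s = s.1 ^ 2 / t + s.2 ^ 2 / t := by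
    unfold sgm
    field_simp
  rw [h2] at h1
  have h3 : s.1 ^ 2 / t * (s.2 ^ 2 / t) = (s.1 * s.2 / t) ^ 2 := by ring
  simp only [HH, SymM.det]
  linear_combination (t ^ (p / 2 - 1)) ^ 2 * (gam p κ x (sgm t s)) ^ 2 * h1
    + (t ^ (p / 2 - 1)) ^ 2 * (gam p κ x (sgm t s)) ^ 2 * (ww x (sgm t s)) ^ 2 * h3

variable {κ : ℝ} (hκ : 0 < κ)
include hκ

theorem IsProf0.sqrt_det_HH {t : ℝ} (ht : 0 < t) (s : ℝ × ℝ) :
    Real.sqrt (HH p κ x t s).det = t ^ (p / 2 - 1) * gam p κ x (sgm t s) * x (sgm t s) := by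
  rw [hx.det_HH ht]
  refine Real.sqrt_sq ?_
  have h1 := hx.gam_pos hκ (sgm t s)
  have h2 := hx.pos' (sgm t s)
  positivity

theorem IsProf0.det_HH_pos {t : ℝ} (ht : 0 < t) (s : ℝ × ℝ) : 0 < (HH p κ x t s).det := by
  rw [hx.det_HH ht]
  have h1 := hx.gam_pos hκ (sgm t s)
  have h2 := hx.pos' (sgm t s)
  positivity

/-- Lower bound for the quadratic form of the Hessian. -/
theorem IsProf0.qf_HH_ge {t : ℝ} (ht : 0 < t) (s v : ℝ × ℝ) :
    t ^ (p / 2 - 1) * gam p κ x (sgm t s) * min 1 (x (sgm t s) ^ 2) * len v ^ 2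
      ≤ (HH p κ x t s).qf v := by
  have h1 := hx.two_mul_ww (sgm_nonneg ht s)
  have h2 : 2 * sgm t s = (s.1 ^ 2 + s.2 ^ 2) / t := by
    unfold sgm
    field_simp
  rw [h2] at h1
  have hg := hx.gam_pos hκ (sgm t s)
  have htp : 0 < t ^ (p / 2 - 1) := Real.rpow_pos_of_pos ht _
  set W := ww x (sgm t s) with hW
  set g := gam p κ x (sgm t s) with hgdef
  set X := x (sgm t s) with hX
  have e : (HH p κ x t s).qf v = t ^ (p / 2 - 1) * g * (len v ^ 2 + W * ((dot s v) ^ 2 / t)) := by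
    rw [len_sq]
    simp only [HH, SymM.qf, dot]
    rw [← hgdef, ← hW]
    ring
  rw [e, mul_assoc (t ^ (p / 2 - 1) * g)]
  refine mul_le_mul_of_nonneg_left ?_ (by positivity)
  have h3 : (dot s v) ^ 2 ≤ (s.1 ^ 2 + s.2 ^ 2) * len v ^ 2 := by
    rw [len_sq]
    unfold dot
    nlinarith [sq_nonneg (s.1 * v.2 - s.2 * v.1)]
  have h4 : 0 ≤ (dot s v) ^ 2 / t := by positivity
  have h5 : (dot s v) ^ 2 / t ≤ (s.1 ^ 2 + s.2 ^ 2) / t * len v ^ 2 := by
    rw [div_mul_eq_mul_div]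
    exact div_le_div_of_nonneg_right h3 ht.le
  have h6 := sq_nonneg (len v)
  rcases le_or_gt 0 W with h | h
  · have h7 : min 1 (X ^ 2) ≤ 1 := min_le_left _ _
    have h8 : 0 ≤ W * ((dot s v) ^ 2 / t) := mul_nonneg h h4
    nlinarith
  · have h7 : min 1 (X ^ 2) ≤ X ^ 2 := min_le_right _ _
    have h8 : W * ((s.1 ^ 2 + s.2 ^ 2) / t * len v ^ 2) ≤ W * ((dot s v) ^ 2 / t) :=
      mul_le_mul_of_nonpos_left h5 h.le
    nlinarith

theorem IsProf0.a_HH_pos {t : ℝ} (ht : 0 < t) (s : ℝ × ℝ) : 0 < (HH p κ x t s).a := by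
  have h := hx.qf_HH_ge hκ ht s (1, 0)
  have e : (HH p κ x t s).qf (1, 0) = (HH p κ x t s).a := by simp [SymM.qf]
  have e2 : len (1, 0) ^ 2 = 1 := by rw [len_sq]; norm_num
  rw [e, e2, mul_one] at h
  refine lt_of_lt_of_le ?_ h
  have h1 := hx.gam_pos hκ (sgm t s)
  have h2 := hx.pos' (sgm t s)
  have h3 : 0 < min 1 (x (sgm t s) ^ 2) := lt_min one_pos (by positivity)
  positivity

/-- The Hessian is locally Lipschitz. -/
theorem IsProf0.hlip_HH {τ T : ℝ} (hτ : 0 < τ) : ∃ (C : ℝ) (k : ℕ), 0 < C ∧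
    ∀ t ∈ Icc τ T, ∀ s s', SymM.dst (HH p κ x t s) (HH p κ x t s')
      ≤ C * (1 + len s + len s') ^ k * len (s - s') := by
  have hm := mm_nonneg τ T
  obtain ⟨L1, hL1, hL1', hL1''⟩ := (hx.pl_gam hκ).comp hm (pb_sg1 (T := T) hτ)
    (fun i hi => sgm_nonneg (hτ.trans_le hi.1) _) (pb_sg2 (T := T) hτ)
    (fun i hi => sgm_nonneg (hτ.trans_le hi.1) _)
  obtain ⟨C3, k3, hC3, h3⟩ := hx.gw_diff hκ
  set L3 : ℝ × (ℝ × ℝ) × (ℝ × ℝ) → ℝ := fun i => C3 * (1 + sgm i.1 i.2.1 + sgm i.1 i.2.2) ^ k3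
    with hL3
  have hL3b : PB (DD τ T) mm L3 :=
    (((((PB.const hm 1).add hm (pb_sg1 hτ)).add hm (pb_sg2 hτ)).pow hm k3)).const_mul hm C3
  have hA : PB (DD τ T) mm (fun i => gam p κ x (sgm i.1 i.2.2) * ww x (sgm i.1 i.2.2)) :=
    (hx.pg_gw hκ).comp hm (pb_sg2 (T := T) hτ) (fun i hi => sgm_nonneg (hτ.trans_le hi.1) _)
  have hΦ : PB (DD τ T) mm (fun i => 4 * (i.1 ^ (p / 2 - 1) * (mm i * i.1⁻¹) *
      ((1 / 2) * L1 i + L3 i + |gam p κ x (sgm i.1 i.2.2) * ww x (sgm i.1 i.2.2)|))) :=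
    (((pb_rpow hτ _).mul ((PB.self hm).mul (pb_inv hτ))).mul
      (((hL1.const_mul hm (1 / 2)).add hm hL3b).add hm hA.abs)).const_mul hm 4
  obtain ⟨C, k, hC, hk⟩ := hΦ
  refine ⟨C, k, hC, fun t ht s s' => ?_⟩
  have ht0 : 0 < t := hτ.trans_le ht.1
  have hi : ((t, s, s') : ℝ × (ℝ × ℝ) × (ℝ × ℝ)) ∈ DD τ T := ht
  have hk' := hk (t, s, s') hi
  have a1 := hL1'' (t, s, s') hi
  have a3 := h3 (sgm t s) (sgm t s') (sgm_nonneg ht0 _) (sgm_nonneg ht0 _)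
  have a0 := hL1' (t, s, s') hi
  simp only [hL3, mm] at hk' a1 a0
  set d := len (s - s') with hd
  set M := len s + len s' with hM
  set σ := sgm t s
  set σ' := sgm t s'
  set A := gam p κ x σ * ww x σ
  set A' := gam p κ x σ' * ww x σ'
  set l1 := L1 (t, s, s')
  set l3 := C3 * (1 + σ + σ') ^ k3 with hl3
  have hd0 : 0 ≤ d := len_nonneg _
  have hM0 : 0 ≤ M := add_nonneg (len_nonneg _) (len_nonneg _)
  have hσ0 : 0 ≤ σ := sgm_nonneg ht0 _
  have hσ0' : 0 ≤ σ' := sgm_nonneg ht0 _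
  have hl30 : 0 ≤ l3 := by positivity
  have htp : 0 < t ^ (p / 2 - 1) := Real.rpow_pos_of_pos ht0 _
  have hti : 0 < t⁻¹ := inv_pos.mpr ht0
  have hσd : |σ - σ'| ≤ d * M * (t⁻¹ / 2) := sgm_diff ht0 s s'
  have g1 : |gam p κ x σ - gam p κ x σ'| ≤ l1 * (d * M * (t⁻¹ / 2)) :=
    a1.trans (mul_le_mul_of_nonneg_left hσd a0)
  -- coordinates
  have hdiff1 : |s.1 - s'.1| ≤ d := abs_fst_le (s - s')
  have hdiff2 : |s.2 - s'.2| ≤ d := abs_snd_le (s - s')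
  have hsq : 2 * t * σ = len s ^ 2 := by
    have := sgm_eq t s
    rw [show σ = len s ^ 2 / (2 * t) from this]
    field_simp
  have hprod : ∀ a b a' b' : ℝ, |a| ≤ len s → |b| ≤ len s → |b'| ≤ len s' → |a - a'| ≤ d →
      |b - b'| ≤ d → |A * (a * b / t) - A' * (a' * b' / t)| ≤ t⁻¹ * (d * M * (l3 + |A'|)) := by
    intro a b a' b' ha hb hb' h1 h2
    have e : A * (a * b / t) - A' * (a' * b' / t)
        = t⁻¹ * ((A - A') * (a * b) + A' * (a * b - a' * b')) := by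
      field_simp
      ring
    rw [e, abs_mul, abs_of_pos hti]
    refine mul_le_mul_of_nonneg_left ?_ hti.le
    have hab : |a * b| ≤ len s ^ 2 := by
      rw [abs_mul, sq]
      exact mul_le_mul ha hb (abs_nonneg _) (len_nonneg _)
    have b1 : |(A - A') * (a * b)| ≤ l3 * (d * M) := by
      rw [abs_mul]
      calc |A - A'| * |a * b| ≤ |A - A'| * (2 * t * σ) := by
            rw [hsq]
            exact mul_le_mul_of_nonneg_left hab (abs_nonneg _)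
        _ = 2 * t * (σ * |A - A'|) := by ring
        _ ≤ 2 * t * (l3 * (d * M * (t⁻¹ / 2))) := by
            refine mul_le_mul_of_nonneg_left (a3.trans ?_) (by positivity)
            exact mul_le_mul_of_nonneg_left hσd hl30
        _ = l3 * (d * M) := by
            field_simp
    have b2 : |A' * (a * b - a' * b')| ≤ |A'| * (d * M) := by
      rw [abs_mul]
      exact mul_le_mul_of_nonneg_left (abs_mul_sub_mul a b a' b' _ _ ha hb' h1 h2 hd0)
        (abs_nonneg _)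
    refine (abs_add_le _ _).trans ((add_le_add b1 b2).trans (le_of_eq ?_))
    ring
  have p11 := hprod s.1 s.1 s'.1 s'.1 (abs_fst_le s) (abs_fst_le s) (abs_fst_le s') hdiff1 hdiff1
  have p12 := hprod s.1 s.2 s'.1 s'.2 (abs_fst_le s) (abs_snd_le s) (abs_snd_le s') hdiff1 hdiff2
  have p22 := hprod s.2 s.2 s'.2 s'.2 (abs_snd_le s) (abs_snd_le s) (abs_snd_le s') hdiff2 hdiff2
  set B := t⁻¹ * (d * M * (l3 + |A'|)) with hB
  set G1 := l1 * (d * M * (t⁻¹ / 2)) with hG1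
  have ea : |(HH p κ x t s).a - (HH p κ x t s').a| ≤ t ^ (p / 2 - 1) * (G1 + B) := by
    have e : (HH p κ x t s).a - (HH p κ x t s').a = t ^ (p / 2 - 1) *
        ((gam p κ x σ - gam p κ x σ') + (A * (s.1 * s.1 / t) - A' * (s'.1 * s'.1 / t))) := by
      simp only [HH, A, A', σ, σ']
      ring
    rw [e, abs_mul, abs_of_pos htp]
    exact mul_le_mul_of_nonneg_left ((abs_add_le _ _).trans (add_le_add g1 p11)) htp.le
  have ec : |(HH p κ x t s).c - (HH p κ x t s').c| ≤ t ^ (p / 2 - 1) * (G1 + B) := by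
    have e : (HH p κ x t s).c - (HH p κ x t s').c = t ^ (p / 2 - 1) *
        ((gam p κ x σ - gam p κ x σ') + (A * (s.2 * s.2 / t) - A' * (s'.2 * s'.2 / t))) := by
      simp only [HH, A, A', σ, σ']
      ring
    rw [e, abs_mul, abs_of_pos htp]
    exact mul_le_mul_of_nonneg_left ((abs_add_le _ _).trans (add_le_add g1 p22)) htp.le
  have eb : |(HH p κ x t s).b - (HH p κ x t s').b| ≤ t ^ (p / 2 - 1) * B := by
    have e : (HH p κ x t s).b - (HH p κ x t s').b = t ^ (p / 2 - 1) *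
        (A * (s.1 * s.2 / t) - A' * (s'.1 * s'.2 / t)) := by
      simp only [HH, A, A', σ, σ']
      ring
    rw [e, abs_mul, abs_of_pos htp]
    exact mul_le_mul_of_nonneg_left p12 htp.le
  have hG10 : 0 ≤ G1 := by positivity
  have hB0 : 0 ≤ B := by positivity
  have hfin : SymM.dst (HH p κ x t s) (HH p κ x t s') ≤ 4 * (t ^ (p / 2 - 1) * (G1 + B)) := by
    unfold SymM.dst
    have : t ^ (p / 2 - 1) * B ≤ t ^ (p / 2 - 1) * (G1 + B) :=
      mul_le_mul_of_nonneg_left (by linarith) htp.le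
    linarith
  refine hfin.trans ?_
  have e : 4 * (t ^ (p / 2 - 1) * (G1 + B)) = 4 * (t ^ (p / 2 - 1) * (M * t⁻¹) *
      ((1 / 2) * l1 + l3 + |A'|)) * d := by
    rw [hG1, hB]
    ring
  rw [e]
  refine mul_le_mul_of_nonneg_right ?_ hd0
  refine (le_abs_self _).trans (hk'.trans (le_of_eq ?_))
  rw [hM]
  ring

end

end Match2D.MG
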